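import Pool.Agent.PLN.Cx1

/-!
# The Peaucellier lemma and the two gadgets (from signals to real numbers)

`peau`: from `|Q - aᵢ|² = r²` we get `2 Re (aᵢ conj Q) = 1 + |Q|² - r²` for `i = 1, 2`.  So the
numbers `aᵢ conj Q` have the same real part and the same modulus `|Q|`, hence imaginary parts equal
up to sign; if they are equal, `a₁ conj Q = a₂ conj Q`, so `Q = 0` (as `a₁ ≠ a₂`), and then `r = 1`
and both sides are `0`.  Otherwise `Im ((a₁ + a₂) conj Q) = 0`, so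
`(a₁ + a₂) conj Q = 1 + |Q|² - r²` and `(Q - a₁ - a₂) conj Q = r² - 1`.

`varG`: let `Q = (1 - rho)(1 + w)`, `a₁ = - α`, `a₂ = rho β`.  `E1` says `Q - a₁ = (3 - 2 rho) w₁`
and `E2` says `Q - a₂ = (2 - 3 rho) w₂`; `|3 - 2 rho|² = |2 - 3 rho|² = 13 - 12 rho.re = 103/7`.  So
`R = Q - a₁ - a₂` satisfies `R conj Q = 96/7`.  As `(1 - rho)(1 - conj rho) = 16/7`, this gives
`R (1 + conj w) = 6 (1 - rho)`; in particular `1 + w ≠ 0`, so `0 < 1 + w.re` (`|w| = 1`).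
The left side of the claim is `D = R - 3 (1 - rho)`, and
`D (1 + conj w) = 3 (1 - rho)(1 - conj w)`; multiply by `1 + w`:
`D |1 + w|² = 3 (1 - rho) * 2 i w.im`, `|1 + w|² = 2 (1 + w.re)`, and
`i (1 - rho) = (2/√3)(1 + rho)`.

`invG`: `a₁ = - a`, `a₂ = - rho b`; `|2 + rho|² = |1 + 2 rho|² = 5 + 4 rho.re = 31/7`; so
`(Q + a + rho b) conj Q = 24/7`, `conj Q = (1 + x)(1 + conj rho)`,
`(1 + rho)(1 + conj rho) = 12/7`.
-/

namespace Pool.Agent.PLN

theorem peau {Q a₁ a₂ : ℂ} {r : ℝ} (n₁ : ‖a₁‖ = 1) (n₂ : ‖a₂‖ = 1) (h₁ : ‖Q - a₁‖ = r)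
    (h₂ : ‖Q - a₂‖ = r) (h : a₁ ≠ a₂) :
    (Q - a₁ - a₂) * (starRingEnd ℂ) Q = ((r ^ 2 - 1 : ℝ) : ℂ) := by
  have e1 : a₁.re * a₁.re + a₁.im * a₁.im = 1 := by
    rw [← Complex.normSq_apply, ← Complex.sq_norm, n₁, one_pow]
  have e2 : a₂.re * a₂.re + a₂.im * a₂.im = 1 := by
    rw [← Complex.normSq_apply, ← Complex.sq_norm, n₂, one_pow]
  have e3 : (Q.re - a₁.re) * (Q.re - a₁.re) + (Q.im - a₁.im) * (Q.im - a₁.im) = r ^ 2 := by
    rw [← h₁, Complex.sq_norm, Complex.normSq_apply, Complex.sub_re, Complex.sub_im]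
  have e4 : (Q.re - a₂.re) * (Q.re - a₂.re) + (Q.im - a₂.im) * (Q.im - a₂.im) = r ^ 2 := by
    rw [← h₂, Complex.sq_norm, Complex.normSq_apply, Complex.sub_re, Complex.sub_im]
  have hne : a₁.re - a₂.re ≠ 0 ∨ a₁.im - a₂.im ≠ 0 := by
    by_contra hc
    push Not at hc
    exact h (Complex.ext (sub_eq_zero.1 hc.1) (sub_eq_zero.1 hc.2))
  have f1 : (a₁.re - a₂.re) * Q.re + (a₁.im - a₂.im) * Q.im = 0 := by linarith
  have f2 : (a₁.re - a₂.re) * (a₁.re + a₂.re) + (a₁.im - a₂.im) * (a₁.im + a₂.im) = 0 := by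
    linarith
  have f3 : (a₁.re + a₂.re) * Q.im - (a₁.im + a₂.im) * Q.re = 0 := by
    rcases hne with hne | hne
    · refine mul_left_cancel₀ hne ?_
      linear_combination Q.im * f2 - (a₁.im + a₂.im) * f1
    · refine mul_left_cancel₀ hne ?_
      linear_combination (a₁.re + a₂.re) * f1 - Q.re * f2
  apply Complex.ext
  · rw [Complex.mul_re, Complex.conj_re, Complex.conj_im, Complex.ofReal_re, Complex.sub_re,
      Complex.sub_re, Complex.sub_im, Complex.sub_im]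
    linarith
  · rw [Complex.mul_im, Complex.conj_re, Complex.conj_im, Complex.ofReal_im, Complex.sub_re,
      Complex.sub_re, Complex.sub_im, Complex.sub_im]
    linarith

/-- the product of `a + b rho` with its conjugate -/
private theorem Al1_mc (a b : ℝ) : ((a : ℂ) + b * rho) * ((a : ℂ) + b * (starRingEnd ℂ) rho) =
    ((a ^ 2 + b ^ 2 - 2 / 7 * (a * b) : ℝ) : ℂ) := by
  have h := Complex.mul_conj ((a : ℂ) + b * rho)
  rw [map_add, map_mul, Complex.conj_ofReal, Complex.conj_ofReal] at h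
  rw [h, ← Complex.sq_norm, nrm_ab]

private theorem Al1_I : 3 * Complex.I * (1 - rho) = 2 * (Real.sqrt 3 : ℂ) * (1 + rho) := by
  have h3 : Real.sqrt 3 * Real.sqrt 3 = 3 := Real.mul_self_sqrt (by norm_num)
  apply Complex.ext
  · simp [rho_re, rho_im]
    ring
  · simp [rho_re, rho_im]
    linear_combination -(8 / 7) * h3

theorem varG {w α β w₁ w₂ : ℂ} (nw : ‖w‖ = 1) (nα : ‖α‖ = 1) (nβ : ‖β‖ = 1) (n₁ : ‖w₁‖ = 1)
    (n₂ : ‖w₂‖ = 1) (E1 : α + (1 + w) - 3 * w₁ + rho * (2 * w₁ - 1 - w) = 0)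
    (E2 : 1 + w - 2 * w₂ + rho * (3 * w₂ - 1 - w - β) = 0) (hne : α ≠ -(rho * β)) :
    0 < 1 + w.re ∧ (α + w - 2) - rho * (β + w - 2) =
      ((2 * Real.sqrt 3 * (w.im / (1 + w.re)) : ℝ) : ℂ) * (1 + rho) := by
  have k1 : ‖(3 : ℂ) - 2 * rho‖ ^ 2 = 103 / 7 := by
    have := nrm_ab 3 (-2)
    rw [show ((3 : ℝ) : ℂ) + ((-2 : ℝ) : ℂ) * rho = 3 - 2 * rho by push_cast; ring] at this
    rw [this]; norm_num
  have k2 : ‖(2 : ℂ) - 3 * rho‖ ^ 2 = 103 / 7 := by
    have := nrm_ab 2 (-3)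
    rw [show ((2 : ℝ) : ℂ) + ((-3 : ℝ) : ℂ) * rho = 2 - 3 * rho by push_cast; ring] at this
    rw [this]; norm_num
  have k3 : ‖(2 : ℂ) - 3 * rho‖ = ‖(3 : ℂ) - 2 * rho‖ := by
    have h1 := norm_nonneg ((2 : ℂ) - 3 * rho)
    have h2 := norm_nonneg ((3 : ℂ) - 2 * rho)
    nlinarith
  have hP := peau (Q := (1 - rho) * (1 + w)) (a₁ := -α) (a₂ := rho * β)
    (r := ‖(3 : ℂ) - 2 * rho‖) (by rw [norm_neg, nα]) (by rw [norm_mul, rho_nrm, nβ, one_mul])
    (by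
      rw [show (1 - rho) * (1 + w) - -α = (3 - 2 * rho) * w₁ by linear_combination E1,
        norm_mul, n₁, mul_one])
    (by
      rw [show (1 - rho) * (1 + w) - rho * β = (2 - 3 * rho) * w₂ by linear_combination E2,
        norm_mul, n₂, mul_one, k3])
    (fun h => hne (by rw [← h, neg_neg]))
  rw [k1, map_mul, map_sub, map_add, map_one] at hP
  have hρ := Al1_mc 1 (-1)
  push_cast at hP hρ
  set cw := (starRingEnd ℂ) w with hcw
  set cr := (starRingEnd ℂ) rho with hcr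
  have hR : ((1 - rho) * (1 + w) - -α - rho * β) * (1 + cw) = 6 * (1 - rho) := by
    linear_combination (7 / 16) * (1 - rho) * hP -
      (7 / 16) * ((1 - rho) * (1 + w) - -α - rho * β) * (1 + cw) * hρ
  have hw1 : w * cw = 1 := by
    rw [hcw, Complex.mul_conj, ← Complex.sq_norm, nw]
    norm_num
  have hwa : w + cw = 2 * (w.re : ℂ) := by
    rw [hcw, Complex.add_conj]
    push_cast
    ring
  have hws : w - cw = 2 * (w.im : ℂ) * Complex.I := by
    rw [hcw, Complex.sub_conj]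
    push_cast
    ring
  have hn : w.re * w.re + w.im * w.im = 1 := by
    rw [← Complex.normSq_apply, ← Complex.sq_norm, nw, one_pow]
  have hpos : 0 < 1 + w.re := by
    by_contra hc
    push Not at hc
    have h1 : w.im = 0 := by nlinarith [sq_nonneg w.im, sq_nonneg (w.re + 1)]
    have h2 : w.re = -1 := by
      rw [h1] at hn
      nlinarith
    have h3 : 1 + cw = 0 := by
      have h4 : w = -1 := Complex.ext (by rw [h2]; simp) (by rw [h1]; simp)
      rw [hcw, h4, map_neg, map_one]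
      ring
    rw [h3, mul_zero] at hR
    have h5 : (1 : ℂ) - rho = 0 := by
      have : (6 : ℂ) ≠ 0 := by norm_num
      exact (mul_eq_zero.1 hR.symm).resolve_left this
    have h6 := congrArg Complex.re h5
    rw [Complex.sub_re, rho_re, Complex.one_re, Complex.zero_re] at h6
    norm_num at h6
  refine ⟨hpos, ?_⟩
  have hpos' : (1 : ℂ) + (w.re : ℂ) ≠ 0 := by
    have : ((1 + w.re : ℝ) : ℂ) ≠ 0 := by exact_mod_cast hpos.ne'
    rwa [Complex.ofReal_add, Complex.ofReal_one] at this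
  have key : (1 + (w.re : ℂ)) * ((α + w - 2) - rho * (β + w - 2)) =
      2 * (Real.sqrt 3 : ℂ) * (w.im : ℂ) * (1 + rho) := by
    have e1 : ((α + w - 2) - rho * (β + w - 2)) * (1 + cw) = 3 * (1 - rho) * (1 - cw) := by
      linear_combination hR
    have e2 : ((α + w - 2) - rho * (β + w - 2)) * (2 + 2 * (w.re : ℂ)) =
        3 * (1 - rho) * (2 * (w.im : ℂ) * Complex.I) := by
      rw [← hws, ← hwa]
      linear_combination (1 + w) * e1 - ((α + w - 2) - rho * (β + w - 2)) * hw1 -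
        3 * (1 - rho) * hw1
    linear_combination (1 / 2) * e2 + (w.im : ℂ) * Al1_I
  push_cast
  field_simp
  linear_combination key

theorem invG {x : ℝ} {a b w₃ w₄ : ℂ} (na : ‖a‖ = 1) (nb : ‖b‖ = 1) (n₃ : ‖w₃‖ = 1)
    (n₄ : ‖w₄‖ = 1) (h₁ : (1 + x) * (1 + rho) + a = (2 + rho) * w₃)
    (h₂ : (1 + x) * (1 + rho) + rho * b = (1 + 2 * rho) * w₄) (hne : a ≠ rho * b) :
    (1 + x) * ((1 + x) * (1 + rho) + a + rho * b) = 2 * (1 + rho) := by
  have k1 : ‖(2 : ℂ) + rho‖ ^ 2 = 31 / 7 := by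
    have := nrm_ab 2 1
    rw [show ((2 : ℝ) : ℂ) + ((1 : ℝ) : ℂ) * rho = 2 + rho by push_cast; ring] at this
    rw [this]; norm_num
  have k2 : ‖(1 : ℂ) + 2 * rho‖ ^ 2 = 31 / 7 := by
    have := nrm_ab 1 2
    rw [show ((1 : ℝ) : ℂ) + ((2 : ℝ) : ℂ) * rho = 1 + 2 * rho by push_cast; ring] at this
    rw [this]; norm_num
  have k3 : ‖(1 : ℂ) + 2 * rho‖ = ‖(2 : ℂ) + rho‖ := by
    have h1 := norm_nonneg ((1 : ℂ) + 2 * rho)
    have h2 := norm_nonneg ((2 : ℂ) + rho)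
    nlinarith
  have hP := peau (Q := (1 + x) * (1 + rho)) (a₁ := -a) (a₂ := -(rho * b))
    (r := ‖(2 : ℂ) + rho‖) (by rw [norm_neg, na])
    (by rw [norm_neg, norm_mul, rho_nrm, nb, one_mul])
    (by rw [sub_neg_eq_add, h₁, norm_mul, n₃, mul_one])
    (by rw [sub_neg_eq_add, h₂, norm_mul, n₄, mul_one, k3])
    (fun h => hne (neg_injective h))
  rw [k1, map_mul, map_add, map_add, map_one, Complex.conj_ofReal] at hP
  have hρ := Al1_mc 1 1
  push_cast at hP hρ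
  linear_combination (7 / 12) * (1 + rho) * hP -
    (7 / 12) * (1 + (x : ℂ)) * ((1 + (x : ℂ)) * (1 + rho) + a + rho * b) * hρ

end Pool.Agent.PLN
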