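import Pool.Agent.PLN.Rsd

/-!
# Programs

`slOf_run`: a solution `v` of the straight-line system of the program `l` has `v 0 = 1`,
`v 1 = 0`, `v (2 + n) = v (2 + n + 1) = 0` and follows the machine: by induction on the number of
steps, the registers `(v (2+n+4t), v (2+n+4t+1))` are those after `t` steps, and all checks succeed.
(Prove: for all `l`, `t`: if the constraints `insC (2+n) c (t + i)` of the `i`-th entries `c` of `l`
hold, then `run x l (v (2+n+4t), v (2+n+4t+1))`, where `x i = v (2 + i)`.)
Conversely define `v` from the run of the machine (the temporary register `2 + n + 4 t + 2` is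
`2 A`).  `x` matters only at indices `< n` (`hl`).
-/

namespace Pool.Agent.PLN

theorem slOf_ok {n : ℕ} {l : List Ins} (hl : ∀ c ∈ l, c.1 = 4 → c.2 < n) : (slOf n l).Ok := by
  have hn : (slOf n l).n = 2 + n + 4 * (l.length + 1) := rfl
  refine ⟨by omega, fun d hd => ?_⟩
  rw [hn]
  unfold slOf at hd
  rcases List.mem_append.1 hd with hd | hd
  · simp only [List.mem_cons, List.not_mem_nil, or_false] at hd
    rcases hd with rfl | rfl | rfl | rfl <;> (refine ⟨?_, ?_, ?_⟩ <;> dsimp only <;> omega)
  · obtain ⟨⟨c, t⟩, hc, hd⟩ := List.mem_flatMap.1 hd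
    have hc' := List.mem_zipIdx_iff_getElem?.1 hc
    dsimp only at hc' hd
    have ht : t < l.length := by
      by_contra h0
      rw [List.getElem?_eq_none (by omega)] at hc'
      cases hc'
    have hcl := hl c (List.mem_of_getElem? hc')
    unfold insC at hd
    split_ifs at hd with h0 h1 h2 h3 h4 h5
    · simp only [List.mem_cons, List.not_mem_nil, or_false] at hd
      rcases hd with rfl | rfl <;> (refine ⟨?_, ?_, ?_⟩ <;> dsimp only <;> omega)
    · simp only [List.mem_cons, List.not_mem_nil, or_false] at hd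
      rcases hd with rfl | rfl <;> (refine ⟨?_, ?_, ?_⟩ <;> dsimp only <;> omega)
    · simp only [List.mem_cons, List.not_mem_nil, or_false] at hd
      rcases hd with rfl | rfl | rfl <;> (refine ⟨?_, ?_, ?_⟩ <;> dsimp only <;> omega)
    · simp only [List.mem_cons, List.not_mem_nil, or_false] at hd
      rcases hd with rfl | rfl <;> (refine ⟨?_, ?_, ?_⟩ <;> dsimp only <;> omega)
    · have h6 := hcl h4
      simp only [List.mem_cons, List.not_mem_nil, or_false] at hd
      rcases hd with rfl | rfl <;> (refine ⟨?_, ?_, ?_⟩ <;> dsimp only <;> omega)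
    · simp only [List.mem_cons, List.not_mem_nil, or_false] at hd
      rcases hd with rfl | rfl <;> (refine ⟨?_, ?_, ?_⟩ <;> dsimp only <;> omega)
    · simp only [List.mem_cons, List.not_mem_nil, or_false] at hd
      rcases hd with rfl | rfl | rfl <;> (refine ⟨?_, ?_, ?_⟩ <;> dsimp only <;> omega)

/-- one step of the machine -/
def al10_step (x : ℕ → ℝ) (c : Ins) (p : ℝ × ℝ) : ℝ × ℝ :=
  if c.1 = 0 then (0, p.2)
  else if c.1 = 1 then (2 * p.1, p.2)
  else if c.1 = 2 then (2 * p.1 + 1, p.2)
  else if c.1 = 3 then (- p.1, p.2)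
  else if c.1 = 4 then (p.1 * x c.2, p.2)
  else if c.1 = 5 then (p.1, p.2 + p.1)
  else (p.1, 0)

theorem al10_run_cons (x : ℕ → ℝ) (c : Ins) (l : List Ins) (p : ℝ × ℝ) :
    run x (c :: l) p ↔ (6 ≤ c.1 → p.2 = 0) ∧ run x l (al10_step x c p) := by
  obtain ⟨k, i⟩ := c
  obtain ⟨A, S⟩ := p
  match k with
  | 0 => simp [run, al10_step]
  | 1 => simp [run, al10_step]
  | 2 => simp [run, al10_step]
  | 3 => simp [run, al10_step]
  | 4 => simp [run, al10_step]
  | 5 => simp [run, al10_step]
  | k + 6 => simp [run, al10_step]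

private theorem al10_main (v : ℕ → ℝ) (b : ℕ) (v0 : v 0 = 1) (v1 : v 1 = 0) (l : List Ins) :
    ∀ t, (∀ c ∈ l.zipIdx t, ∀ d ∈ insC b c.1 c.2, d.holds v) →
      run (fun i => v (2 + i)) l (v (b + 4 * t), v (b + 4 * t + 1)) := by
  induction l with
  | nil => intro t _; simp [run]
  | cons c l ih =>
    intro t H
    rw [List.zipIdx_cons] at H
    have H1 := H (c, t) List.mem_cons_self
    have H2 := ih (t + 1) fun c' hc' => H c' (List.mem_cons_of_mem _ hc')
    rw [al10_run_cons]
    dsimp only at H1 ⊢
    have key : ((6 ≤ c.1 → v (b + 4 * t + 1) = 0) ∧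
        al10_step (fun i => v (2 + i)) c (v (b + 4 * t), v (b + 4 * t + 1)) =
          (v (b + 4 * (t + 1)), v (b + 4 * (t + 1) + 1))) := by
      unfold insC at H1
      unfold al10_step
      split_ifs at H1 ⊢ with h0 h1 h2 h3 h4 h5
      · simp only [List.mem_cons, List.not_mem_nil, or_false, forall_eq_or_imp, forall_eq,
          SC.holds, v1] at H1
        obtain ⟨e1, e2⟩ := H1
        exact ⟨fun h => by omega, by dsimp only; rw [Prod.mk.injEq]; constructor <;> linarith⟩
      · simp only [List.mem_cons, List.not_mem_nil, or_false, forall_eq_or_imp, forall_eq,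
          SC.holds, v1] at H1
        obtain ⟨e1, e2⟩ := H1
        exact ⟨fun h => by omega, by dsimp only; rw [Prod.mk.injEq]; constructor <;> linarith⟩
      · simp only [List.mem_cons, List.not_mem_nil, or_false, forall_eq_or_imp, forall_eq,
          SC.holds, v1, v0] at H1
        obtain ⟨e1, e2, e3⟩ := H1
        exact ⟨fun h => by omega, by dsimp only; rw [Prod.mk.injEq]; constructor <;> linarith⟩
      · simp only [List.mem_cons, List.not_mem_nil, or_false, forall_eq_or_imp, forall_eq,
          SC.holds, v1] at H1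
        obtain ⟨e1, e2⟩ := H1
        exact ⟨fun h => by omega, by dsimp only; rw [Prod.mk.injEq]; constructor <;> linarith⟩
      · simp only [List.mem_cons, List.not_mem_nil, or_false, forall_eq_or_imp, forall_eq,
          SC.holds, v1] at H1
        obtain ⟨e1, e2⟩ := H1
        exact ⟨fun h => by omega, by dsimp only; rw [Prod.mk.injEq]; constructor <;> linarith⟩
      · simp only [List.mem_cons, List.not_mem_nil, or_false, forall_eq_or_imp, forall_eq,
          SC.holds, v1] at H1
        obtain ⟨e1, e2⟩ := H1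
        exact ⟨fun h => by omega, by dsimp only; rw [Prod.mk.injEq]; constructor <;> linarith⟩
      · simp only [List.mem_cons, List.not_mem_nil, or_false, forall_eq_or_imp, forall_eq,
          SC.holds, v1, v0] at H1
        obtain ⟨e1, e2, e3⟩ := H1
        exact ⟨fun h => by linarith, by dsimp only; rw [Prod.mk.injEq]; constructor <;> linarith⟩
    refine ⟨key.1, ?_⟩
    rw [key.2]
    exact H2

theorem slOf_run {n : ℕ} {l : List Ins} {v : ℕ → ℝ} (h : (slOf n l).Sol v) :
    run (fun i => v (2 + i)) l (0, 0) := by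
  have hs : ∀ d ∈ (slOf n l).cs, d.holds v := h
  have h1 : ∀ d ∈ [((false, false, 0, 0, 0) : SC), (true, false, 1, 1, 1),
      (true, false, 2 + n, 1, 1), (true, false, 2 + n + 1, 1, 1)], SC.holds v d :=
    fun d hd => hs d (List.mem_append_left _ hd)
  simp only [List.mem_cons, List.not_mem_nil, or_false, forall_eq_or_imp, forall_eq,
    SC.holds] at h1
  obtain ⟨e1, e2, e3, e4⟩ := h1
  have v1 : v 1 = 0 := by linarith
  have h2 := al10_main v (2 + n) e1 v1 l 0 fun c hc d hd =>
    hs d (List.mem_append_right _ (List.mem_flatMap.2 ⟨c, hc, hd⟩))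
  have h3 : v (2 + n + 4 * 0) = 0 := by rw [Nat.mul_zero, Nat.add_zero]; linarith
  have h4 : v (2 + n + 4 * 0 + 1) = 0 := by rw [Nat.mul_zero, Nat.add_zero]; linarith
  rw [h3, h4] at h2
  exact h2

/-- the registers after `t` steps -/
private def al10_st (x : ℕ → ℝ) : List Ins → ℝ × ℝ → ℕ → ℝ × ℝ
  | _, p, 0 => p
  | [], p, _ + 1 => p
  | c :: l, p, t + 1 => al10_st x l (al10_step x c p) t

private theorem al10_st_spec (x : ℕ → ℝ) (l : List Ins) : ∀ (p : ℝ × ℝ), run x l p →
    ∀ t c, l[t]? = some c → al10_st x l p (t + 1) = al10_step x c (al10_st x l p t) ∧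
      (6 ≤ c.1 → (al10_st x l p t).2 = 0) := by
  induction l with
  | nil => intro p _ t c h; simp at h
  | cons c0 l ih =>
    intro p hp t c h
    rw [al10_run_cons] at hp
    cases t with
    | zero =>
      simp only [List.getElem?_cons_zero, Option.some.injEq] at h
      subst h
      refine ⟨?_, ?_⟩
      · cases l <;> simp [al10_st]
      · intro h6; simpa [al10_st] using hp.1 h6
    | succ t =>
      simp only [List.getElem?_cons_succ] at h
      have := ih _ hp.2 t c h
      simpa [al10_st] using this

theorem run_slOf {n : ℕ} {l : List Ins} {x : ℕ → ℝ} (hl : ∀ c ∈ l, c.1 = 4 → c.2 < n)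
    (h : run x l (0, 0)) : ∃ v : ℕ → ℝ, (slOf n l).Sol v := by
  obtain ⟨v, hv⟩ : ∃ v : ℕ → ℝ, v = fun j => if j = 0 then 1 else if j = 1 then 0 else
      if j < 2 + n then x (j - 2) else
        if (j - (2 + n)) % 4 = 0 then (al10_st x l (0, 0) ((j - (2 + n)) / 4)).1
        else if (j - (2 + n)) % 4 = 1 then (al10_st x l (0, 0) ((j - (2 + n)) / 4)).2
        else 2 * (al10_st x l (0, 0) ((j - (2 + n)) / 4)).1 := ⟨_, rfl⟩
  have v0 : v 0 = 1 := by rw [hv]; simp
  have v1 : v 1 = 0 := by rw [hv]; simp
  have vx : ∀ i < n, v (2 + i) = x i := by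
    intro i hi
    rw [hv]
    dsimp only
    rw [if_neg (by omega), if_neg (by omega), if_pos (by omega)]
    congr 1; omega
  have vA : ∀ t, v (2 + n + 4 * t) = (al10_st x l (0, 0) t).1 := by
    intro t
    rw [hv]
    dsimp only
    rw [if_neg (by omega), if_neg (by omega), if_neg (by omega), if_pos (by omega)]
    congr 2; omega
  have vS : ∀ t, v (2 + n + 4 * t + 1) = (al10_st x l (0, 0) t).2 := by
    intro t
    rw [hv]
    dsimp only
    rw [if_neg (by omega), if_neg (by omega), if_neg (by omega), if_neg (by omega),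
      if_pos (by omega)]
    congr 2; omega
  have vD : ∀ t, v (2 + n + 4 * t + 2) = 2 * (al10_st x l (0, 0) t).1 := by
    intro t
    rw [hv]
    dsimp only
    rw [if_neg (by omega), if_neg (by omega), if_neg (by omega), if_neg (by omega),
      if_neg (by omega)]
    congr 3; omega
  have st0 : al10_st x l (0, 0) 0 = (0, 0) := by cases l <;> rfl
  refine ⟨v, fun d hd => ?_⟩
  unfold slOf at hd
  rcases List.mem_append.1 hd with hd | hd
  · have a0 := vA 0
    have s0 := vS 0
    rw [st0] at a0 s0
    simp only [Nat.mul_zero, Nat.add_zero] at a0 s0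
    simp only [List.mem_cons, List.not_mem_nil, or_false] at hd
    rcases hd with rfl | rfl | rfl | rfl
    · exact v0
    · show v 1 + v 1 = v 1
      rw [v1]; ring
    · show v (2 + n) + v 1 = v 1
      rw [v1, a0]; ring
    · show v (2 + n + 1) + v 1 = v 1
      rw [v1, s0]; ring
  · obtain ⟨⟨c, t⟩, hc, hd⟩ := List.mem_flatMap.1 hd
    have hc' := List.mem_zipIdx_iff_getElem?.1 hc
    dsimp only at hc' hd
    have hcl := hl c (List.mem_of_getElem? hc')
    obtain ⟨hst, hck⟩ := al10_st_spec x l (0, 0) h t c hc'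
    have a1 := vA (t + 1)
    have s1 := vS (t + 1)
    have a := vA t
    have s := vS t
    have dd := vD t
    rw [hst] at a1 s1
    unfold al10_step at a1 s1
    unfold insC at hd
    split_ifs at hd a1 s1 with h0 h1 h2 h3 h4 h5
    · simp only [List.mem_cons, List.not_mem_nil, or_false] at hd
      rcases hd with rfl | rfl
      · show v (2 + n + 4 * (t + 1)) + v 1 = v 1
        rw [v1, a1]; ring
      · show v (2 + n + 4 * t + 1) + v 1 = v (2 + n + 4 * (t + 1) + 1)
        rw [v1, s1, s]; ring
    · simp only [List.mem_cons, List.not_mem_nil, or_false] at hd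
      rcases hd with rfl | rfl
      · show v (2 + n + 4 * t) + v (2 + n + 4 * t) = v (2 + n + 4 * (t + 1))
        rw [a, a1]; ring
      · show v (2 + n + 4 * t + 1) + v 1 = v (2 + n + 4 * (t + 1) + 1)
        rw [v1, s1, s]; ring
    · simp only [List.mem_cons, List.not_mem_nil, or_false] at hd
      rcases hd with rfl | rfl | rfl
      · show v (2 + n + 4 * t) + v (2 + n + 4 * t) = v (2 + n + 4 * t + 2)
        rw [a, dd]; ring
      · show v (2 + n + 4 * t + 2) + v 0 = v (2 + n + 4 * (t + 1))
        rw [dd, v0, a1]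
      · show v (2 + n + 4 * t + 1) + v 1 = v (2 + n + 4 * (t + 1) + 1)
        rw [v1, s1, s]; ring
    · simp only [List.mem_cons, List.not_mem_nil, or_false] at hd
      rcases hd with rfl | rfl
      · show v (2 + n + 4 * (t + 1)) + v (2 + n + 4 * t) = v 1
        rw [v1, a1, a]; ring
      · show v (2 + n + 4 * t + 1) + v 1 = v (2 + n + 4 * (t + 1) + 1)
        rw [v1, s1, s]; ring
    · have h6 := hcl h4
      simp only [List.mem_cons, List.not_mem_nil, or_false] at hd
      rcases hd with rfl | rfl
      · show v (2 + n + 4 * t) * v (2 + c.2) = v (2 + n + 4 * (t + 1))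
        rw [a, a1, vx _ h6]
      · show v (2 + n + 4 * t + 1) + v 1 = v (2 + n + 4 * (t + 1) + 1)
        rw [v1, s1, s]; ring
    · simp only [List.mem_cons, List.not_mem_nil, or_false] at hd
      rcases hd with rfl | rfl
      · show v (2 + n + 4 * t) + v 1 = v (2 + n + 4 * (t + 1))
        rw [v1, a1, a]; ring
      · show v (2 + n + 4 * t + 1) + v (2 + n + 4 * t) = v (2 + n + 4 * (t + 1) + 1)
        rw [s1, s, a]
    · have h7 := hck (by omega)
      simp only [List.mem_cons, List.not_mem_nil, or_false] at hd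
      rcases hd with rfl | rfl | rfl
      · show v (2 + n + 4 * t + 1) + v 1 = v 1
        rw [v1, s, h7]; ring
      · show v (2 + n + 4 * t) + v 1 = v (2 + n + 4 * (t + 1))
        rw [v1, a1, a]; ring
      · show v (2 + n + 4 * (t + 1) + 1) + v 1 = v 1
        rw [v1, s1]; ring

end Pool.Agent.PLN
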