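import Pool.Agent.PLN.Al10

/-!
# Polynomial maps

The program `insM m` started with registers `(A, S)` ends with `S` increased by the value of the
monomial: the digits are read from the most significant one, and `Nat.bits` of `|z|`, read in this
way by `A ↦ 2 A + digit` from `0`, gives `|z|`; then the sign; then the variables.  `insP p` checks
that `S + ` (value of `p`) is `0` and resets `S = 0`.  So `run x (ps.flatMap insP) (A, 0)` holds
iff all polynomials vanish at `x`.  (General lemma: `run x (l ++ l') (A, S)` in terms of the registers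
after `l`.)
-/

namespace Pool.Agent.PLN

open Pool.Agent.helper88.Surj (PolyMap)

private theorem al11_vars (F : PolyMap) :
    ∀ c ∈ (F.fs.map rawP).flatMap insP, c.1 = 4 → c.2 < F.n := by
  intro c hc h4
  obtain ⟨p, hp, hc⟩ := List.mem_flatMap.1 hc
  obtain ⟨f, _, rfl⟩ := List.mem_map.1 hp
  unfold insP at hc
  rcases List.mem_append.1 hc with hc | hc
  · obtain ⟨m, hm, hc⟩ := List.mem_flatMap.1 hc
    obtain ⟨m', _, rfl⟩ := List.mem_map.1 hm
    unfold insM at hc
    simp only [List.mem_append, List.mem_cons, List.not_mem_nil, or_false] at hc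
    rcases hc with (((rfl | hc) | hc) | hc) | rfl
    · simp at h4
    · obtain ⟨b, _, rfl⟩ := List.mem_map.1 hc
      cases b <;> simp at h4
    · split_ifs at hc
      · simp only [List.mem_cons, List.not_mem_nil, or_false] at hc
        subst hc
        simp at h4
      · simp at hc
    · obtain ⟨i, hi, rfl⟩ := List.mem_map.1 hc
      obtain ⟨j, _, rfl⟩ := List.mem_map.1 hi
      exact j.2
    · simp at h4
  · simp only [List.mem_cons, List.not_mem_nil, or_false] at hc
    subst hc
    simp at h4

theorem slF_ok (F : PolyMap) : (slF F).Ok := slOf_ok (al11_vars F)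

/-- registers after a program -/
private def al11_ex (x : ℕ → ℝ) (l : List Ins) (p : ℝ × ℝ) : ℝ × ℝ :=
  l.foldl (fun p c => al10_step x c p) p

private theorem al11_run_append (x : ℕ → ℝ) (l' : List Ins) (l : List Ins) :
    ∀ p, (∀ c ∈ l, c.1 < 6) → (run x (l ++ l') p ↔ run x l' (al11_ex x l p)) := by
  induction l with
  | nil => intro p _; simp [al11_ex]
  | cons c l ih =>
    intro p h
    have h1 := h c List.mem_cons_self
    rw [List.cons_append, al10_run_cons, ih _ fun c' hc' => h c' (List.mem_cons_of_mem _ hc')]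
    constructor
    · exact fun h2 => h2.2
    · exact fun h2 => ⟨fun h3 => by omega, h2⟩

private theorem al11_ex_append (x : ℕ → ℝ) (l l' : List Ins) (p : ℝ × ℝ) :
    al11_ex x (l ++ l') p = al11_ex x l' (al11_ex x l p) := by
  unfold al11_ex
  rw [List.foldl_append]

private theorem al11_ex_digits (x : ℕ → ℝ) (ds : List Bool) : ∀ A S : ℝ,
    al11_ex x (ds.map fun b => ((if b then 2 else 1, 0) : Ins)) (A, S) =
      (ds.foldl (fun a b => 2 * a + if b then 1 else 0) A, S) := by
  induction ds with
  | nil => intro A S; simp [al11_ex]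
  | cons b ds ih =>
    intro A S
    have : al11_ex x ((b :: ds).map fun b => ((if b then 2 else 1, 0) : Ins)) (A, S) =
        al11_ex x (ds.map fun b => ((if b then 2 else 1, 0) : Ins))
          (2 * A + (if b then 1 else 0), S) := by
      cases b <;> simp [al11_ex, al10_step]
    rw [this, ih]
    simp

private theorem al11_bits (k : ℕ) :
    (Nat.bits k).foldr (fun b (a : ℝ) => 2 * a + if b then 1 else 0) 0 = k := by
  induction k using Nat.binaryRec' with
  | zero => simp
  | bit b n h ih =>
    rw [Nat.bits_append_bit n b h, List.foldr_cons, ih]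
    cases b <;> simp [Nat.bit]

private theorem al11_ex_vars (x : ℕ → ℝ) (vs : List ℕ) : ∀ A S : ℝ,
    al11_ex x (vs.map fun i => ((4, i) : Ins)) (A, S) = (A * (vs.map x).prod, S) := by
  induction vs with
  | nil => intro A S; simp [al11_ex]
  | cons i vs ih =>
    intro A S
    have : al11_ex x ((i :: vs).map fun i => ((4, i) : Ins)) (A, S) =
        al11_ex x (vs.map fun i => ((4, i) : Ins)) (A * x i, S) := by
      simp [al11_ex, al10_step]
    rw [this, ih]
    simp [mul_assoc]

/-- value of a monomial -/
private def al11_mv (x : ℕ → ℝ) (m : (Bool × List Bool) × List ℕ) : ℝ :=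
  (if m.1.1 then - m.1.2.foldr (fun b (a : ℝ) => 2 * a + if b then 1 else 0) 0
    else m.1.2.foldr (fun b (a : ℝ) => 2 * a + if b then 1 else 0) 0) * (m.2.map x).prod

private theorem al11_ex_insM (x : ℕ → ℝ) (m : (Bool × List Bool) × List ℕ) (p : ℝ × ℝ) :
    al11_ex x (insM m) p = (al11_mv x m, p.2 + al11_mv x m) := by
  unfold insM
  rw [al11_ex_append, al11_ex_append, al11_ex_append, al11_ex_append]
  have h0 : al11_ex x [(0, 0)] p = (0, p.2) := by simp [al11_ex, al10_step]
  rw [h0, al11_ex_digits, List.foldl_reverse]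
  have h1 : al11_ex x (if m.1.1 then [((3, 0) : Ins)] else [])
      (m.1.2.foldr (fun b (a : ℝ) => 2 * a + if b then 1 else 0) 0, p.2) =
      (if m.1.1 then - m.1.2.foldr (fun b (a : ℝ) => 2 * a + if b then 1 else 0) 0
        else m.1.2.foldr (fun b (a : ℝ) => 2 * a + if b then 1 else 0) 0, p.2) := by
    split_ifs <;> simp [al11_ex, al10_step]
  rw [h1, al11_ex_vars]
  simp [al11_ex, al10_step, al11_mv]

private theorem al11_ex_flat (x : ℕ → ℝ) (l : List ((Bool × List Bool) × List ℕ)) : ∀ p : ℝ × ℝ,
    (al11_ex x (l.flatMap insM) p).2 = p.2 + (l.map (al11_mv x)).sum := by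
  induction l with
  | nil => intro p; simp [al11_ex]
  | cons m l ih =>
    intro p
    rw [List.flatMap_cons, al11_ex_append, ih, al11_ex_insM]
    simp [add_assoc]

private theorem al11_tags (l : List ((Bool × List Bool) × List ℕ)) :
    ∀ c ∈ l.flatMap insM, c.1 < 6 := by
  intro c hc
  obtain ⟨m, hm, hc⟩ := List.mem_flatMap.1 hc
  unfold insM at hc
  simp only [List.mem_append, List.mem_cons, List.not_mem_nil, or_false] at hc
  rcases hc with (((rfl | hc) | hc) | hc) | rfl
  · norm_num
  · obtain ⟨b, _, rfl⟩ := List.mem_map.1 hc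
    cases b <;> norm_num
  · split_ifs at hc
    · simp only [List.mem_cons, List.not_mem_nil, or_false] at hc
      subst hc
      norm_num
    · simp at hc
  · obtain ⟨i, hi, rfl⟩ := List.mem_map.1 hc
    norm_num
  · norm_num

private theorem al11_run_insP (x : ℕ → ℝ) (q : List ((Bool × List Bool) × List ℕ))
    (l' : List Ins) (A : ℝ) : run x (insP q ++ l') (A, 0) ↔
      (q.map (al11_mv x)).sum = 0 ∧ ∃ A', run x l' (A', 0) ∧
        A' = (al11_ex x (q.flatMap insM) (A, 0)).1 := by
  unfold insP
  rw [List.append_assoc, al11_run_append x _ _ _ (al11_tags q), List.cons_append,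
    List.nil_append, al10_run_cons, al11_ex_flat]
  have h1 : al10_step x (6, 0) (al11_ex x (q.flatMap insM) (A, 0)) =
      ((al11_ex x (q.flatMap insM) (A, 0)).1, 0) := by simp [al10_step]
  rw [h1]
  simp only [zero_add, le_refl, forall_true_left]
  constructor
  · rintro ⟨h2, h3⟩
    exact ⟨h2, _, h3, rfl⟩
  · rintro ⟨h2, A', h3, rfl⟩
    exact ⟨h2, h3⟩

private theorem al11_run_all (x : ℕ → ℝ) (ps : List (List ((Bool × List Bool) × List ℕ))) :
    ∀ A : ℝ, run x (ps.flatMap insP) (A, 0) ↔ ∀ q ∈ ps, (q.map (al11_mv x)).sum = 0 := by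
  induction ps with
  | nil => intro A; simp [run]
  | cons q ps ih =>
    intro A
    rw [List.flatMap_cons, al11_run_insP]
    constructor
    · rintro ⟨h1, A', h2, _⟩ q' hq'
      rcases List.mem_cons.1 hq' with rfl | hq'
      · exact h1
      · exact (ih A').1 h2 q' hq'
    · intro h
      exact ⟨h q List.mem_cons_self, _, (ih _).2 fun q' hq' => h q' (List.mem_cons_of_mem _ hq'),
        rfl⟩

private theorem al11_value {n : ℕ} (x : ℕ → ℝ) (f : Pool.Agent.helper88.Surj.Poly n) :
    ((rawP f).map (al11_mv x)).sum = MvPolynomial.aeval (fun i : Fin n => x i) f.toMv := by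
  unfold rawP Pool.Agent.helper88.Surj.Poly.toMv
  rw [map_list_sum, List.map_map, List.map_map]
  congr 1
  refine List.map_congr_left fun m _ => ?_
  simp only [Function.comp_apply, al11_mv, al11_bits, map_mul, map_list_prod, List.map_map]
  have hC : MvPolynomial.aeval (fun i : Fin n => x i) (MvPolynomial.C m.1 : MvPolynomial (Fin n) ℤ) =
      (m.1 : ℝ) := by
    rw [MvPolynomial.aeval_C]; simp
  rw [hC]
  congr 1
  · by_cases h : m.1 < 0
    · simp only [h, decide_true, if_true]
      have : ((m.1.natAbs : ℤ) : ℝ) = ((-m.1 : ℤ) : ℝ) := by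
        congr 1; omega
      rw [Int.cast_natCast] at this
      rw [this]; push_cast; ring
    · simp only [h, decide_false, Bool.false_eq_true, if_false]
      have : ((m.1.natAbs : ℤ) : ℝ) = ((m.1 : ℤ) : ℝ) := by
        congr 1; omega
      rw [Int.cast_natCast] at this
      exact this
  · congr 1
    refine List.map_congr_left fun i _ => ?_
    simp

theorem slF_iff (F : PolyMap) : (∃ v, (slF F).Sol v) ↔
    ∃ x : Fin F.n → ℝ, ∀ f ∈ F.fs, MvPolynomial.aeval x f.toMv = 0 := by
  constructor
  · rintro ⟨v, hv⟩
    refine ⟨fun i => v (2 + i), fun f hf => ?_⟩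
    have h1 := (al11_run_all _ _ _).1 (slOf_run hv) (rawP f) (List.mem_map_of_mem hf)
    rw [al11_value] at h1
    exact h1
  · rintro ⟨x, hx⟩
    refine run_slOf (x := fun i => if h : i < F.n then x ⟨i, h⟩ else 0) (al11_vars F) ?_
    refine (al11_run_all _ _ _).2 fun q hq => ?_
    obtain ⟨f, hf, rfl⟩ := List.mem_map.1 hq
    rw [al11_value]
    have : (fun i : Fin F.n => (fun i : ℕ => if h : i < F.n then x ⟨i, h⟩ else 0) (i : ℕ)) = x := by
      funext i
      simp
    rw [this]
    exact hx f hf

end Pool.Agent.PLN
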