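import Pool.Agent.PLN.Rsd

/-!
# Blocks of the system of unit numbers

`blkV i` consists of two blocks of length `6`, `blkC n c l` of one or three, so `R.blks.flatten` has
length `6 * R.blks.length`, and its entries `6 e + k`, `k < 6`, are those of the block `e`
(`List.getD` of a `flatten` of lists of length `6`: induction on the list of blocks).  The sum over
`Finset.range 6` of a block of length `6` is the sum of the list.
-/

namespace Pool.Agent.PLN

variable {R : LS} {s : ℕ → ℂ}

theorem mem_blks {b : List (ℕ × ℕ × ℕ × ℕ)} : b ∈ R.blks ↔ (∃ i < R.n, b ∈ blkV i) ∨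
    ∃ l c, R.cs[l]? = some c ∧ b ∈ blkC R.n c l := by
  unfold LS.blks
  rw [List.mem_append, List.mem_flatMap, List.mem_flatMap]
  constructor
  · rintro (⟨i, hi, hb⟩ | ⟨⟨c, l⟩, hc, hb⟩)
    · exact Or.inl ⟨i, List.mem_range.1 hi, hb⟩
    · exact Or.inr ⟨l, c, List.mem_zipIdx_iff_getElem?.1 hc, hb⟩
  · rintro (⟨i, hi, hb⟩ | ⟨l, c, hc, hb⟩)
    · exact Or.inl ⟨i, List.mem_range.2 hi, hb⟩
    · exact Or.inr ⟨(c, l), List.mem_zipIdx_iff_getElem?.2 hc, hb⟩

theorem blks_len : ∀ b ∈ R.blks, b.length = 6 := by
  intro b hb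
  rcases mem_blks.1 hb with ⟨i, _, hb⟩ | ⟨l, c, _, hb⟩
  · simp only [blkV, List.mem_cons, List.not_mem_nil, or_false] at hb
    rcases hb with rfl | rfl <;> rfl
  · unfold blkC at hb
    split_ifs at hb
    · simp only [List.mem_cons, List.not_mem_nil, or_false] at hb
      subst hb; rfl
    · simp only [List.mem_cons, List.not_mem_nil, or_false] at hb
      rcases hb with rfl | rfl | rfl <;> rfl

private theorem al2_flatten_length {α : Type*} (L : List (List α)) (h : ∀ b ∈ L, b.length = 6) :
    L.flatten.length = 6 * L.length := by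
  induction L with
  | nil => simp
  | cons b L ih =>
    rw [List.flatten_cons, List.length_append, h b List.mem_cons_self,
      ih (fun b' hb' => h b' (List.mem_cons_of_mem _ hb')), List.length_cons]
    ring

private theorem al2_getD_flatten {α : Type*} (d : α) (k : ℕ) (hk : k < 6) (L : List (List α)) :
    (∀ b ∈ L, b.length = 6) → ∀ e, L.flatten.getD (6 * e + k) d = (L.getD e []).getD k d := by
  induction L with
  | nil => intro _ e; simp
  | cons b L ih =>
    intro h e
    have hb := h b List.mem_cons_self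
    have h' : ∀ b' ∈ L, b'.length = 6 := fun b' hb' => h b' (List.mem_cons_of_mem _ hb')
    rw [List.flatten_cons]
    cases e with
    | zero =>
      rw [List.getD_append _ _ _ _ (by omega)]
      simp
    | succ e =>
      rw [List.getD_append_right _ _ _ _ (by omega)]
      have : 6 * (e + 1) + k - b.length = 6 * e + k := by omega
      rw [this, ih h' e]
      simp

private theorem al2_sum6 {α : Type*} (d : α) (f : α → ℂ) (b : List α) (hb : b.length = 6) :
    ∑ k ∈ Finset.range 6, f (b.getD k d) = (b.map f).sum := by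
  match b, hb with
  | [a0, a1, a2, a3, a4, a5], _ =>
    simp only [Finset.sum_range_succ, Finset.sum_range_zero, List.map_cons, List.map_nil,
      List.sum_cons, List.sum_nil, List.getD_cons_zero, List.getD_cons_succ]
    ring

private theorem al2_blkEq (e : ℕ) (b : List (ℕ × ℕ × ℕ × ℕ)) (hb : R.blks[e]? = some b) :
    (∑ k ∈ Finset.range 6, (s (R.toUV.bt (6 * e + k)) - s (R.toUV.tp (6 * e + k)))) +
      rho * (∑ k ∈ Finset.range 6, (s (R.toUV.rg (6 * e + k)) - s (R.toUV.lf (6 * e + k)))) =
      blkEq s b := by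
  have hlen : b.length = 6 := blks_len b (List.mem_of_getElem? hb)
  have hg : ∀ k < 6, R.toUV.q.getD (6 * e + k) (0, 0, 0, 0) = b.getD k (0, 0, 0, 0) := by
    intro k hk
    have := al2_getD_flatten (0, 0, 0, 0) k hk R.blks blks_len e
    rw [show R.toUV.q = R.blks.flatten from rfl, this]
    congr 1
    rw [List.getD_eq_getElem?_getD, hb]
    rfl
  unfold blkEq
  congr 1
  · rw [← al2_sum6 (0, 0, 0, 0) (fun t : ℕ × ℕ × ℕ × ℕ => s t.1 - s t.2.1) b hlen]
    refine Finset.sum_congr rfl fun k hk => ?_
    unfold UV.bt UV.tp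
    rw [hg k (Finset.mem_range.1 hk)]
  · congr 1
    rw [← al2_sum6 (0, 0, 0, 0) (fun t : ℕ × ℕ × ℕ × ℕ => s t.2.2.2 - s t.2.2.1) b hlen]
    refine Finset.sum_congr rfl fun k hk => ?_
    unfold UV.rg UV.lf
    rw [hg k (Finset.mem_range.1 hk)]

private theorem al2_q_len : R.toUV.q.length = 6 * R.blks.length := by
  show R.blks.flatten.length = _
  exact al2_flatten_length _ blks_len

theorem uv_ok (hR : R.Ok) : R.toUV.Ok := by
  have hn := hR.1
  have hm : R.toUV.m = 1 + 5 * R.n + 4 * R.cs.length := rfl
  refine ⟨by omega, ?_, ?_, ?_⟩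
  · rw [al2_q_len]; omega
  · rw [al2_q_len]
    have : R.blks ≠ [] := by
      intro h0
      have : [(2, 4, 0, 4), (0, 4, 1, 4), (1, 4, 0, 0), (0, 0, 0, 0), (0, 0, 0, 0), (0, 0, 0, 0)] ∈
          R.blks := mem_blks.2 (Or.inl ⟨0, by omega, by simp [blkV]⟩)
      rw [h0] at this
      simp at this
    have := List.length_pos_iff.2 this
    omega
  · intro t ht
    obtain ⟨b, hb, htb⟩ := List.mem_flatten.1 (show t ∈ R.blks.flatten from ht)
    rw [hm]
    rcases mem_blks.1 hb with ⟨i, hi, hb⟩ | ⟨l, c, hc, hb⟩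
    · simp only [blkV, List.mem_cons, List.not_mem_nil, or_false] at hb
      rcases hb with rfl | rfl <;>
      · simp only [List.mem_cons, List.not_mem_nil, or_false] at htb
        rcases htb with rfl | rfl | rfl | rfl | rfl | rfl <;>
          (refine ⟨?_, ?_, ?_, ?_⟩ <;> dsimp only <;> omega)
    · have hl : l < R.cs.length := by
        by_contra h0
        rw [List.getElem?_eq_none (by omega)] at hc
        cases hc
      obtain ⟨h1, h2, h3⟩ := hR.2 c (List.mem_of_getElem? hc)
      unfold blkC at hb
      split_ifs at hb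
      · simp only [List.mem_cons, List.not_mem_nil, or_false] at hb
        subst hb
        simp only [List.mem_cons, List.not_mem_nil, or_false] at htb
        rcases htb with rfl | rfl | rfl | rfl | rfl | rfl <;>
          (refine ⟨?_, ?_, ?_, ?_⟩ <;> dsimp only <;> omega)
      · simp only [List.mem_cons, List.not_mem_nil, or_false] at hb
        rcases hb with rfl | rfl | rfl <;>
        · simp only [List.mem_cons, List.not_mem_nil, or_false] at htb
          rcases htb with rfl | rfl | rfl | rfl | rfl | rfl <;>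
            (refine ⟨?_, ?_, ?_, ?_⟩ <;> dsimp only <;> omega)

theorem uv_sol_iff : R.toUV.Sol s ↔ (∀ j < R.toUV.m, ‖s j‖ = 1) ∧ ∀ b ∈ R.blks, blkEq s b = 0 := by
  constructor
  · rintro ⟨h1, h2⟩
    refine ⟨h1, fun b hb => ?_⟩
    obtain ⟨e, he, hbe⟩ := List.mem_iff_getElem.1 hb
    have h3 : R.blks[e]? = some b := by rw [List.getElem?_eq_getElem he, hbe]
    rw [← al2_blkEq (s := s) e b h3]
    exact h2 e (by rw [al2_q_len]; omega)
  · rintro ⟨h1, h2⟩
    refine ⟨h1, fun e he => ?_⟩
    rw [al2_q_len] at he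
    have he' : e < R.blks.length := by omega
    have h3 : R.blks[e]? = some R.blks[e] := List.getElem?_eq_getElem he'
    rw [al2_blkEq (s := s) e _ h3]
    exact h2 _ (List.getElem_mem he')

end Pool.Agent.PLN
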