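import Pool.Agent.PLN.Al1
import Pool.Agent.PLN.Al2

/-!
# From signals to real numbers

Put `x i = 2 √3 (w.im / (1 + w.re))` with `w = s (1 + 5 i)`.
For `i < R.n` the two blocks `blkV i` say `E1` and `E2` of `varG` (`uv_sol_iff`, `mem_blks`,
`s 0 = 1`).  `α ≠ - rho β`: otherwise `dt α (rho β) = Re (rho β conj α) = -1`, contradicting
`|dt| ≤ 1/2`.  So `D i = (α + w - 2) - rho (β + w - 2) = x i (1 + rho)`.
For a constraint `(true, i, j, k)` the block says `D i + D j + D k = 0`, so
`(x i + x j + x k)(1 + rho) = 0`, `1 + rho ≠ 0`.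
For a constraint `(false, i, j, _)` number `l`, with `a, b, w₃, w₄ = s (1 + 5 n + 4 l + 0..3)`, the
three blocks say `(1 + rho) + D i + a = (2 + rho) w₃`, `(1 + rho) + D i + rho b = (1 + 2 rho) w₄`
and `(1 + rho) + D i + a + rho b = 2 (1 + rho) + D j`; with `invG` (`a ≠ rho b` as before):
`(1 + x i) (2 + x j)(1 + rho) = 2 (1 + rho)`.
`x 0 ≠ 0`: otherwise `w.im = 0` for `w = s 1`, so `w = ± 1`, and `0 < 1 + w.re` gives `w = 1`.
-/

namespace Pool.Agent.PLN

private theorem al3_dt_self {a b : ℂ} (ha : ‖a‖ = 1) (h : a = b) : ¬ |dt a b| ≤ 1 / 2 := by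
  subst h
  have h1 : dt a a = 1 := by
    have h2 : Complex.normSq a = 1 := by
      rw [← Complex.sq_norm, ha]
      norm_num
    rw [Complex.normSq_apply] at h2
    simp only [dt, Complex.mul_re, Complex.conj_re, Complex.conj_im]
    linarith
  rw [h1]
  norm_num

private theorem al3_dt_neg {a b : ℂ} (ha : ‖a‖ = 1) (h : a = -b) : ¬ |dt a b| ≤ 1 / 2 := by
  have hb : b = -a := by rw [h, neg_neg]
  subst hb
  have h1 : dt a (-a) = -1 := by
    have h2 : Complex.normSq a = 1 := by
      rw [← Complex.sq_norm, ha]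
      norm_num
    rw [Complex.normSq_apply] at h2
    simp only [dt, Complex.mul_re, Complex.conj_re, Complex.conj_im, Complex.neg_re,
      Complex.neg_im]
    linarith
  rw [h1]
  norm_num

private theorem al3_one_rho : (1 : ℂ) + rho ≠ 0 := by
  intro h
  have h1 := congrArg Complex.re h
  rw [Complex.add_re, Complex.one_re, rho_re, Complex.zero_re] at h1
  norm_num at h1

private theorem al3_cancel {a b : ℝ} (h : (a : ℂ) * (1 + rho) = (b : ℂ) * (1 + rho)) : a = b := by
  have h1 := mul_right_cancel₀ al3_one_rho h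
  exact_mod_cast h1

/-- the real number of a signal -/
private noncomputable def al3x (s : ℕ → ℂ) (i : ℕ) : ℝ :=
  2 * Real.sqrt 3 * ((s (1 + 5 * i)).im / (1 + (s (1 + 5 * i)).re))

/-- the value of a variable -/
private noncomputable def al3D (s : ℕ → ℂ) (i : ℕ) : ℂ :=
  (s (2 + 5 * i) + s (1 + 5 * i) - 2) - rho * (s (3 + 5 * i) + s (1 + 5 * i) - 2)

private theorem al3_var {R : LS} {s : ℕ → ℂ} (hs : R.toUV.Sol s) (h0 : s 0 = 1)
    (ha : ∀ i < R.toUV.m, ∀ j < R.toUV.m, |dt (s i) (rho * s j)| ≤ 1 / 2) {i : ℕ}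
    (hi : i < R.n) : 0 < 1 + (s (1 + 5 * i)).re ∧ al3D s i = (al3x s i : ℂ) * (1 + rho) := by
  obtain ⟨hn, hb⟩ := uv_sol_iff.1 hs
  have hm : R.toUV.m = 1 + 5 * R.n + 4 * R.cs.length := rfl
  have e1 := hb _ (mem_blks.2 (Or.inl ⟨i, hi, List.mem_cons_self⟩))
  have e2 := hb _ (mem_blks.2 (Or.inl ⟨i, hi, List.mem_cons_of_mem _ List.mem_cons_self⟩))
  have i1 : 1 + 5 * i < R.toUV.m := by omega
  have i2 : 2 + 5 * i < R.toUV.m := by omega
  have i3 : 3 + 5 * i < R.toUV.m := by omega
  have i4 : 4 + 5 * i < R.toUV.m := by omega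
  have i5 : 5 + 5 * i < R.toUV.m := by omega
  have hne : s (2 + 5 * i) ≠ -(rho * s (3 + 5 * i)) := fun h =>
    al3_dt_neg (hn _ i2) h (ha _ i2 _ i3)
  simp only [blkEq, List.map_cons, List.map_nil, List.sum_cons, List.sum_nil, h0] at e1 e2
  have E1 : s (2 + 5 * i) + (1 + s (1 + 5 * i)) - 3 * s (4 + 5 * i) +
      rho * (2 * s (4 + 5 * i) - 1 - s (1 + 5 * i)) = 0 := by
    linear_combination e1
  have E2 : 1 + s (1 + 5 * i) - 2 * s (5 + 5 * i) +
      rho * (3 * s (5 + 5 * i) - 1 - s (1 + 5 * i) - s (3 + 5 * i)) = 0 := by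
    linear_combination e2
  exact varG (hn _ i1) (hn _ i2) (hn _ i3) (hn _ i4) (hn _ i5) E1 E2 hne

theorem rs_of_uv {R : LS} (hR : R.Ok) {s : ℕ → ℂ} (hs : R.toUV.Sol s) (h0 : s 0 = 1)
    (ha : ∀ i < R.toUV.m, ∀ j < R.toUV.m, |dt (s i) (rho * s j)| ≤ 1 / 2) (h1 : s 1 ≠ 1) :
    ∃ x : ℕ → ℝ, R.SolR x ∧ x 0 ≠ 0 := by
  obtain ⟨hn, hb⟩ := uv_sol_iff.1 hs
  obtain ⟨hR1, hR2⟩ := hR
  have hm : R.toUV.m = 1 + 5 * R.n + 4 * R.cs.length := rfl
  refine ⟨al3x s, ?_, ?_⟩
  · intro c hc
    obtain ⟨l, hl⟩ := List.mem_iff_getElem?.1 hc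
    have hll : l < R.cs.length := by
      obtain ⟨h, _⟩ := List.getElem?_eq_some_iff.1 hl
      exact h
    obtain ⟨hi, hj, hk⟩ := hR2 c hc
    obtain ⟨t, i, j, k⟩ := c
    simp only at hi hj hk
    obtain ⟨_, Di⟩ := al3_var hs h0 ha hi
    obtain ⟨_, Dj⟩ := al3_var hs h0 ha hj
    obtain ⟨_, Dk⟩ := al3_var hs h0 ha hk
    have hbl : ∀ b ∈ blkC R.n (t, i, j, k) l, blkEq s b = 0 := fun b hb' =>
      hb _ (mem_blks.2 (Or.inr ⟨l, _, hl, hb'⟩))
    cases t with
    | true =>
      have e := hbl _ List.mem_cons_self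
      simp only [blkEq, List.map_cons, List.map_nil, List.sum_cons, List.sum_nil, h0] at e
      have e' : al3D s i + al3D s j + al3D s k = 0 := by
        unfold al3D
        linear_combination e
      rw [Di, Dj, Dk] at e'
      change al3x s i + al3x s j + al3x s k = 0
      apply al3_cancel
      push_cast
      linear_combination e'
    | false =>
      have eA := hbl _ List.mem_cons_self
      have eB := hbl _ (List.mem_cons_of_mem _ List.mem_cons_self)
      have eC := hbl _ (List.mem_cons_of_mem _ (List.mem_cons_of_mem _ List.mem_cons_self))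
      simp only [blkEq, List.map_cons, List.map_nil, List.sum_cons, List.sum_nil, h0] at eA eB eC
      have i0 : 1 + 5 * R.n + 4 * l + 0 < R.toUV.m := by omega
      have i1 : 1 + 5 * R.n + 4 * l + 1 < R.toUV.m := by omega
      have i2 : 1 + 5 * R.n + 4 * l + 2 < R.toUV.m := by omega
      have i3 : 1 + 5 * R.n + 4 * l + 3 < R.toUV.m := by omega
      have hne : s (1 + 5 * R.n + 4 * l + 0) ≠ rho * s (1 + 5 * R.n + 4 * l + 1) := fun h =>
        al3_dt_self (hn _ i0) h (ha _ i0 _ i1)
      have H1 : (1 + (al3x s i : ℂ)) * (1 + rho) + s (1 + 5 * R.n + 4 * l + 0) =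
          (2 + rho) * s (1 + 5 * R.n + 4 * l + 2) := by
        have : al3D s i + (1 + rho) + s (1 + 5 * R.n + 4 * l + 0) =
            (2 + rho) * s (1 + 5 * R.n + 4 * l + 2) := by
          unfold al3D
          linear_combination eA
        rw [Di] at this
        linear_combination this
      have H2 : (1 + (al3x s i : ℂ)) * (1 + rho) + rho * s (1 + 5 * R.n + 4 * l + 1) =
          (1 + 2 * rho) * s (1 + 5 * R.n + 4 * l + 3) := by
        have : al3D s i + (1 + rho) + rho * s (1 + 5 * R.n + 4 * l + 1) =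
            (1 + 2 * rho) * s (1 + 5 * R.n + 4 * l + 3) := by
          unfold al3D
          linear_combination eB
        rw [Di] at this
        linear_combination this
      have H3 : (1 + (al3x s i : ℂ)) * (1 + rho) + s (1 + 5 * R.n + 4 * l + 0) +
          rho * s (1 + 5 * R.n + 4 * l + 1) = (2 + (al3x s j : ℂ)) * (1 + rho) := by
        have : al3D s i + s (1 + 5 * R.n + 4 * l + 0) + rho * s (1 + 5 * R.n + 4 * l + 1) =
            al3D s j + (1 + rho) := by
          unfold al3D
          linear_combination eC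
        rw [Di, Dj] at this
        linear_combination this
      have H4 := invG (hn _ i0) (hn _ i1) (hn _ i2) (hn _ i3) H1 H2 hne
      rw [H3] at H4
      change (1 + al3x s i) * (2 + al3x s j) = 2
      apply al3_cancel
      push_cast
      linear_combination H4
  · obtain ⟨hp, _⟩ := al3_var hs h0 ha hR1
    have hw : ‖s 1‖ = 1 := hn 1 (by omega)
    simp only [Nat.mul_zero, Nat.add_zero] at hp
    intro hx
    unfold al3x at hx
    simp only [Nat.mul_zero, Nat.add_zero] at hx
    have h3 : (2 * Real.sqrt 3) ≠ 0 := by positivity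
    have him : (s 1).im = 0 := by
      rcases mul_eq_zero.1 hx with h | h
      · exact absurd h h3
      · rcases div_eq_zero_iff.1 h with h | h
        · exact h
        · exact absurd h hp.ne'
    apply h1
    have hq : Complex.normSq (s 1) = 1 := by
      rw [← Complex.sq_norm, hw]
      norm_num
    rw [Complex.normSq_apply, him] at hq
    have hre : (s 1).re = 1 := by
      have h5 : ((s 1).re - 1) * (1 + (s 1).re) = 0 := by linear_combination hq
      rcases mul_eq_zero.1 h5 with h | h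
      · linarith
      · exact absurd h hp.ne'
    exact Complex.ext hre him

end Pool.Agent.PLN
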