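import Pool.Agent.PLN.Cx1

/-!
# A point on the intersection of two circles near `1`

Let `g φ = |V + e^{iφ}|² = |V|² + 1 + 2 (V.re cos φ + V.im sin φ)` and `c = |V0 + 1|²`.
`|g 0 - c| = (|V + 1| + |V0 + 1|) ||V + 1| - |V0 + 1|| ≤ (2 |V0 + 1| + d) d`.
For `|φ| ≤ 3 d ≤ 3/100`: `g φ - g 0 = 2 (V.re (cos φ - 1) + V.im sin φ)`,
`|cos φ - 1| ≤ φ²/2`, `|sin φ| ≥ 0.999 |φ|`, `|V.im| ≥ |V0.im| - d`, `|V.re| ≤ 3.1 + d`.  So
`g (± 3 d) - g 0` have opposite signs and modulus at least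
`2 (|V0.im| - d) * 0.999 * 3 d - (3.1 + d) * 9 d² ≥ (2 |V0 + 1| + d) d` by the hypothesis `h`
(divide by `d`; if `d = 0`, take `α = 1`).  The intermediate value theorem gives `φ ∈ [-3d, 3d]` with
`g φ = c`; `α = e^{iφ}`, `|α - 1| ≤ |φ|`.
-/

namespace Pool.Agent.PLN

private theorem circ_key {d M m : ℝ} (hd : 0 < d) (hd' : d ≤ 1 / 100)
    (h : 2 * M + 7 / 10 ≤ 59 / 10 * m) (a b : ℝ) (hM0 : 0 ≤ M) (ha : a ≤ 31 / 10 + d)
    (hb : m - d ≤ b) :
    (2 * M + d) * d ≤ 2 * (b * Real.sin (3 * d) - a * (9 * d ^ 2 / 2)) := by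
  have h3d : 0 < 3 * d := by linarith
  have hs : 3 * d - (3 * d) ^ 3 / 6 < Real.sin (3 * d) := Real.sin_gt_sub_cube h3d
  have hs2 : 2999 / 1000 * d ≤ Real.sin (3 * d) := by
    have h1 : d ^ 2 ≤ 1 / 10000 := by nlinarith
    have h2 : (3 * d) ^ 3 / 6 = d * (9 / 2 * d ^ 2) := by ring
    nlinarith
  have hb0 : 0 ≤ b := by linarith
  have h1 : b * (2999 / 1000 * d) ≤ b * Real.sin (3 * d) := mul_le_mul_of_nonneg_left hs2 hb0
  have h2 : (m - d) * (2999 / 1000 * d) ≤ b * (2999 / 1000 * d) :=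
    mul_le_mul_of_nonneg_right hb (by linarith)
  have h3 : a * (9 * d ^ 2 / 2) ≤ (31 / 10 + d) * (9 * d ^ 2 / 2) :=
    mul_le_mul_of_nonneg_right ha (by positivity)
  have h4 : (2 * M + d) ≤ 2 * ((m - d) * (2999 / 1000) - (31 / 10 + d) * (9 * d / 2)) := by
    nlinarith
  have h5 : (2 * M + d) * d ≤
      2 * ((m - d) * (2999 / 1000) - (31 / 10 + d) * (9 * d / 2)) * d :=
    mul_le_mul_of_nonneg_right h4 hd.le
  have h6 : 2 * ((m - d) * (2999 / 1000) - (31 / 10 + d) * (9 * d / 2)) * d =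
      2 * ((m - d) * (2999 / 1000 * d) - (31 / 10 + d) * (9 * d ^ 2 / 2)) := by ring
  linarith

private theorem circ_sq (V : ℂ) (φ : ℝ) : ‖V + (⟨Real.cos φ, Real.sin φ⟩ : ℂ)‖ ^ 2 =
    V.re ^ 2 + V.im ^ 2 + 1 + 2 * (V.re * Real.cos φ + V.im * Real.sin φ) := by
  rw [Complex.sq_norm, Complex.normSq_apply, Complex.add_re, Complex.add_im]
  have := Real.sin_sq_add_cos_sq φ
  change (V.re + Real.cos φ) * (V.re + Real.cos φ) + (V.im + Real.sin φ) * (V.im + Real.sin φ) = _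
  nlinarith

private theorem circ_unit (φ : ℝ) : ‖(⟨Real.cos φ, Real.sin φ⟩ : ℂ)‖ = 1 := by
  have h1 : ‖(⟨Real.cos φ, Real.sin φ⟩ : ℂ)‖ ^ 2 = 1 ^ 2 := by
    rw [Complex.sq_norm, Complex.normSq_apply]
    change Real.cos φ * Real.cos φ + Real.sin φ * Real.sin φ = 1 ^ 2
    have := Real.sin_sq_add_cos_sq φ
    linear_combination this
  exact (sq_eq_sq₀ (norm_nonneg _) zero_le_one).1 h1

private theorem circ_near (φ : ℝ) : ‖(⟨Real.cos φ, Real.sin φ⟩ : ℂ) - 1‖ ^ 2 ≤ φ ^ 2 := by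
  rw [Complex.sq_norm, Complex.normSq_apply, Complex.sub_re, Complex.sub_im, Complex.one_re,
    Complex.one_im]
  change (Real.cos φ - 1) * (Real.cos φ - 1) + (Real.sin φ - 0) * (Real.sin φ - 0) ≤ _
  have h2 := Real.sin_sq_add_cos_sq φ
  have h3 : 1 - φ ^ 2 / 2 ≤ Real.cos φ := Real.one_sub_sq_div_two_le_cos
  have h4 : (Real.cos φ - 1) * (Real.cos φ - 1) + (Real.sin φ - 0) * (Real.sin φ - 0) =
      2 - 2 * Real.cos φ := by linear_combination h2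
  rw [h4]
  linarith

theorem circ {V V0 : ℂ} {d : ℝ} (hd : ‖V - V0‖ ≤ d) (hd' : d ≤ 1 / 100) (hM : ‖V0‖ ≤ 31 / 10)
    (h : 2 * ‖V0 + 1‖ + 7 / 10 ≤ 59 / 10 * |V0.im|) :
    ∃ α : ℂ, ‖α‖ = 1 ∧ ‖V + α‖ = ‖V0 + 1‖ ∧ ‖α - 1‖ ≤ 3 * d := by
  have hd0 : 0 ≤ d := (norm_nonneg _).trans hd
  rcases hd0.eq_or_lt with hz | hpos
  · have : V = V0 := by
      have h1 : ‖V - V0‖ ≤ 0 := by rw [hz]; exact hd
      exact sub_eq_zero.1 (norm_le_zero_iff.1 h1)
    refine ⟨1, by simp, by rw [this], by simpa using hd0⟩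
  set M := ‖V0 + 1‖ with hMdef
  have hM0 : 0 ≤ M := norm_nonneg _
  have hre : |V.re| ≤ 31 / 10 + d := by
    have h1 : |V.re| ≤ ‖V‖ := Complex.abs_re_le_norm V
    have h2 : ‖V‖ ≤ ‖V0‖ + ‖V - V0‖ := by
      have := norm_add_le V0 (V - V0)
      simpa using this
    linarith
  have him : |V0.im| - d ≤ |V.im| := by
    have h1 : |(V - V0).im| ≤ ‖V - V0‖ := Complex.abs_im_le_norm _
    rw [Complex.sub_im] at h1
    have h2 := abs_sub_abs_le_abs_sub V0.im V.im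
    rw [abs_sub_comm] at h2
    linarith
  have key := circ_key hpos hd' h |V.re| |V.im| hM0 hre him
  -- the value at zero
  have hu : ‖V + 1‖ ≤ M + d := by
    have h1 : V + 1 = (V0 + 1) + (V - V0) := by ring
    rw [h1]
    exact (norm_add_le _ _).trans (by linarith)
  have hl : M ≤ ‖V + 1‖ + d := by
    have h1 : V0 + 1 = (V + 1) + (V0 - V) := by ring
    rw [hMdef, h1]
    refine (norm_add_le _ _).trans ?_
    rw [norm_sub_rev V0 V]
    linarith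
  have hV0 : ‖V + 1‖ ^ 2 = V.re ^ 2 + V.im ^ 2 + 1 + 2 * V.re := by
    rw [Complex.sq_norm, Complex.normSq_apply, Complex.add_re, Complex.add_im, Complex.one_re,
      Complex.one_im]
    ring
  have hn0 := norm_nonneg (V + 1)
  have hup : ‖V + 1‖ ^ 2 - M ^ 2 ≤ (2 * M + d) * d := by nlinarith
  have hlo : M ^ 2 - ‖V + 1‖ ^ 2 ≤ (2 * M + d) * d := by
    by_cases hMd : M ≤ d
    · nlinarith
    · have : M - d ≤ ‖V + 1‖ := by linarith
      nlinarith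
  -- the function
  let g : ℝ → ℝ := fun φ => V.re ^ 2 + V.im ^ 2 + 1 + 2 * (V.re * Real.cos φ + V.im * Real.sin φ)
  have hg : Continuous g := by
    simp only [g]
    fun_prop
  have hc1 : 1 - (3 * d) ^ 2 / 2 ≤ Real.cos (3 * d) := Real.one_sub_sq_div_two_le_cos
  have hc2 : Real.cos (3 * d) ≤ 1 := Real.cos_le_one _
  have hA : |V.re * (Real.cos (3 * d) - 1)| ≤ |V.re| * (9 * d ^ 2 / 2) := by
    rw [abs_mul]
    apply mul_le_mul_of_nonneg_left _ (abs_nonneg _)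
    rw [abs_le]
    constructor <;> nlinarith
  have hA' := abs_le.1 hA
  have e1 : g (3 * d) - ‖V + 1‖ ^ 2 =
      2 * (V.re * (Real.cos (3 * d) - 1) + V.im * Real.sin (3 * d)) := by
    rw [hV0]
    simp only [g]
    ring
  have e2 : g (-(3 * d)) - ‖V + 1‖ ^ 2 =
      2 * (V.re * (Real.cos (3 * d) - 1) - V.im * Real.sin (3 * d)) := by
    rw [hV0]
    simp only [g, Real.cos_neg, Real.sin_neg]
    ring
  have hmem : M ^ 2 ∈ Set.uIcc (g (-(3 * d))) (g (3 * d)) := by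
    rw [Set.mem_uIcc]
    rcases le_total 0 V.im with hi | hi
    · rw [abs_of_nonneg hi] at key
      left
      constructor <;> linarith [hA'.1, hA'.2]
    · rw [abs_of_nonpos hi] at key
      right
      constructor <;> linarith [hA'.1, hA'.2]
  obtain ⟨φ, hφ, hφe⟩ := intermediate_value_uIcc (hg.continuousOn) hmem
  rw [Set.uIcc_of_le (by linarith)] at hφ
  refine ⟨⟨Real.cos φ, Real.sin φ⟩, ?_, ?_, ?_⟩
  · exact circ_unit φ
  · have h1 := circ_sq V φ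
    have h2 : g φ = M ^ 2 := hφe
    have h3 : ‖V + (⟨Real.cos φ, Real.sin φ⟩ : ℂ)‖ ^ 2 = M ^ 2 := by
      rw [h1, ← h2]
    exact (sq_eq_sq₀ (norm_nonneg _) hM0).1 h3
  · have h4 : φ ^ 2 ≤ (3 * d) ^ 2 := by
      apply sq_le_sq'
      · linarith [hφ.1]
      · exact hφ.2
    exact (sq_le_sq₀ (norm_nonneg _) (by linarith)).1 ((circ_near φ).trans h4)

end Pool.Agent.PLN
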