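import Pool.Agent.PLN.Al4

/-!
# Existence of the signals of a variable

`T = x / (2√3)`, `w = (1 + i T)/(1 - i T)`, i.e. `w.re = (1 - T²)/(1 + T²)`,
`w.im = 2 T/(1 + T²)`, `w.im/(1 + w.re) = T`; `|w - 1| = 2 |T|/√(1 + T²) ≤ |x|/√3 ≤ 0.578 |x|`.
`α`: `circ` with `V = (1 - rho)(1 + w)`, `V0 = 2 (1 - rho)` (`V0 + 1 = 3 - 2 rho`,
`|V0| = 2 √(16/7) ≤ 3.03`, `|V0.im| = 8√3/7 ≥ 1.97`, `|V0 + 1| = √(103/7) ≤ 3.84`),
`|V - V0| = |1 - rho| |w - 1| ≤ 1.52 * 0.578 |x| ≤ 0.88 |x| =: d`;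
`w₁ = (V + α)/(3 - 2 rho)` has modulus `1` and
`|w₁ - 1| = |(V - V0) + (α - 1)|/|3 - 2 rho| ≤ 4 d / 3.8`.
`β`: `circ` with `V = - (1 - rho)(1 + w) conj rho`, `V0 = - 2 (1 - rho) conj rho =
2 (1 - conj rho)`; `|(1 - rho)(1 + w) - rho β| = |V + β| = |V0 + 1| = |3 - 2 conj rho| =
|2 - 3 rho|`; `w₂ = ((1 - rho)(1 + w) - rho β)/(2 - 3 rho)`; `w₂ - 1` as before
(`(2 - 3 rho) = 2 (1 - rho) - rho`).
-/

namespace Pool.Agent.PLN

private theorem al5_nrm (a b : ℝ) (z : ℂ) (hz : z = (a : ℂ) + b * rho) :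
    ‖z‖ ^ 2 = a ^ 2 + b ^ 2 - 2 / 7 * (a * b) := by
  rw [hz]; exact nrm_ab a b

private theorem al5_le {z : ℂ} {s t : ℝ} (h : ‖z‖ ^ 2 = s) (ht : 0 ≤ t) (hs : s ≤ t ^ 2) :
    ‖z‖ ≤ t := by
  have h0 := norm_nonneg z
  by_contra hc
  push Not at hc
  nlinarith

private theorem al5_ge {z : ℂ} {s t : ℝ} (h : ‖z‖ ^ 2 = s) (hs : t ^ 2 ≤ s) :
    t ≤ ‖z‖ := by
  have h0 := norm_nonneg z
  by_contra hc
  push Not at hc
  nlinarith

private theorem al5_conj : rho * (starRingEnd ℂ) rho = 1 := by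
  rw [Complex.mul_conj, Complex.normSq_eq_norm_sq, rho_nrm]
  norm_num

private theorem al5_one : ‖1 - rho‖ ≤ 152 / 100 := by
  refine al5_le (al5_nrm 1 (-1) _ (by push_cast; ring)) (by norm_num) (by norm_num)

private theorem al5_two : ‖3 - 2 * rho‖ ≤ 384 / 100 := by
  refine al5_le (al5_nrm 3 (-2) _ (by push_cast; ring)) (by norm_num) (by norm_num)

private theorem al5_two' : 38 / 10 ≤ ‖3 - 2 * rho‖ := by
  refine al5_ge (al5_nrm 3 (-2) _ (by push_cast; ring)) (by norm_num)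

private theorem al5_eq : ‖2 - 3 * rho‖ = ‖3 - 2 * rho‖ := by
  have h1 := al5_nrm 2 (-3) (2 - 3 * rho) (by push_cast; ring)
  have h2 := al5_nrm 3 (-2) (3 - 2 * rho) (by push_cast; ring)
  have h3 : ‖2 - 3 * rho‖ ^ 2 = ‖3 - 2 * rho‖ ^ 2 := by rw [h1, h2]; norm_num
  exact (sq_eq_sq₀ (norm_nonneg _) (norm_nonneg _)).1 h3

private theorem al5_im : 98 / 100 ≤ |rho.im| := by
  rw [rho_im]
  have h := sqrt3_bd.1
  rw [abs_of_nonneg (by positivity)]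
  linarith

private theorem al5_ne {a b : ℂ} (ha : ‖a - 1‖ ≤ 1 / 20) (hb : ‖b - 1‖ ≤ 1 / 20) :
    a ≠ -(rho * b) := by
  intro h
  have h1 : (1 + rho).re = 6 / 7 := by
    rw [Complex.add_re, rho_re, Complex.one_re]; norm_num
  have h2 : 6 / 7 ≤ ‖1 + rho‖ := by
    have := Complex.re_le_norm (1 + rho)
    rwa [h1] at this
  have h3 : 1 + rho = -(a - 1) - rho * (b - 1) := by rw [h]; ring
  have h4 : ‖1 + rho‖ ≤ ‖a - 1‖ + ‖b - 1‖ := by
    rw [h3]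
    refine (norm_sub_le _ _).trans ?_
    rw [norm_neg, norm_mul, rho_nrm, one_mul]
  linarith

/-- the division step -/
private theorem al5_div {u a z : ℂ} {t : ℝ} (hz : ‖z‖ = ‖3 - 2 * rho‖)
    (hu : ‖u‖ = ‖3 - 2 * rho‖)
    (h : u - z = a) (ha : ‖a‖ ≤ t) : ‖u / z‖ = 1 ∧ ‖u / z - 1‖ ≤ t / (38 / 10) ∧
      z * (u / z) = u := by
  have h2 := al5_two'
  have hz0 : z ≠ 0 := by
    intro h0
    rw [h0, norm_zero] at hz
    linarith
  have hz1 : 0 < ‖z‖ := norm_pos_iff.2 hz0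
  refine ⟨?_, ?_, ?_⟩
  · rw [norm_div, hz, hu]
    exact div_self (by linarith)
  · have h3 : u / z - 1 = a / z := by
      rw [← h]
      field_simp
    rw [h3, norm_div]
    have h0 := norm_nonneg a
    calc ‖a‖ / ‖z‖ ≤ ‖a‖ / (38 / 10) := by
          apply div_le_div_of_nonneg_left h0 (by norm_num)
          rw [hz]; exact h2
      _ ≤ t / (38 / 10) := by
          apply div_le_div_of_nonneg_right ha (by norm_num)
  · field_simp

/-- the signal `w` -/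
private theorem al5_w (x : ℝ) (hx : |x| ≤ 1 / 200) : ∃ w : ℂ, ‖w‖ = 1 ∧
    ‖w - 1‖ ≤ 578 / 1000 * |x| ∧ 2 * Real.sqrt 3 * (w.im / (1 + w.re)) = x ∧
    (0 < x → x / 2 ≤ w.im) := by
  have hs := sqrt3_bd
  have hs0 : 0 < Real.sqrt 3 := by linarith
  have hs3 : Real.sqrt 3 ^ 2 = 3 := Real.sq_sqrt (by norm_num)
  obtain ⟨T, hT⟩ : ∃ T : ℝ, T = x / (2 * Real.sqrt 3) := ⟨_, rfl⟩
  have hT2 : 2 * Real.sqrt 3 * T = x := by rw [hT]; field_simp
  have hTsq : T ^ 2 = x ^ 2 / 12 := by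
    rw [hT, div_pow, mul_pow, hs3]; ring
  have hx0 := abs_nonneg x
  have hxsq : x ^ 2 = |x| ^ 2 := (sq_abs x).symm
  have hpos : 0 < 1 + T ^ 2 := by positivity
  have hre : (⟨(1 - T ^ 2) / (1 + T ^ 2), 2 * T / (1 + T ^ 2)⟩ : ℂ).re =
    (1 - T ^ 2) / (1 + T ^ 2) := rfl
  have him : (⟨(1 - T ^ 2) / (1 + T ^ 2), 2 * T / (1 + T ^ 2)⟩ : ℂ).im =
    2 * T / (1 + T ^ 2) := rfl
  refine ⟨⟨(1 - T ^ 2) / (1 + T ^ 2), 2 * T / (1 + T ^ 2)⟩, ?_, ?_, ?_, ?_⟩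
  · have h1 : ‖(⟨(1 - T ^ 2) / (1 + T ^ 2), 2 * T / (1 + T ^ 2)⟩ : ℂ)‖ ^ 2 = 1 ^ 2 := by
      rw [Complex.sq_norm, Complex.normSq_apply, hre, him]
      field_simp
      ring
    exact (sq_eq_sq₀ (norm_nonneg _) zero_le_one).1 h1
  · have h1 : ‖(⟨(1 - T ^ 2) / (1 + T ^ 2), 2 * T / (1 + T ^ 2)⟩ : ℂ) - 1‖ ^ 2 =
        4 * T ^ 2 / (1 + T ^ 2) := by
      rw [Complex.sq_norm, Complex.normSq_apply, Complex.sub_re, Complex.sub_im, hre, him,
        Complex.one_re, Complex.one_im]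
      field_simp
      ring
    refine al5_le h1 (by positivity) ?_
    have h2 : 4 * T ^ 2 / (1 + T ^ 2) ≤ 4 * T ^ 2 := by
      apply div_le_self (by positivity)
      have := sq_nonneg T
      linarith
    refine h2.trans ?_
    rw [hTsq, hxsq]
    nlinarith [sq_nonneg |x|]
  · rw [hre, him]
    have h1 : 1 + (1 - T ^ 2) / (1 + T ^ 2) = 2 / (1 + T ^ 2) := by
      field_simp
      ring
    rw [h1]
    have h2 : 2 * T / (1 + T ^ 2) / (2 / (1 + T ^ 2)) = T := by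
      field_simp
    rw [h2, hT2]
  · intro hxp
    rw [him, le_div_iff₀ hpos, hTsq]
    have h1 : |x| = x := abs_of_pos hxp
    rw [h1] at hx
    have h2 : x = 2 * Real.sqrt 3 * T := hT2.symm
    have hTp : 0 < T := by
      rw [hT]; positivity
    have h3 : x ≤ 2 * 1.7321 * T := by
      rw [h2]
      nlinarith
    have h4 : x ^ 2 ≤ 1 / 40000 := by nlinarith
    have h5 : x / 2 * (1 + x ^ 2 / 12) ≤ x / 2 * (1 + 1 / 100) := by
      apply mul_le_mul_of_nonneg_left _ (by linarith)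
      linarith
    linarith

theorem varE (x : ℝ) (hx : |x| ≤ 1 / 200) : ∃ w α β w₁ w₂ : ℂ,
    (‖w‖ = 1 ∧ ‖α‖ = 1 ∧ ‖β‖ = 1 ∧ ‖w₁‖ = 1 ∧ ‖w₂‖ = 1) ∧
    (‖w - 1‖ ≤ 10 * |x| ∧ ‖α - 1‖ ≤ 10 * |x| ∧ ‖β - 1‖ ≤ 10 * |x| ∧ ‖w₁ - 1‖ ≤ 10 * |x| ∧
      ‖w₂ - 1‖ ≤ 10 * |x|) ∧
    α + (1 + w) - 3 * w₁ + rho * (2 * w₁ - 1 - w) = 0 ∧
    1 + w - 2 * w₂ + rho * (3 * w₂ - 1 - w - β) = 0 ∧
    α ≠ -(rho * β) ∧ 2 * Real.sqrt 3 * (w.im / (1 + w.re)) = x ∧ (0 < x → x / 2 ≤ w.im) := by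
  have hx0 := abs_nonneg x
  have hone := al5_one
  have htwo := al5_two
  have htwo' := al5_two'
  have him := al5_im
  have hconj := al5_conj
  obtain ⟨w, nw, hw1, hw2, hw3⟩ := al5_w x hx
  have hd1 : ‖(1 - rho) * (w - 1)‖ ≤ 88 / 100 * |x| := by
    rw [norm_mul]
    have h1 : ‖1 - rho‖ * ‖w - 1‖ ≤ 152 / 100 * (578 / 1000 * |x|) :=
      mul_le_mul hone hw1 (norm_nonneg _) (by norm_num)
    linarith
  -- the first one
  obtain ⟨a, na, ha1, ha2⟩ := circ (V := (1 - rho) * (1 + w)) (V0 := 2 * (1 - rho))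
    (d := 88 / 100 * |x|)
    (by
      have : (1 - rho) * (1 + w) - 2 * (1 - rho) = (1 - rho) * (w - 1) := by ring
      rw [this]; exact hd1)
    (by linarith)
    (by
      rw [norm_mul, Complex.norm_ofNat]
      linarith)
    (by
      have e1 : (2 * (1 - rho) + 1 : ℂ) = 3 - 2 * rho := by ring
      have e2 : (2 * (1 - rho)).im = -(2 * rho.im) := by
        rw [Complex.mul_im, Complex.sub_im, Complex.sub_re, Complex.one_im]
        simp
      rw [e1, e2, abs_neg, abs_mul, abs_of_pos (by norm_num : (0 : ℝ) < 2)]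
      linarith)
  have ha3 : ‖(1 - rho) * (1 + w) + a‖ = ‖3 - 2 * rho‖ := by
    rw [ha1]; congr 1; ring
  -- the second one
  have hnc : ‖(starRingEnd ℂ) rho‖ = 1 := by rw [Complex.norm_conj, rho_nrm]
  have hc2 : ‖2 * (1 - (starRingEnd ℂ) rho) + 1‖ = ‖3 - 2 * rho‖ := by
    have : 2 * (1 - (starRingEnd ℂ) rho) + 1 = (starRingEnd ℂ) (3 - 2 * rho) := by
      rw [map_sub, map_mul, map_ofNat, map_ofNat]; ring
    rw [this, Complex.norm_conj]
  have hc1 : ‖2 * (1 - (starRingEnd ℂ) rho)‖ = 2 * ‖1 - rho‖ := by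
    have : 1 - (starRingEnd ℂ) rho = (starRingEnd ℂ) (1 - rho) := by
      rw [map_sub, map_one]
    rw [norm_mul, Complex.norm_ofNat, this, Complex.norm_conj]
  obtain ⟨b, nb, hb1, hb2⟩ := circ (V := -((1 - rho) * (1 + w) * (starRingEnd ℂ) rho))
    (V0 := 2 * (1 - (starRingEnd ℂ) rho)) (d := 88 / 100 * |x|)
    (by
      have : -((1 - rho) * (1 + w) * (starRingEnd ℂ) rho) - 2 * (1 - (starRingEnd ℂ) rho) =
          -((1 - rho) * (w - 1) * (starRingEnd ℂ) rho) := by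
        linear_combination 2 * hconj
      rw [this, norm_neg, norm_mul, hnc, mul_one]; exact hd1)
    (by linarith) (by rw [hc1]; linarith)
    (by
      have e2 : (2 * (1 - (starRingEnd ℂ) rho)).im = 2 * rho.im := by
        rw [Complex.mul_im, Complex.sub_im, Complex.sub_re, Complex.one_im, Complex.conj_im]
        simp
      rw [hc2, e2, abs_mul, abs_of_pos (by norm_num : (0 : ℝ) < 2)]
      linarith)
  have hb3 : ‖(1 - rho) * (1 + w) - rho * b‖ = ‖3 - 2 * rho‖ := by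
    have : (1 - rho) * (1 + w) - rho * b =
        -(rho * (-((1 - rho) * (1 + w) * (starRingEnd ℂ) rho) + b)) := by
      linear_combination (-((1 - rho) * (1 + w))) * hconj
    rw [this, norm_neg, norm_mul, rho_nrm, one_mul, hb1, hc2]
  obtain ⟨n3, d3, e3⟩ := al5_div (u := (1 - rho) * (1 + w) + a) (z := 3 - 2 * rho)
    (a := (1 - rho) * (w - 1) + (a - 1)) (t := 88 / 25 * |x|) rfl ha3 (by ring)
    (by
      refine (norm_add_le _ _).trans ?_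
      linarith)
  obtain ⟨n4, d4, e4⟩ := al5_div (u := (1 - rho) * (1 + w) - rho * b) (z := 2 - 3 * rho)
    (a := (1 - rho) * (w - 1) - rho * (b - 1)) (t := 88 / 25 * |x|) al5_eq hb3 (by ring)
    (by
      refine (norm_sub_le _ _).trans ?_
      rw [norm_mul rho, rho_nrm, one_mul]
      linarith)
  refine ⟨w, a, b, _, _, ⟨nw, na, nb, n3, n4⟩, ⟨by linarith, by linarith, by linarith,
    by linarith, by linarith⟩, ?_, ?_, al5_ne (by linarith) (by linarith), hw2, hw3⟩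
  · linear_combination -e3
  · linear_combination -e4

end Pool.Agent.PLN
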