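import Pool.Agent.PLN.Al4

/-!
# Existence of the signals of an inversion

`a`: `circ` with `V = (1 + x)(1 + rho)`, `V0 = 1 + rho` (`|V0| = √(12/7) ≤ 1.31`,
`V0.im = 4√3/7 ≥ 0.989`, `|V0 + 1| = |2 + rho| = √(31/7) ≤ 2.105`),
`|V - V0| = |x| √(12/7) ≤ 1.31 |x| =: d`; `w₃ = (V + a)/(2 + rho)`.
`b`: `circ` with `V = (1 + x)(1 + rho) conj rho`, `V0 = 1 + conj rho` (`= (1 + rho) conj rho`);
`|(1 + x)(1 + rho) + rho b| = |V + b| = |2 + conj rho| = |1 + 2 rho|`;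
`w₄ = ((1 + x)(1 + rho) + rho b)/(1 + 2 rho)`.
`a ≠ rho b` because `|a - 1|, |b - 1| ≤ 1/20` and `|rho - 1| ≥ 1.5`.
-/

namespace Pool.Agent.PLN

private theorem al6_nrm (a b : ℝ) (z : ℂ) (hz : z = (a : ℂ) + b * rho) :
    ‖z‖ ^ 2 = a ^ 2 + b ^ 2 - 2 / 7 * (a * b) := by
  rw [hz]; exact nrm_ab a b

private theorem al6_le {z : ℂ} {s t : ℝ} (h : ‖z‖ ^ 2 = s) (ht : 0 ≤ t) (hs : s ≤ t ^ 2) :
    ‖z‖ ≤ t := by
  have h0 := norm_nonneg z
  by_contra hc
  push Not at hc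
  nlinarith

private theorem al6_ge {z : ℂ} {s t : ℝ} (h : ‖z‖ ^ 2 = s) (ht : 0 ≤ t) (hs : t ^ 2 ≤ s) :
    t ≤ ‖z‖ := by
  have h0 := norm_nonneg z
  by_contra hc
  push Not at hc
  nlinarith

private theorem al6_conj : rho * (starRingEnd ℂ) rho = 1 := by
  rw [Complex.mul_conj, Complex.normSq_eq_norm_sq, rho_nrm]
  norm_num

private theorem al6_one : ‖1 + rho‖ ≤ 131 / 100 := by
  refine al6_le (al6_nrm 1 1 _ (by push_cast; ring)) (by norm_num) (by norm_num)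

private theorem al6_two : ‖2 + rho‖ ≤ 2105 / 1000 := by
  refine al6_le (al6_nrm 2 1 _ (by push_cast; ring)) (by norm_num) (by norm_num)

private theorem al6_two' : 21 / 10 ≤ ‖2 + rho‖ := by
  refine al6_ge (al6_nrm 2 1 _ (by push_cast; ring)) (by norm_num) (by norm_num)

private theorem al6_eq : ‖1 + 2 * rho‖ = ‖2 + rho‖ := by
  have h1 := al6_nrm 1 2 (1 + 2 * rho) (by push_cast; ring)
  have h2 := al6_nrm 2 1 (2 + rho) (by push_cast; ring)
  have h3 : ‖1 + 2 * rho‖ ^ 2 = ‖2 + rho‖ ^ 2 := by rw [h1, h2]; norm_num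
  exact (sq_eq_sq₀ (norm_nonneg _) (norm_nonneg _)).1 h3

private theorem al6_im : 98 / 100 ≤ |rho.im| := by
  rw [rho_im]
  have h := sqrt3_bd.1
  rw [abs_of_nonneg (by positivity)]
  linarith

private theorem al6_ne {a b : ℂ} (ha : ‖a - 1‖ ≤ 1 / 20) (hb : ‖b - 1‖ ≤ 1 / 20) :
    a ≠ rho * b := by
  intro h
  have h1 : (rho - 1).re = -8 / 7 := by
    rw [Complex.sub_re, rho_re, Complex.one_re]; norm_num
  have h2 : 8 / 7 ≤ ‖rho - 1‖ := by
    have := Complex.abs_re_le_norm (rho - 1)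
    rw [h1] at this
    have h3 : |(-8 / 7 : ℝ)| = 8 / 7 := by rw [abs_of_neg (by norm_num)]; norm_num
    rwa [h3] at this
  have h3 : rho - 1 = (a - 1) - rho * (b - 1) := by rw [h]; ring
  have h4 : ‖rho - 1‖ ≤ ‖a - 1‖ + ‖b - 1‖ := by
    rw [h3]
    refine (norm_sub_le _ _).trans ?_
    rw [norm_mul, rho_nrm, one_mul]
  linarith

/-- the division step -/
private theorem al6_div {u a z : ℂ} {t : ℝ} (hz : ‖z‖ = ‖2 + rho‖) (hu : ‖u‖ = ‖2 + rho‖)
    (h : u - z = a) (ha : ‖a‖ ≤ t) : ‖u / z‖ = 1 ∧ ‖u / z - 1‖ ≤ t / (21 / 10) ∧ z * (u / z) = u := by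
  have h2 := al6_two'
  have hz0 : z ≠ 0 := by
    intro h0
    rw [h0, norm_zero] at hz
    linarith
  have hz1 : 0 < ‖z‖ := norm_pos_iff.2 hz0
  refine ⟨?_, ?_, ?_⟩
  · rw [norm_div, hz, hu]
    exact div_self (by linarith)
  · have h3 : u / z - 1 = a / z := by
      rw [← h]
      field_simp
    rw [h3, norm_div]
    have h0 := norm_nonneg a
    calc ‖a‖ / ‖z‖ ≤ ‖a‖ / (21 / 10) := by
          apply div_le_div_of_nonneg_left h0 (by norm_num)
          rw [hz]; exact h2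
      _ ≤ t / (21 / 10) := by
          apply div_le_div_of_nonneg_right ha (by norm_num)
  · field_simp

theorem invE (x : ℝ) (hx : |x| ≤ 1 / 200) : ∃ a b w₃ w₄ : ℂ,
    (‖a‖ = 1 ∧ ‖b‖ = 1 ∧ ‖w₃‖ = 1 ∧ ‖w₄‖ = 1) ∧
    (‖a - 1‖ ≤ 10 * |x| ∧ ‖b - 1‖ ≤ 10 * |x| ∧ ‖w₃ - 1‖ ≤ 10 * |x| ∧ ‖w₄ - 1‖ ≤ 10 * |x|) ∧
    (1 + x) * (1 + rho) + a = (2 + rho) * w₃ ∧
    (1 + x) * (1 + rho) + rho * b = (1 + 2 * rho) * w₄ ∧ a ≠ rho * b := by
  have hx0 := abs_nonneg x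
  have hone := al6_one
  have htwo := al6_two
  have htwo' := al6_two'
  have him := al6_im
  have hconj := al6_conj
  have hnx : ‖(x : ℂ)‖ = |x| := by rw [Complex.norm_real, Real.norm_eq_abs]
  have hd1 : ‖(x : ℂ) * (1 + rho)‖ ≤ 131 / 100 * |x| := by
    rw [norm_mul, hnx]
    nlinarith
  -- the first one
  obtain ⟨a, na, ha1, ha2⟩ := circ (V := (1 + (x : ℂ)) * (1 + rho)) (V0 := 1 + rho)
    (d := 131 / 100 * |x|)
    (by
      have : (1 + (x : ℂ)) * (1 + rho) - (1 + rho) = (x : ℂ) * (1 + rho) := by ring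
      rw [this]; exact hd1)
    (by linarith) (by linarith)
    (by
      have e1 : (1 + rho + 1 : ℂ) = 2 + rho := by ring
      have e2 : (1 + rho).im = rho.im := by rw [Complex.add_im, Complex.one_im, zero_add]
      rw [e1, e2]
      linarith)
  have ha3 : ‖(1 + (x : ℂ)) * (1 + rho) + a‖ = ‖2 + rho‖ := by
    rw [ha1]; congr 1; ring
  -- the second one
  have hnc : ‖(starRingEnd ℂ) rho‖ = 1 := by rw [Complex.norm_conj, rho_nrm]
  have hc2 : ‖1 + (starRingEnd ℂ) rho + 1‖ = ‖2 + rho‖ := by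
    have : 1 + (starRingEnd ℂ) rho + 1 = (starRingEnd ℂ) (2 + rho) := by
      rw [map_add, map_ofNat]; ring
    rw [this, Complex.norm_conj]
  have hc1 : ‖1 + (starRingEnd ℂ) rho‖ = ‖1 + rho‖ := by
    have : 1 + (starRingEnd ℂ) rho = (starRingEnd ℂ) (1 + rho) := by
      rw [map_add, map_one]
    rw [this, Complex.norm_conj]
  obtain ⟨b, nb, hb1, hb2⟩ := circ (V := (1 + (x : ℂ)) * (1 + rho) * (starRingEnd ℂ) rho)
    (V0 := 1 + (starRingEnd ℂ) rho) (d := 131 / 100 * |x|)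
    (by
      have : (1 + (x : ℂ)) * (1 + rho) * (starRingEnd ℂ) rho - (1 + (starRingEnd ℂ) rho) =
          (x : ℂ) * (1 + rho) * (starRingEnd ℂ) rho := by
        linear_combination hconj
      rw [this, norm_mul, hnc, mul_one]; exact hd1)
    (by linarith) (by rw [hc1]; linarith)
    (by
      have e2 : (1 + (starRingEnd ℂ) rho).im = -rho.im := by
        rw [Complex.add_im, Complex.one_im, zero_add, Complex.conj_im]
      rw [hc2, e2, abs_neg]
      linarith)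
  have hb3 : ‖(1 + (x : ℂ)) * (1 + rho) + rho * b‖ = ‖2 + rho‖ := by
    have : (1 + (x : ℂ)) * (1 + rho) + rho * b =
        rho * ((1 + (x : ℂ)) * (1 + rho) * (starRingEnd ℂ) rho + b) := by
      linear_combination (-(1 + (x : ℂ)) * (1 + rho)) * hconj
    rw [this, norm_mul, rho_nrm, one_mul, hb1, hc2]
  obtain ⟨n3, d3, e3⟩ := al6_div (u := (1 + (x : ℂ)) * (1 + rho) + a) (z := 2 + rho)
    (a := (x : ℂ) * (1 + rho) + (a - 1)) (t := 131 / 25 * |x|) rfl ha3 (by ring)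
    (by
      refine (norm_add_le _ _).trans ?_
      linarith)
  obtain ⟨n4, d4, e4⟩ := al6_div (u := (1 + (x : ℂ)) * (1 + rho) + rho * b) (z := 1 + 2 * rho)
    (a := (x : ℂ) * (1 + rho) + rho * (b - 1)) (t := 131 / 25 * |x|) al6_eq hb3 (by ring)
    (by
      refine (norm_add_le _ _).trans ?_
      rw [norm_mul rho, rho_nrm, one_mul]
      linarith)
  refine ⟨a, b, _, _, ⟨na, nb, n3, n4⟩, ⟨by linarith, by linarith, by linarith, by linarith⟩,
    e3.symm, e4.symm, al6_ne (by linarith) (by linarith)⟩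

end Pool.Agent.PLN
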