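import Pool.Agent.PLN.Al1
import Pool.Agent.PLN.Al2
import Pool.Agent.PLN.Al5
import Pool.Agent.PLN.Al6

/-!
# From real numbers to signals

Choose the numbers `varE (x i)` for `i < n` and, for every constraint number `l` of the form
`(false, i, j, _)`, the numbers `invE (x i)` (for the other constraints `1, 1, 1, 1`).  Define
`s 0 = 1`, `s (1 + 5 i + a)` = the `a`-th number of `varE (x i)` for `i < n`, `a < 5`, and
`s (1 + 5 n + 4 l + a)` = the `a`-th number of the constraint `l` for `a < 4`.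
By `varG`, `D i = x i (1 + rho)`, which gives the blocks of the constraints `(true, …)`.  By `invG`
and `SolR`: `(1 + x i)((1 + x i)(1 + rho) + a + rho b) = 2 (1 + rho) = (1 + x i)(2 + x j)(1 + rho)`,
and `1 + x i ≠ 0`, which is the third block of a constraint `(false, …)`.
-/

namespace Pool.Agent.PLN

/-- the properties of the five signals of a variable -/
def Al7V (x ε : ℝ) (v : ℕ → ℂ) : Prop :=
  (∀ a < 5, ‖v a‖ = 1 ∧ ‖v a - 1‖ ≤ 10 * ε) ∧
  v 1 + (1 + v 0) - 3 * v 3 + rho * (2 * v 3 - 1 - v 0) = 0 ∧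
  1 + v 0 - 2 * v 4 + rho * (3 * v 4 - 1 - v 0 - v 2) = 0 ∧
  (v 1 + v 0 - 2) - rho * (v 2 + v 0 - 2) = (x : ℂ) * (1 + rho) ∧
  (0 < x → x / 2 ≤ (v 0).im)

/-- the properties of the four signals of a constraint -/
def Al7E (x ε : ℝ) (v : ℕ → ℂ) : Prop :=
  (∀ a < 4, ‖v a‖ = 1 ∧ ‖v a - 1‖ ≤ 10 * ε) ∧
  (1 + (x : ℂ)) * (1 + rho) + v 0 = (2 + rho) * v 2 ∧
  (1 + (x : ℂ)) * (1 + rho) + rho * v 1 = (1 + 2 * rho) * v 3 ∧
  (1 + (x : ℂ)) * ((1 + x) * (1 + rho) + v 0 + rho * v 1) = 2 * (1 + rho)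

theorem Al7_v {x ε : ℝ} (hε : ε ≤ 1 / 200) (hx : |x| ≤ ε) : ∃ v, Al7V x ε v := by
  obtain ⟨w, α, β, w₁, w₂, ⟨n0, n1, n2, n3, n4⟩, ⟨d0, d1, d2, d3, d4⟩, E1, E2, hne, hT, him⟩ :=
    varE x (hx.trans hε)
  refine ⟨fun a => if a = 0 then w else if a = 1 then α else if a = 2 then β else
    if a = 3 then w₁ else w₂, ?_, ?_, ?_, ?_, ?_⟩
  · have hb : 10 * |x| ≤ 10 * ε := by linarith
    intro a ha
    interval_cases a
    · exact ⟨by simpa using n0, by simpa using d0.trans hb⟩
    · exact ⟨by simpa using n1, by simpa using d1.trans hb⟩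
    · exact ⟨by simpa using n2, by simpa using d2.trans hb⟩
    · exact ⟨by simpa using n3, by simpa using d3.trans hb⟩
    · exact ⟨by simpa using n4, by simpa using d4.trans hb⟩
  · simpa using E1
  · simpa using E2
  · have h := (varG n0 n1 n2 n3 n4 E1 E2 hne).2
    rw [hT] at h
    simpa using h
  · simpa using him

theorem Al7_e {x ε : ℝ} (hε : ε ≤ 1 / 200) (hx : |x| ≤ ε) : ∃ v, Al7E x ε v := by
  obtain ⟨a, b, w₃, w₄, ⟨n0, n1, n2, n3⟩, ⟨d0, d1, d2, d3⟩, E1, E2, hne⟩ :=
    invE x (hx.trans hε)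
  refine ⟨fun c => if c = 0 then a else if c = 1 then b else if c = 2 then w₃ else w₄,
    ?_, ?_, ?_, ?_⟩
  · have hb : 10 * |x| ≤ 10 * ε := by linarith
    intro c hc
    interval_cases c
    · exact ⟨by simpa using n0, by simpa using d0.trans hb⟩
    · exact ⟨by simpa using n1, by simpa using d1.trans hb⟩
    · exact ⟨by simpa using n2, by simpa using d2.trans hb⟩
    · exact ⟨by simpa using n3, by simpa using d3.trans hb⟩
  · simpa using E1
  · simpa using E2
  · simpa using invG n0 n1 n2 n3 E1 E2 hne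

theorem Al7_b3 {x y : ℝ} {a b D D' : ℂ} (h : (1 + (x : ℂ)) * ((1 + x) * (1 + rho) + a + rho * b) =
    2 * (1 + rho)) (hxy : (1 + x) * (2 + y) = 2) (hD : D = (x : ℂ) * (1 + rho))
    (hD' : D' = (y : ℂ) * (1 + rho)) : D - D' - 1 - rho + a + rho * b = 0 := by
  have h1 : (1 + (x : ℂ)) ≠ 0 := by
    intro h0
    have h2 : (1 + x) = 0 := by exact_mod_cast h0
    rw [h2, zero_mul] at hxy
    norm_num at hxy
  have h3 : (1 + (x : ℂ)) * (2 + y) = 2 := by exact_mod_cast hxy
  have h4 : (1 + (x : ℂ)) * (D - D' - 1 - rho + a + rho * b) = 0 := by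
    rw [hD, hD']
    linear_combination h - (1 + rho) * h3
  exact (mul_eq_zero.1 h4).resolve_left h1

theorem uv_of_rs {R : LS} (hR : R.Ok) {x : ℕ → ℝ} (hx : R.SolR x) {ε : ℝ} (hε : ε ≤ 1 / 200)
    (hb : ∀ i < R.n, |x i| ≤ ε) (h0 : 0 < x 0) : ∃ s : ℕ → ℂ, R.toUV.Sol s ∧ s 0 = 1 ∧
      (∀ j < R.toUV.m, ‖s j - 1‖ ≤ 10 * ε) ∧ x 0 / 2 ≤ (s 1).im := by
  obtain ⟨hn, hcs⟩ := hR
  have hε0 : 0 ≤ ε := (abs_nonneg _).trans (hb 0 hn)
  have hv : ∀ i, ∃ v, i < R.n → Al7V (x i) ε v := by
    intro i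
    by_cases hi : i < R.n
    · obtain ⟨v, hv⟩ := Al7_v hε (hb i hi)
      exact ⟨v, fun _ => hv⟩
    · exact ⟨fun _ => 1, fun h => absurd h hi⟩
  choose v hv using hv
  have he : ∀ l : ℕ, ∃ e : ℕ → ℂ, (∀ a < 4, ‖e a‖ = 1 ∧ ‖e a - 1‖ ≤ 10 * ε) ∧
      ∀ c : LC, R.cs[l]? = some c → c.1 = false → Al7E (x c.2.1) ε e := by
    intro l
    by_cases h : ∃ c, R.cs[l]? = some c ∧ c.1 = false
    · obtain ⟨c, hc, -⟩ := h
      have hmem : c ∈ R.cs := List.mem_of_getElem? hc
      obtain ⟨e, he⟩ := Al7_e hε (hb c.2.1 (hcs c hmem).1)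
      refine ⟨e, he.1, fun c' hc' _ => ?_⟩
      have : c = c' := by
        rw [hc] at hc'
        exact Option.some.inj hc'
      rw [← this]
      exact he
    · refine ⟨fun _ => 1, fun a _ => ⟨by simp, by simp; exact hε0⟩, fun c hc hf => ?_⟩
      exact absurd ⟨c, hc, hf⟩ h
  choose e he using he
  let s : ℕ → ℂ := fun j => if j = 0 then 1 else if j < 1 + 5 * R.n then v ((j - 1) / 5) ((j - 1) % 5)
    else e ((j - 1 - 5 * R.n) / 4) ((j - 1 - 5 * R.n) % 4)
  have s0 : s 0 = 1 := by simp [s]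
  have sv : ∀ i < R.n, ∀ a < 5, ∀ j, j = 1 + 5 * i + a → s j = v i a := by
    intro i hi a ha j hj
    have h1 : j ≠ 0 := by omega
    have h2 : j < 1 + 5 * R.n := by omega
    have h3 : (j - 1) / 5 = i := by omega
    have h4 : (j - 1) % 5 = a := by omega
    simp only [s, if_neg h1, if_pos h2, h3, h4]
  have se : ∀ l, ∀ a < 4, ∀ j, j = 1 + 5 * R.n + 4 * l + a → s j = e l a := by
    intro l a ha j hj
    have h1 : j ≠ 0 := by omega
    have h2 : ¬ j < 1 + 5 * R.n := by omega
    have h3 : (j - 1 - 5 * R.n) / 4 = l := by omega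
    have h4 : (j - 1 - 5 * R.n) % 4 = a := by omega
    simp only [s, if_neg h1, if_neg h2, h3, h4]
  have sall : ∀ j, ‖s j‖ = 1 ∧ ‖s j - 1‖ ≤ 10 * ε := by
    intro j
    by_cases h1 : j = 0
    · rw [h1, s0]
      refine ⟨by simp, ?_⟩
      rw [sub_self, norm_zero]
      linarith
    · by_cases h2 : j < 1 + 5 * R.n
      · have h3 : (j - 1) / 5 < R.n := by omega
        have h4 : (j - 1) % 5 < 5 := Nat.mod_lt _ (by norm_num)
        rw [sv _ h3 _ h4 j (by omega)]
        exact (hv _ h3).1 _ h4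
      · have h4 : (j - 1 - 5 * R.n) % 4 < 4 := Nat.mod_lt _ (by norm_num)
        rw [se ((j - 1 - 5 * R.n) / 4) _ h4 j (by omega)]
        exact (he _).1 _ h4
  refine ⟨s, uv_sol_iff.2 ⟨fun j _ => (sall j).1, ?_⟩, s0, fun j _ => (sall j).2, ?_⟩
  · intro b hbm
    rcases mem_blks.1 hbm with ⟨i, hi, hbi⟩ | ⟨l, c, hc, hbc⟩
    · obtain ⟨-, E1, E2, -, -⟩ := hv i hi
      have w0 := sv i hi 0 (by norm_num) (1 + 5 * i) (by omega)
      have w1 := sv i hi 1 (by norm_num) (2 + 5 * i) (by omega)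
      have w2 := sv i hi 2 (by norm_num) (3 + 5 * i) (by omega)
      have w3 := sv i hi 3 (by norm_num) (4 + 5 * i) (by omega)
      have w4 := sv i hi 4 (by norm_num) (5 + 5 * i) (by omega)
      simp only [blkV, List.mem_cons, List.not_mem_nil, or_false] at hbi
      rcases hbi with rfl | rfl
      · simp only [blkEq, List.map_cons, List.map_nil, List.sum_cons, List.sum_nil, w0, w1, w3, s0]
        linear_combination E1
      · simp only [blkEq, List.map_cons, List.map_nil, List.sum_cons, List.sum_nil, w0, w2, w4, s0]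
        linear_combination E2
    · have hmem : c ∈ R.cs := List.mem_of_getElem? hc
      obtain ⟨hi, hj, hk⟩ := hcs c hmem
      have hcx := hx c hmem
      obtain ⟨t, i, j, k⟩ := c
      dsimp only at hi hj hk
      have i0 := sv i hi 0 (by norm_num) (1 + 5 * i) (by omega)
      have i1 := sv i hi 1 (by norm_num) (2 + 5 * i) (by omega)
      have i2 := sv i hi 2 (by norm_num) (3 + 5 * i) (by omega)
      have j0 := sv j hj 0 (by norm_num) (1 + 5 * j) (by omega)
      have j1 := sv j hj 1 (by norm_num) (2 + 5 * j) (by omega)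
      have j2 := sv j hj 2 (by norm_num) (3 + 5 * j) (by omega)
      have k0 := sv k hk 0 (by norm_num) (1 + 5 * k) (by omega)
      have k1 := sv k hk 1 (by norm_num) (2 + 5 * k) (by omega)
      have k2 := sv k hk 2 (by norm_num) (3 + 5 * k) (by omega)
      obtain ⟨-, -, -, Di, -⟩ := hv i hi
      obtain ⟨-, -, -, Dj, -⟩ := hv j hj
      obtain ⟨-, -, -, Dk, -⟩ := hv k hk
      cases t with
      | true =>
        have hsum : (x i : ℂ) + x j + x k = 0 := by
          have : x i + x j + x k = 0 := hcx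
          exact_mod_cast this
        simp only [blkC, if_true, List.mem_cons, List.not_mem_nil, or_false] at hbc
        subst hbc
        simp only [blkEq, List.map_cons, List.map_nil, List.sum_cons, List.sum_nil, i0, i1, i2, j0,
          j1, j2, k0, k1, k2, s0]
        linear_combination Di + Dj + Dk + (1 + rho) * hsum
      | false =>
        obtain ⟨-, F1, F2, F3⟩ := (he l).2 _ hc rfl
        dsimp only at F1 F2 F3
        have e0 := se l 0 (by norm_num) (1 + 5 * R.n + 4 * l + 0) rfl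
        have e1 := se l 1 (by norm_num) (1 + 5 * R.n + 4 * l + 1) rfl
        have e2 := se l 2 (by norm_num) (1 + 5 * R.n + 4 * l + 2) rfl
        have e3 := se l 3 (by norm_num) (1 + 5 * R.n + 4 * l + 3) rfl
        have hij : (1 + x i) * (2 + x j) = 2 := hcx
        simp only [blkC, Bool.false_eq_true, if_false, List.mem_cons, List.not_mem_nil,
          or_false] at hbc
        rcases hbc with rfl | rfl | rfl
        · simp only [blkEq, List.map_cons, List.map_nil, List.sum_cons, List.sum_nil, i0, i1, i2,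
            e0, e2, s0]
          linear_combination Di + F1
        · simp only [blkEq, List.map_cons, List.map_nil, List.sum_cons, List.sum_nil, i0, i1, i2,
            e1, e3, s0]
          linear_combination Di + F2
        · have B3 := Al7_b3 F3 hij Di Dj
          simp only [blkEq, List.map_cons, List.map_nil, List.sum_cons, List.sum_nil, i0, i1, i2,
            j0, j1, j2, e0, e1, s0]
          linear_combination B3
  · rw [sv 0 hn 0 (by norm_num) 1 rfl]
    exact (hv 0 hn).2.2.2.2 h0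

end Pool.Agent.PLN
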