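import Pool.Agent.PLN.Rsd

/-!
# Squares by inversions

`y = f(x)`, where `(1 + x)(2 + y) = 2`, is `- 2 x/(1 + x)`.  For a constraint `x_j = x_i²` with
auxiliary values `x⁻ = f 0`, `f 1, …, f 5`: `(1 + x)(2 + f1) = 2`, `(1 - x)(2 + f2) = 2`,
`(1 - z)(2 + f4) = 2`, `f1 + f2 = 2 f4` (with `x = x_i`, `z = x_j`).
`rs_to_l2`: multiply: `2/(1+x) + 2/(1-x) = 4/(1-z)`, so `1 - z = 1 - x²`.
`l2_to_rs`: extend `x` by these values; the variable number `n + 1 + 6 l + a` belongs to the
constraint number `l`.  Bounds: `|2x/(1+x)| ≤ 3 ε` for `|x| ≤ ε ≤ 1/10`, and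
`|f4| = 2 x²/(1 + x²)·… ≤ 2.1 ε²`, so `|f5| = |2 f4| ≤ 4.2 ε² ≤ ε`.
-/

namespace Pool.Agent.PLN

private theorem al8_mem {S : LS} {d : LC} : d ∈ S.toRS.cs ↔ d = (true, S.n, S.n, S.n) ∨
    ∃ (c : LC) (l : ℕ), S.cs[l]? = some c ∧ d ∈ rsc S.n c l := by
  simp only [LS.toRS, List.mem_cons, List.mem_flatMap, Prod.exists, List.mem_zipIdx_iff_getElem?]

private theorem al8_lt {S : LS} {c : LC} {l : ℕ} (h : S.cs[l]? = some c) : l < S.cs.length :=
  (List.getElem?_eq_some_iff.mp h).1

private theorem al8_mem' {S : LS} {c : LC} {l : ℕ} (h : S.cs[l]? = some c) : c ∈ S.cs :=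
  List.mem_of_getElem? h

theorem rs_ok {S : LS} (hS : S.Ok) : S.toRS.Ok := by
  have hn : S.toRS.n = S.n + 1 + 6 * S.cs.length := rfl
  refine ⟨by omega, ?_⟩
  intro d hd
  rw [hn]
  rcases al8_mem.mp hd with rfl | ⟨c, l, hc, hd⟩
  · dsimp only
    omega
  · have hl := al8_lt hc
    obtain ⟨h1, h2, h3⟩ := hS.2 c (al8_mem' hc)
    unfold rsc at hd
    by_cases hb : c.1 = true
    · simp only [hb, if_true, List.mem_singleton] at hd
      subst hd
      omega
    · simp only [hb, if_false, List.mem_cons, List.not_mem_nil, or_false, Bool.false_eq_true] at hd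
      rcases hd with rfl | rfl | rfl | rfl | rfl | rfl | rfl <;> dsimp only <;> omega

theorem rs_to_l2 {S : LS} {x : ℕ → ℝ} (h : S.toRS.SolR x) : S.Sol2 x := by
  intro c hc
  obtain ⟨l, hl⟩ := List.mem_iff_getElem?.mp hc
  have h0 : x S.n + x S.n + x S.n = 0 := h (true, S.n, S.n, S.n) (al8_mem.mpr (Or.inl rfl))
  have hx0 : x S.n = 0 := by linarith
  obtain ⟨b, i, j, k⟩ := c
  cases b with
  | true =>
    have h1 := h (true, i, j, k) (al8_mem.mpr (Or.inr ⟨_, l, hl, by simp [rsc]⟩))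
    exact h1
  | false =>
    have key : ∀ d ∈ rsc S.n (false, i, j, k) l, LC.holdsR x d := fun d hd =>
      h d (al8_mem.mpr (Or.inr ⟨_, l, hl, hd⟩))
    simp only [rsc, Bool.false_eq_true, if_false, List.forall_mem_cons, List.not_mem_nil,
      false_implies, implies_true, and_true, LC.holdsR] at key
    obtain ⟨k1, k2, k3, k4, k5, k6, k7⟩ := key
    rw [hx0, add_zero] at k1 k4
    change x j = x i ^ 2
    set f0 := x (S.n + 1 + 6 * l + 0) with hf0
    set f1 := x (S.n + 1 + 6 * l + 1) with hf1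
    set f2 := x (S.n + 1 + 6 * l + 2) with hf2
    set f3 := x (S.n + 1 + 6 * l + 3) with hf3
    set f4 := x (S.n + 1 + 6 * l + 4) with hf4
    set f5 := x (S.n + 1 + 6 * l + 5) with hf5
    have e0 : f0 = - x i := by linarith
    have e3 : f3 = - x j := by linarith
    rw [e0] at k3
    rw [e3] at k5
    have hd : (2 + f4) ≠ 0 := by
      intro hz
      rw [hz, mul_zero] at k5
      norm_num at k5
    have e : f1 + f2 = 2 * f4 := by linarith
    apply mul_right_cancel₀ hd
    have e' : f1 = 2 * f4 - f2 := by linarith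
    rw [e'] at k2
    linear_combination (-1 : ℝ) * k5 + (1 - x i) / 2 * k2 + (1 + x i) / 2 * k3

/-- values of the auxiliary variables -/
private noncomputable def al8_val (x : ℕ → ℝ) (c : LC) (a : ℕ) : ℝ :=
  if c.1 then 0
  else if a = 0 then - x c.2.1
  else if a = 1 then -(2 * x c.2.1) / (1 + x c.2.1)
  else if a = 2 then 2 * x c.2.1 / (1 - x c.2.1)
  else if a = 3 then - x c.2.2.1
  else if a = 4 then 2 * x c.2.2.1 / (1 - x c.2.2.1)
  else -(4 * x c.2.2.1) / (1 - x c.2.2.1)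

/-- the extended solution -/
private noncomputable def al8_y (S : LS) (x : ℕ → ℝ) (v : ℕ) : ℝ :=
  if v < S.n then x v
  else if v = S.n then 0
  else al8_val x (S.cs.getD ((v - (S.n + 1)) / 6) (true, 0, 0, 0)) ((v - (S.n + 1)) % 6)

private theorem al8_y_lt {S : LS} {x : ℕ → ℝ} {v : ℕ} (h : v < S.n) : al8_y S x v = x v := by
  rw [al8_y, if_pos h]

private theorem al8_y_n {S : LS} {x : ℕ → ℝ} : al8_y S x S.n = 0 := by
  rw [al8_y, if_neg (lt_irrefl _), if_pos rfl]

private theorem al8_y_aux {S : LS} {x : ℕ → ℝ} {c : LC} {l a : ℕ} (h : S.cs[l]? = some c)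
    (ha : a < 6) : al8_y S x (S.n + 1 + 6 * l + a) = al8_val x c a := by
  have h1 : (S.n + 1 + 6 * l + a - (S.n + 1)) / 6 = l := by omega
  have h2 : (S.n + 1 + 6 * l + a - (S.n + 1)) % 6 = a := by omega
  rw [al8_y, if_neg (by omega), if_neg (by omega), h1, h2, List.getD_eq_getElem?_getD, h,
    Option.getD_some]

private theorem al8_bd1 {t ε : ℝ} (hε : ε ≤ 1 / 10) (h : |t| ≤ ε) : |2 * t| / |1 + t| ≤ 3 * ε := by
  have h1 := abs_le.mp h
  have h2 : 9 / 10 ≤ 1 + t := by linarith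
  have h3 : 0 ≤ ε := (abs_nonneg _).trans h
  rw [abs_of_pos (show 0 < 1 + t by linarith), div_le_iff₀ (by linarith), abs_mul,
    abs_of_pos (show (0 : ℝ) < 2 by norm_num)]
  nlinarith

private theorem al8_bd2 {t ε : ℝ} (hε : ε ≤ 1 / 10) (h : |t| ≤ ε) : |2 * t| / |1 - t| ≤ 3 * ε := by
  have h1 := abs_le.mp h
  have h2 : 9 / 10 ≤ 1 - t := by linarith
  have h3 : 0 ≤ ε := (abs_nonneg _).trans h
  rw [abs_of_pos (show 0 < 1 - t by linarith), div_le_iff₀ (by linarith), abs_mul,
    abs_of_pos (show (0 : ℝ) < 2 by norm_num)]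
  nlinarith

private theorem al8_bd3 {t ε : ℝ} (hε : ε ≤ 1 / 10) (h : |t| ≤ ε) :
    |4 * t ^ 2| / |1 - t ^ 2| ≤ 3 * ε := by
  have h1 := abs_le.mp h
  have h3 : 0 ≤ ε := (abs_nonneg _).trans h
  have h4 : t ^ 2 ≤ ε ^ 2 := by
    rw [← sq_abs t]
    exact pow_le_pow_left₀ (abs_nonneg _) h 2
  have h5 : ε ^ 2 ≤ ε / 10 := by nlinarith
  have h6 : 0 ≤ t ^ 2 := sq_nonneg t
  rw [abs_of_pos (show 0 < 1 - t ^ 2 by linarith), div_le_iff₀ (by linarith),
    abs_of_nonneg (by linarith)]
  nlinarith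

private theorem al8_val_bd {x : ℕ → ℝ} {c : LC} {a : ℕ} {ε : ℝ} (hε : ε ≤ 1 / 10)
    (h1 : |x c.2.1| ≤ ε) (h2 : |x c.2.2.1| ≤ ε) (hc : c.1 = false → x c.2.2.1 = x c.2.1 ^ 2) :
    |al8_val x c a| ≤ 3 * ε := by
  have h0 : 0 ≤ ε := (abs_nonneg _).trans h1
  unfold al8_val
  split_ifs with hb ha ha ha ha ha
  · rw [abs_zero]; linarith
  · rw [abs_neg]; linarith
  · rw [abs_div, abs_neg]; exact al8_bd1 hε h1
  · rw [abs_div]; exact al8_bd2 hε h1
  · rw [abs_neg]; linarith
  · rw [abs_div]; exact al8_bd2 hε h2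
  · rw [abs_div, abs_neg]
    rw [hc (by simpa using hb)]
    exact al8_bd3 hε h1

theorem l2_to_rs {S : LS} (hS : S.Ok) {x : ℕ → ℝ} (h : S.Sol2 x) {ε : ℝ} (hε : ε ≤ 1 / 10)
    (hb : ∀ i < S.n, |x i| ≤ ε) : ∃ y : ℕ → ℝ, S.toRS.SolR y ∧ (∀ i < S.n, y i = x i) ∧
      ∀ i < S.toRS.n, |y i| ≤ 3 * ε := by
  have h0 : 0 ≤ ε := (abs_nonneg _).trans (hb 0 hS.1)
  refine ⟨al8_y S x, ?_, fun i hi => al8_y_lt hi, ?_⟩
  · intro d hd
    rcases al8_mem.mp hd with rfl | ⟨c, l, hc, hd⟩
    · change al8_y S x S.n + al8_y S x S.n + al8_y S x S.n = 0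
      rw [al8_y_n]; norm_num
    · obtain ⟨h1, h2, h3⟩ := hS.2 c (al8_mem' hc)
      have h4 := h c (al8_mem' hc)
      obtain ⟨b, i, j, k⟩ := c
      dsimp only at h1 h2 h3
      cases b with
      | true =>
        simp only [rsc, if_true, List.mem_singleton] at hd
        subst hd
        change al8_y S x i + al8_y S x j + al8_y S x k = 0
        rw [al8_y_lt h1, al8_y_lt h2, al8_y_lt h3]
        exact h4
      | false =>
        have h5 : x j = x i ^ 2 := h4
        have hi := hb i h1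
        have hi' := abs_le.mp hi
        have hxi1 : 1 + x i ≠ 0 := by
          intro hz; linarith
        have hxi2 : 1 - x i ≠ 0 := by
          intro hz; linarith
        have hxj : 1 - x i ^ 2 ≠ 0 := by
          have : 1 - x i ^ 2 = (1 + x i) * (1 - x i) := by ring
          rw [this]
          exact mul_ne_zero hxi1 hxi2
        have v0 := al8_y_aux (x := x) hc (show 0 < 6 by norm_num)
        have v1 := al8_y_aux (x := x) hc (show 1 < 6 by norm_num)
        have v2 := al8_y_aux (x := x) hc (show 2 < 6 by norm_num)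
        have v3 := al8_y_aux (x := x) hc (show 3 < 6 by norm_num)
        have v4 := al8_y_aux (x := x) hc (show 4 < 6 by norm_num)
        have v5 := al8_y_aux (x := x) hc (show 5 < 6 by norm_num)
        simp only [al8_val, Bool.false_eq_true, if_false, if_true, one_ne_zero, OfNat.ofNat_ne_zero,
          OfNat.ofNat_ne_one, Nat.reduceEqDiff, h5] at v0 v1 v2 v3 v4 v5
        have vi : al8_y S x i = x i := al8_y_lt h1
        have vj : al8_y S x j = x i ^ 2 := by rw [al8_y_lt h2, h5]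
        have vn : al8_y S x S.n = 0 := al8_y_n
        simp only [rsc, Bool.false_eq_true, if_false, List.mem_cons, List.not_mem_nil,
          or_false] at hd
        rcases hd with rfl | rfl | rfl | rfl | rfl | rfl | rfl <;>
          simp only [LC.holdsR, vi, vj, vn, v0, v1, v2, v3, v4, v5]
        · ring
        · field_simp; ring
        · field_simp; ring
        · ring
        · field_simp; ring
        · field_simp; ring
        · field_simp; ring
  · intro v hv
    have hn : S.toRS.n = S.n + 1 + 6 * S.cs.length := rfl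
    rw [hn] at hv
    by_cases h1 : v < S.n
    · rw [al8_y_lt h1]
      have := hb v h1
      linarith
    · by_cases h2 : v = S.n
      · rw [h2, al8_y_n, abs_zero]; linarith
      · obtain ⟨l, a, ha, rfl⟩ : ∃ l a, a < 6 ∧ v = S.n + 1 + 6 * l + a :=
          ⟨(v - (S.n + 1)) / 6, (v - (S.n + 1)) % 6, Nat.mod_lt _ (by norm_num), by omega⟩
        have hl : l < S.cs.length := by omega
        have hc : S.cs[l]? = some S.cs[l] := List.getElem?_eq_getElem hl
        rw [al8_y_aux hc ha]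
        obtain ⟨k1, k2, k3⟩ := hS.2 _ (al8_mem' hc)
        refine al8_val_bd hε (hb _ k1) (hb _ k2) ?_
        have k4 := h _ (al8_mem' hc)
        generalize S.cs[l] = c at *
        intro hc1
        obtain ⟨b, i, j, k⟩ := c
        dsimp only at hc1
        subst hc1
        exact k4

end Pool.Agent.PLN
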