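import Pool.Agent.PLN.Rsd

/-!
# Straight-line systems by squares

`l2_to_sl`: `x (l + 1) = x l ²` for `l < K`, so `s := x K ≠ 0`; `x (K + 1) = 0` (`3 x = 0`),
`x (K + 2 + n) = - s`.  Put `v i = x (K + 2 + i) / s`.  A constraint `v i = 1` is `X i - s = 0`; a
constraint `add` is `X i + X j = X k`; a constraint `mul`: `f0 = -(X i + X j)`, `f1 = f0²`,
`f2 = X i²`, `f3 = X j²`, `f4 = -(s + X k)`, `f5 = f4²`, `f6 = s²`, `f7 = X k²`,
`f8 = -(f2 + f3)`, `f9 = -(f1 + f8)`, `f10 = -(f6 + f7)`, `f5 + f10 + f9 = 0`; so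
`2 X i X j = 2 s X k`.
`sl_to_l2`: with `s = t ^ 2 ^ K`, `x l = t ^ 2 ^ l` for `l ≤ K`, `x (K+1) = 0`,
`x (K + 2 + i) = s v i`, `x (K + 2 + n) = - s` and the auxiliary values above (the variable
`K + 3 + n + 11 l + a` belongs to the constraint number `l`).  Bounds: `|X i| ≤ s B ≤ t/10`,
`s ≤ s B ≤ t/10` (`B ≥ 1`), so all auxiliary values are at most `t` in absolute value (`t ≤ 1`).
-/

namespace Pool.Agent.PLN

theorem al9_mem {S : SL} {K : ℕ} {c : LC} : c ∈ (S.toL2 K).cs ↔
    c = (true, K + 1, K + 1, K + 1) ∨ c = (true, K, K + 2 + S.n, K + 1) ∨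
    (∃ l < K, c = (false, l, l + 1, 0)) ∨ ∃ d l, S.cs[l]? = some d ∧ c ∈ l2c K S.n d l := by
  simp only [SL.toL2, List.mem_append, List.mem_cons, List.mem_map, List.mem_range,
    List.mem_flatMap, List.not_mem_nil, or_false]
  constructor
  · rintro (((h | h) | ⟨l, hl, rfl⟩) | ⟨⟨d, l⟩, hd, hc⟩)
    · exact Or.inl h
    · exact Or.inr (Or.inl h)
    · exact Or.inr (Or.inr (Or.inl ⟨l, hl, rfl⟩))
    · exact Or.inr (Or.inr (Or.inr ⟨d, l, List.mk_mem_zipIdx_iff_getElem?.mp hd, hc⟩))
  · rintro (h | h | ⟨l, hl, rfl⟩ | ⟨d, l, hd, hc⟩)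
    · exact Or.inl (Or.inl (Or.inl h))
    · exact Or.inl (Or.inl (Or.inr h))
    · exact Or.inl (Or.inr ⟨l, hl, rfl⟩)
    · exact Or.inr ⟨(d, l), List.mk_mem_zipIdx_iff_getElem?.mpr hd, hc⟩

theorem al9_lt {S : SL} {d : SC} {l : ℕ} (h : S.cs[l]? = some d) : l < S.cs.length := by
  obtain ⟨hl, _⟩ := List.getElem?_eq_some_iff.mp h
  exact hl

theorem al9_in {S : SL} {d : SC} {l : ℕ} (h : S.cs[l]? = some d) : d ∈ S.cs := by
  obtain ⟨hl, rfl⟩ := List.getElem?_eq_some_iff.mp h
  exact List.getElem_mem hl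

theorem l2_ok {S : SL} (hS : S.Ok) (K : ℕ) : (S.toL2 K).Ok := by
  have hn : (S.toL2 K).n = K + 3 + S.n + 11 * S.cs.length := rfl
  refine ⟨by rw [hn]; omega, ?_⟩
  intro c hc
  rw [hn]
  rcases al9_mem.mp hc with rfl | rfl | ⟨l, hl, rfl⟩ | ⟨⟨b1, b2, i, j, k⟩, l, hd, hc⟩
  · refine ⟨?_, ?_, ?_⟩ <;> dsimp only <;> omega
  · refine ⟨?_, ?_, ?_⟩ <;> dsimp only <;> omega
  · refine ⟨?_, ?_, ?_⟩ <;> dsimp only <;> omega
  · have hl := al9_lt hd
    obtain ⟨hi, hj, hk⟩ := hS.2 _ (al9_in hd)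
    simp only at hi hj hk
    cases b1
    · simp only [l2c, Bool.false_eq_true, if_false, List.mem_cons, List.not_mem_nil, or_false] at hc
      rcases hc with rfl
      refine ⟨?_, ?_, ?_⟩ <;> dsimp only <;> omega
    · cases b2
      · simp only [l2c, Bool.false_eq_true, if_false, if_true, List.mem_cons, List.not_mem_nil,
          or_false] at hc
        rcases hc with rfl | rfl <;> refine ⟨?_, ?_, ?_⟩ <;> dsimp only <;> omega
      · simp only [l2c, if_true, List.mem_cons, List.not_mem_nil, or_false] at hc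
        rcases hc with rfl | rfl | rfl | rfl | rfl | rfl | rfl | rfl | rfl | rfl | rfl | rfl <;>
          refine ⟨?_, ?_, ?_⟩ <;> dsimp only <;> omega

theorem l2_to_sl {S : SL} (hS : S.Ok) {K : ℕ} {x : ℕ → ℝ} (h : (S.toL2 K).Sol2 x)
    (h0 : x 0 ≠ 0) : ∃ v : ℕ → ℝ, S.Sol v := by
  have hz : x (K + 1) = 0 := by
    have := h _ (al9_mem.mpr (Or.inl rfl))
    simp only [LC.holds2] at this
    linarith
  have hm : x (K + 2 + S.n) = - x K := by
    have := h _ (al9_mem.mpr (Or.inr (Or.inl rfl)))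
    simp only [LC.holds2] at this
    linarith
  have hsq : ∀ l < K, x (l + 1) = x l ^ 2 := by
    intro l hl
    have := h _ (al9_mem.mpr (Or.inr (Or.inr (Or.inl ⟨l, hl, rfl⟩))))
    simpa only [LC.holds2] using this
  have hne : ∀ l ≤ K, x l ≠ 0 := by
    intro l
    induction l with
    | zero => intro _; exact h0
    | succ l ih =>
      intro hl
      rw [hsq l (by omega)]
      exact pow_ne_zero 2 (ih (by omega))
  have hs := hne K le_rfl
  refine ⟨fun i => x (K + 2 + i) / x K, ?_⟩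
  intro d hd
  obtain ⟨l, hl, hld⟩ := List.getElem_of_mem hd
  have hd' : S.cs[l]? = some d := by rw [List.getElem?_eq_some_iff]; exact ⟨hl, hld⟩
  have hc : ∀ c ∈ l2c K S.n d l, c.holds2 x := fun c hc =>
    h c (al9_mem.mpr (Or.inr (Or.inr (Or.inr ⟨d, l, hd', hc⟩))))
  obtain ⟨b1, b2, i, j, k⟩ := d
  cases b1
  · simp only [l2c, Bool.false_eq_true, if_false, List.mem_cons, List.not_mem_nil, or_false,
      forall_eq, LC.holds2] at hc
    show x (K + 2 + i) / x K = 1
    rw [div_eq_one_iff_eq hs]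
    linarith
  · cases b2
    · simp only [l2c, Bool.false_eq_true, if_false, if_true, List.mem_cons, List.not_mem_nil,
        or_false, forall_eq_or_imp, forall_eq, LC.holds2] at hc
      show x (K + 2 + i) / x K + x (K + 2 + j) / x K = x (K + 2 + k) / x K
      rw [← add_div]
      congr 1
      linarith [hc.1, hc.2]
    · simp only [l2c, if_true, List.mem_cons, List.not_mem_nil, or_false, forall_eq_or_imp,
        forall_eq, LC.holds2] at hc
      obtain ⟨c1, c2, c3, c4, c5, c6, c7, c8, c9, c10, c11, c12⟩ := hc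
      show x (K + 2 + i) / x K * (x (K + 2 + j) / x K) = x (K + 2 + k) / x K
      set Xi := x (K + 2 + i)
      set Xj := x (K + 2 + j)
      set Xk := x (K + 2 + k)
      set s := x K
      have e0 : x (K + 3 + S.n + 11 * l + 0) = -(Xi + Xj) := by linarith
      have e4 : x (K + 3 + S.n + 11 * l + 4) = -(s + Xk) := by linarith
      rw [e0] at c2
      rw [e4] at c6
      have key : Xi * Xj = s * Xk := by
        have : 2 * (Xi * Xj) = 2 * (s * Xk) := by
          linear_combination (-1) * c12 + c11 + c10 + (-1) * c2 + (-1) * c7 + c6 + (-1) * c8 + (-1) * c9 + c3 + c4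
        linarith
      field_simp
      linear_combination key

/-- values of the auxiliary variables -/
noncomputable def al9_f (v : ℕ → ℝ) (s : ℝ) (d : SC) (a : ℕ) : ℝ :=
  let X := fun i => s * v i
  let i := d.2.2.1
  let j := d.2.2.2.1
  let k := d.2.2.2.2
  if d.1 then
    if d.2.1 then
      if a = 0 then -(X i + X j) else if a = 1 then (X i + X j) ^ 2 else if a = 2 then X i ^ 2
      else if a = 3 then X j ^ 2 else if a = 4 then -(s + X k) else if a = 5 then (s + X k) ^ 2
      else if a = 6 then s ^ 2 else if a = 7 then X k ^ 2 else if a = 8 then -(X i ^ 2 + X j ^ 2)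
      else if a = 9 then -((X i + X j) ^ 2 - (X i ^ 2 + X j ^ 2)) else -(s ^ 2 + X k ^ 2)
    else if a = 0 then - X k else 0
  else 0

/-- all values -/
noncomputable def al9_x (S : SL) (K : ℕ) (v : ℕ → ℝ) (t : ℝ) (m : ℕ) : ℝ :=
  if m ≤ K then t ^ 2 ^ m else if m = K + 1 then 0
  else if m < K + 2 + S.n then t ^ 2 ^ K * v (m - (K + 2)) else if m = K + 2 + S.n then - t ^ 2 ^ K
  else match S.cs[(m - (K + 3 + S.n)) / 11]? with
    | none => 0
    | some d => al9_f v (t ^ 2 ^ K) d ((m - (K + 3 + S.n)) % 11)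

theorem al9_x0 (S : SL) {K : ℕ} (v : ℕ → ℝ) (t : ℝ) {m : ℕ} (h : m ≤ K) :
    al9_x S K v t m = t ^ 2 ^ m := by
  unfold al9_x; rw [if_pos h]

theorem al9_x1 (S : SL) (K : ℕ) (v : ℕ → ℝ) (t : ℝ) : al9_x S K v t (K + 1) = 0 := by
  unfold al9_x; rw [if_neg (by omega), if_pos rfl]

theorem al9_x2 (S : SL) (K : ℕ) (v : ℕ → ℝ) (t : ℝ) {i : ℕ} (h : i < S.n) :
    al9_x S K v t (K + 2 + i) = t ^ 2 ^ K * v i := by
  unfold al9_x; rw [if_neg (by omega), if_neg (by omega), if_pos (by omega),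
    show K + 2 + i - (K + 2) = i by omega]

theorem al9_x3 (S : SL) (K : ℕ) (v : ℕ → ℝ) (t : ℝ) :
    al9_x S K v t (K + 2 + S.n) = - t ^ 2 ^ K := by
  unfold al9_x; rw [if_neg (by omega), if_neg (by omega), if_neg (by omega), if_pos rfl]

theorem al9_x4 (S : SL) (K : ℕ) (v : ℕ → ℝ) (t : ℝ) {l a : ℕ} {d : SC} (hd : S.cs[l]? = some d)
    (ha : a < 11) :
    al9_x S K v t (K + 3 + S.n + 11 * l + a) = al9_f v (t ^ 2 ^ K) d a := by
  unfold al9_x; rw [if_neg (by omega), if_neg (by omega), if_neg (by omega), if_neg (by omega),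
    show (K + 3 + S.n + 11 * l + a - (K + 3 + S.n)) / 11 = l by omega,
    show (K + 3 + S.n + 11 * l + a - (K + 3 + S.n)) % 11 = a by omega, hd]

theorem al9_ite {p : Prop} [Decidable p] {x y t : ℝ} (hx : |x| ≤ t) (hy : |y| ≤ t) :
    |if p then x else y| ≤ t := by
  split_ifs
  · exact hx
  · exact hy

theorem al9_fb {v : ℕ → ℝ} {s t : ℝ} {d : SC} (ht : 0 < t) (ht' : t ≤ 1 / 10) (hs : |s| ≤ t / 10)
    (hi : |s * v d.2.2.1| ≤ t / 10) (hj : |s * v d.2.2.2.1| ≤ t / 10)
    (hk : |s * v d.2.2.2.2| ≤ t / 10) (a : ℕ) : |al9_f v s d a| ≤ t := by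
  have sq : ∀ y : ℝ, |y| ≤ t / 5 → |y ^ 2| ≤ t / 50 := by
    intro y hy
    rw [abs_pow, pow_two]
    have h1 := abs_nonneg y
    nlinarith
  have h5 : ∀ y : ℝ, |y| ≤ t / 10 → |y| ≤ t / 5 := fun y hy => by linarith
  have q1 := sq _ (h5 _ hi)
  have q2 := sq _ (h5 _ hj)
  have q3 := sq _ (h5 _ hk)
  have q4 := sq _ (h5 _ hs)
  have a1 : |s * v d.2.2.1 + s * v d.2.2.2.1| ≤ t / 5 := (abs_add_le _ _).trans (by linarith)
  have a2 : |s + s * v d.2.2.2.2| ≤ t / 5 := (abs_add_le _ _).trans (by linarith)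
  have q5 := sq _ a1
  have q6 := sq _ a2
  have a3 : |(s * v d.2.2.1) ^ 2 + (s * v d.2.2.2.1) ^ 2| ≤ t / 25 :=
    (abs_add_le _ _).trans (by linarith)
  have a4 : |s ^ 2 + (s * v d.2.2.2.2) ^ 2| ≤ t / 25 := (abs_add_le _ _).trans (by linarith)
  have a5 : |(s * v d.2.2.1 + s * v d.2.2.2.1) ^ 2 -
      ((s * v d.2.2.1) ^ 2 + (s * v d.2.2.2.1) ^ 2)| ≤ t :=
    (abs_sub _ _).trans (by linarith)
  unfold al9_f
  dsimp only
  repeat' apply al9_ite
  all_goals first
    | (rw [abs_zero]; exact ht.le)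
    | (rw [abs_neg]; linarith)
    | linarith

theorem sl_to_l2 {S : SL} (hS : S.Ok) {K : ℕ} {v : ℕ → ℝ} (h : S.Sol v) {B t : ℝ} (hB : 1 ≤ B)
    (hb : ∀ i < S.n, |v i| ≤ B) (ht : 0 < t) (ht' : t ≤ 1 / 10)
    (hK : t ^ 2 ^ K * B ≤ t / 10) : ∃ x : ℕ → ℝ, (S.toL2 K).Sol2 x ∧ x 0 = t ∧
      ∀ i < (S.toL2 K).n, |x i| ≤ t := by
  have hs0 : 0 < t ^ 2 ^ K := pow_pos ht _
  have hsB : t ^ 2 ^ K ≤ t ^ 2 ^ K * B := le_mul_of_one_le_right hs0.le hB
  have hX : ∀ i < S.n, |t ^ 2 ^ K * v i| ≤ t / 10 := by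
    intro i hi
    rw [abs_mul, abs_of_pos hs0]
    exact (mul_le_mul_of_nonneg_left (hb i hi) hs0.le).trans hK
  have hpw : ∀ m : ℕ, |t ^ 2 ^ m| ≤ t := by
    intro m
    rw [abs_of_pos (pow_pos ht _)]
    calc t ^ 2 ^ m ≤ t ^ 1 := pow_le_pow_of_le_one ht.le (by linarith) Nat.one_le_two_pow
      _ = t := pow_one t
  refine ⟨al9_x S K v t, ?_, ?_, ?_⟩
  · intro c hc
    rcases al9_mem.mp hc with rfl | rfl | ⟨l, hl, rfl⟩ | ⟨⟨b1, b2, i, j, k⟩, l, hd, hc⟩
    · simp only [LC.holds2, al9_x1]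
      norm_num
    · simp only [LC.holds2, al9_x1, al9_x3, al9_x0 S v t (le_refl K)]
      ring
    · simp only [LC.holds2]
      rw [al9_x0 S v t (by omega : l + 1 ≤ K), al9_x0 S v t hl.le, ← pow_mul, pow_succ]
    · obtain ⟨hi, hj, hk⟩ := hS.2 _ (al9_in hd)
      have hv := h _ (al9_in hd)
      simp only at hi hj hk
      have e := fun a (ha : a < 11) => al9_x4 S K v t hd ha
      have eK := al9_x0 S v t (le_refl K)
      have ei := al9_x2 S K v t hi
      have ej := al9_x2 S K v t hj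
      have ek := al9_x2 S K v t hk
      cases b1
      · simp only [l2c, Bool.false_eq_true, if_false, List.mem_cons, List.not_mem_nil,
          or_false] at hc
        subst hc
        have hv' : v i = 1 := hv
        simp only [LC.holds2, al9_x1, al9_x3, ei, hv']
        ring
      · cases b2
        · have hv' : v i + v j = v k := hv
          simp only [l2c, Bool.false_eq_true, if_false, if_true, List.mem_cons, List.not_mem_nil,
            or_false] at hc
          rcases hc with rfl | rfl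
          · simp only [LC.holds2, al9_x1, ek, e 0 (by norm_num), al9_f, if_true,
              Bool.false_eq_true, if_false]
            ring
          · simp only [LC.holds2, ei, ej, e 0 (by norm_num), al9_f, if_true,
              Bool.false_eq_true, if_false]
            rw [← hv']
            ring
        · have hv' : v i * v j = v k := hv
          simp only [l2c, if_true, List.mem_cons, List.not_mem_nil, or_false] at hc
          have e0 := e 0 (by norm_num)
          have e1 := e 1 (by norm_num)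
          have e2 := e 2 (by norm_num)
          have e3 := e 3 (by norm_num)
          have e4 := e 4 (by norm_num)
          have e5 := e 5 (by norm_num)
          have e6 := e 6 (by norm_num)
          have e7 := e 7 (by norm_num)
          have e8 := e 8 (by norm_num)
          have e9 := e 9 (by norm_num)
          have e10 := e 10 (by norm_num)
          simp only [al9_f, if_true, if_false, OfNat.ofNat_ne_zero, OfNat.ofNat_ne_one, one_ne_zero,
            Nat.reduceEqDiff] at e0 e1 e2 e3 e4 e5 e6 e7 e8 e9 e10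
          rcases hc with rfl | rfl | rfl | rfl | rfl | rfl | rfl | rfl | rfl | rfl | rfl | rfl
          · simp only [LC.holds2, ei, ej, e0]; ring
          · simp only [LC.holds2, e0, e1]; ring
          · simp only [LC.holds2, ei, e2]
          · simp only [LC.holds2, ej, e3]
          · simp only [LC.holds2, eK, ek, e4]; ring
          · simp only [LC.holds2, e4, e5]; ring
          · simp only [LC.holds2, eK, e6]
          · simp only [LC.holds2, ek, e7]
          · simp only [LC.holds2, e2, e3, e8]; ring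
          · simp only [LC.holds2, e1, e8, e9]; ring
          · simp only [LC.holds2, e6, e7, e10]; ring
          · simp only [LC.holds2, e5, e10, e9]
            rw [← hv']
            ring
  · rw [al9_x0 S v t (Nat.zero_le K)]
    simp
  · intro m hm
    have hn : (S.toL2 K).n = K + 3 + S.n + 11 * S.cs.length := rfl
    rw [hn] at hm
    unfold al9_x
    split_ifs with h1 h2 h3 h4
    · exact hpw m
    · rw [abs_zero]; exact ht.le
    · exact (hX _ (by omega)).trans (by linarith)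
    · rw [abs_neg]; exact hpw K
    · rcases hd : S.cs[(m - (K + 3 + S.n)) / 11]? with _ | d
      · show |(0 : ℝ)| ≤ t
        rw [abs_zero]; exact ht.le
      · obtain ⟨hi, hj, hk⟩ := hS.2 _ (al9_in hd)
        have hs1 : |t ^ 2 ^ K| ≤ t / 10 := by rw [abs_of_pos hs0]; linarith
        exact al9_fb ht ht' hs1 (hX _ hi) (hX _ hj) (hX _ hk) _

end Pool.Agent.PLN
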