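import Mathlib

/-!
# Sub-multiplicative norms with values in `ℕ`

`IsN N`: `N 0 = 0`, `N (a + b) ≤ N a + N b`, `N (a * b) ≤ N a * N b`, `N (-a) = N a`, `N 1 ≤ 1`.
Example: `Int.natAbs`.  If `N` is such a norm on `A`, then so is the sum of the norms of the
coefficients on `A[X]` (`pn N`).  The norm of a determinant of a matrix of size `D` with entries of
norm at most `B` is at most `D! * B ^ D` (`Matrix.det_apply`).
-/

namespace Pool.Agent.PLN

open Polynomial

/-- sub-multiplicative norms -/
structure IsN {A : Type} [CommRing A] (N : A → ℕ) : Prop where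
  zero : N 0 = 0
  add : ∀ a b, N (a + b) ≤ N a + N b
  mul : ∀ a b, N (a * b) ≤ N a * N b
  neg : ∀ a, N (-a) = N a
  one : N 1 ≤ 1

/-- sum of the norms of the coefficients -/
noncomputable def pn {A : Type} [CommRing A] (N : A → ℕ) (p : A[X]) : ℕ :=
  ∑ i ∈ p.support, N (p.coeff i)

theorem isN_int : IsN Int.natAbs where
  zero := rfl
  add := Int.natAbs_add_le
  mul := fun a b => (Int.natAbs_mul a b).le
  neg := Int.natAbs_neg
  one := le_refl _

variable {A : Type} [CommRing A] {N : A → ℕ}

theorem IsN.sum (hN : IsN N) {ι : Type} (s : Finset ι) (f : ι → A) :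
    N (∑ i ∈ s, f i) ≤ ∑ i ∈ s, N (f i) := by
  classical
  induction s using Finset.induction_on with
  | empty => simp [hN.zero]
  | insert a s ha ih =>
    rw [Finset.sum_insert ha, Finset.sum_insert ha]
    exact (hN.add _ _).trans (Nat.add_le_add_left ih _)

theorem IsN.prod (hN : IsN N) {ι : Type} (s : Finset ι) (f : ι → A) :
    N (∏ i ∈ s, f i) ≤ ∏ i ∈ s, N (f i) := by
  classical
  induction s using Finset.induction_on with
  | empty => simpa using hN.one
  | insert a s ha ih =>
    rw [Finset.prod_insert ha, Finset.prod_insert ha]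
    exact (hN.mul _ _).trans (Nat.mul_le_mul_left _ ih)

/-- any finite set containing the support may be used -/
theorem pn_eq_sum (hN : IsN N) (p : A[X]) {s : Finset ℕ} (h : p.support ⊆ s) :
    pn N p = ∑ i ∈ s, N (p.coeff i) := by
  unfold pn
  refine Finset.sum_subset h ?_
  intro i _ hi
  rw [Polynomial.notMem_support_iff.mp hi, hN.zero]

private theorem ba1_zero : pn N (0 : A[X]) = 0 := by
  simp [pn]

private theorem ba1_add (hN : IsN N) (p q : A[X]) : pn N (p + q) ≤ pn N p + pn N q := by
  classical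
  rw [pn_eq_sum hN (p + q) (s := p.support ∪ q.support) Polynomial.support_add,
    pn_eq_sum hN p (s := p.support ∪ q.support) Finset.subset_union_left,
    pn_eq_sum hN q (s := p.support ∪ q.support) Finset.subset_union_right,
    ← Finset.sum_add_distrib]
  refine Finset.sum_le_sum fun i _ => ?_
  rw [Polynomial.coeff_add]
  exact hN.add _ _

private theorem ba1_sum (hN : IsN N) {ι : Type} (s : Finset ι) (f : ι → A[X]) :
    pn N (∑ i ∈ s, f i) ≤ ∑ i ∈ s, pn N (f i) := by
  classical
  induction s using Finset.induction_on with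
  | empty => simp [ba1_zero]
  | insert a s ha ih =>
    rw [Finset.sum_insert ha, Finset.sum_insert ha]
    exact (ba1_add hN _ _).trans (Nat.add_le_add_left ih _)

private theorem ba1_monomial (hN : IsN N) (k : ℕ) (a : A) : pn N (monomial k a) = N a := by
  classical
  rw [pn_eq_sum hN _ (s := {k}) (Polynomial.support_monomial_subset k a), Finset.sum_singleton,
    Polynomial.coeff_monomial, if_pos rfl]

private theorem ba1_mul (hN : IsN N) (p q : A[X]) : pn N (p * q) ≤ pn N p * pn N q := by
  classical
  have h1 : p * q = ∑ i ∈ p.support, ∑ j ∈ q.support,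
      monomial (i + j) (p.coeff i * q.coeff j) := by
    conv_lhs => rw [p.as_sum_support, q.as_sum_support]
    rw [Finset.sum_mul_sum]
    refine Finset.sum_congr rfl fun i _ => Finset.sum_congr rfl fun j _ => ?_
    rw [Polynomial.monomial_mul_monomial]
  rw [h1]
  refine (ba1_sum hN _ _).trans ?_
  unfold pn
  rw [Finset.sum_mul_sum]
  refine Finset.sum_le_sum fun i _ => ?_
  refine (ba1_sum hN _ _).trans ?_
  refine Finset.sum_le_sum fun j _ => ?_
  rw [ba1_monomial hN]
  exact hN.mul _ _

theorem pn_C (hN : IsN N) (a : A) : pn N (C a) = N a := by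
  rw [← Polynomial.monomial_zero_left]
  exact ba1_monomial hN 0 a

theorem IsN.poly (hN : IsN N) : IsN (pn N) where
  zero := ba1_zero
  add := ba1_add hN
  mul := ba1_mul hN
  neg := by
    intro p
    unfold pn
    rw [Polynomial.support_neg]
    refine Finset.sum_congr rfl fun i _ => ?_
    rw [Polynomial.coeff_neg, hN.neg]
  one := by
    have h := pn_C hN 1
    rw [map_one] at h
    rw [h]
    exact hN.one

theorem pn_X (hN : IsN N) : pn N (X : A[X]) ≤ 1 := by
  rw [← Polynomial.monomial_one_one_eq_X, ba1_monomial hN]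
  exact hN.one

theorem pn_coeff (hN : IsN N) (p : A[X]) (i : ℕ) : N (p.coeff i) ≤ pn N p := by
  classical
  by_cases h : i ∈ p.support
  · exact Finset.single_le_sum (f := fun i => N (p.coeff i)) (fun _ _ => Nat.zero_le _) h
  · rw [Polynomial.notMem_support_iff.mp h, hN.zero]
    exact Nat.zero_le _

private theorem ba1_sign (hN : IsN N) {ι : Type} [Fintype ι] [DecidableEq ι]
    (σ : Equiv.Perm ι) (a : A) : N (Equiv.Perm.sign σ • a) = N a := by
  rcases Int.units_eq_one_or (Equiv.Perm.sign σ) with h | h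
  · rw [h, one_smul]
  · rw [h, Units.neg_smul, one_smul, hN.neg]

private theorem ba1_prod_pow (hN : IsN N) {ι : Type} [Fintype ι] (f : ι → A) {B : ℕ}
    (hB : ∀ i, N (f i) ≤ B) : N (∏ i, f i) ≤ B ^ Fintype.card ι := by
  refine (hN.prod _ _).trans ?_
  refine (Finset.prod_le_prod' fun i _ => hB i).trans ?_
  rw [Finset.prod_const, Finset.card_univ]

theorem IsN.det (hN : IsN N) {ι : Type} [Fintype ι] [DecidableEq ι] (M : Matrix ι ι A) {B : ℕ}
    (hB : ∀ i j, N (M i j) ≤ B) : N M.det ≤ (Fintype.card ι).factorial * B ^ Fintype.card ι := by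
  rw [Matrix.det_apply]
  refine (hN.sum _ _).trans ?_
  have h1 : ∀ σ ∈ (Finset.univ : Finset (Equiv.Perm ι)),
      N (Equiv.Perm.sign σ • ∏ i, M (σ i) i) ≤ B ^ Fintype.card ι := by
    intro σ _
    rw [ba1_sign hN]
    exact ba1_prod_pow hN _ (fun i => hB _ _)
  refine (Finset.sum_le_card_nsmul _ _ _ h1).trans ?_
  rw [Finset.card_univ, Fintype.card_perm, smul_eq_mul]

/-- the characteristic polynomial -/
theorem IsN.charpoly (hN : IsN N) {ι : Type} [Fintype ι] [DecidableEq ι] (M : Matrix ι ι A)
    {B : ℕ} (hB : ∀ i j, N (M i j) ≤ B) :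
    pn N M.charpoly ≤ (Fintype.card ι).factorial * (1 + B) ^ Fintype.card ι := by
  unfold Matrix.charpoly
  refine hN.poly.det _ ?_
  intro i j
  rw [Matrix.charmatrix_apply]
  by_cases h : i = j
  · subst h
    rw [Matrix.diagonal_apply_eq, sub_eq_add_neg]
    refine (hN.poly.add _ _).trans ?_
    rw [hN.poly.neg, pn_C hN]
    exact Nat.add_le_add (pn_X hN) (hB _ _)
  · rw [Matrix.diagonal_apply_ne _ h, zero_sub, hN.poly.neg, pn_C hN]
    exact (hB _ _).trans (Nat.le_add_left _ _)

end Pool.Agent.PLN
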