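import Pool.Agent.PLN.Ba1

/-!
# The top coefficient of a polynomial in two variables; Cauchy's bound

`χ = ∑_{i,k} c_{ik} ε^k T^i ≠ 0` with integer coefficients; let `K` be the largest `k` such that
some `c_{ik} ≠ 0`, and `a = ∑_i c_{iK} T^i ≠ 0`.  If `χ(ε_j, T_j) = 0`, `ε_j → ∞`, `T_j → r`, divide
by `ε_j^K`: `0 = ∑_i (∑_{k ≤ K} c_{ik} ε_j^{k-K}) T_j^i → a(r)`.
`root_bound`: let `d` be the degree of `a ≠ 0`; if `|r| > 1`, then
`|r|^d ≤ |a_d| |r|^d ≤ ∑_{i<d} |a_i| |r|^i ≤ pn a * |r|^{d-1}`; if `|r| ≤ 1`, use `1 ≤ pn a`.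
-/

namespace Pool.Agent.PLN

open Polynomial Filter

/-- value of a polynomial in `T` with coefficients in `ℤ[ε]` -/
noncomputable def ev2 (χ : ℤ[X][X]) (ε T : ℝ) : ℝ :=
  Polynomial.eval₂ (Polynomial.eval₂RingHom (Int.castRingHom ℝ) ε) T χ

private theorem ba2_lim (p : ℤ[X]) {K : ℕ} (h : p.natDegree ≤ K) :
    Tendsto (fun x : ℝ => p.eval₂ (Int.castRingHom ℝ) x / x ^ K) atTop
      (nhds ((p.coeff K : ℤ) : ℝ)) := by
  have h1 : ∀ x : ℝ, p.eval₂ (Int.castRingHom ℝ) x / x ^ K =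
      ∑ k ∈ Finset.range (K + 1), ((p.coeff k : ℤ) : ℝ) * (x ^ k / x ^ K) := by
    intro x
    rw [Polynomial.eval₂_eq_sum_range' (Int.castRingHom ℝ) (Nat.lt_succ_of_le h) x,
      Finset.sum_div]
    refine Finset.sum_congr rfl fun k _ => ?_
    rw [mul_div_assoc]
    rfl
  have h2 : Tendsto (fun x : ℝ => ∑ k ∈ Finset.range (K + 1),
      ((p.coeff k : ℤ) : ℝ) * (x ^ k / x ^ K)) atTop
      (nhds (∑ k ∈ Finset.range (K + 1), ((p.coeff k : ℤ) : ℝ) * (if k = K then 1 else 0))) := by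
    refine tendsto_finset_sum _ fun k hk => ?_
    refine Tendsto.const_mul _ ?_
    by_cases hkK : k = K
    · rw [if_pos hkK, hkK]
      refine tendsto_const_nhds.congr' ?_
      filter_upwards [eventually_gt_atTop 0] with x hx
      rw [div_self (pow_ne_zero _ hx.ne')]
    · rw [if_neg hkK]
      have := Finset.mem_range.mp hk
      exact tendsto_pow_div_pow_atTop_zero (by omega)
  have h3 : (∑ k ∈ Finset.range (K + 1), ((p.coeff k : ℤ) : ℝ) * (if k = K then 1 else 0)) =
      ((p.coeff K : ℤ) : ℝ) := by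
    rw [Finset.sum_eq_single K]
    · rw [if_pos rfl, mul_one]
    · intro b _ hb
      rw [if_neg hb, mul_zero]
    · intro hK
      exact absurd (Finset.mem_range.mpr (Nat.lt_succ_self K)) hK
  rw [h3] at h2
  exact h2.congr fun x => (h1 x).symm

theorem top_coeff (χ : ℤ[X][X]) (hχ : χ ≠ 0) : ∃ a : ℤ[X], a ≠ 0 ∧
    pn Int.natAbs a ≤ pn (pn Int.natAbs) χ ∧
    ∀ (ε T : ℕ → ℝ) (r : ℝ), Tendsto ε atTop atTop → Tendsto T atTop (nhds r) →
      (∀ j, ev2 χ (ε j) (T j) = 0) → aeval r a = 0 := by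
  classical
  have hne : χ.support.Nonempty := Polynomial.support_nonempty.mpr hχ
  obtain ⟨i₀, hi₀, hK⟩ := Finset.exists_max_image χ.support (fun i => (χ.coeff i).natDegree) hne
  set K := (χ.coeff i₀).natDegree with hKdef
  set a : ℤ[X] := ∑ i ∈ χ.support, monomial i ((χ.coeff i).coeff K) with ha
  have hac : ∀ i, a.coeff i = (χ.coeff i).coeff K := by
    intro i
    rw [ha, Polynomial.finset_sum_coeff]
    simp only [Polynomial.coeff_monomial]
    rw [Finset.sum_ite_eq' χ.support i (fun i => (χ.coeff i).coeff K)]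
    by_cases hi : i ∈ χ.support
    · rw [if_pos hi]
    · rw [if_neg hi, Polynomial.notMem_support_iff.mp hi, Polynomial.coeff_zero]
  have hsupp : a.support ⊆ χ.support := by
    intro i hi
    by_contra hn
    rw [Polynomial.mem_support_iff, hac, Polynomial.notMem_support_iff.mp hn,
      Polynomial.coeff_zero] at hi
    exact hi rfl
  refine ⟨a, ?_, ?_, ?_⟩
  · intro h0
    have h1 := hac i₀
    rw [h0, Polynomial.coeff_zero, hKdef, Polynomial.coeff_natDegree] at h1
    exact Polynomial.mem_support_iff.mp hi₀ (Polynomial.leadingCoeff_eq_zero.mp h1.symm)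
  · rw [pn_eq_sum isN_int a hsupp]
    unfold pn
    refine Finset.sum_le_sum fun i _ => ?_
    rw [hac]
    exact pn_coeff isN_int (χ.coeff i) K
  · intro ε T r hε hT h0
    have h1 : ∀ j, ev2 χ (ε j) (T j) / (ε j) ^ K =
        ∑ i ∈ χ.support, ((χ.coeff i).eval₂ (Int.castRingHom ℝ) (ε j) / (ε j) ^ K) * (T j) ^ i := by
      intro j
      rw [ev2, Polynomial.eval₂_eq_sum, Polynomial.sum, Finset.sum_div]
      refine Finset.sum_congr rfl fun i _ => ?_
      rw [Polynomial.coe_eval₂RingHom]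
      ring
    have h2 : Tendsto (fun j => ∑ i ∈ χ.support,
        ((χ.coeff i).eval₂ (Int.castRingHom ℝ) (ε j) / (ε j) ^ K) * (T j) ^ i) atTop
        (nhds (∑ i ∈ χ.support, (((χ.coeff i).coeff K : ℤ) : ℝ) * r ^ i)) := by
      refine tendsto_finset_sum _ fun i hi => ?_
      exact ((ba2_lim (χ.coeff i) (hK i hi)).comp hε).mul (hT.pow i)
    have h3 : ∀ j, (∑ i ∈ χ.support,
        ((χ.coeff i).eval₂ (Int.castRingHom ℝ) (ε j) / (ε j) ^ K) * (T j) ^ i) = 0 := by
      intro j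
      rw [← h1, h0, zero_div]
    have h4 : (∑ i ∈ χ.support, (((χ.coeff i).coeff K : ℤ) : ℝ) * r ^ i) = 0 := by
      refine tendsto_nhds_unique h2 ?_
      refine tendsto_const_nhds.congr fun j => (h3 j).symm
    rw [ha, map_sum, ← h4]
    refine Finset.sum_congr rfl fun i _ => ?_
    rw [Polynomial.aeval_monomial]
    rfl

theorem root_bound (a : ℤ[X]) (ha : a ≠ 0) (r : ℝ) (h : aeval r a = 0) :
    |r| ≤ pn Int.natAbs a := by
  have hlc : a.coeff a.natDegree ≠ 0 := by
    rw [Polynomial.coeff_natDegree]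
    exact Polynomial.leadingCoeff_ne_zero.mpr ha
  have hlc1 : 1 ≤ (a.coeff a.natDegree).natAbs := Int.natAbs_pos.mpr hlc
  have hN1 : 1 ≤ pn Int.natAbs a := hlc1.trans (pn_coeff isN_int a _)
  have hN1' : (1 : ℝ) ≤ (pn Int.natAbs a : ℝ) := by exact_mod_cast hN1
  by_cases hr : |r| ≤ 1
  · exact hr.trans hN1'
  · have hr : 1 < |r| := lt_of_not_ge hr
    rw [Polynomial.aeval_eq_sum_range] at h
    set d := a.natDegree with hd
    have hsub : a.support ⊆ Finset.range (d + 1) := Polynomial.supp_subset_range_natDegree_succ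
    have hpn : (pn Int.natAbs a : ℝ) = ∑ i ∈ Finset.range (d + 1), |((a.coeff i : ℤ) : ℝ)| := by
      rw [pn_eq_sum isN_int a hsub, Nat.cast_sum]
      refine Finset.sum_congr rfl fun i _ => ?_
      rw [Nat.cast_natAbs, Int.cast_abs]
    rw [Finset.sum_range_succ] at h
    have h1 : ((a.coeff d : ℤ) : ℝ) * r ^ d =
        - ∑ i ∈ Finset.range d, ((a.coeff i : ℤ) : ℝ) * r ^ i := by
      have h2 : (∑ i ∈ Finset.range d, a.coeff i • r ^ i) =
          ∑ i ∈ Finset.range d, ((a.coeff i : ℤ) : ℝ) * r ^ i :=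
        Finset.sum_congr rfl fun i _ => by rw [zsmul_eq_mul]
      rw [h2, zsmul_eq_mul] at h
      linarith
    have hlc2 : (1 : ℝ) ≤ |((a.coeff d : ℤ) : ℝ)| := by
      rw [← Int.cast_abs, ← Nat.cast_natAbs]
      exact_mod_cast hlc1
    rcases Nat.eq_zero_or_pos d with hd0 | hd0
    · rw [hd0] at h1 hlc2
      rw [Finset.range_zero, Finset.sum_empty, neg_zero, pow_zero, mul_one] at h1
      rw [h1, abs_zero] at hlc2
      norm_num at hlc2
    · have h2 : |r| ^ d ≤ (pn Int.natAbs a : ℝ) * |r| ^ (d - 1) := by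
        calc |r| ^ d ≤ |((a.coeff d : ℤ) : ℝ)| * |r| ^ d := by
              nlinarith [pow_pos (zero_lt_one.trans hr) d]
          _ = |((a.coeff d : ℤ) : ℝ) * r ^ d| := by rw [abs_mul, abs_pow]
          _ = |∑ i ∈ Finset.range d, ((a.coeff i : ℤ) : ℝ) * r ^ i| := by rw [h1, abs_neg]
          _ ≤ ∑ i ∈ Finset.range d, |((a.coeff i : ℤ) : ℝ) * r ^ i| :=
              Finset.abs_sum_le_sum_abs _ _
          _ ≤ ∑ i ∈ Finset.range d, |((a.coeff i : ℤ) : ℝ)| * |r| ^ (d - 1) := by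
              refine Finset.sum_le_sum fun i hi => ?_
              rw [abs_mul, abs_pow]
              refine mul_le_mul_of_nonneg_left ?_ (abs_nonneg _)
              have := Finset.mem_range.mp hi
              exact pow_le_pow_right₀ hr.le (by omega)
          _ = (∑ i ∈ Finset.range d, |((a.coeff i : ℤ) : ℝ)|) * |r| ^ (d - 1) := by
              rw [Finset.sum_mul]
          _ ≤ (pn Int.natAbs a : ℝ) * |r| ^ (d - 1) := by
              refine mul_le_mul_of_nonneg_right ?_ (by positivity)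
              rw [hpn, Finset.sum_range_succ]
              linarith [abs_nonneg ((a.coeff d : ℤ) : ℝ)]
      have h3 : |r| ^ d = |r| * |r| ^ (d - 1) := by
        rw [← pow_succ']
        congr 1
        omega
      rw [h3] at h2
      exact le_of_mul_le_mul_right h2 (pow_pos (zero_lt_one.trans hr) _)

end Pool.Agent.PLN
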