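import Pool.Agent.PLN.Ba2

/-!
# Reduction of monomials

`mn p`: sum of the absolute values of the coefficients of an integer polynomial.
Let `g i`, `i < n`, have total degree at most `3` and `mn (g i) ≤ L`, `1 ≤ L`.  For every exponent
`β` there are polynomials `c α ∈ ℤ[ε]`, `α ∈ {0..4}^n`, with `∑ pn (c α) ≤ L ^ |β|`, such that
`x^β = ∑_α c α (ε) x^α` for all real `(x, ε)` with `x i ^ 5 = ε * g i (x)`.
Strong induction on `|β| = ∑ β i`.  If all `β i ≤ 4`, `c` is the indicator of `β`.  Otherwise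
`β i ≥ 5`, and `x^β = x^{β - 5 e_i} ε g_i(x) = ∑_γ (g_i)_γ ε x^{β - 5 e_i + γ}`, where
`|β - 5 e_i + γ| ≤ |β| - 2`; so `c α = ∑_γ (g_i)_γ ε c^{(γ)} α` works:
`∑_α pn (c α) ≤ ∑_γ |(g_i)_γ| L^{|β|-2} ≤ L^{|β|-1} ≤ L^{|β|}`.
-/

namespace Pool.Agent.PLN

open Polynomial

/-- sum of the absolute values of the coefficients -/
noncomputable def mn {n : ℕ} (p : MvPolynomial (Fin n) ℤ) : ℕ :=
  ∑ d ∈ p.support, (p.coeff d).natAbs

private theorem ba3_pn_zero : pn Int.natAbs (0 : ℤ[X]) = 0 := isN_int.poly.zero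

private theorem ba3_base {n : ℕ} {L : ℕ} (hL : 1 ≤ L) (β : Fin n → ℕ) (h : ∀ i, β i < 5) :
    ∃ c : (Fin n → Fin 5) → ℤ[X], ∑ α, pn Int.natAbs (c α) ≤ L ^ ∑ i, β i ∧
      ∀ (x : Fin n → ℝ) (ε : ℝ),
        ∏ i, x i ^ β i = ∑ α, aeval ε (c α) * ∏ i, x i ^ (α i : ℕ) := by
  classical
  refine ⟨fun α => if α = (fun i => ⟨β i, h i⟩) then 1 else 0, ?_, ?_⟩
  · have e : ∀ α : Fin n → Fin 5,
        pn Int.natAbs (if α = (fun i => (⟨β i, h i⟩ : Fin 5)) then (1 : ℤ[X]) else 0) =
        if α = (fun i => (⟨β i, h i⟩ : Fin 5)) then pn Int.natAbs (1 : ℤ[X]) else 0 := by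
      intro α
      split_ifs
      · rfl
      · exact ba3_pn_zero
    rw [Finset.sum_congr rfl (fun α _ => e α), Finset.sum_ite_eq', if_pos (Finset.mem_univ _)]
    exact isN_int.poly.one.trans (Nat.one_le_pow _ _ hL)
  · intro x ε
    rw [Finset.sum_eq_single (fun i => (⟨β i, h i⟩ : Fin 5))]
    · beta_reduce
      rw [if_pos rfl, map_one, one_mul]
    · intro α _ hα
      beta_reduce
      rw [if_neg hα, map_zero, zero_mul]
    · intro hα
      exact absurd (Finset.mem_univ _) hα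

private theorem ba3_aeval {n : ℕ} (p : MvPolynomial (Fin n) ℤ) (x : Fin n → ℝ) :
    MvPolynomial.aeval x p = ∑ γ ∈ p.support, ((p.coeff γ : ℤ) : ℝ) * ∏ i, x i ^ γ i := by
  rw [MvPolynomial.aeval_def, MvPolynomial.eval₂_eq']
  rfl

private theorem ba3_deg {n : ℕ} {p : MvPolynomial (Fin n) ℤ} (hp : p.totalDegree ≤ 3)
    {γ : Fin n →₀ ℕ} (hγ : γ ∈ p.support) : ∑ j, γ j ≤ 3 := by
  have h := MvPolynomial.le_totalDegree hγ
  rw [Finsupp.sum_fintype _ _ (fun _ => rfl)] at h
  exact h.trans hp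

theorem reduce {n : ℕ} (g : Fin n → MvPolynomial (Fin n) ℤ) {L : ℕ} (hL : 1 ≤ L)
    (hd : ∀ i, (g i).totalDegree ≤ 3) (hg : ∀ i, mn (g i) ≤ L) : ∀ β : Fin n → ℕ,
    ∃ c : (Fin n → Fin 5) → ℤ[X], ∑ α, pn Int.natAbs (c α) ≤ L ^ ∑ i, β i ∧
      ∀ (x : Fin n → ℝ) (ε : ℝ), (∀ i, x i ^ 5 = ε * MvPolynomial.aeval x (g i)) →
        ∏ i, x i ^ β i = ∑ α, aeval ε (c α) * ∏ i, x i ^ (α i : ℕ) := by
  classical
  suffices H : ∀ N : ℕ, ∀ β : Fin n → ℕ, ∑ i, β i = N →
      ∃ c : (Fin n → Fin 5) → ℤ[X], ∑ α, pn Int.natAbs (c α) ≤ L ^ ∑ i, β i ∧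
      ∀ (x : Fin n → ℝ) (ε : ℝ), (∀ i, x i ^ 5 = ε * MvPolynomial.aeval x (g i)) →
        ∏ i, x i ^ β i = ∑ α, aeval ε (c α) * ∏ i, x i ^ (α i : ℕ) from
    fun β => H _ β rfl
  intro N
  induction N using Nat.strong_induction_on with
  | _ N IH =>
    intro β hβ
    by_cases hs : ∀ i, β i < 5
    · obtain ⟨c, h1, h2⟩ := ba3_base hL β hs
      exact ⟨c, h1, fun x ε _ => h2 x ε⟩
    · push Not at hs
      obtain ⟨i, hi⟩ := hs
      have hN5 : 5 ≤ N := by
        rw [← hβ]
        exact hi.trans (Finset.single_le_sum (f := β) (fun _ _ => Nat.zero_le _)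
          (Finset.mem_univ i))
      have hb' : ∑ j, Function.update β i (β i - 5) j + 5 = N := by
        rw [Finset.sum_update_of_mem (Finset.mem_univ i), ← hβ,
          ← Finset.add_sum_erase _ _ (Finset.mem_univ i), Finset.sdiff_singleton_eq_erase]
        omega
      have hsum : ∀ γ ∈ (g i).support,
          ∑ j, (Function.update β i (β i - 5) j + γ j) ≤ N - 2 := by
        intro γ hγ
        have h := ba3_deg (hd i) hγ
        rw [Finset.sum_add_distrib]
        omega
      have key : ∀ γ : (g i).support, ∃ c : (Fin n → Fin 5) → ℤ[X],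
          ∑ α, pn Int.natAbs (c α) ≤ L ^ (N - 2) ∧
          ∀ (x : Fin n → ℝ) (ε : ℝ), (∀ i, x i ^ 5 = ε * MvPolynomial.aeval x (g i)) →
            ∏ j, x j ^ (Function.update β i (β i - 5) j + (γ : Fin n →₀ ℕ) j) =
              ∑ α, aeval ε (c α) * ∏ i, x i ^ (α i : ℕ) := by
        intro γ
        have h1 := hsum γ γ.2
        obtain ⟨c, h2, h3⟩ := IH _ (by omega)
          (fun j => Function.update β i (β i - 5) j + (γ : Fin n →₀ ℕ) j) rfl
        exact ⟨c, h2.trans (Nat.pow_le_pow_right hL h1), h3⟩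
      choose c hc1 hc2 using key
      refine ⟨fun α => ∑ γ : (g i).support, C ((g i).coeff γ) * X * c γ α, ?_, ?_⟩
      · have hI := isN_int.poly
        have e1 : ∀ α, pn Int.natAbs (∑ γ : (g i).support, C ((g i).coeff γ) * X * c γ α) ≤
            ∑ γ : (g i).support, ((g i).coeff γ).natAbs * pn Int.natAbs (c γ α) := by
          intro α
          refine (hI.sum _ _).trans (Finset.sum_le_sum fun γ _ => ?_)
          refine (hI.mul _ _).trans (Nat.mul_le_mul_right _ ?_)
          refine (hI.mul _ _).trans ?_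
          rw [pn_C isN_int]
          have := pn_X isN_int
          calc _ ≤ ((g i).coeff γ).natAbs * 1 := Nat.mul_le_mul_left _ this
            _ = _ := mul_one _
        calc ∑ α, pn Int.natAbs (∑ γ : (g i).support, C ((g i).coeff γ) * X * c γ α)
            ≤ ∑ α, ∑ γ : (g i).support, ((g i).coeff γ).natAbs * pn Int.natAbs (c γ α) :=
              Finset.sum_le_sum fun α _ => e1 α
          _ = ∑ γ : (g i).support, ((g i).coeff γ).natAbs * ∑ α, pn Int.natAbs (c γ α) := by
              rw [Finset.sum_comm]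
              exact Finset.sum_congr rfl fun γ _ => (Finset.mul_sum _ _ _).symm
          _ ≤ ∑ γ : (g i).support, ((g i).coeff γ).natAbs * L ^ (N - 2) :=
              Finset.sum_le_sum fun γ _ => Nat.mul_le_mul_left _ (hc1 γ)
          _ = mn (g i) * L ^ (N - 2) := by
              rw [← Finset.sum_mul, mn,
                Finset.sum_coe_sort (g i).support (fun γ => ((g i).coeff γ).natAbs)]
          _ ≤ L * L ^ (N - 2) := Nat.mul_le_mul_right _ (hg i)
          _ = L ^ (N - 2 + 1) := (pow_succ' _ _).symm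
          _ ≤ L ^ ∑ i, β i := Nat.pow_le_pow_right hL (by omega)
      · intro x ε hx
        have e0 : ∏ j, x j ^ β j = x i ^ 5 * ∏ j, x j ^ (Function.update β i (β i - 5) j) := by
          rw [← Finset.mul_prod_erase _ _ (Finset.mem_univ i),
            ← Finset.mul_prod_erase _ (fun j => x j ^ (Function.update β i (β i - 5) j))
              (Finset.mem_univ i), Function.update_self, ← mul_assoc, ← pow_add,
            show 5 + (β i - 5) = β i by omega]
          congr 1
          refine Finset.prod_congr rfl fun j hj => ?_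
          rw [Function.update_of_ne (Finset.ne_of_mem_erase hj)]
        rw [e0, hx i, ba3_aeval,
          ← Finset.sum_coe_sort (g i).support
            (fun γ => (((g i).coeff γ : ℤ) : ℝ) * ∏ j, x j ^ γ j), Finset.mul_sum, Finset.sum_mul]
        have e2 : ∀ γ : (g i).support, ε * ((((g i).coeff γ : ℤ) : ℝ) *
            ∏ j, x j ^ (γ : Fin n →₀ ℕ) j) * ∏ j, x j ^ (Function.update β i (β i - 5) j) =
            ∑ α, (((g i).coeff γ : ℤ) : ℝ) * ε * aeval ε (c γ α) * ∏ i, x i ^ (α i : ℕ) := by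
          intro γ
          have h := hc2 γ x ε hx
          simp only [pow_add, Finset.prod_mul_distrib] at h
          calc _ = (((g i).coeff γ : ℤ) : ℝ) * ε * ((∏ j, x j ^ (Function.update β i (β i - 5) j)) *
                ∏ j, x j ^ (γ : Fin n →₀ ℕ) j) := by ring
            _ = _ := by
                rw [h, Finset.mul_sum]
                exact Finset.sum_congr rfl fun α _ => by ring
        rw [Finset.sum_congr rfl (fun γ _ => e2 γ), Finset.sum_comm]
        refine Finset.sum_congr rfl fun α _ => ?_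
        rw [map_sum, Finset.sum_mul]
        refine Finset.sum_congr rfl fun γ _ => ?_
        rw [map_mul, map_mul, aeval_C, aeval_X]
        rfl

end Pool.Agent.PLN
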