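import Pool.Agent.PLN.Ba3

/-!
# The eigenvalue

Let `ι = Fin n → Fin 5`.  For `α ∈ ι`: `(∑_i x_i^6) x^α = ∑_i x^{α + 6 e_i}`, and `reduce` (with
exponents of total degree at most `4 n + 6`) gives polynomials `M α β ∈ ℤ[ε]` of norm at most
`n L^(4n+6)` with `(∑_i x_i^6) x^α = ∑_β M α β (ε) x^β` for all `(x, ε)` satisfying the relations.
So for such `(x, ε)` the vector `(x^β)_β`, which is not zero (its entry for `β = 0` is `1`), is an
eigenvector of `M(ε)` for the eigenvalue `T = ∑ x_i^6`: `det (T - M(ε)) = 0`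
(`Matrix.exists_mulVec_eq_zero_iff`).  Let `χ = M.charpoly`, monic; `ev2 χ ε T = det (T - M(ε))`
(`Matrix.charpoly_map`, `Matrix.eval_charpoly`); `IsN.charpoly`.
-/

namespace Pool.Agent.PLN

open Polynomial

theorem chi_exists {n : ℕ} (g : Fin n → MvPolynomial (Fin n) ℤ) {L : ℕ} (hL : 1 ≤ L)
    (hd : ∀ i, (g i).totalDegree ≤ 3) (hg : ∀ i, mn (g i) ≤ L) :
    ∃ χ : ℤ[X][X], χ ≠ 0 ∧
      pn (pn Int.natAbs) χ ≤ (5 ^ n).factorial * (1 + n * L ^ (4 * n + 6)) ^ 5 ^ n ∧
      ∀ (x : Fin n → ℝ) (ε : ℝ), (∀ i, x i ^ 5 = ε * MvPolynomial.aeval x (g i)) →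
        ev2 χ ε (∑ i, x i ^ 6) = 0 := by
  classical
  have key : ∀ (α : Fin n → Fin 5) (i : Fin n), ∃ c : (Fin n → Fin 5) → ℤ[X],
      ∑ β, pn Int.natAbs (c β) ≤ L ^ (4 * n + 6) ∧
      ∀ (x : Fin n → ℝ) (ε : ℝ), (∀ i, x i ^ 5 = ε * MvPolynomial.aeval x (g i)) →
        x i ^ 6 * ∏ j, x j ^ (α j : ℕ) = ∑ β, aeval ε (c β) * ∏ j, x j ^ (β j : ℕ) := by
    intro α i
    obtain ⟨c, h1, h2⟩ := reduce g hL hd hg (fun j => (α j : ℕ) + if j = i then 6 else 0)
    refine ⟨c, h1.trans (Nat.pow_le_pow_right hL ?_), fun x ε hx => ?_⟩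
    · rw [Finset.sum_add_distrib, Finset.sum_ite_eq', if_pos (Finset.mem_univ i)]
      have h3 : ∑ j, (α j : ℕ) ≤ ∑ _j : Fin n, 4 :=
        Finset.sum_le_sum fun j _ => by have := (α j).2; omega
      rw [Finset.sum_const, Finset.card_univ, Fintype.card_fin, smul_eq_mul] at h3
      omega
    · rw [← h2 x ε hx]
      simp only [pow_add, Finset.prod_mul_distrib]
      have h3 : ∏ j, x j ^ (if j = i then 6 else 0) = x i ^ 6 := by
        rw [Finset.prod_eq_single i]
        · rw [if_pos rfl]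
        · intro j _ hj
          rw [if_neg hj, pow_zero]
        · intro h
          exact absurd (Finset.mem_univ i) h
      rw [h3, mul_comm]
  choose c hc1 hc2 using key
  have hI := isN_int.poly
  let M : Matrix (Fin n → Fin 5) (Fin n → Fin 5) ℤ[X] := fun α β => ∑ i, c α i β
  have hM : ∀ α β, pn Int.natAbs (M α β) ≤ n * L ^ (4 * n + 6) := by
    intro α β
    refine (hI.sum _ _).trans ?_
    calc ∑ i, pn Int.natAbs (c α i β) ≤ ∑ _i : Fin n, L ^ (4 * n + 6) :=
          Finset.sum_le_sum fun i _ =>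
            (Finset.single_le_sum (f := fun β => pn Int.natAbs (c α i β))
              (fun _ _ => Nat.zero_le _) (Finset.mem_univ β)).trans (hc1 α i)
      _ = n * L ^ (4 * n + 6) := by
          rw [Finset.sum_const, Finset.card_univ, Fintype.card_fin, smul_eq_mul]
  refine ⟨M.charpoly, M.charpoly_monic.ne_zero, ?_, ?_⟩
  · have h := hI.charpoly M hM
    have hcard : Fintype.card (Fin n → Fin 5) = 5 ^ n := by simp
    rw [hcard] at h
    exact h
  · intro x ε hx
    unfold ev2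
    rw [← Polynomial.eval_map, ← Matrix.charpoly_map, Matrix.eval_charpoly,
      ← Matrix.exists_mulVec_eq_zero_iff]
    refine ⟨fun β => ∏ j, x j ^ (β j : ℕ), ?_, ?_⟩
    · intro h
      have h0 := congrFun h (fun _ => 0)
      simp at h0
    · funext α
      rw [Matrix.sub_mulVec, Pi.sub_apply, Pi.zero_apply, sub_eq_zero]
      have e1 : (Matrix.scalar (Fin n → Fin 5) (∑ i, x i ^ 6)).mulVec
          (fun β => ∏ j, x j ^ (β j : ℕ)) α = (∑ i, x i ^ 6) * ∏ j, x j ^ (α j : ℕ) := by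
        rw [Matrix.scalar_apply, Matrix.mulVec_diagonal]
      rw [e1, Finset.sum_mul]
      have e2 : ((M.map (Polynomial.eval₂RingHom (Int.castRingHom ℝ) ε)).mulVec
          (fun β => ∏ j, x j ^ (β j : ℕ))) α =
          ∑ β, (∑ i, aeval ε (c α i β)) * ∏ j, x j ^ (β j : ℕ) := by
        rw [Matrix.mulVec, dotProduct]
        refine Finset.sum_congr rfl fun β _ => ?_
        rw [Matrix.map_apply]
        have e3 : (Polynomial.eval₂RingHom (Int.castRingHom ℝ) ε) (M α β) =
            ∑ i, aeval ε (c α i β) := by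
          change (Polynomial.eval₂RingHom (Int.castRingHom ℝ) ε) (∑ i, c α i β) = _
          rw [map_sum]
          rfl
        rw [e3]
      rw [e2]
      simp only [Finset.sum_mul]
      rw [Finset.sum_comm]
      exact Finset.sum_congr rfl fun i _ => hc2 α i x ε hx

end Pool.Agent.PLN
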