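import Pool.Agent.PLN.Ba3

/-!
# Critical points

`crit`: the function `t ↦ f(x + (t - x_i) e_i) + δ ∑_j …^6` of one variable is differentiable and
has a minimum at `t = x_i`; its derivative there is `∂_i f (x) + 6 δ x_i^5`
(`IsLocalMin.hasDerivAt_eq_zero`; the derivative of `t ↦ aeval (Function.update x i t) f` is
`aeval _ (pderiv i f)`: `MvPolynomial.induction_on`).
`pderiv_deg`, `pderiv_mn`: `∂_i` of a monomial `c x^d` is `c d_i x^{d - e_i}`, `d_i ≤ 4`.
-/

namespace Pool.Agent.PLN

variable {n : ℕ}

private theorem ba5_upd (x : Fin n → ℝ) (i j : Fin n) :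
    HasDerivAt (fun t => Function.update x i t j) (if j = i then 1 else 0) (x i) := by
  by_cases h : j = i
  · subst h
    simp only [Function.update_self, if_true]
    exact hasDerivAt_id' _
  · simp only [if_neg h, Function.update_of_ne h]
    exact hasDerivAt_const _ _

theorem hasDerivAt_aeval (f : MvPolynomial (Fin n) ℤ) (x : Fin n → ℝ) (i : Fin n) :
    HasDerivAt (fun t => MvPolynomial.aeval (Function.update x i t) f)
      (MvPolynomial.aeval x (MvPolynomial.pderiv i f)) (x i) := by
  induction f using MvPolynomial.induction_on with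
  | C a =>
    simp only [MvPolynomial.pderiv_C, map_zero]
    have : (fun t => MvPolynomial.aeval (Function.update x i t) (MvPolynomial.C a) : ℝ → ℝ) =
        fun _ => algebraMap ℤ ℝ a := by
      funext t
      simp
    rw [this]
    exact hasDerivAt_const _ _
  | add p q hp hq =>
    simp only [map_add]
    exact hp.add hq
  | mul_X p j hp =>
    have h1 : (fun t => MvPolynomial.aeval (Function.update x i t) (p * MvPolynomial.X j) : ℝ → ℝ) =
        fun t => MvPolynomial.aeval (Function.update x i t) p * Function.update x i t j := by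
      funext t
      simp
    rw [h1, Derivation.leibniz]
    have h2 := hp.mul (ba5_upd x i j)
    refine h2.congr_deriv ?_
    rw [Function.update_eq_self, MvPolynomial.pderiv_X]
    by_cases h : j = i
    · subst h
      simp
      ring
    · simp [h, Pi.single_apply]
      ring

theorem crit (f : MvPolynomial (Fin n) ℤ) (δ : ℝ) (x : Fin n → ℝ)
    (hx : ∀ y : Fin n → ℝ, MvPolynomial.aeval x f + δ * ∑ i, x i ^ 6 ≤
      MvPolynomial.aeval y f + δ * ∑ i, y i ^ 6) (i : Fin n) :
    MvPolynomial.aeval x (MvPolynomial.pderiv i f) + 6 * δ * x i ^ 5 = 0 := by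
  have h1 : HasDerivAt (fun t => ∑ j, (Function.update x i t j) ^ 6) (6 * x i ^ 5) (x i) := by
    have h2 : HasDerivAt (fun t => ∑ j, (Function.update x i t j) ^ 6)
        (∑ j, (6 * (Function.update x i (x i) j) ^ 5 * (if j = i then 1 else 0))) (x i) := by
      apply HasDerivAt.fun_sum
      intro j _
      have := (ba5_upd x i j).fun_pow 6
      refine this.congr_deriv ?_
      norm_num
    refine h2.congr_deriv ?_
    simp
  have h3 : HasDerivAt (fun t => MvPolynomial.aeval (Function.update x i t) f +
      δ * ∑ j, (Function.update x i t j) ^ 6)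
      (MvPolynomial.aeval x (MvPolynomial.pderiv i f) + δ * (6 * x i ^ 5)) (x i) :=
    (hasDerivAt_aeval f x i).add (h1.const_mul δ)
  have h4 : IsLocalMin (fun t => MvPolynomial.aeval (Function.update x i t) f +
      δ * ∑ j, (Function.update x i t j) ^ 6) (x i) := by
    apply Filter.Eventually.of_forall
    intro t
    simp only [Function.update_eq_self]
    exact hx _
  have h5 := h4.hasDerivAt_eq_zero h3
  linarith

private theorem ba5_mem (f : MvPolynomial (Fin n) ℤ) (i : Fin n) {m : Fin n →₀ ℕ}
    (hm : m ∈ (MvPolynomial.pderiv i f).support) : m + Finsupp.single i 1 ∈ f.support := by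
  rw [MvPolynomial.mem_support_iff, MvPolynomial.coeff_pderiv] at hm
  rw [MvPolynomial.mem_support_iff]
  exact left_ne_zero_of_mul hm

private theorem ba5_deg (f : MvPolynomial (Fin n) ℤ) (hf : f.totalDegree ≤ 4) (i : Fin n)
    {m : Fin n →₀ ℕ} (hm : m ∈ (MvPolynomial.pderiv i f).support) :
    (m.sum fun _ e => e) + 1 ≤ 4 := by
  have h1 := MvPolynomial.le_totalDegree (ba5_mem f i hm)
  rw [Finsupp.sum_add_index' (fun _ => rfl) (fun _ _ _ => rfl), Finsupp.sum_single_index rfl] at h1
  exact h1.trans hf

theorem pderiv_deg (f : MvPolynomial (Fin n) ℤ) (hf : f.totalDegree ≤ 4) (i : Fin n) :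
    (MvPolynomial.pderiv i f).totalDegree ≤ 3 := by
  apply Finset.sup_le
  intro m hm
  have h1 := ba5_deg f hf i hm
  omega

theorem pderiv_mn (f : MvPolynomial (Fin n) ℤ) (hf : f.totalDegree ≤ 4) (i : Fin n) :
    mn (MvPolynomial.pderiv i f) ≤ 4 * mn f := by
  classical
  unfold mn
  have h1 : ∑ d ∈ (MvPolynomial.pderiv i f).support, ((MvPolynomial.pderiv i f).coeff d).natAbs ≤
      ∑ d ∈ (MvPolynomial.pderiv i f).support,
        4 * (f.coeff (d + Finsupp.single i 1)).natAbs := by
    apply Finset.sum_le_sum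
    intro d hd
    have h2 := ba5_deg f hf i hd
    have h3 : d i ≤ d.sum fun _ e => e := by
      rw [Finsupp.sum_fintype _ _ (fun _ => rfl)]
      exact Finset.single_le_sum (f := fun j => d j) (fun _ _ => Nat.zero_le _) (Finset.mem_univ i)
    rw [MvPolynomial.coeff_pderiv, Int.natAbs_mul]
    have h4 : ((d i : ℤ) + 1).natAbs ≤ 4 := by omega
    calc _ ≤ (f.coeff (d + Finsupp.single i 1)).natAbs * 4 := Nat.mul_le_mul le_rfl h4
      _ = _ := mul_comm _ _
  refine h1.trans ?_
  rw [← Finset.mul_sum]
  refine Nat.mul_le_mul le_rfl ?_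
  have hinj : Set.InjOn (fun d : Fin n →₀ ℕ => d + Finsupp.single i 1)
      (MvPolynomial.pderiv i f).support := fun a _ b _ h => add_right_cancel h
  rw [← Finset.sum_image (f := fun d => (f.coeff d).natAbs) hinj]
  apply Finset.sum_le_sum_of_subset
  intro d hd
  rw [Finset.mem_image] at hd
  obtain ⟨m, hm, rfl⟩ := hd
  exact ba5_mem f i hm

theorem mn_neg (f : MvPolynomial (Fin n) ℤ) : mn (-f) = mn f := by
  unfold mn
  rw [MvPolynomial.support_neg]
  apply Finset.sum_congr rfl
  intro d _
  rw [MvPolynomial.coeff_neg, Int.natAbs_neg]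

private theorem ba5_norm (y : Fin n → ℝ) : ‖y‖ ^ 6 ≤ ∑ i, y i ^ 6 := by
  rcases isEmpty_or_nonempty (Fin n) with h | h
  · have : y = 0 := Subsingleton.elim _ _
    subst this
    simp
  · obtain ⟨i, hi⟩ := Finite.exists_max (fun j => |y j|)
    have h1 : ‖y‖ ≤ |y i| := by
      rw [pi_norm_le_iff_of_nonneg (abs_nonneg _)]
      exact hi
    have h2 : ‖y‖ ^ 6 ≤ |y i| ^ 6 := pow_le_pow_left₀ (norm_nonneg _) h1 6
    have h3 : |y i| ^ 6 = y i ^ 6 := by
      rw [← abs_pow, abs_of_nonneg (by positivity)]
    rw [h3] at h2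
    refine h2.trans ?_
    exact Finset.single_le_sum (f := fun j => y j ^ 6) (fun j _ => by positivity)
      (Finset.mem_univ i)

private theorem ba5_cont (f : MvPolynomial (Fin n) ℤ) :
    Continuous fun x : Fin n → ℝ => MvPolynomial.aeval x f := by
  induction f using MvPolynomial.induction_on with
  | C a =>
    simp only [MvPolynomial.aeval_C]
    exact continuous_const
  | add p q hp hq =>
    simp only [map_add]
    exact hp.add hq
  | mul_X p j hp =>
    simp only [map_mul, MvPolynomial.aeval_X]
    exact hp.mul (continuous_apply j)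

/-- existence of a minimiser: the function is continuous and tends to infinity -/
theorem exists_min (f : MvPolynomial (Fin n) ℤ)
    (hf : ∀ x : Fin n → ℝ, 0 ≤ MvPolynomial.aeval x f) {δ : ℝ} (hδ : 0 < δ) :
    ∃ x : Fin n → ℝ, ∀ y : Fin n → ℝ, MvPolynomial.aeval x f + δ * ∑ i, x i ^ 6 ≤
      MvPolynomial.aeval y f + δ * ∑ i, y i ^ 6 := by
  have hc : Continuous fun y : Fin n → ℝ => MvPolynomial.aeval y f + δ * ∑ i, y i ^ 6 := by
    refine (ba5_cont f).add (continuous_const.mul ?_)
    exact continuous_finsetSum _ fun i _ => (continuous_apply i).pow 6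
  apply hc.exists_forall_le
  have h1 : Filter.Tendsto (fun y : Fin n → ℝ => δ * ‖y‖ ^ 6) (Filter.cocompact _) Filter.atTop := by
    apply Filter.Tendsto.const_mul_atTop hδ
    exact (Filter.tendsto_pow_atTop (by norm_num)).comp (tendsto_norm_cocompact_atTop)
  refine Filter.tendsto_atTop_mono ?_ h1
  intro y
  have h2 := hf y
  have h3 := mul_le_mul_of_nonneg_left (ba5_norm y) hδ.le
  linarith

end Pool.Agent.PLN
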