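import Pool.Agent.PLN.Ba4
import Pool.Agent.PLN.Ba5

/-!
# Small real zeros

Let `z` be a zero of `f`.  For `δ_j = 1/(6 (j+1))` take a minimiser `x_j` (`exists_min`) of
`f + δ_j ∑ x_i^6`.  Comparing with `z`: `f(x_j) + δ_j P(x_j) ≤ δ_j P(z)`, where `P = ∑ x_i^6`; so
`P(x_j) ≤ P(z)` and `f(x_j) ≤ δ_j P(z) → 0`.  A subsequence of the bounded sequence `x_j` converges
to `x` (`tendsto_subseq_of_bounded`), `f(x) = 0` (continuity, `0 ≤ f`), and `P(x_j) → P(x)` along
it.  By `crit`, `x_{j,i}^5 = ε_j g_i(x_j)` with `ε_j = 1/(6 δ_j) = j + 1 → ∞`, `g_i = - ∂_i f`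
(`pderiv_deg`, `pderiv_mn`, `mn_neg`).  `chi_exists` and `top_coeff` give `a ≠ 0` with
`a(P(x)) = 0`; `root_bound`.
-/

namespace Pool.Agent.PLN

open Filter

private theorem ba6_cont {n : ℕ} (f : MvPolynomial (Fin n) ℤ) :
    Continuous fun x : Fin n → ℝ => MvPolynomial.aeval x f := by
  induction f using MvPolynomial.induction_on with
  | C a =>
    simp only [MvPolynomial.aeval_C]
    exact continuous_const
  | add p q hp hq =>
    simp only [map_add]
    exact hp.add hq
  | mul_X p j hp =>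
    simp only [map_mul, MvPolynomial.aeval_X]
    exact hp.mul (continuous_apply j)

theorem small_zero {n : ℕ} (f : MvPolynomial (Fin n) ℤ) (hd : f.totalDegree ≤ 4)
    (hf : ∀ x : Fin n → ℝ, 0 ≤ MvPolynomial.aeval x f) {L : ℕ} (hL : 1 ≤ L)
    (hfL : 4 * mn f ≤ L) (hz : ∃ z : Fin n → ℝ, MvPolynomial.aeval z f = 0) :
    ∃ x : Fin n → ℝ, MvPolynomial.aeval x f = 0 ∧
      ∑ i, x i ^ 6 ≤ (((5 ^ n).factorial * (1 + n * L ^ (4 * n + 6)) ^ 5 ^ n : ℕ) : ℝ) := by
  obtain ⟨z, hz⟩ := hz
  set P : (Fin n → ℝ) → ℝ := fun x => ∑ i, x i ^ 6 with hP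
  have hPc : Continuous P := continuous_finsetSum _ fun i _ => (continuous_apply i).pow 6
  have hP0 : ∀ x, 0 ≤ P x := fun x => Finset.sum_nonneg fun i _ => by positivity
  set δ : ℕ → ℝ := fun j => 1 / (6 * ((j : ℝ) + 1)) with hδ
  have hδ0 : ∀ j, 0 < δ j := fun j => by positivity
  choose y hy using fun j => exists_min f hf (hδ0 j)
  have hcmp : ∀ j, MvPolynomial.aeval (y j) f + δ j * P (y j) ≤ δ j * P z := by
    intro j
    have := hy j z
    rw [hz, zero_add] at this
    exact this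
  have hPy : ∀ j, P (y j) ≤ P z := by
    intro j
    have h1 := hcmp j
    have h2 := hf (y j)
    have h3 : δ j * P (y j) ≤ δ j * P z := by linarith
    exact le_of_mul_le_mul_left h3 (hδ0 j)
  have hbdd : Bornology.IsBounded (Set.range y) := by
    rw [isBounded_iff_forall_norm_le]
    refine ⟨P z + 1, ?_⟩
    rintro _ ⟨j, rfl⟩
    rw [pi_norm_le_iff_of_nonneg (by have := hP0 z; linarith)]
    intro i
    have h1 : (y j i) ^ 6 ≤ P (y j) :=
      Finset.single_le_sum (f := fun k => (y j k) ^ 6) (fun k _ => by positivity)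
        (Finset.mem_univ i)
    have h2 : |y j i| ^ 6 ≤ P z := by
      have : |y j i| ^ 6 = (y j i) ^ 6 := by
        rw [← abs_pow, abs_of_nonneg (by positivity)]
      rw [this]
      exact h1.trans (hPy j)
    rw [Real.norm_eq_abs]
    rcases le_total |y j i| 1 with h3 | h3
    · have := hP0 z
      linarith
    · have h4 : |y j i| ≤ |y j i| ^ 6 := le_self_pow₀ h3 (by norm_num)
      linarith
  obtain ⟨x, -, φ, hφ, hlim⟩ := tendsto_subseq_of_bounded hbdd (fun j => Set.mem_range_self j)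
  have hδlim : Tendsto (fun j => δ (φ j)) atTop (nhds 0) := by
    have h1 : Tendsto δ atTop (nhds 0) := by
      have h2 := tendsto_one_div_add_atTop_nhds_zero_nat (𝕜 := ℝ)
      have h3 := h2.const_mul (1 / 6)
      rw [mul_zero] at h3
      refine h3.congr ?_
      intro j
      rw [hδ]
      field_simp
    exact h1.comp hφ.tendsto_atTop
  have hfx : MvPolynomial.aeval x f = 0 := by
    have h1 : Tendsto (fun j => MvPolynomial.aeval (y (φ j)) f) atTop
        (nhds (MvPolynomial.aeval x f)) :=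
      ((ba6_cont f).tendsto x).comp hlim
    have h2 : Tendsto (fun j => MvPolynomial.aeval (y (φ j)) f) atTop (nhds 0) := by
      have h3 : Tendsto (fun j => δ (φ j) * P z) atTop (nhds 0) := by
        have := hδlim.mul_const (P z)
        rwa [zero_mul] at this
      refine squeeze_zero (fun j => hf _) (fun j => ?_) h3
      have h4 := hcmp (φ j)
      have h5 := mul_nonneg (hδ0 (φ j)).le (hP0 (y (φ j)))
      linarith
    exact tendsto_nhds_unique h1 h2
  have hPx : Tendsto (fun j => P (y (φ j))) atTop (nhds (P x)) := (hPc.tendsto x).comp hlim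
  obtain ⟨χ, hχ, hχb, hχe⟩ := chi_exists (fun i => -MvPolynomial.pderiv i f) hL
    (fun i => by rw [MvPolynomial.totalDegree_neg]; exact pderiv_deg f hd i)
    (fun i => by rw [mn_neg]; exact (pderiv_mn f hd i).trans hfL)
  obtain ⟨a, ha, hab, hae⟩ := top_coeff χ hχ
  have hε : Tendsto (fun j => ((φ j : ℕ) : ℝ) + 1) atTop atTop :=
    tendsto_atTop_add_const_right _ _ (tendsto_natCast_atTop_atTop.comp hφ.tendsto_atTop)
  have hroot := hae (fun j => ((φ j : ℕ) : ℝ) + 1) (fun j => P (y (φ j))) (P x) hε hPx (by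
    intro j
    apply hχe
    intro i
    have h1 := crit f (δ (φ j)) (y (φ j)) (hy (φ j)) i
    have h2 : 6 * δ (φ j) = 1 / (((φ j : ℕ) : ℝ) + 1) := by
      simp only [hδ]
      field_simp
    rw [h2] at h1
    rw [map_neg]
    have h3 : ((φ j : ℕ) : ℝ) + 1 ≠ 0 := by positivity
    field_simp at h1
    linarith)
  refine ⟨x, hfx, ?_⟩
  have h1 := root_bound a ha (P x) hroot
  have h2 : P x ≤ (pn Int.natAbs a : ℝ) := (le_abs_self _).trans h1
  refine h2.trans ?_
  exact_mod_cast hab.trans hχb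

end Pool.Agent.PLN
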