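import Mathlib

/-!
# A numerical inequality

With `s = n + r + 20`: `5 ^ n ≤ 2 ^ (3 n)`, `D! ≤ D ^ D`, `36 r + 1 ≤ 2 ^ (r + 6)`, `n ≤ 2 ^ n`,
`1 + y ≤ 2 y` for `y ≥ 1`; so with `D = 5 ^ n` the left side is at most
`(2 ^ (3 n) * 2 ^ (1 + n + (r + 6)(4 n + 6))) ^ D ≤ 2 ^ (y * 2 ^ (3 n))`,
`y = 4 n + 1 + (r + 6)(4 n + 6)`, and `y * 2 ^ (3 n) ≤ 2 ^ (y + 3 n) ≤ 2 ^ (20 s²)`.
(For `n = 0` the left side is `1`.)
-/

namespace Pool.Agent.PLN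

private theorem ba7_five (n : ℕ) : 5 ^ n ≤ 2 ^ (3 * n) := by
  rw [pow_mul]
  exact Nat.pow_le_pow_left (by norm_num) n

private theorem ba7_r (r : ℕ) : 36 * r + 1 ≤ 2 ^ (r + 6) := by
  induction r with
  | zero => norm_num
  | succ r ih =>
    have h1 : 2 ^ (r + 1 + 6) = 2 * 2 ^ (r + 6) := by
      rw [show r + 1 + 6 = (r + 6) + 1 by ring, pow_succ]; ring
    have h2 : 36 ≤ 2 ^ (r + 6) := by
      calc 36 ≤ 2 ^ 6 := by norm_num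
        _ ≤ 2 ^ (r + 6) := Nat.pow_le_pow_right (by norm_num) (by omega)
    rw [h1]; omega

private theorem ba7_inner (n r : ℕ) :
    1 + n * (36 * r + 1) ^ (4 * n + 6) ≤ 2 ^ (1 + n + (r + 6) * (4 * n + 6)) := by
  have h1 : (36 * r + 1) ^ (4 * n + 6) ≤ 2 ^ ((r + 6) * (4 * n + 6)) := by
    rw [pow_mul]
    exact Nat.pow_le_pow_left (ba7_r r) _
  have h2 : n ≤ 2 ^ n := (Nat.lt_pow_self (by norm_num : 1 < 2)).le
  have h3 : n * (36 * r + 1) ^ (4 * n + 6) ≤ 2 ^ (n + (r + 6) * (4 * n + 6)) := by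
    rw [pow_add 2 n ((r + 6) * (4 * n + 6))]
    exact Nat.mul_le_mul h2 h1
  have h4 : 1 ≤ 2 ^ (n + (r + 6) * (4 * n + 6)) := Nat.one_le_two_pow
  have h5 : 2 ^ (1 + n + (r + 6) * (4 * n + 6)) = 2 * 2 ^ (n + (r + 6) * (4 * n + 6)) := by
    rw [show 1 + n + (r + 6) * (4 * n + 6) = (n + (r + 6) * (4 * n + 6)) + 1 by ring, pow_succ]
    ring
  rw [h5]; omega

private theorem ba7_exp (n r : ℕ) :
    (4 * n + 1 + (r + 6) * (4 * n + 6)) + 3 * n ≤ 20 * ((n + r + 20) * (n + r + 20)) := by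
  have h1 : 0 ≤ n * n := Nat.zero_le _
  have h2 : 0 ≤ r * r := Nat.zero_le _
  have h3 : 0 ≤ n * r := Nat.zero_le _
  nlinarith

theorem num_bound (n r : ℕ) :
    (5 ^ n).factorial * (1 + n * (36 * r + 1) ^ (4 * n + 6)) ^ 5 ^ n ≤
      2 ^ 2 ^ (20 * ((n + r + 20) * (n + r + 20))) := by
  have h1 : (5 ^ n).factorial ≤ (2 ^ (3 * n)) ^ 5 ^ n :=
    (Nat.factorial_le_pow _).trans (Nat.pow_le_pow_left (ba7_five n) _)
  have h2 : (1 + n * (36 * r + 1) ^ (4 * n + 6)) ^ 5 ^ n ≤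
      (2 ^ (1 + n + (r + 6) * (4 * n + 6))) ^ 5 ^ n :=
    Nat.pow_le_pow_left (ba7_inner n r) _
  have h3 : (5 ^ n).factorial * (1 + n * (36 * r + 1) ^ (4 * n + 6)) ^ 5 ^ n ≤
      2 ^ ((4 * n + 1 + (r + 6) * (4 * n + 6)) * 5 ^ n) := by
    refine (Nat.mul_le_mul h1 h2).trans (le_of_eq ?_)
    rw [← mul_pow, ← pow_add, ← pow_mul]
    congr 2
    ring
  refine h3.trans (Nat.pow_le_pow_right (by norm_num) ?_)
  set y := 4 * n + 1 + (r + 6) * (4 * n + 6) with hy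
  have h4 : y ≤ 2 ^ y := (Nat.lt_pow_self (by norm_num : 1 < 2)).le
  calc y * 5 ^ n ≤ 2 ^ y * 2 ^ (3 * n) := Nat.mul_le_mul h4 (ba7_five n)
    _ = 2 ^ (y + 3 * n) := (pow_add _ _ _).symm
    _ ≤ 2 ^ (20 * ((n + r + 20) * (n + r + 20))) :=
        Nat.pow_le_pow_right (by norm_num) (ba7_exp n r)

end Pool.Agent.PLN
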