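import Pool.Agent.PLN.Uvd
import Pool.Agent.helper88.SurjDefs

/-!
# Straight-line systems and real systems

`SL`: straight-line systems (`x = 1`, `x + y = z`, `x y = z`).
`L2`: systems of constraints `x + y + z = 0` and `y = x²`.
`RS`: systems of constraints `x + y + z = 0` and `(1 + x)(2 + y) = 2`.
-/

namespace Pool.Agent.PLN

/-! ### straight-line systems -/

/-- constraints of straight-line systems: `(false, _, i, _, _)` is `x_i = 1`,
`(true, false, i, j, k)` is `x_i + x_j = x_k`, `(true, true, i, j, k)` is `x_i x_j = x_k` -/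
abbrev SC : Type := Bool × Bool × ℕ × ℕ × ℕ

/-- truth of a constraint -/
def SC.holds (v : ℕ → ℝ) : SC → Prop
  | (false, _, i, _, _) => v i = 1
  | (true, false, i, j, k) => v i + v j = v k
  | (true, true, i, j, k) => v i * v j = v k

/-- straight-line systems: number of variables, constraints -/
structure SL where
  n : ℕ
  cs : List SC

/-- all variables are smaller than `n` -/
def SL.Ok (S : SL) : Prop := 2 ≤ S.n ∧ ∀ c ∈ S.cs, c.2.2.1 < S.n ∧ c.2.2.2.1 < S.n ∧
  c.2.2.2.2 < S.n

/-- solutions -/
def SL.Sol (S : SL) (v : ℕ → ℝ) : Prop := ∀ c ∈ S.cs, c.holds v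

/-- exponent of the bound of the solutions: if `S` has a solution, then it has one with all
coordinates at most `2 ^ 2 ^ qq` in absolute value -/
def SL.qq (S : SL) : ℕ := 20 * ((S.n + S.cs.length + 20) * (S.n + S.cs.length + 20))

/-! ### quadratic systems -/

/-- `(true, i, j, k)` is `x_i + x_j + x_k = 0`; `(false, i, j, _)` is `x_j = x_i²` -/
abbrev LC : Type := Bool × ℕ × ℕ × ℕ

/-- truth of a constraint -/
def LC.holds2 (x : ℕ → ℝ) : LC → Prop
  | (true, i, j, k) => x i + x j + x k = 0
  | (false, i, j, _) => x j = x i ^ 2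

/-- truth of a constraint; `(false, i, j, _)` is now `(1 + x_i)(2 + x_j) = 2` -/
def LC.holdsR (x : ℕ → ℝ) : LC → Prop
  | (true, i, j, k) => x i + x j + x k = 0
  | (false, i, j, _) => (1 + x i) * (2 + x j) = 2

/-- systems: number of variables, constraints -/
structure LS where
  n : ℕ
  cs : List LC

/-- all variables are smaller than `n` -/
def LS.Ok (S : LS) : Prop := 1 ≤ S.n ∧ ∀ c ∈ S.cs, c.2.1 < S.n ∧ c.2.2.1 < S.n ∧ c.2.2.2 < S.n

/-- solutions, for the reading with squares -/
def LS.Sol2 (S : LS) (x : ℕ → ℝ) : Prop := ∀ c ∈ S.cs, c.holds2 x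

/-- solutions, for the reading with `(1 + x)(2 + y) = 2` -/
def LS.SolR (S : LS) (x : ℕ → ℝ) : Prop := ∀ c ∈ S.cs, c.holdsR x

/-! ### from straight-line systems to quadratic systems

Variables: `t_l = l` for `l ≤ K` (`t_{l+1} = t_l²`), the homogenising variable is `s = t_K`; then
`K + 1` (zero), `K + 2 + i` (`X_i = s x_i`), `K + 2 + n` (`- s`), and `11` auxiliary variables for
every constraint. -/

/-- constraints for the constraint number `l` -/
def l2c (K n : ℕ) (c : SC) (l : ℕ) : List LC :=
  let X := fun i => K + 2 + i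
  let z := K + 1
  let f := fun a => K + 3 + n + 11 * l + a
  if c.1 then
    if c.2.1 then
      [(true, X c.2.2.1, X c.2.2.2.1, f 0), (false, f 0, f 1, 0), (false, X c.2.2.1, f 2, 0),
        (false, X c.2.2.2.1, f 3, 0), (true, K, X c.2.2.2.2, f 4), (false, f 4, f 5, 0),
        (false, K, f 6, 0), (false, X c.2.2.2.2, f 7, 0), (true, f 2, f 3, f 8),
        (true, f 1, f 8, f 9), (true, f 6, f 7, f 10), (true, f 5, f 10, f 9)]
    else [(true, X c.2.2.2.2, f 0, z), (true, X c.2.2.1, X c.2.2.2.1, f 0)]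
  else [(true, X c.2.2.1, K + 2 + n, z)]

/-- the quadratic system of a straight-line system -/
def SL.toL2 (S : SL) (K : ℕ) : LS where
  n := K + 3 + S.n + 11 * S.cs.length
  cs := [(true, K + 1, K + 1, K + 1), (true, K, K + 2 + S.n, K + 1)] ++
    ((List.range K).map fun l => ((false, l, l + 1, 0) : LC)) ++
    S.cs.zipIdx.flatMap fun c => l2c K S.n c.1 c.2

/-! ### from squares to inversions -/

/-- constraints for the constraint number `l`; `n` is the variable for zero -/
def rsc (n : ℕ) (c : LC) (l : ℕ) : List LC :=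
  let f := fun a => n + 1 + 6 * l + a
  if c.1 then [c]
  else [(true, c.2.1, f 0, n), (false, c.2.1, f 1, 0), (false, f 0, f 2, 0),
    (true, c.2.2.1, f 3, n), (false, f 3, f 4, 0), (true, f 4, f 4, f 5), (true, f 1, f 2, f 5)]

/-- the system with inversions of a quadratic system -/
def LS.toRS (S : LS) : LS where
  n := S.n + 1 + 6 * S.cs.length
  cs := (true, S.n, S.n, S.n) :: S.cs.zipIdx.flatMap fun c => rsc S.n c.1 c.2

/-! ### from inversions to unit complex numbers

Signal `0` is the constant `1`; variable `i` has the signals `w = 1 + 5 i`, `α = 2 + 5 i`,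
`β = 3 + 5 i`, `w₁ = 4 + 5 i`, `w₂ = 5 + 5 i`; the constraint number `l` has four signals
`1 + 5 n + 4 l + a`. -/

/-- two blocks for every variable -/
def blkV (i : ℕ) : List (List (ℕ × ℕ × ℕ × ℕ)) :=
  let w := 1 + 5 * i
  let α := 2 + 5 * i
  let β := 3 + 5 * i
  let w₁ := 4 + 5 * i
  let w₂ := 5 + 5 * i
  [[(α, w₁, 0, w₁), (0, w₁, w, w₁), (w, w₁, 0, 0), (0, 0, 0, 0), (0, 0, 0, 0), (0, 0, 0, 0)],
   [(0, w₂, 0, w₂), (w, w₂, w, w₂), (0, 0, β, w₂), (0, 0, 0, 0), (0, 0, 0, 0), (0, 0, 0, 0)]]

/-- blocks for the constraint number `l` -/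
def blkC (n : ℕ) (c : LC) (l : ℕ) : List (List (ℕ × ℕ × ℕ × ℕ)) :=
  let w := fun i => 1 + 5 * i
  let α := fun i => 2 + 5 * i
  let β := fun i => 3 + 5 * i
  let e := fun a => 1 + 5 * n + 4 * l + a
  let i := c.2.1
  let j := c.2.2.1
  let k := c.2.2.2
  if c.1 then
    [[(α i, 0, β i, 0), (w i, 0, w i, 0), (α j, 0, β j, 0), (w j, 0, w j, 0), (α k, 0, β k, 0),
      (w k, 0, w k, 0)]]
  else
    [[(α i, 0, β i, 0), (w i, e 2, w i, 0), (e 0, e 2, e 2, 0), (0, 0, 0, 0), (0, 0, 0, 0),
      (0, 0, 0, 0)],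
     [(α i, 0, β i, 0), (w i, e 3, w i, 0), (0, 0, e 3, 0), (0, 0, e 3, e 1), (0, 0, 0, 0),
      (0, 0, 0, 0)],
     [(α i, 0, 0, e 1), (w i, α j, β i, β j), (e 0, w j, w i, w j), (0, 0, 0, 0), (0, 0, 0, 0),
      (0, 0, 0, 0)]]

/-- all blocks -/
def LS.blks (R : LS) : List (List (ℕ × ℕ × ℕ × ℕ)) :=
  (List.range R.n).flatMap blkV ++ R.cs.zipIdx.flatMap fun c => blkC R.n c.1 c.2

/-- the system of linear equations between unit complex numbers -/
def LS.toUV (R : LS) : UV where
  m := 1 + 5 * R.n + 4 * R.cs.length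
  q := R.blks.flatten

/-- the equation of a block -/
noncomputable def blkEq (s : ℕ → ℂ) (b : List (ℕ × ℕ × ℕ × ℕ)) : ℂ :=
  (b.map fun t => s t.1 - s t.2.1).sum + rho * (b.map fun t => s t.2.2.2 - s t.2.2.1).sum

/-! ### from polynomials to straight-line systems

Instructions `(tag, arg)` of a machine with the registers `A` and `S`:
`0`: `A := 0`; `1`: `A := 2 A`; `2`: `A := 2 A + 1`; `3`: `A := - A`; `4`: `A := A x_arg`;
`5`: `S := S + A`; `6`: check `S = 0`. -/

/-- instructions -/
abbrev Ins : Type := ℕ × ℕ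

/-- the machine: `A`, `S`, and whether all checks were successful -/
def run (x : ℕ → ℝ) : List Ins → ℝ × ℝ → Prop
  | [], _ => True
  | (0, _) :: l, (_, S) => run x l (0, S)
  | (1, _) :: l, (A, S) => run x l (2 * A, S)
  | (2, _) :: l, (A, S) => run x l (2 * A + 1, S)
  | (3, _) :: l, (A, S) => run x l (- A, S)
  | (4, i) :: l, (A, S) => run x l (A * x i, S)
  | (5, _) :: l, (A, S) => run x l (A, S + A)
  | (_ + 6, _) :: l, (A, S) => S = 0 ∧ run x l (A, 0)

/-- instructions for a monomial: sign, binary digits (least significant first), variables -/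
def insM (m : (Bool × List Bool) × List ℕ) : List Ins :=
  [(0, 0)] ++ (m.1.2.reverse.map fun b => ((if b then 2 else 1, 0) : Ins)) ++
    (if m.1.1 then [((3, 0) : Ins)] else []) ++ (m.2.map fun i => ((4, i) : Ins)) ++ [(5, 0)]

/-- instructions for a polynomial -/
def insP (p : List ((Bool × List Bool) × List ℕ)) : List Ins := p.flatMap insM ++ [(6, 0)]

/-- constraints for the instruction number `t`; `b` is the first register -/
def insC (b : ℕ) (c : Ins) (t : ℕ) : List SC :=
  let A := b + 4 * t
  let S := b + 4 * t + 1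
  let D := b + 4 * t + 2
  let A' := b + 4 * (t + 1)
  let S' := b + 4 * (t + 1) + 1
  if c.1 = 0 then [(true, false, A', 1, 1), (true, false, S, 1, S')]
  else if c.1 = 1 then [(true, false, A, A, A'), (true, false, S, 1, S')]
  else if c.1 = 2 then [(true, false, A, A, D), (true, false, D, 0, A'), (true, false, S, 1, S')]
  else if c.1 = 3 then [(true, false, A', A, 1), (true, false, S, 1, S')]
  else if c.1 = 4 then [(true, true, A, 2 + c.2, A'), (true, false, S, 1, S')]
  else if c.1 = 5 then [(true, false, A, 1, A'), (true, false, S, A, S')]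
  else [(true, false, S, 1, 1), (true, false, A, 1, A'), (true, false, S', 1, 1)]

/-- the straight-line system of a program with `n` input variables: variable `0` is `1`, variable
`1` is `0`, the variables `2 + i` are the inputs, the registers after `t` steps are `2 + n + 4 t`
and `2 + n + 4 t + 1` -/
def slOf (n : ℕ) (l : List Ins) : SL where
  n := 2 + n + 4 * (l.length + 1)
  cs := [(false, false, 0, 0, 0), (true, false, 1, 1, 1), (true, false, 2 + n, 1, 1),
    (true, false, 2 + n + 1, 1, 1)] ++ l.zipIdx.flatMap fun c => insC (2 + n) c.1 c.2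

/-- untyped version of a polynomial -/
def rawP {n : ℕ} (p : Pool.Agent.helper88.Surj.Poly n) : List ((Bool × List Bool) × List ℕ) :=
  p.map fun m => ((decide (m.1 < 0), m.1.natAbs.bits), m.2.map Fin.val)

/-- the straight-line system of a polynomial map: common zeros -/
def slF (F : Pool.Agent.helper88.Surj.PolyMap) : SL := slOf F.n ((F.fs.map rawP).flatMap insP)

/-! ### all steps -/

/-- number of squarings -/
def SL.KK (S : SL) : ℕ := S.qq + 1

/-- the real system of a straight-line system -/
def SL.rs (S : SL) : LS := (S.toL2 S.KK).toRS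

/-- the system of unit complex numbers -/
def SL.uv (S : SL) : UV := S.rs.toUV

/-- length of the lever -/
def UV.kap (I : UV) : ℕ := 4000 * I.N1

/-- the layout of a straight-line system -/
def SL.lay (S : SL) : Lay := S.uv.lay S.uv.kap

end Pool.Agent.PLN
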