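import Pool.Agent.PLN.Ba6
import Pool.Agent.PLN.Ba7
import Pool.Agent.PLN.Rsd

/-!
# Bounded solutions of straight-line systems

For a system `S` with `n` variables and `r` constraints let `f = ∑_c p_c²`, where `p_c` is
`x_i - 1`, `x_i + x_j - x_k` or `x_i x_j - x_k` (variables `Fin n`; all indices are `< n` by `Ok`).
`totalDegree f ≤ 4`, `mn f ≤ 9 r` (`mn` is sub-additive and sub-multiplicative, `mn p_c ≤ 3`),
`f ≥ 0`, and the zeros of `f` are the solutions of `S`.  `small_zero` with `L = 36 r + 1`, and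
`num_bound`; finally `|x_i| ≤ max 1 (x_i^6)`, and the bound is at least `1`.
-/

namespace Pool.Agent.PLN

theorem ba8_mn_eq {n : ℕ} (p : MvPolynomial (Fin n) ℤ) (s : Finset (Fin n →₀ ℕ))
    (h : p.support ⊆ s) : mn p = ∑ d ∈ s, (p.coeff d).natAbs := by
  unfold mn
  refine Finset.sum_subset h ?_
  intro d _ hd
  rw [MvPolynomial.notMem_support_iff.1 hd]
  rfl

theorem mn_add {n : ℕ} (p q : MvPolynomial (Fin n) ℤ) : mn (p + q) ≤ mn p + mn q := by
  classical
  rw [ba8_mn_eq (p + q) (p.support ∪ q.support) MvPolynomial.support_add,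
    ba8_mn_eq p (p.support ∪ q.support) Finset.subset_union_left,
    ba8_mn_eq q (p.support ∪ q.support) Finset.subset_union_right, ← Finset.sum_add_distrib]
  refine Finset.sum_le_sum ?_
  intro d _
  rw [MvPolynomial.coeff_add]
  exact Int.natAbs_add_le _ _

theorem ba8_mn_zero {n : ℕ} : mn (0 : MvPolynomial (Fin n) ℤ) = 0 := by
  simp [mn]

theorem ba8_mn_sum {n : ℕ} {ι : Type*} (s : Finset ι) (f : ι → MvPolynomial (Fin n) ℤ) :
    mn (∑ i ∈ s, f i) ≤ ∑ i ∈ s, mn (f i) := by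
  classical
  induction s using Finset.induction_on with
  | empty => simp [ba8_mn_zero]
  | insert a s ha ih =>
    rw [Finset.sum_insert ha, Finset.sum_insert ha]
    exact (mn_add _ _).trans (Nat.add_le_add_left ih _)

theorem ba8_mn_monomial {n : ℕ} (d : Fin n →₀ ℕ) (c : ℤ) :
    mn (MvPolynomial.monomial d c) ≤ c.natAbs := by
  classical
  rw [ba8_mn_eq _ {d} MvPolynomial.support_monomial_subset]
  simp [MvPolynomial.coeff_monomial]

theorem mn_mul {n : ℕ} (p q : MvPolynomial (Fin n) ℤ) : mn (p * q) ≤ mn p * mn q := by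
  classical
  have h1 : p * q = ∑ a ∈ p.support, ∑ b ∈ q.support,
      MvPolynomial.monomial (a + b) (p.coeff a * q.coeff b) := by
    conv_lhs => rw [p.as_sum, q.as_sum]
    rw [Finset.sum_mul]
    refine Finset.sum_congr rfl ?_
    intro a _
    rw [Finset.mul_sum]
    refine Finset.sum_congr rfl ?_
    intro b _
    rw [MvPolynomial.monomial_mul]
  rw [h1]
  refine (ba8_mn_sum _ _).trans ?_
  unfold mn
  rw [Finset.sum_mul]
  refine Finset.sum_le_sum ?_
  intro a _
  refine (ba8_mn_sum _ _).trans ?_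
  rw [Finset.mul_sum]
  refine Finset.sum_le_sum ?_
  intro b _
  refine (ba8_mn_monomial _ _).trans ?_
  rw [Int.natAbs_mul]

theorem ba8_mn_X {n : ℕ} (i : Fin n) : mn (MvPolynomial.X i : MvPolynomial (Fin n) ℤ) ≤ 1 := by
  have := ba8_mn_monomial (Finsupp.single i 1) 1
  simpa [MvPolynomial.X] using this

theorem ba8_mn_one {n : ℕ} : mn (1 : MvPolynomial (Fin n) ℤ) ≤ 1 := by
  have h : (1 : MvPolynomial (Fin n) ℤ) = MvPolynomial.monomial 0 1 := by
    simp
  rw [h]
  have := ba8_mn_monomial (0 : Fin n →₀ ℕ) 1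
  simpa using this

theorem ba8_mn_sub {n : ℕ} (p q : MvPolynomial (Fin n) ℤ) : mn (p - q) ≤ mn p + mn q := by
  rw [sub_eq_add_neg, ← mn_neg q]
  exact mn_add _ _

/-- variables, `0` out of range -/
noncomputable def ba8X (n i : ℕ) : MvPolynomial (Fin n) ℤ :=
  if h : i < n then MvPolynomial.X ⟨i, h⟩ else 0

/-- polynomial of a constraint -/
noncomputable def ba8P (n : ℕ) : SC → MvPolynomial (Fin n) ℤ
  | (false, _, i, _, _) => ba8X n i - 1
  | (true, false, i, j, k) => ba8X n i + ba8X n j - ba8X n k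
  | (true, true, i, j, k) => ba8X n i * ba8X n j - ba8X n k

theorem ba8_mn_bX (n i : ℕ) : mn (ba8X n i) ≤ 1 := by
  unfold ba8X
  split_ifs
  · exact ba8_mn_X _
  · simp [ba8_mn_zero]

theorem ba8_deg_bX (n i : ℕ) : (ba8X n i).totalDegree ≤ 1 := by
  unfold ba8X
  split_ifs
  · exact (MvPolynomial.totalDegree_X _).le
  · simp

theorem ba8_mn_P (n : ℕ) (c : SC) : mn (ba8P n c) ≤ 3 := by
  obtain ⟨a, b, i, j, k⟩ := c
  have hi := ba8_mn_bX n i
  have hj := ba8_mn_bX n j
  have hk := ba8_mn_bX n k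
  cases a with
  | false =>
    have h1 := ba8_mn_sub (ba8X n i) 1
    have h2 := ba8_mn_one (n := n)
    show mn (ba8X n i - 1) ≤ 3
    omega
  | true =>
    cases b with
    | false =>
      have h1 := ba8_mn_sub (ba8X n i + ba8X n j) (ba8X n k)
      have h2 := mn_add (ba8X n i) (ba8X n j)
      show mn (ba8X n i + ba8X n j - ba8X n k) ≤ 3
      omega
    | true =>
      have h1 := ba8_mn_sub (ba8X n i * ba8X n j) (ba8X n k)
      have h2 := mn_mul (ba8X n i) (ba8X n j)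
      have h3 : mn (ba8X n i) * mn (ba8X n j) ≤ 1 * 1 := Nat.mul_le_mul hi hj
      show mn (ba8X n i * ba8X n j - ba8X n k) ≤ 3
      omega

theorem ba8_deg_P (n : ℕ) (c : SC) : (ba8P n c).totalDegree ≤ 2 := by
  obtain ⟨a, b, i, j, k⟩ := c
  have hi := ba8_deg_bX n i
  have hj := ba8_deg_bX n j
  have hk := ba8_deg_bX n k
  cases a with
  | false =>
    show (ba8X n i - 1).totalDegree ≤ 2
    refine (MvPolynomial.totalDegree_sub _ _).trans ?_
    rw [MvPolynomial.totalDegree_one]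
    exact max_le (by omega) (by omega)
  | true =>
    cases b with
    | false =>
      show (ba8X n i + ba8X n j - ba8X n k).totalDegree ≤ 2
      refine (MvPolynomial.totalDegree_sub _ _).trans ?_
      refine max_le ((MvPolynomial.totalDegree_add _ _).trans (max_le ?_ ?_)) ?_ <;> omega
    | true =>
      show (ba8X n i * ba8X n j - ba8X n k).totalDegree ≤ 2
      refine (MvPolynomial.totalDegree_sub _ _).trans ?_
      refine max_le ((MvPolynomial.totalDegree_mul _ _).trans ?_) ?_ <;> omega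

theorem ba8_ev_X {n i : ℕ} (hi : i < n) (x : Fin n → ℝ) :
    MvPolynomial.aeval x (ba8X n i) = x ⟨i, hi⟩ := by
  unfold ba8X
  rw [dif_pos hi, MvPolynomial.aeval_X]

theorem ba8_ev_P {n : ℕ} (v : ℕ → ℝ) (x : Fin n → ℝ) (hx : ∀ i : Fin n, x i = v i) (c : SC)
    (hc : c.2.2.1 < n ∧ c.2.2.2.1 < n ∧ c.2.2.2.2 < n) :
    c.holds v ↔ MvPolynomial.aeval x (ba8P n c) = 0 := by
  obtain ⟨a, b, i, j, k⟩ := c
  simp only at hc
  obtain ⟨hi, hj, hk⟩ := hc
  have ei : MvPolynomial.aeval x (ba8X n i) = v i := by rw [ba8_ev_X hi, hx]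
  have ej : MvPolynomial.aeval x (ba8X n j) = v j := by rw [ba8_ev_X hj, hx]
  have ek : MvPolynomial.aeval x (ba8X n k) = v k := by rw [ba8_ev_X hk, hx]
  cases a with
  | false =>
    show v i = 1 ↔ MvPolynomial.aeval x (ba8X n i - 1) = 0
    rw [map_sub, map_one, ei, sub_eq_zero]
  | true =>
    cases b with
    | false =>
      show v i + v j = v k ↔ MvPolynomial.aeval x (ba8X n i + ba8X n j - ba8X n k) = 0
      rw [map_sub, map_add, ei, ej, ek, sub_eq_zero]
    | true =>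
      show v i * v j = v k ↔ MvPolynomial.aeval x (ba8X n i * ba8X n j - ba8X n k) = 0
      rw [map_sub, map_mul, ei, ej, ek, sub_eq_zero]

/-- sum of squares -/
noncomputable def ba8F (n : ℕ) (l : List SC) : MvPolynomial (Fin n) ℤ :=
  (l.map fun c => ba8P n c ^ 2).sum

theorem ba8_mn_F (n : ℕ) (l : List SC) : mn (ba8F n l) ≤ 9 * l.length := by
  induction l with
  | nil => simp [ba8F, ba8_mn_zero]
  | cons c l ih =>
    have h1 : ba8F n (c :: l) = ba8P n c ^ 2 + ba8F n l := by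
      simp [ba8F]
    have h2 := mn_add (ba8P n c ^ 2) (ba8F n l)
    have h3 : mn (ba8P n c ^ 2) ≤ 3 * 3 := by
      rw [sq]
      exact (mn_mul _ _).trans (Nat.mul_le_mul (ba8_mn_P n c) (ba8_mn_P n c))
    rw [h1, List.length_cons]
    omega

theorem ba8_deg_F (n : ℕ) (l : List SC) : (ba8F n l).totalDegree ≤ 4 := by
  induction l with
  | nil => simp [ba8F]
  | cons c l ih =>
    have h1 : ba8F n (c :: l) = ba8P n c ^ 2 + ba8F n l := by
      simp [ba8F]
    rw [h1]
    refine (MvPolynomial.totalDegree_add _ _).trans (max_le ?_ ih)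
    refine (MvPolynomial.totalDegree_pow _ _).trans ?_
    have := ba8_deg_P n c
    omega

theorem ba8_F_nonneg (n : ℕ) (l : List SC) (x : Fin n → ℝ) :
    0 ≤ MvPolynomial.aeval x (ba8F n l) := by
  induction l with
  | nil => simp [ba8F]
  | cons c l ih =>
    have h1 : ba8F n (c :: l) = ba8P n c ^ 2 + ba8F n l := by
      simp [ba8F]
    rw [h1, map_add, map_pow]
    positivity

theorem ba8_F_zero (n : ℕ) (l : List SC) (x : Fin n → ℝ) :
    MvPolynomial.aeval x (ba8F n l) = 0 ↔ ∀ c ∈ l, MvPolynomial.aeval x (ba8P n c) = 0 := by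
  induction l with
  | nil => simp [ba8F]
  | cons c l ih =>
    have h1 : ba8F n (c :: l) = ba8P n c ^ 2 + ba8F n l := by
      simp [ba8F]
    rw [h1, map_add, map_pow, add_eq_zero_iff_of_nonneg (sq_nonneg _) (ba8_F_nonneg n l x), ih,
      sq_eq_zero_iff, List.forall_mem_cons]

theorem sl_ball {S : SL} (hS : S.Ok) (h : ∃ v, S.Sol v) :
    ∃ v : ℕ → ℝ, S.Sol v ∧ ∀ i < S.n, |v i| ≤ 2 ^ 2 ^ S.qq := by
  obtain ⟨v, hv⟩ := h
  obtain ⟨_, hS⟩ := hS
  obtain ⟨x, hx0, hxb⟩ := small_zero (ba8F S.n S.cs) (ba8_deg_F _ _) (ba8_F_nonneg _ _)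
    (L := 36 * S.cs.length + 1) (by omega) (by have := ba8_mn_F S.n S.cs; omega)
    ⟨fun i => v i, (ba8_F_zero _ _ _).2 fun c hc =>
      (ba8_ev_P v _ (fun i => rfl) c (hS c hc)).1 (hv c hc)⟩
  refine ⟨fun i => if h : i < S.n then x ⟨i, h⟩ else 0, ?_, ?_⟩
  · intro c hc
    refine (ba8_ev_P _ x ?_ c (hS c hc)).2 ((ba8_F_zero _ _ _).1 hx0 c hc)
    intro i
    simp
  · intro i hi
    have h1 := num_bound S.n S.cs.length
    have hq : 20 * ((S.n + S.cs.length + 20) * (S.n + S.cs.length + 20)) = S.qq := rfl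
    rw [hq] at h1
    generalize (5 ^ S.n).factorial *
        (1 + S.n * (36 * S.cs.length + 1) ^ (4 * S.n + 6)) ^ 5 ^ S.n = M at h1 hxb
    generalize S.qq = Q at h1
    have h1' : (M : ℝ) ≤ 2 ^ 2 ^ Q := by
      have h2 : (M : ℝ) ≤ ((2 ^ 2 ^ Q : ℕ) : ℝ) := Nat.cast_le.2 h1
      rwa [Nat.cast_pow, Nat.cast_ofNat] at h2
    have h2 : x ⟨i, hi⟩ ^ 6 ≤ 2 ^ 2 ^ Q := by
      refine le_trans ?_ (hxb.trans h1')
      exact Finset.single_le_sum (f := fun j => x j ^ 6) (fun j _ => by positivity)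
        (Finset.mem_univ _)
    have h3 : (1 : ℝ) ≤ 2 ^ 2 ^ Q := one_le_pow₀ (by norm_num)
    simp only [dif_pos hi]
    by_cases h4 : |x ⟨i, hi⟩| ≤ 1
    · exact h4.trans h3
    · push Not at h4
      have h5 : |x ⟨i, hi⟩| ≤ |x ⟨i, hi⟩| ^ 6 := le_self_pow₀ h4.le (by norm_num)
      have h6 : |x ⟨i, hi⟩| ^ 6 = x ⟨i, hi⟩ ^ 6 := by
        rw [← abs_pow, abs_of_nonneg (by positivity)]
      linarith

end Pool.Agent.PLN
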