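import Pool.Agent.PLN.Cx1

/-!
# The coupling lemma

Let `c = 7 (v - rho h) = h0 - h0' = h1' - h1` and suppose `c ≠ 0`.  From `|h0| = |h0 - c| = 1` we
get `Re (h0 conj c) = |c|²/2 > 0`, and from `|h1| = |h1 + c| = 1` we get
`Re (h1 conj c) = -|c|²/2 < 0`.
Let `n = - i (v + rho h)`.  As `|v| = |rho h|`, the number `(v - rho h) conj (v + rho h)` is purely
imaginary (`= 2 i Im (v conj (rho h))`), so `c` is a real multiple of `n` (if `v + rho h = 0`, then
`v = - rho h`, impossible: `cr h v = Im (v conj h) > 0` but `Im (-rho) < 0`).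
For `g = h0` and `g = h1`: `Re (g conj n) = Im (v conj g) + Im (rho h conj g) > 0`.  Indeed, the
first summand is `cr g v > 0`; for the second put `z = h conj g`.  As `z = (v conj g) conj (v conj h)`
and both factors `e^{iβ}`, `e^{iγ}` have arguments in `[60°, 120°]` (`|Re| ≤ 1/2`, `Im > 0`, so
`Im ≥ √3/2`), `Re z = Re Re + Im Im ≥ -1/4 + 3/4 = 1/2` and so `|Im z| ≤ √3/2`; hence
`Im (rho z) = rho.re * Im z + rho.im * Re z ≥ - (1/7)(√3/2) + (4√3/7)(1/2) > 0`.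
So `Re (h0 conj c)` and `Re (h1 conj c)` have the same sign (that of the real factor), a
contradiction.
-/

namespace Pool.Agent.PLN

theorem Cx5_mul {z v : ℂ} (nv : ‖v‖ = 1) : ‖z * (starRingEnd ℂ) v‖ = ‖z‖ := by
  rw [norm_mul, RCLike.norm_conj, nv, mul_one]

theorem Cx5_sq (z : ℂ) : ‖z‖ ^ 2 = z.re * z.re + z.im * z.im := by
  rw [Complex.sq_norm, Complex.normSq_apply]

theorem Cx5_one {v : ℂ} (nv : ‖v‖ = 1) : v * (starRingEnd ℂ) v = 1 := by
  rw [Complex.mul_conj, ← Complex.sq_norm, nv]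
  norm_num

theorem Cx5_low {r i : ℝ} (h : r * r + i * i = 1) (h1 : -(1 / 2) ≤ r) (h2 : r ≤ 1 / 2)
    (hi : 0 < i) : 0.866 ≤ i ∧ i ≤ 1 := by
  have a : r * r ≤ 1 / 4 := by nlinarith
  constructor
  · by_contra hc
    push Not at hc
    nlinarith
  · nlinarith

/-- the sign of `Re (g conj n)`, real version: `V = (p, q)`, `g = (x, y)`, `s = Im rho` -/
theorem Cx5_pos {p q x y s : ℝ} (hV : p * p + q * q = 1) (hg : x * x + y * y = 1)
    (p1 : -(1 / 2) ≤ p) (p2 : p ≤ 1 / 2) (hq : 0 < q) (hc : 0 < q * x - p * y)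
    (d1 : -(1 / 2) ≤ p * x + q * y) (d2 : p * x + q * y ≤ 1 / 2) (hs : 0.98 ≤ s) :
    0 < x * (q + s) - y * (p - 1 / 7) := by
  obtain ⟨A, hA⟩ : ∃ A, A = p * x + q * y := ⟨_, rfl⟩
  obtain ⟨B, hB⟩ : ∃ B, B = q * x - p * y := ⟨_, rfl⟩
  rw [← hA] at d1 d2
  rw [← hB] at hc
  have hAB : A * A + B * B = 1 := by
    rw [hA, hB]
    linear_combination (x * x + y * y) * hV + hg
  obtain ⟨b1, b2⟩ := Cx5_low hAB d1 d2 hc
  obtain ⟨q1, q2⟩ := Cx5_low hV p1 p2 hq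
  have ex : x = p * A + q * B := by
    rw [hA, hB]
    linear_combination -x * hV
  have ey : y = q * A - p * B := by
    rw [hA, hB]
    linear_combination -y * hV
  have e : x * (q + s) - y * (p - 1 / 7) = B + s * x + (1 / 7) * y := by
    rw [hB]; ring
  rw [e]
  have hpA : -(1 / 4) ≤ p * A := by nlinarith
  have hqB : 0.749 ≤ q * B := by nlinarith
  have hx : 0.499 ≤ x := by linarith
  have hy : -1 ≤ y := by nlinarith
  have hsx : 0.98 * 0.499 ≤ s * x := by nlinarith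
  linarith

theorem Cx5_real {p q x0 y0 x1 y1 s : ℝ} (hV : p * p + q * q = 1) (hs2 : s * s = 48 / 49)
    (hs : 0.98 ≤ s) (p1 : -(1 / 2) ≤ p) (p2 : p ≤ 1 / 2) (hq : 0 < q)
    (hg0 : x0 * x0 + y0 * y0 = 1) (hg1 : x1 * x1 + y1 * y1 = 1)
    (c0 : 0 < q * x0 - p * y0) (d0 : -(1 / 2) ≤ p * x0 + q * y0)
    (d0' : p * x0 + q * y0 ≤ 1 / 2)
    (c1 : 0 < q * x1 - p * y1) (d1 : -(1 / 2) ≤ p * x1 + q * y1)
    (d1' : p * x1 + q * y1 ≤ 1 / 2)
    (k0 : (x0 - 7 * (p + 1 / 7)) * (x0 - 7 * (p + 1 / 7)) +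
      (y0 - 7 * (q - s)) * (y0 - 7 * (q - s)) = 1)
    (k1 : (x1 + 7 * (p + 1 / 7)) * (x1 + 7 * (p + 1 / 7)) +
      (y1 + 7 * (q - s)) * (y1 + 7 * (q - s)) = 1) : p = -1 / 7 ∧ q = s := by
  have P0 := Cx5_pos hV hg0 p1 p2 hq c0 d0 d0' hs
  have P1 := Cx5_pos hV hg1 p1 p2 hq c1 d1 d1' hs
  have hqs : 0 < q + s := by linarith
  obtain ⟨N, hN⟩ : ∃ N, N = 49 * ((p + 1 / 7) * (p + 1 / 7) + (q - s) * (q - s)) := ⟨_, rfl⟩
  -- products with the vector c
  have m0 : 7 * (x0 * (p + 1 / 7) + y0 * (q - s)) = N / 2 := by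
    rw [hN]; linear_combination (1 / 2) * hg0 - (1 / 2) * k0
  have m1 : 7 * (x1 * (p + 1 / 7) + y1 * (q - s)) = -(N / 2) := by
    rw [hN]; linear_combination (1 / 2) * k1 - (1 / 2) * hg1
  have ort : (p + 1 / 7) * (p - 1 / 7) + (q - s) * (q + s) = 0 := by
    linear_combination hV - hs2
  -- c is the multiple (p + 1/7)/(q + s) of n
  have l0 : (x0 * (p + 1 / 7) + y0 * (q - s)) * (q + s) =
      (p + 1 / 7) * (x0 * (q + s) - y0 * (p - 1 / 7)) := by
    linear_combination y0 * ort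
  have l1 : (x1 * (p + 1 / 7) + y1 * (q - s)) * (q + s) =
      (p + 1 / 7) * (x1 * (q + s) - y1 * (p - 1 / 7)) := by
    linear_combination y1 * ort
  have hN0 : 0 ≤ N := by
    rw [hN]
    have := mul_self_nonneg (p + 1 / 7)
    have := mul_self_nonneg (q - s)
    linarith
  have hNz : N = 0 := by
    rcases lt_trichotomy (p + 1 / 7) 0 with h | h | h
    · have a0 : (p + 1 / 7) * (x0 * (q + s) - y0 * (p - 1 / 7)) < 0 := mul_neg_of_neg_of_pos h P0
      rw [← l0] at a0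
      have a1 : (x0 * (p + 1 / 7) + y0 * (q - s)) < 0 := by
        by_contra hc
        push Not at hc
        have := mul_nonneg hc hqs.le
        linarith
      linarith
    · have a0 : (x0 * (p + 1 / 7) + y0 * (q - s)) * (q + s) = 0 := by rw [l0, h, zero_mul]
      have a1 := (mul_eq_zero.1 a0).resolve_right hqs.ne'
      linarith
    · have a0 : 0 < (p + 1 / 7) * (x1 * (q + s) - y1 * (p - 1 / 7)) := mul_pos h P1
      rw [← l1] at a0
      have a1 : 0 < (x1 * (p + 1 / 7) + y1 * (q - s)) := by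
        by_contra hc
        push Not at hc
        have := mul_nonpos_of_nonpos_of_nonneg hc hqs.le
        linarith
      linarith
  rw [hN] at hNz
  have z1 := mul_self_nonneg (p + 1 / 7)
  have z2 := mul_self_nonneg (q - s)
  have y1' : p + 1 / 7 = 0 := mul_self_eq_zero.1 (by linarith)
  have y2' : q - s = 0 := mul_self_eq_zero.1 (by linarith)
  exact ⟨by linarith, by linarith⟩

theorem Cx5_s : 0.98 ≤ 4 * Real.sqrt 3 / 7 ∧
    (4 * Real.sqrt 3 / 7) * (4 * Real.sqrt 3 / 7) = 48 / 49 := by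
  have h3 : Real.sqrt 3 * Real.sqrt 3 = 3 := Real.mul_self_sqrt (by norm_num)
  have hs3 := sqrt3_bd.1
  constructor
  · linarith
  · linear_combination (16 / 49) * h3

theorem coupling {h v h0 h0' h1 h1' : ℂ} (nh : ‖h‖ = 1) (nv : ‖v‖ = 1) (n0 : ‖h0‖ = 1)
    (n0' : ‖h0'‖ = 1) (n1 : ‖h1‖ = 1) (n1' : ‖h1'‖ = 1) (c : 0 < cr h v) (d : |dt h v| ≤ 1 / 2)
    (c0 : 0 < cr h0 v) (d0 : |dt h0 v| ≤ 1 / 2) (c1 : 0 < cr h1 v) (d1 : |dt h1 v| ≤ 1 / 2)
    (e0 : 7 * (v - rho * h) = h0 - h0') (e1 : 7 * (v - rho * h) = h1' - h1) :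
    v = rho * h := by
  have hh := Cx5_one nh
  obtain ⟨V, hV⟩ : ∃ V, V = v * (starRingEnd ℂ) h := ⟨_, rfl⟩
  obtain ⟨g0, hg0⟩ : ∃ g, g = h0 * (starRingEnd ℂ) h := ⟨_, rfl⟩
  obtain ⟨g1, hg1⟩ : ∃ g, g = h1 * (starRingEnd ℂ) h := ⟨_, rfl⟩
  have nV : V.re * V.re + V.im * V.im = 1 := by
    rw [← Cx5_sq, hV, Cx5_mul nh, nv]; norm_num
  have ng0 : g0.re * g0.re + g0.im * g0.im = 1 := by
    rw [← Cx5_sq, hg0, Cx5_mul nh, n0]; norm_num
  have ng1 : g1.re * g1.re + g1.im * g1.im = 1 := by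
    rw [← Cx5_sq, hg1, Cx5_mul nh, n1]; norm_num
  have k0 : ‖g0 - 7 * (V - rho)‖ ^ 2 = 1 := by
    have : g0 - 7 * (V - rho) = h0' * (starRingEnd ℂ) h := by
      have e : g0 - 7 * (V - rho) = (h0 - 7 * (v - rho * h)) * (starRingEnd ℂ) h +
          7 * rho * (1 - h * (starRingEnd ℂ) h) := by rw [hg0, hV]; ring
      rw [e, hh, e0]; ring
    rw [this, Cx5_mul nh, n0']; norm_num
  have k1 : ‖g1 + 7 * (V - rho)‖ ^ 2 = 1 := by
    have : g1 + 7 * (V - rho) = h1' * (starRingEnd ℂ) h := by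
      have e : g1 + 7 * (V - rho) = (h1 + 7 * (v - rho * h)) * (starRingEnd ℂ) h -
          7 * rho * (1 - h * (starRingEnd ℂ) h) := by rw [hg1, hV]; ring
      rw [e, hh, e1]; ring
    rw [this, Cx5_mul nh, n1']; norm_num
  have key : ∀ g f : ℂ, g = f * (starRingEnd ℂ) h →
      V * (starRingEnd ℂ) g = v * (starRingEnd ℂ) f := by
    intro g f hg
    rw [hg, hV, map_mul, Complex.conj_conj]
    linear_combination (v * (starRingEnd ℂ) f) * hh
  have cV : cr h v = V.im := by unfold cr; rw [hV]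
  have dV : dt h v = V.re := by unfold dt; rw [hV]
  have c0' : cr h0 v = V.im * g0.re - V.re * g0.im := by
    unfold cr
    rw [← key g0 h0 hg0, Complex.mul_im, Complex.conj_re, Complex.conj_im]
    ring
  have d0' : dt h0 v = V.re * g0.re + V.im * g0.im := by
    unfold dt
    rw [← key g0 h0 hg0, Complex.mul_re, Complex.conj_re, Complex.conj_im]
    ring
  have c1' : cr h1 v = V.im * g1.re - V.re * g1.im := by
    unfold cr
    rw [← key g1 h1 hg1, Complex.mul_im, Complex.conj_re, Complex.conj_im]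
    ring
  have d1' : dt h1 v = V.re * g1.re + V.im * g1.im := by
    unfold dt
    rw [← key g1 h1 hg1, Complex.mul_re, Complex.conj_re, Complex.conj_im]
    ring
  rw [cV] at c
  rw [dV, abs_le] at d
  rw [c0'] at c0
  rw [c1'] at c1
  rw [d0', abs_le] at d0
  rw [d1', abs_le] at d1
  have r7 : ((7 : ℂ) * (V - rho)).re = 7 * (V.re + 1 / 7) := by
    rw [Complex.mul_re, Complex.sub_re, rho_re]
    simp
    ring
  have i7 : ((7 : ℂ) * (V - rho)).im = 7 * (V.im - 4 * Real.sqrt 3 / 7) := by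
    rw [Complex.mul_im, Complex.sub_im, rho_im]
    simp
  rw [Cx5_sq, Complex.sub_re, Complex.sub_im, r7, i7] at k0
  rw [Cx5_sq, Complex.add_re, Complex.add_im, r7, i7] at k1
  obtain ⟨R1, R2⟩ := Cx5_real nV Cx5_s.2 Cx5_s.1 d.1 d.2 c ng0 ng1 c0 d0.1 d0.2 c1 d1.1 d1.2 k0 k1
  have hVr : V = rho := by
    apply Complex.ext
    · rw [rho_re, R1]
    · rw [rho_im, R2]
  have : v = V * h := by
    rw [hV, mul_assoc, mul_comm ((starRingEnd ℂ) h) h, hh, mul_one]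
  rw [this, hVr]

/-- the end of the lever -/
theorem lever_lt {u f : ℂ} (nu : ‖u‖ = 1) (nf : ‖f‖ = 1) (c : 0 < cr f (rho * u))
    (d : |dt f (rho * u)| ≤ 1 / 2) : ‖u - f‖ < 1 := by
  have hf := Cx5_one nf
  obtain ⟨z, hz⟩ : ∃ z, z = u * (starRingEnd ℂ) f := ⟨_, rfl⟩
  have nz : z.re * z.re + z.im * z.im = 1 := by
    rw [← Cx5_sq, hz, Cx5_mul nf, nu]; norm_num
  have e : ‖u - f‖ ^ 2 = 2 - 2 * z.re := by
    have h1 : ‖(u - f) * (starRingEnd ℂ) f‖ ^ 2 = ‖z - 1‖ ^ 2 := by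
      congr 2
      rw [hz, ← hf]; ring
    rw [Cx5_mul nf, Cx5_sq (z - 1), Complex.sub_re, Complex.sub_im, Complex.one_re,
      Complex.one_im] at h1
    rw [h1]
    linear_combination nz
  have cz : cr f (rho * u) = (rho * z).im := by unfold cr; rw [hz, mul_assoc]
  have dz : dt f (rho * u) = (rho * z).re := by unfold dt; rw [hz, mul_assoc]
  rw [cz, Complex.mul_im, rho_re, rho_im] at c
  rw [dz, Complex.mul_re, rho_re, rho_im, abs_le] at d
  obtain ⟨s1, s2⟩ := Cx5_s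
  obtain ⟨s, hs⟩ : ∃ s, s = 4 * Real.sqrt 3 / 7 := ⟨_, rfl⟩
  rw [← hs] at s1 s2 c d
  obtain ⟨A, hA⟩ : ∃ A, A = -1 / 7 * z.re - s * z.im := ⟨_, rfl⟩
  obtain ⟨B, hB⟩ : ∃ B, B = -1 / 7 * z.im + s * z.re := ⟨_, rfl⟩
  rw [← hA] at d
  rw [← hB] at c
  have hAB : A * A + B * B = 1 := by
    rw [hA, hB]
    linear_combination (z.re * z.re + z.im * z.im) * s2 + nz
  obtain ⟨b1, b2⟩ := Cx5_low hAB d.1 d.2 c
  have hx : z.re = -1 / 7 * A + s * B := by
    rw [hA, hB]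
    linear_combination -z.re * s2
  have h5 : 0.98 * 0.866 ≤ s * B := by nlinarith
  have h6 : 0.5 < z.re := by linarith [d.2]
  have h7 : ‖u - f‖ ^ 2 < 1 := by rw [e]; linarith
  have h0 := norm_nonneg (u - f)
  by_contra hc
  push Not at hc
  nlinarith

end Pool.Agent.PLN
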