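import Pool.Agent.PLN.Ly3

/-!
# The layout is good: ties and lever

`b1 = off 1 = W + κ + 11 ∈ tb`, `T = W + 11`, `b1 = T + κ`.  Ties: `i = off j + k` with `k < W`:
for `j = 0`, `i < W`, so `i + 5 < T`; for `j ≥ 1`, `i ≥ off 1 = b1`; `i = off' j + k ≥ X1 ≥ b1`.
-/

namespace Pool.Agent.PLN

namespace UV

variable {I : UV} {κ : ℕ}

/-- membership in the list of ties -/
theorem Ly4_mem {i : ℕ} : i ∈ I.tbL κ ↔ ∃ j < I.m, (∃ k < I.W, i = I.off κ j + k) ∨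
    (∃ k < I.W, i = I.off' κ j + k) := by
  unfold tbL
  simp only [List.mem_flatMap, List.mem_append, List.mem_map, List.mem_range]
  constructor
  · rintro ⟨j, hj, ⟨k, hk, rfl⟩ | ⟨k, hk, rfl⟩⟩
    · exact ⟨j, hj, Or.inl ⟨k, hk, rfl⟩⟩
    · exact ⟨j, hj, Or.inr ⟨k, hk, rfl⟩⟩
  · rintro ⟨j, hj, ⟨k, hk, rfl⟩ | ⟨k, hk, rfl⟩⟩
    · exact ⟨j, hj, Or.inl ⟨k, hk, rfl⟩⟩
    · exact ⟨j, hj, Or.inr ⟨k, hk, rfl⟩⟩

theorem lay_good (hI : I.Ok) (hκ : 2 ≤ κ) : (I.lay κ).Good := by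
  have hW : 16 ≤ I.W := by
    rw [W_eq]
    omega
  have h1 := off_one (I := I) (κ := κ)
  have hm := hI.m2
  refine { toGoodN := lay_goodN hI, b1m := ?_, b1m' := ?_, T2 := ?_, Tb := ?_, gap := ?_ }
  · show I.off κ 1 ∈ I.tbL κ
    exact Ly4_mem.2 ⟨1, by omega, Or.inl ⟨0, by omega, rfl⟩⟩
  · show I.off κ 1 + 1 ∈ I.tbL κ
    exact Ly4_mem.2 ⟨1, by omega, Or.inl ⟨1, by omega, rfl⟩⟩
  · show 2 ≤ I.W + 11
    omega
  · show I.W + 11 + 2 ≤ I.off κ 1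
    omega
  · intro i hi
    show i + 5 < I.W + 11 ∨ I.off κ 1 ≤ i
    have hi' : i ∈ I.tbL κ := hi
    obtain ⟨j, hj, ⟨k, hk, rfl⟩ | ⟨k, hk, rfl⟩⟩ := Ly4_mem.1 hi'
    · rcases Nat.eq_zero_or_pos j with rfl | hj0
      · left
        rw [off_zero]
        omega
      · right
        have := off_one_le (I := I) (κ := κ) hj0
        omega
    · right
      have h2 := off'_X1 (I := I) (κ := κ) j
      have h3 := X1_eq (I := I) (κ := κ)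
      have h4 := X0_ge (κ := κ) hI
      omega

end UV

end Pool.Agent.PLN
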