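import Pool.Agent.PLN.Ly11
import Pool.Agent.PLN.Ly4
import Pool.Agent.PLN.Cx5

/-!
# The angles, the lever, and the solution

Let `s j = hs P (off j) 0`.  Angles: the cell `(off i, off j)` is present (`unb_col`), its
horizontal step is `s i` (`hs_up`) and its vertical step is `rho * s j` (`vs_right`, `unb_row`,
`cornerLB`); `GD.ang`.
Lever: `b1 = off 1`, `T = W + 11`, `b1 - T = κ`; the steps `hs P (W + k) 0`, `11 ≤ k < κ + 10`, are
`s 0` (`colZ`), and `f = hs P (b1 - 1) 0`; so `P b1 0 - P T 0 = (κ - 1) s 0 + f`, and `GD.lev` says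
`1 ≤ ‖(κ - 1) s 0 + f - κ s 1‖`.  If `s 1 = s 0`, then `1 ≤ ‖f - s 0‖`.  But the cell
`(b1 - 1, off 0)` is present (`unb_row`), its horizontal step is `f` (the column `b1 - 1 = W + κ +
10` is unbroken, `unb_Z`) and its vertical step is `rho * s 0`; so `lever_lt` gives a contradiction.
Finally divide by `s 0`: `s' j = s j / s 0` (`|s 0| = 1`) is a solution with `s' 0 = 1`; the
equations are homogeneous, and `dt` does not change, as `conj (s 0) * s 0 = 1`.
-/

namespace Pool.Agent.PLN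

namespace UV

variable {I : UV} {κ : ℕ}

theorem ly12_off_NN (hI : I.Ok) {j : ℕ} (hj : j < I.m) : I.off κ j < I.NN κ := by
  have h1 := off_X0 (I := I) (κ := κ) hj
  have h2 := X1_eq (I := I) (κ := κ)
  have h3 := NN_ge (κ := κ) hI
  omega

theorem ly12_hs (hI : I.Ok) {P : ℕ → ℕ → ℂ} (hD : GD (I.lay κ) P) {i b : ℕ} (hi : i < I.m)
    (hb : b ≤ I.NN κ) : hs P (I.off κ i) b = hs P (I.off κ i) 0 := by
  refine hs_up hD (Nat.zero_le _) ?_
  intro j _ hj
  have := unb_col (κ := κ) hI (j := i) (x := 0) (i := j) hi (by omega) (by omega)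
  simpa using this

theorem ly12_vs (hI : I.Ok) {P : ℕ → ℕ → ℂ} (hD : GD (I.lay κ) P) {j b : ℕ} (hj : j < I.m)
    (hb : b ≤ I.NN κ) : vs P b (I.off κ j) = rho * hs P (I.off κ j) 0 := by
  rw [← cornerLB hI hD hj]
  refine vs_right hD (Nat.zero_le _) ?_
  intro i _ hi
  have := unb_row (κ := κ) hI (j := j) (x := 0) (i := i) hj (by omega) (by omega)
  simpa using this

theorem ly12_ang (hI : I.Ok) {P : ℕ → ℕ → ℂ} (hD : GD (I.lay κ) P) {i j : ℕ} (hi : i < I.m)
    (hj : j < I.m) : |dt (hs P (I.off κ i) 0) (rho * hs P (I.off κ j) 0)| ≤ 1 / 2 := by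
  have h1 : (I.lay κ).cell (I.off κ i) (I.off κ j) := by
    have := unb_col (κ := κ) hI (j := i) (x := 0) (i := I.off κ j) hi (by omega)
      (ly12_off_NN hI hj)
    simpa using this
  have h2 := (hD.ang _ _ h1).2.2.1
  rwa [ly12_hs hI hD hi (ly12_off_NN hI hj).le, ly12_vs hI hD hj (ly12_off_NN hI hi).le] at h2

theorem ly12_tel (P : ℕ → ℕ → ℂ) (s : ℂ) (T n : ℕ) (h : ∀ i < n, hs P (T + i) 0 = s) :
    P (T + n) 0 - P T 0 = (n : ℂ) * s := by
  induction n with
  | zero => simp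
  | succ n ih =>
    have h1 := ih fun i hi => h i (by omega)
    have h2 := h n (by omega)
    unfold hs at h2
    rw [show T + (n + 1) = T + n + 1 by ring]
    push_cast
    linear_combination h1 + h2

theorem ly12_lev (hI : I.Ok) (hκ : 2 ≤ κ) {P : ℕ → ℕ → ℂ} (hD : GD (I.lay κ) P) :
    hs P (I.off κ 1) 0 ≠ hs P (I.off κ 0) 0 := by
  intro heq
  have hm : 0 < I.m := by have := hI.m2; omega
  have h0 : I.off κ 0 = 0 := off_zero
  have h1 : I.off κ 1 = I.W + κ + 11 := off_one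
  have hNN : I.off κ 1 < I.NN κ := ly12_off_NN hI (by have := hI.m2; omega)
  have hlev : 1 ≤ ‖P (I.off κ 1) 0 - P (I.W + 11) 0 - (((I.off κ 1 : ℕ) : ℂ) -
    ((I.W + 11 : ℕ) : ℂ)) * hs P (I.off κ 1) 0‖ := hD.lev
  obtain ⟨n, hn⟩ : ∃ n, κ = n + 1 := ⟨κ - 1, by omega⟩
  have h2 : P (I.W + 11 + n) 0 - P (I.W + 11) 0 = (n : ℂ) * hs P (I.off κ 0) 0 := by
    refine ly12_tel P _ _ n ?_
    intro i hi
    have := colZ (κ := κ) hI hD (k := 11 + i) (by omega)
    rwa [← add_assoc] at this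
  have h3 : hs P (I.W + 11 + n) 0 = P (I.off κ 1) 0 - P (I.W + 11 + n) 0 := by
    unfold hs
    rw [show I.W + 11 + n + 1 = I.off κ 1 by omega]
  have h4 : P (I.off κ 1) 0 - P (I.W + 11) 0 - (((I.off κ 1 : ℕ) : ℂ) -
      ((I.W + 11 : ℕ) : ℂ)) * hs P (I.off κ 1) 0 =
      -(hs P (I.off κ 0) 0 - hs P (I.W + 11 + n) 0) := by
    have h5 : ((I.off κ 1 : ℕ) : ℂ) = ((I.W + 11 : ℕ) : ℂ) + (n : ℂ) + 1 := by
      rw [show I.off κ 1 = I.W + 11 + n + 1 by omega]
      push_cast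
      ring
    rw [h5, heq]
    linear_combination h2 - h3
  rw [h4, norm_neg] at hlev
  have hc : (I.lay κ).cell (I.W + 11 + n) 0 := by
    have := unb_Z (κ := κ) hI (k := κ + 10) (i := 0) (by omega) (by omega)
    rwa [show I.W + (κ + 10) = I.W + 11 + n by omega] at this
  have ha := hD.ang _ _ hc
  have hv : vs P (I.W + 11 + n) 0 = rho * hs P (I.off κ 0) 0 := by
    have := ly12_vs (κ := κ) hI hD (j := 0) (b := I.W + 11 + n) hm (by omega)
    rwa [h0] at this ⊢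
  rw [hv] at ha
  have hu : ‖hs P (I.off κ 0) 0‖ = 1 := (sol_hs hI hD).nrm 0 hm
  have := lever_lt hu ha.1 ha.2.2.2 ha.2.2.1
  linarith

theorem ly12_conj {z : ℂ} (hz : ‖z‖ = 1) : z * (starRingEnd ℂ) z = 1 := by
  rw [Complex.mul_conj, Complex.normSq_eq_norm_sq, hz]
  norm_num

theorem sol_of_GD (hI : I.Ok) (hκ : 2 ≤ κ) {P : ℕ → ℕ → ℂ} (hD : GD (I.lay κ) P) :
    ∃ s : ℕ → ℂ, I.Sol s ∧ s 0 = 1 ∧ (∀ i < I.m, ∀ j < I.m, |dt (s i) (rho * s j)| ≤ 1 / 2) ∧
      s 1 ≠ 1 := by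
  have hm : 0 < I.m := by have := hI.m2; omega
  have hS := sol_hs hI hD
  have hu : ‖hs P (I.off κ 0) 0‖ = 1 := hS.nrm 0 hm
  have hang : ∀ i < I.m, ∀ j < I.m, |dt (hs P (I.off κ i) 0) (rho * hs P (I.off κ j) 0)| ≤
    1 / 2 := fun i hi j hj => ly12_ang hI hD hi hj
  have hne := ly12_lev hI hκ hD
  generalize hsd : (fun j => hs P (I.off κ j) 0) = s at hS
  have e : ∀ j, hs P (I.off κ j) 0 = s j := fun j => by rw [← hsd]
  simp only [e] at hu hang hne
  have h0 : s 0 ≠ 0 := by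
    intro h
    rw [h] at hu
    simp at hu
  have hcj := ly12_conj hu
  have hcj0 : (starRingEnd ℂ) (s 0) ≠ 0 := by
    intro h
    rw [h] at hcj
    simp at hcj
  refine ⟨fun j => s j / s 0, ?_, div_self h0, ?_, ?_⟩
  · constructor
    · intro j hj
      show ‖s j / s 0‖ = 1
      rw [norm_div, hS.nrm j hj, hu]
      norm_num
    · intro e he
      have h1 := hS.eqn e he
      have h2 : ∀ a b : ℕ, s a / s 0 - s b / s 0 = (s a - s b) / s 0 := fun a b => by ring
      simp only [h2, ← Finset.sum_div]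
      rw [mul_div_assoc', ← add_div, h1, zero_div]
  · intro i hi j hj
    have h1 := hang i hi j hj
    have h2 : dt (s i / s 0) (rho * (s j / s 0)) = dt (s i) (rho * s j) := by
      unfold dt
      congr 1
      rw [map_div₀]
      have h3 : rho * (s j / s 0) * ((starRingEnd ℂ) (s i) / (starRingEnd ℂ) (s 0)) =
          rho * s j * (starRingEnd ℂ) (s i) / (s 0 * (starRingEnd ℂ) (s 0)) := by
        field_simp
      rw [h3, hcj, div_one]
    show |dt (s i / s 0) (rho * (s j / s 0))| ≤ 1 / 2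
    rw [h2]
    exact h1
  · intro h
    exact hne ((div_eq_one_iff_eq h0).1 h)

end UV

end Pool.Agent.PLN
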