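import Pool.Agent.PLN.Core

/-!
# The numbers `om` and `rho`

`om = e^{iπ/3}` satisfies `om² = om - 1`, `|om| = 1`, `conj om = 1 - om`;
`rho = (8 om - 5)/7 = -1/7 + (4√3/7) i` has modulus `1`.

Proof: direct computation of real and imaginary parts (`Complex.ext`, `Complex.normSq_apply`,
`Real.sq_sqrt`).
-/

namespace Pool.Agent.PLN

theorem om_re : om.re = 1 / 2 := rfl

theorem om_im : om.im = Real.sqrt 3 / 2 := rfl

theorem rho_re : rho.re = -1 / 7 := by
  have h : rho = (((8 * (1 / 2) - 5) / 7 : ℝ) : ℂ) + ((8 * (Real.sqrt 3 / 2) / 7 : ℝ) : ℂ) *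
      Complex.I := by
    unfold rho
    apply Complex.ext
    · simp [om]
    · simp [om]
  rw [h]
  simp
  norm_num

theorem rho_im : rho.im = 4 * Real.sqrt 3 / 7 := by
  have h : rho = (((8 * (1 / 2) - 5) / 7 : ℝ) : ℂ) + ((8 * (Real.sqrt 3 / 2) / 7 : ℝ) : ℂ) *
      Complex.I := by
    unfold rho
    apply Complex.ext
    · simp [om]
    · simp [om]
  rw [h]
  simp
  ring

theorem seven_rho : 7 * rho = 8 * om - 5 := by
  unfold rho
  ring

theorem om_sq : om ^ 2 = om - 1 := by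
  have h3 : Real.sqrt 3 * Real.sqrt 3 = 3 := Real.mul_self_sqrt (by norm_num)
  apply Complex.ext
  · rw [pow_two, Complex.mul_re, Complex.sub_re, om_re, om_im, Complex.one_re]
    nlinarith
  · rw [pow_two, Complex.mul_im, Complex.sub_im, om_re, om_im, Complex.one_im]
    ring

theorem om_conj : (starRingEnd ℂ) om = 1 - om := by
  apply Complex.ext
  · rw [Complex.conj_re, Complex.sub_re, om_re, Complex.one_re]; norm_num
  · rw [Complex.conj_im, Complex.sub_im, om_im, Complex.one_im]; ring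

theorem om_nrm : ‖om‖ = 1 := by
  have h3 : Real.sqrt 3 * Real.sqrt 3 = 3 := Real.mul_self_sqrt (by norm_num)
  have h : ‖om‖ ^ 2 = 1 := by
    rw [Complex.sq_norm, Complex.normSq_apply, om_re, om_im]
    nlinarith
  have h0 := norm_nonneg om
  nlinarith

/-- the quadratic form of the nominal coordinates -/
theorem nrm_ab (a b : ℝ) : ‖(a : ℂ) + b * rho‖ ^ 2 = a ^ 2 + b ^ 2 - 2 / 7 * (a * b) := by
  have h3 : Real.sqrt 3 * Real.sqrt 3 = 3 := Real.mul_self_sqrt (by norm_num)
  rw [Complex.sq_norm, Complex.normSq_apply, Complex.add_re, Complex.add_im, Complex.mul_re,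
    Complex.mul_im, Complex.ofReal_re, Complex.ofReal_im, Complex.ofReal_re, Complex.ofReal_im,
    rho_re, rho_im]
  have e : (a + (b * (-1 / 7) - 0 * (4 * Real.sqrt 3 / 7))) *
      (a + (b * (-1 / 7) - 0 * (4 * Real.sqrt 3 / 7))) +
      (0 + (b * (4 * Real.sqrt 3 / 7) + 0 * (-1 / 7))) *
      (0 + (b * (4 * Real.sqrt 3 / 7) + 0 * (-1 / 7))) =
      a ^ 2 - 2 / 7 * (a * b) + b ^ 2 * (1 / 49) + b ^ 2 * (16 / 49) *
        (Real.sqrt 3 * Real.sqrt 3) := by ring
  rw [e, h3]
  ring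

theorem rho_nrm : ‖rho‖ = 1 := by
  have h := nrm_ab 0 1
  have h0 := norm_nonneg rho
  simp only [Complex.ofReal_zero, Complex.ofReal_one, one_mul, zero_add] at h
  nlinarith

/-- rough numerical bounds -/
theorem sqrt3_bd : (1.732 : ℝ) < Real.sqrt 3 ∧ Real.sqrt 3 < 1.7321 := by
  constructor
  · rw [Real.lt_sqrt (by norm_num)]; norm_num
  · rw [Real.sqrt_lt' (by norm_num)]; norm_num

end Pool.Agent.PLN
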