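import Pool.Agent.PLN.Po2
import Pool.Agent.PLN.Cx1

/-!
# Deviation from the nominal positions

`ps i j - (i + j rho)` is the sum of the `s (sig a) - 1` over `a < i`, of
`rho * (s (sig a) - 1)` over `a < j`, and of the corrections.  The lines `a < off 1` have the
signal `0` and `s 0 = 1`, so they do not contribute; there are
`NN - off 1 ≤ 2 m (W + 1) + 13 E` other lines, each contributing at most `δ`.  Every correction is a
sum of at most `12` differences `s _ - s _` of modulus at most `2 δ`.  Total: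
`(2 (2 m (W+1) + 13 E) + 24 E) δ ≤ N1 δ`.
-/

namespace Pool.Agent.PLN

namespace UV

variable {I : UV} {κ : ℕ} {s : ℕ → ℂ}

private lemma po4_NN (hI : I.Ok) :
    I.NN κ - I.off κ 1 ≤ 2 * (I.m * (I.W + 1)) + 13 * I.E := by
  have hm := hI.m2
  unfold NN X1 X0 off
  rw [if_neg (by omega), if_neg one_ne_zero]
  have h2 : 1 * (I.W + 1) ≤ I.m * (I.W + 1) := Nat.mul_le_mul_right _ (by omega)
  omega

private lemma po4_sig (hI : I.Ok) (h0 : s 0 = 1) {δ : ℝ} (hδ : ∀ j < I.m, ‖s j - 1‖ ≤ δ)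
    {f : ℕ → ℕ} (hf : ∀ x, f x < I.m) {a : ℕ} (ha : a < I.NN κ) :
    ‖s (I.sig κ f a) - 1‖ ≤ if a < I.off κ 1 then 0 else δ := by
  split_ifs with h
  · rw [sig_Z h, h0, sub_self, norm_zero]
  · exact hδ _ (sig_lt hI hf ha)

private lemma po4_sum (hI : I.Ok) (h0 : s 0 = 1) {δ : ℝ} (hδ : ∀ j < I.m, ‖s j - 1‖ ≤ δ)
    {f : ℕ → ℕ} (hf : ∀ x, f x < I.m) {i : ℕ} (hi : i ≤ I.NN κ) :
    ‖∑ a ∈ Finset.range i, s (I.sig κ f a) - i‖ ≤ (2 * (I.m * (I.W + 1)) + 13 * I.E : ℕ) * δ := by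
  have hδ0 : 0 ≤ δ := (norm_nonneg _).trans (hδ 0 (by have := hI.m2; omega))
  have h1 : ∑ a ∈ Finset.range i, s (I.sig κ f a) - i =
      ∑ a ∈ Finset.range i, (s (I.sig κ f a) - 1) := by
    rw [Finset.sum_sub_distrib]
    simp
  rw [h1]
  calc ‖∑ a ∈ Finset.range i, (s (I.sig κ f a) - 1)‖
      ≤ ∑ a ∈ Finset.range i, ‖s (I.sig κ f a) - 1‖ := norm_sum_le _ _
    _ ≤ ∑ a ∈ Finset.range i, (if a < I.off κ 1 then 0 else δ) := by
        refine Finset.sum_le_sum fun a ha => ?_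
        rw [Finset.mem_range] at ha
        exact po4_sig hI h0 hδ hf (by omega)
    _ ≤ ∑ a ∈ Finset.range (I.NN κ), (if a < I.off κ 1 then 0 else δ) := by
        refine Finset.sum_le_sum_of_subset_of_nonneg ?_ ?_
        · exact Finset.range_subset_range.2 hi
        · intro a _ _
          split_ifs
          · exact le_rfl
          · exact hδ0
    _ = ((I.NN κ - I.off κ 1 : ℕ) : ℝ) * δ := by
        rw [← Finset.sum_filter_add_sum_filter_not (Finset.range (I.NN κ))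
          (fun a => a < I.off κ 1)]
        rw [Finset.sum_congr rfl (g := fun _ => (0 : ℝ)) (fun a ha => if_pos (Finset.mem_filter.1 ha).2),
          Finset.sum_congr rfl (g := fun _ => δ) (fun a ha => if_neg (Finset.mem_filter.1 ha).2),
          Finset.sum_const_zero, zero_add, Finset.sum_const, nsmul_eq_mul]
        congr 2
        have h2 : (Finset.range (I.NN κ)).filter (fun a => ¬ a < I.off κ 1) =
            Finset.Ico (I.off κ 1) (I.NN κ) := by
          ext a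
          simp only [Finset.mem_filter, Finset.mem_range, Finset.mem_Ico]
          omega
        rw [h2, Nat.card_Ico]
    _ ≤ (2 * (I.m * (I.W + 1)) + 13 * I.E : ℕ) * δ := by
        refine mul_le_mul_of_nonneg_right ?_ hδ0
        exact_mod_cast po4_NN hI

private lemma po4_diff (hI : I.Ok) {δ : ℝ} (hδ : ∀ j < I.m, ‖s j - 1‖ ≤ δ)
    {f g : ℕ → ℕ} (hf : ∀ x, f x < I.m) (hg : ∀ x, g x < I.m) {e : ℕ} (he : e < I.E) (n : ℕ) :
    ‖∑ k ∈ Finset.range (min n 12), (s (I.sig κ f (I.X0 κ + 13 * e + k)) -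
      s (I.sig κ g (I.X0 κ + 13 * e + k)))‖ ≤ 24 * δ := by
  have hδ0 : 0 ≤ δ := (norm_nonneg _).trans (hδ 0 (by have := hI.m2; omega))
  have hb : ∀ k ∈ Finset.range (min n 12), ‖s (I.sig κ f (I.X0 κ + 13 * e + k)) -
      s (I.sig κ g (I.X0 κ + 13 * e + k))‖ ≤ 2 * δ := by
    intro k hk
    rw [Finset.mem_range] at hk
    have hlt : I.X0 κ + 13 * e + k < I.NN κ := by
      unfold NN X1
      omega
    have h1 := hδ _ (sig_lt (κ := κ) hI hf hlt)
    have h2 := hδ _ (sig_lt (κ := κ) hI hg hlt)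
    calc ‖s (I.sig κ f (I.X0 κ + 13 * e + k)) - s (I.sig κ g (I.X0 κ + 13 * e + k))‖
        = ‖(s (I.sig κ f (I.X0 κ + 13 * e + k)) - 1) -
          (s (I.sig κ g (I.X0 κ + 13 * e + k)) - 1)‖ := by congr 1; ring
      _ ≤ _ := norm_sub_le _ _
      _ ≤ 2 * δ := by linarith
  have h3 := norm_sum_le_of_le _ hb
  refine h3.trans ?_
  rw [Finset.sum_const, Finset.card_range, nsmul_eq_mul]
  have h4 : ((min n 12 : ℕ) : ℝ) ≤ 12 := by exact_mod_cast min_le_right n 12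
  nlinarith

private lemma po4_cor (hI : I.Ok) {δ : ℝ} (hδ : ∀ j < I.m, ‖s j - 1‖ ≤ δ) {e : ℕ}
    (he : e < I.E) (i j : ℕ) : ‖I.cor κ s e i j‖ ≤ 24 * δ := by
  have hδ0 : 0 ≤ δ := (norm_nonneg _).trans (hδ 0 (by have := hI.m2; omega))
  unfold cor
  split_ifs
  · exact po4_diff hI hδ (tp_lt hI) (bt_lt hI) he _
  · rw [norm_mul, rho_nrm, one_mul]
    exact po4_diff hI hδ (rg_lt hI) (lf_lt hI) he _
  · rw [norm_zero]
    positivity

theorem ps_dev (hI : I.Ok) (h0 : s 0 = 1) {δ : ℝ} (hδ : ∀ j < I.m, ‖s j - 1‖ ≤ δ)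
    (hN : I.N1 * δ ≤ 1 / 40) {i j : ℕ} (hi : i ≤ I.NN κ) (hj : j ≤ I.NN κ) :
    ‖I.ps κ s i j - (i + j * rho)‖ ≤ 1 / 40 := by
  have hδ0 : 0 ≤ δ := (norm_nonneg _).trans (hδ 0 (by have := hI.m2; omega))
  have h1 := po4_sum (κ := κ) hI h0 hδ (bt_lt hI) hi
  have h2 := po4_sum (κ := κ) hI h0 hδ (lf_lt hI) hj
  have h3 : ‖∑ e ∈ Finset.range I.E, I.cor κ s e i j‖ ≤ I.E * (24 * δ) := by
    have h4 : ∀ e ∈ Finset.range I.E, ‖I.cor κ s e i j‖ ≤ 24 * δ := by
      intro e he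
      exact po4_cor hI hδ (Finset.mem_range.1 he) i j
    have h5 := norm_sum_le_of_le _ h4
    rwa [Finset.sum_const, Finset.card_range, nsmul_eq_mul] at h5
  have h6 : I.ps κ s i j - (i + j * rho) =
      (∑ a ∈ Finset.range i, s (I.sig κ I.bt a) - i) +
      rho * (∑ a ∈ Finset.range j, s (I.sig κ I.lf a) - j) +
      ∑ e ∈ Finset.range I.E, I.cor κ s e i j := by
    unfold ps
    ring
  rw [h6]
  have h7 : ‖rho * (∑ a ∈ Finset.range j, s (I.sig κ I.lf a) - j)‖ =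
      ‖∑ a ∈ Finset.range j, s (I.sig κ I.lf a) - j‖ := by
    rw [norm_mul, rho_nrm, one_mul]
  have h8 := norm_add₃_le (a := (∑ a ∈ Finset.range i, s (I.sig κ I.bt a) - (i : ℂ)))
    (b := rho * (∑ a ∈ Finset.range j, s (I.sig κ I.lf a) - j))
    (c := ∑ e ∈ Finset.range I.E, I.cor κ s e i j)
  rw [h7] at h8
  refine h8.trans (le_trans ?_ hN)
  have h9 : ((I.N1 : ℕ) : ℝ) * δ = (4 * (I.m * (I.W + 1)) + 50 * I.E + 25) * δ := by
    unfold N1
    push_cast
    ring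
  rw [h9]
  push_cast at h1 h2
  nlinarith

end UV

end Pool.Agent.PLN
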