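import Pool.Agent.PLN.Po2

/-!
# The positions at the coupling holes

Five families of vertical couplings (`mem_vbL`), `σ` is the signal of the bundle:
family 1 and 3 (rows `≤ X0`: `ps_low`), family 2 (rows `≥ X1`: `ps_upp`), family 4 (columns `≤ X0`:
`ps_lft`), family 5 (rows `≤ X0`: `ps_low`).  The signals of the columns `g, g + 1` and of the rows
`c, …, c + 6` are computed by `sig_off`, `sig_off'`, `sig_gx`.
Two families of horizontal couplings (`mem_hbL`): family 6 (columns `≤ X0`: `ps_lft`), family 7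
(columns `≥ X1`: `ps_rgt`).
-/

namespace Pool.Agent.PLN

namespace UV

variable {I : UV} {κ : ℕ} {s : ℕ → ℂ}

private theorem Po5_sum (F : ℕ → ℂ) (g k : ℕ) (v : ℂ) (h : ∀ a < k, F (g + a) = v) :
    ∑ a ∈ Finset.range (g + k), F a = ∑ a ∈ Finset.range g, F a + k * v := by
  rw [Finset.sum_range_add]
  congr 1
  rw [Finset.sum_congr rfl (fun a ha => h a (Finset.mem_range.1 ha))]
  simp

private theorem Po5_v {F H : ℕ → ℂ} {P : ℕ → ℕ → ℂ} {g c : ℕ} {v : ℂ}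
    (hP : ∀ i ≤ g + 2, P i c = ∑ a ∈ Finset.range i, F a + rho * ∑ a ∈ Finset.range c, H a)
    (hP' : ∀ i ≤ g + 2, P i (c + 7) =
      ∑ a ∈ Finset.range i, F a + rho * ∑ a ∈ Finset.range (c + 7), H a)
    (hF : ∀ a < 2, F (g + a) = v) (hH : ∀ a < 7, H (c + a) = v) (k : ℕ) (hk : k ≤ 2) :
    P (g + k) c = P g c + k * v ∧ P (g + k) (c + 7) = P g c + (k + 7 * rho) * v := by
  have h1 := Po5_sum F g k v (fun a ha => hF a (by omega))
  have h2 := Po5_sum H c 7 v hH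
  have e1 := hP (g + k) (by omega)
  have e2 := hP' (g + k) (by omega)
  have e3 := hP g (by omega)
  rw [h1] at e1 e2
  rw [h2] at e2
  constructor
  · rw [e1, e3]; ring
  · rw [e2, e3]; push_cast; ring

private theorem Po5_h {F H : ℕ → ℂ} {P : ℕ → ℕ → ℂ} {g c : ℕ} {v : ℂ}
    (hP : ∀ j, P c j = ∑ a ∈ Finset.range c, F a + rho * ∑ a ∈ Finset.range j, H a)
    (hP' : ∀ j, P (c + 7) j =
      ∑ a ∈ Finset.range (c + 7), F a + rho * ∑ a ∈ Finset.range j, H a)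
    (hF : ∀ a < 7, F (c + a) = v) (hH : ∀ a < 2, H (g + a) = v) (k : ℕ) (hk : k ≤ 2) :
    P c (g + k) = P c g + k * rho * v ∧ P (c + 7) (g + k) = P c g + (7 + k * rho) * v := by
  have h1 := Po5_sum H g k v (fun a ha => hH a (by omega))
  have h2 := Po5_sum F c 7 v hF
  have e1 := hP (g + k)
  have e2 := hP' (g + k)
  have e3 := hP g
  rw [h1] at e1 e2
  rw [h2] at e2
  constructor
  · rw [e1, e3]; ring
  · rw [e2, e3]; push_cast; ring

private theorem Po5_off (hI : I.Ok) (f : ℕ → ℕ) {j n : ℕ} (hj : j < I.m) {b : ℕ}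
    (hb : n + b ≤ I.W) : ∀ a < b, s (I.sig κ f (I.off κ j + n + a)) = s j := by
  intro a ha
  rw [Nat.add_assoc, sig_off hI hj (by omega)]

private theorem Po5_off' (hI : I.Ok) (f : ℕ → ℕ) {j n : ℕ} {b : ℕ}
    (hb : n + b ≤ I.W) : ∀ a < b, s (I.sig κ f (I.off' κ j + n + a)) = s j := by
  intro a ha
  rw [Nat.add_assoc, sig_off' hI (by omega)]

private theorem Po5_gx (hI : I.Ok) (f : ℕ → ℕ) {x : ℕ} (hx : x < I.G) :
    ∀ a < 2, s (I.sig κ f (I.gx κ x + a)) = s (f x) := by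
  intro a ha
  rw [sig_gx hI hx ha]

theorem ps_vb (hI : I.Ok) (hs : I.Sol s) {g c : ℕ} (h : (g, c) ∈ (I.lay κ).vb) :
    ∃ j < I.m, ∀ k : ℕ, k ≤ 2 → I.ps κ s (g + k) c = I.ps κ s g c + k * s j ∧
      I.ps κ s (g + k) (c + 7) = I.ps κ s g c + (k + 7 * rho) * s j := by
  have hW := W_eq (I := I)
  rcases mem_vbL.1 h with ⟨x, hx, rfl, rfl⟩ | ⟨x, hx, rfl, rfl⟩ | ⟨j, hj, rfl, rfl⟩ |
    ⟨j, hj, rfl, rfl⟩ | ⟨j, hj, rfl, rfl⟩
  · have hj := bt_lt hI x
    have h0 := off_X0 (κ := κ) hj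
    refine ⟨I.bt x, hj, Po5_v (F := fun a => s (I.sig κ I.bt a)) (H := fun a => s (I.sig κ I.lf a))
      (fun i _ => ps_low (by omega)) (fun i _ => ps_low (by omega)) (Po5_gx hI _ hx) ?_⟩
    exact Po5_off hI (I.lf) (n := 8 * x + 1) hj (by omega)
  · have hj := tp_lt hI x
    have h0 := off'_X1 (I := I) (κ := κ) (I.tp x)
    refine ⟨I.tp x, hj, Po5_v (F := fun a => s (I.sig κ I.tp a)) (H := fun a => s (I.sig κ I.lf a))
      (fun i _ => ps_upp (by omega)) (fun i _ => ps_upp (by omega)) (Po5_gx hI _ hx) ?_⟩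
    exact Po5_off' hI (I.lf) (n := 8 * x + 1) (by omega)
  · have h0 := off_X0 (κ := κ) hj
    refine ⟨j, hj, Po5_v (F := fun a => s (I.sig κ I.bt a)) (H := fun a => s (I.sig κ I.lf a))
      (fun i _ => ps_low (by omega)) (fun i _ => ps_low (by omega)) ?_ ?_⟩
    · exact Po5_off hI (I.bt) (n := 8 * I.G + 2) hj (by omega)
    · exact Po5_off hI (I.lf) (n := 8 * I.G + 1) hj (by omega)
  · have h0 := off_X0 (κ := κ) hj
    refine ⟨j, hj, Po5_v (F := fun a => s (I.sig κ I.bt a)) (H := fun a => s (I.sig κ I.lf a))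
      (fun i _ => ps_lft (by omega)) (fun i _ => ps_lft (by omega)) ?_ ?_⟩
    · exact Po5_off hI (I.bt) (n := 8 * I.G + 10) hj (by omega)
    · exact Po5_off' hI (I.lf) (n := 8 * I.G + 1) (by omega)
  · have h0 := off_X0 (κ := κ) hj
    refine ⟨j, hj, Po5_v (F := fun a => s (I.sig κ I.bt a)) (H := fun a => s (I.sig κ I.lf a))
      (fun i _ => ps_low (by omega)) (fun i _ => ps_low (by omega)) ?_ ?_⟩
    · exact Po5_off' hI (I.bt) (n := 8 * I.G + 2) (by omega)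
    · exact Po5_off hI (I.lf) (n := 8 * I.G + 9) hj (by omega)

theorem ps_hb (hI : I.Ok) (hs : I.Sol s) {g c : ℕ} (h : (g, c) ∈ (I.lay κ).hb) :
    ∃ j < I.m, ∀ k : ℕ, k ≤ 2 → I.ps κ s c (g + k) = I.ps κ s c g + k * rho * s j ∧
      I.ps κ s (c + 7) (g + k) = I.ps κ s c g + (7 + k * rho) * s j := by
  have hW := W_eq (I := I)
  rcases mem_hbL.1 h with ⟨x, hx, rfl, rfl⟩ | ⟨x, hx, rfl, rfl⟩
  · have hj := lf_lt hI x
    have h0 := off_X0 (κ := κ) hj
    refine ⟨I.lf x, hj, Po5_h (F := fun a => s (I.sig κ I.bt a)) (H := fun a => s (I.sig κ I.lf a))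
      (fun i => ps_lft (by omega)) (fun i => ps_lft (by omega)) ?_ (Po5_gx hI _ hx)⟩
    exact Po5_off hI (I.bt) (n := 8 * x + 1) hj (by omega)
  · have hj := rg_lt hI x
    have h0 := off'_X1 (I := I) (κ := κ) (I.rg x)
    refine ⟨I.rg x, hj, Po5_h (F := fun a => s (I.sig κ I.bt a)) (H := fun a => s (I.sig κ I.rg a))
      (fun i => ps_rgt hI hs (by omega)) (fun i => ps_rgt hI hs (by omega)) ?_ (Po5_gx hI _ hx)⟩
    exact Po5_off' hI (I.bt) (n := 8 * x + 1) (by omega)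

end UV

end Pool.Agent.PLN
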