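import Pool.Agent.PLN.Po3
import Pool.Agent.PLN.Po4
import Pool.Agent.PLN.Po5
import Pool.Agent.PLN.Cx1

/-!
# The data for the realisation

`δ ≤ 1/1000` because `25 ≤ N1`.  Ties: `hs ps i 0 = s (sig bt i)` (`ps_low`),
`hs ps i N = s (sig tp i)` (`ps_upp`), `vs ps 0 i = rho s (sig lf i)` (`ps_lft`),
`vs ps N i = rho s (sig rg i)` (`ps_rgt`); `sig_lt`, `sig_tb`, `sig_tt`.  Lever: for
`off 1 ≤ i < off 1 + 10` the signal is `1` (`sig_off`, as `W ≥ 16`); `b1 - T = κ`.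
-/

namespace Pool.Agent.PLN

namespace UV

variable {I : UV} {κ : ℕ} {s : ℕ → ℂ}

private theorem Po6_sum {f : ℕ → ℂ} (a k : ℕ) {u : ℂ} (h : ∀ l < k, f (a + l) = u) :
    ∑ x ∈ Finset.range (a + k), f x = ∑ x ∈ Finset.range a, f x + (k : ℂ) * u := by
  rw [Finset.sum_range_add]
  congr 1
  rw [Finset.sum_congr rfl (fun l hl => h l (Finset.mem_range.1 hl)), Finset.sum_const,
    Finset.card_range, nsmul_eq_mul]

/-- signals at the ties -/
private theorem Po6_tb (hI : I.Ok) {i : ℕ} (h : i ∈ (I.lay κ).tb) (f : ℕ → ℕ) :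
    I.sig κ f i < I.m := by
  obtain ⟨j, hj, k, hk, hi | hi⟩ := mem_tb.1 h
  · rw [hi, sig_off hI hj hk]; exact hj
  · rw [hi, sig_off' hI hk]; exact hj

private theorem Po6_tt (hI : I.Ok) {i : ℕ} (h : i ∈ (I.lay κ).tt) (f : ℕ → ℕ) :
    I.sig κ f i < I.m := by
  rcases mem_tt.1 h with h | ⟨k, hk, hi⟩
  · exact Po6_tb hI h f
  · have h1 : i < I.off κ 1 := by rw [off_one]; omega
    rw [sig_Z h1]
    have := hI.m2
    omega

private theorem Po6_hb (i : ℕ) : Pool.Agent.PLN.hs (I.ps κ s) i 0 = s (I.sig κ I.bt i) := by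
  unfold Pool.Agent.PLN.hs
  rw [ps_low (Nat.zero_le _), ps_low (Nat.zero_le _), Finset.sum_range_succ]
  ring

private theorem Po6_ht (i : ℕ) : Pool.Agent.PLN.hs (I.ps κ s) i (I.NN κ) = s (I.sig κ I.tp i) := by
  have h1 : I.X1 κ ≤ I.NN κ := Nat.le_add_right _ _
  unfold Pool.Agent.PLN.hs
  rw [ps_upp h1, ps_upp h1, Finset.sum_range_succ]
  ring

private theorem Po6_vl (i : ℕ) : vs (I.ps κ s) 0 i = rho * s (I.sig κ I.lf i) := by
  unfold vs
  rw [ps_lft (Nat.zero_le _), ps_lft (Nat.zero_le _), Finset.sum_range_succ _ i]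
  ring

private theorem Po6_vr (hI : I.Ok) (hs : I.Sol s) (i : ℕ) :
    vs (I.ps κ s) (I.NN κ) i = rho * s (I.sig κ I.rg i) := by
  have h1 : I.X1 κ ≤ I.NN κ := Nat.le_add_right _ _
  unfold vs
  rw [ps_rgt hI hs h1, ps_rgt hI hs h1, Finset.sum_range_succ _ i]
  ring

theorem PosD_of_sol (hI : I.Ok) (hκ : 2 ≤ κ) (hs : I.Sol s) (h0 : s 0 = 1) {δ : ℝ}
    (hδ : ∀ j < I.m, ‖s j - 1‖ ≤ δ) (hN : I.N1 * δ ≤ 1 / 40)
    (hu : 6 / 5 ≤ (κ : ℝ) * (s 1).im) : PosD (I.lay κ) (I.ps κ s) (s 1) := by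
  have hm := hI.m2
  have hδ0 : 0 ≤ δ := (norm_nonneg _).trans (hδ 0 (by omega))
  have hδ1 : δ ≤ 1 / 1000 := by
    have h1 : (25 : ℝ) ≤ (I.N1 : ℝ) := by
      have : 25 ≤ I.N1 := by unfold N1; omega
      exact_mod_cast this
    nlinarith
  have hδ' : ∀ j < I.m, ‖s j - 1‖ ≤ 1 / 1000 := fun j hj => (hδ j hj).trans hδ1
  have hNN : (I.lay κ).N = I.NN κ := rfl
  have hrho : ∀ j < I.m, ‖rho * s j - rho‖ ≤ 1 / 1000 := by
    intro j hj
    have h1 : rho * s j - rho = rho * (s j - 1) := by ring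
    rw [h1, norm_mul, rho_nrm, one_mul]
    exact hδ' j hj
  refine
    { hu := fun i j h1 h2 => ps_hu hI hs h1 h2
      vu := fun i j h1 h2 => ps_vu hI hs h1 h2
      vbd := ?_
      hbd := ?_
      dr := fun i j hi hj _ => ps_dev hI h0 hδ hN hi hj
      tieB := ?_
      tieL := ?_
      tieT := ?_
      tieR := ?_
      unrm := hs.nrm 1 (by omega)
      uim := ?_
      ure := hδ' 1 (by omega)
      levB := ?_ }
  · intro g c h
    obtain ⟨j, hj, h1⟩ := ps_vb hI hs h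
    exact ⟨s j, hs.nrm j hj, hδ' j hj, h1⟩
  · intro g c h
    obtain ⟨j, hj, h1⟩ := ps_hb hI hs h
    exact ⟨s j, hs.nrm j hj, hδ' j hj, h1⟩
  · intro i hi
    rw [Po6_hb]
    refine ⟨hδ' _ (Po6_tb hI hi _), fun hi' => ?_⟩
    rw [Po6_hb, sig_tb hI hi hi']
  · intro i hi
    rw [Po6_vl]
    refine ⟨hrho _ (Po6_tb hI hi _), fun hi' => ?_⟩
    rw [Po6_vl, sig_tb hI hi hi']
  · intro i hi
    rw [hNN, Po6_ht]
    refine ⟨hδ' _ (Po6_tt hI hi _), fun hi' => ?_⟩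
    rw [Po6_ht, sig_tt hI hi hi']
  · intro i hi
    rw [hNN, Po6_vr hI hs]
    refine ⟨hrho _ (Po6_tt hI hi _), fun hi' => ?_⟩
    rw [Po6_vr hI hs, sig_tt hI hi hi']
  · have h1 : (I.lay κ).b1 = I.off κ 1 := rfl
    have h2 : (I.lay κ).T = I.W + 11 := rfl
    rw [h1, h2, off_one]
    push_cast
    have h3 : (I.W : ℝ) + κ + 11 - (I.W + 11) = κ := by ring
    rw [h3]
    exact hu
  · intro i hi h1 h2
    have h3 : (I.lay κ).b1 = I.off κ 1 := rfl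
    rw [h3] at h1 h2 ⊢
    obtain ⟨k, rfl⟩ : ∃ k, i = I.off κ 1 + k := ⟨i - I.off κ 1, by omega⟩
    have hW := W_eq (I := I)
    have h4 : ∀ l, l ≤ k → s (I.sig κ I.bt (I.off κ 1 + l)) = s 1 := by
      intro l hl
      rw [sig_off hI (by omega) (by omega)]
    refine ⟨?_, ?_⟩
    · rw [ps_low (Nat.zero_le _), ps_low (Nat.zero_le _),
        Po6_sum (f := fun a => s (I.sig κ I.bt a)) (I.off κ 1) k (fun l hl => h4 l hl.le)]
      push_cast
      ring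
    · rw [Po6_hb]
      exact h4 k le_rfl

end UV

end Pool.Agent.PLN
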