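import Pool.Agent.PLN.Re11

/-!
# The lever and the ties at the bottom; two lever vertices

Two lever vertices: `(8 x + 3 y, -7 y)` and `(8 x' + 3 y', - 7 y')`: the difference of the positions
is `u * (a + b rho) / 8` with `a = 8 X + 3 Y`, `b = - 7 Y` (`X = x - x'`, `Y = y - y'`), and
`qf a b = 448 (X² + X Y + Y²) ≥ 448` unless `X = Y = 0`; `rigid_nrm`, `rigid_one`, `arc_qd`.
A lever vertex and the tie `i ∈ tb`: by `gap`, `i + 5 < T` or `b1 ≤ i`.
* `i + 5 < T`: the tie has real part `≤ i + 3/8 + 7/56 + 1/20 < T - 4` (the nominal real part is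
  `i + 3/8 - (7/8) rho.re = i + 1/2`), the lever vertex `≥ T - 2` (`lev_re`).
* `b1 ≤ i < b1 + 10`: by `levB` the tie is at `P b1 0 + u * ((8 (i - b1) + 3) - 7 rho) / 8`, so the
  two vertices are in the same rigid body: as in the case of two lever vertices (the tie is the point
  `x = i`, `y = 1`; it is not a lever vertex: the lever vertices with `y = 1` have
  `x ≤ T < b1`).  `unit_EB`: adjacent only if the difference is one of the unit vectors (`adj_diff`).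
* `i ≥ b1 + 10`: the tie has real part `≥ i`, the lever vertex `≤ b1 + 3`.
-/

namespace Pool.Agent.PLN

variable {L : Lay} {P : ℕ → ℕ → ℂ} {u : ℂ}

/-- difference of two points of the rigid body of the lever -/
theorem Re12_diff {n n' : ℕ × ℕ} {z w B : ℂ} {b : ℕ}
    (hz : z = B + u * (((n.1 : ℂ) - 32 - 8 * b) + ((n.2 : ℂ) - 32) * rho) / 8)
    (hw : w = B + u * (((n'.1 : ℂ) - 32 - 8 * b) + ((n'.2 : ℂ) - 32) * rho) / 8) :
    z - w = u * ((((n.1 : ℤ) - n'.1 : ℤ) : ℂ) + (((n.2 : ℤ) - n'.2 : ℤ) : ℂ) * rho) / 8 := by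
  rw [hz, hw]
  push_cast
  ring

theorem Re12_sep (hu : ‖u‖ = 1) {n n' : ℕ × ℕ} {z w B : ℂ} {b : ℕ}
    (hz : z = B + u * (((n.1 : ℂ) - 32 - 8 * b) + ((n.2 : ℂ) - 32) * rho) / 8)
    (hw : w = B + u * (((n'.1 : ℂ) - 32 - 8 * b) + ((n'.2 : ℂ) - 32) * rho) / 8)
    {x y x' y' : ℤ} (h1 : (n.1 : ℤ) = 8 * x + 3 * y + 32) (h2 : (n.2 : ℤ) = 32 - 7 * y)
    (h1' : (n'.1 : ℤ) = 8 * x' + 3 * y' + 32) (h2' : (n'.2 : ℤ) = 32 - 7 * y')
    (hn : n ≠ n') : 1 ≤ ‖z - w‖ := by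
  have hxy : ¬ (x - x' = 0 ∧ y - y' = 0) := by
    rintro ⟨ha, hb⟩
    apply hn
    apply Prod.ext
    · have : (n.1 : ℤ) = n'.1 := by rw [h1, h1']; linarith
      exact_mod_cast this
    · have : (n.2 : ℤ) = n'.2 := by rw [h2, h2']; linarith
      exact_mod_cast this
  have hq : qf ((n.1 : ℤ) - n'.1) ((n.2 : ℤ) - n'.2) =
      448 * ((x - x') ^ 2 + (x - x') * (y - y') + (y - y') ^ 2) := by
    rw [h1, h2, h1', h2']
    unfold qf
    ring
  have hpos : 1 ≤ (x - x') ^ 2 + (x - x') * (y - y') + (y - y') ^ 2 := by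
    generalize x - x' = X at *
    generalize y - y' = Y at *
    by_contra hcon
    have h0 : X ^ 2 + X * Y + Y ^ 2 ≤ 0 := by omega
    have h3 : 0 ≤ (2 * X + Y) ^ 2 := sq_nonneg _
    have h4 : 0 ≤ (X + 2 * Y) ^ 2 := sq_nonneg _
    have h5 : Y ^ 2 ≤ 0 := by nlinarith
    have h6 : X ^ 2 ≤ 0 := by nlinarith
    exact hxy ⟨pow_eq_zero_iff (two_ne_zero) |>.mp (le_antisymm h6 (sq_nonneg X)),
      pow_eq_zero_iff (two_ne_zero) |>.mp (le_antisymm h5 (sq_nonneg Y))⟩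
  have h3 := rigid_nrm hu ((n.1 : ℤ) - n'.1) ((n.2 : ℤ) - n'.2)
  rw [← Re12_diff hz hw, hq] at h3
  have h4 : (1 : ℝ) ≤ (((x - x') ^ 2 + (x - x') * (y - y') + (y - y') ^ 2 : ℤ) : ℝ) := by
    exact_mod_cast hpos
  have h5 : 1 ≤ ‖z - w‖ ^ 2 := by
    rw [h3]
    push_cast at h4 ⊢
    linarith
  by_contra hcon
  push Not at hcon
  have h6 : ‖z - w‖ ^ 2 < 1 := by
    rw [sq]
    calc ‖z - w‖ * ‖z - w‖ ≤ 1 * ‖z - w‖ :=
          mul_le_mul_of_nonneg_right hcon.le (norm_nonneg _)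
      _ < 1 := by rw [one_mul]; exact hcon
  linarith

theorem Re12_unit (hu : ‖u‖ = 1) {n n' : ℕ × ℕ} {z w B : ℂ} {b : ℕ}
    (hz : z = B + u * (((n.1 : ℂ) - 32 - 8 * b) + ((n.2 : ℂ) - 32) * rho) / 8)
    (hw : w = B + u * (((n'.1 : ℂ) - 32 - 8 * b) + ((n'.2 : ℂ) - 32) * rho) / 8)
    (ha : (arc n n' || arc n' n) = true) : ‖z - w‖ = 1 := by
  rw [Re12_diff hz hw]
  exact rigid_one hu (arc_qd ha)

/-- the coordinates in the triangular lattice -/
theorem Re12_lev (hL : L.Good) {n : ℕ × ℕ} (h : ((true, n) : Nm) ∈ L.lev) :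
    ∃ x y : ℤ, (n.1 : ℤ) = 8 * x + 3 * y + 32 ∧ (n.2 : ℤ) = 32 - 7 * y ∧
      (y = 1 → x ≤ L.T) ∧ (n.2 = 18 → (L.T : ℤ) - 1 ≤ x ∧ x ≤ L.b1) := by
  have hT2 := hL.T2
  rw [mem_lev hL.T2 hL.Tb] at h
  rcases h with ⟨x, hx1, hx2, hn⟩ | ⟨x, hx1, hx2, hn⟩ | hn | hn | hn
  · have hn' : n = (8 * x + 38, 18) := by simpa using hn
    subst hn'
    refine ⟨x, 2, ?_, ?_, ?_, ?_⟩
    · push_cast; ring
    · norm_num
    · intro h; norm_num at h
    · intro _
      constructor <;> omega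
  · have hn' : n = (8 * x + 41, 11) := by simpa using hn
    subst hn'
    refine ⟨x, 3, ?_, ?_, ?_, ?_⟩
    · push_cast; ring
    · norm_num
    · intro h; norm_num at h
    · intro h; norm_num at h
  · have hn' : n = (8 * L.T + 35, 25) := by simpa using hn
    subst hn'
    refine ⟨L.T, 1, ?_, ?_, ?_, ?_⟩
    · push_cast; ring
    · norm_num
    · intro _; exact le_rfl
    · intro h; norm_num at h
  · have hn' : n = (8 * L.T + 27, 25) := by simpa using hn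
    subst hn'
    refine ⟨(L.T : ℤ) - 1, 1, ?_, ?_, ?_, ?_⟩
    · push_cast; ring
    · norm_num
    · intro _; omega
    · intro h; norm_num at h
  · have hn' : n = (8 * L.T + 32, 32) := by simpa using hn
    subst hn'
    refine ⟨L.T, 0, ?_, ?_, ?_, ?_⟩
    · push_cast; ring
    · norm_num
    · intro _; exact le_rfl
    · intro h; norm_num at h

theorem sep_EE (hL : L.Good) (hP : PosD L P u) {n n' : ℕ × ℕ} {z w : ℂ} (h : PsE L P u n z)
    (h' : PsE L P u n' w) (hn : n ≠ n') : 1 ≤ ‖z - w‖ := by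
  obtain ⟨x, y, h1, h2, -, -⟩ := Re12_lev hL h.1
  obtain ⟨x', y', h1', h2', -, -⟩ := Re12_lev hL h'.1
  exact Re12_sep hP.unrm h.2 h'.2 h1 h2 h1' h2' hn

theorem unit_EE (hP : PosD L P u) {n n' : ℕ × ℕ} {z w : ℂ} (h : PsE L P u n z)
    (h' : PsE L P u n' w) (ha : (arc n n' || arc n' n) = true) : ‖z - w‖ = 1 :=
  Re12_unit hP.unrm h.2 h'.2 ha

/-- the ties near the base of the lever belong to the same rigid body -/
theorem Re12_tie (hP : PosD L P u) {i : ℕ} (hi : i ∈ L.tb) (h1 : L.b1 ≤ i) (h2 : i < L.b1 + 10)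
    {n' : ℕ × ℕ} (hn' : n' = (8 * i + 35, 25)) {w : ℂ}
    (hw : w = P i 0 + hs P i 0 * (3 - 7 * rho) / 8) :
    w = P L.b1 0 + u * (((n'.1 : ℂ) - 32 - 8 * L.b1) + ((n'.2 : ℂ) - 32) * rho) / 8 := by
  obtain ⟨h3, h4⟩ := hP.levB i hi h1 h2
  rw [hw, h3, h4, hn']
  push_cast
  ring

theorem Re12_tie_re (hL : L.Good) (hP : PosD L P u) {n' : ℕ × ℕ} {w : ℂ} {i : ℕ}
    (h' : PsB L P n' w) (hn' : n' = (8 * i + 35, 25)) :
    (i : ℝ) + 1 / 2 - 1 / 20 ≤ w.re ∧ w.re ≤ i + 1 / 2 + 1 / 20 := by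
  have h1 := ps_nom hL.toGoodN hP (Or.inr (Or.inr (Or.inr (Or.inl h'))) : PsN L P n' w)
  have h2 := abs_le.mp ((Complex.abs_re_le_norm (w - nomC n')).trans h1)
  have h3 : (nomC n').re = (i : ℝ) + 1 / 2 := by
    have h6 : nomC n' = ((((8 * (i : ℝ) + 3) / 8 : ℝ)) : ℂ) + (((-7 / 8 : ℝ)) : ℂ) * rho := by
      rw [hn']
      unfold nomC
      push_cast
      ring
    rw [h6, Complex.add_re, Complex.ofReal_re, Complex.re_ofReal_mul, rho_re]
    ring
  rw [Complex.sub_re, h3] at h2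
  constructor <;> linarith [h2.1, h2.2]

theorem Re12_re {z w : ℂ} (h : 1 ≤ |z.re - w.re|) : 1 ≤ ‖z - w‖ := by
  have h1 := Complex.abs_re_le_norm (z - w)
  rw [Complex.sub_re] at h1
  linarith

theorem sep_EB (hL : L.Good) (hP : PosD L P u) {n n' : ℕ × ℕ} {z w : ℂ} (h : PsE L P u n z)
    (h' : PsB L P n' w) : 1 ≤ ‖z - w‖ := by
  have h'' := h'
  obtain ⟨i, hi, hn', hw⟩ := h'
  obtain ⟨hr1, hr2⟩ := Re12_tie_re hL hP h'' hn'
  obtain ⟨hl1, hl2⟩ := lev_re hL hP h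
  have hTb : (L.T : ℝ) + 2 ≤ L.b1 := by exact_mod_cast hL.Tb
  rcases hL.gap i hi with hg | hg
  · have hg' : (i : ℝ) + 5 < L.T := by exact_mod_cast hg
    apply Re12_re
    refine le_trans ?_ (le_abs_self _)
    linarith
  · by_cases hg2 : i < L.b1 + 10
    · obtain ⟨x, y, h1, h2, h3, -⟩ := Re12_lev hL h.1
      have hTb' := hL.Tb
      refine Re12_sep (x' := i) (y' := 1) hP.unrm h.2 (Re12_tie hP hi hg hg2 hn' hw) h1 h2 ?_ ?_ ?_
      · rw [hn']
        push_cast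
        ring
      · rw [hn']
        norm_num
      · intro hnn
        rw [hn'] at hnn
        rw [hnn] at h1 h2
        dsimp only at h1 h2
        push_cast at h1 h2
        have hy : y = 1 := by omega
        have hx := h3 hy
        omega
    · have hg3 : (L.b1 : ℝ) + 10 ≤ i := by exact_mod_cast (not_lt.mp hg2)
      apply Re12_re
      refine le_trans ?_ (neg_le_abs _)
      linarith

theorem unit_EB (hL : L.Good) (hP : PosD L P u) {n n' : ℕ × ℕ} {z w : ℂ} (h : PsE L P u n z)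
    (h' : PsB L P n' w) (ha : adj (true, n) (false, n') = true) : ‖z - w‖ = 1 := by
  obtain ⟨i, hi, hn', hw⟩ := h'
  obtain ⟨h1, h2, h3⟩ := adj_diff ha
  have harc : (arc n n' || arc n' n) = true := by
    unfold adj at ha
    rw [Bool.and_eq_true] at ha
    exact ha.1
  obtain ⟨x, y, h4, h5, -, h6⟩ := Re12_lev hL h.1
  obtain ⟨h7, h8⟩ := h6 h1
  have hT2 := hL.T2
  have hTb := hL.Tb
  have hn1 : n'.1 = 8 * i + 35 := by rw [hn']
  have hg : L.b1 ≤ i ∧ i < L.b1 + 10 := by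
    have hg := hL.gap i hi
    omega
  exact Re12_unit hP.unrm h.2 (Re12_tie hP hi hg.1 hg.2 hn' hw) harc

end Pool.Agent.PLN
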