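import Pool.Agent.PLN.Re10
import Pool.Agent.PLN.Re12

/-!
# The realisation

Choose for every name `n` of `L.verts` a position (`psN_exists`; `PsE` for lever names) and use
`sep_NN`, `unit_NN`, `sep_EE`, `unit_EE`, `sep_EN`, `sep_EB`, `unit_EB`.  If a lever name and a
normal name are adjacent, the normal one has the second coordinate `25` (`adj_diff`), so it is a tie
at the bottom: the grid vertices and vertices of bodies have second coordinate `≥ 32`, the ties at
the left, top and right side have `8 i + 35`, `8 N + 39`, `8 i + 37`.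
-/

namespace Pool.Agent.PLN

variable {L : Lay} {P : ℕ → ℕ → ℂ} {u : ℂ}

theorem Re13_tag (hT : 2 ≤ L.T) (hb : L.T + 2 ≤ L.b1) {t : Bool} {n : ℕ × ℕ}
    (h : ((t, n) : Nm) ∈ L.verts) : (t = false → ((false, n) : Nm) ∈ L.vN) ∧
      (t = true → ((true, n) : Nm) ∈ L.lev) := by
  rw [mem_verts] at h
  constructor
  · rintro rfl
    rcases h with h | h
    · exact h
    · rw [mem_lev hT hb] at h
      simp at h
  · rintro rfl
    rcases h with h | h
    · rw [mem_vN] at h
      simp [gn] at h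
    · exact h

theorem Re13_tie {n : ℕ × ℕ} {z : ℂ} (h : PsN L P n z) (hn : n.2 = 25) : PsB L P n z := by
  rcases h with ⟨i, j, -, rfl, -⟩ | ⟨g, c, -, a, b, -, rfl, -⟩ | ⟨g, c, -, a, b, -, rfl, -⟩ | h |
    ⟨i, -, rfl, -⟩ | ⟨i, -, rfl, -⟩ | ⟨i, -, rfl, -⟩
  · exfalso
    dsimp only at hn
    omega
  · exfalso
    dsimp only at hn
    omega
  · exfalso
    dsimp only at hn
    omega
  · exact h
  · exfalso
    dsimp only at hn
    omega
  · exfalso
    dsimp only at hn
    omega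
  · exfalso
    dsimp only at hn
    omega

theorem Re13_sep_EN (hL : L.Good) (hP : PosD L P u) {n n' : ℕ × ℕ} {z w : ℂ}
    (h : PsE L P u n z) (h' : PsN L P n' w) : 1 ≤ ‖z - w‖ := by
  by_cases hb : PsB L P n' w
  · exact sep_EB hL hP h hb
  · exact sep_EN hL hP h h' hb

theorem Re13_unit_EN (hL : L.Good) (hP : PosD L P u) {n n' : ℕ × ℕ} {z w : ℂ}
    (h : PsE L P u n z) (h' : PsN L P n' w) (ha : adj (true, n) (false, n') = true) :
    ‖z - w‖ = 1 :=
  unit_EB hL hP h (Re13_tie h' (adj_diff ha).2.1) ha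

theorem real_of_PosD (hL : L.Good) (hP : PosD L P u) : ∃ p : Nm → ℂ, Real L.verts p := by
  classical
  -- a position for every name
  have hex : ∀ m : Nm, ∃ z : ℂ, (m ∈ L.verts → (m.1 = false → PsN L P m.2 z) ∧
      (m.1 = true → PsE L P u m.2 z)) := by
    rintro ⟨t, n⟩
    by_cases hm : ((t, n) : Nm) ∈ L.verts
    · obtain ⟨h1, h2⟩ := Re13_tag hL.T2 hL.Tb hm
      cases t with
      | false =>
        obtain ⟨z, hz⟩ := psN_exists (P := P) (h1 rfl)
        exact ⟨z, fun _ => ⟨fun _ => hz, fun h => by simp at h⟩⟩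
      | true =>
        exact ⟨_, fun _ => ⟨fun h => by simp at h, fun _ => ⟨h2 rfl, rfl⟩⟩⟩
    · exact ⟨0, fun h => absurd h hm⟩
  choose p hp using hex
  refine ⟨p, ?_, ?_⟩
  · rintro ⟨t, n⟩ hu ⟨t', n'⟩ hv ha
    cases t <;> cases t'
    · rw [adj_same] at ha
      exact unit_NN hL.toGoodN hP ((hp _ hu).1 rfl) ((hp _ hv).1 rfl) ha
    · rw [adj_comm] at ha
      rw [norm_sub_rev]
      exact Re13_unit_EN hL hP ((hp _ hv).2 rfl) ((hp _ hu).1 rfl) ha
    · exact Re13_unit_EN hL hP ((hp _ hu).2 rfl) ((hp _ hv).1 rfl) ha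
    · rw [adj_same] at ha
      exact unit_EE hP ((hp _ hu).2 rfl) ((hp _ hv).2 rfl) ha
  · rintro ⟨t, n⟩ hu ⟨t', n'⟩ hv hne
    cases t <;> cases t'
    · exact sep_NN hL.toGoodN hP ((hp _ hu).1 rfl) ((hp _ hv).1 rfl)
        (fun h => hne (Prod.ext rfl h))
    · rw [norm_sub_rev]
      exact Re13_sep_EN hL hP ((hp _ hv).2 rfl) ((hp _ hu).1 rfl)
    · exact Re13_sep_EN hL hP ((hp _ hu).2 rfl) ((hp _ hv).1 rfl)
    · exact sep_EE hL hP ((hp _ hu).2 rfl) ((hp _ hv).2 rfl) (fun h => hne (Prod.ext rfl h))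

end Pool.Agent.PLN
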