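import Pool.Agent.PLN.Rg
import Pool.Agent.PLN.Ly12
import Pool.Agent.PLN.Po6
import Pool.Agent.PLN.Re13
import Pool.Agent.PLN.Al3
import Pool.Agent.PLN.Al7
import Pool.Agent.PLN.Al8
import Pool.Agent.PLN.Al9
import Pool.Agent.PLN.Ba8

/-!
# A straight-line system has a solution if and only if its graph has a realisation
-/

namespace Pool.Agent.PLN

theorem N1_ge (I : UV) : 25 ≤ I.N1 := by
  unfold UV.N1; omega

theorem kap_ge (I : UV) : 100000 ≤ I.kap := by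
  have := N1_ge I
  unfold UV.kap; omega

theorem sol_of_real {S : SL} (hS : S.Ok) {p : Nm → ℂ} (hp : Real S.lay.verts p) :
    ∃ v, S.Sol v := by
  have h1 : (S.toL2 S.KK).Ok := l2_ok hS _
  have h2 : S.rs.Ok := rs_ok h1
  have h3 : S.uv.Ok := uv_ok h2
  have hk := kap_ge S.uv
  have h4 : S.lay.Good := UV.lay_good h3 (by omega)
  obtain ⟨P, hP⟩ := GD_of_real h4 hp
  obtain ⟨s, hs, hs0, ha, hs1⟩ := UV.sol_of_GD h3 (by omega : 2 ≤ S.uv.kap) hP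
  obtain ⟨x, hx, hx0⟩ := rs_of_uv h2 hs hs0 ha hs1
  exact l2_to_sl hS (rs_to_l2 hx) hx0

theorem pow_small {t : ℝ} (ht : 0 < t) (ht' : t ≤ 1 / 1024) (q : ℕ) :
    t ^ 2 ^ (q + 1) * 2 ^ 2 ^ q ≤ t / 10 := by
  obtain ⟨a, ha⟩ : ∃ a, 2 ^ q = a + 1 := ⟨2 ^ q - 1, by have := Nat.one_le_two_pow (n := q); omega⟩
  have e1 : 2 ^ (q + 1) = 1 + (2 * a + 1) := by rw [pow_succ, ha]; ring
  have h2 : t ^ (2 * a + 1) * 2 ^ (a + 1) ≤ 1 / 10 := by
    have h3 : t ^ (2 * a + 1) ≤ (1 / 1024) ^ (2 * a + 1) := pow_le_pow_left₀ ht.le ht' _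
    have h4 : (1 / 1024 : ℝ) ^ (2 * a + 1) * 2 ^ (a + 1) ≤ 1 / 10 := by
      have h5 : (1 / 1024 : ℝ) ^ (2 * a + 1) * 2 ^ (a + 1) =
          (1 / 1048576 * 2) ^ a * (1 / 512) := by
        have h7 : (1 / 1024 : ℝ) ^ (2 * a + 1) = (1 / 1048576) ^ a * (1 / 1024) := by
          rw [pow_succ, pow_mul]; norm_num
        rw [h7, pow_succ, mul_pow]
        ring
      rw [h5]
      have h6 : (1 / 1048576 * 2 : ℝ) ^ a ≤ 1 := pow_le_one₀ (by norm_num) (by norm_num)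
      nlinarith
    exact (mul_le_mul_of_nonneg_right h3 (by positivity)).trans h4
  rw [e1, ha, pow_add, pow_one, mul_assoc]
  have : t * (t ^ (2 * a + 1) * 2 ^ (a + 1)) ≤ t * (1 / 10) := mul_le_mul_of_nonneg_left h2 ht.le
  linarith

theorem real_of_sol {S : SL} (hS : S.Ok) (h : ∃ v, S.Sol v) : ∃ p : Nm → ℂ, Real S.lay.verts p := by
  have h1 : (S.toL2 S.KK).Ok := l2_ok hS _
  have h2 : S.rs.Ok := rs_ok h1
  have h3 : S.uv.Ok := uv_ok h2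
  have hk := kap_ge S.uv
  have hkR : (100000 : ℝ) ≤ (S.uv.kap : ℝ) := by exact_mod_cast hk
  have hk0 : (0 : ℝ) < (S.uv.kap : ℝ) := by linarith
  have h4 : S.lay.Good := UV.lay_good h3 (by omega)
  obtain ⟨v, hv, hb⟩ := sl_ball hS h
  obtain ⟨t, ht⟩ : ∃ t : ℝ, t = 3 / (S.uv.kap : ℝ) := ⟨_, rfl⟩
  have ht0 : 0 < t := by rw [ht]; positivity
  have htk : t * S.uv.kap = 3 := by rw [ht]; field_simp
  have ht1 : t ≤ 1 / 1024 := by
    rw [ht, div_le_div_iff₀ hk0 (by norm_num)]; linarith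
  obtain ⟨x, hx, hx0, hxb⟩ := sl_to_l2 (K := S.KK) hS hv (B := 2 ^ 2 ^ S.qq) (t := t)
    (one_le_pow₀ (by norm_num)) hb ht0 (by linarith) (pow_small ht0 ht1 _)
  obtain ⟨y, hy, hyx, hyb⟩ := l2_to_rs h1 hx (by linarith : t ≤ 1 / 10) hxb
  have hy0 : y 0 = t := by rw [hyx 0 (by have := h1.1; omega), hx0]
  obtain ⟨s, hs, hs0, hsb, hsi⟩ := uv_of_rs (R := S.rs) h2 hy (ε := 3 * t) (by linarith) hyb
    (by rw [hy0]; exact ht0)
  have hN : (S.uv.N1 : ℝ) * (10 * (3 * t)) ≤ 1 / 40 := by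
    have e : (S.uv.kap : ℝ) = 4000 * S.uv.N1 := by unfold UV.kap; push_cast; ring
    rw [e] at htk
    have e2 : (S.uv.N1 : ℝ) * (10 * (3 * t)) = t * (4000 * S.uv.N1) * (3 / 400) := by ring
    rw [e2, htk]; norm_num
  have hP := UV.PosD_of_sol h3 (κ := S.uv.kap) (by omega) hs hs0 hsb hN (by
    rw [hy0] at hsi
    have e3 : (S.uv.kap : ℝ) * (t / 2) ≤ (S.uv.kap : ℝ) * (s 1).im :=
      mul_le_mul_of_nonneg_left hsi hk0.le
    have e4 : (S.uv.kap : ℝ) * (t / 2) = t * S.uv.kap / 2 := by ring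
    rw [e4, htk] at e3
    linarith)
  exact real_of_PosD h4 hP

theorem chain {S : SL} (hS : S.Ok) : (∃ v, S.Sol v) ↔ ∃ p : Nm → ℂ, Real S.lay.verts p :=
  ⟨real_of_sol hS, fun ⟨_, hp⟩ => sol_of_real hS hp⟩

end Pool.Agent.PLN
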