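import Pool.Agent.PLN.Def

/-!
# Ply number at most one

`ply_le_iff`: the set in the definition of `plyNumber` is not empty (any injective map has ply at
most `n`) and upward closed; `Nat.sInf_mem`.

`ply_one_iff`.  Let `G` be connected with at least two vertices, so every vertex has a neighbour.
(→) Let `p` be injective of ply at most `1` and `r = radius G p`; the set of the neighbours is
finite, so `‖p v - p w‖ / 2 ≤ r v` for every neighbour `w` of `v` (`le_ciSup`), and `0 < r v`.  For
`v ≠ w` the open disks are disjoint, so `r v + r w ≤ ‖p v - p w‖` (otherwise the point of the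
segment at distance `t` from `p v` with `d - r w < t < r v` lies in both).  For adjacent `v, w`:
`‖p v - p w‖ ≤ 2 r v, 2 r w`, so `‖p v - p w‖ = r v + r w`, and `r v = r w = ‖p v - p w‖ / 2`.
By connectedness all `r v` are equal to one `r > 0`; `q v = p v / (2 r)` has the properties.
(←) `p` is injective, and `radius G p v = 1/2` (`ciSup_const`), so two disks around different
vertices are disjoint: `1 ≤ ‖p v - p w‖ < 1/2 + 1/2` is impossible.
-/

namespace Pool.Agent.PLN

theorem ply_le_iff {n : ℕ} (G : SimpleGraph (Fin n)) (k : ℕ) :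
    plyNumber G ≤ k ↔ ∃ p : Fin n → ℂ, Function.Injective p ∧ PlyLe G p k := by
  have hne : ({k | ∃ p : Fin n → ℂ, Function.Injective p ∧ PlyLe G p k} : Set ℕ).Nonempty := by
    refine ⟨n, fun v => ((v : ℕ) : ℂ), ?_, ?_⟩
    · intro v w h
      have h1 : ((v : ℕ) : ℂ) = ((w : ℕ) : ℂ) := h
      exact Fin.ext (Nat.cast_injective h1)
    · intro z
      have h1 : ({v | ‖z - ((v : ℕ) : ℂ)‖ < radius G (fun v => ((v : ℕ) : ℂ)) v} :
          Set (Fin n)).ncard ≤ (Set.univ : Set (Fin n)).ncard :=
        Set.ncard_le_ncard (Set.subset_univ _) Set.finite_univ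
      rw [Set.ncard_univ, Nat.card_fin] at h1
      exact h1
  constructor
  · intro h
    obtain ⟨p, hp, hp1⟩ := Nat.sInf_mem hne
    exact ⟨p, hp, fun z => (hp1 z).trans h⟩
  · intro h
    exact Nat.sInf_le h

theorem ply_one_iff {n : ℕ} (G : SimpleGraph (Fin n)) (hG : G.Connected) (hn : 2 ≤ n) :
    plyNumber G ≤ 1 ↔ ∃ p : Fin n → ℂ, (∀ v w, G.Adj v w → ‖p v - p w‖ = 1) ∧
      ∀ v w, v ≠ w → 1 ≤ ‖p v - p w‖ := by
  rw [ply_le_iff]
  constructor
  · rintro ⟨p, hp, hp1⟩
    -- neighbours
    have hnb : ∀ v, ∃ w, G.Adj v w := by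
      intro v
      obtain ⟨w, hw⟩ : ∃ w : Fin n, w ≠ v := by
        by_contra hcon
        push Not at hcon
        have h0 := hcon ⟨0, by omega⟩
        have h1 := hcon ⟨1, by omega⟩
        have h2 := congrArg Fin.val (h0.trans h1.symm)
        simp at h2
      obtain ⟨q⟩ := hG.preconnected v w
      cases q with
      | nil => exact absurd rfl hw
      | cons h _ => exact ⟨_, h⟩
    have hadj : ∀ v w, G.Adj v w → ‖p v - p w‖ / 2 ≤ radius G p v := by
      intro v w h
      exact le_ciSup (f := fun w : {w // G.Adj v w} => ‖p v - p w‖ / 2)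
        (Set.finite_range _).bddAbove ⟨w, h⟩
    have hdpos : ∀ v w, v ≠ w → 0 < ‖p v - p w‖ := by
      intro v w h
      rw [norm_pos_iff, sub_ne_zero]
      exact fun h1 => h (hp h1)
    have hrpos : ∀ v, 0 < radius G p v := by
      intro v
      obtain ⟨w, hw⟩ := hnb v
      have h1 := hadj v w hw
      have h2 := hdpos v w hw.ne
      linarith
    have hsep : ∀ v w, v ≠ w → radius G p v + radius G p w ≤ ‖p v - p w‖ := by
      intro v w hvw
      by_contra hcon
      push Not at hcon
      have hv := hrpos v
      have hw := hrpos w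
      have hd := hdpos v w hvw
      set a := radius G p v with ha
      set b := radius G p w with hb
      have hab : 0 < a + b := by linarith
      set s : ℝ := a / (a + b) with hs
      have hs0 : 0 ≤ s := by positivity
      have hs1 : 1 - s = b / (a + b) := by
        rw [hs]
        field_simp
        ring
      have hs10 : 0 ≤ 1 - s := by
        rw [hs1]
        positivity
      have h1 : ‖(p v + (s : ℂ) * (p w - p v)) - p v‖ < a := by
        have e : (p v + (s : ℂ) * (p w - p v)) - p v = (s : ℂ) * (p w - p v) := by ring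
        rw [e, norm_mul, Complex.norm_real, Real.norm_of_nonneg hs0, norm_sub_rev, hs,
          div_mul_eq_mul_div, div_lt_iff₀ hab]
        exact mul_lt_mul_of_pos_left hcon hv
      have h2 : ‖(p v + (s : ℂ) * (p w - p v)) - p w‖ < b := by
        have e : (p v + (s : ℂ) * (p w - p v)) - p w = ((1 - s : ℝ) : ℂ) * (p v - p w) := by
          push_cast
          ring
        rw [e, norm_mul, Complex.norm_real, Real.norm_of_nonneg hs10, hs1,
          div_mul_eq_mul_div, div_lt_iff₀ hab]
        exact mul_lt_mul_of_pos_left hcon hw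
      have h1' : v ∈ {x | ‖(p v + (s : ℂ) * (p w - p v)) - p x‖ < radius G p x} := h1
      have h2' : w ∈ {x | ‖(p v + (s : ℂ) * (p w - p v)) - p x‖ < radius G p x} := h2
      exact hvw ((Set.ncard_le_one_iff (Set.toFinite _)).1
        (hp1 (p v + (s : ℂ) * (p w - p v))) h1' h2')
    have heq : ∀ v w, G.Adj v w → radius G p v = radius G p w ∧
        ‖p v - p w‖ = 2 * radius G p v := by
      intro v w h
      have h1 := hadj v w h
      have h2 := hadj w v h.symm
      rw [norm_sub_rev] at h2
      have h3 := hsep v w h.ne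
      constructor <;> linarith
    have hreach : ∀ v w, G.Reachable v w → radius G p v = radius G p w := by
      rintro v w ⟨q⟩
      induction q with
      | nil => rfl
      | cons h _ ih => exact (heq _ _ h).1.trans ih
    set v0 : Fin n := ⟨0, by omega⟩ with hv0
    set r : ℝ := radius G p v0 with hr
    have hr0 : 0 < r := hrpos v0
    have hall : ∀ v, radius G p v = r := fun v => hreach v v0 (hG.preconnected v v0)
    have hq : ∀ v w, ‖p v / ((2 * r : ℝ) : ℂ) - p w / ((2 * r : ℝ) : ℂ)‖ =
        ‖p v - p w‖ / (2 * r) := by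
      intro v w
      rw [← sub_div, norm_div, Complex.norm_real, Real.norm_of_nonneg (by positivity)]
    refine ⟨fun v => p v / ((2 * r : ℝ) : ℂ), ?_, ?_⟩
    · intro v w h
      rw [hq, (heq v w h).2, hall v]
      exact div_self (by positivity)
    · intro v w h
      rw [hq, le_div_iff₀ (by positivity)]
      have h1 := hsep v w h
      rw [hall v, hall w] at h1
      linarith
  · rintro ⟨p, hp1, hp2⟩
    refine ⟨p, ?_, ?_⟩
    · intro v w h
      by_contra hvw
      have h1 := hp2 v w hvw
      rw [h, sub_self, norm_zero] at h1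
      norm_num at h1
    · intro z
      have hrad : ∀ v, radius G p v ≤ 1 / 2 := by
        intro v
        refine Real.iSup_le ?_ (by norm_num)
        rintro ⟨w, hw⟩
        change ‖p v - p w‖ / 2 ≤ 1 / 2
        rw [hp1 v w hw]
      rw [Set.ncard_le_one_iff (Set.toFinite _)]
      intro v w hv hw
      by_contra hvw
      have hv' : ‖z - p v‖ < radius G p v := hv
      have hw' : ‖z - p w‖ < radius G p w := hw
      have h1 := hp2 v w hvw
      have h2 : ‖p v - p w‖ ≤ ‖z - p v‖ + ‖z - p w‖ := by
        have e : p v - p w = (z - p w) - (z - p v) := by ring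
        rw [e]
        exact (norm_sub_le _ _).trans (by linarith)
      have h3 := hrad v
      have h4 := hrad w
      linarith

end Pool.Agent.PLN
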