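import Pool.Agent.PLN.Core

/-!
# Membership in the lists of names

Unfold the lists and use `List.mem_append`, `List.mem_flatMap`, `List.mem_map`, `List.mem_filter`,
`List.mem_range`, `List.mem_dedup`.
-/

namespace Pool.Agent.PLN

variable {L : Lay}

theorem mem_verts {n : Nm} : n ∈ L.verts ↔ n ∈ L.vN ∨ n ∈ L.lev := by
  simp only [Lay.verts, List.mem_dedup, List.mem_append]

theorem Nm2_mem_grid {n : Nm} : n ∈ L.grid ↔ ∃ i j, L.pres i j ∧ n = gn i j := by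
  simp only [Lay.grid, List.mem_flatMap, List.mem_map, List.mem_filter, List.mem_range, Lay.pres]
  constructor
  · rintro ⟨i, hi, j, ⟨hj, hn⟩, rfl⟩
    exact ⟨i, j, ⟨by omega, by omega, by simpa using hn⟩, rfl⟩
  · rintro ⟨i, j, ⟨hi, hj, hn⟩, rfl⟩
    exact ⟨i, by omega, j, ⟨by omega, by simpa using hn⟩, rfl⟩

theorem Nm2_mem_bod {n : Nm} : n ∈ L.bod ↔ (∃ g c, (g, c) ∈ L.vb ∧ ∃ a b, (a, b) ∈ Tm ∧
      n = (false, 8 * g + 32 + a, 8 * c + 32 + b)) ∨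
    (∃ g c, (g, c) ∈ L.hb ∧ ∃ a b, (a, b) ∈ Tm ∧
      n = (false, 8 * c + 32 + b, 8 * g + 32 + a)) := by
  simp only [Lay.bod, List.mem_append, List.mem_flatMap, List.mem_map]
  constructor
  · rintro (⟨⟨g, c⟩, h1, ⟨a, b⟩, h2, rfl⟩ | ⟨⟨g, c⟩, h1, ⟨a, b⟩, h2, rfl⟩)
    · exact Or.inl ⟨g, c, h1, a, b, h2, rfl⟩
    · exact Or.inr ⟨g, c, h1, a, b, h2, rfl⟩
  · rintro (⟨g, c, h1, a, b, h2, rfl⟩ | ⟨g, c, h1, a, b, h2, rfl⟩)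
    · exact Or.inl ⟨(g, c), h1, (a, b), h2, rfl⟩
    · exact Or.inr ⟨(g, c), h1, (a, b), h2, rfl⟩

theorem Nm2_mem_tie {n : Nm} : n ∈ L.tie ↔
    (∃ i, i ∈ L.tb ∧ n = (false, 8 * i + 35, 25)) ∨
    (∃ i, i ∈ L.tb ∧ n = (false, 25, 8 * i + 35)) ∨
    (∃ i, i ∈ L.tt ∧ n = (false, 8 * i + 37, 8 * L.N + 39)) ∨
    (∃ i, i ∈ L.tt ∧ n = (false, 8 * L.N + 39, 8 * i + 37)) := by
  simp only [Lay.tie, List.mem_append, List.mem_flatMap, List.mem_cons, List.not_mem_nil, or_false]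
  constructor
  · rintro (⟨i, h1, rfl | rfl⟩ | ⟨i, h1, rfl | rfl⟩)
    · exact Or.inl ⟨i, h1, rfl⟩
    · exact Or.inr (Or.inl ⟨i, h1, rfl⟩)
    · exact Or.inr (Or.inr (Or.inl ⟨i, h1, rfl⟩))
    · exact Or.inr (Or.inr (Or.inr ⟨i, h1, rfl⟩))
  · rintro (⟨i, h1, rfl⟩ | ⟨i, h1, rfl⟩ | ⟨i, h1, rfl⟩ | ⟨i, h1, rfl⟩)
    · exact Or.inl ⟨i, h1, Or.inl rfl⟩
    · exact Or.inl ⟨i, h1, Or.inr rfl⟩
    · exact Or.inr ⟨i, h1, Or.inl rfl⟩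
    · exact Or.inr ⟨i, h1, Or.inr rfl⟩

theorem mem_vN {n : Nm} : n ∈ L.vN ↔ (∃ i j, L.pres i j ∧ n = gn i j) ∨
    (∃ g c, (g, c) ∈ L.vb ∧ ∃ a b, (a, b) ∈ Tm ∧
      n = (false, 8 * g + 32 + a, 8 * c + 32 + b)) ∨
    (∃ g c, (g, c) ∈ L.hb ∧ ∃ a b, (a, b) ∈ Tm ∧
      n = (false, 8 * c + 32 + b, 8 * g + 32 + a)) ∨
    (∃ i, i ∈ L.tb ∧ n = (false, 8 * i + 35, 25)) ∨
    (∃ i, i ∈ L.tb ∧ n = (false, 25, 8 * i + 35)) ∨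
    (∃ i, i ∈ L.tt ∧ n = (false, 8 * i + 37, 8 * L.N + 39)) ∨
    (∃ i, i ∈ L.tt ∧ n = (false, 8 * L.N + 39, 8 * i + 37)) := by
  rw [Lay.vN, List.mem_append, List.mem_append, Nm2_mem_grid, Nm2_mem_bod, Nm2_mem_tie, or_assoc]

/-- lever vertices: `x = T - 1, …, b1` in the row `18`, `x = T - 1, …, b1 - 1` in the row `11`, and
three more -/
theorem mem_lev (hT : 2 ≤ L.T) (hb : L.T + 2 ≤ L.b1) {n : Nm} : n ∈ L.lev ↔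
    (∃ x, L.T - 1 ≤ x ∧ x ≤ L.b1 ∧ n = (true, 8 * x + 38, 18)) ∨
    (∃ x, L.T - 1 ≤ x ∧ x < L.b1 ∧ n = (true, 8 * x + 41, 11)) ∨
    n = (true, 8 * L.T + 35, 25) ∨ n = (true, 8 * L.T + 27, 25) ∨
    n = (true, 8 * L.T + 32, 32) := by
  simp only [Lay.lev, List.mem_append, List.mem_map, List.mem_range, List.mem_cons,
    List.not_mem_nil, or_false, or_assoc]
  constructor
  · rintro (⟨i, h1, rfl⟩ | ⟨i, h1, rfl⟩ | h)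
    · exact Or.inl ⟨L.T - 1 + i, by omega, by omega, rfl⟩
    · exact Or.inr (Or.inl ⟨L.T - 1 + i, by omega, by omega, rfl⟩)
    · exact Or.inr (Or.inr h)
  · rintro (⟨x, h1, h2, rfl⟩ | ⟨x, h1, h2, rfl⟩ | h)
    · refine Or.inl ⟨x - (L.T - 1), by omega, ?_⟩
      rw [Nat.add_sub_cancel' h1]
    · refine Or.inr (Or.inl ⟨x - (L.T - 1), by omega, ?_⟩)
      rw [Nat.add_sub_cancel' h1]
    · exact Or.inr (Or.inr h)

theorem inn_iff {i j : ℕ} : L.inn i j = true ↔ ∃ r ∈ L.rects, r.1 < i ∧ i < r.1 + r.2.2.1 ∧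
    r.2.1 < j ∧ j < r.2.1 + r.2.2.2 := by
  simp only [Lay.inn, List.any_eq_true, Bool.and_eq_true, decide_eq_true_eq]

theorem inn_false {i j : ℕ} : L.inn i j = false ↔ ∀ r ∈ L.rects, ¬ (r.1 < i ∧
    i < r.1 + r.2.2.1 ∧ r.2.1 < j ∧ j < r.2.1 + r.2.2.2) := by
  rw [← Bool.not_eq_true, inn_iff]
  push Not
  exact Iff.rfl

/-- the four corners of a present cell are present -/
theorem pres_of_cell {i j : ℕ} (h : L.cell i j) : L.pres i j ∧ L.pres (i + 1) j ∧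
    L.pres i (j + 1) ∧ L.pres (i + 1) (j + 1) := by
  obtain ⟨h1, h2, h3⟩ := h
  refine ⟨⟨by omega, by omega, ?_⟩, ⟨by omega, by omega, ?_⟩, ⟨by omega, by omega, ?_⟩,
    ⟨by omega, by omega, ?_⟩⟩ <;>
  · rw [inn_false]
    intro r hr h4
    have h5 := h3 r hr
    omega

theorem mem_rects {r : ℕ × ℕ × ℕ × ℕ} : r ∈ L.rects ↔
    (∃ g c, (g, c) ∈ L.vb ∧ r = (g - 1, c, 4, 7)) ∨
    (∃ g c, (g, c) ∈ L.hb ∧ r = (c, g - 1, 7, 4)) ∨ (∃ x ∈ L.ch, r = (x, x, 12, 12)) := by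
  simp only [Lay.rects, List.mem_append, List.mem_map, or_assoc]
  constructor
  · rintro (⟨⟨g, c⟩, h, rfl⟩ | ⟨⟨g, c⟩, h, rfl⟩ | ⟨x, h, rfl⟩)
    · exact Or.inl ⟨g, c, h, rfl⟩
    · exact Or.inr (Or.inl ⟨g, c, h, rfl⟩)
    · exact Or.inr (Or.inr ⟨x, h, rfl⟩)
  · rintro (⟨g, c, h, rfl⟩ | ⟨g, c, h, rfl⟩ | ⟨x, h, rfl⟩)
    · exact Or.inl ⟨(g, c), h, rfl⟩
    · exact Or.inr (Or.inl ⟨(g, c), h, rfl⟩)
    · exact Or.inr (Or.inr ⟨x, h, rfl⟩)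

theorem Nm2_size {r : ℕ × ℕ × ℕ × ℕ} (hr : r ∈ L.rects) : 4 ≤ r.2.2.1 ∧ 4 ≤ r.2.2.2 := by
  rw [mem_rects] at hr
  rcases hr with ⟨g, c, -, rfl⟩ | ⟨g, c, -, rfl⟩ | ⟨x, -, rfl⟩ <;> simp

/-- the vertices on the sides of a hole are present -/
theorem pres_side (hL : L.GoodN) {r : ℕ × ℕ × ℕ × ℕ} (hr : r ∈ L.rects) {i j : ℕ}
    (h1 : r.1 ≤ i) (h2 : i ≤ r.1 + r.2.2.1) (h3 : r.2.1 ≤ j) (h4 : j ≤ r.2.1 + r.2.2.2)
    (h : i = r.1 ∨ i = r.1 + r.2.2.1 ∨ j = r.2.1 ∨ j = r.2.1 + r.2.2.2) : L.pres i j := by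
  have hb := hL.inb r hr
  refine ⟨by omega, by omega, ?_⟩
  rw [inn_false]
  intro s hs h5
  by_cases hrs : r = s
  · subst hrs
    omega
  · have h6 := hL.sep r hr s hs hrs
    omega

/-- the cells around a hole are present -/
theorem cell_ring (hL : L.GoodN) {r : ℕ × ℕ × ℕ × ℕ} (hr : r ∈ L.rects) {i j : ℕ}
    (h1 : r.1 ≤ i + 1) (h2 : i ≤ r.1 + r.2.2.1) (h3 : r.2.1 ≤ j + 1) (h4 : j ≤ r.2.1 + r.2.2.2)
    (h : ¬ (r.1 ≤ i ∧ i < r.1 + r.2.2.1 ∧ r.2.1 ≤ j ∧ j < r.2.1 + r.2.2.2)) : L.cell i j := by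
  have hb := hL.inb r hr
  refine ⟨by omega, by omega, ?_⟩
  intro s hs h5
  by_cases hrs : r = s
  · subst hrs
    exact h h5
  · have h6 := hL.sep r hr s hs hrs
    omega

/-- vertices on the boundary of the grid are present -/
theorem pres_bdry (hL : L.GoodN) {i j : ℕ} (hi : i ≤ L.N) (hj : j ≤ L.N)
    (h : i = 0 ∨ i = L.N ∨ j = 0 ∨ j = L.N) : L.pres i j := by
  refine ⟨hi, hj, ?_⟩
  rw [inn_false]
  intro s hs h5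
  have hb := hL.inb s hs
  omega

/-- cells on the boundary of the grid are present -/
theorem cell_bdry (hL : L.GoodN) {i j : ℕ} (hi : i < L.N) (hj : j < L.N)
    (h : i = 0 ∨ i + 1 = L.N ∨ j = 0 ∨ j + 1 = L.N) : L.cell i j := by
  refine ⟨hi, hj, ?_⟩
  intro s hs h5
  have hb := hL.inb s hs
  omega

theorem rect_vb {g c : ℕ} (h : (g, c) ∈ L.vb) : (g - 1, c, 4, 7) ∈ L.rects :=
  mem_rects.mpr (Or.inl ⟨g, c, h, rfl⟩)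

theorem rect_hb {g c : ℕ} (h : (g, c) ∈ L.hb) : (c, g - 1, 7, 4) ∈ L.rects :=
  mem_rects.mpr (Or.inr (Or.inl ⟨g, c, h, rfl⟩))

end Pool.Agent.PLN
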