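import Pool.Agent.PLN.Nm1
import Pool.Agent.PLN.Nm2

/-!
# Connectedness of the grid

`Rch V u v`: there is a path of names in `V` from `u` to `v`.
Claim: every present grid vertex `(i, j)` can be reached from `(0, 0)`; induction on `j`.
`j = 0`: along the bottom side (`pres_bdry`, `adj80`), induction on `i`.  `j > 0`: if `(i, j - 1)` is
present, use `adj08`.  Otherwise `(i, j - 1)` is in the interior of a hole `(x, y, w, h)`
(`inn_iff`); as `(i, j)` is not, `j = y + h`.  The vertices `(i', j)`, `x ≤ i' ≤ i`, and
`(x, j - 1)` are on the sides of the hole, so they are present (`pres_side`); go from `(x, j - 1)`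
(induction hypothesis) to `(x, j)` and then to the right.
-/

namespace Pool.Agent.PLN

/-- there is a path of names in `V` -/
def Rch (V : List Nm) (u v : Nm) : Prop :=
  Relation.ReflTransGen (fun a b => a ∈ V ∧ b ∈ V ∧ adj a b = true) u v

theorem Rch.symm {V : List Nm} {u v : Nm} (h : Rch V u v) : Rch V v u := by
  induction h with
  | refl => exact Relation.ReflTransGen.refl
  | tail _ h2 ih =>
    exact Relation.ReflTransGen.head ⟨h2.2.1, h2.1, by rw [adj_comm]; exact h2.2.2⟩ ih

theorem co2_mem {L : Lay} {i j : ℕ} (h : L.pres i j) : gn i j ∈ L.verts :=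
  mem_verts.2 (Or.inl (mem_vN.2 (Or.inl ⟨i, j, h, rfl⟩)))

theorem co2_right {L : Lay} {i j : ℕ} (h : L.pres i j) (h' : L.pres (i + 1) j)
    (hr : Rch L.verts (gn 0 0) (gn i j)) : Rch L.verts (gn 0 0) (gn (i + 1) j) := by
  refine Relation.ReflTransGen.tail hr ⟨co2_mem h, co2_mem h', ?_⟩
  have h1 := adj80 false (8 * i + 32) (8 * j + 32)
  have h2 : gn (i + 1) j = (false, 8 * i + 32 + 8, 8 * j + 32) := by
    simp only [gn, Prod.mk.injEq, true_and, and_true]
    ring
  rw [h2]
  exact h1

theorem co2_up {L : Lay} {i j : ℕ} (h : L.pres i j) (h' : L.pres i (j + 1))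
    (hr : Rch L.verts (gn 0 0) (gn i j)) : Rch L.verts (gn 0 0) (gn i (j + 1)) := by
  refine Relation.ReflTransGen.tail hr ⟨co2_mem h, co2_mem h', ?_⟩
  have h1 := adj08 false (8 * i + 32) (8 * j + 32)
  have h2 : gn i (j + 1) = (false, 8 * i + 32, 8 * j + 32 + 8) := by
    simp only [gn, Prod.mk.injEq, true_and]
    ring
  rw [h2]
  exact h1

theorem co2_row {L : Lay} {x j : ℕ} (n : ℕ) (h : ∀ k ≤ n, L.pres (x + k) j)
    (hr : Rch L.verts (gn 0 0) (gn x j)) : Rch L.verts (gn 0 0) (gn (x + n) j) := by
  induction n with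
  | zero => exact hr
  | succ n ih =>
    exact co2_right (h n (by omega)) (h (n + 1) le_rfl) (ih fun k hk => h k (by omega))

theorem rch_grid {L : Lay} (hL : L.GoodN) : ∀ {i j : ℕ}, L.pres i j →
    Rch L.verts (gn 0 0) (gn i j) := by
  intro i j
  induction j generalizing i with
  | zero =>
    intro h
    have hi := h.1
    have := co2_row (L := L) (x := 0) (j := 0) i
      (fun k hk => pres_bdry hL (by omega) (by omega) (by omega)) Relation.ReflTransGen.refl
    rwa [Nat.zero_add] at this
  | succ j ih =>
    intro h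
    by_cases hp : L.pres i j
    · exact co2_up hp h (ih hp)
    · have hi := h.1
      have hj := h.2.1
      have h1 : L.inn i j = true := by
        by_contra h2
        exact hp ⟨hi, by omega, by simpa using h2⟩
      obtain ⟨r, hr, h2, h3, h4, h5⟩ := inn_iff.1 h1
      have h6 := inn_false.1 h.2.2 r hr
      have h7 : r.2.1 + r.2.2.2 = j + 1 := by
        by_contra h8
        exact h6 ⟨h2, h3, by omega, by omega⟩
      have h8 : L.pres r.1 j :=
        pres_side hL hr le_rfl (by omega) (by omega) (by omega) (Or.inl rfl)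
      have h9 : ∀ k ≤ i - r.1, L.pres (r.1 + k) (j + 1) := fun k hk =>
        pres_side hL hr (by omega) (by omega) (by omega) (by omega)
          (Or.inr (Or.inr (Or.inr h7.symm)))
      have h10 := co2_row (i - r.1) h9 (co2_up h8 (h9 0 (by omega)) (ih h8))
      rwa [show r.1 + (i - r.1) = i by omega] at h10

end Pool.Agent.PLN
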