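import Pool.Agent.PLN.Co2

/-!
# Connectedness

Bodies: in the template, `(5,7)` is adjacent to `(0,0)`, and further
`(13,7) - (5,7)`, `(2,14) - (5,7)`, `(10,14) - (2,14)`, `(7,21) - (2,14)`, `(15,21) - (7,21)`,
`(4,28) - (7,21)`, `(12,28) - (4,28)`, `(1,35) - (4,28)`, `(9,35) - (1,35)`, `(6,42) - (1,35)`,
`(14,42) - (6,42)`, `(3,49) - (6,42)`, `(11,49) - (3,49)`; the corner `(g, c)` is present
(`pres_side`).  For horizontal bodies exchange the coordinates.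
Ties: `(8 i + 35, 25)` is adjacent to the grid vertex `(i, 0)`, etc. (`pres_bdry`).
Lever (`mem_lev`): `(8 b1 + 38, 18)` is adjacent to the tie `b1` (`adj_lev`); `(8 x + 38, 18)` to
`(8 (x+1) + 38, 18)`; `(8 x + 41, 11)` to `(8 x + 38, 18)`; `(8 T + 35, 25)` to `(8 T + 38, 18)`;
`(8 T + 27, 25)` to `(8 T + 35, 25)`; `(8 T + 32, 32)` to `(8 T + 35, 25)`.
-/

namespace Pool.Agent.PLN

private theorem co3_step {V : List Nm} {o u v : Nm} (h : Rch V o u) (hu : u ∈ V) (hv : v ∈ V)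
    (ha : adj u v = true) : Rch V o v := by
  unfold Rch at *
  exact Relation.ReflTransGen.tail h ⟨hu, hv, ha⟩

private theorem co3_body (f : ℕ → ℕ → Nm) (hf : ∀ a b a' b', arc (a, b) (a', b') = true →
    adj (f a b) (f a' b') = true) {V : List Nm} {o : Nm} (h0 : f 0 0 ∈ V)
    (hr : Rch V o (f 0 0)) (hT : ∀ a b, (a, b) ∈ Tm → f a b ∈ V) :
    ∀ a b, (a, b) ∈ Tm → Rch V o (f a b) := by
  have key : ∀ a b a' b', f a b ∈ V → Rch V o (f a b) → (a', b') ∈ Tm →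
      arc (a, b) (a', b') = true → Rch V o (f a' b') := by
    intro a b a' b' h1 h2 h3 h4
    exact co3_step h2 h1 (hT a' b' h3) (hf _ _ _ _ h4)
  have m : ∀ a b, (a, b) ∈ Tm → f a b ∈ V := hT
  have r1 := key 0 0 5 7 h0 hr (by decide) (by decide)
  have r2 := key 5 7 13 7 (m _ _ (by decide)) r1 (by decide) (by decide)
  have r3 := key 5 7 2 14 (m _ _ (by decide)) r1 (by decide) (by decide)
  have r4 := key 2 14 10 14 (m _ _ (by decide)) r3 (by decide) (by decide)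
  have r5 := key 2 14 7 21 (m _ _ (by decide)) r3 (by decide) (by decide)
  have r6 := key 7 21 15 21 (m _ _ (by decide)) r5 (by decide) (by decide)
  have r7 := key 7 21 4 28 (m _ _ (by decide)) r5 (by decide) (by decide)
  have r8 := key 4 28 12 28 (m _ _ (by decide)) r7 (by decide) (by decide)
  have r9 := key 4 28 1 35 (m _ _ (by decide)) r7 (by decide) (by decide)
  have r10 := key 1 35 9 35 (m _ _ (by decide)) r9 (by decide) (by decide)
  have r11 := key 1 35 6 42 (m _ _ (by decide)) r9 (by decide) (by decide)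
  have r12 := key 6 42 14 42 (m _ _ (by decide)) r11 (by decide) (by decide)
  have r13 := key 6 42 3 49 (m _ _ (by decide)) r11 (by decide) (by decide)
  have r14 := key 3 49 11 49 (m _ _ (by decide)) r13 (by decide) (by decide)
  intro a b hab
  simp only [Tm, List.mem_cons, Prod.mk.injEq, List.not_mem_nil, or_false] at hab
  rcases hab with ⟨rfl, rfl⟩ | ⟨rfl, rfl⟩ | ⟨rfl, rfl⟩ | ⟨rfl, rfl⟩ | ⟨rfl, rfl⟩ | ⟨rfl, rfl⟩ |
    ⟨rfl, rfl⟩ | ⟨rfl, rfl⟩ | ⟨rfl, rfl⟩ | ⟨rfl, rfl⟩ | ⟨rfl, rfl⟩ | ⟨rfl, rfl⟩ | ⟨rfl, rfl⟩ |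
    ⟨rfl, rfl⟩ <;> assumption

private theorem co3_arcV (X Y a b a' b' : ℕ) (h : arc (a, b) (a', b') = true) :
    adj (false, X + a, Y + b) (false, X + a', Y + b') = true := by
  rw [adj_same, Bool.or_eq_true, arc_iff]
  rw [arc_iff] at h
  dsimp only at h ⊢
  left
  rcases h with ⟨h1, h2⟩ | ⟨h1, h2⟩ | ⟨h1, h2⟩ | ⟨h1, h2⟩ | ⟨h1, h2⟩ | ⟨h1, h2⟩
  · exact Or.inl ⟨by omega, by omega⟩
  · exact Or.inr (Or.inl ⟨by omega, by omega⟩)
  · exact Or.inr (Or.inr (Or.inl ⟨by omega, by omega⟩))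
  · exact Or.inr (Or.inr (Or.inr (Or.inl ⟨by omega, by omega⟩)))
  · exact Or.inr (Or.inr (Or.inr (Or.inr (Or.inl ⟨by omega, by omega⟩))))
  · exact Or.inr (Or.inr (Or.inr (Or.inr (Or.inr ⟨by omega, by omega⟩))))

private theorem co3_arcH (X Y a b a' b' : ℕ) (h : arc (a, b) (a', b') = true) :
    adj (false, Y + b, X + a) (false, Y + b', X + a') = true := by
  rw [adj_same, Bool.or_eq_true, arc_iff]
  rw [arc_iff] at h
  dsimp only at h ⊢
  left
  rcases h with ⟨h1, h2⟩ | ⟨h1, h2⟩ | ⟨h1, h2⟩ | ⟨h1, h2⟩ | ⟨h1, h2⟩ | ⟨h1, h2⟩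
  · exact Or.inr (Or.inl ⟨by omega, by omega⟩)
  · exact Or.inl ⟨by omega, by omega⟩
  · exact Or.inr (Or.inr (Or.inr (Or.inr (Or.inl ⟨by omega, by omega⟩))))
  · exact Or.inr (Or.inr (Or.inr (Or.inr (Or.inr ⟨by omega, by omega⟩))))
  · exact Or.inr (Or.inr (Or.inl ⟨by omega, by omega⟩))
  · exact Or.inr (Or.inr (Or.inr (Or.inl ⟨by omega, by omega⟩)))

private theorem co3_gn {L : Lay} {i j : ℕ} (h : L.pres i j) : gn i j ∈ L.verts :=
  mem_verts.mpr (Or.inl (mem_vN.mpr (Or.inl ⟨i, j, h, rfl⟩)))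

/-- one step from a grid vertex -/
private theorem co3_from {L : Lay} (hL : L.GoodN) {i j : ℕ} (h : L.pres i j) {n : Nm}
    (hn : n ∈ L.verts) (ha : adj (gn i j) n = true) : Rch L.verts (gn 0 0) n :=
  co3_step (rch_grid hL h) (co3_gn h) hn ha

private theorem co3_adj {t : Bool} {P Q : ℕ × ℕ} (h : (Q.1 = P.1 + 8 ∧ Q.2 = P.2) ∨
    (Q.1 = P.1 ∧ Q.2 = P.2 + 8) ∨ (Q.1 = P.1 + 5 ∧ Q.2 = P.2 + 7) ∨
    (P.1 = Q.1 + 3 ∧ Q.2 = P.2 + 7) ∨ (Q.1 = P.1 + 7 ∧ Q.2 = P.2 + 5) ∨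
    (Q.1 = P.1 + 7 ∧ P.2 = Q.2 + 3)) : adj (t, P) (t, Q) = true := by
  rw [adj_same, Bool.or_eq_true, arc_iff, arc_iff]
  exact Or.inl h

private theorem co3_vN {L : Lay} (hL : L.GoodN) {n : Nm} (hn : n ∈ L.vN) :
    Rch L.verts (gn 0 0) n := by
  have hv : n ∈ L.verts := mem_verts.mpr (Or.inl hn)
  rcases mem_vN.mp hn with ⟨i, j, hp, rfl⟩ | ⟨g, c, hgc, a, b, hab, rfl⟩ |
    ⟨g, c, hgc, a, b, hab, rfl⟩ | ⟨i, hi, rfl⟩ | ⟨i, hi, rfl⟩ | ⟨i, hi, rfl⟩ | ⟨i, hi, rfl⟩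
  · exact rch_grid hL hp
  · have hg := hL.vb2 _ hgc
    dsimp only at hg
    have hp : L.pres g c := pres_side hL (rect_vb hgc) (by dsimp only; omega)
      (by dsimp only; omega) (by dsimp only; omega) (by dsimp only; omega)
      (Or.inr (Or.inr (Or.inl rfl)))
    refine co3_body (fun a b => (false, 8 * g + 32 + a, 8 * c + 32 + b))
      (fun a b a' b' h => co3_arcV _ _ _ _ _ _ h) (V := L.verts) (o := gn 0 0)
      (co3_gn hp) (rch_grid hL hp) ?_ a b hab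
    intro a b hab
    exact mem_verts.mpr (Or.inl (mem_vN.mpr (Or.inr (Or.inl ⟨g, c, hgc, a, b, hab, rfl⟩))))
  · have hg := hL.hb2 _ hgc
    dsimp only at hg
    have hp : L.pres c g := pres_side hL (rect_hb hgc) (by dsimp only; omega)
      (by dsimp only; omega) (by dsimp only; omega) (by dsimp only; omega)
      (Or.inl rfl)
    refine co3_body (fun a b => (false, 8 * c + 32 + b, 8 * g + 32 + a))
      (fun a b a' b' h => co3_arcH _ _ _ _ _ _ h) (V := L.verts) (o := gn 0 0)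
      (co3_gn hp) (rch_grid hL hp) ?_ a b hab
    intro a b hab
    exact mem_verts.mpr (Or.inl (mem_vN.mpr
      (Or.inr (Or.inr (Or.inl ⟨g, c, hgc, a, b, hab, rfl⟩)))))
  · have hN := hL.tbN i hi
    refine co3_from hL (pres_bdry hL (i := i) (j := 0) hN.le (Nat.zero_le _)
      (Or.inr (Or.inr (Or.inl rfl)))) hv ?_
    rw [adj_comm]
    exact co3_adj (Or.inr (Or.inr (Or.inr (Or.inl ⟨rfl, rfl⟩))))
  · have hN := hL.tbN i hi
    refine co3_from hL (pres_bdry hL (i := 0) (j := i) (Nat.zero_le _) hN.le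
      (Or.inl rfl)) hv ?_
    rw [adj_comm]
    exact co3_adj (Or.inr (Or.inr (Or.inr (Or.inr (Or.inr ⟨rfl, rfl⟩)))))
  · have hN := hL.ttN i hi
    refine co3_from hL (pres_bdry hL (i := i) (j := L.N) hN.le le_rfl
      (Or.inr (Or.inr (Or.inr rfl)))) hv ?_
    exact co3_adj (Or.inr (Or.inr (Or.inl ⟨rfl, rfl⟩)))
  · have hN := hL.ttN i hi
    refine co3_from hL (pres_bdry hL (i := L.N) (j := i) le_rfl hN.le
      (Or.inr (Or.inl rfl))) hv ?_
    exact co3_adj (Or.inr (Or.inr (Or.inr (Or.inr (Or.inl ⟨rfl, rfl⟩)))))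

private theorem co3_row {L : Lay} (hL : L.Good) : ∀ k x, x + k = L.b1 → L.T - 1 ≤ x →
    Rch L.verts (gn 0 0) (true, 8 * x + 38, 18) := by
  have hm : ∀ x, L.T - 1 ≤ x → x ≤ L.b1 → ((true, 8 * x + 38, 18) : Nm) ∈ L.verts := by
    intro x h1 h2
    exact mem_verts.mpr (Or.inr ((mem_lev hL.T2 hL.Tb).mpr (Or.inl ⟨x, h1, h2, rfl⟩)))
  intro k
  induction k with
  | zero =>
    intro x hx h1
    have hx' : x = L.b1 := by omega
    subst hx'
    have ht : ((false, 8 * L.b1 + 35, 25) : Nm) ∈ L.vN :=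
      mem_vN.mpr (Or.inr (Or.inr (Or.inr (Or.inl ⟨L.b1, hL.b1m, rfl⟩))))
    refine co3_step (co3_vN hL.toGoodN ht) (mem_verts.mpr (Or.inl ht)) (hm _ h1 le_rfl) ?_
    rw [adj_comm]
    exact adj_lev _ _ (Or.inr rfl)
  | succ k ih =>
    intro x hx h1
    have h2 := ih (x + 1) (by omega) (by omega)
    refine co3_step h2 (hm _ (by omega) (by omega)) (hm _ h1 (by omega)) ?_
    rw [adj_comm]
    exact adj80 true (8 * x + 38) 18

theorem rch_all {L : Lay} (hL : L.Good) {n : Nm} (hn : n ∈ L.verts) :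
    Rch L.verts (gn 0 0) n := by
  have hrow : ∀ x, L.T - 1 ≤ x → x ≤ L.b1 → Rch L.verts (gn 0 0) (true, 8 * x + 38, 18) := by
    intro x h1 h2
    exact co3_row hL (L.b1 - x) x (by omega) h1
  have hm : ∀ x, L.T - 1 ≤ x → x ≤ L.b1 → ((true, 8 * x + 38, 18) : Nm) ∈ L.verts := by
    intro x h1 h2
    exact mem_verts.mpr (Or.inr ((mem_lev hL.T2 hL.Tb).mpr (Or.inl ⟨x, h1, h2, rfl⟩)))
  have hTb := hL.Tb
  have m0 : ((true, 8 * L.T + 35, 25) : Nm) ∈ L.verts :=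
    mem_verts.mpr (Or.inr ((mem_lev hL.T2 hL.Tb).mpr (Or.inr (Or.inr (Or.inl rfl)))))
  have r0 : Rch L.verts (gn 0 0) (true, 8 * L.T + 35, 25) := by
    refine co3_step (hrow L.T (by omega) (by omega)) (hm L.T (by omega) (by omega)) m0 ?_
    exact co3_adj (Or.inr (Or.inr (Or.inr (Or.inl ⟨rfl, rfl⟩))))
  rcases mem_verts.mp hn with h | h
  · exact co3_vN hL.toGoodN h
  · rcases (mem_lev hL.T2 hL.Tb).mp h with ⟨x, h1, h2, rfl⟩ | ⟨x, h1, h2, rfl⟩ | rfl | rfl | rfl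
    · exact hrow x h1 h2
    · refine co3_step (hrow x h1 h2.le) (hm x h1 h2.le) hn ?_
      rw [adj_comm]
      exact co3_adj (Or.inr (Or.inr (Or.inr (Or.inl ⟨rfl, rfl⟩))))
    · exact r0
    · refine co3_step r0 m0 hn ?_
      rw [adj_comm]
      exact co3_adj (Or.inl ⟨rfl, rfl⟩)
    · refine co3_step r0 m0 hn ?_
      exact co3_adj (Or.inr (Or.inr (Or.inr (Or.inl ⟨rfl, rfl⟩))))

end Pool.Agent.PLN
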