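import Pool.Agent.PLN.Co1
import Pool.Agent.PLN.Co3

/-!
# The graph of a layout

The vertices are the positions in the list `V`, adjacent if the names are.  For a list without
repetitions (`L.verts` is a `dedup`) `V.get` is injective, and `p ↦ p ∘ V.get` and
`p' ↦ fun n => if h : n ∈ V then p' (index of n) else 0` translate between realisations of the graph
and of the list.  `verts_len`: `(0, 0)` and `(1, 0)` are present (`pres_bdry`; `N ≥ 1` as
`L.b1 < L.N`).  Connectedness: `rch_all` and `Rch.symm`; a path of names in `V` gives a path of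
positions.
-/

namespace Pool.Agent.PLN

/-- the graph on the positions of a list of names -/
def grV (V : List Nm) : Graph := ⟨V.length, NG.comap V.get⟩

theorem grV_real {V : List Nm} (hV : V.Nodup) : (∃ p : Fin (grV V).1 → ℂ,
    (∀ v w, (grV V).2.Adj v w → ‖p v - p w‖ = 1) ∧ ∀ v w, v ≠ w → 1 ≤ ‖p v - p w‖) ↔
      ∃ p : Nm → ℂ, Real V p := by
  classical
  constructor
  · rintro ⟨p, h1, h2⟩
    change Fin V.length → ℂ at p
    refine ⟨fun n => if h : n ∈ V then p ⟨V.idxOf n, List.idxOf_lt_length_iff.2 h⟩ else 0, ?_, ?_⟩
    · intro u hu v hv huv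
      simp only [dif_pos hu, dif_pos hv]
      refine h1 _ _ ?_
      show adj (V.get _) (V.get _) = true
      simp only [List.get_eq_getElem, List.getElem_idxOf]
      exact huv
    · intro u hu v hv huv
      simp only [dif_pos hu, dif_pos hv]
      refine h2 _ _ ?_
      intro h
      have h3 := congrArg Fin.val h
      simp only at h3
      exact huv ((List.idxOf_inj hu).1 h3)
  · rintro ⟨p, hp⟩
    refine ⟨fun i => p (V.get i), ?_, ?_⟩
    · intro v w h
      exact hp.unit _ (List.get_mem _ _) _ (List.get_mem _ _) h
    · intro v w h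
      refine hp.sep _ (List.get_mem _ _) _ (List.get_mem _ _) ?_
      intro h'
      exact h (List.nodup_iff_injective_get.1 hV h')

theorem co4_N {L : Lay} (hL : L.Good) : 1 ≤ L.N := by
  have := hL.tbN _ hL.b1m
  omega

theorem verts_len {L : Lay} (hL : L.Good) : 2 ≤ L.verts.length := by
  classical
  have hN := co4_N hL
  have h0 : gn 0 0 ∈ L.verts := co2_mem (pres_bdry hL.toGoodN (by omega) (by omega) (by omega))
  have h1 : gn 1 0 ∈ L.verts := co2_mem (pres_bdry hL.toGoodN (by omega) (by omega) (by omega))
  have h2 : ({gn 0 0, gn 1 0} : Finset Nm) ⊆ L.verts.toFinset := by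
    intro x hx
    simp only [Finset.mem_insert, Finset.mem_singleton] at hx
    rw [List.mem_toFinset]
    rcases hx with rfl | rfl
    · exact h0
    · exact h1
  have h3 := Finset.card_le_card h2
  rw [Finset.card_pair (by simp [gn])] at h3
  exact h3.trans (List.toFinset_card_le _)

theorem co4_reach {V : List Nm} (hV : V.Nodup) {a b : Nm} (h : Rch V a b) (i j : Fin V.length)
    (hi : V.get i = a) (hj : V.get j = b) : (grV V).2.Reachable i j := by
  have hinj := List.nodup_iff_injective_get.1 hV
  induction h generalizing j with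
  | refl =>
    have : i = j := hinj (hi.trans hj.symm)
    subst this
    exact SimpleGraph.Reachable.refl _
  | tail _ h2 ih =>
    obtain ⟨h3, h4, h5⟩ := h2
    obtain ⟨k, hk⟩ := List.get_of_mem h3
    refine (ih k hk).trans (SimpleGraph.Adj.reachable ?_)
    show adj (V.get k) (V.get j) = true
    rw [hk, hj]
    exact h5

theorem grV_conn {L : Lay} (hL : L.Good) : (grV L.verts).2.Connected := by
  have hlen := verts_len hL
  have hV : L.verts.Nodup := List.nodup_dedup _
  haveI : Nonempty (Fin (grV L.verts).1) := ⟨(⟨0, by omega⟩ : Fin L.verts.length)⟩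
  refine SimpleGraph.Connected.mk ?_
  intro i j
  have h1 : Rch L.verts (L.verts.get i) (gn 0 0) := (rch_all hL (List.get_mem _ _)).symm
  have h2 : Rch L.verts (gn 0 0) (L.verts.get j) := rch_all hL (List.get_mem _ _)
  exact co4_reach hV (Relation.ReflTransGen.trans h1 h2) i j rfl rfl

theorem ply_real {L : Lay} (hL : L.Good) :
    plyNumber (grV L.verts).2 ≤ 1 ↔ ∃ p : Nm → ℂ, Real L.verts p := by
  rw [ply_one_iff _ (grV_conn hL) (verts_len hL)]
  exact grV_real (List.nodup_dedup _)

end Pool.Agent.PLN
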