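import Mathlib

/-!
# Names of vertices, layouts, realisations

All graphs built by the reduction are described by their *nominal positions*.  Let
`om = e^{iπ/3}` and `rho = (8 om - 5)/7`, a complex number of modulus `1` (angle 98.21°).  The name
`(t, A, B)` stands for the nominal point `((A - 32) + (B - 32) rho) / 8`; `t = true` marks the
vertices of the lever.  Two names are adjacent if their difference is one of the twelve vectors
`±(8,0), ±(0,8), ±(5,7), ±(-3,7), ±(7,5), ±(7,-3)` (all of them have nominal length `1`).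
-/

namespace Pool.Agent.PLN

/-- names of vertices: (is the vertex on the lever?, nominal coordinates) -/
abbrev Nm : Type := Bool × ℕ × ℕ

/-- `Q` is `P` plus one of the vectors `(8,0), (0,8), (5,7), (-3,7), (7,5), (7,-3)` -/
def arc (P Q : ℕ × ℕ) : Bool :=
  (decide (Q.1 = P.1 + 8) && decide (Q.2 = P.2)) || (decide (Q.1 = P.1) && decide (Q.2 = P.2 + 8)) ||
  (decide (Q.1 = P.1 + 5) && decide (Q.2 = P.2 + 7)) ||
  (decide (P.1 = Q.1 + 3) && decide (Q.2 = P.2 + 7)) ||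
  (decide (Q.1 = P.1 + 7) && decide (Q.2 = P.2 + 5)) ||
  (decide (Q.1 = P.1 + 7) && decide (P.2 = Q.2 + 3))

/-- may the vertices of the two kinds be adjacent?  A lever vertex is adjacent to a normal vertex
only if it lies in the row `B = 18` and the normal vertex in the row `B = 25`. -/
def tagOk (u v : Nm) : Bool :=
  (u.1 == v.1) || (u.1 && (decide (u.2.2 = 18) && decide (v.2.2 = 25))) ||
    (v.1 && (decide (v.2.2 = 18) && decide (u.2.2 = 25)))

/-- adjacency of names -/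
def adj (u v : Nm) : Bool := (arc u.2 v.2 || arc v.2 u.2) && tagOk u v

/-- the infinite graph of all names -/
def NG : SimpleGraph Nm where
  Adj u v := adj u v = true
  symm := ⟨fun u v h => by
    unfold adj tagOk at *
    rw [Bool.or_comm (arc v.2 u.2)]
    rcases hu : u.1 <;> rcases hv : v.1 <;> simp_all⟩
  loopless := ⟨fun u h => by simp [adj, arc] at h⟩

/-! ### layouts -/

/-- Layout data.  `N`: the grid has the vertices `(i, j)`, `i, j ≤ N`.  `vb`: vertical couplings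
`(g, c)`: a hole `[g-1, g+3] × [c, c+7]` with a rigid body attached to its bottom and top sides.
`hb`: horizontal couplings `(g, c)`: a hole `[c, c+7] × [g-1, g+3]` with a rigid body attached to
its left and right sides.  `ch`: empty holes `[x, x+12] × [x, x+12]`.  `tb`: positions of the ties
on the bottom and left sides; `tt`: on the top and right sides.  `b1`, `T`: base and tip of the
lever. -/
structure Lay where
  N : ℕ
  vb : List (ℕ × ℕ)
  hb : List (ℕ × ℕ)
  ch : List ℕ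
  tb : List ℕ
  tt : List ℕ
  b1 : ℕ
  T : ℕ

/-- the interior vertices of the rigid body, relative to its lower left corner -/
def Tm : List (ℕ × ℕ) :=
  [(5, 7), (13, 7), (2, 14), (10, 14), (7, 21), (15, 21), (4, 28), (12, 28), (1, 35), (9, 35),
    (6, 42), (14, 42), (3, 49), (11, 49)]

/-- all vertices of the rigid body, with the six grid vertices to which it is attached -/
def Tm' : List (ℕ × ℕ) := [(0, 0), (8, 0), (16, 0)] ++ Tm ++ [(0, 56), (8, 56), (16, 56)]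

/-- the holes `(x, y, w, h)`: `[x, x+w] × [y, y+h]` -/
def Lay.rects (L : Lay) : List (ℕ × ℕ × ℕ × ℕ) :=
  L.vb.map (fun p => (p.1 - 1, p.2, 4, 7)) ++ L.hb.map (fun p => (p.2, p.1 - 1, 7, 4)) ++
    L.ch.map (fun x => (x, x, 12, 12))

/-- is the grid vertex `(i, j)` in the interior of a hole? -/
def Lay.inn (L : Lay) (i j : ℕ) : Bool :=
  L.rects.any fun r => decide (r.1 < i) && (decide (i < r.1 + r.2.2.1) &&
    (decide (r.2.1 < j) && decide (j < r.2.1 + r.2.2.2)))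

/-- the grid vertex `(i, j)` is present -/
def Lay.pres (L : Lay) (i j : ℕ) : Prop := i ≤ L.N ∧ j ≤ L.N ∧ L.inn i j = false

/-- the cell `[i, i+1] × [j, j+1]` is present -/
def Lay.cell (L : Lay) (i j : ℕ) : Prop :=
  i < L.N ∧ j < L.N ∧ ∀ r ∈ L.rects, ¬ (r.1 ≤ i ∧ i < r.1 + r.2.2.1 ∧ r.2.1 ≤ j ∧
    j < r.2.1 + r.2.2.2)

/-- name of a grid vertex -/
def gn (i j : ℕ) : Nm := (false, 8 * i + 32, 8 * j + 32)

/-- names of the grid vertices -/
def Lay.grid (L : Lay) : List Nm :=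
  (List.range (L.N + 1)).flatMap fun i =>
    ((List.range (L.N + 1)).filter fun j => !(L.inn i j)).map fun j => gn i j

/-- names of the vertices of the bodies -/
def Lay.bod (L : Lay) : List Nm :=
  (L.vb.flatMap fun p => Tm.map fun q => ((false, 8 * p.1 + 32 + q.1, 8 * p.2 + 32 + q.2) : Nm)) ++
  (L.hb.flatMap fun p => Tm.map fun q => ((false, 8 * p.2 + 32 + q.2, 8 * p.1 + 32 + q.1) : Nm))

/-- names of the ties -/
def Lay.tie (L : Lay) : List Nm :=
  (L.tb.flatMap fun i => [((false, 8 * i + 35, 25) : Nm), (false, 25, 8 * i + 35)]) ++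
  (L.tt.flatMap fun i => [((false, 8 * i + 37, 8 * L.N + 39) : Nm),
    (false, 8 * L.N + 39, 8 * i + 37)])

/-- names of the vertices of the lever -/
def Lay.lev (L : Lay) : List Nm :=
  ((List.range (L.b1 + 2 - L.T)).map fun i => ((true, 8 * (L.T - 1 + i) + 38, 18) : Nm)) ++
  ((List.range (L.b1 + 1 - L.T)).map fun i => ((true, 8 * (L.T - 1 + i) + 41, 11) : Nm)) ++
  [(true, 8 * L.T + 35, 25), (true, 8 * L.T + 27, 25), (true, 8 * L.T + 32, 32)]

/-- the normal vertices -/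
def Lay.vN (L : Lay) : List Nm := L.grid ++ (L.bod ++ L.tie)

/-- all vertices -/
def Lay.verts (L : Lay) : List Nm := (L.vN ++ L.lev).dedup

/-- the transposed layout -/
def Lay.tr (L : Lay) : Lay := { L with vb := L.hb, hb := L.vb }

/-- the holes are inside the grid and pairwise separated by at least one cell -/
structure Lay.GoodN (L : Lay) : Prop where
  inb : ∀ r ∈ L.rects, 1 ≤ r.1 ∧ 1 ≤ r.2.1 ∧ r.1 + r.2.2.1 < L.N ∧ r.2.1 + r.2.2.2 < L.N
  sep : ∀ r ∈ L.rects, ∀ s ∈ L.rects, r ≠ s → r.1 + r.2.2.1 < s.1 ∨ s.1 + s.2.2.1 < r.1 ∨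
    r.2.1 + r.2.2.2 < s.2.1 ∨ s.2.1 + s.2.2.2 < r.2.1
  vb2 : ∀ p ∈ L.vb, 2 ≤ p.1
  hb2 : ∀ p ∈ L.hb, 2 ≤ p.1
  tbN : ∀ i ∈ L.tb, i < L.N
  ttN : ∀ i ∈ L.tt, i < L.N

/-- good layouts -/
structure Lay.Good (L : Lay) : Prop extends L.GoodN where
  b1m : L.b1 ∈ L.tb
  b1m' : L.b1 + 1 ∈ L.tb
  T2 : 2 ≤ L.T
  Tb : L.T + 2 ≤ L.b1
  gap : ∀ i ∈ L.tb, i + 5 < L.T ∨ L.b1 ≤ i

/-! ### realisations -/

/-- Realisations: adjacent vertices have distance `1` and distinct vertices have distance at least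
`1`. -/
structure Real (V : List Nm) (p : Nm → ℂ) : Prop where
  unit : ∀ u ∈ V, ∀ v ∈ V, adj u v = true → ‖p u - p v‖ = 1
  sep : ∀ u ∈ V, ∀ v ∈ V, u ≠ v → 1 ≤ ‖p u - p v‖

/-! ### complex numbers -/

noncomputable section

/-- `e^{iπ/3}` -/
def om : ℂ := ⟨1 / 2, Real.sqrt 3 / 2⟩

/-- the number `(8ω - 5)/7` of modulus `1` -/
def rho : ℂ := (8 * om - 5) / 7

/-- `Im (v · conj h)`; positive if `v` is to the left of `h` -/
def cr (h v : ℂ) : ℝ := (v * (starRingEnd ℂ) h).im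

/-- `Re (v · conj h)` -/
def dt (h v : ℂ) : ℝ := (v * (starRingEnd ℂ) h).re

end

/-- position of the grid vertex `(i, j)` -/
def gp (p : Nm → ℂ) (i j : ℕ) : ℂ := p (gn i j)

/-- horizontal step -/
noncomputable def hs (P : ℕ → ℕ → ℂ) (i j : ℕ) : ℂ := P (i + 1) j - P i j

/-- vertical step -/
noncomputable def vs (P : ℕ → ℕ → ℂ) (i j : ℕ) : ℂ := P i (j + 1) - P i j

/-- What a realisation of a layout says about the positions `P i j` of the grid vertices
(after a reflection, if necessary). -/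
structure GD (L : Lay) (P : ℕ → ℕ → ℂ) : Prop where
  cell : ∀ i j, L.cell i j → P i j + P (i + 1) (j + 1) = P (i + 1) j + P i (j + 1)
  ang : ∀ i j, L.cell i j → ‖hs P i j‖ = 1 ∧ ‖vs P i j‖ = 1 ∧ |dt (hs P i j) (vs P i j)| ≤ 1 / 2 ∧
    0 < cr (hs P i j) (vs P i j)
  vbc : ∀ g c, (g, c) ∈ L.vb → ∀ v : ℂ, (∀ k < 8, vs P (g - 1) (c - 1 + k) = v) →
    (∀ k < 7, vs P (g + 3) (c + k) = v) →
    v = rho * hs P g c ∧ (∀ i, g - 1 ≤ i → i < g + 3 → hs P i (c + 7) = hs P i c) ∧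
      hs P (g + 1) c = hs P g c
  hbc : ∀ g c, (g, c) ∈ L.hb → ∀ h : ℂ, (∀ k < 8, hs P (c - 1 + k) (g - 1) = h) →
    (∀ k < 7, hs P (c + k) (g + 3) = h) →
    vs P c g = rho * h ∧ (∀ j, g - 1 ≤ j → j < g + 3 → vs P (c + 7) j = vs P c j) ∧
      vs P c (g + 1) = vs P c g
  tieB : ∀ i, i ∈ L.tb → i + 1 ∈ L.tb → hs P (i + 1) 0 = hs P i 0
  tieL : ∀ i, i ∈ L.tb → i + 1 ∈ L.tb → vs P 0 (i + 1) = vs P 0 i
  tieT : ∀ i, i ∈ L.tt → i + 1 ∈ L.tt → hs P (i + 1) L.N = hs P i L.N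
  tieR : ∀ i, i ∈ L.tt → i + 1 ∈ L.tt → vs P L.N (i + 1) = vs P L.N i
  lev : 1 ≤ ‖P L.b1 0 - P L.T 0 - ((L.b1 : ℂ) - L.T) * hs P L.b1 0‖

end Pool.Agent.PLN
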