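import Pool.Agent.PLN.Core

/-!
# Four-cycles with unit edges are rhombi

Both `b` and `d` are at distance `1` from `a` and from `c`, where `a ≠ c`.  The two unit circles
around `a` and `c` meet in at most two points, and these are symmetric with respect to the midpoint
of `a` and `c`; as `b ≠ d`, they are `b` and `d`, so `b + d = a + c`.

Algebraic proof: put `x = b - a`, `y = d - a`, `w = c - a ≠ 0`; `|x| = |y| = 1`,
`|x - w| = |y - w| = 1`, so `2 Re (x conj w) = |w|² = 2 Re (y conj w)`.  Hence `(x - y) ⟂ w`, and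
`|x|² = |y|²` gives `(x - y) ⟂ (x + y)`.  As `x - y ≠ 0`, `x + y` is a real multiple of `w`, and
`Re ((x + y) conj w) = |w|²` gives `x + y = w`.
-/

namespace Pool.Agent.PLN

theorem Cx2_sq {z : ℂ} (h : ‖z‖ = 1) : z.re * z.re + z.im * z.im = 1 := by
  rw [← Complex.normSq_apply, ← Complex.sq_norm, h]
  norm_num

theorem rhomb {a b c d : ℂ} (h1 : ‖a - b‖ = 1) (h2 : ‖b - c‖ = 1) (h3 : ‖c - d‖ = 1)
    (h4 : ‖d - a‖ = 1) (hac : a ≠ c) (hbd : b ≠ d) : a + c = b + d := by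
  have e1 := Cx2_sq h1
  have e2 := Cx2_sq h2
  have e3 := Cx2_sq h3
  have e4 := Cx2_sq h4
  simp only [Complex.sub_re, Complex.sub_im] at e1 e2 e3 e4
  obtain ⟨a1, a2⟩ := a
  obtain ⟨b1, b2⟩ := b
  obtain ⟨c1, c2⟩ := c
  obtain ⟨d1, d2⟩ := d
  simp only at e1 e2 e3 e4
  -- coordinates relative to a
  obtain ⟨x1, hx1⟩ : ∃ x, x = b1 - a1 := ⟨_, rfl⟩
  obtain ⟨x2, hx2⟩ : ∃ x, x = b2 - a2 := ⟨_, rfl⟩
  obtain ⟨y1, hy1⟩ : ∃ x, x = d1 - a1 := ⟨_, rfl⟩
  obtain ⟨y2, hy2⟩ : ∃ x, x = d2 - a2 := ⟨_, rfl⟩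
  obtain ⟨w1, hw1⟩ : ∃ x, x = c1 - a1 := ⟨_, rfl⟩
  obtain ⟨w2, hw2⟩ : ∃ x, x = c2 - a2 := ⟨_, rfl⟩
  have f1 : x1 * x1 + x2 * x2 = 1 := by rw [hx1, hx2]; linear_combination e1
  have f2 : y1 * y1 + y2 * y2 = 1 := by rw [hy1, hy2]; linear_combination e4
  have f3 : (x1 - w1) * (x1 - w1) + (x2 - w2) * (x2 - w2) = 1 := by
    rw [hx1, hx2, hw1, hw2]; linear_combination e2
  have f4 : (y1 - w1) * (y1 - w1) + (y2 - w2) * (y2 - w2) = 1 := by
    rw [hy1, hy2, hw1, hw2]; linear_combination e3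
  have hw : w1 * w1 + w2 * w2 ≠ 0 := by
    intro h0
    apply hac
    have g1 : w1 = 0 := mul_self_eq_zero.1 (by linarith [mul_self_nonneg w1, mul_self_nonneg w2])
    have g2 : w2 = 0 := mul_self_eq_zero.1 (by linarith [mul_self_nonneg w1, mul_self_nonneg w2])
    apply Complex.ext
    · simp only; linarith
    · simp only; linarith
  have hd : (x1 - y1) ≠ 0 ∨ (x2 - y2) ≠ 0 := by
    by_contra hcon
    push Not at hcon
    apply hbd
    apply Complex.ext
    · simp only; linarith [hcon.1]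
    · simp only; linarith [hcon.2]
  have g1 : (x1 - y1) * w1 + (x2 - y2) * w2 = 0 := by
    linear_combination (1 / 2) * f1 - (1 / 2) * f3 - (1 / 2) * f2 + (1 / 2) * f4
  have g2 : (x1 - y1) * (x1 + y1) + (x2 - y2) * (x2 + y2) = 0 := by
    linear_combination f1 - f2
  have g3 : (x1 + y1) * w1 + (x2 + y2) * w2 = w1 * w1 + w2 * w2 := by
    linear_combination (1 / 2) * f1 - (1 / 2) * f3 + (1 / 2) * f2 - (1 / 2) * f4
  have g4 : (x1 + y1) * w2 - (x2 + y2) * w1 = 0 := by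
    have k1 : ((x1 + y1) * w2 - (x2 + y2) * w1) * (x1 - y1) = 0 := by
      linear_combination w2 * g2 - (x2 + y2) * g1
    have k2 : ((x1 + y1) * w2 - (x2 + y2) * w1) * (x2 - y2) = 0 := by
      linear_combination (x1 + y1) * g1 - w1 * g2
    rcases hd with h | h
    · exact (mul_eq_zero.1 k1).resolve_right h
    · exact (mul_eq_zero.1 k2).resolve_right h
  have p1 : x1 + y1 - w1 = 0 := by
    have : (x1 + y1 - w1) * (w1 * w1 + w2 * w2) = 0 := by
      linear_combination w1 * g3 + w2 * g4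
    exact (mul_eq_zero.1 this).resolve_right hw
  have p2 : x2 + y2 - w2 = 0 := by
    have : (x2 + y2 - w2) * (w1 * w1 + w2 * w2) = 0 := by
      linear_combination w2 * g3 - w1 * g4
    exact (mul_eq_zero.1 this).resolve_right hw
  apply Complex.ext
  · simp only [Complex.add_re]; linarith
  · simp only [Complex.add_im]; linarith

end Pool.Agent.PLN
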