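import Pool.Agent.PLN.Core

/-!
# Two rhombi with a common edge lie on different sides of it

Divide by `v`: let `x = - h1 / v` and `y = h2 / v`, unit numbers with `|Re x|, |Re y| ≤ 1/2`.
Suppose `0 < cr h1 v` and `¬ 0 < cr h2 v`.  `cr h v = Im (v conj h) = - Im (h / v)` (as `|v| = 1`),
so `Im x > 0` and `Im y ≥ 0`, hence `Im x, Im y ∈ [√3/2, 1]`.  Let `d = x - y`, so
`h1 + h2 = - d v`.  `|Im d| ≤ 1 - √3/2 ≤ 0.14`, `|Re d| ≤ 1`.  The hypothesis `|h1 + h2| ≥ 1` gives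
`(Re d)² ≥ 1 - 0.02`, so `|Re d| ≥ 0.98`; then `|d - 1| < 1` or `|d + 1| < 1`, which contradicts one
of the last two hypotheses (`h1 + h2 + v = (1 - d) v`, `h1 + h2 - v = - (1 + d) v`).
-/

namespace Pool.Agent.PLN

theorem Cx3_mul {z v : ℂ} (nv : ‖v‖ = 1) : ‖z * (starRingEnd ℂ) v‖ = ‖z‖ := by
  rw [norm_mul, RCLike.norm_conj, nv, mul_one]

theorem Cx3_sq (z : ℂ) : ‖z‖ ^ 2 = z.re * z.re + z.im * z.im := by
  rw [Complex.sq_norm, Complex.normSq_apply]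

theorem Cx3_one {v : ℂ} (nv : ‖v‖ = 1) : v * (starRingEnd ℂ) v = 1 := by
  rw [Complex.mul_conj, ← Complex.sq_norm, nv]
  norm_num

theorem Cx3_low {r i : ℝ} (h : r * r + i * i = 1) (h1 : -(1 / 2) ≤ r) (h2 : r ≤ 1 / 2)
    (hi : 0 ≤ i) : 0.866 ≤ i ∧ i ≤ 1 := by
  have a : r * r ≤ 1 / 4 := by nlinarith
  constructor
  · by_contra hc
    push Not at hc
    nlinarith
  · nlinarith

theorem Cx3_fin {s m : ℝ} (hm : m * m ≤ 0.02) (h0 : 1 ≤ s * s + m * m)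
    (h1 : 1 ≤ (s - 1) * (s - 1) + m * m) (hs : 0 ≤ s) (hs1 : s ≤ 1) : False := by
  have a : 0.9 ≤ s := by
    by_contra hc
    push Not at hc
    nlinarith
  have b : s ≤ 0.1 := by
    by_contra hc
    push Not at hc
    nlinarith
  linarith

theorem orient_cell {h1 h2 v : ℂ} (n1 : ‖h1‖ = 1) (n2 : ‖h2‖ = 1) (nv : ‖v‖ = 1)
    (d1 : |dt h1 v| ≤ 1 / 2) (d2 : |dt h2 v| ≤ 1 / 2) (e0 : 1 ≤ ‖h1 + h2‖)
    (e1 : 1 ≤ ‖h1 + h2 + v‖) (e2 : 1 ≤ ‖h1 + h2 - v‖) (h : 0 < cr h1 v) : 0 < cr h2 v := by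
  by_contra hcon
  rw [not_lt] at hcon
  obtain ⟨x, hx⟩ : ∃ x, x = h1 * (starRingEnd ℂ) v := ⟨_, rfl⟩
  obtain ⟨y, hy⟩ : ∃ y, y = h2 * (starRingEnd ℂ) v := ⟨_, rfl⟩
  have hvv := Cx3_one nv
  have nx : ‖x‖ ^ 2 = 1 := by rw [hx, Cx3_mul nv, n1]; norm_num
  have ny : ‖y‖ ^ 2 = 1 := by rw [hy, Cx3_mul nv, n2]; norm_num
  have s0 : 1 ≤ ‖x + y‖ ^ 2 := by
    have : x + y = (h1 + h2) * (starRingEnd ℂ) v := by rw [hx, hy]; ring
    rw [this, Cx3_mul nv]; nlinarith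
  have s1 : 1 ≤ ‖x + y + 1‖ ^ 2 := by
    have : x + y + 1 = (h1 + h2 + v) * (starRingEnd ℂ) v := by rw [hx, hy, ← hvv]; ring
    rw [this, Cx3_mul nv]; nlinarith
  have s2 : 1 ≤ ‖x + y - 1‖ ^ 2 := by
    have : x + y - 1 = (h1 + h2 - v) * (starRingEnd ℂ) v := by rw [hx, hy, ← hvv]; ring
    rw [this, Cx3_mul nv]; nlinarith
  have cx : cr h1 v = - x.im := by
    unfold cr
    rw [hx]
    simp only [Complex.mul_im, Complex.conj_re, Complex.conj_im]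
    ring
  have cy : cr h2 v = - y.im := by
    unfold cr
    rw [hy]
    simp only [Complex.mul_im, Complex.conj_re, Complex.conj_im]
    ring
  have dx : dt h1 v = x.re := by
    unfold dt
    rw [hx]
    simp only [Complex.mul_re, Complex.conj_re, Complex.conj_im]
    ring
  have dy : dt h2 v = y.re := by
    unfold dt
    rw [hy]
    simp only [Complex.mul_re, Complex.conj_re, Complex.conj_im]
    ring
  rw [dx, abs_le] at d1
  rw [dy, abs_le] at d2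
  rw [cx] at h
  rw [cy] at hcon
  rw [Cx3_sq] at nx ny s0 s1 s2
  simp only [Complex.add_re, Complex.add_im, Complex.sub_re, Complex.sub_im, Complex.one_re,
    Complex.one_im] at s0 s1 s2
  obtain ⟨x1, x2⟩ := x
  obtain ⟨y1, y2⟩ := y
  simp only at *
  obtain ⟨i1, i2⟩ := Cx3_low (r := x1) (i := -x2) (by linear_combination nx) d1.1 d1.2 h.le
  obtain ⟨j1, j2⟩ := Cx3_low (r := y1) (i := y2) ny d2.1 d2.2 (by linarith)
  have m1 : -0.134 ≤ x2 + y2 := by linarith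
  have m2 : x2 + y2 ≤ 0.134 := by linarith
  have m : (x2 + y2) * (x2 + y2) ≤ 0.02 := by
    clear s0 s1 s2 nx ny
    nlinarith
  rcases le_total 0 (x1 + y1) with hs | hs
  · have t1 : x1 + y1 ≤ 1 := by linarith [d1.2, d2.2]
    exact Cx3_fin m s0 (by linarith) hs t1
  · have t1 : -1 ≤ x1 + y1 := by linarith [d1.1, d2.1]
    exact Cx3_fin (s := -(x1 + y1)) m (by linarith) (by linarith) (by linarith) (by linarith)

end Pool.Agent.PLN
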