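import Pool.Agent.PLN.Cx1

/-!
# A triangle on the upper side of an edge with a rhombus on its lower side

`k` is the apex of an equilateral triangle over the edge from `0` to `h`: `k = om h` or
`k = conj om h = (1 - om) h`.  Suppose the latter; divide by `h`: `v' = v / h` has
`|Re v'| ≤ 1/2`, `Im v' > 0` (so `Im v' ∈ [√3/2, 1]`).  Then `(k + v)/h = 1 - om + v'` has imaginary
part `Im v' - √3/2 ∈ [0, 0.14]` and real part `1/2 + Re v' ∈ [0, 1]`; `|k + v| ≥ 1` gives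
`1/2 + Re v' ≥ 0.98`, and `(k - h + v)/h` has real part `Re v' - 1/2 ∈ [-1, 0]`, here
`≥ -0.02`, so its modulus is `< 1`, a contradiction.
-/

namespace Pool.Agent.PLN

theorem Cx4_mul {z v : ℂ} (nv : ‖v‖ = 1) : ‖z * (starRingEnd ℂ) v‖ = ‖z‖ := by
  rw [norm_mul, RCLike.norm_conj, nv, mul_one]

theorem Cx4_sq (z : ℂ) : ‖z‖ ^ 2 = z.re * z.re + z.im * z.im := by
  rw [Complex.sq_norm, Complex.normSq_apply]

theorem Cx4_one {v : ℂ} (nv : ‖v‖ = 1) : v * (starRingEnd ℂ) v = 1 := by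
  rw [Complex.mul_conj, ← Complex.sq_norm, nv]
  norm_num

theorem Cx4_low {r i : ℝ} (h : r * r + i * i = 1) (h1 : -(1 / 2) ≤ r) (h2 : r ≤ 1 / 2)
    (hi : 0 ≤ i) : 0.866 ≤ i ∧ i ≤ 1 := by
  have a : r * r ≤ 1 / 4 := by nlinarith
  constructor
  · by_contra hc
    push Not at hc
    nlinarith
  · nlinarith

theorem Cx4_fin {s m : ℝ} (hm : m * m ≤ 0.02) (h0 : 1 ≤ s * s + m * m)
    (h1 : 1 ≤ (s - 1) * (s - 1) + m * m) (hs : 0 ≤ s) (hs1 : s ≤ 1) : False := by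
  have a : 0.9 ≤ s := by
    by_contra hc
    push Not at hc
    nlinarith
  have b : s ≤ 0.1 := by
    by_contra hc
    push Not at hc
    nlinarith
  linarith

theorem orient_tri {h v k : ℂ} (nh : ‖h‖ = 1) (nv : ‖v‖ = 1) (nk : ‖k‖ = 1) (nkh : ‖k - h‖ = 1)
    (d : |dt h v| ≤ 1 / 2) (c : 0 < cr h v) (e1 : 1 ≤ ‖k + v‖) (e2 : 1 ≤ ‖k - h + v‖) :
    k = om * h := by
  obtain ⟨q, hq⟩ : ∃ q, q = k * (starRingEnd ℂ) h := ⟨_, rfl⟩
  obtain ⟨z, hz⟩ : ∃ z, z = v * (starRingEnd ℂ) h := ⟨_, rfl⟩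
  have hh := Cx4_one nh
  have nq : ‖q‖ ^ 2 = 1 := by rw [hq, Cx4_mul nh, nk]; norm_num
  have nz : ‖z‖ ^ 2 = 1 := by rw [hz, Cx4_mul nh, nv]; norm_num
  have nq1 : ‖q - 1‖ ^ 2 = 1 := by
    have : q - 1 = (k - h) * (starRingEnd ℂ) h := by rw [hq, ← hh]; ring
    rw [this, Cx4_mul nh, nkh]; norm_num
  have s1 : 1 ≤ ‖q + z‖ ^ 2 := by
    have : q + z = (k + v) * (starRingEnd ℂ) h := by rw [hq, hz]; ring
    rw [this, Cx4_mul nh]; nlinarith
  have s2 : 1 ≤ ‖q - 1 + z‖ ^ 2 := by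
    have : q - 1 + z = (k - h + v) * (starRingEnd ℂ) h := by rw [hq, hz, ← hh]; ring
    rw [this, Cx4_mul nh]; nlinarith
  have cz : cr h v = z.im := by unfold cr; rw [hz]
  have dz : dt h v = z.re := by unfold dt; rw [hz]
  rw [cz] at c
  rw [dz, abs_le] at d
  rw [Cx4_sq] at nq nz nq1 s1 s2
  have key : q = om := by
    obtain ⟨q1, q2⟩ := q
    obtain ⟨z1, z2⟩ := z
    simp only [Complex.add_re, Complex.add_im, Complex.sub_re, Complex.sub_im, Complex.one_re,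
      Complex.one_im] at *
    have a1 : q1 = 1 / 2 := by linarith
    have hs3 := sqrt3_bd
    have h3 : Real.sqrt 3 * Real.sqrt 3 = 3 := Real.mul_self_sqrt (by norm_num)
    have a2 : (q2 - Real.sqrt 3 / 2) * (q2 + Real.sqrt 3 / 2) = 0 := by
      rw [a1] at nq
      linear_combination nq - (1 / 4) * h3
    rcases mul_eq_zero.1 a2 with a3 | a3
    · unfold om
      apply Complex.ext
      · exact a1
      · simp only; linarith
    · exfalso
      obtain ⟨i1, i2⟩ := Cx4_low nz d.1 d.2 c.le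
      have b2 : q2 = - (Real.sqrt 3 / 2) := by linarith
      have m1 : -0.001 ≤ q2 + z2 := by linarith [hs3.2]
      have m2 : q2 + z2 ≤ 0.135 := by linarith [hs3.1]
      have m : (q2 + z2) * (q2 + z2) ≤ 0.02 := by
        clear s1 s2 nq nz nq1 a2 a3 b2 h3 hs3
        nlinarith
      rw [a1] at s1 s2
      exact Cx4_fin (s := 1 / 2 + z1) m (by linarith) (by linarith) (by linarith [d.1])
        (by linarith [d.2])
  have : k = q * h := by
    rw [hq, mul_assoc, mul_comm ((starRingEnd ℂ) h) h, hh, mul_one]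
  rw [this, key]

end Pool.Agent.PLN
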