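import Pool.Agent.helper88.SurjDefs

/-!
# The ply number problem and the class `∃ℝ`
-/

namespace Pool.Agent.PLN

open Pool.Agent.TM2Lib Pool.Agent.TM2Lib.D
open Pool.Agent.helper88.Surj (Fm Problem encFm)

/-! ### the ply number -/

/-- Radius of the disk at `v` in the straight-line drawing `p`: half the length of the longest
edge at `v` (`0` if there is none). -/
noncomputable def radius {n : ℕ} (G : SimpleGraph (Fin n)) (p : Fin n → ℂ) (v : Fin n) : ℝ :=
  ⨆ w : {w // G.Adj v w}, ‖p v - p w‖ / 2

/-- Every point of the plane lies in at most `k` of the open disks of the drawing. -/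
def PlyLe {n : ℕ} (G : SimpleGraph (Fin n)) (p : Fin n → ℂ) (k : ℕ) : Prop :=
  ∀ z : ℂ, {v | ‖z - p v‖ < radius G p v}.ncard ≤ k

/-- The ply number: the smallest `k` such that some straight-line drawing (an injective map of the
vertices to the plane) has ply at most `k`. -/
noncomputable def plyNumber {n : ℕ} (G : SimpleGraph (Fin n)) : ℕ :=
  sInf {k | ∃ p : Fin n → ℂ, Function.Injective p ∧ PlyLe G p k}

/-! ### graphs and their codes -/

/-- Finite simple graphs with vertex set `{0, …, n-1}`. -/
abbrev Graph : Type := Σ n : ℕ, SimpleGraph (Fin n)

open Classical in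
/-- The adjacency lists of a graph. -/
noncomputable def adjLists (G : Graph) : List (List ℕ) :=
  (List.finRange G.1).map fun v =>
    ((List.finRange G.1).filter fun u => decide (G.2.Adj v u)).map Fin.val

open Classical in
theorem adjLists_injective : Function.Injective adjLists := by
  rintro ⟨n, G⟩ ⟨m, H⟩ h
  have h1 : n = m := by
    have := congrArg List.length h
    simpa [adjLists] using this
  subst h1
  have h2 : G = H := by
    ext v w
    have h3 := congrArg (fun l : List (List ℕ) => l[(v : ℕ)]?) h
    simp only [adjLists, List.getElem?_map] at h3
    have hv : (List.finRange n)[(v : ℕ)]? = some v := by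
      rw [List.getElem?_eq_getElem (by simp)]
      simp
    rw [hv] at h3
    simp only [Option.map_some, Option.some.injEq] at h3
    have h4 : (w : ℕ) ∈ ((List.finRange n).filter fun u => decide (G.Adj v u)).map Fin.val ↔
        (w : ℕ) ∈ ((List.finRange n).filter fun u => decide (H.Adj v u)).map Fin.val := by
      rw [h3]
    simp only [List.mem_map, List.mem_filter, List.mem_finRange, true_and,
      decide_eq_true_eq] at h4
    constructor
    · intro hG
      obtain ⟨u, hu, hu'⟩ := h4.1 ⟨w, hG, rfl⟩
      rwa [← Fin.ext hu']
    · intro hH
      obtain ⟨u, hu, hu'⟩ := h4.2 ⟨w, hH, rfl⟩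
      rwa [← Fin.ext hu']
  rw [h2]

theorem enc_nat_injective : Function.Injective (enc : ℕ → D) := by
  intro a b h
  have h1 : encList enc a.bits = encList enc b.bits := h
  have h2 : ∀ l l' : List Bool, encList enc l = encList enc l' → l = l' := by
    intro l
    induction l with
    | nil => intro l' h; cases l' with
      | nil => rfl
      | cons b l' => simp [encList] at h
    | cons a l ih => intro l' h; cases l' with
      | nil => simp [encList] at h
      | cons b l' =>
        simp only [encList, D.cons.injEq] at h
        rw [ih l' h.2, Pool.Agent.helper88.Surj.ofBool_injective h.1]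
  exact Pool.Agent.helper88.Surj.bits_injective (h2 _ _ h1)

theorem encList_inj {α : Type} {f : α → D} (hf : Function.Injective f) :
    Function.Injective (encList f) := by
  intro l
  induction l with
  | nil => intro l' h; cases l' with
    | nil => rfl
    | cons b l' => simp [encList] at h
  | cons a l ih => intro l' h; cases l' with
    | nil => simp [encList] at h
    | cons b l' =>
      simp only [encList, D.cons.injEq] at h
      rw [ih h.2, hf h.1]

/-- The problem PLY: given a graph (by its adjacency lists) and an integer `k ≥ 0` (in binary), is
the ply number of the graph at most `k`? -/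
noncomputable def PLY : Problem where
  Inst := Graph × ℕ
  code I := encD (enc (adjLists I.1, I.2))
  code_injective := by
    rintro ⟨G, k⟩ ⟨H, l⟩ h
    have h1 := Pool.Agent.helper88.Surj.encD_injective h
    have h2 : D.cons (encList (encList enc) (adjLists G)) (enc k) =
        D.cons (encList (encList enc) (adjLists H)) (enc l) := h1
    simp only [D.cons.injEq] at h2
    rw [adjLists_injective (encList_inj (encList_inj enc_nat_injective) h2.1),
      enc_nat_injective h2.2]
  Yes I := plyNumber I.1.2 ≤ I.2

/-- The problem PLY for `k = 1`: given a graph (by its adjacency lists), is its ply number at most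
`1`? -/
noncomputable def PLY1 : Problem where
  Inst := Graph
  code G := encD (enc (adjLists G))
  code_injective := by
    intro G H h
    have h1 := Pool.Agent.helper88.Surj.encD_injective h
    have h2 : encList (encList enc) (adjLists G) = encList (encList enc) (adjLists H) := h1
    exact adjLists_injective (encList_inj (encList_inj enc_nat_injective) h2)
  Yes G := plyNumber G.2 ≤ 1

/-! ### the class `∃ℝ` -/

/-- A sentence `∃ x ∈ ℝ^n, φ(x)`. -/
structure ExSentence where
  /-- number of variables -/
  n : ℕ
  /-- the quantifier-free part -/
  φ : Fm n

/-- Truth of a sentence over the reals. -/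
def ExSentence.IsTrue (S : ExSentence) : Prop := ∃ x : Fin S.n → ℝ, S.φ.holds x

/-- Codes of sentences. -/
def encEx (S : ExSentence) : D := .cons (Pool.Agent.helper88.Surj.un S.n) (encFm S.φ)

theorem encEx_injective : Function.Injective encEx := by
  rintro ⟨n, φ⟩ ⟨m, ψ⟩ h
  simp only [encEx, D.cons.injEq] at h
  obtain rfl := Pool.Agent.helper88.Surj.un_injective h.1
  rw [Pool.Agent.helper88.Surj.encFm_injective h.2]

/-- Truth over `ℝ` of sentences `∃ x ∈ ℝ^n, φ(x)`. -/
def ETR : Problem where
  Inst := ExSentence
  code S := encD (encEx S)
  code_injective := Pool.Agent.helper88.Surj.encD_injective.comp encEx_injective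
  Yes S := S.IsTrue

/-- The class `∃ℝ`: the problems with a polynomial time many-one reduction to the truth of
existential sentences over `ℝ`. -/
def InER (P : Problem) : Prop := P.ReducesTo ETR

/-- `∃ℝ`-hardness. -/
def ERHard (P : Problem) : Prop := ∀ Q : Problem, InER Q → Q.ReducesTo P

/-- `∃ℝ`-completeness. -/
def ERComplete (P : Problem) : Prop := InER P ∧ ERHard P

end Pool.Agent.PLN
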