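import Pool.Agent.PLN.Rsd
import Pool.Agent.TM2Lib.Unary2

/-!
# Codes of the intermediate objects

All numbers are coded in unary (`Un`), except those in names of vertices.
-/

namespace Pool.Agent.PLN

open Pool.Agent.TM2Lib

/-- unary version of a constraint -/
def scU (c : SC) : Bool × Bool × Un × Un × Un :=
  (c.1, c.2.1, ⟨c.2.2.1⟩, ⟨c.2.2.2.1⟩, ⟨c.2.2.2.2⟩)

/-- unary version of a constraint -/
def lcU (c : LC) : Bool × Un × Un × Un := (c.1, ⟨c.2.1⟩, ⟨c.2.2.1⟩, ⟨c.2.2.2⟩)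

/-- unary version of a quadruple -/
def qdU (c : ℕ × ℕ × ℕ × ℕ) : Un × Un × Un × Un := (⟨c.1⟩, ⟨c.2.1⟩, ⟨c.2.2.1⟩, ⟨c.2.2.2⟩)

/-- unary version of a pair -/
def prU (c : ℕ × ℕ) : Un × Un := (⟨c.1⟩, ⟨c.2⟩)

instance : Enc SL := ⟨fun S => enc ((⟨S.n⟩ : Un), S.cs.map scU)⟩

instance : Enc LS := ⟨fun S => enc ((⟨S.n⟩ : Un), S.cs.map lcU)⟩

instance : Enc UV := ⟨fun I => enc ((⟨I.m⟩ : Un), I.q.map qdU)⟩

instance : Enc Lay := ⟨fun L => enc (((⟨L.N⟩ : Un), (⟨L.b1⟩ : Un), (⟨L.T⟩ : Un)),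
  (L.vb.map prU, L.hb.map prU), (L.ch.map Un.mk, L.tb.map Un.mk, L.tt.map Un.mk))⟩

/-- raw polynomial maps: number of variables, polynomials -/
abbrev RawF : Type := Un × List (List ((Bool × List Bool) × List Un))

end Pool.Agent.PLN
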