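import Pool.Agent.PLN.Pt0

/-!
# From polynomial maps to straight-line systems

`rawF F` is the untyped version of `F`; its code is `encPolyMap F` (the two definitions of codes of
lists and of unary numbers agree: `Pool.Agent.helper88.Surj.encList`, `un`, `bitsD` against
`Pool.Agent.TM2Lib.encList`, `Un`, the code of lists of Booleans).
`poly_slR`: `insM`, `insP` by `Poly.append`, `Poly.map`, `Poly.reverse`, `Poly.ite`; the instructions are
pairs `(tag, arg)` with the tag and the argument in unary; the constraints `insC` by `flatMapIdx` and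
`Poly.ite` on the tag.
-/

namespace Pool.Agent.PLN

open Pool.Agent.TM2Lib
open Pool.Agent.helper88.Surj (PolyMap encPolyMap)

/-- untyped version of a polynomial map -/
def rawF (F : PolyMap) : RawF :=
  (⟨F.n⟩, F.fs.map fun p => (rawP p).map fun m => (m.1, m.2.map Un.mk))

theorem Pt1_un (n : ℕ) : (enc (⟨n⟩ : Un) : D) = Pool.Agent.helper88.Surj.un n := by
  show (enc (un n) : D) = _
  induction n with
  | zero => rfl
  | succ n ih =>
    have h1 : (enc (un (n + 1)) : D) = D.cons D.nil (enc (un n)) := rfl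
    rw [h1, ih]
    rfl

theorem Pt1_bits (l : List Bool) : (enc l : D) = Pool.Agent.helper88.Surj.bitsD l := by
  induction l with
  | nil => rfl
  | cons b l ih =>
    have h1 : (enc (b :: l) : D) = D.cons (D.ofBool b) (enc l) := rfl
    rw [h1, ih]
    rfl

theorem Pt1_list {A B : Type} [Enc B] (f : A → D) (g : A → B) (h : ∀ a, (enc (g a) : D) = f a)
    (l : List A) : (enc (l.map g) : D) = Pool.Agent.helper88.Surj.encList f l := by
  induction l with
  | nil => rfl
  | cons a l ih =>
    have h1 : (enc ((a :: l).map g) : D) = D.cons (enc (g a)) (enc (l.map g)) := rfl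
    rw [h1, ih, h]
    rfl

theorem enc_rawF (F : PolyMap) : (enc (rawF F) : D) = encPolyMap F := by
  have h1 : (enc (rawF F) : D) = D.cons (enc (⟨F.n⟩ : Un))
    (enc (F.fs.map fun p => (rawP p).map fun m => (m.1, m.2.map Un.mk))) := rfl
  rw [h1, Pt1_un]
  unfold encPolyMap
  congr 1
  refine Pt1_list _ _ (fun p => ?_) _
  unfold rawP
  rw [List.map_map]
  refine Pt1_list _ _ (fun m => ?_) _
  have h2 : (enc (((fun m => (m.1, m.2.map Un.mk)) ∘
      fun m : ℤ × List (Fin F.n) => ((decide (m.1 < 0), m.1.natAbs.bits), m.2.map Fin.val)) m) :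
        D) = D.cons (D.cons (D.ofBool (decide (m.1 < 0))) (enc m.1.natAbs.bits))
          (enc ((m.2.map Fin.val).map Un.mk)) := rfl
  rw [h2, Pt1_bits, List.map_map]
  congr 1
  exact Pt1_list _ _ (fun i => Pt1_un _) _

/-- straight-line system of a raw polynomial map -/
def slR (F : RawF) : SL :=
  slOf F.1.n ((F.2.map fun p => p.map fun m => (m.1, m.2.map Un.n)).flatMap insP)

theorem slR_rawF (F : PolyMap) : slR (rawF F) = slF F := by
  unfold slR slF rawF
  simp only [List.map_map]
  congr 2
  apply List.map_congr_left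
  intro p _
  simp only [Function.comp]
  rw [List.map_map]
  conv_rhs => rw [← List.map_id (rawP p)]
  apply List.map_congr_left
  intro m _
  simp only [Function.comp, List.map_map, id]
  have : (fun x => (Un.mk x).n) = id := rfl
  rw [Prod.ext_iff]
  refine ⟨rfl, ?_⟩
  show List.map (Un.n ∘ Un.mk) m.2 = m.2
  exact List.map_id _

/-- instructions with unary components -/
def Pt1_iU (m : (Bool × List Bool) × List Un) : List (Un × Un) :=
  [((⟨0⟩ : Un), (⟨0⟩ : Un))] ++ (m.1.2.reverse.map fun b => ((if b then ⟨2⟩ else ⟨1⟩, ⟨0⟩) :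
    Un × Un)) ++ (if m.1.1 then [((⟨3⟩, ⟨0⟩) : Un × Un)] else []) ++
      (m.2.map fun i => ((⟨4⟩, i) : Un × Un)) ++ [((⟨5⟩, ⟨0⟩) : Un × Un)]

/-- from unary components to instructions -/
def Pt1_dn (c : Un × Un) : Ins := (c.1.n, c.2.n)

/-- the program with unary components -/
def Pt1_prog (F : RawF) : List (Un × Un) :=
  F.2.flatMap fun p => p.flatMap Pt1_iU ++ [((⟨6⟩, ⟨0⟩) : Un × Un)]

theorem Pt1_iU_map (m : (Bool × List Bool) × List Un) :
    (Pt1_iU m).map Pt1_dn = insM (m.1, m.2.map Un.n) := by
  unfold Pt1_iU insM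
  simp only [List.map_append, List.map_map, List.map_cons, List.map_nil]
  congr 1
  congr 1
  congr 1
  · congr 1
    apply List.map_congr_left
    intro b _
    cases b <;> rfl
  · cases m.1.1 <;> rfl

theorem Pt1_prog_map (F : RawF) : (Pt1_prog F).map Pt1_dn =
    (F.2.map fun p => p.map fun m => (m.1, m.2.map Un.n)).flatMap insP := by
  unfold Pt1_prog
  rw [List.map_flatMap, List.flatMap_map]
  congr 1
  funext p
  unfold insP
  rw [List.map_append, List.map_flatMap, List.flatMap_map]
  congr 1
  congr 1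
  funext m
  exact Pt1_iU_map m

theorem Pt1_poly_iU {α : Type} [Enc α] {f : α → (Bool × List Bool) × List Un} (hf : Poly f) :
    Poly (fun a => Pt1_iU (f a)) := by
  unfold Pt1_iU
  refine Poly.append (Poly.append (Poly.append (Poly.append (TM2Lib.Poly.const _) ?_) ?_) ?_)
    (TM2Lib.Poly.const _)
  · exact TM2Lib.Poly.map (h := fun q : α × Bool => ((if q.2 then ⟨2⟩ else ⟨1⟩, ⟨0⟩) : Un × Un))
      (Poly.reverse hf.fst'.snd') ((Poly.ite TM2Lib.Poly.snd (TM2Lib.Poly.const _)
        (TM2Lib.Poly.const _)).pair (TM2Lib.Poly.const _))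
  · exact Poly.ite hf.fst'.fst' (TM2Lib.Poly.const _) (TM2Lib.Poly.const _)
  · exact TM2Lib.Poly.map (h := fun q : α × Un => ((⟨4⟩, q.2) : Un × Un)) hf.snd'
      ((TM2Lib.Poly.const _).pair TM2Lib.Poly.snd)

theorem Pt1_poly_prog : Poly Pt1_prog := by
  refine Poly.flatMap (h := fun q : RawF × List ((Bool × List Bool) × List Un) =>
    q.2.flatMap Pt1_iU ++ [((⟨6⟩, ⟨0⟩) : Un × Un)]) TM2Lib.Poly.snd ?_
  refine Poly.append ?_ (TM2Lib.Poly.const _)
  exact Poly.flatMap (h := fun r : (RawF × List ((Bool × List Bool) × List Un)) ×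
    ((Bool × List Bool) × List Un) => Pt1_iU r.2) TM2Lib.Poly.snd (Pt1_poly_iU TM2Lib.Poly.snd)

theorem Pt1_poly_sc {α : Type} [Enc α] {b c : Bool} {f g h : α → ℕ} (hf : UPoly f)
    (hg : UPoly g) (hh : UPoly h) : Poly (fun a => scU (b, c, f a, g a, h a)) :=
  (TM2Lib.Poly.const b).pair ((TM2Lib.Poly.const c).pair (Poly.pair hf (Poly.pair hg hh)))

theorem Pt1_poly_insC {α : Type} [Enc α] {b t : α → ℕ} {c : α → Un × Un} (hb : UPoly b)
    (ht : UPoly t) (hc : Poly c) : Poly (fun a => (insC (b a) (Pt1_dn (c a)) (t a)).map scU) := by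
  have h4t : UPoly (fun a => b a + 4 * t a) := hb.add ((UPoly.const 4).mul ht)
  have hS : UPoly (fun a => b a + 4 * t a + 1) := h4t.add (UPoly.const 1)
  have hD : UPoly (fun a => b a + 4 * t a + 2) := h4t.add (UPoly.const 2)
  have hA' : UPoly (fun a => b a + 4 * (t a + 1)) :=
    hb.add ((UPoly.const 4).mul (ht.add (UPoly.const 1)))
  have hS' : UPoly (fun a => b a + 4 * (t a + 1) + 1) := hA'.add (UPoly.const 1)
  have h0 : UPoly (fun _ : α => 0) := UPoly.const 0
  have h1 : UPoly (fun _ : α => 1) := UPoly.const 1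
  have htag : UPoly (fun a => (c a).1.n) := UPoly.n.comp hc.fst'
  have harg : UPoly (fun a => 2 + (c a).2.n) := (UPoly.const 2).add (UPoly.n.comp hc.snd')
  have nil : ∀ {A : Type} [Enc A], Poly (fun _ : α => ([] : List A)) :=
    TM2Lib.Poly.const _
  have e : ∀ k : ℕ, Poly (fun a => decide ((c a).1.n = k)) := fun k =>
    UPoly.eq htag (UPoly.const k)
  have key := Poly.ite (e 0)
    ((Pt1_poly_sc (b := true) (c := false) hA' h1 h1).cons
      ((Pt1_poly_sc (b := true) (c := false) hS h1 hS').cons nil))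
    (Poly.ite (e 1)
      ((Pt1_poly_sc (b := true) (c := false) h4t h4t hA').cons
        ((Pt1_poly_sc (b := true) (c := false) hS h1 hS').cons nil))
      (Poly.ite (e 2)
        ((Pt1_poly_sc (b := true) (c := false) h4t h4t hD).cons
          ((Pt1_poly_sc (b := true) (c := false) hD h0 hA').cons
            ((Pt1_poly_sc (b := true) (c := false) hS h1 hS').cons nil)))
        (Poly.ite (e 3)
          ((Pt1_poly_sc (b := true) (c := false) hA' h4t h1).cons
            ((Pt1_poly_sc (b := true) (c := false) hS h1 hS').cons nil))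
          (Poly.ite (e 4)
            ((Pt1_poly_sc (b := true) (c := true) h4t harg hA').cons
              ((Pt1_poly_sc (b := true) (c := false) hS h1 hS').cons nil))
            (Poly.ite (e 5)
              ((Pt1_poly_sc (b := true) (c := false) h4t h1 hA').cons
                ((Pt1_poly_sc (b := true) (c := false) hS h4t hS').cons nil))
              ((Pt1_poly_sc (b := true) (c := false) hS h1 h1).cons
                ((Pt1_poly_sc (b := true) (c := false) h4t h1 hA').cons
                  ((Pt1_poly_sc (b := true) (c := false) hS' h1 h1).cons nil))))))))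
  refine key.of_eq fun a => ?_
  unfold insC Pt1_dn
  simp only [decide_eq_true_eq]
  split_ifs <;> rfl

theorem poly_slR : Poly slR := by
  have h1 : Poly (fun F : RawF => ((⟨2 + F.1.n + 4 * ((Pt1_prog F).length + 1)⟩ : Un),
      [scU (false, false, 0, 0, 0), scU (true, false, 1, 1, 1), scU (true, false, 2 + F.1.n, 1, 1),
        scU (true, false, 2 + F.1.n + 1, 1, 1)] ++
      (Pt1_prog F).zipIdx.flatMap fun p => (insC (2 + F.1.n) (Pt1_dn p.1) p.2).map scU)) := by
    have hn : UPoly (fun F : RawF => 2 + F.1.n) :=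
      (UPoly.const 2).add (UPoly.n.comp TM2Lib.Poly.fst)
    have h1 : UPoly (fun _ : RawF => 1) := UPoly.const 1
    refine Poly.pair (hn.add ((UPoly.const 4).mul ((UPoly.length Pt1_poly_prog).add
      (UPoly.const 1)))) (Poly.append ?_ ?_)
    · exact (TM2Lib.Poly.const _).cons ((TM2Lib.Poly.const _).cons
        ((Pt1_poly_sc (b := true) (c := false) hn h1 h1).cons
          ((Pt1_poly_sc (b := true) (c := false) (hn.add (UPoly.const 1)) h1 h1).cons
            (TM2Lib.Poly.const _))))
    · exact flatMapIdx (h := fun q : RawF × ((Un × Un) × Un) =>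
        (insC (2 + q.1.1.n) (Pt1_dn q.2.1) q.2.2.n).map scU) Pt1_poly_prog
        (Pt1_poly_insC ((UPoly.const 2).add (UPoly.n.comp TM2Lib.Poly.fst.fst'))
          (UPoly.n.comp TM2Lib.Poly.snd.snd') TM2Lib.Poly.snd.fst')
  refine Comp.congr h1 (fun F => rfl) (fun F => ?_)
  congr 1
  show _ = (enc ((⟨(slR F).n⟩ : Un), (slR F).cs.map scU) : D)
  congr 1
  unfold slR slOf
  rw [← Pt1_prog_map]
  simp only [List.length_map, List.map_append, List.map_cons, List.map_nil,
    List.zipIdx_map, List.flatMap_map, List.map_flatMap]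
  rfl

end Pool.Agent.PLN
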