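import Pool.Agent.PLN.Pt0

/-!
# From straight-line systems to quadratic systems in polynomial time

By the definition of the codes it suffices to compute `(⟨(S.toL2 S.KK).n⟩, (S.toL2 S.KK).cs.map lcU)`
from `(⟨S.n⟩, S.cs.map scU)`.  `S.qq`, `S.KK` by `UPoly.add`, `UPoly.mul`, `UPoly.const`,
`UPoly.length`; the list `S.cs.zipIdx.flatMap …` by `flatMapIdx` applied to `S.cs.map scU`
(`(S.cs.map scU).zipIdx = S.cs.zipIdx.map …`), with `Poly.ite` on the two Boolean components.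
-/

namespace Pool.Agent.PLN

open Pool.Agent.TM2Lib

/-- from unary to binary -/
def Pt2_dn (u : Bool × Bool × Un × Un × Un) : SC := (u.1, u.2.1, u.2.2.1.n, u.2.2.2.1.n, u.2.2.2.2.n)

theorem Pt2_poly_lc {α : Type} [Enc α] {b : Bool} {f g h : α → ℕ} (hf : UPoly f)
    (hg : UPoly g) (hh : UPoly h) : Poly (fun a => lcU (b, f a, g a, h a)) :=
  (TM2Lib.Poly.const b).pair (Poly.pair hf (Poly.pair hg hh))

theorem Pt2_poly_l2c {α : Type} [Enc α] {K n l : α → ℕ} {c : α → Bool × Bool × Un × Un × Un}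
    (hK : UPoly K) (hn : UPoly n) (hl : UPoly l) (hc : Poly c) :
    Poly (fun a => (l2c (K a) (n a) (Pt2_dn (c a)) (l a)).map lcU) := by
  have h0 : UPoly (fun _ : α => 0) := UPoly.const 0
  have hz : UPoly (fun a => K a + 1) := hK.add (UPoly.const 1)
  have hi : UPoly (fun a => K a + 2 + (c a).2.2.1.n) :=
    (hK.add (UPoly.const 2)).add (UPoly.n.comp hc.snd'.snd'.fst')
  have hj : UPoly (fun a => K a + 2 + (c a).2.2.2.1.n) :=
    (hK.add (UPoly.const 2)).add (UPoly.n.comp hc.snd'.snd'.snd'.fst')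
  have hk : UPoly (fun a => K a + 2 + (c a).2.2.2.2.n) :=
    (hK.add (UPoly.const 2)).add (UPoly.n.comp hc.snd'.snd'.snd'.snd')
  have hs : UPoly (fun a => K a + 2 + n a) := (hK.add (UPoly.const 2)).add hn
  have hf : ∀ t : ℕ, UPoly (fun a => K a + 3 + n a + 11 * l a + t) := fun t =>
    (((hK.add (UPoly.const 3)).add hn).add ((UPoly.const 11).mul hl)).add (UPoly.const t)
  have nil : ∀ {A : Type} [Enc A], Poly (fun _ : α => ([] : List A)) :=
    TM2Lib.Poly.const _
  have key := Poly.ite hc.fst' (Poly.ite hc.snd'.fst'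
    ((Pt2_poly_lc (b := true) hi hj (hf 0)).cons
    ((Pt2_poly_lc (b := false) (hf 0) (hf 1) h0).cons
    ((Pt2_poly_lc (b := false) hi (hf 2) h0).cons
    ((Pt2_poly_lc (b := false) hj (hf 3) h0).cons
    ((Pt2_poly_lc (b := true) hK hk (hf 4)).cons
    ((Pt2_poly_lc (b := false) (hf 4) (hf 5) h0).cons
    ((Pt2_poly_lc (b := false) hK (hf 6) h0).cons
    ((Pt2_poly_lc (b := false) hk (hf 7) h0).cons
    ((Pt2_poly_lc (b := true) (hf 2) (hf 3) (hf 8)).cons
    ((Pt2_poly_lc (b := true) (hf 1) (hf 8) (hf 9)).cons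
    ((Pt2_poly_lc (b := true) (hf 6) (hf 7) (hf 10)).cons
    ((Pt2_poly_lc (b := true) (hf 5) (hf 10) (hf 9)).cons nil))))))))))))
    ((Pt2_poly_lc (b := true) hk (hf 0) hz).cons
      ((Pt2_poly_lc (b := true) hi hj (hf 0)).cons nil)))
    ((Pt2_poly_lc (b := true) hi hs hz).cons nil)
  refine key.of_eq fun a => ?_
  unfold l2c Pt2_dn
  simp only
  split_ifs <;> rfl

/-- the function on codes -/
def Pt2_g (u : Un × List (Bool × Bool × Un × Un × Un)) : Un × List (Bool × Un × Un × Un) :=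
  let n := u.1.n
  let r := u.2.length
  let K := 20 * ((n + r + 20) * (n + r + 20)) + 1
  (⟨K + 3 + n + 11 * r⟩,
    [lcU (true, K + 1, K + 1, K + 1), lcU (true, K, K + 2 + n, K + 1)] ++
    ((List.range K).map fun l => lcU (false, l, l + 1, 0)) ++
    u.2.zipIdx.flatMap fun p => (l2c K n (Pt2_dn p.1) p.2).map lcU)

theorem Pt2_poly_g : Poly Pt2_g := by
  have hn : UPoly (fun u : Un × List (Bool × Bool × Un × Un × Un) => u.1.n) :=
    UPoly.n.comp TM2Lib.Poly.fst
  have hr : UPoly (fun u : Un × List (Bool × Bool × Un × Un × Un) => u.2.length) :=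
    UPoly.length TM2Lib.Poly.snd
  have hq := (hn.add hr).add (UPoly.const 20)
  have hK : UPoly (fun u : Un × List (Bool × Bool × Un × Un × Un) =>
      20 * ((u.1.n + u.2.length + 20) * (u.1.n + u.2.length + 20)) + 1) :=
    ((UPoly.const 20).mul (hq.mul hq)).add (UPoly.const 1)
  have h1 := hK.add (UPoly.const 1)
  unfold Pt2_g
  refine Poly.pair (((hK.add (UPoly.const 3)).add hn).add ((UPoly.const 11).mul hr))
    (Poly.append (Poly.append ?_ ?_) ?_)
  · exact (Pt2_poly_lc (b := true) h1 h1 h1).cons ((Pt2_poly_lc (b := true) hK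
      ((hK.add (UPoly.const 2)).add hn) h1).cons (TM2Lib.Poly.const _))
  · exact mapU (h := fun q : (Un × List (Bool × Bool × Un × Un × Un)) × Un =>
      lcU (false, q.2.n, q.2.n + 1, 0)) hK
      (Pt2_poly_lc (b := false) (UPoly.n.comp TM2Lib.Poly.snd)
        ((UPoly.n.comp TM2Lib.Poly.snd).add (UPoly.const 1)) (UPoly.const 0))
  · exact flatMapIdx (h := fun q : (Un × List (Bool × Bool × Un × Un × Un)) ×
      ((Bool × Bool × Un × Un × Un) × Un) =>
      (l2c (20 * ((q.1.1.n + q.1.2.length + 20) * (q.1.1.n + q.1.2.length + 20)) + 1) q.1.1.n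
        (Pt2_dn q.2.1) q.2.2.n).map lcU) TM2Lib.Poly.snd
      (Pt2_poly_l2c (hK.comp TM2Lib.Poly.fst) (hn.comp TM2Lib.Poly.fst)
        (UPoly.n.comp TM2Lib.Poly.snd.snd') TM2Lib.Poly.snd.fst')

theorem Pt2_eq (S : SL) : Pt2_g ((⟨S.n⟩ : Un), S.cs.map scU) =
    ((⟨(S.toL2 S.KK).n⟩ : Un), (S.toL2 S.KK).cs.map lcU) := by
  have h1 : (S.toL2 S.KK).cs = [(true, S.KK + 1, S.KK + 1, S.KK + 1),
      (true, S.KK, S.KK + 2 + S.n, S.KK + 1)] ++
      ((List.range S.KK).map fun l => ((false, l, l + 1, 0) : LC)) ++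
      S.cs.zipIdx.flatMap fun c => l2c S.KK S.n c.1 c.2 := rfl
  have h2 : S.KK = 20 * ((S.n + S.cs.length + 20) * (S.n + S.cs.length + 20)) + 1 := rfl
  have h3 : (S.toL2 S.KK).n = S.KK + 3 + S.n + 11 * S.cs.length := rfl
  rw [h1, h3]
  generalize S.KK = K at h2
  unfold Pt2_g
  simp only [List.length_map]
  rw [← h2]
  clear h1 h3 h2
  refine Prod.ext rfl ?_
  simp only [List.map_append, List.map_cons, List.map_nil, List.zipIdx_map,
    List.flatMap_map, List.map_flatMap, List.map_map]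
  rfl

theorem poly_toL2 : Poly (fun S : SL => S.toL2 S.KK) := by
  have h := Comp.reindex Pt2_poly_g (fun S : SL => ((⟨S.n⟩ : Un), S.cs.map scU))
  simp only [Pt2_eq] at h
  exact h

end Pool.Agent.PLN
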