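import Pool.Agent.PLN.Pt0

/-!
# From quadratic systems to systems with inversions, and to unit numbers, in polynomial time

By the definition of the codes it suffices to compute `(⟨S.toRS.n⟩, S.toRS.cs.map lcU)` from
`(⟨S.n⟩, S.cs.map lcU)`, and `(⟨R.toUV.m⟩, R.toUV.q.map qdU)` from `(⟨R.n⟩, R.cs.map lcU)`.
`UPoly` arithmetic, `flatMapIdx`, `flatMapU`, `Poly.ite`, `Poly.flatten`, `Poly.append`.
-/

namespace Pool.Agent.PLN

open Pool.Agent.TM2Lib

/-- from unary to binary -/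
def Pt3_dn (u : Bool × Un × Un × Un) : LC := (u.1, u.2.1.n, u.2.2.1.n, u.2.2.2.n)

theorem Pt3_poly_lc {α : Type} [Enc α] {b : Bool} {f g h : α → ℕ} (hf : UPoly f)
    (hg : UPoly g) (hh : UPoly h) : Poly (fun a => lcU (b, f a, g a, h a)) :=
  (TM2Lib.Poly.const b).pair (Poly.pair hf (Poly.pair hg hh))

theorem Pt3_poly_qd {α : Type} [Enc α] {e f g h : α → ℕ} (he : UPoly e) (hf : UPoly f)
    (hg : UPoly g) (hh : UPoly h) : Poly (fun a => qdU (e a, f a, g a, h a)) :=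
  Poly.pair he (Poly.pair hf (Poly.pair hg hh))

theorem Pt3_poly_rsc {α : Type} [Enc α] {n l : α → ℕ} {c : α → Bool × Un × Un × Un}
    (hn : UPoly n) (hl : UPoly l) (hc : Poly c) :
    Poly (fun a => (rsc (n a) (Pt3_dn (c a)) (l a)).map lcU) := by
  have h0 : UPoly (fun _ : α => 0) := UPoly.const 0
  have hi : UPoly (fun a => (c a).2.1.n) := UPoly.n.comp hc.snd'.fst'
  have hj : UPoly (fun a => (c a).2.2.1.n) := UPoly.n.comp hc.snd'.snd'.fst'
  have hk : UPoly (fun a => (c a).2.2.2.n) := UPoly.n.comp hc.snd'.snd'.snd'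
  have hf : ∀ t : ℕ, UPoly (fun a => n a + 1 + 6 * l a + t) := fun t =>
    ((hn.add (UPoly.const 1)).add ((UPoly.const 6).mul hl)).add (UPoly.const t)
  have nil : ∀ {A : Type} [Enc A], Poly (fun _ : α => ([] : List A)) :=
    TM2Lib.Poly.const _
  have key := Poly.ite hc.fst'
    ((Pt3_poly_lc (b := true) hi hj hk).cons nil)
    ((Pt3_poly_lc (b := true) hi (hf 0) hn).cons
    ((Pt3_poly_lc (b := false) hi (hf 1) h0).cons
    ((Pt3_poly_lc (b := false) (hf 0) (hf 2) h0).cons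
    ((Pt3_poly_lc (b := true) hj (hf 3) hn).cons
    ((Pt3_poly_lc (b := false) (hf 3) (hf 4) h0).cons
    ((Pt3_poly_lc (b := true) (hf 4) (hf 4) (hf 5)).cons
    ((Pt3_poly_lc (b := true) (hf 1) (hf 2) (hf 5)).cons nil)))))))
  refine key.of_eq fun a => ?_
  unfold rsc Pt3_dn
  simp only
  split_ifs with h
  · rw [List.map_cons, List.map_nil, ← h]
  · rfl

/-- the function on codes -/
def Pt3_g (u : Un × List (Bool × Un × Un × Un)) : Un × List (Bool × Un × Un × Un) :=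
  (⟨u.1.n + 1 + 6 * u.2.length⟩,
    lcU (true, u.1.n, u.1.n, u.1.n) ::
      u.2.zipIdx.flatMap fun p => (rsc u.1.n (Pt3_dn p.1) p.2).map lcU)

theorem Pt3_poly_g : Poly Pt3_g := by
  have hn : UPoly (fun u : Un × List (Bool × Un × Un × Un) => u.1.n) :=
    UPoly.n.comp TM2Lib.Poly.fst
  have hr : UPoly (fun u : Un × List (Bool × Un × Un × Un) => u.2.length) :=
    UPoly.length TM2Lib.Poly.snd
  unfold Pt3_g
  refine Poly.pair ((hn.add (UPoly.const 1)).add ((UPoly.const 6).mul hr))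
    ((Pt3_poly_lc (b := true) hn hn hn).cons ?_)
  exact flatMapIdx (h := fun q : (Un × List (Bool × Un × Un × Un)) ×
      ((Bool × Un × Un × Un) × Un) => (rsc q.1.1.n (Pt3_dn q.2.1) q.2.2.n).map lcU)
    TM2Lib.Poly.snd (Pt3_poly_rsc (hn.comp TM2Lib.Poly.fst)
        (UPoly.n.comp TM2Lib.Poly.snd.snd') TM2Lib.Poly.snd.fst')

theorem Pt3_eq (S : LS) : Pt3_g ((⟨S.n⟩ : Un), S.cs.map lcU) =
    ((⟨S.toRS.n⟩ : Un), S.toRS.cs.map lcU) := by
  have h1 : S.toRS.cs = (true, S.n, S.n, S.n) :: S.cs.zipIdx.flatMap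
    fun c => rsc S.n c.1 c.2 := rfl
  have h3 : S.toRS.n = S.n + 1 + 6 * S.cs.length := rfl
  rw [h1, h3]
  unfold Pt3_g
  simp only [List.length_map]
  clear h1 h3
  refine Prod.ext rfl ?_
  simp only [List.map_cons, List.zipIdx_map, List.flatMap_map, List.map_flatMap]
  rfl

theorem poly_toRS : Poly (fun S : LS => S.toRS) := by
  have h := Comp.reindex Pt3_poly_g (fun S : LS => ((⟨S.n⟩ : Un), S.cs.map lcU))
  simp only [Pt3_eq] at h
  exact h

theorem Pt3_poly_blkV {α : Type} [Enc α] {i : α → ℕ} (hi : UPoly i) :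
    Poly (fun a => (blkV (i a)).map (List.map qdU)) := by
  have h0 : UPoly (fun _ : α => 0) := UPoly.const 0
  have hf : ∀ t : ℕ, UPoly (fun a => t + 5 * i a) := fun t =>
    (UPoly.const t).add ((UPoly.const 5).mul hi)
  have nil : ∀ {A : Type} [Enc A], Poly (fun _ : α => ([] : List A)) :=
    TM2Lib.Poly.const _
  have z := Pt3_poly_qd h0 h0 h0 h0
  exact
    ((Pt3_poly_qd (hf 2) (hf 4) h0 (hf 4)).cons ((Pt3_poly_qd h0 (hf 4) (hf 1) (hf 4)).cons
      ((Pt3_poly_qd (hf 1) (hf 4) h0 h0).cons (z.cons (z.cons (z.cons nil)))))).cons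
    (((Pt3_poly_qd h0 (hf 5) h0 (hf 5)).cons ((Pt3_poly_qd (hf 1) (hf 5) (hf 1) (hf 5)).cons
      ((Pt3_poly_qd h0 h0 (hf 3) (hf 5)).cons (z.cons (z.cons (z.cons nil)))))).cons nil)

theorem Pt3_poly_blkC {α : Type} [Enc α] {n l : α → ℕ} {c : α → Bool × Un × Un × Un}
    (hn : UPoly n) (hl : UPoly l) (hc : Poly c) :
    Poly (fun a => (blkC (n a) (Pt3_dn (c a)) (l a)).map (List.map qdU)) := by
  have h0 : UPoly (fun _ : α => 0) := UPoly.const 0
  have hi : UPoly (fun a => (c a).2.1.n) := UPoly.n.comp hc.snd'.fst'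
  have hj : UPoly (fun a => (c a).2.2.1.n) := UPoly.n.comp hc.snd'.snd'.fst'
  have hk : UPoly (fun a => (c a).2.2.2.n) := UPoly.n.comp hc.snd'.snd'.snd'
  have fi : ∀ t : ℕ, UPoly (fun a => t + 5 * (c a).2.1.n) := fun t =>
    (UPoly.const t).add ((UPoly.const 5).mul hi)
  have fj : ∀ t : ℕ, UPoly (fun a => t + 5 * (c a).2.2.1.n) := fun t =>
    (UPoly.const t).add ((UPoly.const 5).mul hj)
  have fk : ∀ t : ℕ, UPoly (fun a => t + 5 * (c a).2.2.2.n) := fun t =>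
    (UPoly.const t).add ((UPoly.const 5).mul hk)
  have he : ∀ t : ℕ, UPoly (fun a => 1 + 5 * n a + 4 * l a + t) := fun t =>
    (((UPoly.const 1).add ((UPoly.const 5).mul hn)).add ((UPoly.const 4).mul hl)).add
      (UPoly.const t)
  have nil : ∀ {A : Type} [Enc A], Poly (fun _ : α => ([] : List A)) :=
    TM2Lib.Poly.const _
  have z := Pt3_poly_qd h0 h0 h0 h0
  have b1 := ((Pt3_poly_qd (fi 2) h0 (fi 3) h0).cons ((Pt3_poly_qd (fi 1) h0 (fi 1) h0).cons
    ((Pt3_poly_qd (fj 2) h0 (fj 3) h0).cons ((Pt3_poly_qd (fj 1) h0 (fj 1) h0).cons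
    ((Pt3_poly_qd (fk 2) h0 (fk 3) h0).cons ((Pt3_poly_qd (fk 1) h0 (fk 1) h0).cons
      nil)))))).cons nil
  have b2 := ((Pt3_poly_qd (fi 2) h0 (fi 3) h0).cons
      ((Pt3_poly_qd (fi 1) (he 2) (fi 1) h0).cons ((Pt3_poly_qd (he 0) (he 2) (he 2) h0).cons
        (z.cons (z.cons (z.cons nil)))))).cons
    (((Pt3_poly_qd (fi 2) h0 (fi 3) h0).cons
      ((Pt3_poly_qd (fi 1) (he 3) (fi 1) h0).cons ((Pt3_poly_qd h0 h0 (he 3) h0).cons
        ((Pt3_poly_qd h0 h0 (he 3) (he 1)).cons (z.cons (z.cons nil)))))).cons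
    (((Pt3_poly_qd (fi 2) h0 h0 (he 1)).cons
      ((Pt3_poly_qd (fi 1) (fj 2) (fi 3) (fj 3)).cons
        ((Pt3_poly_qd (he 0) (fj 1) (fi 1) (fj 1)).cons
        (z.cons (z.cons (z.cons nil)))))).cons nil))
  refine (Poly.ite hc.fst' b1 b2).of_eq fun a => ?_
  unfold blkC Pt3_dn
  simp only
  split_ifs <;> rfl

/-- the function on codes -/
def Pt3_u (u : Un × List (Bool × Un × Un × Un)) : Un × List (Un × Un × Un × Un) :=
  (⟨1 + 5 * u.1.n + 4 * u.2.length⟩,
    (((List.range u.1.n).flatMap fun i => (blkV i).map (List.map qdU)) ++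
      u.2.zipIdx.flatMap fun p => (blkC u.1.n (Pt3_dn p.1) p.2).map (List.map qdU)).flatten)

theorem Pt3_poly_u : Poly Pt3_u := by
  have hn : UPoly (fun u : Un × List (Bool × Un × Un × Un) => u.1.n) :=
    UPoly.n.comp TM2Lib.Poly.fst
  have hr : UPoly (fun u : Un × List (Bool × Un × Un × Un) => u.2.length) :=
    UPoly.length TM2Lib.Poly.snd
  unfold Pt3_u
  refine Poly.pair (((UPoly.const 1).add ((UPoly.const 5).mul hn)).add
    ((UPoly.const 4).mul hr)) (Poly.flatten (Poly.append ?_ ?_))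
  · exact flatMapU (h := fun q : (Un × List (Bool × Un × Un × Un)) × Un =>
      (blkV q.2.n).map (List.map qdU)) hn (Pt3_poly_blkV (UPoly.n.comp TM2Lib.Poly.snd))
  · exact flatMapIdx (h := fun q : (Un × List (Bool × Un × Un × Un)) ×
      ((Bool × Un × Un × Un) × Un) => (blkC q.1.1.n (Pt3_dn q.2.1) q.2.2.n).map (List.map qdU))
      TM2Lib.Poly.snd (Pt3_poly_blkC (hn.comp TM2Lib.Poly.fst)
        (UPoly.n.comp TM2Lib.Poly.snd.snd') TM2Lib.Poly.snd.fst')

theorem Pt3_eq2 (S : LS) : Pt3_u ((⟨S.n⟩ : Un), S.cs.map lcU) =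
    ((⟨S.toUV.m⟩ : Un), S.toUV.q.map qdU) := by
  have h1 : S.toUV.q = ((List.range S.n).flatMap blkV ++ S.cs.zipIdx.flatMap
    fun c => blkC S.n c.1 c.2).flatten := rfl
  have h3 : S.toUV.m = 1 + 5 * S.n + 4 * S.cs.length := rfl
  rw [h1, h3]
  unfold Pt3_u
  simp only [List.length_map]
  clear h1 h3
  refine Prod.ext rfl ?_
  simp only [List.zipIdx_map, List.flatMap_map, List.map_flatten, List.map_append,
    List.map_flatMap]
  rfl

theorem poly_toUV : Poly (fun S : LS => S.toUV) := by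
  have h := Comp.reindex Pt3_poly_u (fun S : LS => ((⟨S.n⟩ : Un), S.cs.map lcU))
  simp only [Pt3_eq2] at h
  exact h

end Pool.Agent.PLN
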