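import Pool.Agent.PLN.Pt0

/-!
# From systems of unit numbers to layouts in polynomial time

By the definition of the codes it suffices to compute the eight components (with `prU`, `Un.mk`)
from `(⟨I.m⟩, I.q.map qdU)`.  The numbers `G, E, W, N1, kap, off, X0, X1, off', NN, gx` by `UPoly`
(`UPoly.div`, `UPoly.mod` for `x / 6`, `x % 6`; `UPoly.ite` for `off`); `bt x` etc. by `Poly.getD`
on `I.q.map qdU`; the lists by `flatMapU`, `mapU`, `Poly.append`.
-/

namespace Pool.Agent.PLN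

open Pool.Agent.TM2Lib

section

variable {α : Type} [Enc α] {I : α → UV} {κ x : α → ℕ}

theorem Pt4_m0 : UPoly (fun I : UV => I.m) :=
  Comp.reindex (TM2Lib.Poly.fst (α := Un) (β := List (Un × Un × Un × Un)))
    (fun I : UV => ((⟨I.m⟩ : Un), I.q.map qdU))

theorem Pt4_q0 : Poly (fun I : UV => I.q.map qdU) :=
  Comp.reindex (TM2Lib.Poly.snd (α := Un) (β := List (Un × Un × Un × Un)))
    (fun I : UV => ((⟨I.m⟩ : Un), I.q.map qdU))

theorem Pt4_m (hI : Poly I) : UPoly (fun a => (I a).m) := Pt4_m0.comp hI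

theorem Pt4_q (hI : Poly I) : Poly (fun a => (I a).q.map qdU) := Pt4_q0.comp hI

theorem Pt4_G (hI : Poly I) : UPoly (fun a => (I a).G) :=
  (UPoly.length (Pt4_q hI)).of_eq fun a => List.length_map _

theorem Pt4_E (hI : Poly I) : UPoly (fun a => (I a).E) := UPoly.div (Pt4_G hI) (UPoly.const 6)

theorem Pt4_W (hI : Poly I) : UPoly (fun a => (I a).W) :=
  (UPoly.const 8).mul ((Pt4_G hI).add (UPoly.const 2))

theorem Pt4_N1 (hI : Poly I) : UPoly (fun a => (I a).N1) :=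
  (((UPoly.const 4).mul ((Pt4_m hI).mul ((Pt4_W hI).add (UPoly.const 1)))).add
    ((UPoly.const 50).mul (Pt4_E hI))).add (UPoly.const 25)

theorem Pt4_kap (hI : Poly I) : UPoly (fun a => (I a).kap) :=
  (UPoly.const 4000).mul (Pt4_N1 hI)

theorem Pt4_off (hI : Poly I) (hκ : UPoly κ) (hx : UPoly x) :
    UPoly (fun a => (I a).off (κ a) (x a)) := by
  have h1 : UPoly (fun a => if decide (x a = 0) = true then 0 else κ a + 10) :=
    UPoly.ite (UPoly.eq hx (UPoly.const 0)) (UPoly.const 0) (hκ.add (UPoly.const 10))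
  refine (((hx.mul ((Pt4_W hI).add (UPoly.const 1)))).add h1).of_eq fun a => ?_
  unfold UV.off
  simp only [decide_eq_true_eq]

theorem Pt4_X0 (hI : Poly I) (hκ : UPoly κ) : UPoly (fun a => (I a).X0 (κ a)) :=
  Pt4_off hI hκ (Pt4_m hI)

theorem Pt4_X1 (hI : Poly I) (hκ : UPoly κ) : UPoly (fun a => (I a).X1 (κ a)) :=
  (Pt4_X0 hI hκ).add ((UPoly.const 13).mul (Pt4_E hI))

theorem Pt4_off' (hI : Poly I) (hκ : UPoly κ) (hx : UPoly x) :
    UPoly (fun a => (I a).off' (κ a) (x a)) :=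
  (Pt4_X1 hI hκ).add (hx.mul ((Pt4_W hI).add (UPoly.const 1)))

theorem Pt4_NN (hI : Poly I) (hκ : UPoly κ) : UPoly (fun a => (I a).NN (κ a)) :=
  (Pt4_X1 hI hκ).add ((Pt4_m hI).mul ((Pt4_W hI).add (UPoly.const 1)))

theorem Pt4_gx (hI : Poly I) (hκ : UPoly κ) (hx : UPoly x) :
    UPoly (fun a => (I a).gx (κ a) (x a)) :=
  ((Pt4_X0 hI hκ).add ((UPoly.const 13).mul (UPoly.div hx (UPoly.const 6)))).add
    ((UPoly.const 2).mul (UPoly.mod hx (UPoly.const 6)))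

theorem Pt4_get (hI : Poly I) (hx : UPoly x) :
    Poly (fun a => qdU ((I a).q.getD (x a) (0, 0, 0, 0))) :=
  (Poly.getD (Pt4_q hI) hx (TM2Lib.Poly.const (qdU (0, 0, 0, 0)))).of_eq fun a => by
    rw [List.getD_map]

theorem Pt4_bt (hI : Poly I) (hx : UPoly x) : UPoly (fun a => (I a).bt (x a)) :=
  (Pt4_get hI hx).fst'

theorem Pt4_tp (hI : Poly I) (hx : UPoly x) : UPoly (fun a => (I a).tp (x a)) :=
  (Pt4_get hI hx).snd'.fst'

theorem Pt4_lf (hI : Poly I) (hx : UPoly x) : UPoly (fun a => (I a).lf (x a)) :=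
  (Pt4_get hI hx).snd'.snd'.fst'

theorem Pt4_rg (hI : Poly I) (hx : UPoly x) : UPoly (fun a => (I a).rg (x a)) :=
  (Pt4_get hI hx).snd'.snd'.snd'

theorem Pt4_pr {f g : α → ℕ} (hf : UPoly f) (hg : UPoly g) : Poly (fun a => prU (f a, g a)) :=
  Poly.pair hf hg

theorem Pt4_vb (hI : Poly I) (hκ : UPoly κ) : Poly (fun a => ((I a).vbL (κ a)).map prU) := by
  have nil : ∀ {β A : Type} [Enc β] [Enc A], Poly (fun _ : β => ([] : List A)) :=
    TM2Lib.Poly.const _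
  have hI' : Poly (fun p : α × Un => I p.1) := hI.comp TM2Lib.Poly.fst
  have hκ' : UPoly (fun p : α × Un => κ p.1) := hκ.comp TM2Lib.Poly.fst
  have hx : UPoly (fun p : α × Un => p.2.n) := UPoly.n.comp TM2Lib.Poly.snd
  have h8 : UPoly (fun p : α × Un => 8 * p.2.n) := (UPoly.const 8).mul hx
  have h8G : UPoly (fun p : α × Un => 8 * (I p.1).G) := (UPoly.const 8).mul (Pt4_G hI')
  have hoff : UPoly (fun p : α × Un => (I p.1).off (κ p.1) p.2.n) := Pt4_off hI' hκ' hx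
  have hoff' : UPoly (fun p : α × Un => (I p.1).off' (κ p.1) p.2.n) := Pt4_off' hI' hκ' hx
  have c : ∀ k, UPoly (fun _ : α × Un => k) := fun k => UPoly.const k
  have p1 := flatMapU (h := fun p : α × Un =>
      [prU ((I p.1).gx (κ p.1) p.2.n, (I p.1).off (κ p.1) ((I p.1).bt p.2.n) + 8 * p.2.n + 1),
       prU ((I p.1).gx (κ p.1) p.2.n, (I p.1).off' (κ p.1) ((I p.1).tp p.2.n) + 8 * p.2.n + 1)])
    (Pt4_G hI)
    ((Pt4_pr (Pt4_gx hI' hκ' hx) (((Pt4_off hI' hκ' (Pt4_bt hI' hx)).add h8).add (c 1))).cons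
      ((Pt4_pr (Pt4_gx hI' hκ' hx) (((Pt4_off' hI' hκ' (Pt4_tp hI' hx)).add h8).add (c 1))).cons
        nil))
  have p2 := flatMapU (h := fun p : α × Un =>
      [prU ((I p.1).off (κ p.1) p.2.n + 8 * (I p.1).G + 2,
        (I p.1).off (κ p.1) p.2.n + 8 * (I p.1).G + 1),
       prU ((I p.1).off (κ p.1) p.2.n + 8 * (I p.1).G + 10,
        (I p.1).off' (κ p.1) p.2.n + 8 * (I p.1).G + 1),
       prU ((I p.1).off' (κ p.1) p.2.n + 8 * (I p.1).G + 2,
        (I p.1).off (κ p.1) p.2.n + 8 * (I p.1).G + 9)])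
    (Pt4_m hI)
    ((Pt4_pr ((hoff.add h8G).add (c 2)) ((hoff.add h8G).add (c 1))).cons
      ((Pt4_pr ((hoff.add h8G).add (c 10)) ((hoff'.add h8G).add (c 1))).cons
        ((Pt4_pr ((hoff'.add h8G).add (c 2)) ((hoff.add h8G).add (c 9))).cons nil)))
  refine (Poly.append p1 p2).of_eq fun a => ?_
  unfold UV.vbL
  rw [List.map_append, List.map_flatMap, List.map_flatMap]
  rfl

theorem Pt4_hb (hI : Poly I) (hκ : UPoly κ) : Poly (fun a => ((I a).hbL (κ a)).map prU) := by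
  have nil : ∀ {β A : Type} [Enc β] [Enc A], Poly (fun _ : β => ([] : List A)) :=
    TM2Lib.Poly.const _
  have hI' : Poly (fun p : α × Un => I p.1) := hI.comp TM2Lib.Poly.fst
  have hκ' : UPoly (fun p : α × Un => κ p.1) := hκ.comp TM2Lib.Poly.fst
  have hx : UPoly (fun p : α × Un => p.2.n) := UPoly.n.comp TM2Lib.Poly.snd
  have h8 : UPoly (fun p : α × Un => 8 * p.2.n) := (UPoly.const 8).mul hx
  have c : ∀ k, UPoly (fun _ : α × Un => k) := fun k => UPoly.const k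
  have p1 := flatMapU (h := fun p : α × Un =>
      [prU ((I p.1).gx (κ p.1) p.2.n, (I p.1).off (κ p.1) ((I p.1).lf p.2.n) + 8 * p.2.n + 1),
       prU ((I p.1).gx (κ p.1) p.2.n, (I p.1).off' (κ p.1) ((I p.1).rg p.2.n) + 8 * p.2.n + 1)])
    (Pt4_G hI)
    ((Pt4_pr (Pt4_gx hI' hκ' hx) (((Pt4_off hI' hκ' (Pt4_lf hI' hx)).add h8).add (c 1))).cons
      ((Pt4_pr (Pt4_gx hI' hκ' hx) (((Pt4_off' hI' hκ' (Pt4_rg hI' hx)).add h8).add (c 1))).cons
        nil))
  refine p1.of_eq fun a => ?_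
  unfold UV.hbL
  rw [List.map_flatMap]
  rfl

theorem Pt4_tb (hI : Poly I) (hκ : UPoly κ) : Poly (fun a => ((I a).tbL (κ a)).map Un.mk) := by
  have hI' : Poly (fun p : α × Un => I p.1) := hI.comp TM2Lib.Poly.fst
  have hκ' : UPoly (fun p : α × Un => κ p.1) := hκ.comp TM2Lib.Poly.fst
  have hx : UPoly (fun p : α × Un => p.2.n) := UPoly.n.comp TM2Lib.Poly.snd
  have hoff : UPoly (fun p : α × Un => (I p.1).off (κ p.1) p.2.n) := Pt4_off hI' hκ' hx
  have hoff' : UPoly (fun p : α × Un => (I p.1).off' (κ p.1) p.2.n) := Pt4_off' hI' hκ' hx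
  have hk : UPoly (fun p : (α × Un) × Un => p.2.n) := UPoly.n.comp TM2Lib.Poly.snd
  have q1 := mapU (h := fun q : (α × Un) × Un => (⟨(I q.1.1).off (κ q.1.1) q.1.2.n + q.2.n⟩ : Un))
    (Pt4_W hI') ((hoff.comp TM2Lib.Poly.fst).add hk)
  have q2 := mapU (h := fun q : (α × Un) × Un =>
    (⟨(I q.1.1).off' (κ q.1.1) q.1.2.n + q.2.n⟩ : Un))
    (Pt4_W hI') ((hoff'.comp TM2Lib.Poly.fst).add hk)
  have p1 := flatMapU (Pt4_m hI) (Poly.append q1 q2)
  refine p1.of_eq fun a => ?_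
  unfold UV.tbL
  simp only [List.map_flatMap, List.map_append, List.map_map]
  rfl

theorem Pt4_tt (hI : Poly I) (hκ : UPoly κ) : Poly (fun a => ((I a).ttL (κ a)).map Un.mk) := by
  have q := mapU (h := fun q : α × Un => (⟨(I q.1).W + q.2.n⟩ : Un))
    (hκ.add (UPoly.const 10)) ((Pt4_W (hI.comp TM2Lib.Poly.fst)).add
      (UPoly.n.comp TM2Lib.Poly.snd))
  refine (Poly.append (Pt4_tb hI hκ) q).of_eq fun a => ?_
  unfold UV.ttL
  rw [List.map_append, List.map_map]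
  rfl

theorem Pt4_ch (hI : Poly I) (hκ : UPoly κ) :
    Poly (fun a => ((List.range (I a).E).map fun e => (I a).X0 (κ a) + 13 * e).map Un.mk) := by
  have q := mapU (h := fun q : α × Un => (⟨(I q.1).X0 (κ q.1) + 13 * q.2.n⟩ : Un))
    (Pt4_E hI) ((Pt4_X0 (hI.comp TM2Lib.Poly.fst) (hκ.comp TM2Lib.Poly.fst)).add
      ((UPoly.const 13).mul (UPoly.n.comp TM2Lib.Poly.snd)))
  refine q.of_eq fun a => ?_
  rw [List.map_map]
  rfl

end

theorem poly_lay : Poly (fun I : UV => I.lay I.kap) := by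
  have hI : Poly (fun I : UV => I) := TM2Lib.Poly.id
  have hκ : UPoly (fun I : UV => I.kap) := Pt4_kap hI
  have h := Poly.pair (Poly.pair (Pt4_NN hI hκ) (Poly.pair (Pt4_off hI hκ (UPoly.const 1))
      ((Pt4_W hI).add (UPoly.const 11))))
    (Poly.pair (Poly.pair (Pt4_vb hI hκ) (Pt4_hb hI hκ))
      (Poly.pair (Pt4_ch hI hκ) (Poly.pair (Pt4_tb hI hκ) (Pt4_tt hI hκ))))
  exact h

end Pool.Agent.PLN
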