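import Pool.Agent.PLN.Pt0

/-!
# The list of vertices in polynomial time

`L.rects`, `L.inn` with unary numbers (`Poly.map`, `Poly.append`, `Poly.any`, `UPoly.lt`); the
coordinates of the names are computed in unary and converted to binary by `UPoly.toNat`.  The grid by
`flatMapU`, `mapU` (or `UPoly.tab`) and `Poly.filter`; the bodies by `Poly.flatMap` over the list of
pairs and `Poly.map` over the constant list `Tm`; the ties and the lever similarly; finally
`poly_dedupN`.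
-/

namespace Pool.Agent.PLN

open Pool.Agent.TM2Lib

/-- the type of the codes of layouts -/
abbrev Pt5_T : Type := (Un × Un × Un) × (List (Un × Un) × List (Un × Un)) ×
  (List Un × List Un × List Un)

/-- layout to code -/
def Pt5_c (L : Lay) : Pt5_T := (((⟨L.N⟩ : Un), (⟨L.b1⟩ : Un), (⟨L.T⟩ : Un)),
  (L.vb.map prU, L.hb.map prU), (L.ch.map Un.mk, L.tb.map Un.mk, L.tt.map Un.mk))

theorem Pt5_re {β : Type} [Enc β] {g : Pt5_T → β} (hg : Poly g) :
    Poly (fun L : Lay => g (Pt5_c L)) := Comp.reindex hg Pt5_c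

section

variable {α : Type} [Enc α] {L : α → Lay} {i j : α → ℕ}

theorem Pt5_N (hL : Poly L) : UPoly (fun a => (L a).N) :=
  UPoly.comp (g := fun L : Lay => L.N) (Pt5_re (g := fun t => t.1.1) Poly.id.fst'.fst') hL

theorem Pt5_b1 (hL : Poly L) : UPoly (fun a => (L a).b1) :=
  UPoly.comp (g := fun L : Lay => L.b1) (Pt5_re (g := fun t => t.1.2.1) Poly.id.fst'.snd'.fst') hL

theorem Pt5_Tt (hL : Poly L) : UPoly (fun a => (L a).T) :=
  UPoly.comp (g := fun L : Lay => L.T) (Pt5_re (g := fun t => t.1.2.2) Poly.id.fst'.snd'.snd') hL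

theorem Pt5_vb (hL : Poly L) : Poly (fun a => (L a).vb.map prU) :=
  Poly.comp (g := fun L : Lay => L.vb.map prU)
    (Pt5_re (g := fun t => t.2.1.1) Poly.id.snd'.fst'.fst') hL

theorem Pt5_hb (hL : Poly L) : Poly (fun a => (L a).hb.map prU) :=
  Poly.comp (g := fun L : Lay => L.hb.map prU)
    (Pt5_re (g := fun t => t.2.1.2) Poly.id.snd'.fst'.snd') hL

theorem Pt5_ch (hL : Poly L) : Poly (fun a => (L a).ch.map Un.mk) :=
  Poly.comp (g := fun L : Lay => L.ch.map Un.mk)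
    (Pt5_re (g := fun t => t.2.2.1) Poly.id.snd'.snd'.fst') hL

theorem Pt5_tb (hL : Poly L) : Poly (fun a => (L a).tb.map Un.mk) :=
  Poly.comp (g := fun L : Lay => L.tb.map Un.mk)
    (Pt5_re (g := fun t => t.2.2.2.1) Poly.id.snd'.snd'.snd'.fst') hL

theorem Pt5_tt (hL : Poly L) : Poly (fun a => (L a).tt.map Un.mk) :=
  Poly.comp (g := fun L : Lay => L.tt.map Un.mk)
    (Pt5_re (g := fun t => t.2.2.2.2) Poly.id.snd'.snd'.snd'.snd') hL

theorem Pt5_rects (hL : Poly L) : Poly (fun a => (L a).rects.map qdU) := by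
  have h1 := TM2Lib.Poly.map (h := fun p : α × (Un × Un) =>
    (((⟨p.2.1.n - 1⟩ : Un), p.2.2, (⟨4⟩ : Un), (⟨7⟩ : Un)) : Un × Un × Un × Un)) (Pt5_vb hL)
    (Poly.pair (UPoly.sub (UPoly.n.comp TM2Lib.Poly.snd.fst') (UPoly.const 1))
      (Poly.pair TM2Lib.Poly.snd.snd' (TM2Lib.Poly.const _)))
  have h2 := TM2Lib.Poly.map (h := fun p : α × (Un × Un) =>
    ((p.2.2, (⟨p.2.1.n - 1⟩ : Un), (⟨7⟩ : Un), (⟨4⟩ : Un)) : Un × Un × Un × Un)) (Pt5_hb hL)
    (Poly.pair TM2Lib.Poly.snd.snd' (Poly.pair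
      (UPoly.sub (UPoly.n.comp TM2Lib.Poly.snd.fst') (UPoly.const 1)) (TM2Lib.Poly.const _)))
  have h3 := TM2Lib.Poly.map (h := fun p : α × Un =>
    ((p.2, p.2, (⟨12⟩ : Un), (⟨12⟩ : Un)) : Un × Un × Un × Un)) (Pt5_ch hL)
    (Poly.pair TM2Lib.Poly.snd (Poly.pair TM2Lib.Poly.snd (TM2Lib.Poly.const _)))
  refine (Poly.append (Poly.append h1 h2) h3).of_eq fun a => ?_
  unfold Lay.rects
  simp only [List.map_append, List.map_map]
  rfl

theorem Pt5_inn (hL : Poly L) (hi : UPoly i) (hj : UPoly j) :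
    Poly (fun a => (L a).inn (i a) (j a)) := by
  have hi' : UPoly (fun p : α × (Un × Un × Un × Un) => i p.1) := hi.comp TM2Lib.Poly.fst
  have hj' : UPoly (fun p : α × (Un × Un × Un × Un) => j p.1) := hj.comp TM2Lib.Poly.fst
  have x : UPoly (fun p : α × (Un × Un × Un × Un) => p.2.1.n) :=
    UPoly.n.comp TM2Lib.Poly.snd.fst'
  have y : UPoly (fun p : α × (Un × Un × Un × Un) => p.2.2.1.n) :=
    UPoly.n.comp TM2Lib.Poly.snd.snd'.fst'
  have w : UPoly (fun p : α × (Un × Un × Un × Un) => p.2.2.2.1.n) :=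
    UPoly.n.comp TM2Lib.Poly.snd.snd'.snd'.fst'
  have h : UPoly (fun p : α × (Un × Un × Un × Un) => p.2.2.2.2.n) :=
    UPoly.n.comp TM2Lib.Poly.snd.snd'.snd'.snd'
  have h1 := Poly.any (h := fun p : α × (Un × Un × Un × Un) =>
    decide (p.2.1.n < i p.1) && (decide (i p.1 < p.2.1.n + p.2.2.2.1.n) &&
    (decide (p.2.2.1.n < j p.1) && decide (j p.1 < p.2.2.1.n + p.2.2.2.2.n)))) (Pt5_rects hL)
    (Poly.and (UPoly.lt x hi') (Poly.and (UPoly.lt hi' (x.add w)) (Poly.and (UPoly.lt y hj')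
      (UPoly.lt hj' (y.add h)))))
  refine h1.of_eq fun a => ?_
  unfold Lay.inn
  rw [List.any_map]
  rfl

theorem Pt5_nm {b : Bool} {f g : α → ℕ} (hf : UPoly f) (hg : UPoly g) :
    Poly (fun a => ((b, f a, g a) : Nm)) :=
  (TM2Lib.Poly.const b).pair (Poly.pair hf.toNat hg.toNat)

theorem Pt5_grid (hL : Poly L) : Poly (fun a => (L a).grid) := by
  have hN1 : UPoly (fun a => (L a).N + 1) := (Pt5_N hL).add (UPoly.const 1)
  have hN1' : UPoly (fun p : α × Un => (L p.1).N + 1) := hN1.comp TM2Lib.Poly.fst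
  have hL' : Poly (fun p : (α × Un) × Un => L p.1.1) := hL.comp TM2Lib.Poly.fst.fst'
  have hi : UPoly (fun p : (α × Un) × Un => p.1.2.n) := UPoly.n.comp TM2Lib.Poly.fst.snd'
  have hj : UPoly (fun p : (α × Un) × Un => p.2.n) := UPoly.n.comp TM2Lib.Poly.snd
  have f1 := Poly.filter (h := fun p : (α × Un) × Un => !((L p.1.1).inn p.1.2.n p.2.n))
    (TM2Lib.Poly.range hN1') (Poly.not (Pt5_inn hL' hi hj))
  have f2 := TM2Lib.Poly.map (h := fun p : (α × Un) × Un => gn p.1.2.n p.2.n) f1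
    (Pt5_nm (b := false) (((UPoly.const 8).mul hi).add (UPoly.const 32))
      (((UPoly.const 8).mul hj).add (UPoly.const 32)))
  refine (flatMapU hN1 f2).of_eq fun a => ?_
  unfold Lay.grid
  congr 1
  funext i
  rw [List.filter_map, List.map_map]
  rfl

theorem Pt5_bod (hL : Poly L) : Poly (fun a => (L a).bod) := by
  have u1 : UPoly (fun p : (α × (Un × Un)) × (Un × Un) => p.1.2.1.n) :=
    UPoly.n.comp TM2Lib.Poly.fst.snd'.fst'
  have u2 : UPoly (fun p : (α × (Un × Un)) × (Un × Un) => p.1.2.2.n) :=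
    UPoly.n.comp TM2Lib.Poly.fst.snd'.snd'
  have q1 : UPoly (fun p : (α × (Un × Un)) × (Un × Un) => p.2.1.n) :=
    UPoly.n.comp TM2Lib.Poly.snd.fst'
  have q2 : UPoly (fun p : (α × (Un × Un)) × (Un × Un) => p.2.2.n) :=
    UPoly.n.comp TM2Lib.Poly.snd.snd'
  have c8 : UPoly (fun _ : (α × (Un × Un)) × (Un × Un) => 8) := UPoly.const 8
  have c32 : UPoly (fun _ : (α × (Un × Un)) × (Un × Un) => 32) := UPoly.const 32
  have m1 := TM2Lib.Poly.map (h := fun p : (α × (Un × Un)) × (Un × Un) =>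
    ((false, 8 * p.1.2.1.n + 32 + p.2.1.n, 8 * p.1.2.2.n + 32 + p.2.2.n) : Nm))
    (TM2Lib.Poly.const (α := α × (Un × Un)) (Tm.map prU))
    (Pt5_nm (b := false) (((c8.mul u1).add c32).add q1) (((c8.mul u2).add c32).add q2))
  have m2 := TM2Lib.Poly.map (h := fun p : (α × (Un × Un)) × (Un × Un) =>
    ((false, 8 * p.1.2.2.n + 32 + p.2.2.n, 8 * p.1.2.1.n + 32 + p.2.1.n) : Nm))
    (TM2Lib.Poly.const (α := α × (Un × Un)) (Tm.map prU))
    (Pt5_nm (b := false) (((c8.mul u2).add c32).add q2) (((c8.mul u1).add c32).add q1))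
  refine (Poly.append (Poly.flatMap (Pt5_vb hL) m1) (Poly.flatMap (Pt5_hb hL) m2)).of_eq
    fun a => ?_
  unfold Lay.bod
  rw [List.flatMap_map, List.flatMap_map]
  simp only [List.map_map]
  rfl

theorem Pt5_tie (hL : Poly L) : Poly (fun a => (L a).tie) := by
  have u : UPoly (fun p : α × Un => p.2.n) := UPoly.n.comp TM2Lib.Poly.snd
  have hN : UPoly (fun p : α × Un => (L p.1).N) := (Pt5_N hL).comp TM2Lib.Poly.fst
  have c : ∀ k, UPoly (fun _ : α × Un => k) := fun k => UPoly.const k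
  have nil : ∀ {β A : Type} [Enc β] [Enc A], Poly (fun _ : β => ([] : List A)) :=
    TM2Lib.Poly.const _
  have a35 := (((c 8).mul u).add (c 35))
  have a37 := (((c 8).mul u).add (c 37))
  have a39 := (((c 8).mul hN).add (c 39))
  have f1 := Poly.flatMap (Pt5_tb hL) ((Pt5_nm (b := false) a35 (c 25)).cons
    ((Pt5_nm (b := false) (c 25) a35).cons nil))
  have f2 := Poly.flatMap (Pt5_tt hL) ((Pt5_nm (b := false) a37 a39).cons
    ((Pt5_nm (b := false) a39 a37).cons nil))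
  refine (Poly.append f1 f2).of_eq fun a => ?_
  unfold Lay.tie
  rw [List.flatMap_map, List.flatMap_map]

theorem Pt5_lev (hL : Poly L) : Poly (fun a => (L a).lev) := by
  have hb : UPoly (fun a => (L a).b1) := Pt5_b1 hL
  have hT : UPoly (fun a => (L a).T) := Pt5_Tt hL
  have hT' : UPoly (fun p : α × Un => (L p.1).T) := hT.comp TM2Lib.Poly.fst
  have u : UPoly (fun p : α × Un => p.2.n) := UPoly.n.comp TM2Lib.Poly.snd
  have c : ∀ k, UPoly (fun _ : α × Un => k) := fun k => UPoly.const k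
  have d : ∀ k, UPoly (fun _ : α => k) := fun k => UPoly.const k
  have nil : ∀ {β A : Type} [Enc β] [Enc A], Poly (fun _ : β => ([] : List A)) :=
    TM2Lib.Poly.const _
  have x : UPoly (fun p : α × Un => 8 * ((L p.1).T - 1 + p.2.n)) :=
    (c 8).mul ((UPoly.sub hT' (c 1)).add u)
  have f1 := mapU (h := fun p : α × Un => ((true, 8 * ((L p.1).T - 1 + p.2.n) + 38, 18) : Nm))
    (UPoly.sub (hb.add (d 2)) hT) (Pt5_nm (b := true) (x.add (c 38)) (c 18))
  have f2 := mapU (h := fun p : α × Un => ((true, 8 * ((L p.1).T - 1 + p.2.n) + 41, 11) : Nm))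
    (UPoly.sub (hb.add (d 1)) hT) (Pt5_nm (b := true) (x.add (c 41)) (c 11))
  have f3 := (Pt5_nm (b := true) (((d 8).mul hT).add (d 35)) (d 25)).cons
    ((Pt5_nm (b := true) (((d 8).mul hT).add (d 27)) (d 25)).cons
      ((Pt5_nm (b := true) (((d 8).mul hT).add (d 32)) (d 32)).cons nil))
  exact Poly.append (Poly.append f1 f2) f3

end

theorem poly_verts : Poly (fun L : Lay => L.verts) := by
  have hL : Poly (fun L : Lay => L) := TM2Lib.Poly.id
  have h := Poly.append (Poly.append (Pt5_grid hL) (Poly.append (Pt5_bod hL) (Pt5_tie hL)))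
    (Pt5_lev hL)
  exact poly_dedupN h

end Pool.Agent.PLN
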