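import Pool.Agent.PLN.Pt0
import Pool.Agent.PLN.Co4

/-!
# Adjacency lists in polynomial time

As in `Pool/Agent/ABO/PolyGr` (`adjL`, `adjLists_gr`, `poly_adjL`): `adjLists (grV V)` is the
list, over `u ∈ V`, of the positions of the names of `V` adjacent to `u`.  `adj` is polynomial time:
sums with constants (`Poly.NPC.succ` iterated), equality `Poly.NPC.nat_eq`, `Poly.and`, `Poly.or`.
-/

namespace Pool.Agent.PLN

open Pool.Agent.TM2Lib

theorem Pt6_addc {α : Type} [Enc α] {f : α → ℕ} (hf : Poly f) : ∀ k : ℕ, Poly (fun a => f a + k)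
  | 0 => hf
  | k + 1 => (Poly.NPC.succ (Pt6_addc hf k)).of_eq fun _ => rfl

theorem Pt6_eqc {α : Type} [Enc α] {f g : α → ℕ} (hf : Poly f) (hg : Poly g) (k : ℕ) :
    Poly (fun a => decide (f a = g a + k)) := Poly.nat_eq hf (Pt6_addc hg k)

theorem Pt6_poly_arc {α : Type} [Enc α] {f g : α → ℕ × ℕ} (hf : Poly f) (hg : Poly g) :
    Poly (fun a => arc (f a) (g a)) := by
  unfold arc
  have e : ∀ k, Poly (fun a => decide ((g a).1 = (f a).1 + k)) := Pt6_eqc hg.fst' hf.fst'
  have e' : ∀ k, Poly (fun a => decide ((g a).2 = (f a).2 + k)) := Pt6_eqc hg.snd' hf.snd'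
  have e0 : Poly (fun a => decide ((g a).1 = (f a).1)) := Poly.nat_eq hg.fst' hf.fst'
  have e0' : Poly (fun a => decide ((g a).2 = (f a).2)) := Poly.nat_eq hg.snd' hf.snd'
  have r3 : Poly (fun a => decide ((f a).1 = (g a).1 + 3)) := Pt6_eqc hf.fst' hg.fst' 3
  have r3' : Poly (fun a => decide ((f a).2 = (g a).2 + 3)) := Pt6_eqc hf.snd' hg.snd' 3
  exact (((((Poly.and (e 8) e0').or (Poly.and e0 (e' 8))).or (Poly.and (e 5) (e' 7))).or
    (Poly.and r3 (e' 7))).or (Poly.and (e 7) (e' 5))).or (Poly.and (e 7) r3')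

theorem Pt6_poly_tag {α : Type} [Enc α] {f g : α → Nm} (hf : Poly f) (hg : Poly g) :
    Poly (fun a => tagOk (f a) (g a)) := by
  unfold tagOk
  have c : ∀ {h : α → ℕ} (_ : Poly h) (k : ℕ), Poly (fun a => decide (h a = k)) :=
    fun hh k => Poly.nat_eq hh (TM2Lib.Poly.const k)
  exact ((Poly.NPC.beq hf.fst' hg.fst').or (Poly.and hf.fst' (Poly.and (c hf.snd'.snd' 18)
    (c hg.snd'.snd' 25)))).or (Poly.and hg.fst' (Poly.and (c hg.snd'.snd' 18)
    (c hf.snd'.snd' 25)))

theorem poly_adj {α : Type} [Enc α] {f g : α → Nm} (hf : Poly f) (hg : Poly g) :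
    Poly (fun a => adj (f a) (g a)) := by
  unfold adj
  exact Poly.and ((Pt6_poly_arc hf.snd' hg.snd').or (Pt6_poly_arc hg.snd' hf.snd'))
    (Pt6_poly_tag hf hg)

/-- adjacency lists from the list of names -/
def Pt6_adjL (vs : List Nm) : List (List ℕ) :=
  vs.map fun u => (vs.zipIdx.filter fun p => adj u p.1).map fun p => p.2

theorem Pt6_zipIdx {X : Type} (vs : List X) :
    vs.zipIdx = (List.finRange vs.length).map fun u => (vs.get u, (u : ℕ)) := by
  apply List.ext_getElem
  · simp
  · intro n h1 h2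
    simp

theorem Pt6_map_get {X Y : Type} (vs : List X) (g : X → Y) :
    (List.finRange vs.length).map (fun v => g (vs.get v)) = vs.map g := by
  apply List.ext_getElem
  · simp
  · intro n h1 h2
    simp

open Classical in
theorem Pt6_adjLists (V : List Nm) : adjLists (grV V) = Pt6_adjL V := by
  unfold adjLists Pt6_adjL
  rw [← Pt6_map_get V]
  change (List.finRange V.length).map _ = _
  apply List.map_congr_left
  intro v _
  rw [Pt6_zipIdx, List.filter_map, List.map_map]
  have h1 : (List.finRange V.length).filter (fun u => decide ((grV V).2.Adj v u)) =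
      (List.finRange V.length).filter ((fun p : Nm × ℕ => adj (V.get v) p.1) ∘
        fun u => (V.get u, (u : ℕ))) := by
    apply List.filter_congr
    intro u _
    rw [Bool.eq_iff_iff, decide_eq_true_eq]
    rfl
  rw [← h1]
  rfl

theorem poly_gr : Poly (fun V : List Nm => adjLists (grV V)) := by
  have h : Poly Pt6_adjL := by
    unfold Pt6_adjL
    refine TM2Lib.Poly.map (h := fun p : List Nm × Nm =>
      ((p.1.zipIdx.filter fun q => adj p.2 q.1).map fun q => q.2)) Poly.id ?_
    refine TM2Lib.Poly.map (h := fun q : (List Nm × Nm) × (Nm × ℕ) => q.2.2) ?_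
      Poly.id.snd'.snd'
    refine Poly.filter (h := fun q : (List Nm × Nm) × (Nm × ℕ) => adj q.1.2 q.2.1) ?_ ?_
    · exact Poly.NPC.zipIdx Poly.fst
    · exact poly_adj Poly.id.fst'.snd' Poly.id.snd'.fst'
  exact h.of_eq fun V => (Pt6_adjLists V).symm

end Pool.Agent.PLN
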