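import Pool.Agent.PLN.Def
import Pool.Agent.helper88.SurjHard

/-!
# From existential sentences to common zeros of polynomials

`toSent S` is the sentence with no universally quantified variables; `encFm` of the cast formula is
`encFm` of the formula.  `Pool.Agent.helper88.Surj.red` maps it to a polynomial map.
`etr_zero`: let `T = step^[nSteps] (init (toSent S))`, a final state with `k = 0`; `red = finalMap T`,
and all entries of `T.out` are gadgets (`idns T.out = []`, from `Inv` with `k = 0`).  If `x` is a common zero of all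
polynomials, `dir1` (with target values `0`) gives a point where all `p` of the gadgets vanish;
conversely, from such a point `dir2` (with `ys` all `0`, `Match` is trivial) gives a common zero.  As
in the proofs of `finalMap_isSurj_iff` and `correct` in `Pool/Agent/helper88/SurjFinal`
(`aeval_conv`, `sat_of_iterate`, `exists_sat_iterate`, `exists_sat_init`, `mu_zero`), such a point exists if and only if
`S` is true.
-/

namespace Pool.Agent.PLN

open Pool.Agent.TM2Lib Pool.Agent.TM2Lib.D
open Pool.Agent.helper88.Surj (Sentence Fm encSentence encPolyMap red)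

/-- the sentence as an `∀∃`-sentence without universal quantifiers -/
def toSent (S : ExSentence) : Sentence := ⟨0, S.n, (Nat.zero_add S.n).symm ▸ S.φ⟩

theorem Pt7_enc_cast {n m : ℕ} (h : n = m) (φ : Fm n) :
    Pool.Agent.helper88.Surj.encFm (h ▸ φ : Fm m) = Pool.Agent.helper88.Surj.encFm φ := by
  subst h; rfl

theorem Pt7_holds_cast {n m : ℕ} (h : n = m) (φ : Fm n) (u : Fin m → ℝ) :
    (h ▸ φ : Fm m).holds u ↔ φ.holds (fun i => u (Fin.cast h i)) := by
  subst h; rfl

theorem enc_toSent (S : ExSentence) : encSentence (toSent S) = .cons .nil (encEx S) := by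
  unfold toSent encSentence encEx
  simp only [Pt7_enc_cast]
  rfl

open Pool.Agent.helper88.Surj in
theorem Pt7_target {x : ℕ → ℝ} : ∀ {es : List Entry}, idns es = [] →
    target x es = (polysOf es).map fun _ => (0 : ℝ)
  | [], _ => rfl
  | .idn j :: es, h => by simp [idns] at h
  | .gad s t p :: es, h => by
    have h' : idns es = [] := by simpa [idns] using h
    have ih := Pt7_target (x := x) h'
    simp only [polysOf] at ih
    simp only [target, polysOf, List.flatMap_cons, Entry.polys, List.cons_append,
      List.nil_append, List.map_cons, ih]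

open Pool.Agent.helper88.Surj in
theorem Pt7_match {x : ℕ → ℝ} : ∀ {es : List Entry}, idns es = [] →
    Match x es ((polysOf es).map fun _ => (0 : ℝ))
  | [], _ => trivial
  | .idn j :: es, h => by simp [idns] at h
  | .gad s t p :: es, h => by
    have h' : idns es = [] := by simpa [idns] using h
    have ih := Pt7_match (x := x) h'
    simp only [polysOf] at ih
    simp only [polysOf, List.flatMap_cons, Entry.polys, List.cons_append,
      List.nil_append, List.map_cons, Match]
    exact ih

open Pool.Agent.helper88.Surj in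
theorem Pt7_final {n k base : ℕ} {S : St n} (hI : Inv k base S) (hk0 : k = 0)
    (hkc : S.kc = 0) :
    (∃ x : Fin (finalMap S).n → ℝ, ∀ f ∈ (finalMap S).fs, MvPolynomial.aeval x f.toMv = 0) ↔
      ∃ v : ℕ → ℝ, ∀ s t p, Entry.gad s t p ∈ S.out → pev v p = 0 := by
  obtain ⟨hn, hk, hkn, hb, hm, hstack, hout, hnodup, hst, hidn⟩ := hI
  rw [hkc, hk0] at hidn
  have hid : idns S.out = [] := by simpa using hidn
  have hvars : ∀ q ∈ polysOf S.out, ∀ i ∈ pvars q, i < S.c + 1 := by
    intro q hq i hi
    rcases polysOf_vars hq hi with h | h | ⟨s, t, p, h, h'⟩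
    · rw [hid] at h; simp at h
    · have := (hst i h).1; omega
    · have := (hout s t p h i h').1; omega
  have hdisj' : ∀ s t p, Entry.gad s t p ∈ S.out → ∀ i ∈ pvars p, i ∉ stv S.out := by
    intro s t p hp i hi hi'
    exact (hst i hi').2 (hout s t p hp i hi).2
  constructor
  · rintro ⟨x, hx⟩
    have h1 : (polysOf S.out).map (pev fun i => x (Fin.ofNat (S.c + 1) i)) =
        target 0 S.out := by
      rw [Pt7_target hid]
      apply List.map_congr_left
      intro q hq
      have h2 := hx (conv S.c q) (List.mem_map.2 ⟨q, hq, rfl⟩)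
      rw [← h2]
      exact (aeval_conv S.c q x).symm
    exact ⟨_, (dir1 h1).2⟩
  · rintro ⟨v, hv⟩
    obtain ⟨w, -, hw⟩ := dir2 (x := 0) hnodup (by rw [hid]; simp) hv (by rw [hid]; simp) hdisj'
      (ys := (polysOf S.out).map fun _ => (0 : ℝ)) (by simp) (Pt7_match hid)
    refine ⟨fun i => w i, ?_⟩
    intro f hf
    obtain ⟨q, hq, rfl⟩ := List.mem_map.1 hf
    refine (aeval_conv S.c q _).trans ?_
    have h3 : pev w q = 0 := List.map_inj_left.1 hw q hq
    rw [← h3]
    apply pev_congr
    intro i hi
    have := hvars q hq i hi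
    simp only [Fin.ofNat]
    rw [Nat.mod_eq_of_lt this]

open Pool.Agent.helper88.Surj in
theorem Pt7_main (T : Sentence) (h0 : T.k = 0) :
    (∃ x : Fin (red T).n → ℝ, ∀ f ∈ (red T).fs, MvPolynomial.aeval x f.toMv = 0) ↔
      ∃ u, T.φ.holds u := by
  have hI := (inv_init T).iterate (nSteps T)
  have hmu : (step^[nSteps T] (init T)).mu = 0 := by
    rw [mu_iterate]
    have := mu_le T
    omega
  obtain ⟨hst, hkc⟩ := mu_zero hmu
  have h1 := Pt7_final hI h0 hkc
  refine h1.trans ?_
  constructor
  · rintro ⟨v, hv⟩
    refine ⟨fun i => v i, ?_⟩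
    rw [← exists_sat_init]
    exact ⟨v, sat_of_iterate (nSteps T) ⟨fun i => rfl, by rw [hst]; simp, hv⟩⟩
  · rintro ⟨u, hu⟩
    obtain ⟨v, hv⟩ := exists_sat_iterate (inv_init T) (nSteps T) ((exists_sat_init T u).2 hu)
    exact ⟨v, hv.2.2⟩

theorem etr_zero (S : ExSentence) : S.IsTrue ↔ ∃ x : Fin (red (toSent S)).n → ℝ,
    ∀ f ∈ (red (toSent S)).fs, MvPolynomial.aeval x f.toMv = 0 := by
  rw [Pt7_main (toSent S) rfl]
  constructor
  · rintro ⟨x, hx⟩
    refine ⟨fun i => x (Fin.cast (Nat.zero_add S.n) i), ?_⟩
    unfold toSent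
    rw [Pt7_holds_cast]
    exact hx
  · rintro ⟨u, hu⟩
    unfold toSent at hu
    rw [Pt7_holds_cast] at hu
    exact ⟨_, hu⟩

theorem comp_redE : Comp (fun S : ExSentence => encD (encEx S))
    (fun S => encD (encPolyMap (red (toSent S)))) := by
  have h1 := Comp.reindex Pool.Agent.helper88.Surj.comp_red toSent
  have h2 : Comp (fun S : ExSentence => encD (encEx S))
      (fun S => encD (encSentence (toSent S))) := by
    have h3 : Comp (fun S : ExSentence => encD (encEx S))
        (fun S => encD (D.cons D.nil (encEx S))) := Comp.pair (Comp.const _ _) (Comp.refl _)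
    have e : (fun S : ExSentence => encD (encSentence (toSent S))) =
        fun S => encD (D.cons D.nil (encEx S)) := by
      funext S
      rw [enc_toSent]
    rw [e]
    exact h3
  exact h2.trans h1

end Pool.Agent.PLN
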