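import Pool.Agent.PLN.Ch
import Pool.Agent.PLN.Al11
import Pool.Agent.PLN.Co4
import Pool.Agent.PLN.Pt1
import Pool.Agent.PLN.Pt2
import Pool.Agent.PLN.Pt3
import Pool.Agent.PLN.Pt4
import Pool.Agent.PLN.Pt5
import Pool.Agent.PLN.Pt6
import Pool.Agent.PLN.Pt7

/-!
# Hardness
-/

namespace Pool.Agent.PLN

open Pool.Agent.TM2Lib Pool.Agent.TM2Lib.D
open Pool.Agent.helper88.Surj (Problem encPolyMap red ReducesTo.trans)

/-- the straight-line system of a sentence -/
noncomputable def slS (S : ExSentence) : SL := slF (red (toSent S))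

/-- the graph of a sentence -/
noncomputable def grS (S : ExSentence) : Graph := grV (slS S).lay.verts

theorem slS_good (S : SL) (hS : S.Ok) : S.lay.Good :=
  UV.lay_good (uv_ok (rs_ok (l2_ok hS _))) (by have := kap_ge S.uv; omega)

theorem grS_iff (S : ExSentence) : S.IsTrue ↔ plyNumber (grS S).2 ≤ 1 := by
  have hok : (slS S).Ok := slF_ok _
  rw [etr_zero, ← slF_iff]
  exact (chain hok).trans (ply_real (slS_good _ hok)).symm

theorem poly_all : Poly (fun F : RawF => adjLists (grV (slR F).lay.verts)) := by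
  have h1 : Poly (fun F : RawF => (slR F).toL2 (slR F).KK) := poly_toL2.comp poly_slR
  have h2 : Poly (fun F : RawF => ((slR F).toL2 (slR F).KK).toRS) := poly_toRS.comp h1
  have h3 : Poly (fun F : RawF => ((slR F).toL2 (slR F).KK).toRS.toUV) := poly_toUV.comp h2
  have h4 : Poly (fun F : RawF => (slR F).lay) := poly_lay.comp h3
  have h5 : Poly (fun F : RawF => (slR F).lay.verts) := poly_verts.comp h4
  exact poly_gr.comp h5

theorem comp_grS : Comp (fun S : ExSentence => encD (encEx S))
    (fun S => encD (enc (adjLists (grS S)))) := by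
  have h := Comp.reindex poly_all (fun S : ExSentence => rawF (red (toSent S)))
  have h2 : Comp (fun S : ExSentence => encD (encPolyMap (red (toSent S))))
      (fun S => encD (enc (adjLists (grS S)))) := by
    refine Comp.congr h (fun S => ?_) (fun S => ?_)
    · rw [enc_rawF]
    · simp only [slR_rawF]; rfl
  exact comp_redE.trans h2

theorem reduces_of {f : ExSentence → Graph} (hc : Comp (fun S : ExSentence => encD (encEx S))
    (fun S => encD (enc (adjLists (f S))))) (h : ∀ S, S.IsTrue ↔ plyNumber (f S).2 ≤ 1) :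
    ETR.ReducesTo PLY1 := by
  refine ⟨f, ?_, h⟩
  have h : Comp ETR.code (fun S => PLY1.code (f S)) := hc
  exact Comp.to_tm h

theorem etr_ply1 : ETR.ReducesTo PLY1 := reduces_of comp_grS grS_iff

theorem ply1_ply : PLY1.ReducesTo PLY := by
  refine ⟨fun G => (G, 1), Comp.to_tm ?_, fun G => Iff.rfl⟩
  have h : Comp (fun G : Graph => encD (enc (adjLists G)))
      (fun G => encD (D.cons (enc (adjLists G)) (enc (1 : ℕ)))) :=
    Comp.pair (Comp.refl _) (Comp.const _ _)
  exact h

theorem hard1 : ERHard PLY1 := fun _ hQ => ReducesTo.trans hQ etr_ply1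

theorem hard : ERHard PLY := fun _ hQ => ReducesTo.trans (ReducesTo.trans hQ etr_ply1) ply1_ply

end Pool.Agent.PLN
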