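import Pool.Agent.PLN.Uvd

/-!
# Inequalities between the positions in the layout

Unfold the definitions; the products `j * (I.W + 1)` are handled by `Nat.mul_le_mul_right`
(`i + 1 ≤ j` gives `(i + 1) * (W + 1) ≤ j * (W + 1)`), the rest is `omega`
(`x / 6`, `x % 6` are fine for `omega`).
-/

namespace Pool.Agent.PLN

namespace UV

variable {I : UV} {κ : ℕ}

theorem off_zero : I.off κ 0 = 0 := by simp [off]

theorem off_one : I.off κ 1 = I.W + κ + 11 := by simp [off]; omega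

private theorem mul_step {i j w : ℕ} (h : i < j) : i * (w + 1) + w + 1 ≤ j * (w + 1) := by
  have := Nat.mul_le_mul_right (w + 1) (Nat.succ_le_of_lt h)
  rw [Nat.succ_mul] at this
  omega

theorem off_lt {i j : ℕ} (h : i < j) : I.off κ i + I.W + 1 ≤ I.off κ j := by
  have h1 := mul_step (w := I.W) h
  unfold off
  rw [if_neg (show j ≠ 0 by omega)]
  split_ifs <;> omega

theorem off_one_le {j : ℕ} (h : 1 ≤ j) : I.off κ 1 ≤ I.off κ j := by
  rcases Nat.eq_or_lt_of_le h with h | h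
  · rw [← h]
  · have := off_lt (I := I) (κ := κ) h
    omega

theorem off_X0 {j : ℕ} (h : j < I.m) : I.off κ j + I.W + 1 ≤ I.X0 κ := off_lt h

theorem off'_lt {i j : ℕ} (h : i < j) : I.off' κ i + I.W + 1 ≤ I.off' κ j := by
  have h1 := mul_step (w := I.W) h
  unfold off'
  omega

theorem off'_X1 (j : ℕ) : I.X1 κ ≤ I.off' κ j := by
  unfold off'
  omega

theorem off'_NN {j : ℕ} (h : j < I.m) : I.off' κ j + I.W + 1 ≤ I.NN κ := by
  have h1 := mul_step (w := I.W) h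
  unfold off' NN
  omega

theorem W_eq : I.W = 8 * I.G + 16 := by unfold W; omega

theorem G_eq (hI : I.Ok) : I.G = 6 * I.E := by
  have := hI.len
  unfold G E
  omega

theorem E_pos (hI : I.Ok) : 1 ≤ I.E := by
  have := hI.pos
  unfold E
  omega

theorem X1_eq : I.X1 κ = I.X0 κ + 13 * I.E := rfl

theorem X0_ge (hI : I.Ok) : 2 * I.W + κ + 12 ≤ I.X0 κ := by
  have h1 : I.off κ 1 + I.W + 1 ≤ I.X0 κ := off_X0 (by have := hI.m2; omega)
  rw [off_one] at h1
  omega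

theorem NN_ge (hI : I.Ok) : I.X1 κ + 2 * I.W + 2 ≤ I.NN κ := by
  have h1 : 2 * (I.W + 1) ≤ I.m * (I.W + 1) := Nat.mul_le_mul_right _ hI.m2
  unfold NN
  omega

theorem gx_eq (x : ℕ) : I.gx κ x = I.X0 κ + 13 * (x / 6) + 2 * (x % 6) := rfl

theorem gx_ge (x : ℕ) : I.X0 κ ≤ I.gx κ x := by rw [gx_eq]; omega

theorem gx_le (hI : I.Ok) {x : ℕ} (h : x < I.G) : I.gx κ x + 3 ≤ I.X1 κ := by
  have := G_eq hI
  rw [gx_eq, X1_eq]
  omega

theorem gx_lt {x y : ℕ} (h : x < y) : I.gx κ x + 2 ≤ I.gx κ y := by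
  rw [gx_eq, gx_eq]
  omega

private theorem getD_ok (hI : I.Ok) (x : ℕ) :
    (I.q.getD x (0, 0, 0, 0)).1 < I.m ∧ (I.q.getD x (0, 0, 0, 0)).2.1 < I.m ∧
    (I.q.getD x (0, 0, 0, 0)).2.2.1 < I.m ∧ (I.q.getD x (0, 0, 0, 0)).2.2.2 < I.m := by
  have hm := hI.m2
  by_cases h : x < I.q.length
  · rw [List.getD_eq_getElem _ _ h]
    exact hI.lt _ (List.getElem_mem h)
  · rw [List.getD_eq_default _ _ (by omega)]
    simp
    omega

theorem bt_lt (hI : I.Ok) (x : ℕ) : I.bt x < I.m := (getD_ok hI x).1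

theorem tp_lt (hI : I.Ok) (x : ℕ) : I.tp x < I.m := (getD_ok hI x).2.1

theorem lf_lt (hI : I.Ok) (x : ℕ) : I.lf x < I.m := (getD_ok hI x).2.2.1

theorem rg_lt (hI : I.Ok) (x : ℕ) : I.rg x < I.m := (getD_ok hI x).2.2.2

end UV

end Pool.Agent.PLN
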