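import Pool.Agent.PLN.Ly2

/-!
# The layout is good: the holes are inside the grid and separated

By `mem_rectsL` there are eight families.  Facts used for the separation (two different holes `r`,
`s` of the families 1–8; everything follows from the inequalities of `Ly1`; case distinctions on
`i < j`, `i = j`, `j < i` for the indices of bundles and groups):
* families 1, 2 (columns near `gx x`, in `[X0 - 1, X1)`): for `x < y` the rows are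
  `off (bt x) + 8 x + 1 + [0, 7]`; if `bt x = bt y`, the rows differ by at least `8`; if
  `bt x ≠ bt y`, they are in different bundles (`off_lt`); families 1 and 2 are separated because
  `off (bt x) + 8 x + 8 < X0 ≤ X1 ≤ off' _`;
* families 3, 4, 5, 6, 7 have their columns in the left bundles (`< X0 - 1`) or right bundles
  (`≥ X1`); families 1, 2, 8 have their columns in `[X0 - 1, X1]`; 3, 4 and 6 have different
  columns (`8 G + 1`, `8 G + 9`, `8 x + 1` with `x < G`) or are in different bundles; families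
  6, 7: rows `[gx x - 1, gx x + 3]`, columns in block `x` of a bundle;
* family 8: columns and rows `X0 + 13 e + [0, 12]`; families 6, 7 and 8: rows may overlap but the
  columns do not.
-/

namespace Pool.Agent.PLN

namespace UV

variable {I : UV} {κ : ℕ}

theorem Ly3_tri (i j : ℕ) : I.off κ i = I.off κ j ∧ i = j ∨ I.off κ i + I.W + 1 ≤ I.off κ j ∨
    I.off κ j + I.W + 1 ≤ I.off κ i := by
  rcases lt_trichotomy i j with h | h | h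
  · exact Or.inr (Or.inl (off_lt h))
  · exact Or.inl ⟨by rw [h], h⟩
  · exact Or.inr (Or.inr (off_lt h))

theorem Ly3_tri' (i j : ℕ) : I.off' κ i = I.off' κ j ∧ i = j ∨ I.off' κ i + I.W + 1 ≤ I.off' κ j ∨
    I.off' κ j + I.W + 1 ≤ I.off' κ i := by
  rcases lt_trichotomy i j with h | h | h
  · exact Or.inr (Or.inl (off'_lt h))
  · exact Or.inl ⟨by rw [h], h⟩
  · exact Or.inr (Or.inr (off'_lt h))

/-- facts about a group -/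
theorem Ly3_g (hI : I.Ok) {x : ℕ} (hx : x < I.G) : I.X0 κ ≤ I.gx κ x ∧ I.gx κ x + 3 ≤ I.X1 κ ∧
    I.off κ (I.bt x) + I.W + 1 ≤ I.X0 κ ∧ I.off κ (I.lf x) + I.W + 1 ≤ I.X0 κ ∧
    I.X1 κ ≤ I.off' κ (I.tp x) ∧ I.X1 κ ≤ I.off' κ (I.rg x) ∧
    I.off' κ (I.tp x) + I.W + 1 ≤ I.NN κ ∧ I.off' κ (I.rg x) + I.W + 1 ≤ I.NN κ :=
  ⟨gx_ge x, gx_le hI hx, off_X0 (bt_lt hI x), off_X0 (lf_lt hI x), off'_X1 _, off'_X1 _,
    off'_NN (tp_lt hI x), off'_NN (rg_lt hI x)⟩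

/-- facts about a bundle -/
theorem Ly3_j {j : ℕ} (hj : j < I.m) : I.off κ j + I.W + 1 ≤ I.X0 κ ∧ I.X1 κ ≤ I.off' κ j ∧
    I.off' κ j + I.W + 1 ≤ I.NN κ :=
  ⟨off_X0 hj, off'_X1 _, off'_NN hj⟩

theorem lay_inb (hI : I.Ok) : ∀ r ∈ (I.lay κ).rects, 1 ≤ r.1 ∧ 1 ≤ r.2.1 ∧
    r.1 + r.2.2.1 < (I.lay κ).N ∧ r.2.1 + r.2.2.2 < (I.lay κ).N := by
  intro r hr
  have hN : (I.lay κ).N = I.NN κ := rfl
  rw [hN]
  have hW := I.W_eq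
  have hX0 := X0_ge (κ := κ) hI
  have hNN := NN_ge (κ := κ) hI
  have hX1 := X1_eq (I := I) (κ := κ)
  rw [mem_rectsL] at hr
  rcases hr with ⟨x, hx, rfl⟩ | ⟨x, hx, rfl⟩ | ⟨x, hx, rfl⟩ | ⟨x, hx, rfl⟩ | ⟨x, hx, rfl⟩ |
    ⟨x, hx, rfl⟩ | ⟨x, hx, rfl⟩ | ⟨x, hx, rfl⟩
  · obtain ⟨h1, h2, h3, h4, h5, h6, h7, h8⟩ := Ly3_g (κ := κ) hI hx
    dsimp only
    omega
  · obtain ⟨h1, h2, h3, h4, h5, h6, h7, h8⟩ := Ly3_g (κ := κ) hI hx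
    dsimp only
    omega
  · obtain ⟨h1, h2, h3⟩ := Ly3_j (κ := κ) hx
    dsimp only
    omega
  · obtain ⟨h1, h2, h3⟩ := Ly3_j (κ := κ) hx
    dsimp only
    omega
  · obtain ⟨h1, h2, h3⟩ := Ly3_j (κ := κ) hx
    dsimp only
    omega
  · obtain ⟨h1, h2, h3, h4, h5, h6, h7, h8⟩ := Ly3_g (κ := κ) hI hx
    dsimp only
    omega
  · obtain ⟨h1, h2, h3, h4, h5, h6, h7, h8⟩ := Ly3_g (κ := κ) hI hx
    dsimp only
    omega
  · dsimp only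
    omega

/-- separation of two rectangles -/
def Ly3_S (r s : ℕ × ℕ × ℕ × ℕ) : Prop :=
  r.1 + r.2.2.1 < s.1 ∨ s.1 + s.2.2.1 < r.1 ∨ r.2.1 + r.2.2.2 < s.2.1 ∨ s.2.1 + s.2.2.2 < r.2.1

theorem Ly3_symm {r s : ℕ × ℕ × ℕ × ℕ} (h : Ly3_S r s) : Ly3_S s r := by
  unfold Ly3_S at *
  omega

/-- families 1 and 1 -/
theorem Ly3_11 {x y : ℕ} (hx : x < I.G) (hy : y < I.G) (h : x ≠ y) :
    Ly3_S (I.gx κ x - 1, I.off κ (I.bt x) + 8 * x + 1, 4, 7)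
      (I.gx κ y - 1, I.off κ (I.bt y) + 8 * y + 1, 4, 7) := by
  have hW := I.W_eq
  have ht := Ly3_tri (I := I) (κ := κ) (I.bt x) (I.bt y)
  unfold Ly3_S
  dsimp only
  omega

/-- families 2 and 2 -/
theorem Ly3_22 {x y : ℕ} (hx : x < I.G) (hy : y < I.G) (h : x ≠ y) :
    Ly3_S (I.gx κ x - 1, I.off' κ (I.tp x) + 8 * x + 1, 4, 7)
      (I.gx κ y - 1, I.off' κ (I.tp y) + 8 * y + 1, 4, 7) := by
  have hW := I.W_eq
  have ht := Ly3_tri' (I := I) (κ := κ) (I.tp x) (I.tp y)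
  unfold Ly3_S
  dsimp only
  omega

/-- families 6 and 6 -/
theorem Ly3_66 {x y : ℕ} (hx : x < I.G) (hy : y < I.G) (h : x ≠ y) :
    Ly3_S (I.off κ (I.lf x) + 8 * x + 1, I.gx κ x - 1, 7, 4)
      (I.off κ (I.lf y) + 8 * y + 1, I.gx κ y - 1, 7, 4) := by
  have hW := I.W_eq
  have ht := Ly3_tri (I := I) (κ := κ) (I.lf x) (I.lf y)
  unfold Ly3_S
  dsimp only
  omega

/-- families 7 and 7 -/
theorem Ly3_77 {x y : ℕ} (hx : x < I.G) (hy : y < I.G) (h : x ≠ y) :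
    Ly3_S (I.off' κ (I.rg x) + 8 * x + 1, I.gx κ x - 1, 7, 4)
      (I.off' κ (I.rg y) + 8 * y + 1, I.gx κ y - 1, 7, 4) := by
  have hW := I.W_eq
  have ht := Ly3_tri' (I := I) (κ := κ) (I.rg x) (I.rg y)
  unfold Ly3_S
  dsimp only
  omega

theorem lay_sep (hI : I.Ok) : ∀ r ∈ (I.lay κ).rects, ∀ s ∈ (I.lay κ).rects, r ≠ s →
    r.1 + r.2.2.1 < s.1 ∨ s.1 + s.2.2.1 < r.1 ∨
      r.2.1 + r.2.2.2 < s.2.1 ∨ s.2.1 + s.2.2.2 < r.2.1 := by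
  intro r hr s hs hrs
  change Ly3_S r s
  have hW := I.W_eq
  have hX1 := X1_eq (I := I) (κ := κ)
  rw [mem_rectsL] at hr hs
  rcases hr with ⟨x, hx, rfl⟩ | ⟨x, hx, rfl⟩ | ⟨x, hx, rfl⟩ | ⟨x, hx, rfl⟩ | ⟨x, hx, rfl⟩ |
    ⟨x, hx, rfl⟩ | ⟨x, hx, rfl⟩ | ⟨x, hx, rfl⟩
  · -- family 1
    obtain ⟨a1, a2, a3, a4, a5, a6, a7, a8⟩ := Ly3_g (κ := κ) hI hx
    rcases hs with ⟨y, hy, rfl⟩ | ⟨y, hy, rfl⟩ | ⟨y, hy, rfl⟩ | ⟨y, hy, rfl⟩ | ⟨y, hy, rfl⟩ |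
      ⟨y, hy, rfl⟩ | ⟨y, hy, rfl⟩ | ⟨y, hy, rfl⟩
    · exact Ly3_11 hx hy fun h => hrs (by rw [h])
    · obtain ⟨b1, b2, b3, b4, b5, b6, b7, b8⟩ := Ly3_g (κ := κ) hI hy
      unfold Ly3_S; dsimp only; omega
    · obtain ⟨b1, b2, b3⟩ := Ly3_j (κ := κ) hy
      unfold Ly3_S; dsimp only; omega
    · obtain ⟨b1, b2, b3⟩ := Ly3_j (κ := κ) hy
      unfold Ly3_S; dsimp only; omega
    · obtain ⟨b1, b2, b3⟩ := Ly3_j (κ := κ) hy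
      unfold Ly3_S; dsimp only; omega
    · obtain ⟨b1, b2, b3, b4, b5, b6, b7, b8⟩ := Ly3_g (κ := κ) hI hy
      unfold Ly3_S; dsimp only; omega
    · obtain ⟨b1, b2, b3, b4, b5, b6, b7, b8⟩ := Ly3_g (κ := κ) hI hy
      unfold Ly3_S; dsimp only; omega
    · unfold Ly3_S; dsimp only; omega
  · -- family 2
    obtain ⟨a1, a2, a3, a4, a5, a6, a7, a8⟩ := Ly3_g (κ := κ) hI hx
    rcases hs with ⟨y, hy, rfl⟩ | ⟨y, hy, rfl⟩ | ⟨y, hy, rfl⟩ | ⟨y, hy, rfl⟩ | ⟨y, hy, rfl⟩ |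
      ⟨y, hy, rfl⟩ | ⟨y, hy, rfl⟩ | ⟨y, hy, rfl⟩
    · obtain ⟨b1, b2, b3, b4, b5, b6, b7, b8⟩ := Ly3_g (κ := κ) hI hy
      unfold Ly3_S; dsimp only; omega
    · exact Ly3_22 hx hy fun h => hrs (by rw [h])
    · obtain ⟨b1, b2, b3⟩ := Ly3_j (κ := κ) hy
      unfold Ly3_S; dsimp only; omega
    · obtain ⟨b1, b2, b3⟩ := Ly3_j (κ := κ) hy
      unfold Ly3_S; dsimp only; omega
    · obtain ⟨b1, b2, b3⟩ := Ly3_j (κ := κ) hy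
      unfold Ly3_S; dsimp only; omega
    · obtain ⟨b1, b2, b3, b4, b5, b6, b7, b8⟩ := Ly3_g (κ := κ) hI hy
      unfold Ly3_S; dsimp only; omega
    · obtain ⟨b1, b2, b3, b4, b5, b6, b7, b8⟩ := Ly3_g (κ := κ) hI hy
      unfold Ly3_S; dsimp only; omega
    · unfold Ly3_S; dsimp only; omega
  · -- family 3
    obtain ⟨a1, a2, a3⟩ := Ly3_j (κ := κ) hx
    rcases hs with ⟨y, hy, rfl⟩ | ⟨y, hy, rfl⟩ | ⟨y, hy, rfl⟩ | ⟨y, hy, rfl⟩ | ⟨y, hy, rfl⟩ |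
      ⟨y, hy, rfl⟩ | ⟨y, hy, rfl⟩ | ⟨y, hy, rfl⟩
    · obtain ⟨b1, b2, b3, b4, b5, b6, b7, b8⟩ := Ly3_g (κ := κ) hI hy
      unfold Ly3_S; dsimp only; omega
    · obtain ⟨b1, b2, b3, b4, b5, b6, b7, b8⟩ := Ly3_g (κ := κ) hI hy
      unfold Ly3_S; dsimp only; omega
    · have hne : x ≠ y := fun h => hrs (by rw [h])
      have ht := Ly3_tri (I := I) (κ := κ) x y
      unfold Ly3_S; dsimp only; omega
    · obtain ⟨b1, b2, b3⟩ := Ly3_j (κ := κ) hy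
      unfold Ly3_S; dsimp only; omega
    · obtain ⟨b1, b2, b3⟩ := Ly3_j (κ := κ) hy
      unfold Ly3_S; dsimp only; omega
    · obtain ⟨b1, b2, b3, b4, b5, b6, b7, b8⟩ := Ly3_g (κ := κ) hI hy
      unfold Ly3_S; dsimp only; omega
    · obtain ⟨b1, b2, b3, b4, b5, b6, b7, b8⟩ := Ly3_g (κ := κ) hI hy
      unfold Ly3_S; dsimp only; omega
    · unfold Ly3_S; dsimp only; omega
  · -- family 4
    obtain ⟨a1, a2, a3⟩ := Ly3_j (κ := κ) hx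
    rcases hs with ⟨y, hy, rfl⟩ | ⟨y, hy, rfl⟩ | ⟨y, hy, rfl⟩ | ⟨y, hy, rfl⟩ | ⟨y, hy, rfl⟩ |
      ⟨y, hy, rfl⟩ | ⟨y, hy, rfl⟩ | ⟨y, hy, rfl⟩
    · obtain ⟨b1, b2, b3, b4, b5, b6, b7, b8⟩ := Ly3_g (κ := κ) hI hy
      unfold Ly3_S; dsimp only; omega
    · obtain ⟨b1, b2, b3, b4, b5, b6, b7, b8⟩ := Ly3_g (κ := κ) hI hy
      unfold Ly3_S; dsimp only; omega
    · obtain ⟨b1, b2, b3⟩ := Ly3_j (κ := κ) hy
      unfold Ly3_S; dsimp only; omega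
    · have hne : x ≠ y := fun h => hrs (by rw [h])
      have ht := Ly3_tri (I := I) (κ := κ) x y
      unfold Ly3_S; dsimp only; omega
    · obtain ⟨b1, b2, b3⟩ := Ly3_j (κ := κ) hy
      unfold Ly3_S; dsimp only; omega
    · obtain ⟨b1, b2, b3, b4, b5, b6, b7, b8⟩ := Ly3_g (κ := κ) hI hy
      unfold Ly3_S; dsimp only; omega
    · obtain ⟨b1, b2, b3, b4, b5, b6, b7, b8⟩ := Ly3_g (κ := κ) hI hy
      unfold Ly3_S; dsimp only; omega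
    · unfold Ly3_S; dsimp only; omega
  · -- family 5
    obtain ⟨a1, a2, a3⟩ := Ly3_j (κ := κ) hx
    rcases hs with ⟨y, hy, rfl⟩ | ⟨y, hy, rfl⟩ | ⟨y, hy, rfl⟩ | ⟨y, hy, rfl⟩ | ⟨y, hy, rfl⟩ |
      ⟨y, hy, rfl⟩ | ⟨y, hy, rfl⟩ | ⟨y, hy, rfl⟩
    · obtain ⟨b1, b2, b3, b4, b5, b6, b7, b8⟩ := Ly3_g (κ := κ) hI hy
      unfold Ly3_S; dsimp only; omega
    · obtain ⟨b1, b2, b3, b4, b5, b6, b7, b8⟩ := Ly3_g (κ := κ) hI hy
      unfold Ly3_S; dsimp only; omega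
    · obtain ⟨b1, b2, b3⟩ := Ly3_j (κ := κ) hy
      unfold Ly3_S; dsimp only; omega
    · obtain ⟨b1, b2, b3⟩ := Ly3_j (κ := κ) hy
      unfold Ly3_S; dsimp only; omega
    · have hne : x ≠ y := fun h => hrs (by rw [h])
      have ht := Ly3_tri' (I := I) (κ := κ) x y
      unfold Ly3_S; dsimp only; omega
    · obtain ⟨b1, b2, b3, b4, b5, b6, b7, b8⟩ := Ly3_g (κ := κ) hI hy
      unfold Ly3_S; dsimp only; omega
    · obtain ⟨b1, b2, b3, b4, b5, b6, b7, b8⟩ := Ly3_g (κ := κ) hI hy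
      have ht := Ly3_tri' (I := I) (κ := κ) x (I.rg y)
      unfold Ly3_S; dsimp only; omega
    · unfold Ly3_S; dsimp only; omega
  · -- family 6
    obtain ⟨a1, a2, a3, a4, a5, a6, a7, a8⟩ := Ly3_g (κ := κ) hI hx
    rcases hs with ⟨y, hy, rfl⟩ | ⟨y, hy, rfl⟩ | ⟨y, hy, rfl⟩ | ⟨y, hy, rfl⟩ | ⟨y, hy, rfl⟩ |
      ⟨y, hy, rfl⟩ | ⟨y, hy, rfl⟩ | ⟨y, hy, rfl⟩
    · obtain ⟨b1, b2, b3, b4, b5, b6, b7, b8⟩ := Ly3_g (κ := κ) hI hy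
      unfold Ly3_S; dsimp only; omega
    · obtain ⟨b1, b2, b3, b4, b5, b6, b7, b8⟩ := Ly3_g (κ := κ) hI hy
      unfold Ly3_S; dsimp only; omega
    · obtain ⟨b1, b2, b3⟩ := Ly3_j (κ := κ) hy
      unfold Ly3_S; dsimp only; omega
    · obtain ⟨b1, b2, b3⟩ := Ly3_j (κ := κ) hy
      unfold Ly3_S; dsimp only; omega
    · obtain ⟨b1, b2, b3⟩ := Ly3_j (κ := κ) hy
      unfold Ly3_S; dsimp only; omega
    · exact Ly3_66 hx hy fun h => hrs (by rw [h])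
    · obtain ⟨b1, b2, b3, b4, b5, b6, b7, b8⟩ := Ly3_g (κ := κ) hI hy
      unfold Ly3_S; dsimp only; omega
    · unfold Ly3_S; dsimp only; omega
  · -- family 7
    obtain ⟨a1, a2, a3, a4, a5, a6, a7, a8⟩ := Ly3_g (κ := κ) hI hx
    rcases hs with ⟨y, hy, rfl⟩ | ⟨y, hy, rfl⟩ | ⟨y, hy, rfl⟩ | ⟨y, hy, rfl⟩ | ⟨y, hy, rfl⟩ |
      ⟨y, hy, rfl⟩ | ⟨y, hy, rfl⟩ | ⟨y, hy, rfl⟩
    · obtain ⟨b1, b2, b3, b4, b5, b6, b7, b8⟩ := Ly3_g (κ := κ) hI hy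
      unfold Ly3_S; dsimp only; omega
    · obtain ⟨b1, b2, b3, b4, b5, b6, b7, b8⟩ := Ly3_g (κ := κ) hI hy
      unfold Ly3_S; dsimp only; omega
    · obtain ⟨b1, b2, b3⟩ := Ly3_j (κ := κ) hy
      unfold Ly3_S; dsimp only; omega
    · obtain ⟨b1, b2, b3⟩ := Ly3_j (κ := κ) hy
      unfold Ly3_S; dsimp only; omega
    · obtain ⟨b1, b2, b3⟩ := Ly3_j (κ := κ) hy
      have ht := Ly3_tri' (I := I) (κ := κ) y (I.rg x)
      unfold Ly3_S; dsimp only; omega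
    · obtain ⟨b1, b2, b3, b4, b5, b6, b7, b8⟩ := Ly3_g (κ := κ) hI hy
      unfold Ly3_S; dsimp only; omega
    · exact Ly3_77 hx hy fun h => hrs (by rw [h])
    · unfold Ly3_S; dsimp only; omega
  · -- family 8
    rcases hs with ⟨y, hy, rfl⟩ | ⟨y, hy, rfl⟩ | ⟨y, hy, rfl⟩ | ⟨y, hy, rfl⟩ | ⟨y, hy, rfl⟩ |
      ⟨y, hy, rfl⟩ | ⟨y, hy, rfl⟩ | ⟨y, hy, rfl⟩
    · obtain ⟨b1, b2, b3, b4, b5, b6, b7, b8⟩ := Ly3_g (κ := κ) hI hy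
      unfold Ly3_S; dsimp only; omega
    · obtain ⟨b1, b2, b3, b4, b5, b6, b7, b8⟩ := Ly3_g (κ := κ) hI hy
      unfold Ly3_S; dsimp only; omega
    · obtain ⟨b1, b2, b3⟩ := Ly3_j (κ := κ) hy
      unfold Ly3_S; dsimp only; omega
    · obtain ⟨b1, b2, b3⟩ := Ly3_j (κ := κ) hy
      unfold Ly3_S; dsimp only; omega
    · obtain ⟨b1, b2, b3⟩ := Ly3_j (κ := κ) hy
      unfold Ly3_S; dsimp only; omega
    · obtain ⟨b1, b2, b3, b4, b5, b6, b7, b8⟩ := Ly3_g (κ := κ) hI hy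
      unfold Ly3_S; dsimp only; omega
    · obtain ⟨b1, b2, b3, b4, b5, b6, b7, b8⟩ := Ly3_g (κ := κ) hI hy
      unfold Ly3_S; dsimp only; omega
    · have hne : x ≠ y := fun h => hrs (by rw [h])
      unfold Ly3_S; dsimp only; omega

theorem lay_goodN (hI : I.Ok) : (I.lay κ).GoodN := by
  have hW := I.W_eq
  have hX0 := X0_ge (κ := κ) hI
  have hNN := NN_ge (κ := κ) hI
  have hX1 := X1_eq (I := I) (κ := κ)
  have hN : (I.lay κ).N = I.NN κ := rfl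
  have htb : ∀ i ∈ (I.lay κ).tb, i < (I.lay κ).N := by
    intro i hi
    rw [mem_tb] at hi
    obtain ⟨j, hj, k, hk, h | h⟩ := hi
    · obtain ⟨a1, a2, a3⟩ := Ly3_j (κ := κ) hj
      omega
    · obtain ⟨a1, a2, a3⟩ := Ly3_j (κ := κ) hj
      omega
  refine ⟨lay_inb hI, lay_sep hI, ?_, ?_, htb, ?_⟩
  · rintro ⟨g, c⟩ hp
    rw [mem_vbL] at hp
    dsimp only
    rcases hp with ⟨x, hx, h1, h2⟩ | ⟨x, hx, h1, h2⟩ | ⟨x, hx, h1, h2⟩ | ⟨x, hx, h1, h2⟩ |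
      ⟨x, hx, h1, h2⟩
    · obtain ⟨b1, -⟩ := Ly3_g (κ := κ) hI hx
      omega
    · obtain ⟨b1, -⟩ := Ly3_g (κ := κ) hI hx
      omega
    · omega
    · omega
    · omega
  · rintro ⟨g, c⟩ hp
    rw [mem_hbL] at hp
    dsimp only
    rcases hp with ⟨x, hx, h1, h2⟩ | ⟨x, hx, h1, h2⟩
    · obtain ⟨b1, -⟩ := Ly3_g (κ := κ) hI hx
      omega
    · obtain ⟨b1, -⟩ := Ly3_g (κ := κ) hI hx
      omega
  · intro i hi
    rw [mem_tt] at hi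
    rcases hi with hi | ⟨k, hk, h⟩
    · exact htb i hi
    · omega

end UV

end Pool.Agent.PLN
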