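import Pool.Agent.PLN.Ly9
import Pool.Agent.PLN.Ly3

/-!
# The steps on the sides of the central holes

Bottom side: `hs_up'` (with `trv`) for the column `i = gx x + a` from the row
`c + 7 = off (bt x) + 8 x + 8` to the row `X0 + 13 (x/6)`: if a cell `(i, j)` in between is not
present, then (`cell_iff`) it lies in a hole of family 1 of a group `x'` with
`gx x' - 1 ≤ i < gx x' + 3`, `c' = off (bt x') + 8 x' + 1 ≤ j < c' + 7`; `c' ≥ c + 8` (if
`bt x' = bt x`, then `x' > x`; otherwise the bundles are different), and `c' + 7 ≤ X0`; all other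
families are excluded (family 8: the column `i` belongs to the hole `e = x / 6` only, which starts at
the row `X0 + 13 (x/6)`).  Top side: from the row `X0 + 13 (x/6) + 12` to the row
`off' (tp x) + 8 x + 1`; the holes met are those of family 2.  Left and right sides: `vs_right'`
with `trh` and the families 6, 7.
-/

namespace Pool.Agent.PLN

namespace UV

variable {I : UV} {κ : ℕ} {P : ℕ → ℕ → ℂ}

private theorem ly10_cmp {p q x y : ℕ} (hx : x < I.G) (hy : y < I.G)
    (h : I.off κ p + 8 * x < I.off κ q + 8 * y) :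
    I.off κ p + 8 * x + 8 ≤ I.off κ q + 8 * y := by
  have hW := W_eq (I := I)
  rcases lt_trichotomy p q with h1 | h1 | h1
  · have := off_lt (I := I) (κ := κ) h1
    omega
  · subst h1
    omega
  · have := off_lt (I := I) (κ := κ) h1
    omega

private theorem ly10_cmp' {p q x y : ℕ} (hx : x < I.G) (hy : y < I.G)
    (h : I.off' κ p + 8 * x < I.off' κ q + 8 * y) :
    I.off' κ p + 8 * x + 8 ≤ I.off' κ q + 8 * y := by
  have hW := W_eq (I := I)
  rcases lt_trichotomy p q with h1 | h1 | h1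
  · have := off'_lt (I := I) (κ := κ) h1
    omega
  · subst h1
    omega
  · have := off'_lt (I := I) (κ := κ) h1
    omega

/-- a central column or row -/
private theorem ly10_mid (hI : I.Ok) {x a : ℕ} (hx : x < I.G) (ha : a < 2) :
    I.X0 κ ≤ I.gx κ x + a ∧ I.gx κ x + a < I.X1 κ ∧ I.X0 κ + 13 * (x / 6) + 13 ≤ I.X1 κ ∧
      I.X0 κ + 13 * (x / 6) ≤ I.gx κ x + a ∧ I.gx κ x + a < I.X0 κ + 13 * (x / 6) + 12 ∧
      I.X1 κ ≤ I.NN κ := by
  have h1 := gx_eq (I := I) (κ := κ) x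
  have h2 := gx_le (κ := κ) hI hx
  have h3 := G_eq hI
  have h4 := X1_eq (I := I) (κ := κ)
  have h5 := NN_ge (κ := κ) hI
  omega

private theorem ly10_left (hI : I.Ok) {j : ℕ} (hj : j < I.m) :
    I.off κ j + 8 * I.G + 17 ≤ I.X0 κ := by
  have h1 := off_X0 (I := I) (κ := κ) hj
  have h2 := W_eq (I := I)
  omega

private theorem ly10_e {x a e : ℕ} (ha : a < 2)
    (h1 : I.X0 κ + 13 * e ≤ I.gx κ x + a) (h2 : I.gx κ x + a < I.X0 κ + 13 * e + 12) :
    e = x / 6 := by
  have h3 := gx_eq (I := I) (κ := κ) x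
  omega

theorem sideB (hI : I.Ok) (hD : GD (I.lay κ) P) {x a : ℕ} (hx : x < I.G) (ha : a < 2) :
    hs P (I.gx κ x + a) (I.X0 κ + 13 * (x / 6)) = hs P (I.off κ (I.bt x)) 0 := by
  rw [← grpB hI hD hx ha]
  obtain ⟨m1, m2, m3, m4, m5, m6⟩ := ly10_mid (κ := κ) hI hx ha
  have b1 := ly10_left (κ := κ) hI (bt_lt hI x)
  refine hs_up' (lay_goodN hI) hD (trv hI hD) (by omega) (fun j hj1 hj2 => ?_)
  by_cases hx' : ∃ x' < I.G, I.gx κ x' - 1 ≤ I.gx κ x + a ∧ I.gx κ x + a < I.gx κ x' - 1 + 4 ∧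
      I.off κ (I.bt x') + 8 * x' + 1 ≤ j ∧ j < I.off κ (I.bt x') + 8 * x' + 1 + 7
  · obtain ⟨x', h1, h2, h3, h4, h5⟩ := hx'
    have b2 := ly10_left (κ := κ) hI (bt_lt hI x')
    have b3 := ly10_cmp (I := I) (κ := κ) (p := I.bt x) (q := I.bt x') hx h1 (by omega)
    have b4 := gx_ge (I := I) (κ := κ) x'
    have b5 := X0_ge (κ := κ) hI
    exact Or.inr ⟨I.gx κ x', I.off κ (I.bt x') + 8 * x' + 1,
      mem_vbL.2 (Or.inl ⟨x', h1, rfl, rfl⟩), h2, by omega, by omega, h4, h5, by omega⟩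
  · refine Or.inl (cell_iff.2 ⟨by omega, by omega, ?_, ?_, ?_, ?_, ?_, ?_, ?_, ?_⟩)
    · intro x' h1 h2
      exact hx' ⟨x', h1, h2⟩
    · intro x' h1 h2
      have := off'_X1 (I := I) (κ := κ) (I.tp x')
      omega
    · intro j' h1 h2
      have := ly10_left (κ := κ) hI h1
      omega
    · intro j' h1 h2
      have := ly10_left (κ := κ) hI h1
      omega
    · intro j' h1 h2
      have := off'_X1 (I := I) (κ := κ) j'
      omega
    · intro x' h1 h2
      have := ly10_left (κ := κ) hI (lf_lt hI x')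
      omega
    · intro x' h1 h2
      have := off'_X1 (I := I) (κ := κ) (I.rg x')
      omega
    · intro e h1 h2
      have := ly10_e (I := I) (κ := κ) ha h2.1 h2.2.1
      subst this
      omega

theorem sideT (hI : I.Ok) (hD : GD (I.lay κ) P) {x a : ℕ} (hx : x < I.G) (ha : a < 2) :
    hs P (I.gx κ x + a) (I.X0 κ + 13 * (x / 6) + 12) = hs P (I.off κ (I.tp x)) 0 := by
  rw [← grpT hI hD hx ha]
  obtain ⟨m1, m2, m3, m4, m5, m6⟩ := ly10_mid (κ := κ) hI hx ha
  have b1 := off'_X1 (I := I) (κ := κ) (I.tp x)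
  have b1' := off'_NN (I := I) (κ := κ) (tp_lt hI x)
  have bW := W_eq (I := I)
  symm
  refine hs_up' (lay_goodN hI) hD (trv hI hD) (by omega) (fun j hj1 hj2 => ?_)
  by_cases hx' : ∃ x' < I.G, I.gx κ x' - 1 ≤ I.gx κ x + a ∧ I.gx κ x + a < I.gx κ x' - 1 + 4 ∧
      I.off' κ (I.tp x') + 8 * x' + 1 ≤ j ∧ j < I.off' κ (I.tp x') + 8 * x' + 1 + 7
  · obtain ⟨x', h1, h2, h3, h4, h5⟩ := hx'
    have b2 := off'_X1 (I := I) (κ := κ) (I.tp x')
    have b3 := ly10_cmp' (I := I) (κ := κ) (p := I.tp x') (q := I.tp x) h1 hx (by omega)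
    have b4 := gx_ge (I := I) (κ := κ) x'
    have b5 := X0_ge (κ := κ) hI
    exact Or.inr ⟨I.gx κ x', I.off' κ (I.tp x') + 8 * x' + 1,
      mem_vbL.2 (Or.inr (Or.inl ⟨x', h1, rfl, rfl⟩)), h2, by omega, by omega, h4, h5, by omega⟩
  · refine Or.inl (cell_iff.2 ⟨by omega, by omega, ?_, ?_, ?_, ?_, ?_, ?_, ?_, ?_⟩)
    · intro x' h1 h2
      have := ly10_left (κ := κ) hI (bt_lt hI x')
      omega
    · intro x' h1 h2
      exact hx' ⟨x', h1, h2⟩
    · intro j' h1 h2
      have := ly10_left (κ := κ) hI h1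
      omega
    · intro j' h1 h2
      have := ly10_left (κ := κ) hI h1
      omega
    · intro j' h1 h2
      have := off'_X1 (I := I) (κ := κ) j'
      omega
    · intro x' h1 h2
      have := ly10_left (κ := κ) hI (lf_lt hI x')
      omega
    · intro x' h1 h2
      have := off'_X1 (I := I) (κ := κ) (I.rg x')
      omega
    · intro e h1 h2
      have := ly10_e (I := I) (κ := κ) ha h2.1 h2.2.1
      subst this
      omega

theorem sideL (hI : I.Ok) (hD : GD (I.lay κ) P) {x a : ℕ} (hx : x < I.G) (ha : a < 2) :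
    vs P (I.X0 κ + 13 * (x / 6)) (I.gx κ x + a) = rho * hs P (I.off κ (I.lf x)) 0 := by
  rw [← grpL hI hD hx ha]
  obtain ⟨m1, m2, m3, m4, m5, m6⟩ := ly10_mid (κ := κ) hI hx ha
  have b1 := ly10_left (κ := κ) hI (lf_lt hI x)
  refine vs_right' (lay_goodN hI) hD (trh hI hD) (by omega) (fun i hj1 hj2 => ?_)
  by_cases hx' : ∃ x' < I.G, I.off κ (I.lf x') + 8 * x' + 1 ≤ i ∧
      i < I.off κ (I.lf x') + 8 * x' + 1 + 7 ∧ I.gx κ x' - 1 ≤ I.gx κ x + a ∧
      I.gx κ x + a < I.gx κ x' - 1 + 4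
  · obtain ⟨x', h1, h4, h5, h2, h3⟩ := hx'
    have b2 := ly10_left (κ := κ) hI (lf_lt hI x')
    have b3 := ly10_cmp (I := I) (κ := κ) (p := I.lf x) (q := I.lf x') hx h1 (by omega)
    have b4 := gx_ge (I := I) (κ := κ) x'
    have b5 := X0_ge (κ := κ) hI
    exact Or.inr ⟨I.gx κ x', I.off κ (I.lf x') + 8 * x' + 1,
      mem_hbL.2 (Or.inl ⟨x', h1, rfl, rfl⟩), h2, by omega, by omega, h4, h5, by omega⟩
  · refine Or.inl (cell_iff.2 ⟨by omega, by omega, ?_, ?_, ?_, ?_, ?_, ?_, ?_, ?_⟩)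
    · intro x' h1 h2
      have := ly10_left (κ := κ) hI (bt_lt hI x')
      omega
    · intro x' h1 h2
      have := off'_X1 (I := I) (κ := κ) (I.tp x')
      omega
    · intro j' h1 h2
      have := ly10_left (κ := κ) hI h1
      omega
    · intro j' h1 h2
      have := off'_X1 (I := I) (κ := κ) j'
      omega
    · intro j' h1 h2
      have := ly10_left (κ := κ) hI h1
      omega
    · intro x' h1 h2
      exact hx' ⟨x', h1, h2⟩
    · intro x' h1 h2
      have := off'_X1 (I := I) (κ := κ) (I.rg x')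
      omega
    · intro e h1 h2
      have := ly10_e (I := I) (κ := κ) ha h2.2.2.1 h2.2.2.2
      subst this
      omega

theorem sideR (hI : I.Ok) (hD : GD (I.lay κ) P) {x a : ℕ} (hx : x < I.G) (ha : a < 2) :
    vs P (I.X0 κ + 13 * (x / 6) + 12) (I.gx κ x + a) = rho * hs P (I.off κ (I.rg x)) 0 := by
  rw [← grpR hI hD hx ha]
  obtain ⟨m1, m2, m3, m4, m5, m6⟩ := ly10_mid (κ := κ) hI hx ha
  have b1 := off'_X1 (I := I) (κ := κ) (I.rg x)
  have b1' := off'_NN (I := I) (κ := κ) (rg_lt hI x)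
  have bW := W_eq (I := I)
  symm
  refine vs_right' (lay_goodN hI) hD (trh hI hD) (by omega) (fun i hj1 hj2 => ?_)
  by_cases hx' : ∃ x' < I.G, I.off' κ (I.rg x') + 8 * x' + 1 ≤ i ∧
      i < I.off' κ (I.rg x') + 8 * x' + 1 + 7 ∧ I.gx κ x' - 1 ≤ I.gx κ x + a ∧
      I.gx κ x + a < I.gx κ x' - 1 + 4
  · obtain ⟨x', h1, h4, h5, h2, h3⟩ := hx'
    have b2 := off'_X1 (I := I) (κ := κ) (I.rg x')
    have b3 := ly10_cmp' (I := I) (κ := κ) (p := I.rg x') (q := I.rg x) h1 hx (by omega)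
    have b4 := gx_ge (I := I) (κ := κ) x'
    have b5 := X0_ge (κ := κ) hI
    exact Or.inr ⟨I.gx κ x', I.off' κ (I.rg x') + 8 * x' + 1,
      mem_hbL.2 (Or.inr ⟨x', h1, rfl, rfl⟩), h2, by omega, by omega, h4, h5, by omega⟩
  · refine Or.inl (cell_iff.2 ⟨by omega, by omega, ?_, ?_, ?_, ?_, ?_, ?_, ?_, ?_⟩)
    · intro x' h1 h2
      have := ly10_left (κ := κ) hI (bt_lt hI x')
      omega
    · intro x' h1 h2
      have := off'_X1 (I := I) (κ := κ) (I.tp x')
      omega
    · intro j' h1 h2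
      have := ly10_left (κ := κ) hI h1
      omega
    · intro j' h1 h2
      have := off'_X1 (I := I) (κ := κ) j'
      omega
    · intro j' h1 h2
      have := ly10_left (κ := κ) hI h1
      omega
    · intro x' h1 h2
      have := ly10_left (κ := κ) hI (lf_lt hI x')
      omega
    · intro x' h1 h2
      exact hx' ⟨x', h1, h2⟩
    · intro e h1 h2
      have := ly10_e (I := I) (κ := κ) ha h2.2.2.1 h2.2.2.2
      subst this
      omega

end UV

end Pool.Agent.PLN
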