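import Pool.Agent.PLN.Ly10

/-!
# The equations

Let `e < E` and `x₀ = X0 + 13 e`.  For `k < 6` and `x = 6 e + k` we have `x / 6 = e`, `x % 6 = k`,
so `gx x = x₀ + 2 k`.  Summing the steps along the four sides of the hole `[x₀, x₀ + 12]²`
(`Finset.sum_range_sub`, twelve steps each, two for every group):
`P (x₀+12) x₀ - P x₀ x₀ = 2 ∑ s (bt x)`, `P (x₀+12) (x₀+12) - P x₀ (x₀+12) = 2 ∑ s (tp x)`,
`P x₀ (x₀+12) - P x₀ x₀ = 2 rho ∑ s (lf x)`,
`P (x₀+12) (x₀+12) - P (x₀+12) x₀ = 2 rho ∑ s (rg x)`, where `s j = hs P (off j) 0`.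
-/

namespace Pool.Agent.PLN

namespace UV

variable {I : UV} {κ : ℕ} {P : ℕ → ℕ → ℂ}

private theorem ly11_tel (F : ℕ → ℂ) (x₀ : ℕ) (g : ℕ → ℂ)
    (h : ∀ k < 6, ∀ a < 2, F (x₀ + 2 * k + a + 1) - F (x₀ + 2 * k + a) = g k) :
    F (x₀ + 12) - F x₀ = 2 * ∑ k ∈ Finset.range 6, g k := by
  have h1 := Finset.sum_range_sub (fun k => F (x₀ + 2 * k)) 6
  have h2 : F (x₀ + 12) - F x₀ = ∑ k ∈ Finset.range 6, (F (x₀ + 2 * (k + 1)) - F (x₀ + 2 * k)) :=
    h1.symm
  rw [h2, Finset.mul_sum]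
  refine Finset.sum_congr rfl fun k hk => ?_
  have hk' := Finset.mem_range.mp hk
  have h3 := h k hk' 0 (by norm_num)
  have h4 := h k hk' 1 (by norm_num)
  have e1 : x₀ + 2 * (k + 1) = x₀ + 2 * k + 1 + 1 := by ring
  rw [e1]
  rw [add_zero] at h3
  linear_combination h3 + h4

private theorem ly11_cell (hI : I.Ok) {j : ℕ} (hj : j < I.m) :
    (I.lay κ).cell (I.off κ j) 0 := by
  have h1 := off_X0 (κ := κ) hj
  have h2 := X0_ge (κ := κ) hI
  have h3 := NN_ge (κ := κ) hI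
  have h4 := X1_eq (I := I) (κ := κ)
  rw [cell_iff]
  refine ⟨by omega, by omega, ?_, ?_, ?_, ?_, ?_, ?_, ?_, ?_⟩
  · intro x _ h; omega
  · intro x _ h; omega
  · intro x _ h; omega
  · intro x _ h; omega
  · intro x _ h; omega
  · intro x _ h
    have h5 := gx_ge (I := I) (κ := κ) x
    omega
  · intro x _ h
    have h5 := gx_ge (I := I) (κ := κ) x
    omega
  · intro x _ h; omega

theorem sol_hs (hI : I.Ok) (hD : GD (I.lay κ) P) : I.Sol (fun j => hs P (I.off κ j) 0) := by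
  refine ⟨fun j hj => (hD.ang _ _ (ly11_cell hI hj)).1, ?_⟩
  intro e he
  have hG := G_eq hI
  have hx : ∀ k < 6, 6 * e + k < I.G := by
    intro k hk
    have : I.E = I.q.length / 6 := rfl
    rw [← this] at he
    omega
  have hd : ∀ k < 6, (6 * e + k) / 6 = e := fun k hk => by omega
  have hm : ∀ k < 6, (6 * e + k) % 6 = k := fun k hk => by omega
  have hg : ∀ k < 6, I.gx κ (6 * e + k) = I.X0 κ + 13 * e + 2 * k := by
    intro k hk
    rw [gx_eq, hd k hk, hm k hk]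
  set x₀ := I.X0 κ + 13 * e with hx₀
  set s : ℕ → ℂ := fun j => hs P (I.off κ j) 0 with hs'
  have hB := ly11_tel (fun i => P i x₀) x₀ (fun k => s (I.bt (6 * e + k))) (by
    intro k hk a ha
    have h := sideB hI hD (hx k hk) ha
    rw [hg k hk, hd k hk] at h
    exact h)
  have hT := ly11_tel (fun i => P i (x₀ + 12)) x₀ (fun k => s (I.tp (6 * e + k))) (by
    intro k hk a ha
    have h := sideT hI hD (hx k hk) ha
    rw [hg k hk, hd k hk] at h
    exact h)
  have hL := ly11_tel (fun i => P x₀ i) x₀ (fun k => rho * s (I.lf (6 * e + k))) (by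
    intro k hk a ha
    have h := sideL hI hD (hx k hk) ha
    rw [hg k hk, hd k hk] at h
    exact h)
  have hR := ly11_tel (fun i => P (x₀ + 12) i) x₀ (fun k => rho * s (I.rg (6 * e + k))) (by
    intro k hk a ha
    have h := sideR hI hD (hx k hk) ha
    rw [hg k hk, hd k hk] at h
    exact h)
  rw [← Finset.mul_sum] at hL hR
  rw [Finset.sum_sub_distrib, Finset.sum_sub_distrib]
  have h2 : (2 : ℂ) ≠ 0 := two_ne_zero
  apply mul_left_cancel₀ h2
  linear_combination (-1 : ℂ) * hB + hT + hL - hR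
end UV

end Pool.Agent.PLN
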