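import Pool.Agent.PLN.Ly1
import Pool.Agent.PLN.Nm2

/-!
# The holes of the layout

Unfold the lists.
-/

namespace Pool.Agent.PLN

namespace UV

variable {I : UV} {κ : ℕ}

theorem mem_vbL {g c : ℕ} : (g, c) ∈ (I.lay κ).vb ↔
    (∃ x < I.G, g = I.gx κ x ∧ c = I.off κ (I.bt x) + 8 * x + 1) ∨
    (∃ x < I.G, g = I.gx κ x ∧ c = I.off' κ (I.tp x) + 8 * x + 1) ∨
    (∃ j < I.m, g = I.off κ j + 8 * I.G + 2 ∧ c = I.off κ j + 8 * I.G + 1) ∨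
    (∃ j < I.m, g = I.off κ j + 8 * I.G + 10 ∧ c = I.off' κ j + 8 * I.G + 1) ∨
    (∃ j < I.m, g = I.off' κ j + 8 * I.G + 2 ∧ c = I.off κ j + 8 * I.G + 9) := by
  change (g, c) ∈ I.vbL κ ↔ _
  unfold vbL
  simp only [List.mem_append, List.mem_flatMap, List.mem_range, List.mem_cons, List.not_mem_nil,
    or_false, Prod.mk.injEq, and_or_left, exists_or]
  rw [or_assoc]

theorem mem_hbL {g c : ℕ} : (g, c) ∈ (I.lay κ).hb ↔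
    (∃ x < I.G, g = I.gx κ x ∧ c = I.off κ (I.lf x) + 8 * x + 1) ∨
    (∃ x < I.G, g = I.gx κ x ∧ c = I.off' κ (I.rg x) + 8 * x + 1) := by
  change (g, c) ∈ I.hbL κ ↔ _
  unfold hbL
  simp only [List.mem_flatMap, List.mem_range, List.mem_cons, List.not_mem_nil,
    or_false, Prod.mk.injEq, and_or_left, exists_or]

theorem mem_ch {x : ℕ} : x ∈ (I.lay κ).ch ↔ ∃ e < I.E, x = I.X0 κ + 13 * e := by
  change x ∈ (List.range I.E).map (fun e => I.X0 κ + 13 * e) ↔ _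
  simp only [List.mem_map, List.mem_range, eq_comm]

theorem mem_tb {i : ℕ} : i ∈ (I.lay κ).tb ↔
    ∃ j < I.m, ∃ k < I.W, i = I.off κ j + k ∨ i = I.off' κ j + k := by
  change i ∈ I.tbL κ ↔ _
  unfold tbL
  simp only [List.mem_append, List.mem_flatMap, List.mem_map, List.mem_range]
  constructor
  · rintro ⟨j, hj, ⟨k, hk, rfl⟩ | ⟨k, hk, rfl⟩⟩
    · exact ⟨j, hj, k, hk, Or.inl rfl⟩
    · exact ⟨j, hj, k, hk, Or.inr rfl⟩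
  · rintro ⟨j, hj, k, hk, rfl | rfl⟩
    · exact ⟨j, hj, Or.inl ⟨k, hk, rfl⟩⟩
    · exact ⟨j, hj, Or.inr ⟨k, hk, rfl⟩⟩

theorem mem_tt {i : ℕ} : i ∈ (I.lay κ).tt ↔ i ∈ (I.lay κ).tb ∨
    ∃ k < κ + 10, i = I.W + k := by
  change i ∈ I.ttL κ ↔ i ∈ I.tbL κ ∨ _
  unfold ttL
  simp only [List.mem_append, List.mem_map, List.mem_range, eq_comm]

/-- the eight families of holes -/
theorem mem_rectsL {r : ℕ × ℕ × ℕ × ℕ} : r ∈ (I.lay κ).rects ↔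
    (∃ x < I.G, r = (I.gx κ x - 1, I.off κ (I.bt x) + 8 * x + 1, 4, 7)) ∨
    (∃ x < I.G, r = (I.gx κ x - 1, I.off' κ (I.tp x) + 8 * x + 1, 4, 7)) ∨
    (∃ j < I.m, r = (I.off κ j + 8 * I.G + 1, I.off κ j + 8 * I.G + 1, 4, 7)) ∨
    (∃ j < I.m, r = (I.off κ j + 8 * I.G + 9, I.off' κ j + 8 * I.G + 1, 4, 7)) ∨
    (∃ j < I.m, r = (I.off' κ j + 8 * I.G + 1, I.off κ j + 8 * I.G + 9, 4, 7)) ∨
    (∃ x < I.G, r = (I.off κ (I.lf x) + 8 * x + 1, I.gx κ x - 1, 7, 4)) ∨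
    (∃ x < I.G, r = (I.off' κ (I.rg x) + 8 * x + 1, I.gx κ x - 1, 7, 4)) ∨
    (∃ e < I.E, r = (I.X0 κ + 13 * e, I.X0 κ + 13 * e, 12, 12)) := by
  rw [mem_rects]
  constructor
  · rintro (⟨g, c, h, rfl⟩ | ⟨g, c, h, rfl⟩ | ⟨x, h, rfl⟩)
    · rw [mem_vbL] at h
      rcases h with ⟨x, hx, rfl, rfl⟩ | ⟨x, hx, rfl, rfl⟩ | ⟨x, hx, rfl, rfl⟩ |
        ⟨x, hx, rfl, rfl⟩ | ⟨x, hx, rfl, rfl⟩
      · exact Or.inl ⟨x, hx, rfl⟩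
      · exact Or.inr (Or.inl ⟨x, hx, rfl⟩)
      · exact Or.inr (Or.inr (Or.inl ⟨x, hx, rfl⟩))
      · exact Or.inr (Or.inr (Or.inr (Or.inl ⟨x, hx, rfl⟩)))
      · exact Or.inr (Or.inr (Or.inr (Or.inr (Or.inl ⟨x, hx, rfl⟩))))
    · rw [mem_hbL] at h
      rcases h with ⟨x, hx, rfl, rfl⟩ | ⟨x, hx, rfl, rfl⟩
      · exact Or.inr (Or.inr (Or.inr (Or.inr (Or.inr (Or.inl ⟨x, hx, rfl⟩)))))
      · exact Or.inr (Or.inr (Or.inr (Or.inr (Or.inr (Or.inr (Or.inl ⟨x, hx, rfl⟩))))))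
    · rw [mem_ch] at h
      rcases h with ⟨e, he, rfl⟩
      exact Or.inr (Or.inr (Or.inr (Or.inr (Or.inr (Or.inr (Or.inr ⟨e, he, rfl⟩))))))
  · rintro (⟨x, hx, rfl⟩ | ⟨x, hx, rfl⟩ | ⟨x, hx, rfl⟩ | ⟨x, hx, rfl⟩ | ⟨x, hx, rfl⟩ |
      ⟨x, hx, rfl⟩ | ⟨x, hx, rfl⟩ | ⟨x, hx, rfl⟩)
    · exact Or.inl ⟨_, _, mem_vbL.mpr (Or.inl ⟨x, hx, rfl, rfl⟩), rfl⟩
    · exact Or.inl ⟨_, _, mem_vbL.mpr (Or.inr (Or.inl ⟨x, hx, rfl, rfl⟩)), rfl⟩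
    · exact Or.inl ⟨_, _, mem_vbL.mpr (Or.inr (Or.inr (Or.inl ⟨x, hx, rfl, rfl⟩))), rfl⟩
    · exact Or.inl ⟨_, _, mem_vbL.mpr (Or.inr (Or.inr (Or.inr (Or.inl ⟨x, hx, rfl, rfl⟩)))), rfl⟩
    · exact Or.inl ⟨_, _, mem_vbL.mpr (Or.inr (Or.inr (Or.inr (Or.inr ⟨x, hx, rfl, rfl⟩)))), rfl⟩
    · exact Or.inr (Or.inl ⟨_, _, mem_hbL.mpr (Or.inl ⟨x, hx, rfl, rfl⟩), rfl⟩)
    · exact Or.inr (Or.inl ⟨_, _, mem_hbL.mpr (Or.inr ⟨x, hx, rfl, rfl⟩), rfl⟩)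
    · exact Or.inr (Or.inr ⟨_, mem_ch.mpr ⟨x, hx, rfl⟩, rfl⟩)

/-- cells: inside the grid and in none of the holes of the eight families -/
theorem cell_iff {a b : ℕ} : (I.lay κ).cell a b ↔ a < I.NN κ ∧ b < I.NN κ ∧
    (∀ x < I.G, ¬ (I.gx κ x - 1 ≤ a ∧ a < I.gx κ x - 1 + 4 ∧
      I.off κ (I.bt x) + 8 * x + 1 ≤ b ∧ b < I.off κ (I.bt x) + 8 * x + 1 + 7)) ∧
    (∀ x < I.G, ¬ (I.gx κ x - 1 ≤ a ∧ a < I.gx κ x - 1 + 4 ∧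
      I.off' κ (I.tp x) + 8 * x + 1 ≤ b ∧ b < I.off' κ (I.tp x) + 8 * x + 1 + 7)) ∧
    (∀ j < I.m, ¬ (I.off κ j + 8 * I.G + 1 ≤ a ∧ a < I.off κ j + 8 * I.G + 1 + 4 ∧
      I.off κ j + 8 * I.G + 1 ≤ b ∧ b < I.off κ j + 8 * I.G + 1 + 7)) ∧
    (∀ j < I.m, ¬ (I.off κ j + 8 * I.G + 9 ≤ a ∧ a < I.off κ j + 8 * I.G + 9 + 4 ∧
      I.off' κ j + 8 * I.G + 1 ≤ b ∧ b < I.off' κ j + 8 * I.G + 1 + 7)) ∧
    (∀ j < I.m, ¬ (I.off' κ j + 8 * I.G + 1 ≤ a ∧ a < I.off' κ j + 8 * I.G + 1 + 4 ∧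
      I.off κ j + 8 * I.G + 9 ≤ b ∧ b < I.off κ j + 8 * I.G + 9 + 7)) ∧
    (∀ x < I.G, ¬ (I.off κ (I.lf x) + 8 * x + 1 ≤ a ∧ a < I.off κ (I.lf x) + 8 * x + 1 + 7 ∧
      I.gx κ x - 1 ≤ b ∧ b < I.gx κ x - 1 + 4)) ∧
    (∀ x < I.G, ¬ (I.off' κ (I.rg x) + 8 * x + 1 ≤ a ∧ a < I.off' κ (I.rg x) + 8 * x + 1 + 7 ∧
      I.gx κ x - 1 ≤ b ∧ b < I.gx κ x - 1 + 4)) ∧
    (∀ e < I.E, ¬ (I.X0 κ + 13 * e ≤ a ∧ a < I.X0 κ + 13 * e + 12 ∧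
      I.X0 κ + 13 * e ≤ b ∧ b < I.X0 κ + 13 * e + 12)) := by
  constructor
  · rintro ⟨h1, h2, h⟩
    refine ⟨h1, h2, fun x hx => ?_, fun x hx => ?_, fun x hx => ?_, fun x hx => ?_, fun x hx => ?_,
      fun x hx => ?_, fun x hx => ?_, fun x hx => ?_⟩
    · exact h _ (mem_rectsL.mpr (Or.inl ⟨x, hx, rfl⟩))
    · exact h _ (mem_rectsL.mpr (Or.inr (Or.inl ⟨x, hx, rfl⟩)))
    · exact h _ (mem_rectsL.mpr (Or.inr (Or.inr (Or.inl ⟨x, hx, rfl⟩))))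
    · exact h _ (mem_rectsL.mpr (Or.inr (Or.inr (Or.inr (Or.inl ⟨x, hx, rfl⟩)))))
    · exact h _ (mem_rectsL.mpr (Or.inr (Or.inr (Or.inr (Or.inr (Or.inl ⟨x, hx, rfl⟩))))))
    · exact h _ (mem_rectsL.mpr (Or.inr (Or.inr (Or.inr (Or.inr (Or.inr (Or.inl ⟨x, hx, rfl⟩)))))))
    · exact h _ (mem_rectsL.mpr
        (Or.inr (Or.inr (Or.inr (Or.inr (Or.inr (Or.inr (Or.inl ⟨x, hx, rfl⟩))))))))
    · exact h _ (mem_rectsL.mpr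
        (Or.inr (Or.inr (Or.inr (Or.inr (Or.inr (Or.inr (Or.inr ⟨x, hx, rfl⟩))))))))
  · rintro ⟨h1, h2, a1, a2, a3, a4, a5, a6, a7, a8⟩
    refine ⟨h1, h2, fun r hr => ?_⟩
    rw [mem_rectsL] at hr
    rcases hr with ⟨x, hx, rfl⟩ | ⟨x, hx, rfl⟩ | ⟨x, hx, rfl⟩ | ⟨x, hx, rfl⟩ | ⟨x, hx, rfl⟩ |
      ⟨x, hx, rfl⟩ | ⟨x, hx, rfl⟩ | ⟨x, hx, rfl⟩
    · exact a1 x hx
    · exact a2 x hx
    · exact a3 x hx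
    · exact a4 x hx
    · exact a5 x hx
    · exact a6 x hx
    · exact a7 x hx
    · exact a8 x hx

end UV

end Pool.Agent.PLN
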