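import Pool.Agent.PLN.Ly3

/-!
# Unbroken and broken lines of the bundles

All statements follow from `cell_iff`: exclude the eight families of holes with the inequalities of
`Ly1` (`off_lt`, `off'_lt` for different bundles; `gx_ge`, `gx_le` for the central region).
-/

namespace Pool.Agent.PLN

namespace UV

variable {I : UV} {κ : ℕ}

/-- rows and columns `8 x`, `x < G + 2`, of every bundle are unbroken -/
theorem unb_row (hI : I.Ok) {j x i : ℕ} (hj : j < I.m) (hx : x < I.G + 2) (hi : i < I.NN κ) :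
    (I.lay κ).cell i (I.off κ j + 8 * x) := by
  have hW := I.W_eq
  have hX1 := X1_eq (I := I) (κ := κ)
  have hNN := NN_ge (κ := κ) hI
  obtain ⟨a1, a2, a3⟩ := Ly3_j (κ := κ) hj
  rw [cell_iff]
  refine ⟨by omega, by omega, ?_, ?_, ?_, ?_, ?_, ?_, ?_, ?_⟩
  · intro y hy
    obtain ⟨b1, b2, b3, b4, b5, b6, b7, b8⟩ := Ly3_g (κ := κ) hI hy
    have ht := Ly3_tri (I := I) (κ := κ) j (I.bt y)
    omega
  · intro y hy
    obtain ⟨b1, b2, b3, b4, b5, b6, b7, b8⟩ := Ly3_g (κ := κ) hI hy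
    omega
  · intro y hy
    obtain ⟨b1, b2, b3⟩ := Ly3_j (κ := κ) hy
    have ht := Ly3_tri (I := I) (κ := κ) j y
    omega
  · intro y hy
    obtain ⟨b1, b2, b3⟩ := Ly3_j (κ := κ) hy
    have ht := Ly3_tri (I := I) (κ := κ) j y
    omega
  · intro y hy
    obtain ⟨b1, b2, b3⟩ := Ly3_j (κ := κ) hy
    have ht := Ly3_tri (I := I) (κ := κ) j y
    omega
  · intro y hy
    obtain ⟨b1, b2, b3, b4, b5, b6, b7, b8⟩ := Ly3_g (κ := κ) hI hy
    have ht := Ly3_tri (I := I) (κ := κ) j (I.lf y)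
    omega
  · intro y hy
    obtain ⟨b1, b2, b3, b4, b5, b6, b7, b8⟩ := Ly3_g (κ := κ) hI hy
    omega
  · intro y hy
    omega

theorem unb_row' (hI : I.Ok) {j x i : ℕ} (hj : j < I.m) (hx : x < I.G + 2) (hi : i < I.NN κ) :
    (I.lay κ).cell i (I.off' κ j + 8 * x) := by
  have hW := I.W_eq
  have hX1 := X1_eq (I := I) (κ := κ)
  have hNN := NN_ge (κ := κ) hI
  obtain ⟨a1, a2, a3⟩ := Ly3_j (κ := κ) hj
  rw [cell_iff]
  refine ⟨by omega, by omega, ?_, ?_, ?_, ?_, ?_, ?_, ?_, ?_⟩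
  · intro y hy
    obtain ⟨b1, b2, b3, b4, b5, b6, b7, b8⟩ := Ly3_g (κ := κ) hI hy
    omega
  · intro y hy
    obtain ⟨b1, b2, b3, b4, b5, b6, b7, b8⟩ := Ly3_g (κ := κ) hI hy
    have ht := Ly3_tri' (I := I) (κ := κ) j (I.tp y)
    omega
  · intro y hy
    obtain ⟨b1, b2, b3⟩ := Ly3_j (κ := κ) hy
    have ht := Ly3_tri' (I := I) (κ := κ) j y
    omega
  · intro y hy
    obtain ⟨b1, b2, b3⟩ := Ly3_j (κ := κ) hy
    have ht := Ly3_tri' (I := I) (κ := κ) j y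
    omega
  · intro y hy
    obtain ⟨b1, b2, b3⟩ := Ly3_j (κ := κ) hy
    have ht := Ly3_tri' (I := I) (κ := κ) j y
    omega
  · intro y hy
    obtain ⟨b1, b2, b3, b4, b5, b6, b7, b8⟩ := Ly3_g (κ := κ) hI hy
    omega
  · intro y hy
    obtain ⟨b1, b2, b3, b4, b5, b6, b7, b8⟩ := Ly3_g (κ := κ) hI hy
    have ht := Ly3_tri' (I := I) (κ := κ) j (I.rg y)
    omega
  · intro y hy
    omega

theorem unb_col (hI : I.Ok) {j x i : ℕ} (hj : j < I.m) (hx : x < I.G + 2) (hi : i < I.NN κ) :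
    (I.lay κ).cell (I.off κ j + 8 * x) i := by
  have hW := I.W_eq
  have hX1 := X1_eq (I := I) (κ := κ)
  have hNN := NN_ge (κ := κ) hI
  obtain ⟨a1, a2, a3⟩ := Ly3_j (κ := κ) hj
  rw [cell_iff]
  refine ⟨by omega, by omega, ?_, ?_, ?_, ?_, ?_, ?_, ?_, ?_⟩
  · intro y hy
    obtain ⟨b1, b2, b3, b4, b5, b6, b7, b8⟩ := Ly3_g (κ := κ) hI hy
    have ht := Ly3_tri (I := I) (κ := κ) j (I.bt y)
    omega
  · intro y hy
    obtain ⟨b1, b2, b3, b4, b5, b6, b7, b8⟩ := Ly3_g (κ := κ) hI hy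
    omega
  · intro y hy
    obtain ⟨b1, b2, b3⟩ := Ly3_j (κ := κ) hy
    have ht := Ly3_tri (I := I) (κ := κ) j y
    omega
  · intro y hy
    obtain ⟨b1, b2, b3⟩ := Ly3_j (κ := κ) hy
    have ht := Ly3_tri (I := I) (κ := κ) j y
    omega
  · intro y hy
    obtain ⟨b1, b2, b3⟩ := Ly3_j (κ := κ) hy
    have ht := Ly3_tri (I := I) (κ := κ) j y
    omega
  · intro y hy
    obtain ⟨b1, b2, b3, b4, b5, b6, b7, b8⟩ := Ly3_g (κ := κ) hI hy
    have ht := Ly3_tri (I := I) (κ := κ) j (I.lf y)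
    omega
  · intro y hy
    obtain ⟨b1, b2, b3, b4, b5, b6, b7, b8⟩ := Ly3_g (κ := κ) hI hy
    omega
  · intro y hy
    omega

theorem unb_col' (hI : I.Ok) {j x i : ℕ} (hj : j < I.m) (hx : x < I.G + 2) (hi : i < I.NN κ) :
    (I.lay κ).cell (I.off' κ j + 8 * x) i := by
  have hW := I.W_eq
  have hX1 := X1_eq (I := I) (κ := κ)
  have hNN := NN_ge (κ := κ) hI
  obtain ⟨a1, a2, a3⟩ := Ly3_j (κ := κ) hj
  rw [cell_iff]
  refine ⟨by omega, by omega, ?_, ?_, ?_, ?_, ?_, ?_, ?_, ?_⟩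
  · intro y hy
    obtain ⟨b1, b2, b3, b4, b5, b6, b7, b8⟩ := Ly3_g (κ := κ) hI hy
    omega
  · intro y hy
    obtain ⟨b1, b2, b3, b4, b5, b6, b7, b8⟩ := Ly3_g (κ := κ) hI hy
    have ht := Ly3_tri' (I := I) (κ := κ) j (I.tp y)
    omega
  · intro y hy
    obtain ⟨b1, b2, b3⟩ := Ly3_j (κ := κ) hy
    have ht := Ly3_tri' (I := I) (κ := κ) j y
    omega
  · intro y hy
    obtain ⟨b1, b2, b3⟩ := Ly3_j (κ := κ) hy
    have ht := Ly3_tri' (I := I) (κ := κ) j y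
    omega
  · intro y hy
    obtain ⟨b1, b2, b3⟩ := Ly3_j (κ := κ) hy
    have ht := Ly3_tri' (I := I) (κ := κ) j y
    omega
  · intro y hy
    obtain ⟨b1, b2, b3, b4, b5, b6, b7, b8⟩ := Ly3_g (κ := κ) hI hy
    omega
  · intro y hy
    obtain ⟨b1, b2, b3, b4, b5, b6, b7, b8⟩ := Ly3_g (κ := κ) hI hy
    have ht := Ly3_tri' (I := I) (κ := κ) j (I.rg y)
    omega
  · intro y hy
    omega

/-- the columns `W, …, W + κ + 10` before bundle `1` are unbroken -/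
theorem unb_Z (hI : I.Ok) {k i : ℕ} (hk : k < κ + 11) (hi : i < I.NN κ) :
    (I.lay κ).cell (I.W + k) i := by
  have hW := I.W_eq
  have hX1 := X1_eq (I := I) (κ := κ)
  have hNN := NN_ge (κ := κ) hI
  have hX0 := X0_ge (κ := κ) hI
  have h0 := off_zero (I := I) (κ := κ)
  have h1 := off_one (I := I) (κ := κ)
  rw [cell_iff]
  refine ⟨by omega, by omega, ?_, ?_, ?_, ?_, ?_, ?_, ?_, ?_⟩
  · intro y hy
    obtain ⟨b1, b2, b3, b4, b5, b6, b7, b8⟩ := Ly3_g (κ := κ) hI hy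
    rcases Nat.eq_zero_or_pos (I.bt y) with hz | hz
    · rw [hz]
      omega
    · have hz' := off_one_le (I := I) (κ := κ) hz
      omega
  · intro y hy
    obtain ⟨b1, b2, b3, b4, b5, b6, b7, b8⟩ := Ly3_g (κ := κ) hI hy
    omega
  · intro y hy
    obtain ⟨b1, b2, b3⟩ := Ly3_j (κ := κ) hy
    rcases Nat.eq_zero_or_pos y with hz | hz
    · subst hz
      omega
    · have hz' := off_one_le (I := I) (κ := κ) hz
      omega
  · intro y hy
    obtain ⟨b1, b2, b3⟩ := Ly3_j (κ := κ) hy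
    rcases Nat.eq_zero_or_pos y with hz | hz
    · subst hz
      omega
    · have hz' := off_one_le (I := I) (κ := κ) hz
      omega
  · intro y hy
    obtain ⟨b1, b2, b3⟩ := Ly3_j (κ := κ) hy
    rcases Nat.eq_zero_or_pos y with hz | hz
    · subst hz
      omega
    · have hz' := off_one_le (I := I) (κ := κ) hz
      omega
  · intro y hy
    obtain ⟨b1, b2, b3, b4, b5, b6, b7, b8⟩ := Ly3_g (κ := κ) hI hy
    rcases Nat.eq_zero_or_pos (I.lf y) with hz | hz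
    · rw [hz]
      omega
    · have hz' := off_one_le (I := I) (κ := κ) hz
      omega
  · intro y hy
    obtain ⟨b1, b2, b3, b4, b5, b6, b7, b8⟩ := Ly3_g (κ := κ) hI hy
    omega
  · intro y hy
    omega

/-- family 1 -/
theorem brk1 (hI : I.Ok) {x k i : ℕ} (hx : x < I.G) (hk : k < 7) (hi : i < I.NN κ)
    (h : i < I.gx κ x - 1 ∨ I.gx κ x + 3 ≤ i) :
    (I.lay κ).cell i (I.off κ (I.bt x) + 8 * x + 1 + k) := by
  have hW := I.W_eq
  have hX1 := X1_eq (I := I) (κ := κ)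
  have hNN := NN_ge (κ := κ) hI
  obtain ⟨a1, a2, a3, a4, a5, a6, a7, a8⟩ := Ly3_g (κ := κ) hI hx
  rw [cell_iff]
  refine ⟨by omega, by omega, ?_, ?_, ?_, ?_, ?_, ?_, ?_, ?_⟩
  · intro y hy
    obtain ⟨b1, b2, b3, b4, b5, b6, b7, b8⟩ := Ly3_g (κ := κ) hI hy
    rcases eq_or_ne y x with rfl | hne
    · omega
    · have ht := Ly3_tri (I := I) (κ := κ) (I.bt x) (I.bt y)
      omega
  · intro y hy
    obtain ⟨b1, b2, b3, b4, b5, b6, b7, b8⟩ := Ly3_g (κ := κ) hI hy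
    omega
  · intro y hy
    obtain ⟨b1, b2, b3⟩ := Ly3_j (κ := κ) hy
    have ht := Ly3_tri (I := I) (κ := κ) (I.bt x) y
    omega
  · intro y hy
    obtain ⟨b1, b2, b3⟩ := Ly3_j (κ := κ) hy
    have ht := Ly3_tri (I := I) (κ := κ) (I.bt x) y
    omega
  · intro y hy
    obtain ⟨b1, b2, b3⟩ := Ly3_j (κ := κ) hy
    have ht := Ly3_tri (I := I) (κ := κ) (I.bt x) y
    omega
  · intro y hy
    obtain ⟨b1, b2, b3, b4, b5, b6, b7, b8⟩ := Ly3_g (κ := κ) hI hy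
    have ht := Ly3_tri (I := I) (κ := κ) (I.bt x) (I.lf y)
    omega
  · intro y hy
    obtain ⟨b1, b2, b3, b4, b5, b6, b7, b8⟩ := Ly3_g (κ := κ) hI hy
    omega
  · intro y hy
    omega

/-- family 2 -/
theorem brk2 (hI : I.Ok) {x k i : ℕ} (hx : x < I.G) (hk : k < 7) (hi : i < I.NN κ)
    (h : i < I.gx κ x - 1 ∨ I.gx κ x + 3 ≤ i) :
    (I.lay κ).cell i (I.off' κ (I.tp x) + 8 * x + 1 + k) := by
  have hW := I.W_eq
  have hX1 := X1_eq (I := I) (κ := κ)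
  have hNN := NN_ge (κ := κ) hI
  obtain ⟨a1, a2, a3, a4, a5, a6, a7, a8⟩ := Ly3_g (κ := κ) hI hx
  rw [cell_iff]
  refine ⟨by omega, by omega, ?_, ?_, ?_, ?_, ?_, ?_, ?_, ?_⟩
  · intro y hy
    obtain ⟨b1, b2, b3, b4, b5, b6, b7, b8⟩ := Ly3_g (κ := κ) hI hy
    omega
  · intro y hy
    obtain ⟨b1, b2, b3, b4, b5, b6, b7, b8⟩ := Ly3_g (κ := κ) hI hy
    rcases eq_or_ne y x with rfl | hne
    · omega
    · have ht := Ly3_tri' (I := I) (κ := κ) (I.tp x) (I.tp y)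
      omega
  · intro y hy
    obtain ⟨b1, b2, b3⟩ := Ly3_j (κ := κ) hy
    have ht := Ly3_tri' (I := I) (κ := κ) (I.tp x) y
    omega
  · intro y hy
    obtain ⟨b1, b2, b3⟩ := Ly3_j (κ := κ) hy
    have ht := Ly3_tri' (I := I) (κ := κ) (I.tp x) y
    omega
  · intro y hy
    obtain ⟨b1, b2, b3⟩ := Ly3_j (κ := κ) hy
    have ht := Ly3_tri' (I := I) (κ := κ) (I.tp x) y
    omega
  · intro y hy
    obtain ⟨b1, b2, b3, b4, b5, b6, b7, b8⟩ := Ly3_g (κ := κ) hI hy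
    omega
  · intro y hy
    obtain ⟨b1, b2, b3, b4, b5, b6, b7, b8⟩ := Ly3_g (κ := κ) hI hy
    have ht := Ly3_tri' (I := I) (κ := κ) (I.tp x) (I.rg y)
    omega
  · intro y hy
    omega

/-- family 3 -/
theorem brk3 (hI : I.Ok) {j k i : ℕ} (hj : j < I.m) (hk : k < 7) (hi : i < I.NN κ)
    (h : i < I.off κ j + 8 * I.G + 1 ∨ I.off κ j + 8 * I.G + 5 ≤ i) :
    (I.lay κ).cell i (I.off κ j + 8 * I.G + 1 + k) := by
  have hW := I.W_eq
  have hX1 := X1_eq (I := I) (κ := κ)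
  have hNN := NN_ge (κ := κ) hI
  obtain ⟨a1, a2, a3⟩ := Ly3_j (κ := κ) hj
  rw [cell_iff]
  refine ⟨by omega, by omega, ?_, ?_, ?_, ?_, ?_, ?_, ?_, ?_⟩
  · intro y hy
    obtain ⟨b1, b2, b3, b4, b5, b6, b7, b8⟩ := Ly3_g (κ := κ) hI hy
    have ht := Ly3_tri (I := I) (κ := κ) j (I.bt y)
    omega
  · intro y hy
    obtain ⟨b1, b2, b3, b4, b5, b6, b7, b8⟩ := Ly3_g (κ := κ) hI hy
    omega
  · intro y hy
    obtain ⟨b1, b2, b3⟩ := Ly3_j (κ := κ) hy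
    rcases eq_or_ne y j with rfl | hne
    · omega
    · have ht := Ly3_tri (I := I) (κ := κ) j y
      omega
  · intro y hy
    obtain ⟨b1, b2, b3⟩ := Ly3_j (κ := κ) hy
    have ht := Ly3_tri (I := I) (κ := κ) j y
    omega
  · intro y hy
    obtain ⟨b1, b2, b3⟩ := Ly3_j (κ := κ) hy
    have ht := Ly3_tri (I := I) (κ := κ) j y
    omega
  · intro y hy
    obtain ⟨b1, b2, b3, b4, b5, b6, b7, b8⟩ := Ly3_g (κ := κ) hI hy
    have ht := Ly3_tri (I := I) (κ := κ) j (I.lf y)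
    omega
  · intro y hy
    obtain ⟨b1, b2, b3, b4, b5, b6, b7, b8⟩ := Ly3_g (κ := κ) hI hy
    omega
  · intro y hy
    omega

/-- family 4 -/
theorem brk4 (hI : I.Ok) {j k i : ℕ} (hj : j < I.m) (hk : k < 7) (hi : i < I.NN κ)
    (h : i < I.off κ j + 8 * I.G + 9 ∨ I.off κ j + 8 * I.G + 13 ≤ i) :
    (I.lay κ).cell i (I.off' κ j + 8 * I.G + 1 + k) := by
  have hW := I.W_eq
  have hX1 := X1_eq (I := I) (κ := κ)
  have hNN := NN_ge (κ := κ) hI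
  obtain ⟨a1, a2, a3⟩ := Ly3_j (κ := κ) hj
  rw [cell_iff]
  refine ⟨by omega, by omega, ?_, ?_, ?_, ?_, ?_, ?_, ?_, ?_⟩
  · intro y hy
    obtain ⟨b1, b2, b3, b4, b5, b6, b7, b8⟩ := Ly3_g (κ := κ) hI hy
    omega
  · intro y hy
    obtain ⟨b1, b2, b3, b4, b5, b6, b7, b8⟩ := Ly3_g (κ := κ) hI hy
    have ht := Ly3_tri' (I := I) (κ := κ) j (I.tp y)
    omega
  · intro y hy
    obtain ⟨b1, b2, b3⟩ := Ly3_j (κ := κ) hy
    have ht := Ly3_tri' (I := I) (κ := κ) j y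
    omega
  · intro y hy
    obtain ⟨b1, b2, b3⟩ := Ly3_j (κ := κ) hy
    rcases eq_or_ne y j with rfl | hne
    · omega
    · have ht := Ly3_tri' (I := I) (κ := κ) j y
      omega
  · intro y hy
    obtain ⟨b1, b2, b3⟩ := Ly3_j (κ := κ) hy
    have ht := Ly3_tri' (I := I) (κ := κ) j y
    omega
  · intro y hy
    obtain ⟨b1, b2, b3, b4, b5, b6, b7, b8⟩ := Ly3_g (κ := κ) hI hy
    omega
  · intro y hy
    obtain ⟨b1, b2, b3, b4, b5, b6, b7, b8⟩ := Ly3_g (κ := κ) hI hy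
    have ht := Ly3_tri' (I := I) (κ := κ) j (I.rg y)
    omega
  · intro y hy
    omega

/-- family 5 -/
theorem brk5 (hI : I.Ok) {j k i : ℕ} (hj : j < I.m) (hk : k < 7) (hi : i < I.NN κ)
    (h : i < I.off' κ j + 8 * I.G + 1 ∨ I.off' κ j + 8 * I.G + 5 ≤ i) :
    (I.lay κ).cell i (I.off κ j + 8 * I.G + 9 + k) := by
  have hW := I.W_eq
  have hX1 := X1_eq (I := I) (κ := κ)
  have hNN := NN_ge (κ := κ) hI
  obtain ⟨a1, a2, a3⟩ := Ly3_j (κ := κ) hj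
  rw [cell_iff]
  refine ⟨by omega, by omega, ?_, ?_, ?_, ?_, ?_, ?_, ?_, ?_⟩
  · intro y hy
    obtain ⟨b1, b2, b3, b4, b5, b6, b7, b8⟩ := Ly3_g (κ := κ) hI hy
    have ht := Ly3_tri (I := I) (κ := κ) j (I.bt y)
    omega
  · intro y hy
    obtain ⟨b1, b2, b3, b4, b5, b6, b7, b8⟩ := Ly3_g (κ := κ) hI hy
    omega
  · intro y hy
    obtain ⟨b1, b2, b3⟩ := Ly3_j (κ := κ) hy
    have ht := Ly3_tri (I := I) (κ := κ) j y
    omega
  · intro y hy
    obtain ⟨b1, b2, b3⟩ := Ly3_j (κ := κ) hy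
    have ht := Ly3_tri (I := I) (κ := κ) j y
    omega
  · intro y hy
    obtain ⟨b1, b2, b3⟩ := Ly3_j (κ := κ) hy
    rcases eq_or_ne y j with rfl | hne
    · omega
    · have ht := Ly3_tri (I := I) (κ := κ) j y
      omega
  · intro y hy
    obtain ⟨b1, b2, b3, b4, b5, b6, b7, b8⟩ := Ly3_g (κ := κ) hI hy
    have ht := Ly3_tri (I := I) (κ := κ) j (I.lf y)
    omega
  · intro y hy
    obtain ⟨b1, b2, b3, b4, b5, b6, b7, b8⟩ := Ly3_g (κ := κ) hI hy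
    omega
  · intro y hy
    omega

/-- family 6 -/
theorem brk6 (hI : I.Ok) {x k i : ℕ} (hx : x < I.G) (hk : k < 7) (hi : i < I.NN κ)
    (h : i < I.gx κ x - 1 ∨ I.gx κ x + 3 ≤ i) :
    (I.lay κ).cell (I.off κ (I.lf x) + 8 * x + 1 + k) i := by
  have hW := I.W_eq
  have hX1 := X1_eq (I := I) (κ := κ)
  have hNN := NN_ge (κ := κ) hI
  obtain ⟨a1, a2, a3, a4, a5, a6, a7, a8⟩ := Ly3_g (κ := κ) hI hx
  rw [cell_iff]
  refine ⟨by omega, by omega, ?_, ?_, ?_, ?_, ?_, ?_, ?_, ?_⟩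
  · intro y hy
    obtain ⟨b1, b2, b3, b4, b5, b6, b7, b8⟩ := Ly3_g (κ := κ) hI hy
    have ht := Ly3_tri (I := I) (κ := κ) (I.lf x) (I.bt y)
    omega
  · intro y hy
    obtain ⟨b1, b2, b3, b4, b5, b6, b7, b8⟩ := Ly3_g (κ := κ) hI hy
    omega
  · intro y hy
    obtain ⟨b1, b2, b3⟩ := Ly3_j (κ := κ) hy
    have ht := Ly3_tri (I := I) (κ := κ) (I.lf x) y
    omega
  · intro y hy
    obtain ⟨b1, b2, b3⟩ := Ly3_j (κ := κ) hy
    have ht := Ly3_tri (I := I) (κ := κ) (I.lf x) y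
    omega
  · intro y hy
    obtain ⟨b1, b2, b3⟩ := Ly3_j (κ := κ) hy
    have ht := Ly3_tri (I := I) (κ := κ) (I.lf x) y
    omega
  · intro y hy
    obtain ⟨b1, b2, b3, b4, b5, b6, b7, b8⟩ := Ly3_g (κ := κ) hI hy
    rcases eq_or_ne y x with rfl | hne
    · omega
    · have ht := Ly3_tri (I := I) (κ := κ) (I.lf x) (I.lf y)
      omega
  · intro y hy
    obtain ⟨b1, b2, b3, b4, b5, b6, b7, b8⟩ := Ly3_g (κ := κ) hI hy
    omega
  · intro y hy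
    omega

/-- family 7 -/
theorem brk7 (hI : I.Ok) {x k i : ℕ} (hx : x < I.G) (hk : k < 7) (hi : i < I.NN κ)
    (h : i < I.gx κ x - 1 ∨ I.gx κ x + 3 ≤ i) :
    (I.lay κ).cell (I.off' κ (I.rg x) + 8 * x + 1 + k) i := by
  have hW := I.W_eq
  have hX1 := X1_eq (I := I) (κ := κ)
  have hNN := NN_ge (κ := κ) hI
  obtain ⟨a1, a2, a3, a4, a5, a6, a7, a8⟩ := Ly3_g (κ := κ) hI hx
  rw [cell_iff]
  refine ⟨by omega, by omega, ?_, ?_, ?_, ?_, ?_, ?_, ?_, ?_⟩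
  · intro y hy
    obtain ⟨b1, b2, b3, b4, b5, b6, b7, b8⟩ := Ly3_g (κ := κ) hI hy
    omega
  · intro y hy
    obtain ⟨b1, b2, b3, b4, b5, b6, b7, b8⟩ := Ly3_g (κ := κ) hI hy
    have ht := Ly3_tri' (I := I) (κ := κ) (I.rg x) (I.tp y)
    omega
  · intro y hy
    obtain ⟨b1, b2, b3⟩ := Ly3_j (κ := κ) hy
    have ht := Ly3_tri' (I := I) (κ := κ) (I.rg x) y
    omega
  · intro y hy
    obtain ⟨b1, b2, b3⟩ := Ly3_j (κ := κ) hy
    have ht := Ly3_tri' (I := I) (κ := κ) (I.rg x) y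
    omega
  · intro y hy
    obtain ⟨b1, b2, b3⟩ := Ly3_j (κ := κ) hy
    have ht := Ly3_tri' (I := I) (κ := κ) (I.rg x) y
    omega
  · intro y hy
    obtain ⟨b1, b2, b3, b4, b5, b6, b7, b8⟩ := Ly3_g (κ := κ) hI hy
    omega
  · intro y hy
    obtain ⟨b1, b2, b3, b4, b5, b6, b7, b8⟩ := Ly3_g (κ := κ) hI hy
    rcases eq_or_ne y x with rfl | hne
    · omega
    · have ht := Ly3_tri' (I := I) (κ := κ) (I.rg x) (I.rg y)
      omega
  · intro y hy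
    omega

/-- the columns of the holes of family 3, below them -/
theorem col3 (hI : I.Ok) {j a i : ℕ} (hj : j < I.m) (ha : a < 4)
    (hi : i < I.off κ j + 8 * I.G + 1) :
    (I.lay κ).cell (I.off κ j + 8 * I.G + 1 + a) i := by
  have hW := I.W_eq
  have hX1 := X1_eq (I := I) (κ := κ)
  have hNN := NN_ge (κ := κ) hI
  obtain ⟨a1, a2, a3⟩ := Ly3_j (κ := κ) hj
  rw [cell_iff]
  refine ⟨by omega, by omega, ?_, ?_, ?_, ?_, ?_, ?_, ?_, ?_⟩
  · intro y hy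
    obtain ⟨b1, b2, b3, b4, b5, b6, b7, b8⟩ := Ly3_g (κ := κ) hI hy
    have ht := Ly3_tri (I := I) (κ := κ) j (I.bt y)
    omega
  · intro y hy
    obtain ⟨b1, b2, b3, b4, b5, b6, b7, b8⟩ := Ly3_g (κ := κ) hI hy
    omega
  · intro y hy
    obtain ⟨b1, b2, b3⟩ := Ly3_j (κ := κ) hy
    rcases eq_or_ne y j with rfl | hne
    · omega
    · have ht := Ly3_tri (I := I) (κ := κ) j y
      omega
  · intro y hy
    obtain ⟨b1, b2, b3⟩ := Ly3_j (κ := κ) hy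
    have ht := Ly3_tri (I := I) (κ := κ) j y
    omega
  · intro y hy
    obtain ⟨b1, b2, b3⟩ := Ly3_j (κ := κ) hy
    have ht := Ly3_tri (I := I) (κ := κ) j y
    omega
  · intro y hy
    obtain ⟨b1, b2, b3, b4, b5, b6, b7, b8⟩ := Ly3_g (κ := κ) hI hy
    have ht := Ly3_tri (I := I) (κ := κ) j (I.lf y)
    omega
  · intro y hy
    obtain ⟨b1, b2, b3, b4, b5, b6, b7, b8⟩ := Ly3_g (κ := κ) hI hy
    omega
  · intro y hy
    omega

/-- the columns of the holes of family 4, below them -/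
theorem col4 (hI : I.Ok) {j a i : ℕ} (hj : j < I.m) (ha : a < 4)
    (hi : i < I.off' κ j + 8 * I.G + 1) :
    (I.lay κ).cell (I.off κ j + 8 * I.G + 9 + a) i := by
  have hW := I.W_eq
  have hX1 := X1_eq (I := I) (κ := κ)
  have hNN := NN_ge (κ := κ) hI
  obtain ⟨a1, a2, a3⟩ := Ly3_j (κ := κ) hj
  rw [cell_iff]
  refine ⟨by omega, by omega, ?_, ?_, ?_, ?_, ?_, ?_, ?_, ?_⟩
  · intro y hy
    obtain ⟨b1, b2, b3, b4, b5, b6, b7, b8⟩ := Ly3_g (κ := κ) hI hy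
    have ht := Ly3_tri (I := I) (κ := κ) j (I.bt y)
    omega
  · intro y hy
    obtain ⟨b1, b2, b3, b4, b5, b6, b7, b8⟩ := Ly3_g (κ := κ) hI hy
    omega
  · intro y hy
    obtain ⟨b1, b2, b3⟩ := Ly3_j (κ := κ) hy
    have ht := Ly3_tri (I := I) (κ := κ) j y
    omega
  · intro y hy
    obtain ⟨b1, b2, b3⟩ := Ly3_j (κ := κ) hy
    rcases eq_or_ne y j with rfl | hne
    · omega
    · have ht := Ly3_tri (I := I) (κ := κ) j y
      omega
  · intro y hy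
    obtain ⟨b1, b2, b3⟩ := Ly3_j (κ := κ) hy
    have ht := Ly3_tri (I := I) (κ := κ) j y
    omega
  · intro y hy
    obtain ⟨b1, b2, b3, b4, b5, b6, b7, b8⟩ := Ly3_g (κ := κ) hI hy
    have ht := Ly3_tri (I := I) (κ := κ) j (I.lf y)
    omega
  · intro y hy
    obtain ⟨b1, b2, b3, b4, b5, b6, b7, b8⟩ := Ly3_g (κ := κ) hI hy
    omega
  · intro y hy
    omega

/-- the columns of the holes of family 5, below them -/
theorem col5 (hI : I.Ok) {j a i : ℕ} (hj : j < I.m) (ha : a < 4)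
    (hi : i < I.off κ j + 8 * I.G + 9) :
    (I.lay κ).cell (I.off' κ j + 8 * I.G + 1 + a) i := by
  have hW := I.W_eq
  have hX1 := X1_eq (I := I) (κ := κ)
  have hNN := NN_ge (κ := κ) hI
  obtain ⟨a1, a2, a3⟩ := Ly3_j (κ := κ) hj
  rw [cell_iff]
  refine ⟨by omega, by omega, ?_, ?_, ?_, ?_, ?_, ?_, ?_, ?_⟩
  · intro y hy
    obtain ⟨b1, b2, b3, b4, b5, b6, b7, b8⟩ := Ly3_g (κ := κ) hI hy
    omega
  · intro y hy
    obtain ⟨b1, b2, b3, b4, b5, b6, b7, b8⟩ := Ly3_g (κ := κ) hI hy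
    have ht := Ly3_tri' (I := I) (κ := κ) j (I.tp y)
    omega
  · intro y hy
    obtain ⟨b1, b2, b3⟩ := Ly3_j (κ := κ) hy
    have ht := Ly3_tri' (I := I) (κ := κ) j y
    omega
  · intro y hy
    obtain ⟨b1, b2, b3⟩ := Ly3_j (κ := κ) hy
    have ht := Ly3_tri' (I := I) (κ := κ) j y
    omega
  · intro y hy
    obtain ⟨b1, b2, b3⟩ := Ly3_j (κ := κ) hy
    rcases eq_or_ne y j with rfl | hne
    · omega
    · have ht := Ly3_tri' (I := I) (κ := κ) j y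
      omega
  · intro y hy
    obtain ⟨b1, b2, b3, b4, b5, b6, b7, b8⟩ := Ly3_g (κ := κ) hI hy
    omega
  · intro y hy
    obtain ⟨b1, b2, b3, b4, b5, b6, b7, b8⟩ := Ly3_g (κ := κ) hI hy
    have ht := Ly3_tri' (I := I) (κ := κ) j (I.rg y)
    omega
  · intro y hy
    omega

end UV

end Pool.Agent.PLN
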