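import Pool.Agent.PLN.Core
import Pool.Agent.PLN.Nm2

/-!
# Propagation of steps along columns and rows

`hs_up`: `GD.cell` says `hs P i (j+1) = hs P i j` for a present cell; induction.
`hs_up'`: strong induction on `b - a`.  If the cell `(i, a)` is present, pass to `a + 1` (a hole of
the family with `a ≤ c` used for some `j ≥ a + 1` has `c ≥ a + 1`, otherwise `c = a` and
`c ≤ a < c + 7`, so the cell `(i, a)` would lie in this hole, which is in `L.rects` by `rect_vb`).
Otherwise `(i, a)` is in a coupling hole with `c = a`; pass to `a + 7` by `htr`; a hole `(g', c')`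
used for some `j ≥ a + 7` has `c' ≥ a + 7`: otherwise `a ≤ c' < a + 7 ≤ j < c' + 7`, and the holes
`(g, a)` and `(g', c')` have the column `i` and the row `a + 6` or so in common, so they are equal
(`GoodN.sep`), and then `j < a + 7`, a contradiction.
`vs_right`, `vs_right'`: the same with the roles of the coordinates exchanged.
-/

namespace Pool.Agent.PLN

variable {L : Lay} {P : ℕ → ℕ → ℂ}

theorem hs_up (hD : GD L P) {i a b : ℕ} (hab : a ≤ b) (h : ∀ j, a ≤ j → j < b → L.cell i j) :
    hs P i b = hs P i a := by
  induction b, hab using Nat.le_induction with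
  | base => rfl
  | succ b hb ih =>
    rw [← ih (fun j h1 h2 => h j h1 (by omega))]
    have h3 := hD.cell i b (h b hb (by omega))
    unfold hs
    linear_combination h3

theorem vs_right (hD : GD L P) {j a b : ℕ} (hab : a ≤ b) (h : ∀ i, a ≤ i → i < b → L.cell i j) :
    vs P b j = vs P a j := by
  induction b, hab using Nat.le_induction with
  | base => rfl
  | succ b hb ih =>
    rw [← ih (fun i h1 h2 => h i h1 (by omega))]
    have h3 := hD.cell b j (h b hb (by omega))
    unfold vs
    linear_combination h3

theorem hs_up' (hL : L.GoodN) (hD : GD L P)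
    (htr : ∀ g c, (g, c) ∈ L.vb → ∀ i, g - 1 ≤ i → i < g + 3 → hs P i (c + 7) = hs P i c)
    {i a b : ℕ} (hab : a ≤ b) (h : ∀ j, a ≤ j → j < b → L.cell i j ∨
      ∃ g c, (g, c) ∈ L.vb ∧ g - 1 ≤ i ∧ i < g + 3 ∧ a ≤ c ∧ c ≤ j ∧ j < c + 7 ∧ c + 7 ≤ b) :
    hs P i b = hs P i a := by
  obtain ⟨n, hn⟩ : ∃ n, n = b - a := ⟨_, rfl⟩
  induction n using Nat.strong_induction_on generalizing a with
  | _ n ih =>
    rcases Nat.eq_or_lt_of_le hab with hab' | hab'
    · rw [hab']
    · rcases h a le_rfl hab' with hc | ⟨g, c, hgc, hg1, hg2, hc1, hc2, hc3, hc4⟩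
      · rw [ih (b - (a + 1)) (by omega) (a := a + 1) (by omega) ?_ rfl]
        · exact hs_up hD (Nat.le_succ a) (fun j h1 h2 => by
            obtain rfl : j = a := by omega
            exact hc)
        · intro j h1 h2
          rcases h j (by omega) h2 with h3 | ⟨g, c, hgc, hg1, hg2, hc1, hc2, hc3, hc4⟩
          · exact Or.inl h3
          · refine Or.inr ⟨g, c, hgc, hg1, hg2, ?_, hc2, hc3, hc4⟩
            by_contra h4
            have h5 := hc.2.2 _ (rect_vb hgc)
            have h6 := hL.vb2 _ hgc
            simp only at h5 h6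
            apply h5
            omega
      · obtain rfl : c = a := by omega
        rw [ih (b - (c + 7)) (by omega) (a := c + 7) (by omega) ?_ rfl]
        · exact htr g c hgc i hg1 hg2
        · intro j h1 h2
          rcases h j (by omega) h2 with h3 | ⟨g', c', hgc', hg1', hg2', hc1', hc2', hc3', hc4'⟩
          · exact Or.inl h3
          · refine Or.inr ⟨g', c', hgc', hg1', hg2', ?_, hc2', hc3', hc4'⟩
            by_contra h4
            have h6 := hL.vb2 _ hgc
            have h7 := hL.vb2 _ hgc'
            simp only at h6 h7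
            by_cases h8 : ((g - 1, c, 4, 7) : ℕ × ℕ × ℕ × ℕ) = (g' - 1, c', 4, 7)
            · simp only [Prod.mk.injEq] at h8
              omega
            · have h9 := hL.sep _ (rect_vb hgc) _ (rect_vb hgc') h8
              simp only at h9
              omega

theorem vs_right' (hL : L.GoodN) (hD : GD L P)
    (htr : ∀ g c, (g, c) ∈ L.hb → ∀ j, g - 1 ≤ j → j < g + 3 → vs P (c + 7) j = vs P c j)
    {j a b : ℕ} (hab : a ≤ b) (h : ∀ i, a ≤ i → i < b → L.cell i j ∨
      ∃ g c, (g, c) ∈ L.hb ∧ g - 1 ≤ j ∧ j < g + 3 ∧ a ≤ c ∧ c ≤ i ∧ i < c + 7 ∧ c + 7 ≤ b) :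
    vs P b j = vs P a j := by
  obtain ⟨n, hn⟩ : ∃ n, n = b - a := ⟨_, rfl⟩
  induction n using Nat.strong_induction_on generalizing a with
  | _ n ih =>
    rcases Nat.eq_or_lt_of_le hab with hab' | hab'
    · rw [hab']
    · rcases h a le_rfl hab' with hc | ⟨g, c, hgc, hg1, hg2, hc1, hc2, hc3, hc4⟩
      · rw [ih (b - (a + 1)) (by omega) (a := a + 1) (by omega) ?_ rfl]
        · exact vs_right hD (Nat.le_succ a) (fun i h1 h2 => by
            obtain rfl : i = a := by omega
            exact hc)
        · intro i h1 h2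
          rcases h i (by omega) h2 with h3 | ⟨g, c, hgc, hg1, hg2, hc1, hc2, hc3, hc4⟩
          · exact Or.inl h3
          · refine Or.inr ⟨g, c, hgc, hg1, hg2, ?_, hc2, hc3, hc4⟩
            by_contra h4
            have h5 := hc.2.2 _ (rect_hb hgc)
            have h6 := hL.hb2 _ hgc
            simp only at h5 h6
            apply h5
            omega
      · obtain rfl : c = a := by omega
        rw [ih (b - (c + 7)) (by omega) (a := c + 7) (by omega) ?_ rfl]
        · exact htr g c hgc j hg1 hg2
        · intro i h1 h2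
          rcases h i (by omega) h2 with h3 | ⟨g', c', hgc', hg1', hg2', hc1', hc2', hc3', hc4'⟩
          · exact Or.inl h3
          · refine Or.inr ⟨g', c', hgc', hg1', hg2', ?_, hc2', hc3', hc4'⟩
            by_contra h4
            have h6 := hL.hb2 _ hgc
            have h7 := hL.hb2 _ hgc'
            simp only at h6 h7
            by_cases h8 : ((c, g - 1, 7, 4) : ℕ × ℕ × ℕ × ℕ) = (c', g' - 1, 7, 4)
            · simp only [Prod.mk.injEq] at h8
              omega
            · have h9 := hL.sep _ (rect_hb hgc) _ (rect_hb hgc') h8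
              simp only at h9
              omega

end Pool.Agent.PLN
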