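import Pool.Agent.PLN.Ly5
import Pool.Agent.PLN.Ly6

/-!
# The steps of the bundles

Left column bundle `j`: by the ties at the bottom (`tieB`, `mem_tb`) all `hs P (off j + k) 0`,
`k < W`, are equal to `hs P (off j) 0`; the column `off j` is unbroken (`unb_col` with `x = 0`), so
`hs P (off j) N = hs P (off j) 0` (`hs_up`), and by the ties at the top (`tieT`, `mem_tt`)
`hs P (off j + k) N = hs P (off j) 0`.  The other bundles in the same way.
The columns `W + k`, `k < κ + 10`, are tied at the top with bundle `0` and unbroken (`unb_Z`).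
-/

namespace Pool.Agent.PLN

namespace UV

variable {I : UV} {κ : ℕ} {P : ℕ → ℕ → ℂ}

theorem ly7_chain {f : ℕ → ℂ} {a n : ℕ} (h : ∀ k, k + 1 < n → f (a + k + 1) = f (a + k)) {k : ℕ}
    (hk : k < n) : f (a + k) = f a := by
  induction k with
  | zero => rfl
  | succ k ih => rw [← ih (by omega), ← h k hk]; rfl

theorem ly7_tb (j k : ℕ) (hj : j < I.m) (hk : k < I.W) : I.off κ j + k ∈ (I.lay κ).tb :=
  mem_tb.mpr ⟨j, hj, k, hk, Or.inl rfl⟩

theorem ly7_tb' (j k : ℕ) (hj : j < I.m) (hk : k < I.W) : I.off' κ j + k ∈ (I.lay κ).tb :=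
  mem_tb.mpr ⟨j, hj, k, hk, Or.inr rfl⟩

theorem ly7_tt {i : ℕ} (h : i ∈ (I.lay κ).tb) : i ∈ (I.lay κ).tt := mem_tt.mpr (Or.inl h)

theorem colL_bot (hI : I.Ok) (hD : GD (I.lay κ) P) {j k : ℕ} (hj : j < I.m) (hk : k < I.W) :
    hs P (I.off κ j + k) 0 = hs P (I.off κ j) 0 :=
  ly7_chain (f := fun i => hs P i 0) (fun k hk => hD.tieB _ (ly7_tb j k hj (by omega))
    (ly7_tb j (k + 1) hj hk)) hk

theorem colL_top (hI : I.Ok) (hD : GD (I.lay κ) P) {j k : ℕ} (hj : j < I.m) (hk : k < I.W) :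
    hs P (I.off κ j + k) (I.NN κ) = hs P (I.off κ j) 0 := by
  have h1 : hs P (I.off κ j + k) (I.NN κ) = hs P (I.off κ j) (I.NN κ) :=
    ly7_chain (f := fun i => hs P i (I.NN κ)) (fun k hk => hD.tieT _
      (ly7_tt (ly7_tb j k hj (by omega))) (ly7_tt (ly7_tb j (k + 1) hj hk))) hk
  rw [h1]
  exact hs_up hD (Nat.zero_le _) fun i _ hi => by
    have := unb_col hI (x := 0) hj (by omega) hi
    simpa using this

theorem colR_bot (hI : I.Ok) (hD : GD (I.lay κ) P) {j k : ℕ} (hj : j < I.m) (hk : k < I.W) :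
    hs P (I.off' κ j + k) 0 = hs P (I.off' κ j) 0 :=
  ly7_chain (f := fun i => hs P i 0) (fun k hk => hD.tieB _ (ly7_tb' j k hj (by omega))
    (ly7_tb' j (k + 1) hj hk)) hk

theorem colR_top (hI : I.Ok) (hD : GD (I.lay κ) P) {j k : ℕ} (hj : j < I.m) (hk : k < I.W) :
    hs P (I.off' κ j + k) (I.NN κ) = hs P (I.off' κ j) 0 := by
  have h1 : hs P (I.off' κ j + k) (I.NN κ) = hs P (I.off' κ j) (I.NN κ) :=
    ly7_chain (f := fun i => hs P i (I.NN κ)) (fun k hk => hD.tieT _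
      (ly7_tt (ly7_tb' j k hj (by omega))) (ly7_tt (ly7_tb' j (k + 1) hj hk))) hk
  rw [h1]
  exact hs_up hD (Nat.zero_le _) fun i _ hi => by
    have := unb_col' hI (x := 0) hj (by omega) hi
    simpa using this

theorem rowB_lft (hI : I.Ok) (hD : GD (I.lay κ) P) {j k : ℕ} (hj : j < I.m) (hk : k < I.W) :
    vs P 0 (I.off κ j + k) = vs P 0 (I.off κ j) :=
  ly7_chain (f := fun i => vs P 0 i) (fun k hk => hD.tieL _ (ly7_tb j k hj (by omega))
    (ly7_tb j (k + 1) hj hk)) hk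

theorem rowB_rgt (hI : I.Ok) (hD : GD (I.lay κ) P) {j k : ℕ} (hj : j < I.m) (hk : k < I.W) :
    vs P (I.NN κ) (I.off κ j + k) = vs P 0 (I.off κ j) := by
  have h1 : vs P (I.NN κ) (I.off κ j + k) = vs P (I.NN κ) (I.off κ j) :=
    ly7_chain (f := fun i => vs P (I.NN κ) i) (fun k hk => hD.tieR _
      (ly7_tt (ly7_tb j k hj (by omega))) (ly7_tt (ly7_tb j (k + 1) hj hk))) hk
  rw [h1]
  exact vs_right hD (Nat.zero_le _) fun i _ hi => by
    have := unb_row hI (x := 0) hj (by omega) hi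
    simpa using this

theorem rowT_lft (hI : I.Ok) (hD : GD (I.lay κ) P) {j k : ℕ} (hj : j < I.m) (hk : k < I.W) :
    vs P 0 (I.off' κ j + k) = vs P 0 (I.off' κ j) :=
  ly7_chain (f := fun i => vs P 0 i) (fun k hk => hD.tieL _ (ly7_tb' j k hj (by omega))
    (ly7_tb' j (k + 1) hj hk)) hk

theorem rowT_rgt (hI : I.Ok) (hD : GD (I.lay κ) P) {j k : ℕ} (hj : j < I.m) (hk : k < I.W) :
    vs P (I.NN κ) (I.off' κ j + k) = vs P 0 (I.off' κ j) := by
  have h1 : vs P (I.NN κ) (I.off' κ j + k) = vs P (I.NN κ) (I.off' κ j) :=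
    ly7_chain (f := fun i => vs P (I.NN κ) i) (fun k hk => hD.tieR _
      (ly7_tt (ly7_tb' j k hj (by omega))) (ly7_tt (ly7_tb' j (k + 1) hj hk))) hk
  rw [h1]
  exact vs_right hD (Nat.zero_le _) fun i _ hi => by
    have := unb_row' hI (x := 0) hj (by omega) hi
    simpa using this

/-- the columns before bundle `1` -/
theorem colZ (hI : I.Ok) (hD : GD (I.lay κ) P) {k : ℕ} (hk : k < κ + 10) :
    hs P (I.W + k) 0 = hs P (I.off κ 0) 0 := by
  have hW : I.W = 8 * I.G + 16 := W_eq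
  have hm : 0 < I.m := by have := hI.m2; omega
  have h0 : I.off κ 0 = 0 := off_zero
  have h1 : hs P (I.W + k) (I.NN κ) = hs P (I.W + k) 0 :=
    hs_up hD (Nat.zero_le _) fun i _ hi => unb_Z hI (by omega) hi
  have h2 : hs P (I.W - 1) (I.NN κ) = hs P (I.off κ 0) 0 := by
    have := colL_top hI hD hm (show I.W - 1 < I.W by omega)
    rw [h0, Nat.zero_add] at this
    rw [h0]
    exact this
  have hmem : ∀ k, k < κ + 11 → I.W - 1 + k ∈ (I.lay κ).tt := by
    intro k hk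
    rcases Nat.eq_zero_or_pos k with rfl | hpos
    · have := ly7_tt (ly7_tb (I := I) (κ := κ) 0 (I.W - 1) hm (by omega))
      rwa [h0, Nat.zero_add] at this
    · exact mem_tt.mpr (Or.inr ⟨k - 1, by omega, by omega⟩)
  have h3 : hs P (I.W - 1 + (k + 1)) (I.NN κ) = hs P (I.W - 1) (I.NN κ) :=
    ly7_chain (f := fun i => hs P i (I.NN κ)) (n := κ + 11)
      (fun k hk => hD.tieT _ (hmem k (by omega)) (hmem (k + 1) hk)) (by omega)
  rw [← h1, ← h2, ← h3]
  congr 1
  omega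

end UV

end Pool.Agent.PLN
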