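import Pool.Agent.PLN.Ly7

/-!
# Corner couplings: all bundles of a signal agree

Family 3: `(g, c) = (off j + 8 G + 2, off j + 8 G + 1) ∈ vb` (`mem_vbL`).  Its rows `c - 1 + k`,
`k < 8`, are rows of the bottom bundle `j`: left of the hole, `vs P (g-1) (c-1+k) =
vs P 0 (c-1+k) = vs P 0 (off j)` (`vs_right`, `brk3` or `unb_row` for `k = 0`, `rowB_lft`); right of
the hole, `vs P (g+3) (c+k) = vs P N (c+k) = vs P 0 (off j)` (`vs_right`, `brk3`, `rowB_rgt`).
`GD.vbc` gives `vs P 0 (off j) = rho * hs P g c`, and `hs P g c = hs P g 0 = hs P (off j) 0`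
(`hs_up`, `col3` with `a = 1`, `colL_bot`).
Families 4 (top bundle `j`, left bundle `j`) and 5 (bottom bundle `j`, right bundle `j`) in the same
way.
-/

namespace Pool.Agent.PLN

namespace UV

variable {I : UV} {κ : ℕ} {P : ℕ → ℕ → ℂ}

private theorem ly8_NN (hI : I.Ok) {j : ℕ} (hj : j < I.m) :
    I.off κ j + I.W + 1 ≤ I.NN κ ∧ I.off' κ j + I.W + 1 ≤ I.NN κ := by
  have h1 := off_X0 (I := I) (κ := κ) hj
  have h2 := X1_eq (I := I) (κ := κ)
  have h3 := NN_ge (I := I) (κ := κ) hI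
  have h4 := off'_NN (I := I) (κ := κ) hj
  omega

theorem cornerLB (hI : I.Ok) (hD : GD (I.lay κ) P) {j : ℕ} (hj : j < I.m) :
    vs P 0 (I.off κ j) = rho * hs P (I.off κ j) 0 := by
  obtain ⟨hN, hN'⟩ := ly8_NN (κ := κ) hI hj
  have hW := W_eq (I := I)
  have hgc : (I.off κ j + 8 * I.G + 2, I.off κ j + 8 * I.G + 1) ∈ (I.lay κ).vb :=
    mem_vbL.2 (Or.inr (Or.inr (Or.inl ⟨j, hj, rfl, rfl⟩)))
  have hl : ∀ k < 8, vs P (I.off κ j + 8 * I.G + 2 - 1) (I.off κ j + 8 * I.G + 1 - 1 + k) =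
      vs P 0 (I.off κ j) := by
    intro k hk
    have h1 : vs P (I.off κ j + 8 * I.G + 2 - 1) (I.off κ j + 8 * I.G + 1 - 1 + k) =
        vs P 0 (I.off κ j + 8 * I.G + 1 - 1 + k) := by
      refine vs_right hD (Nat.zero_le _) (fun i _ hi => ?_)
      rcases Nat.eq_zero_or_pos k with rfl | hk0
      · have := unb_row (I := I) (κ := κ) hI (j := j) (x := I.G) (i := i) hj (by omega) (by omega)
        simpa using this
      · have := brk3 (I := I) (κ := κ) hI (j := j) (k := k - 1) (i := i) hj (by omega) (by omega)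
          (Or.inl (by omega))
        have e : I.off κ j + 8 * I.G + 1 - 1 + k = I.off κ j + 8 * I.G + 1 + (k - 1) := by omega
        rw [e]; exact this
    rw [h1]
    have := rowB_lft (I := I) (κ := κ) hI hD (j := j) (k := 8 * I.G + k) hj (by omega)
    have e : I.off κ j + 8 * I.G + 1 - 1 + k = I.off κ j + (8 * I.G + k) := by omega
    rw [e]; exact this
  have hr : ∀ k < 7, vs P (I.off κ j + 8 * I.G + 2 + 3) (I.off κ j + 8 * I.G + 1 + k) =
      vs P 0 (I.off κ j) := by
    intro k hk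
    have h1 : vs P (I.NN κ) (I.off κ j + 8 * I.G + 1 + k) =
        vs P (I.off κ j + 8 * I.G + 2 + 3) (I.off κ j + 8 * I.G + 1 + k) := by
      refine vs_right hD (by omega) (fun i h2 hi => ?_)
      exact brk3 (I := I) (κ := κ) hI (j := j) (k := k) (i := i) hj (by omega) (by omega)
          (Or.inr (by omega))
    rw [← h1]
    have := rowB_rgt (I := I) (κ := κ) hI hD (j := j) (k := 8 * I.G + 1 + k) hj (by omega)
    have e : I.off κ j + 8 * I.G + 1 + k = I.off κ j + (8 * I.G + 1 + k) := by omega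
    rw [e]; exact this
  have hh : hs P (I.off κ j + 8 * I.G + 2) (I.off κ j + 8 * I.G + 1) = hs P (I.off κ j) 0 := by
    have h1 : hs P (I.off κ j + 8 * I.G + 2) (I.off κ j + 8 * I.G + 1) =
        hs P (I.off κ j + 8 * I.G + 2) 0 := by
      refine hs_up hD (Nat.zero_le _) (fun i _ hi => ?_)
      exact col3 (I := I) (κ := κ) hI (j := j) (a := 1) (i := i) hj (by omega) hi
    rw [h1]
    have := colL_bot (I := I) (κ := κ) hI hD (j := j) (k := 8 * I.G + 2) hj (by omega)
    rw [← this, Nat.add_assoc]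
  rw [← hh]
  exact (hD.vbc _ _ hgc _ hl hr).1

theorem cornerLT (hI : I.Ok) (hD : GD (I.lay κ) P) {j : ℕ} (hj : j < I.m) :
    vs P 0 (I.off' κ j) = rho * hs P (I.off κ j) 0 := by
  obtain ⟨hN, hN'⟩ := ly8_NN (κ := κ) hI hj
  have hW := W_eq (I := I)
  have hgc : (I.off κ j + 8 * I.G + 10, I.off' κ j + 8 * I.G + 1) ∈ (I.lay κ).vb :=
    mem_vbL.2 (Or.inr (Or.inr (Or.inr (Or.inl ⟨j, hj, rfl, rfl⟩))))
  have hl : ∀ k < 8, vs P (I.off κ j + 8 * I.G + 10 - 1) (I.off' κ j + 8 * I.G + 1 - 1 + k) =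
      vs P 0 (I.off' κ j) := by
    intro k hk
    have h1 : vs P (I.off κ j + 8 * I.G + 10 - 1) (I.off' κ j + 8 * I.G + 1 - 1 + k) =
        vs P 0 (I.off' κ j + 8 * I.G + 1 - 1 + k) := by
      refine vs_right hD (Nat.zero_le _) (fun i _ hi => ?_)
      rcases Nat.eq_zero_or_pos k with rfl | hk0
      · have := unb_row' (I := I) (κ := κ) hI (j := j) (x := I.G) (i := i) hj (by omega) (by omega)
        simpa using this
      · have := brk4 (I := I) (κ := κ) hI (j := j) (k := k - 1) (i := i) hj (by omega) (by omega)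
          (Or.inl (by omega))
        have e : I.off' κ j + 8 * I.G + 1 - 1 + k = I.off' κ j + 8 * I.G + 1 + (k - 1) := by omega
        rw [e]; exact this
    rw [h1]
    have := rowT_lft (I := I) (κ := κ) hI hD (j := j) (k := 8 * I.G + k) hj (by omega)
    have e : I.off' κ j + 8 * I.G + 1 - 1 + k = I.off' κ j + (8 * I.G + k) := by omega
    rw [e]; exact this
  have hr : ∀ k < 7, vs P (I.off κ j + 8 * I.G + 10 + 3) (I.off' κ j + 8 * I.G + 1 + k) =
      vs P 0 (I.off' κ j) := by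
    intro k hk
    have h1 : vs P (I.NN κ) (I.off' κ j + 8 * I.G + 1 + k) =
        vs P (I.off κ j + 8 * I.G + 10 + 3) (I.off' κ j + 8 * I.G + 1 + k) := by
      refine vs_right hD (by omega) (fun i h2 hi => ?_)
      exact brk4 (I := I) (κ := κ) hI (j := j) (k := k) (i := i) hj (by omega) (by omega)
          (Or.inr (by omega))
    rw [← h1]
    have := rowT_rgt (I := I) (κ := κ) hI hD (j := j) (k := 8 * I.G + 1 + k) hj (by omega)
    have e : I.off' κ j + 8 * I.G + 1 + k = I.off' κ j + (8 * I.G + 1 + k) := by omega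
    rw [e]; exact this
  have hh : hs P (I.off κ j + 8 * I.G + 10) (I.off' κ j + 8 * I.G + 1) = hs P (I.off κ j) 0 := by
    have h1 : hs P (I.off κ j + 8 * I.G + 10) (I.off' κ j + 8 * I.G + 1) =
        hs P (I.off κ j + 8 * I.G + 10) 0 := by
      refine hs_up hD (Nat.zero_le _) (fun i _ hi => ?_)
      exact col4 (I := I) (κ := κ) hI (j := j) (a := 1) (i := i) hj (by omega) hi
    rw [h1]
    have := colL_bot (I := I) (κ := κ) hI hD (j := j) (k := 8 * I.G + 10) hj (by omega)
    rw [← this, Nat.add_assoc]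
  rw [← hh]
  exact (hD.vbc _ _ hgc _ hl hr).1

theorem cornerRB (hI : I.Ok) (hD : GD (I.lay κ) P) {j : ℕ} (hj : j < I.m) :
    vs P 0 (I.off κ j) = rho * hs P (I.off' κ j) 0 := by
  obtain ⟨hN, hN'⟩ := ly8_NN (κ := κ) hI hj
  have hW := W_eq (I := I)
  have hgc : (I.off' κ j + 8 * I.G + 2, I.off κ j + 8 * I.G + 9) ∈ (I.lay κ).vb :=
    mem_vbL.2 (Or.inr (Or.inr (Or.inr (Or.inr ⟨j, hj, rfl, rfl⟩))))
  have hl : ∀ k < 8, vs P (I.off' κ j + 8 * I.G + 2 - 1) (I.off κ j + 8 * I.G + 9 - 1 + k) =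
      vs P 0 (I.off κ j) := by
    intro k hk
    have h1 : vs P (I.off' κ j + 8 * I.G + 2 - 1) (I.off κ j + 8 * I.G + 9 - 1 + k) =
        vs P 0 (I.off κ j + 8 * I.G + 9 - 1 + k) := by
      refine vs_right hD (Nat.zero_le _) (fun i _ hi => ?_)
      rcases Nat.eq_zero_or_pos k with rfl | hk0
      · have := unb_row (I := I) (κ := κ) hI (j := j) (x := I.G + 1) (i := i) hj (by omega)
          (by omega)
        have e : I.off κ j + 8 * I.G + 9 - 1 + 0 = I.off κ j + 8 * (I.G + 1) := by omega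
        rw [e]; exact this
      · have := brk5 (I := I) (κ := κ) hI (j := j) (k := k - 1) (i := i) hj (by omega) (by omega)
          (Or.inl (by omega))
        have e : I.off κ j + 8 * I.G + 9 - 1 + k = I.off κ j + 8 * I.G + 9 + (k - 1) := by omega
        rw [e]; exact this
    rw [h1]
    have := rowB_lft (I := I) (κ := κ) hI hD (j := j) (k := 8 * I.G + 8 + k) hj (by omega)
    have e : I.off κ j + 8 * I.G + 9 - 1 + k = I.off κ j + (8 * I.G + 8 + k) := by omega
    rw [e]; exact this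
  have hr : ∀ k < 7, vs P (I.off' κ j + 8 * I.G + 2 + 3) (I.off κ j + 8 * I.G + 9 + k) =
      vs P 0 (I.off κ j) := by
    intro k hk
    have h1 : vs P (I.NN κ) (I.off κ j + 8 * I.G + 9 + k) =
        vs P (I.off' κ j + 8 * I.G + 2 + 3) (I.off κ j + 8 * I.G + 9 + k) := by
      refine vs_right hD (by omega) (fun i h2 hi => ?_)
      exact brk5 (I := I) (κ := κ) hI (j := j) (k := k) (i := i) hj (by omega) (by omega)
          (Or.inr (by omega))
    rw [← h1]
    have := rowB_rgt (I := I) (κ := κ) hI hD (j := j) (k := 8 * I.G + 9 + k) hj (by omega)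
    have e : I.off κ j + 8 * I.G + 9 + k = I.off κ j + (8 * I.G + 9 + k) := by omega
    rw [e]; exact this
  have hh : hs P (I.off' κ j + 8 * I.G + 2) (I.off κ j + 8 * I.G + 9) = hs P (I.off' κ j) 0 := by
    have h1 : hs P (I.off' κ j + 8 * I.G + 2) (I.off κ j + 8 * I.G + 9) =
        hs P (I.off' κ j + 8 * I.G + 2) 0 := by
      refine hs_up hD (Nat.zero_le _) (fun i _ hi => ?_)
      exact col5 (I := I) (κ := κ) hI (j := j) (a := 1) (i := i) hj (by omega) hi
    rw [h1]
    have := colR_bot (I := I) (κ := κ) hI hD (j := j) (k := 8 * I.G + 2) hj (by omega)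
    rw [← this, Nat.add_assoc]
  rw [← hh]
  exact (hD.vbc _ _ hgc _ hl hr).1

private theorem ly8_rho : rho ≠ 0 := by
  intro h
  have h1 := congrArg Complex.re h
  simp [rho, om] at h1
  norm_num at h1

theorem cornerR (hI : I.Ok) (hD : GD (I.lay κ) P) {j : ℕ} (hj : j < I.m) :
    hs P (I.off' κ j) 0 = hs P (I.off κ j) 0 := by
  have h := (cornerRB hI hD hj).symm.trans (cornerLB hI hD hj)
  exact mul_left_cancel₀ ly8_rho h

end UV

end Pool.Agent.PLN
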