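import Pool.Agent.PLN.Ly8
import Pool.Agent.PLN.Cx1

/-!
# Couplings of the groups; transparency

Put `s j = hs P (off j) 0`.  For every `(g, c) ∈ vb` of one of the five families, the rows
`c - 1, …, c + 6` belong to a bottom or top bundle `j`, whose rows are `rho * s j` to the left of
the hole (`x`-coordinates up to `g - 1`) and to the right of it (from `g + 3` on): as in `Ly8`, with
`brk1`, …, `brk5`, `unb_row`, `unb_row'`, `vs_right`, `rowB_lft`, …, `cornerLB`, `cornerLT`.  So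
`GD.vbc` applies with `v = rho * s j`.  Cancelling `rho` (`rho ≠ 0`) gives `hs P g c = s j`.
For `(g, c) ∈ hb` (families 6, 7): the columns `c - 1, …, c + 6` belong to the left or right bundle
`j = lf x` or `rg x`; below the hole they are `s j` (`hs_up`, `brk6`/`brk7`, `unb_col`,
`colL_bot`/`colR_bot`, `cornerR`), above it (row `g + 3`) they are `s j` (`colL_top`/`colR_top`).
`GD.hbc` applies with `h = s j`.
-/

namespace Pool.Agent.PLN

namespace UV

variable {I : UV} {κ : ℕ} {P : ℕ → ℕ → ℂ}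

theorem Ly9_rho0 : rho ≠ 0 := by
  intro h
  have h1 := rho_nrm
  rw [h, norm_zero] at h1
  norm_num at h1

/-- vertical coupling at a hole whose rows carry `v` at both ends -/
theorem Ly9_v (hD : GD (I.lay κ) P) {g R : ℕ} {v : ℂ} (hm : (g, R + 1) ∈ (I.lay κ).vb)
    (hg : g + 3 ≤ I.NN κ)
    (cL : ∀ k < 8, ∀ i, i < g - 1 → (I.lay κ).cell i (R + k))
    (cR : ∀ k < 7, ∀ i, g + 3 ≤ i → i < I.NN κ → (I.lay κ).cell i (R + 1 + k))
    (vl : ∀ k < 8, vs P 0 (R + k) = v)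
    (vr : ∀ k < 7, vs P (I.NN κ) (R + 1 + k) = v) :
    v = rho * hs P g (R + 1) ∧ (∀ i, g - 1 ≤ i → i < g + 3 → hs P i (R + 1 + 7) = hs P i (R + 1)) ∧
      hs P (g + 1) (R + 1) = hs P g (R + 1) := by
  apply hD.vbc g (R + 1) hm v
  · intro k hk
    rw [Nat.add_sub_cancel]
    rw [vs_right hD (Nat.zero_le (g - 1)) (fun i _ hi => cL k hk i hi)]
    exact vl k hk
  · intro k hk
    rw [← vs_right hD hg (fun i h1 h2 => cR k hk i h1 h2)]
    exact vr k hk

/-- horizontal coupling -/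
theorem Ly9_h (hD : GD (I.lay κ) P) {g R : ℕ} {v : ℂ} (hm : (g, R + 1) ∈ (I.lay κ).hb)
    (hg : g + 3 ≤ I.NN κ)
    (cL : ∀ k < 8, ∀ i, i < g - 1 → (I.lay κ).cell (R + k) i)
    (cR : ∀ k < 7, ∀ i, g + 3 ≤ i → i < I.NN κ → (I.lay κ).cell (R + 1 + k) i)
    (vl : ∀ k < 8, hs P (R + k) 0 = v)
    (vr : ∀ k < 7, hs P (R + 1 + k) (I.NN κ) = v) :
    vs P (R + 1) g = rho * v ∧
      (∀ j, g - 1 ≤ j → j < g + 3 → vs P (R + 1 + 7) j = vs P (R + 1) j) ∧
      vs P (R + 1) (g + 1) = vs P (R + 1) g := by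
  apply hD.hbc g (R + 1) hm v
  · intro k hk
    rw [Nat.add_sub_cancel]
    rw [hs_up hD (Nat.zero_le (g - 1)) (fun i _ hi => cL k hk i hi)]
    exact vl k hk
  · intro k hk
    rw [← hs_up hD hg (fun i h1 h2 => cR k hk i h1 h2)]
    exact vr k hk

theorem Ly9_f1 (hI : I.Ok) (hD : GD (I.lay κ) P) {x : ℕ} (hx : x < I.G) :
    rho * hs P (I.off κ (I.bt x)) 0 = rho * hs P (I.gx κ x) (I.off κ (I.bt x) + 8 * x + 1) ∧
      (∀ i, I.gx κ x - 1 ≤ i → i < I.gx κ x + 3 →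
        hs P i (I.off κ (I.bt x) + 8 * x + 1 + 7) = hs P i (I.off κ (I.bt x) + 8 * x + 1)) ∧
      hs P (I.gx κ x + 1) (I.off κ (I.bt x) + 8 * x + 1) =
        hs P (I.gx κ x) (I.off κ (I.bt x) + 8 * x + 1) := by
  have hj := bt_lt hI x
  have hW := W_eq (I := I)
  have hg := gx_le (κ := κ) hI hx
  have hN := NN_ge (κ := κ) hI
  apply Ly9_v hD
  · exact mem_vbL.2 (Or.inl ⟨x, hx, rfl, rfl⟩)
  · omega
  · intro k hk i hi
    rcases Nat.eq_zero_or_pos k with h0 | h0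
    · subst h0
      rw [Nat.add_zero]
      exact unb_row hI hj (by omega) (by omega)
    · have h := brk1 (κ := κ) hI hx (k := k - 1) (i := i) (by omega) (by omega) (Or.inl hi)
      have e : I.off κ (I.bt x) + 8 * x + 1 + (k - 1) = I.off κ (I.bt x) + 8 * x + k := by omega
      rwa [e] at h
  · intro k hk i h1 h2
    exact brk1 hI hx hk h2 (Or.inr h1)
  · intro k hk
    rw [Nat.add_assoc, rowB_lft hI hD hj (by omega)]
    exact cornerLB hI hD hj
  · intro k hk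
    rw [show I.off κ (I.bt x) + 8 * x + 1 + k = I.off κ (I.bt x) + (8 * x + 1 + k) by omega,
      rowB_rgt hI hD hj (by omega)]
    exact cornerLB hI hD hj

theorem Ly9_f2 (hI : I.Ok) (hD : GD (I.lay κ) P) {x : ℕ} (hx : x < I.G) :
    rho * hs P (I.off κ (I.tp x)) 0 = rho * hs P (I.gx κ x) (I.off' κ (I.tp x) + 8 * x + 1) ∧
      (∀ i, I.gx κ x - 1 ≤ i → i < I.gx κ x + 3 →
        hs P i (I.off' κ (I.tp x) + 8 * x + 1 + 7) = hs P i (I.off' κ (I.tp x) + 8 * x + 1)) ∧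
      hs P (I.gx κ x + 1) (I.off' κ (I.tp x) + 8 * x + 1) =
        hs P (I.gx κ x) (I.off' κ (I.tp x) + 8 * x + 1) := by
  have hj := tp_lt hI x
  have hW := W_eq (I := I)
  have hg := gx_le (κ := κ) hI hx
  have hN := NN_ge (κ := κ) hI
  apply Ly9_v hD
  · exact mem_vbL.2 (Or.inr (Or.inl ⟨x, hx, rfl, rfl⟩))
  · omega
  · intro k hk i hi
    rcases Nat.eq_zero_or_pos k with h0 | h0
    · subst h0
      rw [Nat.add_zero]
      exact unb_row' hI hj (by omega) (by omega)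
    · have h := brk2 (κ := κ) hI hx (k := k - 1) (i := i) (by omega) (by omega) (Or.inl hi)
      have e : I.off' κ (I.tp x) + 8 * x + 1 + (k - 1) = I.off' κ (I.tp x) + 8 * x + k := by omega
      rwa [e] at h
  · intro k hk i h1 h2
    exact brk2 hI hx hk h2 (Or.inr h1)
  · intro k hk
    rw [Nat.add_assoc, rowT_lft hI hD hj (by omega)]
    exact cornerLT hI hD hj
  · intro k hk
    rw [show I.off' κ (I.tp x) + 8 * x + 1 + k = I.off' κ (I.tp x) + (8 * x + 1 + k) by omega,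
      rowT_rgt hI hD hj (by omega)]
    exact cornerLT hI hD hj

theorem Ly9_f3 (hI : I.Ok) (hD : GD (I.lay κ) P) {j : ℕ} (hj : j < I.m) :
    ∀ i, I.off κ j + 8 * I.G + 2 - 1 ≤ i → i < I.off κ j + 8 * I.G + 2 + 3 →
      hs P i (I.off κ j + 8 * I.G + 1 + 7) = hs P i (I.off κ j + 8 * I.G + 1) := by
  have hW := W_eq (I := I)
  have hX := off_X0 (κ := κ) hj
  have hX1 := X1_eq (I := I) (κ := κ)
  have hN := NN_ge (κ := κ) hI
  have key := Ly9_v (g := I.off κ j + 8 * I.G + 2) (R := I.off κ j + 8 * I.G)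
    (v := rho * hs P (I.off κ j) 0) hD
    (mem_vbL.2 (Or.inr (Or.inr (Or.inl ⟨j, hj, rfl, rfl⟩)))) (by omega) ?_ ?_ ?_ ?_
  · exact key.2.1
  · intro k hk i hi
    rcases Nat.eq_zero_or_pos k with h0 | h0
    · subst h0
      rw [Nat.add_zero]
      exact unb_row hI hj (by omega) (by omega)
    · have h := brk3 (κ := κ) hI hj (k := k - 1) (i := i) (by omega) (by omega)
        (Or.inl (by omega))
      have e : I.off κ j + 8 * I.G + 1 + (k - 1) = I.off κ j + 8 * I.G + k := by omega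
      rwa [e] at h
  · intro k hk i h1 h2
    exact brk3 hI hj hk h2 (Or.inr (by omega))
  · intro k hk
    rw [Nat.add_assoc, rowB_lft hI hD hj (by omega)]
    exact cornerLB hI hD hj
  · intro k hk
    rw [show I.off κ j + 8 * I.G + 1 + k = I.off κ j + (8 * I.G + 1 + k) by omega,
      rowB_rgt hI hD hj (by omega)]
    exact cornerLB hI hD hj

theorem Ly9_f4 (hI : I.Ok) (hD : GD (I.lay κ) P) {j : ℕ} (hj : j < I.m) :
    ∀ i, I.off κ j + 8 * I.G + 10 - 1 ≤ i → i < I.off κ j + 8 * I.G + 10 + 3 →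
      hs P i (I.off' κ j + 8 * I.G + 1 + 7) = hs P i (I.off' κ j + 8 * I.G + 1) := by
  have hW := W_eq (I := I)
  have hX := off_X0 (κ := κ) hj
  have hX1 := X1_eq (I := I) (κ := κ)
  have hN := NN_ge (κ := κ) hI
  have key := Ly9_v (g := I.off κ j + 8 * I.G + 10) (R := I.off' κ j + 8 * I.G)
    (v := rho * hs P (I.off κ j) 0) hD
    (mem_vbL.2 (Or.inr (Or.inr (Or.inr (Or.inl ⟨j, hj, rfl, rfl⟩))))) (by omega) ?_ ?_ ?_ ?_
  · exact key.2.1
  · intro k hk i hi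
    rcases Nat.eq_zero_or_pos k with h0 | h0
    · subst h0
      rw [Nat.add_zero]
      exact unb_row' hI hj (by omega) (by omega)
    · have h := brk4 (κ := κ) hI hj (k := k - 1) (i := i) (by omega) (by omega)
        (Or.inl (by omega))
      have e : I.off' κ j + 8 * I.G + 1 + (k - 1) = I.off' κ j + 8 * I.G + k := by omega
      rwa [e] at h
  · intro k hk i h1 h2
    exact brk4 hI hj hk h2 (Or.inr (by omega))
  · intro k hk
    rw [Nat.add_assoc, rowT_lft hI hD hj (by omega)]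
    exact cornerLT hI hD hj
  · intro k hk
    rw [show I.off' κ j + 8 * I.G + 1 + k = I.off' κ j + (8 * I.G + 1 + k) by omega,
      rowT_rgt hI hD hj (by omega)]
    exact cornerLT hI hD hj

theorem Ly9_f5 (hI : I.Ok) (hD : GD (I.lay κ) P) {j : ℕ} (hj : j < I.m) :
    ∀ i, I.off' κ j + 8 * I.G + 2 - 1 ≤ i → i < I.off' κ j + 8 * I.G + 2 + 3 →
      hs P i (I.off κ j + 8 * I.G + 9 + 7) = hs P i (I.off κ j + 8 * I.G + 9) := by
  have hW := W_eq (I := I)
  have hX := off'_NN (κ := κ) hj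
  have key := Ly9_v (g := I.off' κ j + 8 * I.G + 2) (R := I.off κ j + 8 * I.G + 8)
    (v := rho * hs P (I.off κ j) 0) hD
    (mem_vbL.2 (Or.inr (Or.inr (Or.inr (Or.inr ⟨j, hj, rfl, rfl⟩))))) (by omega) ?_ ?_ ?_ ?_
  · exact key.2.1
  · intro k hk i hi
    rcases Nat.eq_zero_or_pos k with h0 | h0
    · subst h0
      have h := unb_row (κ := κ) (x := I.G + 1) (i := i) hI hj (by omega) (by omega)
      have e : I.off κ j + 8 * (I.G + 1) = I.off κ j + 8 * I.G + 8 + 0 := by omega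
      rwa [e] at h
    · have h := brk5 (κ := κ) hI hj (k := k - 1) (i := i) (by omega) (by omega)
        (Or.inl (by omega))
      have e : I.off κ j + 8 * I.G + 9 + (k - 1) = I.off κ j + 8 * I.G + 8 + k := by omega
      rwa [e] at h
  · intro k hk i h1 h2
    exact brk5 hI hj hk h2 (Or.inr (by omega))
  · intro k hk
    rw [show I.off κ j + 8 * I.G + 8 + k = I.off κ j + (8 * I.G + 8 + k) by omega,
      rowB_lft hI hD hj (by omega)]
    exact cornerLB hI hD hj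
  · intro k hk
    rw [show I.off κ j + 8 * I.G + 8 + 1 + k = I.off κ j + (8 * I.G + 9 + k) by omega,
      rowB_rgt hI hD hj (by omega)]
    exact cornerLB hI hD hj

theorem Ly9_f6 (hI : I.Ok) (hD : GD (I.lay κ) P) {x : ℕ} (hx : x < I.G) :
    vs P (I.off κ (I.lf x) + 8 * x + 1) (I.gx κ x) = rho * hs P (I.off κ (I.lf x)) 0 ∧
      (∀ j, I.gx κ x - 1 ≤ j → j < I.gx κ x + 3 →
        vs P (I.off κ (I.lf x) + 8 * x + 1 + 7) j = vs P (I.off κ (I.lf x) + 8 * x + 1) j) ∧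
      vs P (I.off κ (I.lf x) + 8 * x + 1) (I.gx κ x + 1) =
        vs P (I.off κ (I.lf x) + 8 * x + 1) (I.gx κ x) := by
  have hj := lf_lt hI x
  have hW := W_eq (I := I)
  have hg := gx_le (κ := κ) hI hx
  have hN := NN_ge (κ := κ) hI
  apply Ly9_h hD
  · exact mem_hbL.2 (Or.inl ⟨x, hx, rfl, rfl⟩)
  · omega
  · intro k hk i hi
    rcases Nat.eq_zero_or_pos k with h0 | h0
    · subst h0
      rw [Nat.add_zero]
      exact unb_col hI hj (by omega) (by omega)
    · have h := brk6 (κ := κ) hI hx (k := k - 1) (i := i) (by omega) (by omega) (Or.inl hi)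
      have e : I.off κ (I.lf x) + 8 * x + 1 + (k - 1) = I.off κ (I.lf x) + 8 * x + k := by omega
      rwa [e] at h
  · intro k hk i h1 h2
    exact brk6 hI hx hk h2 (Or.inr h1)
  · intro k hk
    rw [Nat.add_assoc, colL_bot hI hD hj (by omega)]
  · intro k hk
    rw [show I.off κ (I.lf x) + 8 * x + 1 + k = I.off κ (I.lf x) + (8 * x + 1 + k) by omega,
      colL_top hI hD hj (by omega)]

theorem Ly9_f7 (hI : I.Ok) (hD : GD (I.lay κ) P) {x : ℕ} (hx : x < I.G) :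
    vs P (I.off' κ (I.rg x) + 8 * x + 1) (I.gx κ x) = rho * hs P (I.off κ (I.rg x)) 0 ∧
      (∀ j, I.gx κ x - 1 ≤ j → j < I.gx κ x + 3 →
        vs P (I.off' κ (I.rg x) + 8 * x + 1 + 7) j = vs P (I.off' κ (I.rg x) + 8 * x + 1) j) ∧
      vs P (I.off' κ (I.rg x) + 8 * x + 1) (I.gx κ x + 1) =
        vs P (I.off' κ (I.rg x) + 8 * x + 1) (I.gx κ x) := by
  have hj := rg_lt hI x
  have hW := W_eq (I := I)
  have hg := gx_le (κ := κ) hI hx
  have hN := NN_ge (κ := κ) hI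
  apply Ly9_h hD
  · exact mem_hbL.2 (Or.inr ⟨x, hx, rfl, rfl⟩)
  · omega
  · intro k hk i hi
    rcases Nat.eq_zero_or_pos k with h0 | h0
    · subst h0
      rw [Nat.add_zero]
      exact unb_col' hI hj (by omega) (by omega)
    · have h := brk7 (κ := κ) hI hx (k := k - 1) (i := i) (by omega) (by omega) (Or.inl hi)
      have e : I.off' κ (I.rg x) + 8 * x + 1 + (k - 1) = I.off' κ (I.rg x) + 8 * x + k := by omega
      rwa [e] at h
  · intro k hk i h1 h2
    exact brk7 hI hx hk h2 (Or.inr h1)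
  · intro k hk
    rw [Nat.add_assoc, colR_bot hI hD hj (by omega)]
    exact cornerR hI hD hj
  · intro k hk
    rw [show I.off' κ (I.rg x) + 8 * x + 1 + k = I.off' κ (I.rg x) + (8 * x + 1 + k) by omega,
      colR_top hI hD hj (by omega)]
    exact cornerR hI hD hj

theorem trv (hI : I.Ok) (hD : GD (I.lay κ) P) : ∀ g c, (g, c) ∈ (I.lay κ).vb →
    ∀ i, g - 1 ≤ i → i < g + 3 → hs P i (c + 7) = hs P i c := by
  intro g c h
  rcases mem_vbL.1 h with ⟨x, hx, rfl, rfl⟩ | ⟨x, hx, rfl, rfl⟩ | ⟨j, hj, rfl, rfl⟩ |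
    ⟨j, hj, rfl, rfl⟩ | ⟨j, hj, rfl, rfl⟩
  · exact (Ly9_f1 hI hD hx).2.1
  · exact (Ly9_f2 hI hD hx).2.1
  · exact Ly9_f3 hI hD hj
  · exact Ly9_f4 hI hD hj
  · exact Ly9_f5 hI hD hj

theorem trh (hI : I.Ok) (hD : GD (I.lay κ) P) : ∀ g c, (g, c) ∈ (I.lay κ).hb →
    ∀ j, g - 1 ≤ j → j < g + 3 → vs P (c + 7) j = vs P c j := by
  intro g c h
  rcases mem_hbL.1 h with ⟨x, hx, rfl, rfl⟩ | ⟨x, hx, rfl, rfl⟩
  · exact (Ly9_f6 hI hD hx).2.1
  · exact (Ly9_f7 hI hD hx).2.1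

theorem grpB (hI : I.Ok) (hD : GD (I.lay κ) P) {x a : ℕ} (hx : x < I.G) (ha : a < 2) :
    hs P (I.gx κ x + a) (I.off κ (I.bt x) + 8 * x + 8) = hs P (I.off κ (I.bt x)) 0 := by
  obtain ⟨h1, h2, h3⟩ := Ly9_f1 hI hD hx
  have h4 := mul_left_cancel₀ Ly9_rho0 h1
  rw [h2 _ (by omega) (by omega), h4]
  interval_cases a
  · rw [Nat.add_zero]
  · exact h3

theorem grpT (hI : I.Ok) (hD : GD (I.lay κ) P) {x a : ℕ} (hx : x < I.G) (ha : a < 2) :
    hs P (I.gx κ x + a) (I.off' κ (I.tp x) + 8 * x + 1) = hs P (I.off κ (I.tp x)) 0 := by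
  obtain ⟨h1, h2, h3⟩ := Ly9_f2 hI hD hx
  have h4 := mul_left_cancel₀ Ly9_rho0 h1
  rw [h4]
  interval_cases a
  · rw [Nat.add_zero]
  · exact h3

theorem grpL (hI : I.Ok) (hD : GD (I.lay κ) P) {x a : ℕ} (hx : x < I.G) (ha : a < 2) :
    vs P (I.off κ (I.lf x) + 8 * x + 8) (I.gx κ x + a) = rho * hs P (I.off κ (I.lf x)) 0 := by
  obtain ⟨h1, h2, h3⟩ := Ly9_f6 hI hD hx
  rw [h2 _ (by omega) (by omega)]
  interval_cases a
  · rw [Nat.add_zero]; exact h1
  · exact h3.trans h1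

theorem grpR (hI : I.Ok) (hD : GD (I.lay κ) P) {x a : ℕ} (hx : x < I.G) (ha : a < 2) :
    vs P (I.off' κ (I.rg x) + 8 * x + 1) (I.gx κ x + a) = rho * hs P (I.off κ (I.rg x)) 0 := by
  obtain ⟨h1, h2, h3⟩ := Ly9_f7 hI hD hx
  interval_cases a
  · rw [Nat.add_zero]; exact h1
  · exact h3.trans h1

end UV

end Pool.Agent.PLN
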