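import Mathlib

/-!
# Candidates (1): near every candidate there is a point of the same depth

`m` is a vector, `J m = i m`.  `Cnd q m c r`: the open disk with centre `c` and radius `r` contains the
points near `q` in the direction `i m + 0 m`.
Proof of `cnd_point`: with `a = c - q`, `⟪i m, a⟫ = m.re a.im - m.im a.re`,
`⟪m, a⟫ = m.re a.re + m.im a.im`.  Choose `M > 0` with `|m|² + 1 < 2 M ⟪m, a⟫` for all
(finitely many) `w` with `⟪m, a_w⟫ > 0`.  For `z = q + ε (i m + ε M m)`,
`|z - c|² = |a|² - 2 ε ⟪i m, a⟫ - 2 ε² M ⟪m, a⟫ + ε² |m|² (1 + ε² M²)`.  For small `ε > 0` this is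
`< r²` in each of the three cases of `Cnd` (finitely many conditions; `Filter.eventually_all` or
`Finite`).
-/

namespace Pool.Agent.PLN

/-- the points near `q` in the direction `i m + 0 m` are in the open disk -/
def Cnd (q m c : ℂ) (r : ℝ) : Prop :=
  ‖c - q‖ ^ 2 < r ^ 2 ∨ (‖c - q‖ ^ 2 = r ^ 2 ∧
    (0 < m.re * (c - q).im - m.im * (c - q).re ∨
      (m.re * (c - q).im - m.im * (c - q).re = 0 ∧
        0 < m.re * (c - q).re + m.im * (c - q).im)))

private theorem me1_M {ι : Type} [Finite ι] (B : ι → ℝ) (S : ℝ) :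
    ∃ M : ℝ, ∀ v, 0 < B v → S + 1 < 2 * M * B v := by
  obtain ⟨M0, hM0⟩ := (Set.finite_range (fun v => (S + 1) / (2 * B v))).bddAbove
  refine ⟨M0 + 1, fun v hv => ?_⟩
  have h1 : (S + 1) / (2 * B v) ≤ M0 := hM0 ⟨v, rfl⟩
  have h2 : (S + 1) / (2 * B v) < M0 + 1 := by linarith
  rw [div_lt_iff₀ (by linarith)] at h2
  linarith

private theorem me1_exp (q m c : ℂ) (ε M : ℝ) :
    ‖q + (ε : ℂ) * (Complex.I * m + ((ε * M : ℝ) : ℂ) * m) - c‖ ^ 2 =
      ‖c - q‖ ^ 2 + ε * (-2 * (m.re * (c - q).im - m.im * (c - q).re) +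
        ε * (-2 * M * (m.re * (c - q).re + m.im * (c - q).im) +
          (m.re ^ 2 + m.im ^ 2) * (1 + ε ^ 2 * M ^ 2))) := by
  rw [Complex.sq_norm, Complex.sq_norm, Complex.normSq_apply, Complex.normSq_apply]
  simp only [Complex.sub_re, Complex.sub_im, Complex.add_re, Complex.add_im, Complex.mul_re,
    Complex.mul_im, Complex.I_re, Complex.I_im, Complex.ofReal_re, Complex.ofReal_im]
  ring

theorem cnd_point {ι : Type} [Finite ι] (p : ι → ℂ) (r : ι → ℝ) (hr : ∀ v, 0 ≤ r v) (q m : ℂ) :
    ∃ z : ℂ, ∀ v, Cnd q m (p v) (r v) → ‖z - p v‖ < r v := by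
  obtain ⟨M, hM⟩ := me1_M (fun v => m.re * (p v - q).re + m.im * (p v - q).im)
    (m.re ^ 2 + m.im ^ 2)
  have key : ∀ v, ∀ᶠ ε : ℝ in nhdsWithin 0 (Set.Ioi 0), Cnd q m (p v) (r v) →
      ‖q + (ε : ℂ) * (Complex.I * m + ((ε * M : ℝ) : ℂ) * m) - p v‖ ^ 2 < r v ^ 2 := by
    intro v
    have hpos : ∀ᶠ ε : ℝ in nhdsWithin 0 (Set.Ioi 0), 0 < ε := self_mem_nhdsWithin
    simp only [me1_exp]
    set D := ‖p v - q‖ ^ 2 with hD
    set A := m.re * (p v - q).im - m.im * (p v - q).re with hA
    set B := m.re * (p v - q).re + m.im * (p v - q).im with hB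
    set S := m.re ^ 2 + m.im ^ 2 with hS
    by_cases h1 : D < r v ^ 2
    · have hc : Continuous fun ε : ℝ => D + ε * (-2 * A + ε * (-2 * M * B +
          S * (1 + ε ^ 2 * M ^ 2))) := by fun_prop
      have h2 := hc.tendsto 0
      simp only [zero_mul, add_zero] at h2
      have h3 := h2.eventually_lt_const h1
      filter_upwards [nhdsWithin_le_nhds h3] with ε hε _
      exact hε
    · by_cases h2 : D = r v ^ 2
      · by_cases h3 : 0 < A
        · have hc : Continuous fun ε : ℝ => -2 * A + ε * (-2 * M * B +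
              S * (1 + ε ^ 2 * M ^ 2)) := by fun_prop
          have h4 := hc.tendsto 0
          simp only [zero_mul, add_zero] at h4
          have h5 := h4.eventually_lt_const (show -2 * A < 0 by linarith)
          filter_upwards [nhdsWithin_le_nhds h5, hpos] with ε hε hε0 _
          rw [h2]
          have := mul_neg_of_pos_of_neg hε0 hε
          linarith
        · by_cases h4 : A = 0 ∧ 0 < B
          · have hc : Continuous fun ε : ℝ => -2 * M * B + S * (1 + ε ^ 2 * M ^ 2) := by fun_prop
            have h5 := hc.tendsto 0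
            have h6 := hM v h4.2
            have h7 := h5.eventually_lt_const (show -2 * M * B + S * (1 + 0 ^ 2 * M ^ 2) < 0 by
              nlinarith)
            filter_upwards [nhdsWithin_le_nhds h7, hpos] with ε hε hε0 _
            rw [h2, h4.1]
            have h8 := mul_neg_of_pos_of_neg hε0 hε
            have h9 := mul_neg_of_pos_of_neg hε0 h8
            linarith
          · refine Filter.Eventually.of_forall fun ε hC => ?_
            exfalso
            unfold Cnd at hC
            rw [← hD, ← hA, ← hB] at hC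
            rcases hC with h | ⟨-, h | ⟨h, h'⟩⟩
            · exact h1 h
            · exact h3 h
            · exact h4 ⟨h, h'⟩
      · refine Filter.Eventually.of_forall fun ε hC => ?_
        exfalso
        unfold Cnd at hC
        rw [← hD] at hC
        rcases hC with h | ⟨h, -⟩
        · exact h1 h
        · exact h2 h
  obtain ⟨ε, hε⟩ := (Filter.eventually_all.mpr key).exists
  refine ⟨q + (ε : ℂ) * (Complex.I * m + ((ε * M : ℝ) : ℂ) * m), fun v hv => ?_⟩
  exact lt_of_pow_lt_pow_left₀ 2 (hr v) (hε v hv)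

end Pool.Agent.PLN
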