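import Pool.Agent.PLN.Me1

/-!
# Candidates (2): a point of depth `> k` gives a candidate of depth `> k`

Let `S = {v | ‖z - p v‖ < r v}` (not empty, `k < |S|`), `K = ⋂_{v ∈ S} closedBall (p v) (r v)`, compact
and containing `z`; let `q ∈ K` have minimal imaginary part (`IsCompact.exists_isMinOn`),
`n v = p v - q`, `S' = {v ∈ S | ‖n v‖ = r v}`, `d = z - q`.
(1) `⟪d, n v⟫ > 0` for `v ∈ S'`: `‖z - p v‖² = ‖d‖² - 2 ⟪d, n v⟫ + ‖n v‖² < r v²`.
(2) `S'` is not empty: otherwise `q - ε i ∈ K` for small `ε > 0`.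
(3) Choose `u ∈ S'` with minimal `σ v = (d.re (n v).im - d.im (n v).re) / ⟪d, n v⟫`.  For
`v ∈ S'`: `‖d‖² ((n u).re (n v).im - (n u).im (n v).re) = ⟪d, n u⟫ ⟪d, n v⟫ (σ v - σ u) ≥ 0`, and if it
is `0`, then `‖d‖² ⟪n u, n v⟫ = ⟪d, n u⟫ ⟪d, n v⟫ (1 + σ u σ v) > 0` as `σ u = σ v`.  So
`Cnd q (n u) (p v) (r v)` for all `v ∈ S` (for `v ∉ S'` we have `‖n v‖ < r v`).
(4) If `S'` contains some `w ≠ u`, `q` is on both circles.  Otherwise `S' = {u}`; let
`ℓ = p u - i r u`; if `q ≠ ℓ`, then `q.im > ℓ.im` (`‖q - p u‖ = r u`), and `q + ε (ℓ - q)` is in `K`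
for small `ε > 0` (closed disks are convex; the others contain `q` in their interior), with smaller imaginary part.
-/

namespace Pool.Agent.PLN

/-- the scalar product -/
private def ip (a b : ℂ) : ℝ := a.re * b.re + a.im * b.im

/-- the determinant -/
private def cr (a b : ℂ) : ℝ := a.re * b.im - a.im * b.re

private theorem me2_sq (a b : ℂ) : ‖a - b‖ ^ 2 = ip a a - 2 * ip a b + ip b b := by
  rw [Complex.sq_norm, Complex.normSq_apply]
  simp only [Complex.sub_re, Complex.sub_im, ip]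
  ring

private theorem me2_self (a : ℂ) : ip a a = ‖a‖ ^ 2 := by
  rw [Complex.sq_norm, Complex.normSq_apply]
  rfl

private theorem me2_cr (d a b : ℂ) : ip d d * cr a b = ip d a * cr d b - cr d a * ip d b := by
  unfold ip cr
  ring

private theorem me2_ip (d a b : ℂ) : ip d d * ip a b = ip d a * ip d b + cr d a * cr d b := by
  unfold ip cr
  ring

private theorem me2_pos {z q c : ℂ} {r : ℝ} (h1 : ‖z - c‖ < r) (h2 : ‖c - q‖ = r) :
    0 < ip (z - q) (c - q) ∧ 0 < ip (z - q) (z - q) := by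
  have h3 : z - c = (z - q) - (c - q) := by ring
  have h4 : ‖z - c‖ ^ 2 < r ^ 2 := pow_lt_pow_left₀ h1 (norm_nonneg _) two_ne_zero
  rw [h3, me2_sq, me2_self (c - q), h2] at h4
  have h5 : 0 ≤ ip (z - q) (z - q) := by rw [me2_self]; positivity
  have h6 : 0 < ip (z - q) (c - q) := by linarith
  refine ⟨h6, lt_of_le_of_ne h5 fun h => ?_⟩
  rw [me2_self, eq_comm] at h
  have h7 : z - q = 0 := by
    have := pow_eq_zero_iff (two_ne_zero) |>.mp h
    exact norm_eq_zero.mp this
  rw [h7] at h6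
  simp [ip] at h6

/-- the extreme direction -/
private theorem me2_cnd {d a b q pu pv : ℂ} {rv : ℝ} (ha : a = pu - q) (hb : b = pv - q)
    (hd : 0 < ip d d) (h1 : 0 < ip d a) (h2 : 0 < ip d b)
    (h3 : cr d a / ip d a ≤ cr d b / ip d b) (hr : ‖b‖ = rv) : Cnd q (pu - q) pv rv := by
  right
  rw [← hb, ← ha]
  refine ⟨by rw [hr], ?_⟩
  change 0 < cr a b ∨ (cr a b = 0 ∧ 0 < ip a b)
  rw [div_le_div_iff₀ h1 h2] at h3
  have h4 := me2_cr d a b
  have h5 : 0 ≤ ip d d * cr a b := by rw [h4]; linarith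
  have h6 : 0 ≤ cr a b := by
    by_contra h
    push Not at h
    have := mul_neg_of_pos_of_neg hd h
    linarith
  rcases lt_or_eq_of_le h6 with h7 | h7
  · exact Or.inl h7
  · right
    refine ⟨h7.symm, ?_⟩
    rw [← h7, mul_zero] at h4
    have h8 := me2_ip d a b
    -- `ip d a * cr d b = cr d a * ip d b`
    have h9 : ip d a * (cr d a * cr d b) = cr d a ^ 2 * ip d b := by
      have : ip d a * cr d b = cr d a * ip d b := by linarith
      calc ip d a * (cr d a * cr d b) = cr d a * (ip d a * cr d b) := by ring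
        _ = cr d a * (cr d a * ip d b) := by rw [this]
        _ = _ := by ring
    have h10 : 0 ≤ cr d a * cr d b := by
      by_contra h
      push Not at h
      have h11 := mul_neg_of_pos_of_neg h1 h
      have h12 : 0 ≤ cr d a ^ 2 * ip d b := by positivity
      linarith
    have h13 : 0 < ip d d * ip a b := by
      rw [h8]
      have := mul_pos h1 h2
      linarith
    exact (mul_pos_iff_of_pos_left hd).mp h13

/-- in the interior, small displacements are allowed -/
private theorem me2_ev {q c e : ℂ} {r : ℝ} (h : ‖c - q‖ < r) :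
    ∀ᶠ ε : ℝ in nhdsWithin 0 (Set.Ioi 0), ‖q + (ε : ℂ) * e - c‖ ≤ r := by
  have hc : Continuous fun ε : ℝ => ‖q + (ε : ℂ) * e - c‖ := by fun_prop
  have h1 := hc.tendsto 0
  simp only [Complex.ofReal_zero, zero_mul, add_zero] at h1
  rw [norm_sub_rev] at h1
  have h2 := h1.eventually_lt_const h
  filter_upwards [nhdsWithin_le_nhds h2] with ε hε
  exact hε.le

/-- on the segment between two points of a closed disk -/
private theorem me2_seg {q l c : ℂ} {r : ℝ} (h1 : ‖q - c‖ ≤ r) (h2 : ‖l - c‖ ≤ r) :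
    ∀ᶠ ε : ℝ in nhdsWithin 0 (Set.Ioi 0), ‖q + (ε : ℂ) * (l - q) - c‖ ≤ r := by
  have h3 : ∀ᶠ ε : ℝ in nhdsWithin 0 (Set.Ioi 0), ε < 1 :=
    nhdsWithin_le_nhds (Iio_mem_nhds (by norm_num))
  have h4 : ∀ᶠ ε : ℝ in nhdsWithin 0 (Set.Ioi 0), 0 < ε := self_mem_nhdsWithin
  filter_upwards [h3, h4] with ε he1 he0
  have e : q + (ε : ℂ) * (l - q) - c = ((1 - ε : ℝ) : ℂ) * (q - c) + (ε : ℂ) * (l - c) := by
    push_cast
    ring
  rw [e]
  refine (norm_add_le _ _).trans ?_
  rw [norm_mul, norm_mul, Complex.norm_real, Complex.norm_real, Real.norm_of_nonneg (by linarith),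
    Real.norm_of_nonneg he0.le]
  nlinarith

open Classical in
theorem depth_cand {ι : Type} [Fintype ι] (p : ι → ℂ) (r : ι → ℝ) (hr : ∀ v, 0 ≤ r v) (k : ℕ) (z : ℂ)
    (hz : k < (Finset.univ.filter fun v => ‖z - p v‖ < r v).card) :
    ∃ (u : ι) (q : ℂ), k < (Finset.univ.filter fun v => Cnd q (p u - q) (p v) (r v)).card ∧
      (q = p u - Complex.I * r u ∨ ∃ w, w ≠ u ∧ ‖q - p u‖ = r u ∧ ‖q - p w‖ = r w) := by
  set S : Finset ι := Finset.univ.filter fun v => ‖z - p v‖ < r v with hS
  have hSz : ∀ v ∈ S, ‖z - p v‖ < r v := fun v hv => (Finset.mem_filter.mp hv).2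
  have hne : S.Nonempty := Finset.card_pos.mp (by omega)
  set K : Set ℂ := ⋂ v ∈ S, Metric.closedBall (p v) (r v) with hK
  have hKcl : IsClosed K := isClosed_biInter fun v _ => Metric.isClosed_closedBall
  have hzK : z ∈ K := by
    rw [hK, Set.mem_iInter₂]
    intro v hv
    rw [mem_closedBall_iff_norm]
    exact (hSz v hv).le
  have hKc : IsCompact K := by
    obtain ⟨v, hv⟩ := hne
    refine (isCompact_closedBall (p v) (r v)).of_isClosed_subset hKcl ?_
    exact Set.biInter_subset_of_mem hv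
  obtain ⟨q, hqK, hmin⟩ := hKc.exists_isMinOn ⟨z, hzK⟩ Complex.continuous_im.continuousOn
  have hmin' : ∀ y ∈ K, q.im ≤ y.im := fun y hy => hmin hy
  have hq : ∀ v ∈ S, ‖p v - q‖ ≤ r v := by
    intro v hv
    rw [hK, Set.mem_iInter₂] at hqK
    have := hqK v hv
    rwa [mem_closedBall_iff_norm, norm_sub_rev] at this
  -- no admissible direction downwards
  have hdir : ∀ e : ℂ, e.im < 0 →
      (∀ v ∈ S, ∀ᶠ ε : ℝ in nhdsWithin 0 (Set.Ioi 0), ‖q + (ε : ℂ) * e - p v‖ ≤ r v) → False := by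
    intro e he hev
    have h1 : ∀ᶠ ε : ℝ in nhdsWithin 0 (Set.Ioi 0), ∀ v ∈ S, ‖q + (ε : ℂ) * e - p v‖ ≤ r v :=
      (Filter.eventually_all_finset S).mpr hev
    have h2 : ∀ᶠ ε : ℝ in nhdsWithin 0 (Set.Ioi 0), 0 < ε := self_mem_nhdsWithin
    obtain ⟨ε, h3, h4⟩ := (h1.and h2).exists
    have h5 : q + (ε : ℂ) * e ∈ K := by
      rw [hK, Set.mem_iInter₂]
      intro v hv
      rw [mem_closedBall_iff_norm]
      exact h3 v hv
    have h6 := hmin' _ h5
    simp only [Complex.add_im, Complex.mul_im, Complex.ofReal_re, Complex.ofReal_im, zero_mul,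
      add_zero] at h6
    have := mul_neg_of_pos_of_neg h4 he
    linarith
  set S' : Finset ι := S.filter fun v => ‖p v - q‖ = r v with hS'
  have hS'ne : S'.Nonempty := by
    by_contra hcon
    rw [Finset.not_nonempty_iff_eq_empty] at hcon
    refine hdir (-Complex.I) (by simp) fun v hv => me2_ev ?_
    refine lt_of_le_of_ne (hq v hv) fun h => ?_
    have : v ∈ S' := Finset.mem_filter.mpr ⟨hv, h⟩
    rw [hcon] at this
    exact absurd this (Finset.notMem_empty v)
  obtain ⟨u, hu, humin⟩ := S'.exists_min_image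
    (fun v => cr (z - q) (p v - q) / ip (z - q) (p v - q)) hS'ne
  have huS : u ∈ S := (Finset.mem_filter.mp hu).1
  have hur : ‖p u - q‖ = r u := (Finset.mem_filter.mp hu).2
  obtain ⟨hu1, hd⟩ := me2_pos (hSz u huS) hur
  refine ⟨u, q, ?_, ?_⟩
  · refine lt_of_lt_of_le hz (Finset.card_le_card fun v hv => ?_)
    rw [Finset.mem_filter]
    refine ⟨Finset.mem_univ v, ?_⟩
    by_cases hv' : ‖p v - q‖ = r v
    · have hvS' : v ∈ S' := Finset.mem_filter.mpr ⟨hv, hv'⟩
      exact me2_cnd rfl rfl hd hu1 (me2_pos (hSz v hv) hv').1 (humin v hvS') hv'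
    · left
      have h1 : ‖p v - q‖ < r v := lt_of_le_of_ne (hq v hv) hv'
      exact pow_lt_pow_left₀ h1 (norm_nonneg _) two_ne_zero
  · by_cases hw : ∃ w ∈ S', w ≠ u
    · right
      obtain ⟨w, hwS', hwu⟩ := hw
      refine ⟨w, hwu, ?_, ?_⟩
      · rw [norm_sub_rev]; exact hur
      · rw [norm_sub_rev]; exact (Finset.mem_filter.mp hwS').2
    · left
      push Not at hw
      by_contra hql
      set l : ℂ := p u - Complex.I * r u with hl
      have hlre : l.re = (p u).re := by simp [hl]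
      have hlim : l.im = (p u).im - r u := by simp [hl]
      have hsq : (q.re - (p u).re) ^ 2 + (q.im - (p u).im) ^ 2 = r u ^ 2 := by
        have h1 : ‖q - p u‖ ^ 2 = r u ^ 2 := by rw [norm_sub_rev, hur]
        rw [Complex.sq_norm, Complex.normSq_apply] at h1
        simp only [Complex.sub_re, Complex.sub_im] at h1
        linarith
      have him : l.im < q.im := by
        rw [hlim]
        have h2 : (q.im - (p u).im) ^ 2 ≤ r u ^ 2 := by
          have := sq_nonneg (q.re - (p u).re)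
          linarith
        have h3 := abs_le_of_sq_le_sq' h2 (hr u)
        rcases lt_or_eq_of_le h3.1 with h4 | h4
        · linarith
        · exfalso
          apply hql
          have h5 : (q.re - (p u).re) ^ 2 = 0 := by
            rw [← h4] at hsq
            linarith
          have h6 : q.re - (p u).re = 0 := pow_eq_zero_iff (two_ne_zero) |>.mp h5
          apply Complex.ext
          · rw [hlre]; linarith
          · rw [hlim]; linarith
      refine hdir (l - q) (by rw [Complex.sub_im]; linarith) fun v hv => ?_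
      by_cases hv' : ‖p v - q‖ = r v
      · have hvu : v = u := hw v (Finset.mem_filter.mpr ⟨hv, hv'⟩)
        subst hvu
        refine me2_seg ?_ ?_
        · rw [norm_sub_rev]; exact hur.le
        · rw [hl]
          have : p v - Complex.I * (r v : ℂ) - p v = -(Complex.I * (r v : ℂ)) := by ring
          rw [this, norm_neg, norm_mul, Complex.norm_I, one_mul, Complex.norm_real,
            Real.norm_of_nonneg (hr v)]
      · exact me2_ev (lt_of_le_of_ne (hq v hv) hv')

end Pool.Agent.PLN
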