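import Pool.Agent.PLN.Mf
import Pool.Agent.TM2Lib.PolyNat
import Pool.Agent.helper88.SurjHard

/-!
# Raw formulas

All variables of `φ` are smaller than the size of its code (`un i` has size `2 i + 1`), so
`Fin.ofNat (N + 1) i` has the value `i` for `N ≥` the size of the code: structural induction.
`comp_sent`: the code of `φ.sent` is `cons (un (size + 1)) (cd φ)`, and the size of the code is the
length of the bit string: `Comp.bits` gives a tree with this number of leaves on its spine, which is
turned into a unary number by `Poly.map` (forget the entries) or `Comp.iter`.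
-/

namespace Pool.Agent.PLN

open Pool.Agent.TM2Lib Pool.Agent.TM2Lib.D
open Pool.Agent.helper88.Surj (encFm)

theorem Me3_tm_val (N : ℕ) (x : Fin (N + 1) → ℝ) (t : RT) :
    (t.toTm N).val x = t.val (fun i => x (Fin.ofNat (N + 1) i)) := by
  induction t with
  | var i => rfl
  | const c => rfl
  | add a b iha ihb =>
    simp only [RT.toTm, Pool.Agent.helper88.Surj.Tm.val, RT.val, iha, ihb]
  | mul a b iha ihb =>
    simp only [RT.toTm, Pool.Agent.helper88.Surj.Tm.val, RT.val, iha, ihb]

theorem Me3_fm_holds (N : ℕ) (x : Fin (N + 1) → ℝ) (φ : RFm) :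
    (φ.toFm N).holds x ↔ φ.holds (fun i => x (Fin.ofNat (N + 1) i)) := by
  induction φ with
  | eq a b => simp only [RFm.toFm, Pool.Agent.helper88.Surj.Fm.holds, RFm.holds, Me3_tm_val]
  | lt a b => simp only [RFm.toFm, Pool.Agent.helper88.Surj.Fm.holds, RFm.holds, Me3_tm_val]
  | le a b => simp only [RFm.toFm, Pool.Agent.helper88.Surj.Fm.holds, RFm.holds, Me3_tm_val]
  | and a b iha ihb =>
    simp only [RFm.toFm, Pool.Agent.helper88.Surj.Fm.holds, RFm.holds, iha, ihb]
  | or a b iha ihb =>
    simp only [RFm.toFm, Pool.Agent.helper88.Surj.Fm.holds, RFm.holds, iha, ihb]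
  | not a iha =>
    simp only [RFm.toFm, Pool.Agent.helper88.Surj.Fm.holds, RFm.holds, iha]

theorem Me3_size_un (n : ℕ) : (Pool.Agent.helper88.Surj.un n).size = 2 * n + 1 :=
  Pool.Agent.helper88.Surj.size_un n

theorem Me3_size_cons (a b : D) : (D.cons a b).size = a.size + b.size + 1 :=
  Pool.Agent.TM2Lib.D.size_cons a b

theorem Me3_tm_congr {N : ℕ} {v w : ℕ → ℝ} (h : ∀ i ≤ N, v i = w i) (t : RT)
    (ht : t.cd.size ≤ N) : t.val v = t.val w := by
  induction t with
  | var i =>
    simp only [RT.cd, Me3_size_cons, Me3_size_un] at ht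
    exact h i (by omega)
  | const c => rfl
  | add a b iha ihb =>
    simp only [RT.cd, Me3_size_cons, Me3_size_un] at ht
    simp only [RT.val]
    rw [iha (by omega), ihb (by omega)]
  | mul a b iha ihb =>
    simp only [RT.cd, Me3_size_cons, Me3_size_un] at ht
    simp only [RT.val]
    rw [iha (by omega), ihb (by omega)]

theorem Me3_fm_congr {N : ℕ} {v w : ℕ → ℝ} (h : ∀ i ≤ N, v i = w i) (φ : RFm)
    (ht : φ.cd.size ≤ N) : φ.holds v ↔ φ.holds w := by
  induction φ with
  | eq a b =>
    simp only [RFm.cd, Me3_size_cons, Me3_size_un] at ht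
    simp only [RFm.holds, Me3_tm_congr h a (by omega), Me3_tm_congr h b (by omega)]
  | lt a b =>
    simp only [RFm.cd, Me3_size_cons, Me3_size_un] at ht
    simp only [RFm.holds, Me3_tm_congr h a (by omega), Me3_tm_congr h b (by omega)]
  | le a b =>
    simp only [RFm.cd, Me3_size_cons, Me3_size_un] at ht
    simp only [RFm.holds, Me3_tm_congr h a (by omega), Me3_tm_congr h b (by omega)]
  | and a b iha ihb =>
    simp only [RFm.cd, Me3_size_cons, Me3_size_un] at ht
    simp only [RFm.holds]
    rw [iha (by omega), ihb (by omega)]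
  | or a b iha ihb =>
    simp only [RFm.cd, Me3_size_cons, Me3_size_un] at ht
    simp only [RFm.holds]
    rw [iha (by omega), ihb (by omega)]
  | not a iha =>
    simp only [RFm.cd, Me3_size_cons, Me3_size_un] at ht
    simp only [RFm.holds]
    rw [iha (by omega)]

theorem sent_true (φ : RFm) : φ.sent.IsTrue ↔ ∃ v : ℕ → ℝ, φ.holds v := by
  constructor
  · rintro ⟨x, hx⟩
    exact ⟨_, (Me3_fm_holds φ.cd.size x φ).1 hx⟩
  · rintro ⟨v, hv⟩
    refine ⟨fun i => v i, (Me3_fm_holds φ.cd.size _ φ).2 ?_⟩
    refine (Me3_fm_congr (N := φ.cd.size) ?_ φ le_rfl).1 hv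
    intro i hi
    simp only [Fin.ofNat]
    rw [Nat.mod_eq_of_lt (by omega)]

theorem Me3_enc_tm {N : ℕ} (t : RT) (ht : t.cd.size ≤ N) :
    Pool.Agent.helper88.Surj.encTm (t.toTm N) = t.cd := by
  induction t with
  | var i =>
    simp only [RT.cd, Me3_size_cons, Me3_size_un] at ht
    simp only [RT.toTm, Pool.Agent.helper88.Surj.encTm, RT.cd, Fin.ofNat]
    rw [Nat.mod_eq_of_lt (by omega)]
  | const c => rfl
  | add a b iha ihb =>
    simp only [RT.cd, Me3_size_cons, Me3_size_un] at ht
    simp only [RT.toTm, Pool.Agent.helper88.Surj.encTm, RT.cd]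
    rw [iha (by omega), ihb (by omega)]
  | mul a b iha ihb =>
    simp only [RT.cd, Me3_size_cons, Me3_size_un] at ht
    simp only [RT.toTm, Pool.Agent.helper88.Surj.encTm, RT.cd]
    rw [iha (by omega), ihb (by omega)]

theorem Me3_enc_fm {N : ℕ} (φ : RFm) (ht : φ.cd.size ≤ N) : encFm (φ.toFm N) = φ.cd := by
  induction φ with
  | eq a b =>
    simp only [RFm.cd, Me3_size_cons, Me3_size_un] at ht
    simp only [RFm.toFm, encFm, RFm.cd]
    rw [Me3_enc_tm a (by omega), Me3_enc_tm b (by omega)]
  | lt a b =>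
    simp only [RFm.cd, Me3_size_cons, Me3_size_un] at ht
    simp only [RFm.toFm, encFm, RFm.cd]
    rw [Me3_enc_tm a (by omega), Me3_enc_tm b (by omega)]
  | le a b =>
    simp only [RFm.cd, Me3_size_cons, Me3_size_un] at ht
    simp only [RFm.toFm, encFm, RFm.cd]
    rw [Me3_enc_tm a (by omega), Me3_enc_tm b (by omega)]
  | and a b iha ihb =>
    simp only [RFm.cd, Me3_size_cons, Me3_size_un] at ht
    simp only [RFm.toFm, encFm, RFm.cd]
    rw [iha (by omega), ihb (by omega)]
  | or a b iha ihb =>
    simp only [RFm.cd, Me3_size_cons, Me3_size_un] at ht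
    simp only [RFm.toFm, encFm, RFm.cd]
    rw [iha (by omega), ihb (by omega)]
  | not a iha =>
    simp only [RFm.cd, Me3_size_cons, Me3_size_un] at ht
    simp only [RFm.toFm, encFm, RFm.cd]
    rw [iha (by omega)]

theorem enc_sent (φ : RFm) : encEx φ.sent =
    .cons (Pool.Agent.helper88.Surj.un (φ.cd.size + 1)) φ.cd := by
  show D.cons (Pool.Agent.helper88.Surj.un (φ.cd.size + 1)) (encFm (φ.toFm φ.cd.size)) = _
  rw [Me3_enc_fm φ le_rfl]

theorem Me3_unary (l : List Bool) : (enc (l.map fun _ => ()) : D) =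
    Pool.Agent.helper88.Surj.un l.length := by
  induction l with
  | nil => rfl
  | cons b l ih =>
    have h1 : (enc ((b :: l).map fun _ => ()) : D) = D.cons D.nil (enc (l.map fun _ => ())) := rfl
    rw [h1, ih]
    rfl

theorem Me3_bits : ∀ l : List Bool, ofBits l = (enc l : D)
  | [] => rfl
  | b :: l => by
    have h1 : (enc (b :: l) : D) = D.cons (ofBool b) (enc l) := rfl
    rw [h1, ← Me3_bits l]
    rfl

theorem comp_sent {α : Type} {x : α → List Bool} {f : α → RFm}
    (h : Comp x (fun a => encD (enc (f a)))) : Comp x (fun a => encD (encEx (f a).sent)) := by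
  have h1 : Comp (fun d : D => encD d) (fun d => encD (ofBits (encD d))) := Comp.bits _
  have h2 : Comp (fun l : List Bool => encD (enc l))
      (fun l : List Bool => encD (enc (l.map fun _ => ()))) := TM2Lib.Poly.unary TM2Lib.Poly.id
  have h3 : Comp (fun d : D => encD (ofBits (encD d)))
      (fun d => encD (Pool.Agent.helper88.Surj.un d.size)) := by
    refine (Comp.reindex h2 (fun d : D => encD d)).congr (fun d => ?_) (fun d => ?_)
    · rw [Me3_bits]
    · rw [Me3_unary]; rfl
  have h4 : Comp (fun d : D => encD d)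
      (fun d => encD (D.cons (D.cons D.nil (Pool.Agent.helper88.Surj.un d.size)) d)) :=
    Comp.pair (Comp.pair (Comp.const _ _) (h1.trans h3)) (Comp.refl _)
  have h5 : Comp (fun a => encD (enc (f a))) (fun a => encD (encEx (f a).sent)) := by
    refine (Comp.reindex h4 (fun a => (f a).cd)).congr (fun a => rfl) (fun a => ?_)
    rw [enc_sent]
    rfl
  exact h.trans h5

end Pool.Agent.PLN
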