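import Pool.Agent.PLN.Mf
import Pool.Agent.PLN.Me1

/-!
# Meaning of the building blocks

`conj_holds` etc. by induction on the list.  `cnt_holds`: the indicators are `0` or `1`, and `1` where
`Cnd` holds, so the number of disks is at most the sum; conversely, given the values of the other
variables, one can take the indicator function.
-/

namespace Pool.Agent.PLN

theorem conj_holds {v : ℕ → ℝ} {l : List RFm} : (conjF l).holds v ↔ ∀ φ ∈ l, φ.holds v := by
  induction l with
  | nil => simp [conjF, RFm.holds, RT.val]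
  | cons a l ih =>
    rw [List.forall_mem_cons]
    exact and_congr Iff.rfl ih

theorem disj_holds {v : ℕ → ℝ} {l : List RFm} : (disjF l).holds v ↔ ∃ φ ∈ l, φ.holds v := by
  induction l with
  | nil => simp [disjF, RFm.holds, RT.val]
  | cons a l ih =>
    have h1 : (disjF (a :: l)).holds v ↔ a.holds v ∨ (disjF l).holds v := Iff.rfl
    rw [h1, ih]
    simp

theorem sum_val {v : ℕ → ℝ} {l : List RT} : (sumT l).val v = (l.map (RT.val v)).sum := by
  induction l with
  | nil => simp [sumT, RT.val]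
  | cons a l ih =>
    rw [List.map_cons, List.sum_cons, ← ih]
    rfl

/-- position of a vertex -/
noncomputable def vP (v : ℕ → ℝ) (w : ℕ) : ℂ := ⟨v (3 * w), v (3 * w + 1)⟩

/-- radius of a vertex -/
def vR (v : ℕ → ℝ) (w : ℕ) : ℝ := v (3 * w + 2)

theorem tD_val (v : ℕ → ℝ) (u w : ℕ) : (tD u w).val v = ‖vP v u - vP v w‖ ^ 2 := by
  rw [Complex.sq_norm, Complex.normSq_apply]
  simp only [tD, RT.sq, RT.sub, RT.val, tX, tY, vP, Complex.sub_re, Complex.sub_im]
  push_cast
  ring

theorem cnd_holds (v : ℕ → ℝ) (qx qy mx my : RT) (w : ℕ) : (cnd qx qy mx my w).holds v ↔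
    Cnd ⟨qx.val v, qy.val v⟩ ⟨mx.val v, my.val v⟩ (vP v w) (vR v w) := by
  unfold Cnd
  rw [Complex.sq_norm, Complex.normSq_apply]
  simp only [cnd, RFm.holds, RT.sq, RT.sub, RT.val, tX, tY, tR, vP, vR, Complex.sub_re,
    Complex.sub_im]
  push_cast
  have e1 : (v (3 * w) + -1 * qx.val v) = v (3 * w) - qx.val v := by ring
  have e2 : (v (3 * w + 1) + -1 * qy.val v) = v (3 * w + 1) - qy.val v := by ring
  rw [e1, e2, ← sq (v (3 * w + 2))]
  have e3 : mx.val v * (v (3 * w + 1) - qy.val v) + -1 * (my.val v * (v (3 * w) - qx.val v)) =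
      mx.val v * (v (3 * w + 1) - qy.val v) - my.val v * (v (3 * w) - qx.val v) := by ring
  rw [e3]

private theorem Me4_sum (n b : ℕ) (v : ℕ → ℝ) :
    (sumT ((List.range n).map fun w => .var (b + w))).val v = ∑ w : Fin n, v (b + w) := by
  rw [sum_val, List.map_map]
  have h1 : ((List.range n).map (RT.val v ∘ fun w => RT.var (b + w))).sum =
      ∑ w ∈ Finset.range n, v (b + w) := by
    rw [Finset.sum_eq_multiset_sum]
    rfl
  rw [h1, Finset.sum_range]

open Classical in
theorem cnt_le {n k b : ℕ} {v : ℕ → ℝ} {qx qy mx my : RT} (h : (cntF n k b qx qy mx my).holds v) :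
    (Finset.univ.filter fun w : Fin n => Cnd ⟨qx.val v, qy.val v⟩ ⟨mx.val v, my.val v⟩
      (vP v w) (vR v w)).card ≤ k := by
  obtain ⟨h1, h2⟩ := h
  rw [conj_holds] at h1
  have h3 : ∀ w : Fin n, (if Cnd ⟨qx.val v, qy.val v⟩ ⟨mx.val v, my.val v⟩
      (vP v w) (vR v w) then (1 : ℝ) else 0) ≤ v (b + w) := by
    intro w
    have h4 := h1 _ (List.mem_map.2 ⟨(w : ℕ), List.mem_range.2 w.2, rfl⟩)
    rcases h4 with h4 | ⟨h4, h5⟩
    · have h6 : v (b + w) = 1 := by simpa [RFm.holds, RT.val] using h4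
      rw [h6]
      split_ifs <;> norm_num
    · have h6 : v (b + w) = 0 := by simpa [RFm.holds, RT.val] using h4
      have h7 : ¬ Cnd ⟨qx.val v, qy.val v⟩ ⟨mx.val v, my.val v⟩ (vP v w) (vR v w) := by
        rw [← cnd_holds]
        exact h5
      rw [if_neg h7, h6]
  have h4 : (sumT ((List.range n).map fun w => .var (b + w))).val v ≤ (k : ℝ) := by
    have h5 : (sumT ((List.range n).map fun w => .var (b + w))).val v ≤
      (RT.const (k : ℤ)).val v := h2
    simpa [RT.val] using h5
  rw [Me4_sum] at h4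
  have h5 : ((Finset.univ.filter fun w : Fin n => Cnd ⟨qx.val v, qy.val v⟩ ⟨mx.val v, my.val v⟩
      (vP v w) (vR v w)).card : ℝ) ≤ k := by
    rw [Finset.card_filter]
    push_cast
    exact (Finset.sum_le_sum fun w _ => h3 w).trans h4
  exact_mod_cast h5

open Classical in
theorem cnt_of_le {n k b : ℕ} {v : ℕ → ℝ} {qx qy mx my : RT}
    (hv : ∀ w < n, v (b + w) = if Cnd ⟨qx.val v, qy.val v⟩ ⟨mx.val v, my.val v⟩ (vP v w) (vR v w)
      then 1 else 0)
    (h : (Finset.univ.filter fun w : Fin n => Cnd ⟨qx.val v, qy.val v⟩ ⟨mx.val v, my.val v⟩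
      (vP v w) (vR v w)).card ≤ k) : (cntF n k b qx qy mx my).holds v := by
  constructor
  · rw [conj_holds]
    intro φ hφ
    rw [List.mem_map] at hφ
    obtain ⟨w, hw, rfl⟩ := hφ
    rw [List.mem_range] at hw
    have h1 := hv w hw
    by_cases h2 : Cnd ⟨qx.val v, qy.val v⟩ ⟨mx.val v, my.val v⟩ (vP v w) (vR v w)
    · rw [if_pos h2] at h1
      left
      simpa [RFm.holds, RT.val] using h1
    · rw [if_neg h2] at h1
      right
      refine ⟨by simpa [RFm.holds, RT.val] using h1, ?_⟩
      intro h3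
      exact h2 ((cnd_holds v qx qy mx my w).1 h3)
  · have h1 : (sumT ((List.range n).map fun w => .var (b + w))).val v ≤
      (RT.const (k : ℤ)).val v := by
      rw [Me4_sum]
      have h2 : ∀ w : Fin n, v (b + w) = if Cnd ⟨qx.val v, qy.val v⟩ ⟨mx.val v, my.val v⟩
          (vP v w) (vR v w) then (1 : ℝ) else 0 := fun w => hv w w.2
      rw [Finset.sum_congr rfl fun w _ => h2 w]
      have h3 : ((Finset.univ.filter fun w : Fin n => Cnd ⟨qx.val v, qy.val v⟩
          ⟨mx.val v, my.val v⟩ (vP v w) (vR v w)).card : ℝ) ≤ k := by exact_mod_cast h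
      rw [Finset.card_filter] at h3
      push_cast at h3
      simpa [RT.val] using h3
    exact h1

end Pool.Agent.PLN
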