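import Pool.Agent.PLN.Mf
import Pool.Agent.PLN.Me4

/-!
# The formula for the radii

`adjA_iff`: the list of `v` in `adjLists G` consists of the numbers of the neighbours of `v`.
`rad_holds`: if the positions are distinct (so all distances are positive), `fRad` says that `vR v` is
half the largest distance to a neighbour, or `0` if there is no neighbour (`radius`: `ciSup` over the
finite set of neighbours; `Real.iSup_of_isEmpty`; `le_ciSup`, `ciSup_le`).
-/

namespace Pool.Agent.PLN

theorem adjA_iff (G : Graph) (v w : Fin G.1) : adjA (adjLists G) v w = true ↔ G.2.Adj v w := by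
  classical
  have h1 : (adjLists G).getD v [] =
      ((List.finRange G.1).filter fun u => decide (G.2.Adj v u)).map Fin.val := by
    rw [adjLists, List.getD_eq_getElem?_getD, List.getElem?_map]
    have hv : (List.finRange G.1)[(v : ℕ)]? = some v := by
      rw [List.getElem?_eq_getElem (by simp)]
      simp
    rw [hv]
    simp only [Option.map_some, Option.getD_some]
  rw [adjA, h1, List.any_eq_true]
  constructor
  · rintro ⟨y, hy, hyw⟩
    rw [List.mem_map] at hy
    obtain ⟨u, hu, rfl⟩ := hy
    rw [List.mem_filter] at hu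
    have h2 : (u : ℕ) = w := by simpa using hyw
    have h3 : u = w := Fin.ext h2
    rw [← h3]
    simpa using hu.2
  · intro h
    refine ⟨w, ?_, by simp⟩
    rw [List.mem_map]
    exact ⟨w, by simp [List.mem_filter, h], rfl⟩

theorem length_adjLists (G : Graph) : (adjLists G).length = G.1 := by
  simp [adjLists]

theorem radius_nonneg {n : ℕ} (G : SimpleGraph (Fin n)) (p : Fin n → ℂ) (v : Fin n) :
    0 ≤ radius G p v := by
  exact Real.iSup_nonneg fun w => by positivity

private theorem Me5_rad (G : Graph) (x : ℕ → ℝ) (v : Fin G.1) :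
    (fRad (adjLists G) G.1 v).holds x ↔ (0 ≤ vR x v ∧
      (∀ w : Fin G.1, G.2.Adj v w → ‖vP x v - vP x w‖ ^ 2 ≤ 4 * vR x v ^ 2) ∧
      (vR x v = 0 ∨ ∃ w : Fin G.1, G.2.Adj v w ∧ 4 * vR x v ^ 2 = ‖vP x v - vP x w‖ ^ 2)) := by
  have e0 : (RT.const 0).val x = 0 := by simp [RT.val]
  have eR : (tR v).val x = vR x v := rfl
  have e4 : (RT.mul (.const 4) (tR v).sq).val x = 4 * vR x v ^ 2 := by
    simp only [RT.val, RT.sq, tR, vR]
    push_cast
    ring
  have h0 : (fRad (adjLists G) G.1 v).holds x ↔ ((RT.const 0).val x ≤ (tR v).val x ∧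
      (conjF ((List.range G.1).flatMap fun w => if adjA (adjLists G) v w then
        [.le (tD v w) (.mul (.const 4) (tR v).sq)] else [])).holds x ∧
      ((tR v).val x = (RT.const 0).val x ∨
        (disjF ((List.range G.1).flatMap fun w => if adjA (adjLists G) v w then
          [.eq (.mul (.const 4) (tR v).sq) (tD v w)] else [])).holds x)) := Iff.rfl
  rw [h0, e0, eR, conj_holds, disj_holds]
  refine and_congr Iff.rfl (and_congr ?_ (or_congr Iff.rfl ?_))
  · constructor
    · intro h w hw
      have h1 := h (.le (tD v w) (.mul (.const 4) (tR v).sq)) (by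
        rw [List.mem_flatMap]
        exact ⟨w, List.mem_range.2 w.2, by rw [if_pos ((adjA_iff G v w).2 hw)]; simp⟩)
      have h2 : (tD v w).val x ≤ (RT.mul (.const 4) (tR v).sq).val x := h1
      rwa [e4, tD_val] at h2
    · intro h φ hφ
      rw [List.mem_flatMap] at hφ
      obtain ⟨w, hw, hφ⟩ := hφ
      rw [List.mem_range] at hw
      by_cases h1 : adjA (adjLists G) v w = true
      · rw [if_pos h1, List.mem_singleton] at hφ
        rw [hφ]
        have h2 := h ⟨w, hw⟩ ((adjA_iff G v ⟨w, hw⟩).1 h1)
        have h3 : (tD v w).val x ≤ (RT.mul (.const 4) (tR v).sq).val x := by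
          rw [e4, tD_val]
          exact h2
        exact h3
      · rw [if_neg h1] at hφ
        simp at hφ
  · constructor
    · rintro ⟨φ, hφ, h⟩
      rw [List.mem_flatMap] at hφ
      obtain ⟨w, hw, hφ⟩ := hφ
      rw [List.mem_range] at hw
      by_cases h1 : adjA (adjLists G) v w = true
      · rw [if_pos h1, List.mem_singleton] at hφ
        rw [hφ] at h
        have h3 : (RT.mul (.const 4) (tR v).sq).val x = (tD v w).val x := h
        rw [e4, tD_val] at h3
        exact ⟨⟨w, hw⟩, (adjA_iff G v ⟨w, hw⟩).1 h1, h3⟩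
      · rw [if_neg h1] at hφ
        simp at hφ
    · rintro ⟨w, hw, h⟩
      refine ⟨.eq (.mul (.const 4) (tR v).sq) (tD v w), ?_, ?_⟩
      · rw [List.mem_flatMap]
        exact ⟨w, List.mem_range.2 w.2, by rw [if_pos ((adjA_iff G v w).2 hw)]; simp⟩
      · have h3 : (RT.mul (.const 4) (tR v).sq).val x = (tD v w).val x := by
          rw [e4, tD_val]
          exact h
        exact h3

theorem rad_holds (G : Graph) (x : ℕ → ℝ) (hinj : Function.Injective fun w : Fin G.1 => vP x w)
    (v : Fin G.1) : (fRad (adjLists G) G.1 v).holds x ↔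
      vR x v = radius G.2 (fun w : Fin G.1 => vP x w) v := by
  rw [Me5_rad]
  have hbdd : BddAbove (Set.range fun w : {w // G.2.Adj v w} => ‖vP x v - vP x w‖ / 2) :=
    Set.finite_range _ |>.bddAbove
  constructor
  · rintro ⟨h0, h1, h2⟩
    apply le_antisymm
    · rcases h2 with h2 | ⟨w, hw, h2⟩
      · rw [h2]
        exact radius_nonneg _ _ _
      · have h3 : vR x v = ‖vP x v - vP x w‖ / 2 := by
          have h4 : (2 * vR x v) ^ 2 = ‖vP x v - vP x w‖ ^ 2 := by rw [← h2]; ring
          have h5 := (sq_eq_sq₀ (by positivity) (norm_nonneg _)).1 h4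
          linarith
        rw [h3]
        exact le_ciSup hbdd (⟨w, hw⟩ : {w // G.2.Adj v w})
    · refine Real.iSup_le ?_ h0
      rintro ⟨w, hw⟩
      have h3 := h1 w hw
      have h4 : ‖vP x v - vP x w‖ ^ 2 ≤ (2 * vR x v) ^ 2 := by rw [mul_pow]; linarith
      have h5 := (sq_le_sq₀ (norm_nonneg _) (by positivity)).1 h4
      change ‖vP x v - vP x w‖ / 2 ≤ vR x v
      linarith
  · intro h
    have h0 : 0 ≤ vR x v := by rw [h]; exact radius_nonneg _ _ _
    refine ⟨h0, ?_, ?_⟩
    · intro w hw
      have h3 : ‖vP x v - vP x w‖ / 2 ≤ vR x v := by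
        rw [h]
        exact le_ciSup hbdd (⟨w, hw⟩ : {w // G.2.Adj v w})
      have h4 : ‖vP x v - vP x w‖ ≤ 2 * vR x v := by linarith
      have h5 := pow_le_pow_left₀ (norm_nonneg _) h4 2
      rw [mul_pow] at h5
      linarith
    · by_cases hne : Nonempty {w // G.2.Adj v w}
      · right
        obtain ⟨⟨w, hw⟩, h3⟩ := exists_eq_ciSup_of_finite
          (f := fun w : {w // G.2.Adj v w} => ‖vP x v - vP x w‖ / 2)
        refine ⟨w, hw, ?_⟩
        have h4 : vR x v = ‖vP x v - vP x w‖ / 2 := by
          rw [h]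
          exact h3.symm
        rw [h4]
        ring
      · left
        rw [not_nonempty_iff] at hne
        rw [h]
        exact Real.iSup_of_isEmpty _

theorem inj_holds (n : ℕ) (x : ℕ → ℝ) : (fInj n).holds x ↔
    Function.Injective fun w : Fin n => vP x w := by
  rw [fInj, conj_holds]
  have e0 : (RT.const 0).val x = 0 := by simp [RT.val]
  constructor
  · intro h u w huw
    by_contra hne
    have h1 := h (.lt (.const 0) (tD u w)) (by
      rw [List.mem_flatMap]
      refine ⟨u, List.mem_range.2 u.2, ?_⟩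
      rw [List.mem_flatMap]
      refine ⟨w, List.mem_range.2 w.2, ?_⟩
      have h2 : (u : ℕ) ≠ w := fun h2 => hne (Fin.ext h2)
      simp [h2])
    have h2 : (RT.const 0).val x < (tD u w).val x := h1
    rw [e0, tD_val] at h2
    have h3 : vP x u = vP x w := huw
    rw [h3, sub_self, norm_zero] at h2
    norm_num at h2
  · intro h φ hφ
    rw [List.mem_flatMap] at hφ
    obtain ⟨u, hu, hφ⟩ := hφ
    rw [List.mem_flatMap] at hφ
    obtain ⟨w, hw, hφ⟩ := hφ
    rw [List.mem_range] at hu hw
    by_cases h1 : u = w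
    · simp [h1] at hφ
    · rw [if_neg (by simpa using h1), List.mem_singleton] at hφ
      rw [hφ]
      have h2 : (RT.const 0).val x < (tD u w).val x := by
        rw [e0, tD_val]
        have h3 : vP x u ≠ vP x w := by
          intro h4
          exact h1 (congrArg Fin.val (h (a₁ := ⟨u, hu⟩) (a₂ := ⟨w, hw⟩) h4))
        have h4 : 0 < ‖vP x u - vP x w‖ := norm_pos_iff.2 (sub_ne_zero.2 h3)
        positivity
      exact h2

end Pool.Agent.PLN
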