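import Pool.Agent.PLN.Me2
import Pool.Agent.PLN.Me5

/-!
# The formula implies that the ply is at most `k`

`p w = vP x w` is injective (`inj_holds`) with the radii `vR x w` (`rad_holds`).  Suppose that some `z`
is in more than `k` disks; `depth_cand` gives `u`, `q`.  If `q` is the lowest point of the disk of `u`,
`fLow` and `cnt_le` give a contradiction.  Otherwise `q` is on the circles of `u` and `w ≠ u`; put
`e = p w - p u ≠ 0`, `y = q - p u`, `|y| = r u`, `|y - e| = r w`, so
`2 ⟪y, e⟫ = |e|² + r u² - r w² = 2 |e|² λ`, hence `y = λ e + ν i e` with a real `ν`, and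
`r u² = (λ² + ν²) |e|² ≥ λ² |e|²`.  So the second alternative of `fInt` holds and `ν² = μ²`,
`ν = μ` or `ν = - μ`: `q` is one of the two candidates of `fInt1`, and `cnt_le` gives a contradiction.
-/

namespace Pool.Agent.PLN

open Classical in
private theorem Me6_cand {n k b : ℕ} {x : ℕ → ℝ} {qx qy mx my : RT}
    (h : (cntF n k b qx qy mx my).holds x) (q m : ℂ) (hq1 : qx.val x = q.re)
    (hq2 : qy.val x = q.im) (hm1 : mx.val x = m.re) (hm2 : my.val x = m.im) :
    (Finset.univ.filter fun w : Fin n => Cnd q m (vP x w) (vR x w)).card ≤ k := by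
  have h1 := cnt_le h
  rw [hq1, hq2, hm1, hm2] at h1
  exact h1

/-- the coordinates of a point on the circles of `u` and `w` -/
private theorem Me6_alg {q pu pw : ℂ} {ru rw' La : ℝ} (hne : pu ≠ pw)
    (h1 : ‖q - pu‖ = ru) (h2 : ‖q - pw‖ = rw')
    (hLa : 2 * (‖pu - pw‖ ^ 2 * La) = ‖pu - pw‖ ^ 2 + ru ^ 2 - rw' ^ 2) :
    ∃ ν : ℝ, q.re = pu.re + (La * (pw.re - pu.re) - ν * (pw.im - pu.im)) ∧
      q.im = pu.im + (La * (pw.im - pu.im) + ν * (pw.re - pu.re)) ∧
      (La ^ 2 + ν ^ 2) * ‖pu - pw‖ ^ 2 = ru ^ 2 := by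
  have hD : ‖pu - pw‖ ^ 2 = (pw.re - pu.re) ^ 2 + (pw.im - pu.im) ^ 2 := by
    rw [Complex.sq_norm, Complex.normSq_apply, Complex.sub_re, Complex.sub_im]
    ring
  have hpos : 0 < ‖pu - pw‖ ^ 2 := by
    have := norm_pos_iff.2 (sub_ne_zero.2 hne)
    positivity
  have e1 : ru ^ 2 = (q.re - pu.re) ^ 2 + (q.im - pu.im) ^ 2 := by
    rw [← h1, Complex.sq_norm, Complex.normSq_apply, Complex.sub_re, Complex.sub_im]
    ring
  have e2 : rw' ^ 2 = (q.re - pw.re) ^ 2 + (q.im - pw.im) ^ 2 := by
    rw [← h2, Complex.sq_norm, Complex.normSq_apply, Complex.sub_re, Complex.sub_im]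
    ring
  rw [hD] at hLa hpos ⊢
  rw [e1, e2] at hLa
  rw [e1]
  set a := pw.re - pu.re with ha
  set b := pw.im - pu.im with hb
  set y := q.re - pu.re with hy
  set z := q.im - pu.im with hz
  have e3 : q.re - pw.re = y - a := by rw [hy, ha]; ring
  have e4 : q.im - pw.im = z - b := by rw [hz, hb]; ring
  rw [e3, e4] at hLa
  have hLa' : (a ^ 2 + b ^ 2) * La = y * a + z * b := by nlinarith
  have hDne : a ^ 2 + b ^ 2 ≠ 0 := hpos.ne'
  refine ⟨(a * z - b * y) / (a ^ 2 + b ^ 2), ?_, ?_, ?_⟩
  · have : La = (y * a + z * b) / (a ^ 2 + b ^ 2) := by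
      rw [eq_div_iff hDne, ← hLa']; ring
    have h5 : La * a - (a * z - b * y) / (a ^ 2 + b ^ 2) * b = y := by
      rw [this]
      field_simp
      ring
    rw [h5, hy]; ring
  · have : La = (y * a + z * b) / (a ^ 2 + b ^ 2) := by
      rw [eq_div_iff hDne, ← hLa']; ring
    have h5 : La * b + (a * z - b * y) / (a ^ 2 + b ^ 2) * a = z := by
      rw [this]
      field_simp
      ring
    rw [h5, hz]; ring
  · have : La = (y * a + z * b) / (a ^ 2 + b ^ 2) := by
      rw [eq_div_iff hDne, ← hLa']; ring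
    rw [this]
    field_simp
    ring

theorem ply_of_frm (G : Graph) (k : ℕ) {x : ℕ → ℝ} (h : (frm (adjLists G) k).holds x) :
    ∃ p : Fin G.1 → ℂ, Function.Injective p ∧ PlyLe G.2 p k := by
  classical
  have hlen := length_adjLists G
  have h0 : (fInj G.1).holds x ∧ (conjF ((List.range G.1).map (fRad (adjLists G) G.1))).holds x ∧
      (conjF ((List.range G.1).map (fLow G.1 k))).holds x ∧
      (conjF ((List.range G.1).flatMap fun u => (List.range G.1).flatMap fun w =>
        if decide (u = w) then [] else [fInt G.1 k u w])).holds x := by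
    have h1 : (fInj (adjLists G).length).holds x ∧
      (conjF ((List.range (adjLists G).length).map
        (fRad (adjLists G) (adjLists G).length))).holds x ∧
      (conjF ((List.range (adjLists G).length).map (fLow (adjLists G).length k))).holds x ∧
      (conjF ((List.range (adjLists G).length).flatMap fun u =>
        (List.range (adjLists G).length).flatMap fun w =>
        if decide (u = w) then [] else [fInt (adjLists G).length k u w])).holds x := h
    rwa [hlen] at h1
  obtain ⟨hI, hR, hL, hT⟩ := h0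
  rw [conj_holds] at hR hL hT
  have hinj : Function.Injective fun w : Fin G.1 => vP x w := (inj_holds G.1 x).1 hI
  have hrad : ∀ v : Fin G.1, vR x v = radius G.2 (fun w : Fin G.1 => vP x w) v := by
    intro v
    refine (rad_holds G x hinj v).1 (hR _ ?_)
    exact List.mem_map.2 ⟨v, List.mem_range.2 v.2, rfl⟩
  have hlow : ∀ u : Fin G.1, (fLow G.1 k u).holds x := fun u =>
    hL _ (List.mem_map.2 ⟨u, List.mem_range.2 u.2, rfl⟩)
  have hint : ∀ u w : Fin G.1, u ≠ w → (fInt G.1 k u w).holds x := by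
    intro u w huw
    refine hT _ ?_
    rw [List.mem_flatMap]
    refine ⟨u, List.mem_range.2 u.2, ?_⟩
    rw [List.mem_flatMap]
    refine ⟨w, List.mem_range.2 w.2, ?_⟩
    have h2 : (u : ℕ) ≠ w := fun h2 => huw (Fin.ext h2)
    simp [h2]
  refine ⟨fun w => vP x w, hinj, ?_⟩
  intro z
  by_contra hcon
  rw [not_le] at hcon
  have hset : {v : Fin G.1 | ‖z - vP x v‖ < radius G.2 (fun w : Fin G.1 => vP x w) v} =
      ((Finset.univ.filter fun v : Fin G.1 => ‖z - vP x v‖ < vR x v : Finset (Fin G.1)) :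
        Set (Fin G.1)) := by
    ext v
    simp [hrad]
  have hcon2 : k < (Finset.univ.filter fun v : Fin G.1 => ‖z - vP x v‖ < vR x v).card := by
    have h1 : k < ({v : Fin G.1 | ‖z - vP x v‖ <
      radius G.2 (fun w : Fin G.1 => vP x w) v} : Set (Fin G.1)).ncard := hcon
    rwa [hset, Set.ncard_coe_finset] at h1
  obtain ⟨u, q, hcard, hq⟩ := depth_cand (fun w : Fin G.1 => vP x w) (fun w : Fin G.1 => vR x w)
    (fun v => by rw [hrad]; exact radius_nonneg _ _ _) k z hcon2
  rcases hq with hq | ⟨w, hw, hq1, hq2⟩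
  · have h1 := Me6_cand (hlow u) q (vP x u - q) (by rw [hq]; simp [tX, RT.val, vP])
      (by rw [hq]; simp [tY, tR, RT.sub, RT.val, vP, vR]; ring)
      (by rw [hq]; simp [RT.val]) (by rw [hq]; simp [tR, RT.val, vR])
    exact absurd hcard (not_lt.2 h1)
  · have hne : vP x u ≠ vP x w := fun h3 => hw (hinj h3).symm
    obtain ⟨hLa, hF⟩ := hint u w hw.symm
    have hLa' : 2 * (‖vP x u - vP x w‖ ^ 2 * (tLa G.1 u w).val x) =
        ‖vP x u - vP x w‖ ^ 2 + vR x u ^ 2 - vR x w ^ 2 := by
      have h3 : (RT.mul (.const 2) (.mul (tD u w) (tLa G.1 u w))).val x =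
        ((RT.add (tD u w) (tR u).sq).sub (tR w).sq).val x := hLa
      simp only [RT.val, RT.sub, RT.sq] at h3
      rw [tD_val] at h3
      push_cast at h3
      simp only [tR, RT.val] at h3
      simp only [vR]
      rw [h3]
      ring
    obtain ⟨ν, hν1, hν2, hν3⟩ := Me6_alg hne hq1 hq2 hLa'
    have hDpos : 0 < ‖vP x u - vP x w‖ ^ 2 := by
      have := norm_pos_iff.2 (sub_ne_zero.2 hne)
      positivity
    rcases hF with hF | ⟨_, hF2, hF3, hF4⟩
    · have h3 : (tR u).sq.val x < (RT.mul (tLa G.1 u w).sq (tD u w)).val x := hF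
      simp only [RT.val, RT.sq] at h3
      rw [tD_val] at h3
      have h4 : (tR u).val x = vR x u := rfl
      rw [h4] at h3
      nlinarith [mul_nonneg (sq_nonneg ν) hDpos.le]
    · have h3 : (RT.mul (.add (tLa G.1 u w).sq (tMu G.1 u w).sq) (tD u w)).val x =
        (tR u).sq.val x := hF2
      simp only [RT.val, RT.sq] at h3
      rw [tD_val] at h3
      have h4 : (tR u).val x = vR x u := rfl
      rw [h4] at h3
      have h5 : (tMu G.1 u w).val x ^ 2 = ν ^ 2 := by
        have h6 : ((tMu G.1 u w).val x ^ 2 - ν ^ 2) * ‖vP x u - vP x w‖ ^ 2 = 0 := by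
          nlinarith
        have h7 := (mul_eq_zero.1 h6).resolve_right hDpos.ne'
        linarith
      have hX : ∀ v : ℕ, (tX v).val x = (vP x v).re := fun v => rfl
      have hY : ∀ v : ℕ, (tY v).val x = (vP x v).im := fun v => rfl
      rcases sq_eq_sq_iff_eq_or_eq_neg.1 h5 with h6 | h6
      · have h7 := Me6_cand hF3 q (vP x u - q)
          (by rw [hν1]; simp only [RT.val, RT.sub, hX, hY, h6]; push_cast; ring)
          (by rw [hν2]; simp only [RT.val, RT.sub, hX, hY, h6]; push_cast; ring)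
          (by rw [Complex.sub_re, hν1]; simp only [RT.val, RT.sub, hX, hY, h6]; push_cast; ring)
          (by rw [Complex.sub_im, hν2]; simp only [RT.val, RT.sub, hX, hY, h6]; push_cast; ring)
        exact absurd hcard (not_lt.2 h7)
      · have h7 := Me6_cand hF4 q (vP x u - q)
          (by rw [hν1]; simp only [RT.val, RT.sub, hX, hY, h6]; push_cast; ring)
          (by rw [hν2]; simp only [RT.val, RT.sub, hX, hY, h6]; push_cast; ring)
          (by rw [Complex.sub_re, hν1]; simp only [RT.val, RT.sub, hX, hY, h6]; push_cast; ring)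
          (by rw [Complex.sub_im, hν2]; simp only [RT.val, RT.sub, hX, hY, h6]; push_cast; ring)
        exact absurd hcard (not_lt.2 h7)

end Pool.Agent.PLN
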