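import Pool.Agent.PLN.Me5

/-!
# If the ply is at most `k`, the formula is satisfiable

Define `x` by decoding the index: positions and radii of the vertices (`radius G.2 p v`),
`λ = (|e|² + r u² - r w²)/(2 |e|²)`, `μ = √(max 0 (r u²/|e|² - λ²))` for `u ≠ w`, and the indicators of
`Cnd` at the candidates.  (The five blocks of indices are `[0, 3 n)`, `[3 n, 3 n + 2 n²)`,
`[3 n + 2 n², 3 n + 2 n² + 2 n³)`, and `[3 n + 2 n² + 2 n³, …)`; `/` and `%`.)  By `cnd_point` the number
of `v` with `Cnd q m (p v) (r v)` is at most the number of disks containing a certain point, so at most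
`k`; `cnt_of_le`.
-/

namespace Pool.Agent.PLN

/-- positions -/
private noncomputable def Me7_P (G : Graph) (p : Fin G.1 → ℂ) (w : ℕ) : ℂ :=
  if h : w < G.1 then p ⟨w, h⟩ else 0

/-- radii -/
private noncomputable def Me7_R (G : Graph) (p : Fin G.1 → ℂ) (w : ℕ) : ℝ :=
  if h : w < G.1 then radius G.2 p ⟨w, h⟩ else 0

/-- first coordinate of the intersection points -/
private noncomputable def Me7_La (G : Graph) (p : Fin G.1 → ℂ) (u w : ℕ) : ℝ :=
  (‖Me7_P G p u - Me7_P G p w‖ ^ 2 + Me7_R G p u ^ 2 - Me7_R G p w ^ 2) /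
    (2 * ‖Me7_P G p u - Me7_P G p w‖ ^ 2)

/-- second coordinate of the intersection points -/
private noncomputable def Me7_Mu (G : Graph) (p : Fin G.1 → ℂ) (u w : ℕ) : ℝ :=
  √(Me7_R G p u ^ 2 / ‖Me7_P G p u - Me7_P G p w‖ ^ 2 - Me7_La G p u w ^ 2)

/-- sign -/
private noncomputable def Me7_c (σ : ℕ) : ℝ := if σ = 0 then 1 else -1

/-- the intersection points minus the centre -/
private noncomputable def Me7_d (G : Graph) (p : Fin G.1 → ℂ) (σ u w : ℕ) : ℂ :=
  ⟨Me7_La G p u w * ((Me7_P G p w).re - (Me7_P G p u).re) -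
      Me7_c σ * Me7_Mu G p u w * ((Me7_P G p w).im - (Me7_P G p u).im),
    Me7_La G p u w * ((Me7_P G p w).im - (Me7_P G p u).im) +
      Me7_c σ * Me7_Mu G p u w * ((Me7_P G p w).re - (Me7_P G p u).re)⟩

open Classical in
/-- indicators at the intersection points -/
private noncomputable def Me7_I (G : Graph) (p : Fin G.1 → ℂ) (σ u w w' : ℕ) : ℝ :=
  if Cnd (Me7_P G p u + Me7_d G p σ u w) (-(Me7_d G p σ u w)) (Me7_P G p w') (Me7_R G p w')
    then 1 else 0

open Classical in
/-- indicators at the lowest points -/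
private noncomputable def Me7_J (G : Graph) (p : Fin G.1 → ℂ) (u w' : ℕ) : ℝ :=
  if Cnd ⟨(Me7_P G p u).re, (Me7_P G p u).im - Me7_R G p u⟩ ⟨0, Me7_R G p u⟩
    (Me7_P G p w') (Me7_R G p w') then 1 else 0

/-- the values of the variables -/
private noncomputable def Me7_x (G : Graph) (p : Fin G.1 → ℂ) (i : ℕ) : ℝ :=
  if i < 3 * G.1 then (if i % 3 = 0 then (Me7_P G p (i / 3)).re else
    if i % 3 = 1 then (Me7_P G p (i / 3)).im else Me7_R G p (i / 3))
  else if i < 3 * G.1 + 2 * (G.1 * G.1) then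
    (if (i - 3 * G.1) % 2 = 0 then Me7_La G p ((i - 3 * G.1) / 2 / G.1) ((i - 3 * G.1) / 2 % G.1)
      else Me7_Mu G p ((i - 3 * G.1) / 2 / G.1) ((i - 3 * G.1) / 2 % G.1))
  else if i < 3 * G.1 + 2 * (G.1 * G.1) + 2 * (G.1 * G.1 * G.1) then
    Me7_I G p ((i - (3 * G.1 + 2 * (G.1 * G.1))) / G.1 / G.1 / G.1)
      ((i - (3 * G.1 + 2 * (G.1 * G.1))) / G.1 / G.1 % G.1)
      ((i - (3 * G.1 + 2 * (G.1 * G.1))) / G.1 % G.1)
      ((i - (3 * G.1 + 2 * (G.1 * G.1))) % G.1)
  else Me7_J G p ((i - (3 * G.1 + 2 * (G.1 * G.1) + 2 * (G.1 * G.1 * G.1))) / G.1)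
      ((i - (3 * G.1 + 2 * (G.1 * G.1) + 2 * (G.1 * G.1 * G.1))) % G.1)

private theorem Me7_x0 (G : Graph) (p : Fin G.1 → ℂ) {w : ℕ} (hw : w < G.1) :
    Me7_x G p (3 * w) = (Me7_P G p w).re := by
  have h1 : 3 * w < 3 * G.1 := by omega
  have h2 : 3 * w % 3 = 0 := by omega
  have h3 : 3 * w / 3 = w := by omega
  rw [Me7_x, if_pos h1, if_pos h2, h3]

private theorem Me7_x1 (G : Graph) (p : Fin G.1 → ℂ) {w : ℕ} (hw : w < G.1) :
    Me7_x G p (3 * w + 1) = (Me7_P G p w).im := by
  have h1 : 3 * w + 1 < 3 * G.1 := by omega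
  have h2 : ¬ (3 * w + 1) % 3 = 0 := by omega
  have h2' : (3 * w + 1) % 3 = 1 := by omega
  have h3 : (3 * w + 1) / 3 = w := by omega
  rw [Me7_x, if_pos h1, if_neg h2, if_pos h2', h3]

private theorem Me7_x2 (G : Graph) (p : Fin G.1 → ℂ) {w : ℕ} (hw : w < G.1) :
    Me7_x G p (3 * w + 2) = Me7_R G p w := by
  have h1 : 3 * w + 2 < 3 * G.1 := by omega
  have h2 : ¬ (3 * w + 2) % 3 = 0 := by omega
  have h2' : ¬ (3 * w + 2) % 3 = 1 := by omega
  have h3 : (3 * w + 2) / 3 = w := by omega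
  rw [Me7_x, if_pos h1, if_neg h2, if_neg h2', h3]

private theorem Me7_lt {n u w : ℕ} (hu : u < n) (hw : w < n) : n * u + w < n * n := by
  have h1 : n * (u + 1) ≤ n * n := Nat.mul_le_mul_left n hu
  have h2 : n * (u + 1) = n * u + n := by ring
  omega

private theorem Me7_div {n u w : ℕ} (hw : w < n) : (n * u + w) / n = u := by
  rw [Nat.mul_add_div (by omega), Nat.div_eq_of_lt hw, add_zero]

private theorem Me7_mod {n u w : ℕ} (hw : w < n) : (n * u + w) % n = w := by
  rw [Nat.mul_add_mod, Nat.mod_eq_of_lt hw]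

private theorem Me7_xLa (G : Graph) (p : Fin G.1 → ℂ) {u w : ℕ} (hu : u < G.1) (hw : w < G.1) :
    Me7_x G p (3 * G.1 + 2 * (G.1 * u + w)) = Me7_La G p u w := by
  have h0 := Me7_lt hu hw
  have h1 : ¬ 3 * G.1 + 2 * (G.1 * u + w) < 3 * G.1 := by omega
  have h2 : 3 * G.1 + 2 * (G.1 * u + w) < 3 * G.1 + 2 * (G.1 * G.1) := by omega
  have h3 : 3 * G.1 + 2 * (G.1 * u + w) - 3 * G.1 = 2 * (G.1 * u + w) := by omega
  have h4 : 2 * (G.1 * u + w) % 2 = 0 := by omega
  have h5 : 2 * (G.1 * u + w) / 2 = G.1 * u + w := by omega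
  rw [Me7_x, if_neg h1, if_pos h2, h3, if_pos h4, h5, Me7_div hw, Me7_mod hw]

private theorem Me7_xMu (G : Graph) (p : Fin G.1 → ℂ) {u w : ℕ} (hu : u < G.1) (hw : w < G.1) :
    Me7_x G p (3 * G.1 + 2 * (G.1 * u + w) + 1) = Me7_Mu G p u w := by
  have h0 := Me7_lt hu hw
  have h1 : ¬ 3 * G.1 + 2 * (G.1 * u + w) + 1 < 3 * G.1 := by omega
  have h2 : 3 * G.1 + 2 * (G.1 * u + w) + 1 < 3 * G.1 + 2 * (G.1 * G.1) := by omega
  have h3 : 3 * G.1 + 2 * (G.1 * u + w) + 1 - 3 * G.1 = 2 * (G.1 * u + w) + 1 := by omega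
  have h4 : ¬ (2 * (G.1 * u + w) + 1) % 2 = 0 := by omega
  have h5 : (2 * (G.1 * u + w) + 1) / 2 = G.1 * u + w := by omega
  rw [Me7_x, if_neg h1, if_pos h2, h3, if_neg h4, h5, Me7_div hw, Me7_mod hw]

private theorem Me7_xI (G : Graph) (p : Fin G.1 → ℂ) {σ u w w' : ℕ} (hσ : σ < 2) (hu : u < G.1)
    (hw : w < G.1) (hw' : w' < G.1) :
    Me7_x G p (iI G.1 σ u w w') = Me7_I G p σ u w w' := by
  set n := G.1 with hn
  have e1 : ((σ * n + u) * n + w) * n + w' = n * (n * (n * σ + u) + w) + w' := by ring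
  have hi : iI n σ u w w' = 3 * n + 2 * (n * n) + (n * (n * (n * σ + u) + w) + w') := by
    rw [iI, e1]
  have b1 : n * σ + u < 2 * n := by
    have : n * σ ≤ n * 1 := Nat.mul_le_mul_left n (by omega)
    omega
  have b2 : n * (n * σ + u) + w < 2 * (n * n) := by
    have h1 : n * (n * σ + u + 1) ≤ n * (2 * n) := Nat.mul_le_mul_left n b1
    have h2 : n * (n * σ + u + 1) = n * (n * σ + u) + n := by ring
    have h3 : n * (2 * n) = 2 * (n * n) := by ring
    omega
  have b3 : n * (n * (n * σ + u) + w) + w' < 2 * (n * n * n) := by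
    have h1 : n * (n * (n * σ + u) + w + 1) ≤ n * (2 * (n * n)) := Nat.mul_le_mul_left n b2
    have h2 : n * (n * (n * σ + u) + w + 1) = n * (n * (n * σ + u) + w) + n := by ring
    have h3 : n * (2 * (n * n)) = 2 * (n * n * n) := by ring
    omega
  set t := n * (n * (n * σ + u) + w) + w' with ht
  have h1 : ¬ 3 * n + 2 * (n * n) + t < 3 * n := by omega
  have h2 : ¬ 3 * n + 2 * (n * n) + t < 3 * n + 2 * (n * n) := by omega
  have h3 : 3 * n + 2 * (n * n) + t < 3 * n + 2 * (n * n) + 2 * (n * n * n) := by omega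
  have h4 : 3 * n + 2 * (n * n) + t - (3 * n + 2 * (n * n)) = t := by omega
  have h5 : t / n = n * (n * σ + u) + w := Me7_div hw'
  rw [hi, Me7_x, ← hn, if_neg h1, if_neg h2, if_pos h3, h4, h5, Me7_div hw, Me7_div hu, ht,
    Me7_mod hw', Me7_mod hw, Me7_mod hu]

private theorem Me7_xJ (G : Graph) (p : Fin G.1 → ℂ) {u w' : ℕ} (hw' : w' < G.1) :
    Me7_x G p (iJ G.1 u w') = Me7_J G p u w' := by
  set n := G.1 with hn
  have h1 : ¬ 3 * n + 2 * (n * n) + 2 * (n * n * n) + (n * u + w') < 3 * n := by omega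
  have h2 : ¬ 3 * n + 2 * (n * n) + 2 * (n * n * n) + (n * u + w') < 3 * n + 2 * (n * n) := by
    omega
  have h3 : ¬ 3 * n + 2 * (n * n) + 2 * (n * n * n) + (n * u + w') <
    3 * n + 2 * (n * n) + 2 * (n * n * n) := by omega
  have h4 : 3 * n + 2 * (n * n) + 2 * (n * n * n) + (n * u + w') -
    (3 * n + 2 * (n * n) + 2 * (n * n * n)) = n * u + w' := by omega
  rw [iJ, Me7_x, ← hn, if_neg h1, if_neg h2, if_neg h3, h4, Me7_div hw', Me7_mod hw']

private theorem Me7_vP (G : Graph) (p : Fin G.1 → ℂ) {w : ℕ} (hw : w < G.1) :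
    vP (Me7_x G p) w = Me7_P G p w := by
  rw [vP, Me7_x0 G p hw, Me7_x1 G p hw]

private theorem Me7_vR (G : Graph) (p : Fin G.1 → ℂ) {w : ℕ} (hw : w < G.1) :
    vR (Me7_x G p) w = Me7_R G p w := by
  rw [vR, Me7_x2 G p hw]

private theorem Me7_Pf (G : Graph) (p : Fin G.1 → ℂ) (w : Fin G.1) : Me7_P G p w = p w := by
  rw [Me7_P, dif_pos w.2]

private theorem Me7_Rf (G : Graph) (p : Fin G.1 → ℂ) (w : Fin G.1) :
    Me7_R G p w = radius G.2 p w := by
  rw [Me7_R, dif_pos w.2]

open Classical in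
private theorem Me7_cnt (G : Graph) (k : ℕ) {p : Fin G.1 → ℂ} (h : PlyLe G.2 p k) {b : ℕ}
    {qx qy mx my : RT} (q m : ℂ) (hqx : qx.val (Me7_x G p) = q.re)
    (hqy : qy.val (Me7_x G p) = q.im) (hmx : mx.val (Me7_x G p) = m.re)
    (hmy : my.val (Me7_x G p) = m.im)
    (hb : ∀ w < G.1, Me7_x G p (b + w) = if Cnd q m (Me7_P G p w) (Me7_R G p w)
      then 1 else 0) : (cntF G.1 k b qx qy mx my).holds (Me7_x G p) := by
  refine cnt_of_le ?_ ?_
  · intro w hw
    rw [hqx, hqy, hmx, hmy, Me7_vP G p hw, Me7_vR G p hw]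
    exact hb w hw
  · rw [hqx, hqy, hmx, hmy]
    obtain ⟨z, hz⟩ := cnd_point (fun w : Fin G.1 => p w) (fun w => radius G.2 p w)
      (fun w => radius_nonneg _ _ _) q m
    refine le_trans ?_ (h z)
    rw [← Set.ncard_coe_finset]
    refine Set.ncard_le_ncard ?_ (Set.toFinite _)
    intro w hw
    have hw2 : Cnd ⟨q.re, q.im⟩ ⟨m.re, m.im⟩ (vP (Me7_x G p) w) (vR (Me7_x G p) w) := by
      simpa using hw
    rw [Me7_vP G p w.2, Me7_vR G p w.2, Me7_Pf, Me7_Rf] at hw2
    exact hz w hw2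

theorem frm_of_ply (G : Graph) (k : ℕ) {p : Fin G.1 → ℂ} (hp : Function.Injective p)
    (h : PlyLe G.2 p k) : ∃ x : ℕ → ℝ, (frm (adjLists G) k).holds x := by
  classical
  refine ⟨Me7_x G p, ?_⟩
  have hpf : (fun w : Fin G.1 => vP (Me7_x G p) w) = p := by
    funext w
    rw [Me7_vP G p w.2, Me7_Pf]
  have hinj : Function.Injective fun w : Fin G.1 => vP (Me7_x G p) w := by
    rw [hpf]; exact hp
  have hPne : ∀ {u w : ℕ}, u < G.1 → w < G.1 → u ≠ w → Me7_P G p u ≠ Me7_P G p w := by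
    intro u w hu hw huw h1
    have h2 : Me7_P G p ((⟨u, hu⟩ : Fin G.1) : ℕ) = Me7_P G p ((⟨w, hw⟩ : Fin G.1) : ℕ) := h1
    rw [Me7_Pf, Me7_Pf] at h2
    exact huw (congrArg Fin.val (hp h2))
  have hX : ∀ {w : ℕ}, w < G.1 → (tX w).val (Me7_x G p) = (Me7_P G p w).re := fun hw =>
    Me7_x0 G p hw
  have hY : ∀ {w : ℕ}, w < G.1 → (tY w).val (Me7_x G p) = (Me7_P G p w).im := fun hw =>
    Me7_x1 G p hw
  have hR : ∀ {w : ℕ}, w < G.1 → (tR w).val (Me7_x G p) = Me7_R G p w := fun hw =>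
    Me7_x2 G p hw
  have hLa : ∀ {u w : ℕ}, u < G.1 → w < G.1 → (tLa G.1 u w).val (Me7_x G p) =
      Me7_La G p u w := fun hu hw => Me7_xLa G p hu hw
  have hMu : ∀ {u w : ℕ}, u < G.1 → w < G.1 → (tMu G.1 u w).val (Me7_x G p) =
      Me7_Mu G p u w := fun hu hw => Me7_xMu G p hu hw
  have key : (fInj G.1).holds (Me7_x G p) ∧
      (conjF ((List.range G.1).map (fRad (adjLists G) G.1))).holds (Me7_x G p) ∧
      (conjF ((List.range G.1).map (fLow G.1 k))).holds (Me7_x G p) ∧
      (conjF ((List.range G.1).flatMap fun u => (List.range G.1).flatMap fun w =>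
        if decide (u = w) then [] else [fInt G.1 k u w])).holds (Me7_x G p) := by
    refine ⟨(inj_holds _ _).2 hinj, ?_, ?_, ?_⟩
    · rw [conj_holds]
      intro φ hφ
      rw [List.mem_map] at hφ
      obtain ⟨v, hv, rfl⟩ := hφ
      rw [List.mem_range] at hv
      refine (rad_holds G (Me7_x G p) hinj ⟨v, hv⟩).2 ?_
      rw [hpf, Me7_vR G p hv]
      exact Me7_Rf G p ⟨v, hv⟩
    · rw [conj_holds]
      intro φ hφ
      rw [List.mem_map] at hφ
      obtain ⟨u, hu, rfl⟩ := hφ
      rw [List.mem_range] at hu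
      refine Me7_cnt G k h ⟨(Me7_P G p u).re, (Me7_P G p u).im - Me7_R G p u⟩ ⟨0, Me7_R G p u⟩
        (hX hu) ?_ (by simp [RT.val]) (hR hu) ?_
      · simp only [RT.sub, RT.val, hY hu, hR hu]
        push_cast
        ring
      · intro w hw
        have h1 : iJ G.1 u 0 + w = iJ G.1 u w := by
          simp only [iJ]; omega
        rw [h1, Me7_xJ G p hw, Me7_J]
    · rw [conj_holds]
      intro φ hφ
      rw [List.mem_flatMap] at hφ
      obtain ⟨u, hu, hφ⟩ := hφ
      rw [List.mem_flatMap] at hφ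
      obtain ⟨w, hw, hφ⟩ := hφ
      rw [List.mem_range] at hu hw
      by_cases huw : u = w
      · simp [huw] at hφ
      rw [if_neg (by simpa using huw), List.mem_singleton] at hφ
      rw [hφ]
      have hne := hPne hu hw huw
      have hDpos : 0 < ‖Me7_P G p u - Me7_P G p w‖ ^ 2 := by
        have := norm_pos_iff.2 (sub_ne_zero.2 hne)
        positivity
      have hD : (tD u w).val (Me7_x G p) = ‖Me7_P G p u - Me7_P G p w‖ ^ 2 := by
        rw [tD_val, Me7_vP G p hu, Me7_vP G p hw]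
      have hLaeq : 2 * (‖Me7_P G p u - Me7_P G p w‖ ^ 2 * Me7_La G p u w) =
          ‖Me7_P G p u - Me7_P G p w‖ ^ 2 + Me7_R G p u ^ 2 - Me7_R G p w ^ 2 := by
        have hnz : ‖Me7_P G p u - Me7_P G p w‖ ≠ 0 := norm_ne_zero_iff.2 (sub_ne_zero.2 hne)
        rw [Me7_La]
        field_simp
      have hint1 : ∀ (σ : ℕ) (c : ℤ), σ < 2 → (c : ℝ) = Me7_c σ →
          (fInt1 G.1 k σ c u w).holds (Me7_x G p) := by
        intro σ c hσ hc
        refine Me7_cnt G k h (Me7_P G p u + Me7_d G p σ u w) (-(Me7_d G p σ u w)) ?_ ?_ ?_ ?_ ?_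
        · simp only [RT.sub, RT.val, hX hu, hX hw, hY hu, hY hw, hLa hu hw, hMu hu hw, hc,
            Complex.add_re, Me7_d]
          push_cast
          ring
        · simp only [RT.sub, RT.val, hX hu, hX hw, hY hu, hY hw, hLa hu hw, hMu hu hw, hc,
            Complex.add_im, Me7_d]
          push_cast
          ring
        · simp only [RT.sub, RT.val, hX hu, hX hw, hY hu, hY hw, hLa hu hw, hMu hu hw, hc,
            Complex.neg_re, Me7_d]
          push_cast
          ring
        · simp only [RT.sub, RT.val, hX hu, hX hw, hY hu, hY hw, hLa hu hw, hMu hu hw, hc,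
            Complex.neg_im, Me7_d]
          push_cast
          ring
        · intro w' hw'
          have h1 : iI G.1 σ u w 0 + w' = iI G.1 σ u w w' := by
            simp only [iI]; omega
          rw [h1, Me7_xI G p hσ hu hw hw', Me7_I]
      constructor
      · have h1 : (RT.mul (.const 2) (.mul (tD u w) (tLa G.1 u w))).val (Me7_x G p) =
          ((RT.add (tD u w) (tR u).sq).sub (tR w).sq).val (Me7_x G p) := by
          simp only [RT.val, RT.sub, RT.sq, hD, hLa hu hw, hR hu, hR hw]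
          push_cast
          rw [hLaeq]
          ring
        exact h1
      · by_cases hlt : Me7_R G p u ^ 2 <
          Me7_La G p u w ^ 2 * ‖Me7_P G p u - Me7_P G p w‖ ^ 2
        · left
          have h1 : (tR u).sq.val (Me7_x G p) <
              (RT.mul (tLa G.1 u w).sq (tD u w)).val (Me7_x G p) := by
            simp only [RT.val, RT.sq, hD, hLa hu hw, hR hu]
            rw [← sq, ← sq]
            exact hlt
          exact h1
        · right
          rw [not_lt] at hlt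
          have hnn : 0 ≤ Me7_R G p u ^ 2 / ‖Me7_P G p u - Me7_P G p w‖ ^ 2 -
              Me7_La G p u w ^ 2 := by
            rw [sub_nonneg, le_div_iff₀ hDpos]
            exact hlt
          refine ⟨?_, ?_, hint1 0 1 (by omega) (by simp [Me7_c]),
            hint1 1 (-1) (by omega) (by simp [Me7_c])⟩
          · have h1 : (RT.const 0).val (Me7_x G p) ≤ (tMu G.1 u w).val (Me7_x G p) := by
              rw [hMu hu hw, Me7_Mu]
              simp only [RT.val]
              push_cast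
              exact Real.sqrt_nonneg _
            exact h1
          · have h1 : (RT.mul (.add (tLa G.1 u w).sq (tMu G.1 u w).sq) (tD u w)).val
                (Me7_x G p) = (tR u).sq.val (Me7_x G p) := by
              simp only [RT.val, RT.sq, hD, hLa hu hw, hMu hu hw, hR hu]
              rw [← sq, ← sq, ← sq, Me7_Mu, Real.sq_sqrt hnn, add_sub_cancel,
                div_mul_cancel₀ _ hDpos.ne']
            exact h1
  have hlen := length_adjLists G
  have h1 : (fInj (adjLists G).length).holds (Me7_x G p) ∧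
      (conjF ((List.range (adjLists G).length).map
        (fRad (adjLists G) (adjLists G).length))).holds (Me7_x G p) ∧
      (conjF ((List.range (adjLists G).length).map
        (fLow (adjLists G).length k))).holds (Me7_x G p) ∧
      (conjF ((List.range (adjLists G).length).flatMap fun u =>
        (List.range (adjLists G).length).flatMap fun w =>
        if decide (u = w) then [] else [fInt (adjLists G).length k u w])).holds (Me7_x G p) := by
    rw [hlen]
    exact key
  exact h1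

end Pool.Agent.PLN
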