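import Pool.Agent.PLN.En
import Pool.Agent.TM2Lib.PolyNat

/-!
# More polynomial time functions

`flatMapU`: `UPoly.range` and `Poly.flatMap` (or `UPoly.tab` and `Poly.flatten`).
`flatMapIdx`: `zipIdx` in unary: `(f a).zipIdx = (List.range (f a).length).map (fun i => ((f a)[i],
i))`; use `flatMapU`, `Poly.getD` or `Poly.dropU`, `Poly.list_cases`.
`poly_dedupN`: copy `poly_dedup`, `dedup_foldr` from `Pool/Agent/H64T3S/PolyGr`
(equality of names is polynomial time: `Poly.NPC.nat_eq`, `Poly.NPC.beq`).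
-/

namespace Pool.Agent.PLN

open Pool.Agent.TM2Lib

variable {α β γ : Type} [Enc α] [Enc β] [Enc γ]

theorem mapU {f : α → ℕ} {h : α × Un → γ} (hf : UPoly f) (hh : Poly h) :
    Poly (fun a => (List.range (f a)).map fun i => h (a, ⟨i⟩)) := Poly.tab hf hh

theorem flatMapU {f : α → ℕ} {h : α × Un → List γ} (hf : UPoly f) (hh : Poly h) :
    Poly (fun a => (List.range (f a)).flatMap fun i => h (a, ⟨i⟩)) :=
  (Poly.flatten (mapU hf hh)).of_eq fun _ => rfl

theorem Pt0_zipIdx (l : List β) (b : β) :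
    l.zipIdx = (List.range l.length).map fun i => (l.getD i b, i) := by
  apply List.ext_getElem
  · simp
  · intro n h1 h2
    have h3 : n < l.length := by simpa using h1
    simp only [List.getElem_zipIdx, List.getElem_map, List.getElem_range, Nat.zero_add,
      List.getD_eq_getElem _ _ h3]

theorem flatMapIdx {f : α → List β} {h : α × (β × Un) → List γ} (hf : Poly f) (hh : Poly h) :
    Poly (fun a => (f a).zipIdx.flatMap fun p => h (a, (p.1, ⟨p.2⟩))) := by
  have h1 : Poly (fun q : α × (β × List β) => (List.range (q.2.1 :: q.2.2).length).flatMap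
      fun i => h (q.1, ((q.2.1 :: q.2.2).getD i q.2.1, ⟨i⟩))) := by
    refine flatMapU (h := fun r : (α × (β × List β)) × Un =>
      h (r.1.1, ((r.1.2.1 :: r.1.2.2).getD r.2.n r.1.2.1, r.2)))
      (UPoly.length (Poly.id.snd'.fst'.cons Poly.id.snd'.snd')) (hh.comp ?_)
    refine Poly.id.fst'.fst'.pair (Poly.pair ?_ Poly.id.snd')
    exact Poly.getD (Poly.id.fst'.snd'.fst'.cons Poly.id.fst'.snd'.snd')
      (UPoly.n.comp Poly.id.snd') Poly.id.fst'.snd'.fst'
  refine (Poly.list_cases hf (TM2Lib.Poly.const ([] : List γ)) h1).of_eq fun a => ?_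
  rcases hl : f a with _ | ⟨b, l⟩
  · rfl
  · show (List.range (b :: l).length).flatMap
      (fun i => h (a, ((b :: l).getD i b, ⟨i⟩))) = _
    rw [Pt0_zipIdx (b :: l) b, List.flatMap_map]

theorem poly_eqN {f g : α → Nm} (hf : Poly f) (hg : Poly g) :
    Poly (fun a => decide (f a = g a)) := by
  refine (((Poly.NPC.beq hf.fst' hg.fst').and ((Poly.nat_eq hf.snd'.fst' hg.snd'.fst').and
    (Poly.nat_eq hf.snd'.snd' hg.snd'.snd')))).of_eq fun a => ?_
  rcases f a with ⟨x, y, z⟩
  rcases g a with ⟨x', y', z'⟩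
  rw [Bool.eq_iff_iff]
  simp [Prod.ext_iff]

theorem Pt0_dedup_foldr {X : Type} [DecidableEq X] (l : List X) :
    l.foldr (fun a acc => if (acc.any fun b => decide (a = b)) then acc else a :: acc) [] =
      l.dedup := by
  induction l with
  | nil => rfl
  | cons a l ih =>
    rw [List.foldr_cons, ih]
    by_cases h : a ∈ l
    · rw [List.dedup_cons_of_mem h, if_pos]
      rw [List.any_eq_true]
      exact ⟨a, List.mem_dedup.2 h, by simp⟩
    · rw [List.dedup_cons_of_notMem h, if_neg]
      rw [List.any_eq_true]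
      rintro ⟨b, hb, hab⟩
      rw [decide_eq_true_eq] at hab
      rw [← hab, List.mem_dedup] at hb
      exact h hb

theorem poly_dedupN {f : α → List Nm} (hf : Poly f) : Poly (fun a => (f a).dedup) := by
  obtain ⟨F, hF⟩ := hf.size
  have h1 := Poly.foldr_add (f := f) (g := fun _ => ([] : List Nm))
    (h := fun p : α × (List Nm × Nm) => if (p.2.1.any fun b => decide (p.2.2 = b)) then p.2.1
      else p.2.2 :: p.2.1) hf (TM2Lib.Poly.const _)
    (Poly.ite (Poly.any (h := fun q : (α × (List Nm × Nm)) × Nm => decide (q.1.2.2 = q.2))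
      Poly.id.snd'.fst' (poly_eqN Poly.id.fst'.snd'.snd' Poly.id.snd'))
      Poly.id.snd'.fst' (Poly.id.snd'.snd'.cons Poly.id.snd'.fst')) (F + 1) (by
    intro a s b hb
    have h2 := Poly.sz_mem_le hb
    have h3 := hF a
    simp only [Polynomial.eval_add, Polynomial.eval_one]
    split_ifs
    · omega
    · rw [sz_cons]; omega)
  exact h1.of_eq fun a => Pt0_dedup_foldr _

end Pool.Agent.PLN
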