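import Pool.Agent.PLN.Mf
import Pool.Agent.PLN.Pt0

/-!
# The formula in polynomial time

The constructors of `RT` and `RFm` are polynomial time (`Comp.pair` with a constant); variables:
`UPoly`; `RT.const k` for `k : ℕ`: the code is `cons (un 1) (cons nil (enc k))` (`encInt` of a natural
number).  Lists by `flatMapU`, `mapU`; `conjF`, `disjF`, `sumT` by `Poly.foldr_add`-like lemma of
`TM2Lib/Arith` (each step adds the size of the new element and a constant); `adjA` by `Poly.getD`,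
`Poly.any`, `UPoly.toNat`, `Poly.NPC.nat_eq`.
-/

namespace Pool.Agent.PLN

open Pool.Agent.TM2Lib Pool.Agent.TM2Lib.D

theorem Me8_un (n : ℕ) : (enc (⟨n⟩ : Un) : D) = Pool.Agent.helper88.Surj.un n := by
  show (enc (un n) : D) = _
  induction n with
  | zero => rfl
  | succ n ih =>
    have h1 : (enc (un (n + 1)) : D) = D.cons D.nil (enc (un n)) := rfl
    rw [h1, ih]
    rfl

theorem Me8_bits (l : List Bool) : (enc l : D) = Pool.Agent.helper88.Surj.bitsD l := by
  induction l with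
  | nil => rfl
  | cons b l ih =>
    have h1 : (enc (b :: l) : D) = D.cons (D.ofBool b) (enc l) := rfl
    rw [h1, ih]
    rfl

section

variable {α : Type} [Enc α] {f g : α → RT} {φ ψ : α → RFm} {i : α → ℕ}

theorem Me8_var (hi : UPoly i) : Poly (fun a => RT.var (i a)) := by
  have h : Comp (fun a : α => encD (enc a)) (fun a => encD (D.cons
    (Pool.Agent.helper88.Surj.un 0) (enc (⟨i a⟩ : Un)))) := Comp.pair (Comp.const _ _) hi
  refine h.congr (fun _ => rfl) fun a => ?_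
  rw [Me8_un]
  rfl

theorem Me8_const (c : ℤ) : Poly (fun _ : α => RT.const c) := TM2Lib.Poly.const _

theorem Me8_nat (hi : Poly i) : Poly (fun a => RT.const (i a : ℤ)) := by
  have h : Comp (fun a : α => encD (enc a)) (fun a => encD (D.cons
    (Pool.Agent.helper88.Surj.un 1) (D.cons (D.ofBool false) (enc (i a))))) :=
    Comp.pair (Comp.const _ _) (Comp.pair (Comp.const _ _) hi)
  refine h.congr (fun _ => rfl) fun a => ?_
  have h2 : (enc (RT.const (i a : ℤ)) : D) = D.cons (Pool.Agent.helper88.Surj.un 1)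
    (D.cons (D.ofBool (decide ((i a : ℤ) < 0)))
      (Pool.Agent.helper88.Surj.bitsD (i a : ℤ).natAbs.bits)) := rfl
  have h3 : decide ((i a : ℤ) < 0) = false := by
    rw [decide_eq_false_iff_not]
    exact not_lt.2 (Int.natCast_nonneg _)
  rw [h2, h3, Int.natAbs_natCast, ← Me8_bits]
  rfl

theorem Me8_add (hf : Poly f) (hg : Poly g) : Poly (fun a => RT.add (f a) (g a)) :=
  (Comp.pair (Comp.const _ (encD (Pool.Agent.helper88.Surj.un 2))) (Comp.pair hf hg) :
    Comp (fun a : α => encD (enc a)) (fun a => encD (D.cons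
    (Pool.Agent.helper88.Surj.un 2) (D.cons (enc (f a)) (enc (g a))))))

theorem Me8_mul (hf : Poly f) (hg : Poly g) : Poly (fun a => RT.mul (f a) (g a)) :=
  (Comp.pair (Comp.const _ (encD (Pool.Agent.helper88.Surj.un 3))) (Comp.pair hf hg) :
    Comp (fun a : α => encD (enc a)) (fun a => encD (D.cons
    (Pool.Agent.helper88.Surj.un 3) (D.cons (enc (f a)) (enc (g a))))))

theorem Me8_sub (hf : Poly f) (hg : Poly g) : Poly (fun a => RT.sub (f a) (g a)) :=
  Me8_add hf (Me8_mul (Me8_const _) hg)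

theorem Me8_sq (hf : Poly f) : Poly (fun a => RT.sq (f a)) := Me8_mul hf hf

theorem Me8_eq (hf : Poly f) (hg : Poly g) : Poly (fun a => RFm.eq (f a) (g a)) :=
  (Comp.pair (Comp.const _ (encD (Pool.Agent.helper88.Surj.un 4))) (Comp.pair hf hg) :
    Comp (fun a : α => encD (enc a)) (fun a => encD (D.cons
    (Pool.Agent.helper88.Surj.un 4) (D.cons (enc (f a)) (enc (g a))))))

theorem Me8_lt (hf : Poly f) (hg : Poly g) : Poly (fun a => RFm.lt (f a) (g a)) :=
  (Comp.pair (Comp.const _ (encD (Pool.Agent.helper88.Surj.un 5))) (Comp.pair hf hg) :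
    Comp (fun a : α => encD (enc a)) (fun a => encD (D.cons
    (Pool.Agent.helper88.Surj.un 5) (D.cons (enc (f a)) (enc (g a))))))

theorem Me8_le (hf : Poly f) (hg : Poly g) : Poly (fun a => RFm.le (f a) (g a)) :=
  (Comp.pair (Comp.const _ (encD (Pool.Agent.helper88.Surj.un 6))) (Comp.pair hf hg) :
    Comp (fun a : α => encD (enc a)) (fun a => encD (D.cons
    (Pool.Agent.helper88.Surj.un 6) (D.cons (enc (f a)) (enc (g a))))))

theorem Me8_and (hf : Poly φ) (hg : Poly ψ) : Poly (fun a => RFm.and (φ a) (ψ a)) :=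
  (Comp.pair (Comp.const _ (encD (Pool.Agent.helper88.Surj.un 7))) (Comp.pair hf hg) :
    Comp (fun a : α => encD (enc a)) (fun a => encD (D.cons
    (Pool.Agent.helper88.Surj.un 7) (D.cons (enc (φ a)) (enc (ψ a))))))

theorem Me8_or (hf : Poly φ) (hg : Poly ψ) : Poly (fun a => RFm.or (φ a) (ψ a)) :=
  (Comp.pair (Comp.const _ (encD (Pool.Agent.helper88.Surj.un 8))) (Comp.pair hf hg) :
    Comp (fun a : α => encD (enc a)) (fun a => encD (D.cons
    (Pool.Agent.helper88.Surj.un 8) (D.cons (enc (φ a)) (enc (ψ a))))))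

theorem Me8_not (hf : Poly φ) : Poly (fun a => RFm.not (φ a)) :=
  (Comp.pair (Comp.const _ (encD (Pool.Agent.helper88.Surj.un 9))) hf :
    Comp (fun a : α => encD (enc a)) (fun a => encD (D.cons
    (Pool.Agent.helper88.Surj.un 9) (enc (φ a)))))

theorem Me8_sz3 (t : D) (x y : D) : (D.cons t (D.cons x y)).size = t.size + x.size + y.size + 2 := by
  rw [D.size_cons, D.size_cons]
  omega

theorem Me8_conj {l : α → List RFm} (hl : Poly l) : Poly (fun a => conjF (l a)) := by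
  obtain ⟨F, hF⟩ := hl.size
  have h1 := Poly.foldr_add (f := l) (g := fun _ => RFm.eq (.const 0) (.const 0))
    (h := fun p : α × (RFm × RFm) => RFm.and p.2.2 p.2.1) hl (TM2Lib.Poly.const _)
    (Me8_and Poly.id.snd'.snd' Poly.id.snd'.fst') (F + 100) (by
    intro a s b hb
    have h2 := Poly.sz_mem_le hb
    have h3 := hF a
    have h4 : sz (RFm.and b s) = (Pool.Agent.helper88.Surj.un 7).size + sz b + sz s + 2 :=
      Me8_sz3 _ _ _
    have h5 : (Pool.Agent.helper88.Surj.un 7).size = 15 := rfl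
    simp only [Polynomial.eval_add, Polynomial.eval_ofNat]
    rw [h4, h5]
    omega)
  exact h1

theorem Me8_disj {l : α → List RFm} (hl : Poly l) : Poly (fun a => disjF (l a)) := by
  obtain ⟨F, hF⟩ := hl.size
  have h1 := Poly.foldr_add (f := l) (g := fun _ => RFm.lt (.const 0) (.const 0))
    (h := fun p : α × (RFm × RFm) => RFm.or p.2.2 p.2.1) hl (TM2Lib.Poly.const _)
    (Me8_or Poly.id.snd'.snd' Poly.id.snd'.fst') (F + 100) (by
    intro a s b hb
    have h2 := Poly.sz_mem_le hb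
    have h3 := hF a
    have h4 : sz (RFm.or b s) = (Pool.Agent.helper88.Surj.un 8).size + sz b + sz s + 2 :=
      Me8_sz3 _ _ _
    have h5 : (Pool.Agent.helper88.Surj.un 8).size = 17 := rfl
    simp only [Polynomial.eval_add, Polynomial.eval_ofNat]
    rw [h4, h5]
    omega)
  exact h1

theorem Me8_sum {l : α → List RT} (hl : Poly l) : Poly (fun a => sumT (l a)) := by
  obtain ⟨F, hF⟩ := hl.size
  have h1 := Poly.foldr_add (f := l) (g := fun _ => RT.const 0)
    (h := fun p : α × (RT × RT) => RT.add p.2.2 p.2.1) hl (TM2Lib.Poly.const _)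
    (Me8_add Poly.id.snd'.snd' Poly.id.snd'.fst') (F + 100) (by
    intro a s b hb
    have h2 := Poly.sz_mem_le hb
    have h3 := hF a
    have h4 : sz (RT.add b s) = (Pool.Agent.helper88.Surj.un 2).size + sz b + sz s + 2 :=
      Me8_sz3 _ _ _
    have h5 : (Pool.Agent.helper88.Surj.un 2).size = 5 := rfl
    simp only [Polynomial.eval_add, Polynomial.eval_ofNat]
    rw [h4, h5]
    omega)
  exact h1

end

section

variable {α : Type} [Enc α] {n σ u v w w' b k : α → ℕ} {qx qy mx my : α → RT}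
  {A : α → List (List ℕ)}

theorem Me8_c (m : ℕ) : UPoly (fun _ : α => m) := UPoly.const m

theorem Me8_tX (hv : UPoly v) : Poly (fun a => tX (v a)) := Me8_var ((Me8_c 3).mul hv)

theorem Me8_tY (hv : UPoly v) : Poly (fun a => tY (v a)) :=
  Me8_var (((Me8_c 3).mul hv).add (Me8_c 1))

theorem Me8_tR (hv : UPoly v) : Poly (fun a => tR (v a)) :=
  Me8_var (((Me8_c 3).mul hv).add (Me8_c 2))

theorem Me8_tLa (hn : UPoly n) (hu : UPoly u) (hw : UPoly w) :
    Poly (fun a => tLa (n a) (u a) (w a)) :=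
  Me8_var (((Me8_c 3).mul hn).add ((Me8_c 2).mul ((hn.mul hu).add hw)))

theorem Me8_tMu (hn : UPoly n) (hu : UPoly u) (hw : UPoly w) :
    Poly (fun a => tMu (n a) (u a) (w a)) :=
  Me8_var ((((Me8_c 3).mul hn).add ((Me8_c 2).mul ((hn.mul hu).add hw))).add (Me8_c 1))

theorem Me8_iI (hn : UPoly n) (hσ : UPoly σ) (hu : UPoly u) (hw : UPoly w) (hw' : UPoly w') :
    UPoly (fun a => iI (n a) (σ a) (u a) (w a) (w' a)) :=
  (((Me8_c 3).mul hn).add ((Me8_c 2).mul (hn.mul hn))).add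
    ((((((hσ.mul hn).add hu).mul hn).add hw).mul hn).add hw')

theorem Me8_iJ (hn : UPoly n) (hu : UPoly u) (hw' : UPoly w') :
    UPoly (fun a => iJ (n a) (u a) (w' a)) :=
  ((((Me8_c 3).mul hn).add ((Me8_c 2).mul (hn.mul hn))).add
    ((Me8_c 2).mul ((hn.mul hn).mul hn))).add ((hn.mul hu).add hw')

theorem Me8_tD (hu : UPoly u) (hw : UPoly w) : Poly (fun a => tD (u a) (w a)) :=
  Me8_add (Me8_sq (Me8_sub (Me8_tX hu) (Me8_tX hw))) (Me8_sq (Me8_sub (Me8_tY hu) (Me8_tY hw)))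

theorem Me8_cnd (hqx : Poly qx) (hqy : Poly qy) (hmx : Poly mx) (hmy : Poly my)
    (hw : UPoly w) : Poly (fun a => cnd (qx a) (qy a) (mx a) (my a) (w a)) := by
  have nx := Me8_sub (Me8_tX hw) hqx
  have ny := Me8_sub (Me8_tY hw) hqy
  have N := Me8_add (Me8_sq nx) (Me8_sq ny)
  have j := Me8_sub (Me8_mul hmx ny) (Me8_mul hmy nx)
  have i := Me8_add (Me8_mul hmx nx) (Me8_mul hmy ny)
  have r := Me8_sq (Me8_tR hw)
  exact Me8_or (Me8_lt N r) (Me8_and (Me8_eq N r)
    (Me8_or (Me8_lt (Me8_const 0) j) (Me8_and (Me8_eq j (Me8_const 0))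
      (Me8_lt (Me8_const 0) i))))

theorem Me8_cnt (hn : UPoly n) (hk : Poly k) (hb : UPoly b) (hqx : Poly qx) (hqy : Poly qy)
    (hmx : Poly mx) (hmy : Poly my) :
    Poly (fun a => cntF (n a) (k a) (b a) (qx a) (qy a) (mx a) (my a)) := by
  have w : UPoly (fun p : α × Un => p.2.n) := UPoly.n.comp TM2Lib.Poly.snd
  have bw : UPoly (fun p : α × Un => b p.1 + p.2.n) := (hb.comp TM2Lib.Poly.fst).add w
  have c := Me8_cnd (hqx.comp (TM2Lib.Poly.fst (β := Un))) (hqy.comp (TM2Lib.Poly.fst (β := Un)))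
    (hmx.comp (TM2Lib.Poly.fst (β := Un))) (hmy.comp (TM2Lib.Poly.fst (β := Un))) w
  have l1 := mapU (h := fun p : α × Un => RFm.or (.eq (.var (b p.1 + p.2.n)) (.const 1))
    (.and (.eq (.var (b p.1 + p.2.n)) (.const 0))
      (.not (cnd (qx p.1) (qy p.1) (mx p.1) (my p.1) p.2.n)))) hn
    (Me8_or (Me8_eq (Me8_var bw) (Me8_const 1)) (Me8_and (Me8_eq (Me8_var bw) (Me8_const 0))
      (Me8_not c)))
  have l2 := mapU (h := fun p : α × Un => RT.var (b p.1 + p.2.n)) hn (Me8_var bw)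
  exact Me8_and (Me8_conj l1) (Me8_le (Me8_sum l2) (Me8_nat hk))

theorem Me8_adjA (hA : Poly A) (hv : UPoly v) (hw : UPoly w) :
    Poly (fun a => adjA (A a) (v a) (w a)) := by
  have h1 : Poly (fun a => (A a).getD (v a) []) := Poly.getD hA hv (TM2Lib.Poly.const _)
  exact Poly.any (h := fun p : α × ℕ => decide (p.2 = w p.1)) h1
    (Poly.nat_eq TM2Lib.Poly.snd (hw.toNat.comp TM2Lib.Poly.fst))

theorem Me8_nil {β C : Type} [Enc β] [Enc C] : Poly (fun _ : β => ([] : List C)) :=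
  TM2Lib.Poly.const _

theorem Me8_inj (hn : UPoly n) : Poly (fun a => fInj (n a)) := by
  have u : UPoly (fun p : (α × Un) × Un => p.1.2.n) := UPoly.n.comp TM2Lib.Poly.fst.snd'
  have w : UPoly (fun p : (α × Un) × Un => p.2.n) := UPoly.n.comp TM2Lib.Poly.snd
  have h1 := flatMapU (h := fun p : (α × Un) × Un => if decide (p.1.2.n = p.2.n) then [] else
    [RFm.lt (.const 0) (tD p.1.2.n p.2.n)]) (hn.comp (TM2Lib.Poly.fst (β := Un)))
    (Poly.ite (UPoly.eq u w) Me8_nil ((Me8_lt (Me8_const 0) (Me8_tD u w)).cons Me8_nil))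
  exact Me8_conj (flatMapU hn h1)

theorem Me8_rad (hA : Poly A) (hn : UPoly n) (hv : UPoly v) :
    Poly (fun a => fRad (A a) (n a) (v a)) := by
  have v' : UPoly (fun p : α × Un => v p.1) := hv.comp TM2Lib.Poly.fst
  have w : UPoly (fun p : α × Un => p.2.n) := UPoly.n.comp TM2Lib.Poly.snd
  have ad := Me8_adjA (hA.comp (TM2Lib.Poly.fst (β := Un))) v' w
  have h4 := Me8_mul (Me8_const 4) (Me8_sq (Me8_tR v'))
  have l1 := flatMapU (h := fun p : α × Un => if adjA (A p.1) (v p.1) p.2.n then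
    [RFm.le (tD (v p.1) p.2.n) (.mul (.const 4) (tR (v p.1)).sq)] else []) hn
    (Poly.ite ad ((Me8_le (Me8_tD v' w) h4).cons Me8_nil) Me8_nil)
  have l2 := flatMapU (h := fun p : α × Un => if adjA (A p.1) (v p.1) p.2.n then
    [RFm.eq (.mul (.const 4) (tR (v p.1)).sq) (tD (v p.1) p.2.n)] else []) hn
    (Poly.ite ad ((Me8_eq h4 (Me8_tD v' w)).cons Me8_nil) Me8_nil)
  exact Me8_and (Me8_le (Me8_const 0) (Me8_tR hv)) (Me8_and (Me8_conj l1)
    (Me8_or (Me8_eq (Me8_tR hv) (Me8_const 0)) (Me8_disj l2)))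

theorem Me8_low (hn : UPoly n) (hk : Poly k) (hu : UPoly u) :
    Poly (fun a => fLow (n a) (k a) (u a)) :=
  Me8_cnt hn hk (Me8_iJ hn hu (Me8_c 0)) (Me8_tX hu) (Me8_sub (Me8_tY hu) (Me8_tR hu))
    (Me8_const 0) (Me8_tR hu)

theorem Me8_int1 (hn : UPoly n) (hk : Poly k) (s : ℕ) (c : ℤ) (hu : UPoly u) (hw : UPoly w) :
    Poly (fun a => fInt1 (n a) (k a) s c (u a) (w a)) := by
  have ex := Me8_sub (Me8_tX hw) (Me8_tX hu)
  have ey := Me8_sub (Me8_tY hw) (Me8_tY hu)
  have la := Me8_tLa hn hu hw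
  have mu := Me8_mul (Me8_const (α := α) c) (Me8_tMu hn hu hw)
  have dx := Me8_sub (Me8_mul la ex) (Me8_mul mu ey)
  have dy := Me8_add (Me8_mul la ey) (Me8_mul mu ex)
  exact Me8_cnt hn hk (Me8_iI hn (Me8_c s) hu hw (Me8_c 0)) (Me8_add (Me8_tX hu) dx)
    (Me8_add (Me8_tY hu) dy) (Me8_mul (Me8_const (-1)) dx) (Me8_mul (Me8_const (-1)) dy)

theorem Me8_int (hn : UPoly n) (hk : Poly k) (hu : UPoly u) (hw : UPoly w) :
    Poly (fun a => fInt (n a) (k a) (u a) (w a)) := by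
  have D := Me8_tD hu hw
  have la := Me8_tLa hn hu hw
  have mu := Me8_tMu hn hu hw
  have ru := Me8_sq (Me8_tR hu)
  have rw' := Me8_sq (Me8_tR hw)
  exact Me8_and (Me8_eq (Me8_mul (Me8_const 2) (Me8_mul D la)) (Me8_sub (Me8_add D ru) rw'))
    (Me8_or (Me8_lt ru (Me8_mul (Me8_sq la) D)) (Me8_and (Me8_le (Me8_const 0) mu)
      (Me8_and (Me8_eq (Me8_mul (Me8_add (Me8_sq la) (Me8_sq mu)) D) ru)
        (Me8_and (Me8_int1 hn hk 0 1 hu hw) (Me8_int1 hn hk 1 (-1) hu hw)))))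

end

theorem poly_frm : Poly (fun I : List (List ℕ) × ℕ => frm I.1 I.2) := by
  have hn : UPoly (fun I : List (List ℕ) × ℕ => I.1.length) := UPoly.length TM2Lib.Poly.fst
  have hk : Poly (fun I : List (List ℕ) × ℕ => I.2) := TM2Lib.Poly.snd
  have hA : Poly (fun I : List (List ℕ) × ℕ => I.1) := TM2Lib.Poly.fst
  have v : UPoly (fun p : (List (List ℕ) × ℕ) × Un => p.2.n) := UPoly.n.comp TM2Lib.Poly.snd
  have hn' := hn.comp (TM2Lib.Poly.fst (α := List (List ℕ) × ℕ) (β := Un))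
  have hk' := hk.comp (TM2Lib.Poly.fst (α := List (List ℕ) × ℕ) (β := Un))
  have hA' := hA.comp (TM2Lib.Poly.fst (α := List (List ℕ) × ℕ) (β := Un))
  have hn'' := hn'.comp (TM2Lib.Poly.fst (α := (List (List ℕ) × ℕ) × Un) (β := Un))
  have hk'' := hk'.comp (TM2Lib.Poly.fst (α := (List (List ℕ) × ℕ) × Un) (β := Un))
  have u2 : UPoly (fun p : ((List (List ℕ) × ℕ) × Un) × Un => p.1.2.n) :=
    UPoly.n.comp TM2Lib.Poly.fst.snd'
  have w2 : UPoly (fun p : ((List (List ℕ) × ℕ) × Un) × Un => p.2.n) :=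
    UPoly.n.comp TM2Lib.Poly.snd
  have l1 := mapU (h := fun p : (List (List ℕ) × ℕ) × Un => fRad p.1.1 p.1.1.length p.2.n) hn
    (Me8_rad hA' hn' v)
  have l2 := mapU (h := fun p : (List (List ℕ) × ℕ) × Un => fLow p.1.1.length p.1.2 p.2.n) hn
    (Me8_low hn' hk' v)
  have l3 := flatMapU (h := fun p : ((List (List ℕ) × ℕ) × Un) × Un =>
    if decide (p.1.2.n = p.2.n) then [] else [fInt p.1.1.1.length p.1.1.2 p.1.2.n p.2.n]) hn'
    (Poly.ite (UPoly.eq u2 w2) Me8_nil ((Me8_int hn'' hk'' u2 w2).cons Me8_nil))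
  exact Me8_and (Me8_inj hn) (Me8_and (Me8_conj l1) (Me8_and (Me8_conj l2)
    (Me8_conj (flatMapU hn l3))))

end Pool.Agent.PLN
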