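import Pool.Agent.PLN.Co1
import Pool.Agent.PLN.Me3
import Pool.Agent.PLN.Me6
import Pool.Agent.PLN.Me7
import Pool.Agent.PLN.Me8
import Pool.Agent.PLN.Hard

/-!
# Membership, and the main theorem
-/

namespace Pool.Agent.PLN

open Pool.Agent.TM2Lib Pool.Agent.TM2Lib.D
open Pool.Agent.helper88.Surj (Problem ReducesTo.trans)

theorem frm_iff (G : Graph) (k : ℕ) : plyNumber G.2 ≤ k ↔ (frm (adjLists G) k).sent.IsTrue := by
  rw [ply_le_iff, sent_true]
  exact ⟨fun ⟨p, hp, h⟩ => frm_of_ply G k hp h, fun ⟨x, hx⟩ => ply_of_frm G k hx⟩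

theorem comp_frm : Comp (fun I : Graph × ℕ => encD (enc (adjLists I.1, I.2)))
    (fun I => encD (encEx (frm (adjLists I.1) I.2).sent)) :=
  comp_sent (f := fun I : Graph × ℕ => frm (adjLists I.1) I.2)
    (Comp.reindex poly_frm (fun I : Graph × ℕ => (adjLists I.1, I.2)))

theorem reduces_etr {f : Graph × ℕ → ExSentence}
    (hc : Comp (fun I : Graph × ℕ => encD (enc (adjLists I.1, I.2))) (fun I => encD (encEx (f I))))
    (h : ∀ I : Graph × ℕ, plyNumber I.1.2 ≤ I.2 ↔ (f I).IsTrue) : PLY.ReducesTo ETR := by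
  refine ⟨f, ?_, h⟩
  have h : Comp PLY.code (fun I => ETR.code (f I)) := hc
  exact Comp.to_tm h

theorem member : InER PLY := reduces_etr comp_frm fun I => frm_iff I.1 I.2

theorem member1 : InER PLY1 := ReducesTo.trans ply1_ply member

/-- **Main theorem.** -/
theorem main : ERComplete PLY ∧ ERComplete PLY1 := ⟨⟨member, hard⟩, ⟨member1, hard1⟩⟩

end Pool.Agent.PLN
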