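import Pool.Agent.PLN.Def

/-!
# The existential formula for the ply number

Variables (with `n` the number of vertices): position `(3 v, 3 v + 1)` and radius `3 v + 2` of the
vertex `v`; `La u w`, `Mu u w` (coordinates of the intersection points of the circles of `u` and `w` in the
frame at `u`); indicator variables for the candidate points.
A candidate is a point `q` with a vector `m`; `cnd` says that the points near `q` in the direction
`J m + 0 m` (`J` is the rotation by 90°) are in the open disk of `w'`.
-/

namespace Pool.Agent.PLN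

open Pool.Agent.TM2Lib Pool.Agent.TM2Lib.D
open Pool.Agent.helper88.Surj (Fm Tm encInt)

/-- terms with variables in `ℕ` -/
inductive RT : Type
  | var (i : ℕ)
  | const (c : ℤ)
  | add (a b : RT)
  | mul (a b : RT)

/-- value -/
def RT.val (v : ℕ → ℝ) : RT → ℝ
  | .var i => v i
  | .const c => (c : ℝ)
  | .add a b => a.val v + b.val v
  | .mul a b => a.val v * b.val v

/-- formulas with variables in `ℕ` -/
inductive RFm : Type
  | eq (a b : RT)
  | lt (a b : RT)
  | le (a b : RT)
  | and (φ ψ : RFm)
  | or (φ ψ : RFm)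
  | not (φ : RFm)

/-- truth -/
def RFm.holds (v : ℕ → ℝ) : RFm → Prop
  | .eq a b => a.val v = b.val v
  | .lt a b => a.val v < b.val v
  | .le a b => a.val v ≤ b.val v
  | .and φ ψ => φ.holds v ∧ ψ.holds v
  | .or φ ψ => φ.holds v ∨ ψ.holds v
  | .not φ => ¬ φ.holds v

/-- codes -/
def RT.cd : RT → D
  | .var i => .cons (Pool.Agent.helper88.Surj.un 0) (Pool.Agent.helper88.Surj.un i)
  | .const c => .cons (Pool.Agent.helper88.Surj.un 1) (encInt c)
  | .add a b => .cons (Pool.Agent.helper88.Surj.un 2) (.cons a.cd b.cd)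
  | .mul a b => .cons (Pool.Agent.helper88.Surj.un 3) (.cons a.cd b.cd)

/-- codes -/
def RFm.cd : RFm → D
  | .eq a b => .cons (Pool.Agent.helper88.Surj.un 4) (.cons a.cd b.cd)
  | .lt a b => .cons (Pool.Agent.helper88.Surj.un 5) (.cons a.cd b.cd)
  | .le a b => .cons (Pool.Agent.helper88.Surj.un 6) (.cons a.cd b.cd)
  | .and φ ψ => .cons (Pool.Agent.helper88.Surj.un 7) (.cons φ.cd ψ.cd)
  | .or φ ψ => .cons (Pool.Agent.helper88.Surj.un 8) (.cons φ.cd ψ.cd)
  | .not φ => .cons (Pool.Agent.helper88.Surj.un 9) φ.cd

instance : Enc RT := ⟨RT.cd⟩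

instance : Enc RFm := ⟨RFm.cd⟩

/-- typed version -/
def RT.toTm (N : ℕ) : RT → Tm (N + 1)
  | .var i => .var (Fin.ofNat (N + 1) i)
  | .const c => .const c
  | .add a b => .add (a.toTm N) (b.toTm N)
  | .mul a b => .mul (a.toTm N) (b.toTm N)

/-- typed version -/
def RFm.toFm (N : ℕ) : RFm → Fm (N + 1)
  | .eq a b => .eq (a.toTm N) (b.toTm N)
  | .lt a b => .lt (a.toTm N) (b.toTm N)
  | .le a b => .le (a.toTm N) (b.toTm N)
  | .and φ ψ => .and (φ.toFm N) (ψ.toFm N)
  | .or φ ψ => .or (φ.toFm N) (ψ.toFm N)
  | .not φ => .not (φ.toFm N)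

/-- the sentence of a formula; the number of variables is the size of the code plus `1` -/
def RFm.sent (φ : RFm) : ExSentence := ⟨φ.cd.size + 1, φ.toFm φ.cd.size⟩

/-! ### building blocks -/

/-- difference -/
def RT.sub (a b : RT) : RT := .add a (.mul (.const (-1)) b)

/-- square -/
def RT.sq (a : RT) : RT := .mul a a

/-- conjunction of a list -/
def conjF (l : List RFm) : RFm := l.foldr RFm.and (.eq (.const 0) (.const 0))

/-- disjunction of a list -/
def disjF (l : List RFm) : RFm := l.foldr RFm.or (.lt (.const 0) (.const 0))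

/-- sum of a list -/
def sumT (l : List RT) : RT := l.foldr RT.add (.const 0)

/-- first coordinate of the vertex `v` -/
def tX (v : ℕ) : RT := .var (3 * v)
/-- second coordinate -/
def tY (v : ℕ) : RT := .var (3 * v + 1)
/-- radius -/
def tR (v : ℕ) : RT := .var (3 * v + 2)
/-- first coordinate of the intersection points -/
def tLa (n u w : ℕ) : RT := .var (3 * n + 2 * (n * u + w))
/-- second coordinate of the intersection points -/
def tMu (n u w : ℕ) : RT := .var (3 * n + 2 * (n * u + w) + 1)
/-- indicators for the intersection points -/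
def iI (n σ u w w' : ℕ) : ℕ := 3 * n + 2 * (n * n) + (((σ * n + u) * n + w) * n + w')
/-- indicators for the lowest points -/
def iJ (n u w' : ℕ) : ℕ := 3 * n + 2 * (n * n) + 2 * (n * n * n) + (n * u + w')

/-- squared distance -/
def tD (u w : ℕ) : RT := .add ((tX u).sub (tX w)).sq ((tY u).sub (tY w)).sq

/-- the points near `q` in the direction `J m + 0 m` are in the disk of `w` -/
def cnd (qx qy mx my : RT) (w : ℕ) : RFm :=
  let nx := (tX w).sub qx
  let ny := (tY w).sub qy
  let N := RT.add nx.sq ny.sq
  let j := RT.sub (.mul mx ny) (.mul my nx)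
  let i := RT.add (.mul mx nx) (.mul my ny)
  .or (.lt N (tR w).sq) (.and (.eq N (tR w).sq)
    (.or (.lt (.const 0) j) (.and (.eq j (.const 0)) (.lt (.const 0) i))))

/-- at most `k` disks at the candidate `(q, m)`; the indicators are `b, …, b + n - 1` -/
def cntF (n k b : ℕ) (qx qy mx my : RT) : RFm :=
  .and (conjF ((List.range n).map fun w => .or (.eq (.var (b + w)) (.const 1))
    (.and (.eq (.var (b + w)) (.const 0)) (.not (cnd qx qy mx my w)))))
    (.le (sumT ((List.range n).map fun w => .var (b + w))) (.const k))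

/-- adjacency from the adjacency lists -/
def adjA (A : List (List ℕ)) (v w : ℕ) : Bool := (A.getD v []).any fun x => decide (x = w)

/-- distinct positions -/
def fInj (n : ℕ) : RFm := conjF ((List.range n).flatMap fun u => (List.range n).flatMap fun w =>
  if decide (u = w) then [] else [.lt (.const 0) (tD u w)])

/-- radius of `v` -/
def fRad (A : List (List ℕ)) (n v : ℕ) : RFm :=
  .and (.le (.const 0) (tR v)) (.and
    (conjF ((List.range n).flatMap fun w => if adjA A v w then
      [.le (tD v w) (.mul (.const 4) (tR v).sq)] else []))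
    (.or (.eq (tR v) (.const 0)) (disjF ((List.range n).flatMap fun w => if adjA A v w then
      [.eq (.mul (.const 4) (tR v).sq) (tD v w)] else []))))

/-- the lowest point of the disk of `u` -/
def fLow (n k u : ℕ) : RFm := cntF n k (iJ n u 0) (tX u) ((tY u).sub (tR u)) (.const 0) (tR u)

/-- candidate number `σ ∈ {0, 1}` of the intersection of the circles of `u` and `w`; `c = ± 1` -/
def fInt1 (n k σ : ℕ) (c : ℤ) (u w : ℕ) : RFm :=
  let ex := (tX w).sub (tX u)
  let ey := (tY w).sub (tY u)
  let dx := RT.sub (.mul (tLa n u w) ex) (.mul (.mul (.const c) (tMu n u w)) ey)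
  let dy := RT.add (.mul (tLa n u w) ey) (.mul (.mul (.const c) (tMu n u w)) ex)
  cntF n k (iI n σ u w 0) (.add (tX u) dx) (.add (tY u) dy) (.mul (.const (-1)) dx)
    (.mul (.const (-1)) dy)

/-- the intersection points of the circles of `u` and `w` -/
def fInt (n k u w : ℕ) : RFm :=
  .and (.eq (.mul (.const 2) (.mul (tD u w) (tLa n u w)))
      ((RT.add (tD u w) (tR u).sq).sub (tR w).sq))
    (.or (.lt (tR u).sq (.mul (tLa n u w).sq (tD u w)))
      (.and (.le (.const 0) (tMu n u w)) (.and
        (.eq (.mul (.add (tLa n u w).sq (tMu n u w).sq) (tD u w)) (tR u).sq)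
        (.and (fInt1 n k 0 1 u w) (fInt1 n k 1 (-1) u w)))))

/-- the whole formula -/
def frm (A : List (List ℕ)) (k : ℕ) : RFm :=
  let n := A.length
  .and (fInj n) (.and (conjF ((List.range n).map (fRad A n))) (.and
    (conjF ((List.range n).map (fLow n k)))
    (conjF ((List.range n).flatMap fun u => (List.range n).flatMap fun w =>
      if decide (u = w) then [] else [fInt n k u w]))))

end Pool.Agent.PLN
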