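import Pool.Agent.PLN.Core

/-!
# Adjacency of names

Unfold `adj`, `arc`, `tagOk`; everything is decided by `simp` and `omega` (all coordinates are
natural numbers).  `adj_cases` is the converse: for two names with the same tag, adjacency means
that the difference is one of the twelve vectors.
-/

namespace Pool.Agent.PLN

theorem adj_comm (u v : Nm) : adj u v = adj v u := by
  unfold adj tagOk
  rw [Bool.or_comm (arc v.2 u.2)]
  congr 1
  rcases hu : u.1 <;> rcases hv : v.1 <;> simp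

theorem adj_ne {u v : Nm} (h : adj u v = true) : u ≠ v := by
  rintro rfl
  simp [adj, arc] at h

theorem adj80 (t : Bool) (A B : ℕ) : adj (t, A, B) (t, A + 8, B) = true := by
  simp [adj, arc, tagOk]

theorem adj08 (t : Bool) (A B : ℕ) : adj (t, A, B) (t, A, B + 8) = true := by
  simp [adj, arc, tagOk]

theorem adj57 (t : Bool) (A B : ℕ) : adj (t, A, B) (t, A + 5, B + 7) = true := by
  simp [adj, arc, tagOk]

theorem adj37 (t : Bool) (A B : ℕ) : adj (t, A + 3, B) (t, A, B + 7) = true := by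
  simp [adj, arc, tagOk]

theorem adj75 (t : Bool) (A B : ℕ) : adj (t, A, B) (t, A + 7, B + 5) = true := by
  simp [adj, arc, tagOk]

theorem adj73 (t : Bool) (A B : ℕ) : adj (t, A, B + 3) (t, A + 7, B) = true := by
  simp [adj, arc, tagOk]

/-- adjacency of a lever vertex and a normal vertex -/
theorem adj_lev (A A' : ℕ) (h : A' = A + 5 ∨ A = A' + 3 ) :
    adj (true, A, 18) (false, A', 25) = true := by
  rcases h with rfl | rfl <;> simp [adj, arc, tagOk]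

/-- same tag -/
theorem adj_same (t : Bool) (P Q : ℕ × ℕ) : adj (t, P) (t, Q) = (arc P Q || arc Q P) := by
  simp [adj, tagOk]

theorem arc_iff (P Q : ℕ × ℕ) : arc P Q = true ↔ (Q.1 = P.1 + 8 ∧ Q.2 = P.2) ∨
    (Q.1 = P.1 ∧ Q.2 = P.2 + 8) ∨ (Q.1 = P.1 + 5 ∧ Q.2 = P.2 + 7) ∨
    (P.1 = Q.1 + 3 ∧ Q.2 = P.2 + 7) ∨ (Q.1 = P.1 + 7 ∧ Q.2 = P.2 + 5) ∨
    (Q.1 = P.1 + 7 ∧ P.2 = Q.2 + 3) := by
  simp only [arc, Bool.or_eq_true, Bool.and_eq_true, decide_eq_true_eq, or_assoc]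

/-- adjacent names with different tags -/
theorem adj_diff {P Q : ℕ × ℕ} (h : adj (true, P) (false, Q) = true) :
    P.2 = 18 ∧ Q.2 = 25 ∧ (Q.1 = P.1 + 5 ∨ P.1 = Q.1 + 3) := by
  have h2 : (arc P Q || arc Q P) = true ∧ (P.2 = 18 ∧ Q.2 = 25) := by
    simpa [adj, tagOk] using h
  obtain ⟨h3, h4, h5⟩ := h2
  rw [Bool.or_eq_true, arc_iff, arc_iff] at h3
  refine ⟨h4, h5, ?_⟩
  rcases h3 with (h | h | h | h | h | h) | (h | h | h | h | h | h)
  · omega
  · omega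
  · exact Or.inl h.1
  · exact Or.inr h.1
  all_goals omega

/-- swapping the coordinates -/
theorem arc_swap (P Q : ℕ × ℕ) : arc (P.2, P.1) (Q.2, Q.1) = true →
    (arc P Q || arc Q P) = true := by
  intro h
  rw [arc_iff] at h
  dsimp only at h
  rw [Bool.or_eq_true, arc_iff, arc_iff]
  left
  rcases h with ⟨h, h'⟩ | ⟨h, h'⟩ | ⟨h, h'⟩ | ⟨h, h'⟩ | ⟨h, h'⟩ | ⟨h, h'⟩
  · exact Or.inr (Or.inl ⟨h', h⟩)
  · exact Or.inl ⟨h', h⟩
  · exact Or.inr (Or.inr (Or.inr (Or.inr (Or.inl ⟨h', h⟩))))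
  · exact Or.inr (Or.inr (Or.inr (Or.inr (Or.inr ⟨h', h⟩))))
  · exact Or.inr (Or.inr (Or.inl ⟨h', h⟩))
  · exact Or.inr (Or.inr (Or.inr (Or.inl ⟨h', h⟩)))

end Pool.Agent.PLN
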