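import Pool.Agent.PLN.Nm1
import Pool.Agent.PLN.Nm2
import Pool.Agent.PLN.Cx2

/-!
# Transposition, conjugation, four-cycles

Transposing a layout (exchanging `vb` and `hb`) exchanges the two coordinates of the normal names
(`mem_vN`), and `arc_swap` shows that adjacency is preserved; complex conjugation preserves
distances.  `quad` is `rhomb` for names.
-/

namespace Pool.Agent.PLN

variable {L : Lay} {p : Nm → ℂ}

theorem Nm3_ne {V : List Nm} (hp : Real V p) {a c : Nm} (ha : a ∈ V) (hc : c ∈ V) (hac : a ≠ c) :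
    p a ≠ p c := by
  intro h
  have h1 := hp.sep a ha c hc hac
  rw [h, sub_self, norm_zero] at h1
  linarith

theorem quad {V : List Nm} (hp : Real V p) {a b c d : Nm} (ha : a ∈ V) (hb : b ∈ V) (hc : c ∈ V)
    (hd : d ∈ V) (h1 : adj a b = true) (h2 : adj b c = true) (h3 : adj c d = true)
    (h4 : adj d a = true) (hac : a ≠ c) (hbd : b ≠ d) : p a + p c = p b + p d :=
  rhomb (hp.unit a ha b hb h1) (hp.unit b hb c hc h2) (hp.unit c hc d hd h3)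
    (hp.unit d hd a ha h4) (Nm3_ne hp ha hc hac) (Nm3_ne hp hb hd hbd)

theorem Real.mono {V V' : List Nm} (hp : Real V p) (h : ∀ n ∈ V', n ∈ V) : Real V' p :=
  ⟨fun u hu v hv => hp.unit u (h u hu) v (h v hv), fun u hu v hv => hp.sep u (h u hu) v (h v hv)⟩

theorem Real.conj {V : List Nm} (hp : Real V p) :
    Real V (fun n => (starRingEnd ℂ) (p n)) := by
  constructor
  · intro u hu v hv h
    rw [← map_sub, RCLike.norm_conj]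
    exact hp.unit u hu v hv h
  · intro u hu v hv h
    rw [← map_sub, RCLike.norm_conj]
    exact hp.sep u hu v hv h

theorem Nm3_rects {x y w h : ℕ} : (x, y, w, h) ∈ L.tr.rects ↔ (y, x, h, w) ∈ L.rects := by
  rw [mem_rects, mem_rects]
  simp only [Prod.mk.injEq, Lay.tr]
  constructor
  · rintro (⟨g, c, h1, h2, h3, h4, h5⟩ | ⟨g, c, h1, h2, h3, h4, h5⟩ | ⟨z, h1, h2, h3, h4, h5⟩)
    · exact Or.inr (Or.inl ⟨g, c, h1, h3, h2, h5, h4⟩)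
    · exact Or.inl ⟨g, c, h1, h3, h2, h5, h4⟩
    · exact Or.inr (Or.inr ⟨z, h1, h3, h2, h5, h4⟩)
  · rintro (⟨g, c, h1, h2, h3, h4, h5⟩ | ⟨g, c, h1, h2, h3, h4, h5⟩ | ⟨z, h1, h2, h3, h4, h5⟩)
    · exact Or.inr (Or.inl ⟨g, c, h1, h3, h2, h5, h4⟩)
    · exact Or.inl ⟨g, c, h1, h3, h2, h5, h4⟩
    · exact Or.inr (Or.inr ⟨z, h1, h3, h2, h5, h4⟩)

theorem goodN_tr (hL : L.GoodN) : L.tr.GoodN := by
  refine ⟨?_, ?_, hL.hb2, hL.vb2, hL.tbN, hL.ttN⟩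
  · rintro ⟨x, y, w, h⟩ hr
    rw [Nm3_rects] at hr
    obtain ⟨h1, h2, h3, h4⟩ := hL.inb _ hr
    exact ⟨h2, h1, h4, h3⟩
  · rintro ⟨x, y, w, h⟩ hr ⟨x', y', w', h'⟩ hs hne
    rw [Nm3_rects] at hr hs
    have h5 := hL.sep _ hr _ hs (by
      intro h6
      apply hne
      simp only [Prod.mk.injEq] at h6 ⊢
      exact ⟨h6.2.1, h6.1, h6.2.2.2, h6.2.2.1⟩)
    dsimp only at h5 ⊢
    omega

theorem tr_tr : L.tr.tr = L := by
  cases L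
  rfl

theorem cell_tr {i j : ℕ} : L.tr.cell i j ↔ L.cell j i := by
  constructor
  · rintro ⟨h1, h2, h3⟩
    refine ⟨h2, h1, ?_⟩
    rintro ⟨x, y, w, h⟩ hr h4
    apply h3 (y, x, h, w) (Nm3_rects.mpr hr)
    exact ⟨h4.2.2.1, h4.2.2.2, h4.1, h4.2.1⟩
  · rintro ⟨h1, h2, h3⟩
    refine ⟨h2, h1, ?_⟩
    rintro ⟨x, y, w, h⟩ hr h4
    apply h3 (y, x, h, w) (Nm3_rects.mp hr)
    exact ⟨h4.2.2.1, h4.2.2.2, h4.1, h4.2.1⟩

theorem pres_tr {i j : ℕ} : L.tr.pres i j ↔ L.pres j i := by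
  constructor
  · rintro ⟨h1, h2, h3⟩
    refine ⟨h2, h1, ?_⟩
    rw [inn_false] at h3 ⊢
    rintro ⟨x, y, w, h⟩ hr h4
    apply h3 (y, x, h, w) (Nm3_rects.mpr hr)
    exact ⟨h4.2.2.1, h4.2.2.2, h4.1, h4.2.1⟩
  · rintro ⟨h1, h2, h3⟩
    refine ⟨h2, h1, ?_⟩
    rw [inn_false] at h3 ⊢
    rintro ⟨x, y, w, h⟩ hr h4
    apply h3 (y, x, h, w) (Nm3_rects.mp hr)
    exact ⟨h4.2.2.1, h4.2.2.2, h4.1, h4.2.1⟩

/-- the realisation of the transposed layout -/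
def trP (p : Nm → ℂ) (n : Nm) : ℂ := (starRingEnd ℂ) (p (n.1, n.2.2, n.2.1))

theorem gp_trP (i j : ℕ) : gp (trP p) i j = (starRingEnd ℂ) (gp p j i) := rfl

theorem Nm3_vN {n : Nm} (hn : n ∈ L.tr.vN) : n.1 = false ∧ (n.1, n.2.2, n.2.1) ∈ L.vN := by
  rw [mem_vN] at hn
  rcases hn with ⟨i, j, h, rfl⟩ | ⟨g, c, h, a, b, hab, rfl⟩ | ⟨g, c, h, a, b, hab, rfl⟩ |
    ⟨i, h, rfl⟩ | ⟨i, h, rfl⟩ | ⟨i, h, rfl⟩ | ⟨i, h, rfl⟩
  · exact ⟨rfl, mem_vN.mpr (Or.inl ⟨j, i, pres_tr.mp h, rfl⟩)⟩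
  · exact ⟨rfl, mem_vN.mpr (Or.inr (Or.inr (Or.inl ⟨g, c, h, a, b, hab, rfl⟩)))⟩
  · exact ⟨rfl, mem_vN.mpr (Or.inr (Or.inl ⟨g, c, h, a, b, hab, rfl⟩))⟩
  · exact ⟨rfl, mem_vN.mpr (Or.inr (Or.inr (Or.inr (Or.inr (Or.inl ⟨i, h, rfl⟩)))))⟩
  · exact ⟨rfl, mem_vN.mpr (Or.inr (Or.inr (Or.inr (Or.inl ⟨i, h, rfl⟩))))⟩
  · exact ⟨rfl, mem_vN.mpr (Or.inr (Or.inr (Or.inr (Or.inr (Or.inr (Or.inr ⟨i, h, rfl⟩))))))⟩
  · exact ⟨rfl, mem_vN.mpr (Or.inr (Or.inr (Or.inr (Or.inr (Or.inr (Or.inl ⟨i, h, rfl⟩))))))⟩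

theorem Real.tr (hp : Real L.vN p) : Real L.tr.vN (trP p) := by
  constructor
  · intro u hu v hv h
    obtain ⟨hu1, hu2⟩ := Nm3_vN hu
    obtain ⟨hv1, hv2⟩ := Nm3_vN hv
    obtain ⟨t, A, B⟩ := u
    obtain ⟨t', A', B'⟩ := v
    dsimp only at hu1 hv1 hu2 hv2
    subst hu1 hv1
    unfold trP
    rw [← map_sub, RCLike.norm_conj]
    apply hp.unit _ hu2 _ hv2
    rw [adj_same] at h ⊢
    rw [Bool.or_eq_true] at h
    rcases h with h | h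
    · exact arc_swap (B, A) (B', A') h
    · rw [Bool.or_comm]
      exact arc_swap (B', A') (B, A) h
  · intro u hu v hv h
    obtain ⟨hu1, hu2⟩ := Nm3_vN hu
    obtain ⟨hv1, hv2⟩ := Nm3_vN hv
    unfold trP
    rw [← map_sub, RCLike.norm_conj]
    apply hp.sep _ hu2 _ hv2
    intro h1
    apply h
    simp only [Prod.mk.injEq] at h1
    exact Prod.ext h1.1 (Prod.ext h1.2.2 h1.2.1)

end Pool.Agent.PLN
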