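import Pool.Agent.PLN.Ly2

/-!
# The signal of every line

`I.sig κ f i`: the signal of the line number `i`, where `f` gives the signals of the groups in the
central region.  Lines which belong to no bundle and no group have the signal `0`.
All proofs: unfold `sig`, and compute `/` and `%` (`Nat.add_mul_div_left`,
`Nat.div_eq_of_lt_le`, `Nat.add_mul_mod_self_left`, `Nat.mod_eq_of_lt`; `13` is a literal, so
`omega` can do the central region: `gx x + a - X0 = 13 (x/6) + (2 (x%6) + a)`).
-/

namespace Pool.Agent.PLN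

namespace UV

/-- signal of the line `i` -/
def sig (I : UV) (κ : ℕ) (f : ℕ → ℕ) (i : ℕ) : ℕ :=
  if i < I.off κ 1 then 0
  else if i < I.X0 κ then
    (if (i - (κ + 10)) % (I.W + 1) < I.W then (i - (κ + 10)) / (I.W + 1) else 0)
  else if i < I.X1 κ then
    (if (i - I.X0 κ) % 13 < 12 then f (6 * ((i - I.X0 κ) / 13) + (i - I.X0 κ) % 13 / 2) else 0)
  else (if (i - I.X1 κ) % (I.W + 1) < I.W then (i - I.X1 κ) / (I.W + 1) else 0)

variable {I : UV} {κ i : ℕ} {f g : ℕ → ℕ}

private theorem dm {w j k : ℕ} (hk : k < w) : (j * (w + 1) + k) % (w + 1) = k ∧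
    (j * (w + 1) + k) / (w + 1) = j := by
  constructor
  · rw [Nat.add_comm, Nat.add_mul_mod_self_right, Nat.mod_eq_of_lt (by omega)]
  · rw [Nat.add_comm, Nat.add_mul_div_right _ _ (by omega), Nat.div_eq_of_lt (by omega),
      Nat.zero_add]

theorem sig_off (hI : I.Ok) {j k : ℕ} (hj : j < I.m) (hk : k < I.W) :
    I.sig κ f (I.off κ j + k) = j := by
  rcases Nat.eq_zero_or_pos j with rfl | h1
  · rw [off_zero, Nat.zero_add]
    unfold sig
    rw [if_pos]
    rw [off_one]
    omega
  · have a1 := off_one_le (I := I) (κ := κ) h1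
    have a2 := off_X0 (I := I) (κ := κ) hj
    have a3 : I.off κ j = j * (I.W + 1) + (κ + 10) := by
      unfold off
      rw [if_neg (by omega)]
    have a4 : I.off κ j + k - (κ + 10) = j * (I.W + 1) + k := by omega
    have a5 := dm (j := j) hk
    unfold sig
    rw [if_neg (by omega), if_pos (by omega), a4, a5.1, a5.2, if_pos hk]

private theorem off_one_X0 (hI : I.Ok) : I.off κ 1 ≤ I.X0 κ := by
  have := off_X0 (I := I) (κ := κ) (j := 1) (by have := hI.m2; omega)
  omega

theorem sig_off' (hI : I.Ok) {j k : ℕ} (hk : k < I.W) : I.sig κ f (I.off' κ j + k) = j := by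
  have a1 := off_one_X0 (κ := κ) hI
  have a2 := X1_eq (I := I) (κ := κ)
  have a3 : I.off' κ j = I.X1 κ + j * (I.W + 1) := rfl
  have a4 : I.off' κ j + k - I.X1 κ = j * (I.W + 1) + k := by omega
  have a5 := dm (j := j) hk
  unfold sig
  rw [if_neg (by omega), if_neg (by omega), if_neg (by omega), a4, a5.1, a5.2, if_pos hk]

theorem sig_gx (hI : I.Ok) {x a : ℕ} (hx : x < I.G) (ha : a < 2) :
    I.sig κ f (I.gx κ x + a) = f x := by
  have a1 := off_one_X0 (κ := κ) hI
  have a2 := gx_le (κ := κ) hI hx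
  have a3 := gx_eq (I := I) (κ := κ) x
  have a4 : I.gx κ x + a - I.X0 κ = 13 * (x / 6) + (2 * (x % 6) + a) := by omega
  have a6 : (13 * (x / 6) + (2 * (x % 6) + a)) % 13 = 2 * (x % 6) + a := by omega
  have a7 : 6 * ((13 * (x / 6) + (2 * (x % 6) + a)) / 13) + (2 * (x % 6) + a) / 2 = x := by omega
  unfold sig
  rw [if_neg (by omega), if_neg (by omega), if_pos (by omega), a4, a6, if_pos (by omega), a7]

theorem sig_Z {i : ℕ} (h : i < I.off κ 1) : I.sig κ f i = 0 := by
  unfold sig
  rw [if_pos h]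

theorem sig_lt (hI : I.Ok) (hf : ∀ x, f x < I.m) {i : ℕ} (hi : i < I.NN κ) :
    I.sig κ f i < I.m := by
  have hm := hI.m2
  have a1 := off_one_X0 (κ := κ) hI
  have a2 := off_one (I := I) (κ := κ)
  unfold sig
  split_ifs with h1 h2 h3 h4 h5 h6
  · omega
  · have a3 : I.X0 κ = I.m * (I.W + 1) + (κ + 10) := by
      unfold X0 off
      rw [if_neg (by omega)]
    exact (Nat.div_lt_iff_lt_mul (by omega)).mpr (by omega)
  · omega
  · exact hf _
  · omega
  · have a3 : I.NN κ = I.X1 κ + I.m * (I.W + 1) := rfl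
    exact (Nat.div_lt_iff_lt_mul (by omega)).mpr (by omega)
  · omega

/-- outside of the central region `f` does not matter -/
theorem sig_out (h : i < I.X0 κ ∨ I.X1 κ ≤ i) : I.sig κ f i = I.sig κ g i := by
  unfold sig
  split_ifs <;> first | rfl | omega

/-- on the lines between the central holes `f` does not matter -/
theorem sig_fil (h : (i - I.X0 κ) % 13 = 12) (h0 : I.X0 κ ≤ i) : I.sig κ f i = I.sig κ g i := by
  unfold sig
  split_ifs <;> first | rfl | omega

/-- two consecutive ties have the same signal -/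
theorem sig_tb (hI : I.Ok) {i : ℕ} (h : i ∈ (I.lay κ).tb) (h' : i + 1 ∈ (I.lay κ).tb) :
    I.sig κ f (i + 1) = I.sig κ f i := by
  obtain ⟨j, hj, k, hk, e⟩ := mem_tb.mp h
  obtain ⟨j', hj', k', hk', e'⟩ := mem_tb.mp h'
  have b1 := off_X0 (I := I) (κ := κ) hj
  have b2 := off_X0 (I := I) (κ := κ) hj'
  have b3 := X1_eq (I := I) (κ := κ)
  have b4 := off'_X1 (I := I) (κ := κ) j
  have b5 := off'_X1 (I := I) (κ := κ) j'
  rcases e with e | e <;> rcases e' with e' | e'
  · have hjj : j = j' := by
      rcases Nat.lt_trichotomy j j' with c | c | c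
      · have := off_lt (I := I) (κ := κ) c
        omega
      · exact c
      · have := off_lt (I := I) (κ := κ) c
        omega
    rw [e', e, sig_off hI hj' hk', sig_off hI hj hk, hjj]
  · omega
  · omega
  · have hjj : j = j' := by
      rcases Nat.lt_trichotomy j j' with c | c | c
      · have := off'_lt (I := I) (κ := κ) c
        omega
      · exact c
      · have := off'_lt (I := I) (κ := κ) c
        omega
    rw [e', e, sig_off' hI hk', sig_off' hI hk, hjj]

theorem sig_tt (hI : I.Ok) {i : ℕ} (h : i ∈ (I.lay κ).tt) (h' : i + 1 ∈ (I.lay κ).tt) :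
    I.sig κ f (i + 1) = I.sig κ f i := by
  rcases mem_tt.mp h with h | ⟨k, hk, e⟩
  · rcases mem_tt.mp h' with h' | ⟨k, hk, e⟩
    · exact sig_tb hI h h'
    · have := off_one (I := I) (κ := κ)
      rw [sig_Z (by omega), sig_Z (by omega)]
  · have := off_one (I := I) (κ := κ)
    rw [sig_Z (by omega), sig_Z (by omega)]

end UV

end Pool.Agent.PLN
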