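import Pool.Agent.PLN.Po1

/-!
# Positions of the grid vertices

`ps i j = ∑_{i' < i} s (sb i') + rho ∑_{j' < j} s (sl j') + ∑_{e < E} cor e i j`, where `cor e` is
the correction for the central hole number `e`.
-/

namespace Pool.Agent.PLN

noncomputable section

namespace UV

/-- sum of the horizontal corrections of the first `n` columns of the hole `e` -/
def cT (I : UV) (κ : ℕ) (s : ℕ → ℂ) (e n : ℕ) : ℂ :=
  ∑ k ∈ Finset.range (min n 12), (s (I.sig κ I.tp (I.X0 κ + 13 * e + k)) -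
    s (I.sig κ I.bt (I.X0 κ + 13 * e + k)))

/-- sum of the vertical corrections of the first `n` rows of the hole `e` -/
def cR (I : UV) (κ : ℕ) (s : ℕ → ℂ) (e n : ℕ) : ℂ :=
  ∑ k ∈ Finset.range (min n 12), (s (I.sig κ I.rg (I.X0 κ + 13 * e + k)) -
    s (I.sig κ I.lf (I.X0 κ + 13 * e + k)))

/-- correction of the hole `e` -/
def cor (I : UV) (κ : ℕ) (s : ℕ → ℂ) (e i j : ℕ) : ℂ :=
  if I.X0 κ + 13 * e + 12 ≤ j then I.cT κ s e (i - (I.X0 κ + 13 * e))
  else if I.X0 κ + 13 * e + 12 ≤ i then rho * I.cR κ s e (j - (I.X0 κ + 13 * e))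
  else 0

/-- positions of the grid vertices -/
def ps (I : UV) (κ : ℕ) (s : ℕ → ℂ) (i j : ℕ) : ℂ :=
  ∑ a ∈ Finset.range i, s (I.sig κ I.bt a) + rho * ∑ a ∈ Finset.range j, s (I.sig κ I.lf a) +
    ∑ e ∈ Finset.range I.E, I.cor κ s e i j

variable {I : UV} {κ : ℕ} {s : ℕ → ℂ}

private lemma po2_tel (X E : ℕ) (d : ℕ → ℂ)
    (hd : ∀ a, (a < X ∨ X + 13 * E ≤ a ∨ (X ≤ a ∧ (a - X) % 13 = 12)) → d a = 0) (i : ℕ) :
    ∑ e ∈ Finset.range E, ∑ k ∈ Finset.range (min (i - (X + 13 * e)) 12), d (X + 13 * e + k) =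
      ∑ a ∈ Finset.range i, d a := by
  induction i with
  | zero => simp
  | succ i ih =>
    have hstep : ∀ e ∈ Finset.range E,
        ∑ k ∈ Finset.range (min (i + 1 - (X + 13 * e)) 12), d (X + 13 * e + k) =
        ∑ k ∈ Finset.range (min (i - (X + 13 * e)) 12), d (X + 13 * e + k) +
          (if X + 13 * e ≤ i ∧ i < X + 13 * e + 12 then d i else 0) := by
      intro e _
      by_cases h : X + 13 * e ≤ i ∧ i < X + 13 * e + 12
      · rw [if_pos h]
        have h1 : min (i + 1 - (X + 13 * e)) 12 = min (i - (X + 13 * e)) 12 + 1 := by omega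
        have h2 : min (i - (X + 13 * e)) 12 = i - (X + 13 * e) := by omega
        rw [h1, Finset.sum_range_succ]
        congr 2
        omega
      · rw [if_neg h, add_zero]
        have h1 : min (i + 1 - (X + 13 * e)) 12 = min (i - (X + 13 * e)) 12 := by omega
        rw [h1]
    rw [Finset.sum_congr rfl hstep, Finset.sum_add_distrib, ih, Finset.sum_range_succ]
    congr 1
    by_cases h : i < X ∨ X + 13 * E ≤ i ∨ (X ≤ i ∧ (i - X) % 13 = 12)
    · rw [hd i h]
      refine Finset.sum_eq_zero fun e _ => ?_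
      split_ifs <;> rfl
    · have h1 : ∀ e ∈ Finset.range E,
          (if X + 13 * e ≤ i ∧ i < X + 13 * e + 12 then d i else 0) =
          (if (i - X) / 13 = e then d i else 0) := by
        intro e he
        rw [Finset.mem_range] at he
        congr 1
        rw [eq_iff_iff]
        omega
      rw [Finset.sum_congr rfl h1, Finset.sum_ite_eq]
      rw [if_pos]
      rw [Finset.mem_range]
      omega

private lemma po2_d (f g : ℕ → ℕ) (a : ℕ)
    (h : a < I.X0 κ ∨ I.X0 κ + 13 * I.E ≤ a ∨ (I.X0 κ ≤ a ∧ (a - I.X0 κ) % 13 = 12)) :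
    s (I.sig κ f a) - s (I.sig κ g a) = 0 := by
  rcases h with h | h | ⟨h1, h2⟩
  · rw [sig_out (f := f) (g := g) (Or.inl h), sub_self]
  · rw [sig_out (f := f) (g := g) (Or.inr h), sub_self]
  · rw [sig_fil (f := f) (g := g) h2 h1, sub_self]

private lemma po2_sumT (i : ℕ) :
    ∑ e ∈ Finset.range I.E, I.cT κ s e (i - (I.X0 κ + 13 * e)) =
      ∑ a ∈ Finset.range i, (s (I.sig κ I.tp a) - s (I.sig κ I.bt a)) :=
  po2_tel (I.X0 κ) I.E (fun a => s (I.sig κ I.tp a) - s (I.sig κ I.bt a))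
    (fun a h => po2_d _ _ a h) i

private lemma po2_sumR (i : ℕ) :
    ∑ e ∈ Finset.range I.E, I.cR κ s e (i - (I.X0 κ + 13 * e)) =
      ∑ a ∈ Finset.range i, (s (I.sig κ I.rg a) - s (I.sig κ I.lf a)) :=
  po2_tel (I.X0 κ) I.E (fun a => s (I.sig κ I.rg a) - s (I.sig κ I.lf a))
    (fun a h => po2_d _ _ a h) i

private lemma po2_cT_zero (e : ℕ) : I.cT κ s e 0 = 0 := by simp [cT]

private lemma po2_cR_zero (e : ℕ) : I.cR κ s e 0 = 0 := by simp [cR]

private lemma po2_cT_ge {e n : ℕ} (h : 12 ≤ n) : I.cT κ s e n = I.cT κ s e 12 := by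
  unfold cT
  rw [min_eq_right h, min_self]

private lemma po2_cR_ge {e n : ℕ} (h : 12 ≤ n) : I.cR κ s e n = I.cR κ s e 12 := by
  unfold cR
  rw [min_eq_right h, min_self]

private lemma po2_pair (g : ℕ → ℂ) :
    ∑ k ∈ Finset.range 12, g k = ∑ a ∈ Finset.range 6, (g (2 * a) + g (2 * a + 1)) := by
  simp only [Finset.sum_range_succ, Finset.sum_range_zero]
  norm_num
  ring

private lemma po2_sig (hI : I.Ok) {e : ℕ} (he : e < I.E) {a b : ℕ} (ha : a < 6) (hb : b < 2)
    (f : ℕ → ℕ) : I.sig κ f (I.X0 κ + 13 * e + (2 * a + b)) = f (6 * e + a) := by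
  have hG : 6 * e + a < I.G := by
    unfold E at he
    unfold G
    omega
  have h := sig_gx (κ := κ) (f := f) hI hG hb
  rw [← h]
  congr 1
  unfold gx
  omega

/-- the equation of the hole: with `sig_gx`, `cT e 12 = 2 ∑_k (s (tp (6e+k)) - s (bt (6e+k)))` and
`cR e 12 = 2 ∑_k (s (rg (6e+k)) - s (lf (6e+k)))`; `Sol.eqn` -/
theorem cT_cR (hI : I.Ok) (hs : I.Sol s) {e : ℕ} (he : e < I.E) :
    I.cT κ s e 12 = rho * I.cR κ s e 12 := by
  have hT : I.cT κ s e 12 =
      ∑ a ∈ Finset.range 6, 2 * (s (I.tp (6 * e + a)) - s (I.bt (6 * e + a))) := by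
    unfold cT
    rw [min_self, po2_pair]
    refine Finset.sum_congr rfl fun a ha => ?_
    rw [Finset.mem_range] at ha
    have h0 := fun f => po2_sig (κ := κ) hI he ha (show 0 < 2 by norm_num) f
    have h1 := fun f => po2_sig (κ := κ) hI he ha (show 1 < 2 by norm_num) f
    simp only [add_zero] at h0
    rw [h0, h0, h1, h1]
    ring
  have hR : I.cR κ s e 12 =
      ∑ a ∈ Finset.range 6, 2 * (s (I.rg (6 * e + a)) - s (I.lf (6 * e + a))) := by
    unfold cR
    rw [min_self, po2_pair]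
    refine Finset.sum_congr rfl fun a ha => ?_
    rw [Finset.mem_range] at ha
    have h0 := fun f => po2_sig (κ := κ) hI he ha (show 0 < 2 by norm_num) f
    have h1 := fun f => po2_sig (κ := κ) hI he ha (show 1 < 2 by norm_num) f
    simp only [add_zero] at h0
    rw [h0, h0, h1, h1]
    ring
  have he' : e < I.q.length / 6 := he
  have hq := hs.eqn e he'
  rw [hT, hR, ← Finset.mul_sum, ← Finset.mul_sum]
  have h3 : ∑ k ∈ Finset.range 6, (s (I.tp (6 * e + k)) - s (I.bt (6 * e + k))) =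
      -∑ k ∈ Finset.range 6, (s (I.bt (6 * e + k)) - s (I.tp (6 * e + k))) := by
    rw [← Finset.sum_neg_distrib]
    refine Finset.sum_congr rfl fun k _ => ?_
    ring
  rw [h3]
  linear_combination (-2) * hq

/-- below the central region: every `cor` is `0` (`cR e 0 = 0`) -/
theorem ps_low {i j : ℕ} (hj : j ≤ I.X0 κ) : I.ps κ s i j =
    ∑ a ∈ Finset.range i, s (I.sig κ I.bt a) + rho * ∑ a ∈ Finset.range j, s (I.sig κ I.lf a) := by
  have h1 : ∑ e ∈ Finset.range I.E, I.cor κ s e i j = 0 := by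
    refine Finset.sum_eq_zero fun e _ => ?_
    unfold cor
    rw [if_neg (by omega)]
    split_ifs
    · rw [show j - (I.X0 κ + 13 * e) = 0 by omega, po2_cR_zero, mul_zero]
    · rfl
  unfold ps
  rw [h1, add_zero]

/-- to the left of the central region -/
theorem ps_lft {i j : ℕ} (hi : i ≤ I.X0 κ) : I.ps κ s i j =
    ∑ a ∈ Finset.range i, s (I.sig κ I.bt a) + rho * ∑ a ∈ Finset.range j, s (I.sig κ I.lf a) := by
  have h1 : ∑ e ∈ Finset.range I.E, I.cor κ s e i j = 0 := by
    refine Finset.sum_eq_zero fun e _ => ?_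
    unfold cor
    split_ifs with h1 h2
    · rw [show i - (I.X0 κ + 13 * e) = 0 by omega, po2_cT_zero]
    · omega
    · rfl
  unfold ps
  rw [h1, add_zero]

/-- above the central region: `∑_{a<i} (s (tp-signal) - s (bt-signal)) = ∑_e cT e (i - x_e)`;
induction on `i` (the summand vanishes outside of the central holes by `sig_out`, `sig_fil`) -/
theorem ps_upp {i j : ℕ} (hj : I.X1 κ ≤ j) : I.ps κ s i j =
    ∑ a ∈ Finset.range i, s (I.sig κ I.tp a) + rho * ∑ a ∈ Finset.range j, s (I.sig κ I.lf a) := by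
  have h1 : ∑ e ∈ Finset.range I.E, I.cor κ s e i j =
      ∑ e ∈ Finset.range I.E, I.cT κ s e (i - (I.X0 κ + 13 * e)) := by
    refine Finset.sum_congr rfl fun e he => ?_
    rw [Finset.mem_range] at he
    unfold cor
    rw [if_pos]
    unfold X1 at hj
    omega
  unfold ps
  rw [h1, po2_sumT, Finset.sum_sub_distrib]
  ring

/-- to the right of the central region: with `cT_cR`, `cor e i j = rho * cR e (j - x_e)` -/
theorem ps_rgt (hI : I.Ok) (hs : I.Sol s) {i j : ℕ} (hi : I.X1 κ ≤ i) : I.ps κ s i j =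
    ∑ a ∈ Finset.range i, s (I.sig κ I.bt a) + rho * ∑ a ∈ Finset.range j, s (I.sig κ I.rg a) := by
  have h1 : ∑ e ∈ Finset.range I.E, I.cor κ s e i j =
      ∑ e ∈ Finset.range I.E, rho * I.cR κ s e (j - (I.X0 κ + 13 * e)) := by
    refine Finset.sum_congr rfl fun e he => ?_
    rw [Finset.mem_range] at he
    have hi' : I.X0 κ + 13 * e + 12 ≤ i := by
      unfold X1 at hi
      omega
    unfold cor
    split_ifs with h2
    · rw [po2_cT_ge (by omega), cT_cR hI hs he, po2_cR_ge (n := j - (I.X0 κ + 13 * e)) (by omega)]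
    · rfl
  unfold ps
  rw [h1, ← Finset.mul_sum, po2_sumR, Finset.sum_sub_distrib]
  ring

end UV

end

end Pool.Agent.PLN
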