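import Pool.Agent.PLN.Po2
import Pool.Agent.PLN.Cx1

/-!
# All present edges of the grid are unit vectors

Horizontal edge from `(i, j)` to `(i + 1, j)`, both present.  Put `x = X0 + 13 e`.
`cor e (i+1) j - cor e i j` is
* for `x + 12 ≤ j`: `cT e (i+1-x) - cT e (i-x)`, which is `s (tp-sig i) - s (bt-sig i)` if
  `x ≤ i < x + 12` and `0` otherwise;
* for `j < x + 12`: `0`, unless `i + 1 = x + 12`, when it is `rho * cR e (j - x)`; this is `0` if
  `j ≤ x`, and if `x < j`, the vertex `(i, j) = (x + 11, j)` is in the interior of the hole, so not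
  present (`mem_rectsL`, `inn_false`).
The intervals `[x, x+12)` are disjoint for different `e`, so the step is `s (bt-sig i)` or
`s (tp-sig i)`; both have modulus `1` (`Sol.nrm`, `sig_lt`).
Vertical edges: similarly; for `j + 1 = x + 12` and `x + 12 ≤ i` use `cT_cR`, and for
`j + 1 = x + 12` and `x < i < x + 12` the vertex `(i, j)` is not present.
-/

namespace Pool.Agent.PLN

namespace UV

variable {I : UV} {κ : ℕ} {s : ℕ → ℂ}

theorem Po3_aux (f : ℕ → ℂ) (x i : ℕ) :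
    ∑ k ∈ Finset.range (min (i + 1 - x) 12), f (x + k) -
      ∑ k ∈ Finset.range (min (i - x) 12), f (x + k) =
    if x ≤ i ∧ i < x + 12 then f i else 0 := by
  by_cases h : x ≤ i ∧ i < x + 12
  · rw [if_pos h]
    have h1 : min (i + 1 - x) 12 = (i - x) + 1 := by omega
    have h2 : min (i - x) 12 = i - x := by omega
    rw [h1, h2, Finset.sum_range_succ, add_sub_cancel_left, Nat.add_sub_cancel' h.1]
  · rw [if_neg h]
    have h1 : min (i + 1 - x) 12 = min (i - x) 12 := by omega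
    rw [h1, sub_self]

theorem Po3_pres {i j e : ℕ} (he : e < I.E) (h : (I.lay κ).pres i j) :
    ¬ (I.X0 κ + 13 * e < i ∧ i < I.X0 κ + 13 * e + 12 ∧ I.X0 κ + 13 * e < j ∧
      j < I.X0 κ + 13 * e + 12) := by
  have hr : (I.X0 κ + 13 * e, I.X0 κ + 13 * e, 12, 12) ∈ (I.lay κ).rects :=
    mem_rectsL.mpr (Or.inr (Or.inr (Or.inr (Or.inr (Or.inr (Or.inr (Or.inr ⟨e, he, rfl⟩)))))))
  exact inn_false.mp h.2.2 _ hr

theorem Po3_corH {i j e : ℕ} (he : e < I.E) (h : (I.lay κ).pres i j) :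
    I.cor κ s e (i + 1) j - I.cor κ s e i j =
      if I.X0 κ + 13 * e + 12 ≤ j ∧ (I.X0 κ + 13 * e ≤ i ∧ i < I.X0 κ + 13 * e + 12) then
        s (I.sig κ I.tp i) - s (I.sig κ I.bt i) else 0 := by
  have hp := Po3_pres he h
  have haux := Po3_aux (fun a => s (I.sig κ I.tp a) - s (I.sig κ I.bt a)) (I.X0 κ + 13 * e) i
  unfold cor
  by_cases h1 : I.X0 κ + 13 * e + 12 ≤ j
  · rw [if_pos h1, if_pos h1]
    unfold cT
    rw [haux]
    by_cases h2 : I.X0 κ + 13 * e ≤ i ∧ i < I.X0 κ + 13 * e + 12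
    · rw [if_pos h2, if_pos ⟨h1, h2⟩]
    · rw [if_neg h2, if_neg (fun h3 => h2 h3.2)]
  · have hno : ¬ (I.X0 κ + 13 * e + 12 ≤ j ∧ (I.X0 κ + 13 * e ≤ i ∧
        i < I.X0 κ + 13 * e + 12)) := fun h3 => h1 h3.1
    rw [if_neg h1, if_neg h1, if_neg hno]
    by_cases h2 : I.X0 κ + 13 * e + 12 ≤ i
    · rw [if_pos (by omega : I.X0 κ + 13 * e + 12 ≤ i + 1), if_pos h2, sub_self]
    · rw [if_neg h2, sub_zero]
      by_cases h3 : I.X0 κ + 13 * e + 12 ≤ i + 1
      · rw [if_pos h3]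
        have h4 : j - (I.X0 κ + 13 * e) = 0 := by omega
        rw [h4]
        simp [cR]
      · rw [if_neg h3]

theorem Po3_corV (hI : I.Ok) (hs : I.Sol s) {i j e : ℕ} (he : e < I.E)
    (h : (I.lay κ).pres i j) :
    I.cor κ s e i (j + 1) - I.cor κ s e i j =
      if I.X0 κ + 13 * e + 12 ≤ i ∧ (I.X0 κ + 13 * e ≤ j ∧ j < I.X0 κ + 13 * e + 12) then
        rho * (s (I.sig κ I.rg j) - s (I.sig κ I.lf j)) else 0 := by
  have hp := Po3_pres he h
  have haux := Po3_aux (fun a => s (I.sig κ I.rg a) - s (I.sig κ I.lf a)) (I.X0 κ + 13 * e) j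
  unfold cor
  by_cases h1 : I.X0 κ + 13 * e + 12 ≤ j
  · rw [if_pos (by omega : I.X0 κ + 13 * e + 12 ≤ j + 1), if_pos h1, sub_self,
      if_neg (by omega)]
  · rw [if_neg h1]
    by_cases h2 : I.X0 κ + 13 * e + 12 ≤ i
    · rw [if_pos h2, if_pos h2]
      have hR : I.cR κ s e (j + 1 - (I.X0 κ + 13 * e)) - I.cR κ s e (j - (I.X0 κ + 13 * e)) =
          if I.X0 κ + 13 * e ≤ j ∧ j < I.X0 κ + 13 * e + 12 then
            s (I.sig κ I.rg j) - s (I.sig κ I.lf j) else 0 := haux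
      have hfin : rho * I.cR κ s e (j + 1 - (I.X0 κ + 13 * e)) -
          rho * I.cR κ s e (j - (I.X0 κ + 13 * e)) =
          if I.X0 κ + 13 * e + 12 ≤ i ∧ (I.X0 κ + 13 * e ≤ j ∧ j < I.X0 κ + 13 * e + 12) then
            rho * (s (I.sig κ I.rg j) - s (I.sig κ I.lf j)) else 0 := by
        rw [← mul_sub, hR]
        by_cases h3 : I.X0 κ + 13 * e ≤ j ∧ j < I.X0 κ + 13 * e + 12
        · rw [if_pos h3, if_pos ⟨h2, h3⟩]
        · rw [if_neg h3, if_neg (fun h4 => h3 h4.2), mul_zero]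
      by_cases h3 : I.X0 κ + 13 * e + 12 ≤ j + 1
      · rw [if_pos h3, ← hfin]
        have h4 : I.cT κ s e (i - (I.X0 κ + 13 * e)) = I.cT κ s e 12 := by
          unfold cT
          rw [(by omega : min (i - (I.X0 κ + 13 * e)) 12 = min 12 12)]
        have h5 : j + 1 - (I.X0 κ + 13 * e) = 12 := by omega
        rw [h4, h5, cT_cR hI hs he]
      · rw [if_neg h3, ← hfin]
    · have hno : ¬ (I.X0 κ + 13 * e + 12 ≤ i ∧ (I.X0 κ + 13 * e ≤ j ∧
          j < I.X0 κ + 13 * e + 12)) := fun h3 => h2 h3.1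
      rw [if_neg h2, if_neg h2, if_neg hno, sub_zero]
      by_cases h3 : I.X0 κ + 13 * e + 12 ≤ j + 1
      · rw [if_pos h3]
        have h4 : i - (I.X0 κ + 13 * e) = 0 := by omega
        rw [h4]
        simp [cT]
      · rw [if_neg h3]

theorem Po3_sum (d : ℕ → Prop) [DecidablePred d] (hd : ∀ e e', d e → d e' → e = e') (E : ℕ)
    (c : ℂ) : ∑ e ∈ Finset.range E, (if d e then c else 0) = 0 ∨
      ∑ e ∈ Finset.range E, (if d e then c else 0) = c := by
  by_cases h : ∃ e0, e0 ∈ Finset.range E ∧ d e0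
  · obtain ⟨e0, he0, hd0⟩ := h
    right
    rw [Finset.sum_eq_single e0]
    · rw [if_pos hd0]
    · intro e _ hne
      rw [if_neg (fun h1 => hne (hd e e0 h1 hd0))]
    · intro h1
      exact absurd he0 h1
  · left
    apply Finset.sum_eq_zero
    intro e he
    rw [if_neg (fun h1 => h ⟨e, he, h1⟩)]

theorem ps_hs (hI : I.Ok) (hs : I.Sol s) {i j : ℕ} (h1 : (I.lay κ).pres i j)
    (h2 : (I.lay κ).pres (i + 1) j) : Pool.Agent.PLN.hs (I.ps κ s) i j = s (I.sig κ I.bt i) ∨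
      Pool.Agent.PLN.hs (I.ps κ s) i j = s (I.sig κ I.tp i) := by
  have hE : Pool.Agent.PLN.hs (I.ps κ s) i j = s (I.sig κ I.bt i) +
      ∑ e ∈ Finset.range I.E, (if I.X0 κ + 13 * e + 12 ≤ j ∧ (I.X0 κ + 13 * e ≤ i ∧
        i < I.X0 κ + 13 * e + 12) then s (I.sig κ I.tp i) - s (I.sig κ I.bt i) else 0) := by
    rw [← Finset.sum_congr rfl (fun e he => Po3_corH (Finset.mem_range.mp he) h1),
      Finset.sum_sub_distrib]
    unfold Pool.Agent.PLN.hs ps
    rw [Finset.sum_range_succ]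
    ring
  rcases Po3_sum (fun e => I.X0 κ + 13 * e + 12 ≤ j ∧ (I.X0 κ + 13 * e ≤ i ∧
      i < I.X0 κ + 13 * e + 12)) (fun e e' h3 h4 => by omega) I.E
      (s (I.sig κ I.tp i) - s (I.sig κ I.bt i)) with h3 | h3
  · left
    rw [hE, h3, add_zero]
  · right
    rw [hE, h3]
    ring

theorem ps_vs (hI : I.Ok) (hs : I.Sol s) {i j : ℕ} (h1 : (I.lay κ).pres i j)
    (h2 : (I.lay κ).pres i (j + 1)) : vs (I.ps κ s) i j = rho * s (I.sig κ I.lf j) ∨
      vs (I.ps κ s) i j = rho * s (I.sig κ I.rg j) := by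
  have hE : vs (I.ps κ s) i j = rho * s (I.sig κ I.lf j) +
      ∑ e ∈ Finset.range I.E, (if I.X0 κ + 13 * e + 12 ≤ i ∧ (I.X0 κ + 13 * e ≤ j ∧
        j < I.X0 κ + 13 * e + 12) then
          rho * (s (I.sig κ I.rg j) - s (I.sig κ I.lf j)) else 0) := by
    rw [← Finset.sum_congr rfl (fun e he => Po3_corV hI hs (Finset.mem_range.mp he) h1),
      Finset.sum_sub_distrib]
    unfold vs ps
    rw [Finset.sum_range_succ]
    ring
  rcases Po3_sum (fun e => I.X0 κ + 13 * e + 12 ≤ i ∧ (I.X0 κ + 13 * e ≤ j ∧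
      j < I.X0 κ + 13 * e + 12)) (fun e e' h3 h4 => by omega) I.E
      (rho * (s (I.sig κ I.rg j) - s (I.sig κ I.lf j))) with h3 | h3
  · left
    rw [hE, h3, add_zero]
  · right
    rw [hE, h3]
    ring

theorem ps_hu (hI : I.Ok) (hs : I.Sol s) {i j : ℕ} (h1 : (I.lay κ).pres i j)
    (h2 : (I.lay κ).pres (i + 1) j) : ‖Pool.Agent.PLN.hs (I.ps κ s) i j‖ = 1 := by
  have hi : i < I.NN κ := by
    have h3 : i + 1 ≤ I.NN κ := h2.1
    omega
  rcases ps_hs hI hs h1 h2 with h | h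
  · rw [h]
    exact hs.nrm _ (sig_lt hI (bt_lt hI) hi)
  · rw [h]
    exact hs.nrm _ (sig_lt hI (tp_lt hI) hi)

theorem ps_vu (hI : I.Ok) (hs : I.Sol s) {i j : ℕ} (h1 : (I.lay κ).pres i j)
    (h2 : (I.lay κ).pres i (j + 1)) : ‖vs (I.ps κ s) i j‖ = 1 := by
  have hj : j < I.NN κ := by
    have h3 : j + 1 ≤ I.NN κ := h2.2.1
    omega
  rcases ps_vs hI hs h1 h2 with h | h
  · rw [h, norm_mul, rho_nrm, one_mul]
    exact hs.nrm _ (sig_lt hI (lf_lt hI) hj)
  · rw [h, norm_mul, rho_nrm, one_mul]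
    exact hs.nrm _ (sig_lt hI (rg_lt hI) hj)

end UV

end Pool.Agent.PLN
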