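import Pool.Agent.PLN.Uvd
import Pool.Agent.PLN.Nm1
import Pool.Agent.PLN.Cx1

/-!
# The quadratic form of nominal differences

`qf a b = 7 a² - 2 a b + 7 b²`; the nominal distance of two names with difference `(a, b)` is
`√(qf a b / 448)` (`nrm_ab`).
`far9`: `7 qf a b = (7 a - b)² + 48 b²·…`: precisely `7 qf a b = (a - 7 b)² + 48 a² =
(7 a - b)² + 48 b²`, and `48 * 81 = 3888 ≥ 7 * 543 = 3801`.
`far_dist`: `qf ≥ 543` gives nominal distance `≥ 1.1` (`543/448 ≥ 1.21`), minus `2/20`.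
-/

namespace Pool.Agent.PLN

/-- the quadratic form of nominal differences -/
def qf (a b : ℤ) : ℤ := 7 * a ^ 2 - 2 * a * b + 7 * b ^ 2

/-- nominal position -/
noncomputable def nomC (P : ℕ × ℕ) : ℂ := ((P.1 : ℂ) - 32 + ((P.2 : ℂ) - 32) * rho) / 8

/-- `qf` of the difference of two names -/
def qd (P Q : ℕ × ℕ) : ℤ := qf ((P.1 : ℤ) - Q.1) ((P.2 : ℤ) - Q.2)

theorem Re1_sq81 {a : ℤ} (h : 9 ≤ a ∨ a ≤ -9) : 81 ≤ a ^ 2 := by
  rcases h with h | h <;> nlinarith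

theorem Re1_qfa (a b : ℤ) : 7 * qf a b = (a - 7 * b) ^ 2 + 48 * a ^ 2 := by
  unfold qf
  ring

theorem Re1_qfb (a b : ℤ) : 7 * qf a b = (7 * a - b) ^ 2 + 48 * b ^ 2 := by
  unfold qf
  ring

theorem far9 {a b : ℤ} (h : 9 ≤ a ∨ a ≤ -9 ∨ 9 ≤ b ∨ b ≤ -9) : 543 ≤ qf a b := by
  have ha := Re1_qfa a b
  have hb := Re1_qfb a b
  have p1 := sq_nonneg (a - 7 * b)
  have p2 := sq_nonneg (7 * a - b)
  rcases h with h | h | h | h
  · have := Re1_sq81 (Or.inl h : 9 ≤ a ∨ a ≤ -9); omega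
  · have := Re1_sq81 (Or.inr h : 9 ≤ a ∨ a ≤ -9); omega
  · have := Re1_sq81 (Or.inl h : 9 ≤ b ∨ b ≤ -9); omega
  · have := Re1_sq81 (Or.inr h : 9 ≤ b ∨ b ≤ -9); omega

theorem Re1_qd_symm (P Q : ℕ × ℕ) : qd P Q = qd Q P := by
  unfold qd qf
  ring

theorem Re1_arc {P Q : ℕ × ℕ} (h : arc P Q = true) : qd P Q = 448 := by
  obtain ⟨a, b⟩ := P
  obtain ⟨c, d⟩ := Q
  have h' := (arc_iff _ _).1 h
  simp only at h'
  rcases h' with ⟨h1, h2⟩ | ⟨h1, h2⟩ | ⟨h1, h2⟩ | ⟨h1, h2⟩ | ⟨h1, h2⟩ | ⟨h1, h2⟩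
  all_goals
    subst h1
    subst h2
    simp only [qd, qf]
    push_cast
    ring

theorem arc_qd {P Q : ℕ × ℕ} (h : (arc P Q || arc Q P) = true) : qd P Q = 448 := by
  rw [Bool.or_eq_true] at h
  rcases h with h | h
  · exact Re1_arc h
  · rw [Re1_qd_symm]
    exact Re1_arc h

theorem rigid_nrm {τ : ℂ} (hτ : ‖τ‖ = 1) (a b : ℤ) :
    ‖τ * ((a : ℂ) + b * rho) / 8‖ ^ 2 = qf a b / 448 := by
  have h1 := nrm_ab (a : ℝ) (b : ℝ)
  have h8 : ‖(8 : ℂ)‖ = 8 := by norm_num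
  rw [norm_div, norm_mul, hτ, one_mul, h8, div_pow]
  have e : (((a : ℝ) : ℂ)) + ((b : ℝ) : ℂ) * rho = (a : ℂ) + b * rho := by push_cast; ring
  rw [e] at h1
  rw [h1]
  unfold qf
  push_cast
  ring

theorem rigid_one {τ : ℂ} (hτ : ‖τ‖ = 1) {a b : ℤ} (h : qf a b = 448) :
    ‖τ * ((a : ℂ) + b * rho) / 8‖ = 1 := by
  have h1 := rigid_nrm hτ a b
  rw [h] at h1
  have h2 : ((448 : ℤ) : ℝ) / 448 = 1 := by norm_num
  rw [h2] at h1
  have h0 := norm_nonneg (τ * ((a : ℂ) + b * rho) / 8)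
  nlinarith

theorem Re1_nom (P Q : ℕ × ℕ) : ‖nomC P - nomC Q‖ ^ 2 = qd P Q / 448 := by
  have h1 := rigid_nrm (τ := 1) (by simp) ((P.1 : ℤ) - Q.1) ((P.2 : ℤ) - Q.2)
  have e : nomC P - nomC Q = 1 * (((((P.1 : ℤ) - Q.1 : ℤ)) : ℂ) +
      (((P.2 : ℤ) - Q.2 : ℤ) : ℂ) * rho) / 8 := by
    unfold nomC
    push_cast
    ring
  rw [e, h1]
  rfl

theorem far_dist {P Q : ℕ × ℕ} {z w : ℂ} (h : 543 ≤ qd P Q) (hz : ‖z - nomC P‖ ≤ 1 / 20)
    (hw : ‖w - nomC Q‖ ≤ 1 / 20) : 1 ≤ ‖z - w‖ := by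
  have h1 := Re1_nom P Q
  have h2 : (543 : ℝ) ≤ qd P Q := by exact_mod_cast h
  have h3 : (11 / 10 : ℝ) ≤ ‖nomC P - nomC Q‖ := by
    have h0 := norm_nonneg (nomC P - nomC Q)
    have h4 : (121 / 100 : ℝ) ≤ ‖nomC P - nomC Q‖ ^ 2 := by
      rw [h1]
      linarith
    by_contra hc
    push Not at hc
    nlinarith
  have e : nomC P - nomC Q = (z - w) - (z - nomC P) + (w - nomC Q) := by ring
  have h5 : ‖nomC P - nomC Q‖ ≤ ‖z - w‖ + ‖z - nomC P‖ + ‖w - nomC Q‖ := by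
    rw [e]
    calc ‖(z - w) - (z - nomC P) + (w - nomC Q)‖ ≤ ‖(z - w) - (z - nomC P)‖ + ‖w - nomC Q‖ :=
          norm_add_le _ _
      _ ≤ ‖z - w‖ + ‖z - nomC P‖ + ‖w - nomC Q‖ := by
          have := norm_sub_le (z - w) (z - nomC P)
          linarith
  linarith

/-- the alternative for two normal vertices: nominally far apart, or adjacent at distance `1` -/
def PLt (P Q : ℕ × ℕ) (z w : ℂ) : Prop :=
  543 ≤ qd P Q ∨ ((arc P Q || arc Q P) = true ∧ ‖z - w‖ = 1)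

theorem PLt.symm {P Q : ℕ × ℕ} {z w : ℂ} (h : PLt P Q z w) : PLt Q P w z := by
  rcases h with h | ⟨h1, h2⟩
  · left
    rw [← Re1_qd_symm]
    exact h
  · right
    refine ⟨?_, ?_⟩
    · rw [Bool.or_comm]
      exact h1
    · rw [norm_sub_rev]
      exact h2

end Pool.Agent.PLN
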