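import Pool.Agent.PLN.Re2

/-!
# A grid vertex and a vertex of a horizontal body

Mirror image of the vertical case.  Let `(g, c) ∈ hb`, `(a, b) ∈ Tm`, and `(i, j)` present.  As the
hole `(c, g-1, 7, 4)` is in `rects` (`rect_hb`), `¬ (c < i < c + 7 ∧ g - 1 < j < g + 3)`.  With
`d = j - g`, `f = i - c` the difference is `(8 f - b, 8 d - a)`.  `a ∈ [1, 15]`, `b ∈ [7, 49]`: if
`d ≤ -1` or `d ≥ 3`, `|8 d - a| ≥ 9`; if `f ≤ -1` or `f ≥ 8`, `|8 f - b| ≥ 15`; so `f ∈ {0, 7}` and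
`d ∈ {0, 1, 2}`.  If `f = 0`, `b ≥ 14` is far, and for `b = 7`: `a = 5`: `d = 0, 1` adjacent,
`d = 2` far; `a = 13`: `d = 1, 2` adjacent, `d = 0` far.  If `f = 7`: `b ≤ 42` is far, and for
`b = 49`: `a = 3`: `d = 0, 1` adjacent, `d = 2` far; `a = 11`: `d = 1, 2` adjacent, `d = 0` far.  In
the adjacent cases `P (c + f) (g + d) = P c g + (vs P c g / rho) * (8 f + 8 d rho) / 8` (`vs_hb`);
`rigid_one`.
-/

namespace Pool.Agent.PLN

variable {L : Lay} {P : ℕ → ℕ → ℂ} {u : ℂ}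

theorem re5_comb {a b g c i j : ℕ} (hab : (a, b) ∈ Tm) (hg : 2 ≤ g)
    (h : ¬ (g - 1 < i ∧ i < g - 1 + 4 ∧ c < j ∧ j < c + 7)) :
    (8 * i + 9 ≤ 8 * g + a ∨ 8 * g + a + 9 ≤ 8 * i ∨ 8 * j + 9 ≤ 8 * c + b ∨
      8 * c + b + 9 ≤ 8 * j) ∨
    ∃ d f : ℕ, d ≤ 2 ∧ (f = 0 ∨ f = 7) ∧ i = g + d ∧ j = c + f ∧
      ((8 * d + 5 = a ∧ 8 * f + 7 = b) ∨ (8 * d = a + 3 ∧ 8 * f + 7 = b) ∨
      (8 * d = a + 5 ∧ 8 * f = b + 7) ∨ (8 * d + 3 = a ∧ 8 * f = b + 7)) := by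
  simp only [Tm, List.mem_cons, Prod.mk.injEq, List.not_mem_nil, or_false] at hab
  by_cases hf : (8 * i + 9 ≤ 8 * g + a ∨ 8 * g + a + 9 ≤ 8 * i ∨ 8 * j + 9 ≤ 8 * c + b ∨
      8 * c + b + 9 ≤ 8 * j)
  · exact Or.inl hf
  right
  have h1 : (b = 7 ∧ j = c) ∨ (b = 49 ∧ j = c + 7) := by omega
  have h2 : i = g ∨ i = g + 1 ∨ i = g + 2 := by omega
  rcases h1 with ⟨hb, hj⟩ | ⟨hb, hj⟩
  · have h3 : a = 5 ∨ a = 13 := by omega
    rcases h2 with h2 | h2 | h2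
    · exact ⟨0, 0, by norm_num, by norm_num, by omega, by omega, by omega⟩
    · exact ⟨1, 0, by norm_num, by norm_num, by omega, by omega, by omega⟩
    · exact ⟨2, 0, by norm_num, by norm_num, by omega, by omega, by omega⟩
  · have h3 : a = 3 ∨ a = 11 := by omega
    rcases h2 with h2 | h2 | h2
    · exact ⟨0, 7, by norm_num, by norm_num, by omega, by omega, by omega⟩
    · exact ⟨1, 7, by norm_num, by norm_num, by omega, by omega, by omega⟩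
    · exact ⟨2, 7, by norm_num, by norm_num, by omega, by omega, by omega⟩

theorem re5_one {τ p z w : ℂ} {d f a b : ℕ} (hτ : ‖τ‖ = 1) (hz : z = p + (f + d * rho) * τ)
    (hw : w = p + τ * (b + a * rho) / 8)
    (h : ((8 * d + 5 = a ∧ 8 * f + 7 = b) ∨ (8 * d = a + 3 ∧ 8 * f + 7 = b) ∨
      (8 * d = a + 5 ∧ 8 * f = b + 7) ∨ (8 * d + 3 = a ∧ 8 * f = b + 7))) : ‖z - w‖ = 1 := by
  have key : z - w = τ * (((8 * (f : ℤ) - b : ℤ) : ℂ) + ((8 * (d : ℤ) - a : ℤ) : ℂ) * rho) / 8 := by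
    rw [hz, hw]
    push_cast
    ring
  rw [key]
  apply rigid_one hτ
  rcases h with ⟨h1, h2⟩ | ⟨h1, h2⟩ | ⟨h1, h2⟩ | ⟨h1, h2⟩
  · rw [show (8 * (d : ℤ) - a : ℤ) = -5 by omega, show (8 * (f : ℤ) - b : ℤ) = -7 by omega]
    norm_num [qf]
  · rw [show (8 * (d : ℤ) - a : ℤ) = 3 by omega, show (8 * (f : ℤ) - b : ℤ) = -7 by omega]
    norm_num [qf]
  · rw [show (8 * (d : ℤ) - a : ℤ) = 5 by omega, show (8 * (f : ℤ) - b : ℤ) = 7 by omega]
    norm_num [qf]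
  · rw [show (8 * (d : ℤ) - a : ℤ) = -3 by omega, show (8 * (f : ℤ) - b : ℤ) = 7 by omega]
    norm_num [qf]

theorem pl_GH (hL : L.GoodN) (hP : PosD L P u) {n n' : ℕ × ℕ} {z w : ℂ} (h : PsG L P n z)
    (h' : PsH L P n' w) : PLt n n' z w := by
  obtain ⟨i, j, hp, hn, hz⟩ := h
  obtain ⟨g, c, hg, a, b, hab, hn', hw⟩ := h'
  have h1 := (inn_false.1 hp.2.2) _ (rect_hb hg)
  have h2 := hL.hb2 _ hg
  simp only at h1 h2
  have h1' : ¬ (g - 1 < j ∧ j < g - 1 + 4 ∧ c < i ∧ i < c + 7) := by omega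
  rcases re5_comb hab h2 h1' with h3 | ⟨d, f, hd, hf, hj, hi, h3⟩
  · left
    unfold qd
    apply far9
    subst hn hn'
    simp only
    omega
  · right
    obtain ⟨e1, -, e3⟩ := vs_hb hP hg
    obtain ⟨e4, e5⟩ := e3 d hd
    constructor
    · rw [Bool.or_eq_true, arc_iff, arc_iff]
      subst hn hn'
      simp only
      clear h1 h1' e3 e4 e5 hz hw hab
      subst hi hj
      rcases h3 with ⟨h4, h5⟩ | ⟨h4, h5⟩ | ⟨h4, h5⟩ | ⟨h4, h5⟩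
      · exact Or.inl (Or.inr (Or.inr (Or.inr (Or.inr (Or.inl ⟨by omega, by omega⟩)))))
      · exact Or.inl (Or.inr (Or.inr (Or.inr (Or.inr (Or.inr ⟨by omega, by omega⟩)))))
      · exact Or.inr (Or.inr (Or.inr (Or.inr (Or.inr (Or.inl ⟨by omega, by omega⟩)))))
      · exact Or.inr (Or.inr (Or.inr (Or.inr (Or.inr (Or.inr ⟨by omega, by omega⟩)))))
    · refine re5_one (p := P c g) e1 ?_ hw h3
      rw [hz, hi, hj]
      rcases hf with hf | hf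
      · rw [hf, Nat.add_zero, e4]
        push_cast
        ring
      · rw [hf, e5]
        push_cast
        ring

end Pool.Agent.PLN
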