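import Pool.Agent.PLN.Re2

/-!
# Two vertices of bodies

Two vertices of the same vertical body: the difference of the positions is
`hs P g c * ((a - a') + (b - b') rho) / 8`, and for two different points of the template either
`arc` holds (in one direction) and `qf = 448`, or `543 ≤ qf` (`decide` on the list `Tm`);
`rigid_one`.
Different bodies: the holes are different (`(g-1, c, 4, 7)` with `g ≥ 2` determines `(g, c)`), so
they are separated (`sep`), and the vertices are inside the holes: for `r = (x, y, w, h)` the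
coordinates (minus `32`) are in `[8 x + 7, 8 (x + w) - 7] × [8 y + 7, 8 (y + h) - 7]`; so one of the
coordinates differs by at least `7 + 8 + 7`; `far9`.
-/

namespace Pool.Agent.PLN

variable {L : Lay} {P : ℕ → ℕ → ℂ} {u : ℂ}

theorem Re6_arc (x y a b a' b' : ℕ) :
    arc (x + a, y + b) (x + a', y + b') = arc (a, b) (a', b') := by
  rw [Bool.eq_iff_iff]
  simp only [arc, Bool.or_eq_true, Bool.and_eq_true, decide_eq_true_eq]
  omega

theorem Re6_tm : ∀ p ∈ Tm, ∀ q ∈ Tm, p ≠ q →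
    ((arc p q || arc q p) = true ∧ (arc (p.2, p.1) (q.2, q.1) || arc (q.2, q.1) (p.2, p.1)) = true ∧
      qf ((p.1 : ℤ) - q.1) ((p.2 : ℤ) - q.2) = 448 ∧
      qf ((p.2 : ℤ) - q.2) ((p.1 : ℤ) - q.1) = 448) ∨
    (543 ≤ qf ((p.1 : ℤ) - q.1) ((p.2 : ℤ) - q.2) ∧
      543 ≤ qf ((p.2 : ℤ) - q.2) ((p.1 : ℤ) - q.1)) := by
  unfold qf
  decide

theorem Re6_bd : ∀ p ∈ Tm, 1 ≤ p.1 ∧ p.1 ≤ 15 ∧ 7 ≤ p.2 ∧ p.2 ≤ 49 := by decide

theorem Re6_mv {g c : ℕ} (h : (g, c) ∈ L.vb) : (g - 1, c, 4, 7) ∈ L.rects := by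
  unfold Lay.rects
  simp only [List.mem_append, List.mem_map]
  exact Or.inl (Or.inl ⟨(g, c), h, rfl⟩)

theorem Re6_mh {g c : ℕ} (h : (g, c) ∈ L.hb) : (c, g - 1, 7, 4) ∈ L.rects := by
  unfold Lay.rects
  simp only [List.mem_append, List.mem_map]
  exact Or.inl (Or.inr ⟨(g, c), h, rfl⟩)

theorem pl_VV (hL : L.GoodN) (hP : PosD L P u) {n n' : ℕ × ℕ} {z w : ℂ} (h : PsV L P n z)
    (h' : PsV L P n' w) (hn : n ≠ n') : PLt n n' z w := by
  obtain ⟨g, c, hm, a, b, hT, rfl, rfl⟩ := h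
  obtain ⟨g', c', hm', a', b', hT', rfl, rfl⟩ := h'
  have hb := Re6_bd _ hT
  have hb' := Re6_bd _ hT'
  simp only at hb hb'
  by_cases hg : g = g' ∧ c = c'
  · obtain ⟨rfl, rfl⟩ := hg
    have hne : (a, b) ≠ (a', b') := by
      intro e
      simp only [Prod.mk.injEq] at e
      obtain ⟨rfl, rfl⟩ := e
      exact hn rfl
    rcases Re6_tm _ hT _ hT' hne with h1 | h1
    · right
      refine ⟨?_, ?_⟩
      · rw [Re6_arc, Re6_arc]; exact h1.1
      · have h2 := rigid_one (hs_vb hP hm).1 h1.2.2.1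
        rw [← h2]
        congr 1
        push_cast
        ring
    · left
      unfold qd
      have e1 : (((8 * g + 32 + a : ℕ) : ℤ) - ((8 * g + 32 + a' : ℕ) : ℤ)) = (a : ℤ) - a' := by
        push_cast; ring
      have e2 : (((8 * c + 32 + b : ℕ) : ℤ) - ((8 * c + 32 + b' : ℕ) : ℤ)) = (b : ℤ) - b' := by
        push_cast; ring
      simp only [e1, e2]
      exact h1.1
  · left
    have h2 := hL.vb2 _ hm
    have h2' := hL.vb2 _ hm'
    simp only at h2 h2'
    have hne : ((g - 1, c, 4, 7) : ℕ × ℕ × ℕ × ℕ) ≠ (g' - 1, c', 4, 7) := by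
      intro e
      simp only [Prod.mk.injEq] at e
      apply hg
      omega
    have hs := hL.sep _ (Re6_mv hm) _ (Re6_mv hm') hne
    simp only at hs
    unfold qd
    apply far9
    simp only
    omega

theorem pl_HH (hL : L.GoodN) (hP : PosD L P u) {n n' : ℕ × ℕ} {z w : ℂ} (h : PsH L P n z)
    (h' : PsH L P n' w) (hn : n ≠ n') : PLt n n' z w := by
  obtain ⟨g, c, hm, a, b, hT, rfl, rfl⟩ := h
  obtain ⟨g', c', hm', a', b', hT', rfl, rfl⟩ := h'
  have hb := Re6_bd _ hT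
  have hb' := Re6_bd _ hT'
  simp only at hb hb'
  by_cases hg : g = g' ∧ c = c'
  · obtain ⟨rfl, rfl⟩ := hg
    have hne : (a, b) ≠ (a', b') := by
      intro e
      simp only [Prod.mk.injEq] at e
      obtain ⟨rfl, rfl⟩ := e
      exact hn rfl
    rcases Re6_tm _ hT _ hT' hne with h1 | h1
    · right
      refine ⟨?_, ?_⟩
      · rw [Re6_arc, Re6_arc]; exact h1.2.1
      · have h2 := rigid_one (vs_hb hP hm).1 h1.2.2.2
        rw [← h2]
        congr 1
        push_cast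
        ring
    · left
      unfold qd
      have e1 : (((8 * g + 32 + a : ℕ) : ℤ) - ((8 * g + 32 + a' : ℕ) : ℤ)) = (a : ℤ) - a' := by
        push_cast; ring
      have e2 : (((8 * c + 32 + b : ℕ) : ℤ) - ((8 * c + 32 + b' : ℕ) : ℤ)) = (b : ℤ) - b' := by
        push_cast; ring
      simp only [e1, e2]
      exact h1.2
  · left
    have h2 := hL.hb2 _ hm
    have h2' := hL.hb2 _ hm'
    simp only at h2 h2'
    have hne : ((c, g - 1, 7, 4) : ℕ × ℕ × ℕ × ℕ) ≠ (c', g' - 1, 7, 4) := by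
      intro e
      simp only [Prod.mk.injEq] at e
      apply hg
      omega
    have hs := hL.sep _ (Re6_mh hm) _ (Re6_mh hm') hne
    simp only at hs
    unfold qd
    apply far9
    simp only
    omega

theorem pl_VH (hL : L.GoodN) (hP : PosD L P u) {n n' : ℕ × ℕ} {z w : ℂ} (h : PsV L P n z)
    (h' : PsH L P n' w) : PLt n n' z w := by
  obtain ⟨g, c, hm, a, b, hT, rfl, rfl⟩ := h
  obtain ⟨g', c', hm', a', b', hT', rfl, rfl⟩ := h'
  have hb := Re6_bd _ hT
  have hb' := Re6_bd _ hT'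
  simp only at hb hb'
  left
  have h2 := hL.vb2 _ hm
  have h2' := hL.hb2 _ hm'
  simp only at h2 h2'
  have hne : ((g - 1, c, 4, 7) : ℕ × ℕ × ℕ × ℕ) ≠ (c', g' - 1, 7, 4) := by
    intro e
    simp only [Prod.mk.injEq] at e
    omega
  have hs := hL.sep _ (Re6_mv hm) _ (Re6_mh hm') hne
  simp only at hs
  unfold qd
  apply far9
  simp only
  omega

end Pool.Agent.PLN
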