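import Pool.Agent.PLN.Re7

/-!
# Two ties of the same side

Bottom: the difference is `(8 (i - i'), 0)`; if `|i - i'| ≥ 2`, `far9`; if `i' = i + 1`, the ties
are adjacent, and `P (i+1) 0 = P i 0 + hs P i 0`, `hs P (i+1) 0 = hs P i 0` (`tieB`), so the
difference of the positions is `hs P i 0`, of modulus `1` (`nrm_tie`).  The other sides similarly.
-/

namespace Pool.Agent.PLN

variable {L : Lay} {P : ℕ → ℕ → ℂ} {u : ℂ}

theorem re8_pl {n n' : ℕ × ℕ} {z w : ℂ} {i i' : ℕ}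
    (hd : qd n n' = qf (8 * ((i : ℤ) - i')) 0 ∨ qd n n' = qf 0 (8 * ((i : ℤ) - i')))
    (hne : i ≠ i') (h1 : i' = i + 1 → arc n n' = true ∧ ‖z - w‖ = 1)
    (h2 : i = i' + 1 → arc n' n = true ∧ ‖z - w‖ = 1) : PLt n n' z w := by
  by_cases c1 : i' = i + 1
  · exact Or.inr ⟨by rw [(h1 c1).1]; rfl, (h1 c1).2⟩
  by_cases c2 : i = i' + 1
  · exact Or.inr ⟨by rw [(h2 c2).1, Bool.or_true], (h2 c2).2⟩
  left
  rcases hd with hd | hd
  · rw [hd]; apply far9; omega
  · rw [hd]; apply far9; omega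

/-- two ties of one side: `A` the positions of the grid vertices, `s` the steps -/
theorem re8_step {A s : ℕ → ℂ} {c z w : ℂ} {i i' : ℕ} (hz : z = A i + s i * c)
    (hw : w = A i' + s i' * c) (h : i' = i + 1 ∨ i = i' + 1)
    (h1 : i' = i + 1 → s i' = s i ∧ ‖A i' - A i‖ = 1)
    (h2 : i = i' + 1 → s i = s i' ∧ ‖A i - A i'‖ = 1) : ‖z - w‖ = 1 := by
  rcases h with h | h
  · obtain ⟨e, e'⟩ := h1 h
    rw [hz, hw, e, ← e', ← norm_neg]
    congr 1
    ring
  · obtain ⟨e, e'⟩ := h2 h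
    rw [hz, hw, e, ← e']
    congr 1
    ring

theorem pl_BB (hL : L.GoodN) (hP : PosD L P u) {n n' : ℕ × ℕ} {z w : ℂ} (h : PsB L P n z)
    (h' : PsB L P n' w) (hn : n ≠ n') : PLt n n' z w := by
  obtain ⟨i, hi, rfl, hz⟩ := h
  obtain ⟨i', hi', rfl, hw⟩ := h'
  have hne : i ≠ i' := fun e => hn (by rw [e])
  have key : i' = i + 1 ∨ i = i' + 1 → ‖z - w‖ = 1 := fun hh =>
    re8_step (A := fun i => P i 0) (s := fun i => hs P i 0) (c := (3 - 7 * rho) / 8)
      (by rw [hz]; ring) (by rw [hw]; ring) hh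
      (fun e => by
        subst e
        exact ⟨(hP.tieB i hi).2 hi', (nrm_tie hL hP (hL.tbN i hi)).1⟩)
      (fun e => by
        subst e
        exact ⟨(hP.tieB i' hi').2 hi, (nrm_tie hL hP (hL.tbN i' hi')).1⟩)
  refine re8_pl (i := i) (i' := i') (Or.inl ?_) hne
    (fun e => ⟨?_, key (Or.inl e)⟩) (fun e => ⟨?_, key (Or.inr e)⟩)
  · unfold qd; congr 1 <;> (push_cast; ring)
  · subst e; simp [arc]; omega
  · subst e; simp [arc]; omega

theorem pl_LL (hL : L.GoodN) (hP : PosD L P u) {n n' : ℕ × ℕ} {z w : ℂ} (h : PsL L P n z)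
    (h' : PsL L P n' w) (hn : n ≠ n') : PLt n n' z w := by
  obtain ⟨i, hi, rfl, hz⟩ := h
  obtain ⟨i', hi', rfl, hw⟩ := h'
  have hne : i ≠ i' := fun e => hn (by rw [e])
  have nv : ∀ i, i < L.N → ‖P 0 (i + 1) - P 0 i‖ = 1 := fun i hi => by
    have := (nrm_tie hL hP hi).2.2.1
    rwa [norm_div, rho_nrm, div_one] at this
  have key : i' = i + 1 ∨ i = i' + 1 → ‖z - w‖ = 1 := fun hh =>
    re8_step (A := fun i => P 0 i) (s := fun i => vs P 0 i) (c := 1 / rho * (-7 + 3 * rho) / 8)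
      (by rw [hz]; ring) (by rw [hw]; ring) hh
      (fun e => by
        subst e
        exact ⟨(hP.tieL i hi).2 hi', nv i (hL.tbN i hi)⟩)
      (fun e => by
        subst e
        exact ⟨(hP.tieL i' hi').2 hi, nv i' (hL.tbN i' hi')⟩)
  refine re8_pl (i := i) (i' := i') (Or.inr ?_) hne
    (fun e => ⟨?_, key (Or.inl e)⟩) (fun e => ⟨?_, key (Or.inr e)⟩)
  · unfold qd; congr 1 <;> (push_cast; ring)
  · subst e; simp [arc]; omega
  · subst e; simp [arc]; omega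

theorem pl_TT (hL : L.GoodN) (hP : PosD L P u) {n n' : ℕ × ℕ} {z w : ℂ} (h : PsT L P n z)
    (h' : PsT L P n' w) (hn : n ≠ n') : PLt n n' z w := by
  obtain ⟨i, hi, rfl, hz⟩ := h
  obtain ⟨i', hi', rfl, hw⟩ := h'
  have hne : i ≠ i' := fun e => hn (by rw [e])
  have key : i' = i + 1 ∨ i = i' + 1 → ‖z - w‖ = 1 := fun hh =>
    re8_step (A := fun i => P i L.N) (s := fun i => hs P i L.N) (c := (5 + 7 * rho) / 8)
      (by rw [hz]; ring) (by rw [hw]; ring) hh
      (fun e => by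
        subst e
        exact ⟨(hP.tieT i hi).2 hi', (nrm_tie hL hP (hL.ttN i hi)).2.1⟩)
      (fun e => by
        subst e
        exact ⟨(hP.tieT i' hi').2 hi, (nrm_tie hL hP (hL.ttN i' hi')).2.1⟩)
  refine re8_pl (i := i) (i' := i') (Or.inl ?_) hne
    (fun e => ⟨?_, key (Or.inl e)⟩) (fun e => ⟨?_, key (Or.inr e)⟩)
  · unfold qd; congr 1 <;> (push_cast; ring)
  · subst e; simp [arc]; omega
  · subst e; simp [arc]; omega

theorem pl_RR (hL : L.GoodN) (hP : PosD L P u) {n n' : ℕ × ℕ} {z w : ℂ} (h : PsR L P n z)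
    (h' : PsR L P n' w) (hn : n ≠ n') : PLt n n' z w := by
  obtain ⟨i, hi, rfl, hz⟩ := h
  obtain ⟨i', hi', rfl, hw⟩ := h'
  have hne : i ≠ i' := fun e => hn (by rw [e])
  have nv : ∀ i, i < L.N → ‖P L.N (i + 1) - P L.N i‖ = 1 := fun i hi => by
    have := (nrm_tie hL hP hi).2.2.2
    rwa [norm_div, rho_nrm, div_one] at this
  have key : i' = i + 1 ∨ i = i' + 1 → ‖z - w‖ = 1 := fun hh =>
    re8_step (A := fun i => P L.N i) (s := fun i => vs P L.N i) (c := 1 / rho * (7 + 5 * rho) / 8)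
      (by rw [hz]; ring) (by rw [hw]; ring) hh
      (fun e => by
        subst e
        exact ⟨(hP.tieR i hi).2 hi', nv i (hL.ttN i hi)⟩)
      (fun e => by
        subst e
        exact ⟨(hP.tieR i' hi').2 hi, nv i' (hL.ttN i' hi')⟩)
  refine re8_pl (i := i) (i' := i') (Or.inr ?_) hne
    (fun e => ⟨?_, key (Or.inl e)⟩) (fun e => ⟨?_, key (Or.inr e)⟩)
  · unfold qd; congr 1 <;> (push_cast; ring)
  · subst e; simp [arc]; omega
  · subst e; simp [arc]; omega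

end Pool.Agent.PLN
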