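import Pool.Agent.PLN.Re2

/-!
# Ties of different sides; ties and bodies

All these pairs are far (`far9`); coordinates minus `32`.  Bottom `(8 i + 3, -7)`, left
`(-7, 8 i + 3)`, top `(8 i + 5, 8 N + 7)`, right `(8 N + 7, 8 i + 5)` (`i < N`): two ties of different
sides differ by at least `10` in one coordinate.  Vertices of bodies: by `inb` and `rect_vb`,
`rect_hb`, both coordinates are in `[15, 8 N - 15]`.
-/

namespace Pool.Agent.PLN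

variable {L : Lay} {P : ℕ → ℕ → ℂ}

theorem re9_Tm {a b : ℕ} (h : (a, b) ∈ Tm) : 1 ≤ a ∧ a ≤ 15 ∧ 7 ≤ b ∧ b ≤ 49 := by
  simp only [Tm, List.mem_cons, Prod.mk.injEq, List.not_mem_nil, or_false] at h
  omega

theorem box_VH (hL : L.GoodN) {n : ℕ × ℕ} {z : ℂ} (h : PsV L P n z ∨ PsH L P n z) :
    32 + 15 ≤ n.1 ∧ n.1 + 15 ≤ 8 * L.N + 32 ∧ 32 + 15 ≤ n.2 ∧ n.2 + 15 ≤ 8 * L.N + 32 := by
  rcases h with ⟨g, c, hg, a, b, hab, hn, -⟩ | ⟨g, c, hg, a, b, hab, hn, -⟩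
  · have h1 := hL.inb _ (rect_vb hg)
    have h2 := re9_Tm hab
    subst hn
    simp only at h1 ⊢
    omega
  · have h1 := hL.inb _ (rect_hb hg)
    have h2 := re9_Tm hab
    subst hn
    simp only at h1 ⊢
    omega

theorem re9_far {n n' : ℕ × ℕ} {z w : ℂ}
    (h : n.1 + 9 ≤ n'.1 ∨ n'.1 + 9 ≤ n.1 ∨ n.2 + 9 ≤ n'.2 ∨ n'.2 + 9 ≤ n.2) : PLt n n' z w := by
  left
  unfold qd
  apply far9
  omega

theorem pl_VX (hL : L.GoodN) {n n' : ℕ × ℕ} {z w : ℂ} (h : PsV L P n z ∨ PsH L P n z)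
    (h' : PsB L P n' w ∨ PsL L P n' w ∨ PsT L P n' w ∨ PsR L P n' w) : PLt n n' z w := by
  have hb := box_VH hL h
  apply re9_far
  rcases h' with ⟨i, hi, hn, -⟩ | ⟨i, hi, hn, -⟩ | ⟨i, hi, hn, -⟩ | ⟨i, hi, hn, -⟩ <;>
  · subst hn
    simp only
    omega

theorem pl_XX (hL : L.GoodN) {n n' : ℕ × ℕ} {z w : ℂ}
    (h : (PsB L P n z ∧ (PsL L P n' w ∨ PsT L P n' w ∨ PsR L P n' w)) ∨
      (PsL L P n z ∧ (PsT L P n' w ∨ PsR L P n' w)) ∨ (PsT L P n z ∧ PsR L P n' w)) :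
    PLt n n' z w := by
  apply re9_far
  rcases h with ⟨⟨i, hi, hn, -⟩, h⟩ | ⟨⟨i, hi, hn, -⟩, h⟩ | ⟨⟨i, hi, hn, -⟩, ⟨j, hj, hm, -⟩⟩
  · have := hL.tbN i hi
    rcases h with ⟨j, hj, hm, -⟩ | ⟨j, hj, hm, -⟩ | ⟨j, hj, hm, -⟩ <;>
    · subst hn hm
      simp only
      omega
  · have := hL.tbN i hi
    rcases h with ⟨j, hj, hm, -⟩ | ⟨j, hj, hm, -⟩ <;>
    · subst hn hm
      simp only
      omega
  · have := hL.ttN i hi
    have := hL.ttN j hj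
    subst hn hm
    simp only
    omega

end Pool.Agent.PLN
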