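import Pool.Agent.PLN.Re3
import Pool.Agent.PLN.Re4
import Pool.Agent.PLN.Re5
import Pool.Agent.PLN.Re6
import Pool.Agent.PLN.Re8
import Pool.Agent.PLN.Re9

/-!
# Two normal vertices

`pl_NN`: all pairs of types, by the previous files and `PLt.symm`.
-/

namespace Pool.Agent.PLN

variable {L : Lay} {P : ℕ → ℕ → ℂ} {u : ℂ}

theorem pl_NN (hL : L.GoodN) (hP : PosD L P u) {n n' : ℕ × ℕ} {z w : ℂ} (h : PsN L P n z)
    (h' : PsN L P n' w) (hn : n ≠ n') : PLt n n' z w := by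
  rcases h with h | h | h | h | h | h | h <;> rcases h' with h' | h' | h' | h' | h' | h' | h'
  -- G
  · exact pl_GG hP h h' hn
  · exact pl_GV hL hP h h'
  · exact pl_GH hL hP h h'
  · exact pl_GB hL hP h h'
  · exact pl_GL hL hP h h'
  · exact pl_GT hL hP h h'
  · exact pl_GR hL hP h h'
  -- V
  · exact (pl_GV hL hP h' h).symm
  · exact pl_VV hL hP h h' hn
  · exact pl_VH hL hP h h'
  · exact pl_VX hL (Or.inl h) (Or.inl h')
  · exact pl_VX hL (Or.inl h) (Or.inr (Or.inl h'))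
  · exact pl_VX hL (Or.inl h) (Or.inr (Or.inr (Or.inl h')))
  · exact pl_VX hL (Or.inl h) (Or.inr (Or.inr (Or.inr h')))
  -- H
  · exact (pl_GH hL hP h' h).symm
  · exact (pl_VH hL hP h' h).symm
  · exact pl_HH hL hP h h' hn
  · exact pl_VX hL (Or.inr h) (Or.inl h')
  · exact pl_VX hL (Or.inr h) (Or.inr (Or.inl h'))
  · exact pl_VX hL (Or.inr h) (Or.inr (Or.inr (Or.inl h')))
  · exact pl_VX hL (Or.inr h) (Or.inr (Or.inr (Or.inr h')))
  -- B
  · exact (pl_GB hL hP h' h).symm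
  · exact (pl_VX hL (Or.inl h') (Or.inl h)).symm
  · exact (pl_VX hL (Or.inr h') (Or.inl h)).symm
  · exact pl_BB hL hP h h' hn
  · exact pl_XX hL (Or.inl ⟨h, Or.inl h'⟩)
  · exact pl_XX hL (Or.inl ⟨h, Or.inr (Or.inl h')⟩)
  · exact pl_XX hL (Or.inl ⟨h, Or.inr (Or.inr h')⟩)
  -- L
  · exact (pl_GL hL hP h' h).symm
  · exact (pl_VX hL (Or.inl h') (Or.inr (Or.inl h))).symm
  · exact (pl_VX hL (Or.inr h') (Or.inr (Or.inl h))).symm
  · exact (pl_XX hL (Or.inl ⟨h', Or.inl h⟩)).symm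
  · exact pl_LL hL hP h h' hn
  · exact pl_XX hL (Or.inr (Or.inl ⟨h, Or.inl h'⟩))
  · exact pl_XX hL (Or.inr (Or.inl ⟨h, Or.inr h'⟩))
  -- T
  · exact (pl_GT hL hP h' h).symm
  · exact (pl_VX hL (Or.inl h') (Or.inr (Or.inr (Or.inl h)))).symm
  · exact (pl_VX hL (Or.inr h') (Or.inr (Or.inr (Or.inl h)))).symm
  · exact (pl_XX hL (Or.inl ⟨h', Or.inr (Or.inl h)⟩)).symm
  · exact (pl_XX hL (Or.inr (Or.inl ⟨h', Or.inl h⟩))).symm
  · exact pl_TT hL hP h h' hn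
  · exact pl_XX hL (Or.inr (Or.inr ⟨h, h'⟩))
  -- R
  · exact (pl_GR hL hP h' h).symm
  · exact (pl_VX hL (Or.inl h') (Or.inr (Or.inr (Or.inr h)))).symm
  · exact (pl_VX hL (Or.inr h') (Or.inr (Or.inr (Or.inr h)))).symm
  · exact (pl_XX hL (Or.inl ⟨h', Or.inr (Or.inr h)⟩)).symm
  · exact (pl_XX hL (Or.inr (Or.inl ⟨h', Or.inr h⟩))).symm
  · exact (pl_XX hL (Or.inr (Or.inr ⟨h', h⟩))).symm
  · exact pl_RR hL hP h h' hn

/-- distinct normal vertices have distance at least `1` (`far_dist`, `ps_nom`) -/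
theorem sep_NN (hL : L.GoodN) (hP : PosD L P u) {n n' : ℕ × ℕ} {z w : ℂ} (h : PsN L P n z)
    (h' : PsN L P n' w) (hn : n ≠ n') : 1 ≤ ‖z - w‖ := by
  rcases pl_NN hL hP h h' hn with h1 | h1
  · exact far_dist h1 (ps_nom hL hP h) (ps_nom hL hP h')
  · exact h1.2.ge

/-- adjacent normal vertices have distance `1` (`arc_qd`) -/
theorem unit_NN (hL : L.GoodN) (hP : PosD L P u) {n n' : ℕ × ℕ} {z w : ℂ} (h : PsN L P n z)
    (h' : PsN L P n' w) (ha : (arc n n' || arc n' n) = true) : ‖z - w‖ = 1 := by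
  have hq := arc_qd ha
  have hn : n ≠ n' := by
    rintro rfl
    have h0 : qd n n = 0 := by
      simp [qd, qf]
    rw [h0] at hq
    norm_num at hq
  rcases pl_NN hL hP h h' hn with h1 | h1
  · rw [hq] at h1
    norm_num at h1
  · exact h1.2

end Pool.Agent.PLN
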