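import Pool.Agent.PLN.Re2

/-!
# Heights of the lever

By `mem_lev` (`T ≥ 2`, `T + 2 ≤ b1`) a lever vertex is `(8 x + 3 y + 32, 32 - 7 y)` with
`y = 2`, `T - 1 ≤ x ≤ b1`; `y = 3`, `T - 1 ≤ x ≤ b1 - 1`; `y = 1`, `x ∈ {T - 1, T}`; or `y = 0`,
`x = T`.  Its position is `P b1 0 + u * ((x - b1) + y * conj om)` (`(3 - 7 rho)/8 = conj om =
1 - om`).  Put `X = x - b1 ≤ 0`.  `Im (u X) = X Im u ≤ 0` (`Im u > 0` by `uim`);
`|Im u| ≤ 1/1000`, `|Re u - 1| ≤ 1/1000` (`ure`); `Im (u conj om) = Im u / 2 - (√3/2) Re u ≤ -0.86`.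
For `y ≥ 2`: `Im ≤ -1.72`; for `y = 1`: `X ≤ -(b1 - T)`, so `Im ≤ -6/5 - 0.86`; for `y = 0`:
`Im = -(b1 - T) Im u ≤ -6/5`.  As `|P b1 0 - b1| ≤ 1/40`: `Im z ≤ -6/5 + 1/40` for all lever
vertices.
Real part: `Re (u X) ≥ X` (`Re u ≤ 1`, `X ≤ 0`), `Re (u y conj om) ∈ [0, 2]`; so
`T - 2 ≤ Re z ≤ b1 + 2 + 1/40`.
-/

namespace Pool.Agent.PLN

variable {L : Lay} {P : ℕ → ℕ → ℂ} {u : ℂ}

/-- coordinates of a lever vertex -/
theorem Re11_rep (hL : L.Good) {n : ℕ × ℕ} {z : ℂ} (h : PsE L P u n z) :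
    ∃ X y : ℝ, z = P L.b1 0 + u * ((X : ℂ) + y * (1 - om)) ∧ (L.T : ℝ) - 1 - L.b1 ≤ X ∧ X ≤ 0 ∧
      0 ≤ y ∧ y ≤ 3 ∧ (2 ≤ y ∨ X ≤ (L.T : ℝ) - L.b1) := by
  obtain ⟨h1, h2⟩ := h
  have hTb : (L.T : ℝ) + 2 ≤ L.b1 := by exact_mod_cast hL.Tb
  have hT2 := hL.T2
  have h7 := seven_rho
  have hrho : rho = (8 * om - 5) / 7 := rfl
  rw [mem_lev hL.T2 hL.Tb] at h1
  rcases h1 with ⟨x, hx1, hx2, hn⟩ | ⟨x, hx1, hx2, hn⟩ | hn | hn | hn
  · have hx1' : (L.T : ℝ) ≤ x + 1 := by exact_mod_cast (by omega : L.T ≤ x + 1)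
    have hx2' : (x : ℝ) ≤ L.b1 := by exact_mod_cast hx2
    have hn' : n = (8 * x + 38, 18) := by simpa using hn
    refine ⟨(x : ℝ) - L.b1, 2, ?_, by linarith, by linarith, by norm_num, by norm_num,
      Or.inl le_rfl⟩
    rw [h2, hn', hrho]
    push_cast
    ring
  · have hx1' : (L.T : ℝ) ≤ x + 1 := by exact_mod_cast (by omega : L.T ≤ x + 1)
    have hx2' : (x : ℝ) ≤ L.b1 := by exact_mod_cast hx2.le
    have hn' : n = (8 * x + 41, 11) := by simpa using hn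
    refine ⟨(x : ℝ) - L.b1, 3, ?_, by linarith, by linarith, by norm_num, by norm_num,
      Or.inl (by norm_num)⟩
    rw [h2, hn', hrho]
    push_cast
    ring
  · have hn' : n = (8 * L.T + 35, 25) := by simpa using hn
    refine ⟨(L.T : ℝ) - L.b1, 1, ?_, by linarith, by linarith, by norm_num, by norm_num,
      Or.inr le_rfl⟩
    rw [h2, hn', hrho]
    push_cast
    ring
  · have hn' : n = (8 * L.T + 27, 25) := by simpa using hn
    refine ⟨(L.T : ℝ) - L.b1 - 1, 1, ?_, by linarith, by linarith, by norm_num, by norm_num,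
      Or.inr (by linarith)⟩
    rw [h2, hn', hrho]
    push_cast
    ring
  · have hn' : n = (8 * L.T + 32, 32) := by simpa using hn
    refine ⟨(L.T : ℝ) - L.b1, 0, ?_, by linarith, by linarith, by norm_num, by norm_num,
      Or.inr le_rfl⟩
    rw [h2, hn', hrho]
    push_cast
    ring

theorem Re11_base (hL : L.Good) (hP : PosD L P u) : |(P L.b1 0).im| ≤ 1 / 40 ∧
    |(P L.b1 0).re - L.b1| ≤ 1 / 40 := by
  have h1 : L.b1 < L.N := hL.tbN _ hL.b1m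
  have h2 := hP.dr L.b1 0 h1.le (Nat.zero_le _)
    (pres_bdry hL.toGoodN h1.le (Nat.zero_le _) (Or.inr (Or.inr (Or.inl rfl))))
  constructor
  · have h3 := Complex.abs_im_le_norm (P L.b1 0 - (L.b1 + (0 : ℕ) * rho))
    have h4 : (P L.b1 0 - (L.b1 + (0 : ℕ) * rho)).im = (P L.b1 0).im := by simp
    rw [h4] at h3
    exact h3.trans h2
  · have h3 := Complex.abs_re_le_norm (P L.b1 0 - (L.b1 + (0 : ℕ) * rho))
    have h4 : (P L.b1 0 - (L.b1 + (0 : ℕ) * rho)).re = (P L.b1 0).re - L.b1 := by simp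
    rw [h4] at h3
    exact h3.trans h2

theorem Re11_u (hL : L.Good) (hP : PosD L P u) : 0 ≤ u.im ∧ u.im ≤ 1 / 1000 ∧
    999 / 1000 ≤ u.re ∧ u.re ≤ 1 ∧ 6 / 5 ≤ ((L.b1 : ℝ) - L.T) * u.im := by
  have hTb : (L.T : ℝ) + 2 ≤ L.b1 := by exact_mod_cast hL.Tb
  have h1 := hP.uim
  have h2 := hP.ure
  have h3 := Complex.abs_im_le_norm (u - 1)
  have h4 := Complex.abs_re_le_norm (u - 1)
  have h5 := Complex.abs_re_le_norm u
  rw [hP.unrm] at h5
  rw [Complex.sub_im, Complex.one_im, sub_zero] at h3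
  rw [Complex.sub_re, Complex.one_re] at h4
  have h6 := abs_le.mp (h3.trans h2)
  have h7 := abs_le.mp (h4.trans h2)
  have h8 := abs_le.mp h5
  refine ⟨?_, h6.2, by linarith [h7.1], h8.2, h1⟩
  by_contra hcon
  push Not at hcon
  have h9 : ((L.b1 : ℝ) - L.T) * u.im ≤ 0 :=
    mul_nonpos_of_nonneg_of_nonpos (by linarith) hcon.le
  linarith

theorem Re11_im (X y : ℝ) : (u * ((X : ℂ) + y * (1 - om))).im =
    X * u.im + y * (u.im / 2 - u.re * (Real.sqrt 3 / 2)) := by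
  simp only [Complex.mul_im, Complex.add_im, Complex.add_re, Complex.mul_re, Complex.ofReal_re,
    Complex.ofReal_im, Complex.sub_re, Complex.sub_im, Complex.one_re, Complex.one_im, om_re,
    om_im]
  ring

theorem Re11_re (X y : ℝ) : (u * ((X : ℂ) + y * (1 - om))).re =
    X * u.re + y * (u.re / 2 + u.im * (Real.sqrt 3 / 2)) := by
  simp only [Complex.mul_im, Complex.add_im, Complex.add_re, Complex.mul_re, Complex.ofReal_re,
    Complex.ofReal_im, Complex.sub_re, Complex.sub_im, Complex.one_re, Complex.one_im, om_re,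
    om_im]
  ring

theorem lev_im (hL : L.Good) (hP : PosD L P u) {n : ℕ × ℕ} {z : ℂ} (h : PsE L P u n z) :
    z.im ≤ -6 / 5 + 1 / 40 := by
  obtain ⟨X, y, hz, hX1, hX2, hy0, hy3, hor⟩ := Re11_rep hL h
  obtain ⟨hb1, hb2⟩ := Re11_base hL hP
  obtain ⟨hu1, hu2, hu3, hu4, hu5⟩ := Re11_u hL hP
  obtain ⟨hs1, hs2⟩ := sqrt3_bd
  have hb3 := (abs_le.mp hb1).2
  have hprod : 999 / 1000 * 1.732 ≤ u.re * Real.sqrt 3 :=
    mul_le_mul hu3 hs1.le (by norm_num) (by linarith)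
  have hk : u.im / 2 - u.re * (Real.sqrt 3 / 2) ≤ -(86 / 100) := by
    have : u.re * (Real.sqrt 3 / 2) = u.re * Real.sqrt 3 / 2 := by ring
    rw [this]
    linarith
  have hXu : X * u.im ≤ 0 := mul_nonpos_of_nonpos_of_nonneg hX2 hu1
  have him : z.im = (P L.b1 0).im + (X * u.im + y * (u.im / 2 - u.re * (Real.sqrt 3 / 2))) := by
    rw [hz, Complex.add_im, Re11_im]
  have hyk : y * (u.im / 2 - u.re * (Real.sqrt 3 / 2)) ≤ y * (-(86 / 100)) :=
    mul_le_mul_of_nonneg_left hk hy0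
  rcases hor with h2 | h2
  · rw [him]
    linarith
  · have h3 : X * u.im ≤ ((L.T : ℝ) - L.b1) * u.im := mul_le_mul_of_nonneg_right h2 hu1
    have h4 : ((L.T : ℝ) - L.b1) * u.im = -(((L.b1 : ℝ) - L.T) * u.im) := by ring
    rw [him]
    linarith

theorem lev_re (hL : L.Good) (hP : PosD L P u) {n : ℕ × ℕ} {z : ℂ} (h : PsE L P u n z) :
    (L.T : ℝ) - 2 ≤ z.re ∧ z.re ≤ L.b1 + 2 + 1 / 40 := by
  obtain ⟨X, y, hz, hX1, hX2, hy0, hy3, hor⟩ := Re11_rep hL h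
  obtain ⟨hb1, hb2⟩ := Re11_base hL hP
  obtain ⟨hu1, hu2, hu3, hu4, hu5⟩ := Re11_u hL hP
  obtain ⟨hs1, hs2⟩ := sqrt3_bd
  have hb3 := abs_le.mp hb2
  have hre : z.re = (P L.b1 0).re + (X * u.re + y * (u.re / 2 + u.im * (Real.sqrt 3 / 2))) := by
    rw [hz, Complex.add_re, Re11_re]
  have hs0 : 0 ≤ Real.sqrt 3 := by linarith
  have hp0 : 0 ≤ u.im * (Real.sqrt 3 / 2) := mul_nonneg hu1 (by linarith)
  have hp1 : u.im * (Real.sqrt 3 / 2) ≤ 1 / 1000 * 1 :=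
    mul_le_mul hu2 (by linarith) (by linarith) (by norm_num)
  have hk0 : 0 ≤ u.re / 2 + u.im * (Real.sqrt 3 / 2) := by linarith
  have hk1 : u.re / 2 + u.im * (Real.sqrt 3 / 2) ≤ 6 / 10 := by linarith
  have hyk0 : 0 ≤ y * (u.re / 2 + u.im * (Real.sqrt 3 / 2)) := mul_nonneg hy0 hk0
  have hyk1 : y * (u.re / 2 + u.im * (Real.sqrt 3 / 2)) ≤ 3 * (6 / 10) :=
    mul_le_mul hy3 hk1 hk0 (by norm_num)
  have hXl : X * 1 ≤ X * u.re := mul_le_mul_of_nonpos_left hu4 hX2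
  have hXu : X * u.re ≤ 0 := mul_nonpos_of_nonpos_of_nonneg hX2 (by linarith)
  rw [hre]
  constructor
  · linarith
  · linarith

/-- the other normal vertices are above the line `Im = -1/20`: their nominal second coordinate is
at least `0` (`B ≥ 32`), and `Im rho > 0`; for the ties at the left side it is `8 i + 3`, … -/
theorem nor_im (hL : L.GoodN) (hP : PosD L P u) {n : ℕ × ℕ} {z : ℂ} (h : PsN L P n z)
    (h' : ¬ PsB L P n z) : -1 / 20 ≤ z.im := by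
  have h1 := ps_nom hL hP h
  have h2 := Complex.abs_im_le_norm (z - nomC n)
  have h3 := (abs_le.mp (h2.trans h1)).1
  have h4 : 32 ≤ n.2 := by
    rcases h with ⟨i, j, -, rfl, -⟩ | ⟨g, c, -, a, b, -, rfl, -⟩ | ⟨g, c, -, a, b, -, rfl, -⟩ | h |
      ⟨i, -, rfl, -⟩ | ⟨i, -, rfl, -⟩ | ⟨i, -, rfl, -⟩
    · show 32 ≤ 8 * j + 32
      omega
    · show 32 ≤ 8 * c + 32 + b
      omega
    · show 32 ≤ 8 * g + 32 + a
      omega
    · exact absurd h h'
    · show 32 ≤ 8 * i + 35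
      omega
    · show 32 ≤ 8 * L.N + 39
      omega
    · show 32 ≤ 8 * i + 37
      omega
  have h5 : (nomC n).im = ((n.2 : ℝ) - 32) * (4 * Real.sqrt 3 / 7) / 8 := by
    have h6 : nomC n = (((((n.1 : ℝ) - 32) / 8 : ℝ)) : ℂ) +
        ((((n.2 : ℝ) - 32) / 8 : ℝ) : ℂ) * rho := by
      unfold nomC
      push_cast
      ring
    rw [h6, Complex.add_im, Complex.ofReal_im, Complex.im_ofReal_mul, rho_im]
    ring
  have h7 : (0 : ℝ) ≤ (n.2 : ℝ) - 32 := by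
    have : (32 : ℝ) ≤ (n.2 : ℝ) := by exact_mod_cast h4
    linarith
  have h8 : 0 ≤ (nomC n).im := by
    rw [h5]
    have := Real.sqrt_nonneg 3
    positivity
  rw [Complex.sub_im] at h3
  linarith

/-- a lever vertex and a normal vertex which is not a tie at the bottom have distance at least
`1` -/
theorem sep_EN (hL : L.Good) (hP : PosD L P u) {n n' : ℕ × ℕ} {z w : ℂ} (h : PsE L P u n z)
    (h' : PsN L P n' w) (hb : ¬ PsB L P n' w) : 1 ≤ ‖z - w‖ := by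
  have h1 := lev_im hL hP h
  have h2 := nor_im hL.toGoodN hP h' hb
  have h3 := Complex.abs_im_le_norm (z - w)
  rw [Complex.sub_im] at h3
  have h4 := neg_abs_le (z.im - w.im)
  linarith

end Pool.Agent.PLN
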