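import Pool.Agent.PLN.Re1
import Pool.Agent.PLN.Nm2

/-!
# Positions of all vertices

`PsG`, `PsV`, `PsH`, `PsB`, `PsL`, `PsT`, `PsR`: the name (its coordinates) and the position of a
grid vertex, of a vertex of a vertical or horizontal body, of a tie at the bottom, left, top or right
side.  `PsE`: lever vertices.

`ps_nom`: by `dr` the grid vertices are within `1/40` of their nominal position.  The others are
`P i j + σ * (a + b rho) / 8` with `|σ - 1| ≤ 1/1000` (`vbd` with `k = 1`: `σ = hs P g c`; `hbd`: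
`σ = vs P c g / rho`; `tieB`, …) and `|a + b rho| / 8 ≤ 15/8 + 56/8 ≤ 9`, so they are within
`1/40 + 9/1000 ≤ 1/20` of their nominal position.
-/

namespace Pool.Agent.PLN

/-- grid vertices -/
def PsG (L : Lay) (P : ℕ → ℕ → ℂ) (n : ℕ × ℕ) (z : ℂ) : Prop :=
  ∃ i j, L.pres i j ∧ n = (8 * i + 32, 8 * j + 32) ∧ z = P i j

/-- vertices of vertical bodies -/
def PsV (L : Lay) (P : ℕ → ℕ → ℂ) (n : ℕ × ℕ) (z : ℂ) : Prop :=
  ∃ g c, (g, c) ∈ L.vb ∧ ∃ a b, (a, b) ∈ Tm ∧ n = (8 * g + 32 + a, 8 * c + 32 + b) ∧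
    z = P g c + hs P g c * (a + b * rho) / 8

/-- vertices of horizontal bodies -/
def PsH (L : Lay) (P : ℕ → ℕ → ℂ) (n : ℕ × ℕ) (z : ℂ) : Prop :=
  ∃ g c, (g, c) ∈ L.hb ∧ ∃ a b, (a, b) ∈ Tm ∧ n = (8 * c + 32 + b, 8 * g + 32 + a) ∧
    z = P c g + vs P c g / rho * (b + a * rho) / 8

/-- ties at the bottom -/
def PsB (L : Lay) (P : ℕ → ℕ → ℂ) (n : ℕ × ℕ) (z : ℂ) : Prop :=
  ∃ i ∈ L.tb, n = (8 * i + 35, 25) ∧ z = P i 0 + hs P i 0 * (3 - 7 * rho) / 8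

/-- ties at the left side -/
def PsL (L : Lay) (P : ℕ → ℕ → ℂ) (n : ℕ × ℕ) (z : ℂ) : Prop :=
  ∃ i ∈ L.tb, n = (25, 8 * i + 35) ∧ z = P 0 i + vs P 0 i / rho * (-7 + 3 * rho) / 8

/-- ties at the top -/
def PsT (L : Lay) (P : ℕ → ℕ → ℂ) (n : ℕ × ℕ) (z : ℂ) : Prop :=
  ∃ i ∈ L.tt, n = (8 * i + 37, 8 * L.N + 39) ∧ z = P i L.N + hs P i L.N * (5 + 7 * rho) / 8

/-- ties at the right side -/
def PsR (L : Lay) (P : ℕ → ℕ → ℂ) (n : ℕ × ℕ) (z : ℂ) : Prop :=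
  ∃ i ∈ L.tt, n = (8 * L.N + 39, 8 * i + 37) ∧ z = P L.N i + vs P L.N i / rho * (7 + 5 * rho) / 8

/-- normal vertices -/
def PsN (L : Lay) (P : ℕ → ℕ → ℂ) (n : ℕ × ℕ) (z : ℂ) : Prop :=
  PsG L P n z ∨ PsV L P n z ∨ PsH L P n z ∨ PsB L P n z ∨ PsL L P n z ∨ PsT L P n z ∨ PsR L P n z

/-- lever vertices -/
def PsE (L : Lay) (P : ℕ → ℕ → ℂ) (u : ℂ) (n : ℕ × ℕ) (z : ℂ) : Prop :=
  ((true, n) : Nm) ∈ L.lev ∧
    z = P L.b1 0 + u * (((n.1 : ℂ) - 32 - 8 * L.b1) + ((n.2 : ℂ) - 32) * rho) / 8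

variable {L : Lay} {P : ℕ → ℕ → ℂ} {u : ℂ}

private theorem re2_aux {p q s w z m : ℂ} (hp : ‖p - q‖ ≤ 1 / 40) (hs : ‖s - 1‖ ≤ 1 / 1000)
    (hw : ‖w‖ ≤ 9) (hz : z = p + s * w) (hm : m = q + w) : ‖z - m‖ ≤ 1 / 20 := by
  have e : z - m = (p - q) + (s - 1) * w := by rw [hz, hm]; ring
  rw [e]
  have h1 : ‖(s - 1) * w‖ ≤ 9 / 1000 := by
    rw [norm_mul]
    calc ‖s - 1‖ * ‖w‖ ≤ (1 / 1000) * 9 :=
          mul_le_mul hs hw (norm_nonneg _) (by norm_num)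
      _ = 9 / 1000 := by norm_num
  calc ‖(p - q) + (s - 1) * w‖ ≤ ‖p - q‖ + ‖(s - 1) * w‖ := norm_add_le _ _
    _ ≤ 1 / 40 + 9 / 1000 := add_le_add hp h1
    _ ≤ 1 / 20 := by norm_num

private theorem re2_rho0 : rho ≠ 0 := by
  intro h
  have := rho_nrm
  rw [h, norm_zero] at this
  exact zero_ne_one this

private theorem re2_w (a b : ℝ) (ha : |a| ≤ 15) (hb : |b| ≤ 56) :
    ‖((a : ℂ) + b * rho) / 8‖ ≤ 9 := by
  rw [norm_div]
  have h8 : ‖(8 : ℂ)‖ = 8 := by norm_num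
  rw [h8, div_le_iff₀ (by norm_num)]
  calc ‖(a : ℂ) + b * rho‖ ≤ ‖(a : ℂ)‖ + ‖(b : ℂ) * rho‖ := norm_add_le _ _
    _ = |a| + |b| := by
      rw [norm_mul, rho_nrm, mul_one, Complex.norm_real, Complex.norm_real, Real.norm_eq_abs,
        Real.norm_eq_abs]
    _ ≤ 15 + 56 := add_le_add ha hb
    _ ≤ 9 * 8 := by norm_num

private theorem re2_w' (a b : ℝ) (ha : |a| ≤ 56) (hb : |b| ≤ 15) :
    ‖((a : ℂ) + b * rho) / 8‖ ≤ 9 := by
  rw [norm_div]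
  have h8 : ‖(8 : ℂ)‖ = 8 := by norm_num
  rw [h8, div_le_iff₀ (by norm_num)]
  calc ‖(a : ℂ) + b * rho‖ ≤ ‖(a : ℂ)‖ + ‖(b : ℂ) * rho‖ := norm_add_le _ _
    _ = |a| + |b| := by
      rw [norm_mul, rho_nrm, mul_one, Complex.norm_real, Complex.norm_real, Real.norm_eq_abs,
        Real.norm_eq_abs]
    _ ≤ 56 + 15 := add_le_add ha hb
    _ ≤ 9 * 8 := by norm_num

private theorem re2_Tm {a b : ℕ} (h : (a, b) ∈ Tm) : a ≤ 15 ∧ b ≤ 56 := by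
  simp only [Tm, List.mem_cons, Prod.mk.injEq, List.not_mem_nil, or_false] at h
  omega

/-- every normal vertex has a position -/
theorem psN_exists {n : ℕ × ℕ} (h : ((false, n) : Nm) ∈ L.vN) : ∃ z, PsN L P n z := by
  have hk : ∀ m : ℕ × ℕ, ((false, n) : Nm) = (false, m) → n = m := fun m hm =>
    (Prod.mk.injEq _ _ _ _ ▸ hm : false = false ∧ n = m).2
  rw [mem_vN] at h
  rcases h with ⟨i, j, hp, hn⟩ | ⟨g, c, hgc, a, b, hab, hn⟩ | ⟨g, c, hgc, a, b, hab, hn⟩ |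
    ⟨i, hi, hn⟩ | ⟨i, hi, hn⟩ | ⟨i, hi, hn⟩ | ⟨i, hi, hn⟩
  · exact ⟨_, Or.inl ⟨i, j, hp, hk _ hn, rfl⟩⟩
  · exact ⟨_, Or.inr (Or.inl ⟨g, c, hgc, a, b, hab, hk _ hn, rfl⟩)⟩
  · exact ⟨_, Or.inr (Or.inr (Or.inl ⟨g, c, hgc, a, b, hab, hk _ hn, rfl⟩))⟩
  · exact ⟨_, Or.inr (Or.inr (Or.inr (Or.inl ⟨i, hi, hk _ hn, rfl⟩)))⟩
  · exact ⟨_, Or.inr (Or.inr (Or.inr (Or.inr (Or.inl ⟨i, hi, hk _ hn, rfl⟩))))⟩
  · exact ⟨_, Or.inr (Or.inr (Or.inr (Or.inr (Or.inr (Or.inl ⟨i, hi, hk _ hn, rfl⟩)))))⟩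
  · exact ⟨_, Or.inr (Or.inr (Or.inr (Or.inr (Or.inr (Or.inr ⟨i, hi, hk _ hn, rfl⟩)))))⟩

theorem hs_vb (hP : PosD L P u) {g c : ℕ} (h : (g, c) ∈ L.vb) : ‖hs P g c‖ = 1 ∧
    ‖hs P g c - 1‖ ≤ 1 / 1000 ∧ ∀ k : ℕ, k ≤ 2 → P (g + k) c = P g c + k * hs P g c ∧
      P (g + k) (c + 7) = P g c + (k + 7 * rho) * hs P g c := by
  obtain ⟨s, hs1, hs2, hs3⟩ := hP.vbd g c h
  have e : hs P g c = s := by
    unfold hs
    rw [(hs3 1 (by norm_num)).1]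
    push_cast
    ring
  rw [e]
  exact ⟨hs1, hs2, hs3⟩

theorem vs_hb (hP : PosD L P u) {g c : ℕ} (h : (g, c) ∈ L.hb) : ‖vs P c g / rho‖ = 1 ∧
    ‖vs P c g / rho - 1‖ ≤ 1 / 1000 ∧ ∀ k : ℕ, k ≤ 2 →
      P c (g + k) = P c g + k * rho * (vs P c g / rho) ∧
      P (c + 7) (g + k) = P c g + (7 + k * rho) * (vs P c g / rho) := by
  obtain ⟨s, hs1, hs2, hs3⟩ := hP.hbd g c h
  have e : vs P c g / rho = s := by
    rw [div_eq_iff re2_rho0]
    unfold vs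
    rw [(hs3 1 (by norm_num)).1]
    push_cast
    ring
  rw [e]
  exact ⟨hs1, hs2, hs3⟩

private theorem re2_divrho {v : ℂ} (h : ‖v - rho‖ ≤ 1 / 1000) : ‖v / rho - 1‖ ≤ 1 / 1000 := by
  have e : v / rho - 1 = (v - rho) / rho := by
    rw [sub_div, div_self re2_rho0]
  rw [e, norm_div, rho_nrm, div_one]
  exact h

theorem ps_nom (hL : L.GoodN) (hP : PosD L P u) {n : ℕ × ℕ} {z : ℂ} (h : PsN L P n z) :
    ‖z - nomC n‖ ≤ 1 / 20 := by
  have h1 : ‖(1 : ℂ) - 1‖ ≤ 1 / 1000 := by norm_num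
  rcases h with ⟨i, j, hp, hn, hz⟩ | ⟨g, c, hgc, a, b, hab, hn, hz⟩ |
    ⟨g, c, hgc, a, b, hab, hn, hz⟩ |
    ⟨i, hi, hn, hz⟩ | ⟨i, hi, hn, hz⟩ | ⟨i, hi, hn, hz⟩ | ⟨i, hi, hn, hz⟩
  · refine re2_aux (hP.dr i j hp.1 hp.2.1 hp) h1 (w := 0) (by simp) (by rw [hz]; ring) ?_
    rw [hn]
    unfold nomC
    push_cast
    ring
  · have hg2 : 2 ≤ g := hL.vb2 _ hgc
    have hp : L.pres g c := pres_side hL (rect_vb hgc) (by simp only; omega) (by simp only; omega)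
      (by simp only; omega) (by simp only; omega) (Or.inr (Or.inr (Or.inl rfl)))
    have hw := re2_w (a : ℝ) (b : ℝ) (by
        rw [abs_of_nonneg (by positivity)]; exact_mod_cast (re2_Tm hab).1) (by
        rw [abs_of_nonneg (by positivity)]; exact_mod_cast (re2_Tm hab).2)
    refine re2_aux (hP.dr g c hp.1 hp.2.1 hp) (hs_vb hP hgc).2.1 hw ?_ ?_
    · rw [hz]
      push_cast
      ring
    · rw [hn]
      unfold nomC
      push_cast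
      ring
  · have hg2 : 2 ≤ g := hL.hb2 _ hgc
    have hp : L.pres c g := pres_side hL (rect_hb hgc) (by simp only; omega) (by simp only; omega)
      (by simp only; omega) (by simp only; omega) (Or.inl rfl)
    have hw := re2_w' (b : ℝ) (a : ℝ) (by
        rw [abs_of_nonneg (by positivity)]; exact_mod_cast (re2_Tm hab).2) (by
        rw [abs_of_nonneg (by positivity)]; exact_mod_cast (re2_Tm hab).1)
    refine re2_aux (hP.dr c g hp.1 hp.2.1 hp) (vs_hb hP hgc).2.1 hw ?_ ?_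
    · rw [hz]
      push_cast
      ring
    · rw [hn]
      unfold nomC
      push_cast
      ring
  · have hN := hL.tbN i hi
    have hp : L.pres i 0 := pres_bdry hL hN.le (Nat.zero_le _) (Or.inr (Or.inr (Or.inl rfl)))
    have hw := re2_w 3 (-7) (by norm_num) (by norm_num)
    refine re2_aux (hP.dr i 0 hp.1 hp.2.1 hp) (hP.tieB i hi).1 hw ?_ ?_
    · rw [hz]
      push_cast
      ring
    · rw [hn]
      unfold nomC
      push_cast
      ring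
  · have hN := hL.tbN i hi
    have hp : L.pres 0 i := pres_bdry hL (Nat.zero_le _) hN.le (Or.inl rfl)
    have hw := re2_w (-7) 3 (by norm_num) (by norm_num)
    refine re2_aux (hP.dr 0 i hp.1 hp.2.1 hp) (re2_divrho (hP.tieL i hi).1) hw ?_ ?_
    · rw [hz]
      push_cast
      ring
    · rw [hn]
      unfold nomC
      push_cast
      ring
  · have hN := hL.ttN i hi
    have hp : L.pres i L.N := pres_bdry hL hN.le le_rfl (Or.inr (Or.inr (Or.inr rfl)))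
    have hw := re2_w 5 7 (by norm_num) (by norm_num)
    refine re2_aux (hP.dr i L.N hp.1 hp.2.1 hp) (hP.tieT i hi).1 hw ?_ ?_
    · rw [hz]
      push_cast
      ring
    · rw [hn]
      unfold nomC
      push_cast
      ring
  · have hN := hL.ttN i hi
    have hp : L.pres L.N i := pres_bdry hL le_rfl hN.le (Or.inr (Or.inl rfl))
    have hw := re2_w 7 5 (by norm_num) (by norm_num)
    refine re2_aux (hP.dr L.N i hp.1 hp.2.1 hp) (re2_divrho (hP.tieR i hi).1) hw ?_ ?_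
    · rw [hz]
      push_cast
      ring
    · rw [hn]
      unfold nomC
      push_cast
      ring

end Pool.Agent.PLN
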