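import Pool.Agent.PLN.Re2

/-!
# Two grid vertices

The difference is `(8 a, 8 b)` with integers `a, b` not both `0`.  If `|a| ≥ 2` or `|b| ≥ 2`, use
`far9`; if `|a| = |b| = 1`, `qf = 64 * 12` or `64 * 16`; the remaining cases are `(±1, 0)`,
`(0, ±1)`: adjacent, and the distance is `1` by `hu`, `vu`.
-/

namespace Pool.Agent.PLN

variable {L : Lay} {P : ℕ → ℕ → ℂ} {u : ℂ}

theorem Re3_arc80 (A B : ℕ) : arc (A, B) (A + 8, B) = true := by
  rw [arc_iff]
  simp

theorem Re3_arc08 (A B : ℕ) : arc (A, B) (A, B + 8) = true := by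
  rw [arc_iff]
  simp

theorem Re3_h (hP : PosD L P u) {i j : ℕ} (h : L.pres i j) (h' : L.pres (i + 1) j) :
    PLt (8 * i + 32, 8 * j + 32) (8 * (i + 1) + 32, 8 * j + 32) (P i j) (P (i + 1) j) := by
  right
  refine ⟨?_, ?_⟩
  · have e : 8 * (i + 1) + 32 = (8 * i + 32) + 8 := by ring
    rw [e, Re3_arc80]
    simp
  · have h1 := hP.hu i j h h'
    unfold hs at h1
    rw [norm_sub_rev]
    exact h1

theorem Re3_v (hP : PosD L P u) {i j : ℕ} (h : L.pres i j) (h' : L.pres i (j + 1)) :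
    PLt (8 * i + 32, 8 * j + 32) (8 * i + 32, 8 * (j + 1) + 32) (P i j) (P i (j + 1)) := by
  right
  refine ⟨?_, ?_⟩
  · have e : 8 * (j + 1) + 32 = (8 * j + 32) + 8 := by ring
    rw [e, Re3_arc08]
    simp
  · have h1 := hP.vu i j h h'
    unfold vs at h1
    rw [norm_sub_rev]
    exact h1

theorem Re3_diag {a b : ℤ} (ha : a = 8 ∨ a = -8) (hb : b = 8 ∨ b = -8) : 543 ≤ qf a b := by
  rcases ha with rfl | rfl <;> rcases hb with rfl | rfl <;> norm_num [qf]

theorem pl_GG (hP : PosD L P u) {n n' : ℕ × ℕ} {z w : ℂ} (h : PsG L P n z) (h' : PsG L P n' w)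
    (hn : n ≠ n') : PLt n n' z w := by
  obtain ⟨i, j, hij, rfl, rfl⟩ := h
  obtain ⟨i', j', hij', rfl, rfl⟩ := h'
  have hn' : ¬ (i = i' ∧ j = j') := by
    rintro ⟨rfl, rfl⟩
    exact hn rfl
  by_cases h1 : i + 2 ≤ i' ∨ i' + 2 ≤ i ∨ j + 2 ≤ j' ∨ j' + 2 ≤ j
  · left
    unfold qd
    apply far9
    push_cast
    omega
  · have c1 : i' = i ∨ i' = i + 1 ∨ i = i' + 1 := by omega
    have c2 : j' = j ∨ j' = j + 1 ∨ j = j' + 1 := by omega
    rcases c1 with rfl | rfl | rfl <;> rcases c2 with rfl | rfl | rfl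
    · exact absurd ⟨rfl, rfl⟩ hn'
    · exact Re3_v hP hij hij'
    · exact (Re3_v hP hij' hij).symm
    · exact Re3_h hP hij hij'
    · left
      apply Re3_diag <;> push_cast <;> omega
    · left
      apply Re3_diag <;> push_cast <;> omega
    · exact (Re3_h hP hij' hij).symm
    · left
      apply Re3_diag <;> push_cast <;> omega
    · left
      apply Re3_diag <;> push_cast <;> omega

end Pool.Agent.PLN
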