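import Pool.Agent.PLN.Re2

/-!
# A grid vertex and a tie

Bottom: the tie `i'` has the coordinates `(8 i' + 3, -7)` (minus `32`), the grid vertex
`(8 i, 8 j)`.  If `j ≥ 1`, the second coordinates differ by at least `15`.  If `j = 0`: the
difference is `(8 (i - i') - 3, 7)`; it is adjacent for `i = i'` (`(-3, 7)`) and `i = i' + 1`
(`(5, 7)`), otherwise the first coordinate is at least `9` in absolute value.  Positions:
`P i' 0 + hs P i' 0 * (3 - 7 rho) / 8` and `P i' 0`, `P (i'+1) 0 = P i' 0 + hs P i' 0`;
`‖hs P i' 0‖ = 1` by `hu` (the vertices on the boundary are present, `pres_bdry`); `rigid_one`.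
Top: the tie `(8 i' + 5, 8 N + 7)`: adjacent to `(i', N)` and `(i' + 1, N)`.  Left:
`(-7, 8 i' + 3)`, right: `(8 N + 7, 8 i' + 5)`: mirror images (`vu`).
-/

namespace Pool.Agent.PLN

variable {L : Lay} {P : ℕ → ℕ → ℂ} {u : ℂ}

theorem nrm_tie (hL : L.GoodN) (hP : PosD L P u) {i : ℕ} (hi : i < L.N) : ‖hs P i 0‖ = 1 ∧
    ‖hs P i L.N‖ = 1 ∧ ‖vs P 0 i / rho‖ = 1 ∧ ‖vs P L.N i / rho‖ = 1 := by
  refine ⟨?_, ?_, ?_, ?_⟩
  · exact hP.hu _ _ (pres_bdry hL hi.le (Nat.zero_le _) (by tauto))
      (pres_bdry hL hi (Nat.zero_le _) (by tauto))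
  · exact hP.hu _ _ (pres_bdry hL hi.le le_rfl (by tauto))
      (pres_bdry hL hi le_rfl (by tauto))
  · rw [norm_div, rho_nrm, div_one]
    exact hP.vu _ _ (pres_bdry hL (Nat.zero_le _) hi.le (by tauto))
      (pres_bdry hL (Nat.zero_le _) hi (by tauto))
  · rw [norm_div, rho_nrm, div_one]
    exact hP.vu _ _ (pres_bdry hL le_rfl hi.le (by tauto))
      (pres_bdry hL le_rfl hi (by tauto))

theorem Re7_one {τ z w : ℂ} (hτ : ‖τ‖ = 1) (a b : ℤ) (h : qf a b = 448)
    (e : z - w = τ * ((a : ℂ) + b * rho) / 8) : ‖z - w‖ = 1 := by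
  rw [e]
  exact rigid_one hτ h

theorem Re7_rho0 : rho ≠ 0 := by
  intro h
  have h1 := rho_nrm
  rw [h, norm_zero] at h1
  norm_num at h1

theorem Re7_vs (i j : ℕ) : P i (j + 1) = P i j + vs P i j / rho * rho := by
  rw [div_mul_cancel₀ _ Re7_rho0]
  unfold vs
  ring

theorem Re7_hs (i j : ℕ) : P (i + 1) j = P i j + hs P i j := by
  unfold hs
  ring

theorem pl_GB (hL : L.GoodN) (hP : PosD L P u) {n n' : ℕ × ℕ} {z w : ℂ} (h : PsG L P n z)
    (h' : PsB L P n' w) : PLt n n' z w := by
  obtain ⟨i, j, hp, rfl, rfl⟩ := h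
  obtain ⟨i', hi', rfl, rfl⟩ := h'
  have hN := hL.tbN _ hi'
  have hτ := (nrm_tie hL hP hN).1
  by_cases hj : j = 0
  · subst hj
    by_cases h1 : i = i'
    · subst h1
      right
      refine ⟨?_, Re7_one hτ (-3) 7 (by decide) ?_⟩
      · simp only [arc, Bool.or_eq_true, Bool.and_eq_true, decide_eq_true_eq, and_true, true_and,
          or_true, true_or] <;> omega
      · push_cast
        ring
    · by_cases h2 : i = i' + 1
      · subst h2
        right
        refine ⟨?_, Re7_one hτ 5 7 (by decide) ?_⟩
        · simp only [arc, Bool.or_eq_true, Bool.and_eq_true, decide_eq_true_eq, and_true, true_and,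
            or_true, true_or] <;> omega
        · rw [Re7_hs (P := P)]
          push_cast
          ring
      · left
        unfold qd
        apply far9
        simp only
        omega
  · left
    unfold qd
    apply far9
    simp only
    omega

theorem pl_GL (hL : L.GoodN) (hP : PosD L P u) {n n' : ℕ × ℕ} {z w : ℂ} (h : PsG L P n z)
    (h' : PsL L P n' w) : PLt n n' z w := by
  obtain ⟨i, j, hp, rfl, rfl⟩ := h
  obtain ⟨i', hi', rfl, rfl⟩ := h'
  have hN := hL.tbN _ hi'
  have hτ := (nrm_tie hL hP hN).2.2.1
  by_cases hj : i = 0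
  · subst hj
    by_cases h1 : j = i'
    · subst h1
      right
      refine ⟨?_, Re7_one hτ 7 (-3) (by decide) ?_⟩
      · simp only [arc, Bool.or_eq_true, Bool.and_eq_true, decide_eq_true_eq, and_true, true_and,
          or_true, true_or] <;> omega
      · push_cast
        ring
    · by_cases h2 : j = i' + 1
      · subst h2
        right
        refine ⟨?_, Re7_one hτ 7 5 (by decide) ?_⟩
        · simp only [arc, Bool.or_eq_true, Bool.and_eq_true, decide_eq_true_eq, and_true, true_and,
            or_true, true_or] <;> omega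
        · rw [Re7_vs (P := P)]
          push_cast
          ring
      · left
        unfold qd
        apply far9
        simp only
        omega
  · left
    unfold qd
    apply far9
    simp only
    omega

theorem pl_GT (hL : L.GoodN) (hP : PosD L P u) {n n' : ℕ × ℕ} {z w : ℂ} (h : PsG L P n z)
    (h' : PsT L P n' w) : PLt n n' z w := by
  obtain ⟨i, j, hp, rfl, rfl⟩ := h
  obtain ⟨i', hi', rfl, rfl⟩ := h'
  have hN := hL.ttN _ hi'
  have hτ := (nrm_tie hL hP hN).2.1
  have hjN := hp.2.1
  by_cases hj : j = L.N
  · subst hj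
    by_cases h1 : i = i'
    · subst h1
      right
      refine ⟨?_, Re7_one hτ (-5) (-7) (by decide) ?_⟩
      · simp only [arc, Bool.or_eq_true, Bool.and_eq_true, decide_eq_true_eq, and_true, true_and,
          or_true, true_or] <;> omega
      · push_cast
        ring
    · by_cases h2 : i = i' + 1
      · subst h2
        right
        refine ⟨?_, Re7_one hτ 3 (-7) (by decide) ?_⟩
        · simp only [arc, Bool.or_eq_true, Bool.and_eq_true, decide_eq_true_eq, and_true, true_and,
            or_true, true_or] <;> omega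
        · rw [Re7_hs (P := P)]
          push_cast
          ring
      · left
        unfold qd
        apply far9
        simp only
        omega
  · left
    unfold qd
    apply far9
    simp only
    omega

theorem pl_GR (hL : L.GoodN) (hP : PosD L P u) {n n' : ℕ × ℕ} {z w : ℂ} (h : PsG L P n z)
    (h' : PsR L P n' w) : PLt n n' z w := by
  obtain ⟨i, j, hp, rfl, rfl⟩ := h
  obtain ⟨i', hi', rfl, rfl⟩ := h'
  have hN := hL.ttN _ hi'
  have hτ := (nrm_tie hL hP hN).2.2.2
  have hiN := hp.1
  by_cases hj : i = L.N
  · subst hj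
    by_cases h1 : j = i'
    · subst h1
      right
      refine ⟨?_, Re7_one hτ (-7) (-5) (by decide) ?_⟩
      · simp only [arc, Bool.or_eq_true, Bool.and_eq_true, decide_eq_true_eq, and_true, true_and,
          or_true, true_or] <;> omega
      · push_cast
        ring
    · by_cases h2 : j = i' + 1
      · subst h2
        right
        refine ⟨?_, Re7_one hτ (-7) 3 (by decide) ?_⟩
        · simp only [arc, Bool.or_eq_true, Bool.and_eq_true, decide_eq_true_eq, and_true, true_and,
            or_true, true_or] <;> omega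
        · rw [Re7_vs (P := P)]
          push_cast
          ring
      · left
        unfold qd
        apply far9
        simp only
        omega
  · left
    unfold qd
    apply far9
    simp only
    omega

end Pool.Agent.PLN
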