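import Pool.Agent.PLN.Rg1
import Pool.Agent.PLN.Cx3

/-!
# Neighbouring cells have the same orientation

`step_h`: the cells `(i, j)` and `(i + 1, j)` have the vertical edge at `i + 1` in common and
`vs (i + 1) j = vs i j` (by `cell_rh`).  With `h1 = hs i j`, `h2 = hs (i+1) j`, `v = vs i j`, the
vectors `h1 + h2`, `h1 + h2 + v`, `h1 + h2 - v` are differences of the positions of the vertices
`(i, j), (i, j+1)` and `(i+2, j), (i+2, j+1)`, so they have length at least `1`; apply
`orient_cell` (in both directions; its hypotheses are symmetric in `h1, h2`).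
`step_v`: the same with the roles of the coordinates exchanged: apply `step_h` to the transposed
realisation (`Real.tr`, `cell_tr`, `gp_trP`); `cr (conj v) (conj h) = cr h v`.
-/

namespace Pool.Agent.PLN

variable {L : Lay} {p : Nm → ℂ}

theorem Rg2_vs (hp : Real L.vN p) {i j : ℕ} (h : L.cell i j) :
    vs (gp p) (i + 1) j = vs (gp p) i j := by
  have e := cell_rh hp h
  unfold vs
  linear_combination e

theorem step_h (hp : Real L.vN p) {i j : ℕ} (h1 : L.cell i j) (h2 : L.cell (i + 1) j) :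
    0 < cr (hs (gp p) i j) (vs (gp p) i j) ↔
      0 < cr (hs (gp p) (i + 1) j) (vs (gp p) (i + 1) j) := by
  obtain ⟨p1, _, p3, _⟩ := pres_of_cell h1
  obtain ⟨_, q2, _, q4⟩ := pres_of_cell h2
  obtain ⟨n1, nv, d1⟩ := cell_ang hp h1
  obtain ⟨n2, _, d2⟩ := cell_ang hp h2
  have ev := Rg2_vs hp h1
  have ev2 := Rg2_vs hp h2
  rw [ev] at d2
  rw [ev]
  have e0 : 1 ≤ ‖hs (gp p) i j + hs (gp p) (i + 1) j‖ := by
    have e : hs (gp p) i j + hs (gp p) (i + 1) j = p (gn (i + 1 + 1) j) - p (gn i j) := by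
      unfold hs gp
      ring
    rw [e]
    refine hp.sep _ (gn_mem q2) _ (gn_mem p1) (fun he => ?_)
    have := gn_inj he
    omega
  have e1 : 1 ≤ ‖hs (gp p) i j + hs (gp p) (i + 1) j + vs (gp p) i j‖ := by
    have e : hs (gp p) i j + hs (gp p) (i + 1) j + vs (gp p) i j =
        p (gn (i + 1 + 1) (j + 1)) - p (gn i j) := by
      rw [← ev, ← ev2]
      unfold hs vs gp
      ring
    rw [e]
    refine hp.sep _ (gn_mem q4) _ (gn_mem p1) (fun he => ?_)
    have := gn_inj he
    omega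
  have e2 : 1 ≤ ‖hs (gp p) i j + hs (gp p) (i + 1) j - vs (gp p) i j‖ := by
    have e : hs (gp p) i j + hs (gp p) (i + 1) j - vs (gp p) i j =
        p (gn (i + 1 + 1) j) - p (gn i (j + 1)) := by
      unfold hs vs gp
      ring
    rw [e]
    refine hp.sep _ (gn_mem q2) _ (gn_mem p3) (fun he => ?_)
    have := gn_inj he
    omega
  constructor
  · intro h
    exact orient_cell n1 n2 nv d1 d2 e0 e1 e2 h
  · intro h
    have e3 : hs (gp p) (i + 1) j + hs (gp p) i j = hs (gp p) i j + hs (gp p) (i + 1) j :=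
      add_comm _ _
    exact orient_cell n2 n1 nv d2 d1 (by rw [e3]; exact e0) (by rw [e3]; exact e1)
      (by rw [e3]; exact e2) h

theorem cr_tr (p : Nm → ℂ) (i j : ℕ) : cr (hs (gp (trP p)) i j) (vs (gp (trP p)) i j) =
    cr (hs (gp p) j i) (vs (gp p) j i) := by
  unfold hs vs
  rw [gp_trP, gp_trP, gp_trP, Rg1_cr, Rg1_cr]
  simp only [Complex.sub_re, Complex.sub_im, Complex.conj_re, Complex.conj_im]
  ring

theorem step_v (hp : Real L.vN p) {i j : ℕ} (h1 : L.cell i j) (h2 : L.cell i (j + 1)) :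
    0 < cr (hs (gp p) i j) (vs (gp p) i j) ↔
      0 < cr (hs (gp p) i (j + 1)) (vs (gp p) i (j + 1)) := by
  have h := step_h hp.tr (cell_tr.2 h1) (cell_tr.2 h2)
  rw [cr_tr, cr_tr] at h
  exact h

end Pool.Agent.PLN
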