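import Pool.Agent.PLN.Rg6
import Pool.Agent.PLN.Rg2

/-!
# Horizontal couplings

Apply `vb_coupling` to the transposed layout and realisation (`goodN_tr`, `Real.tr`, `cell_tr`,
`cr_tr`): `hs (gp (trP p)) i j = conj (vs (gp p) j i)` and `vs (gp (trP p)) i j =
conj (hs (gp p) j i)`.  It gives `conj h = rho * conj (vs P c g)`, so
`h = conj rho * vs P c g`, i.e. `vs P c g = rho * h` as `|rho| = 1`.
-/

namespace Pool.Agent.PLN

variable {L : Lay} {p : Nm → ℂ}

private theorem Rg7_vs (p : Nm → ℂ) (i j : ℕ) :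
    vs (gp (trP p)) i j = (starRingEnd ℂ) (hs (gp p) j i) := by
  unfold vs hs
  rw [gp_trP, gp_trP, map_sub]

private theorem Rg7_hs (p : Nm → ℂ) (i j : ℕ) :
    hs (gp (trP p)) i j = (starRingEnd ℂ) (vs (gp p) j i) := by
  unfold vs hs
  rw [gp_trP, gp_trP, map_sub]

theorem hb_coupling (hL : L.GoodN) (hp : Real L.vN p)
    (ho : ∀ i j, L.cell i j → 0 < cr (hs (gp p) i j) (vs (gp p) i j)) {g c : ℕ}
    (h : (g, c) ∈ L.hb) (v : ℂ) (hl : ∀ k < 8, hs (gp p) (c - 1 + k) (g - 1) = v)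
    (hr : ∀ k < 7, hs (gp p) (c + k) (g + 3) = v) :
    vs (gp p) c g = rho * v ∧
      (∀ j, g - 1 ≤ j → j < g + 3 → vs (gp p) (c + 7) j = vs (gp p) c j) ∧
      vs (gp p) c (g + 1) = vs (gp p) c g := by
  have h1 := vb_coupling (L := L.tr) (p := trP p) (goodN_tr hL) (Real.tr hp)
    (fun i j hc => by rw [cr_tr]; exact ho j i (cell_tr.1 hc)) (g := g) (c := c) h
    ((starRingEnd ℂ) v) (fun k hk => by rw [Rg7_vs, hl k hk]) (fun k hk => by rw [Rg7_vs, hr k hk])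
  obtain ⟨e1, e2, e3⟩ := h1
  have hinj : ∀ a b : ℂ, (starRingEnd ℂ) a = (starRingEnd ℂ) b → a = b :=
    fun a b hab => (starRingEnd ℂ).injective hab
  refine ⟨?_, ?_, ?_⟩
  · rw [Rg7_hs] at e1
    have e4 := congrArg (starRingEnd ℂ) e1
    rw [map_mul, Complex.conj_conj, Complex.conj_conj] at e4
    have e5 : rho * (starRingEnd ℂ) rho = 1 := by
      rw [Complex.mul_conj, ← Complex.sq_norm, rho_nrm]
      norm_num
    rw [e4, ← mul_assoc, e5, one_mul]
  · intro j hj1 hj2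
    have e4 := e2 j hj1 hj2
    rw [Rg7_hs, Rg7_hs] at e4
    exact hinj _ _ e4
  · rw [Rg7_hs, Rg7_hs] at e3
    exact hinj _ _ e3

end Pool.Agent.PLN
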