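import Pool.Agent.PLN.Rg1

/-!
# Ties

Bottom side: for `i ∈ L.tb` there is the vertex `Q i = (false, 8 i + 35, 25)`, adjacent to the grid
vertices `(i, 0)` (difference `(3, -7)`) and `(i + 1, 0)` (difference `(-5, -7)`), and
`Q i`, `Q (i + 1)` are adjacent.  The four-cycles `(i,0), (i+1,0), Q (i+1), Q i` (diagonal
`(i,0), Q (i+1)`) and `Q i, (i+1,0), (i+2,0), Q (i+1)` give (`quad`)
`Q (i+1) - Q i = P (i+1) 0 - P i 0` and `P (i+2) 0 - P (i+1) 0 = Q (i+1) - Q i`.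
Left side: the transposed layout.  Top side: `Q i = (false, 8 i + 37, 8 N + 39)` is adjacent to
`(i, N)` (difference `(5, 7)`) and `(i + 1, N)` (difference `(-3, 7)`); same proof.  Right side: the
transposed layout.
-/

namespace Pool.Agent.PLN

variable {L : Lay} {p : Nm → ℂ}

private theorem Rg8_vs (p : Nm → ℂ) (i j : ℕ) :
    vs (gp (trP p)) i j = (starRingEnd ℂ) (hs (gp p) j i) := by
  unfold vs hs
  rw [gp_trP, gp_trP, map_sub]

private theorem Rg8_hs (p : Nm → ℂ) (i j : ℕ) :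
    hs (gp (trP p)) i j = (starRingEnd ℂ) (vs (gp p) j i) := by
  unfold vs hs
  rw [gp_trP, gp_trP, map_sub]

private theorem Rg8_inj {a b : ℂ} (hab : (starRingEnd ℂ) a = (starRingEnd ℂ) b) : a = b :=
  (starRingEnd ℂ).injective hab

theorem tie_bot (hL : L.GoodN) (hp : Real L.vN p) {i : ℕ} (h : i ∈ L.tb) (h' : i + 1 ∈ L.tb) :
    hs (gp p) (i + 1) 0 = hs (gp p) i 0 := by
  have hN := hL.tbN _ h'
  have hA : gn i 0 ∈ L.vN := gn_mem (pres_bdry hL (by omega) (by omega) (by omega))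
  have hB : gn (i + 1) 0 ∈ L.vN := gn_mem (pres_bdry hL (by omega) (by omega) (by omega))
  have hC : gn (i + 1 + 1) 0 ∈ L.vN := gn_mem (pres_bdry hL (by omega) (by omega) (by omega))
  have hQ0 : ((false, 8 * i + 35, 25) : Nm) ∈ L.vN :=
    mem_vN.2 (Or.inr (Or.inr (Or.inr (Or.inl ⟨i, h, rfl⟩))))
  have hQ1 : ((false, 8 * (i + 1) + 35, 25) : Nm) ∈ L.vN :=
    mem_vN.2 (Or.inr (Or.inr (Or.inr (Or.inl ⟨i + 1, h', rfl⟩))))
  have a1 : adj (gn i 0) (gn (i + 1) 0) = true := adj80 false (8 * i + 32) (8 * 0 + 32)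
  have a2 : adj (gn (i + 1) 0) (false, 8 * (i + 1) + 35, 25) = true := by
    rw [adj_comm]
    exact adj37 false (8 * (i + 1) + 32) 25
  have a3 : adj ((false, 8 * (i + 1) + 35, 25) : Nm) (false, 8 * i + 35, 25) = true := by
    rw [adj_comm]
    exact adj80 false (8 * i + 35) 25
  have a4 : adj ((false, 8 * i + 35, 25) : Nm) (gn i 0) = true := adj37 false (8 * i + 32) 25
  have a5 : adj ((false, 8 * i + 35, 25) : Nm) (gn (i + 1) 0) = true := adj57 false (8 * i + 35) 25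
  have a6 : adj (gn (i + 1) 0) (gn (i + 1 + 1) 0) = true :=
    adj80 false (8 * (i + 1) + 32) (8 * 0 + 32)
  have a7 : adj (gn (i + 1 + 1) 0) (false, 8 * (i + 1) + 35, 25) = true := by
    rw [adj_comm]
    exact adj57 false (8 * (i + 1) + 35) 25
  have q1 := quad hp hA hB hQ1 hQ0 a1 a2 a3 a4 (by simp [gn]) (by simp [gn])
  have q2 := quad hp hQ0 hB hC hQ1 a5 a6 a7 a3 (by simp [gn]) (by simp [gn])
  unfold hs gp
  linear_combination q1 + q2

theorem tie_left (hL : L.GoodN) (hp : Real L.vN p) {i : ℕ} (h : i ∈ L.tb) (h' : i + 1 ∈ L.tb) :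
    vs (gp p) 0 (i + 1) = vs (gp p) 0 i := by
  have h1 := tie_bot (L := L.tr) (p := trP p) (goodN_tr hL) (Real.tr hp) h h'
  rw [Rg8_hs, Rg8_hs] at h1
  exact Rg8_inj h1

theorem tie_top (hL : L.GoodN) (hp : Real L.vN p) {i : ℕ} (h : i ∈ L.tt) (h' : i + 1 ∈ L.tt) :
    hs (gp p) (i + 1) L.N = hs (gp p) i L.N := by
  have hN := hL.ttN _ h'
  have hA : gn i L.N ∈ L.vN := gn_mem (pres_bdry hL (by omega) (by omega) (by omega))
  have hB : gn (i + 1) L.N ∈ L.vN := gn_mem (pres_bdry hL (by omega) (by omega) (by omega))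
  have hC : gn (i + 1 + 1) L.N ∈ L.vN := gn_mem (pres_bdry hL (by omega) (by omega) (by omega))
  have hQ0 : ((false, 8 * i + 37, 8 * L.N + 39) : Nm) ∈ L.vN :=
    mem_vN.2 (Or.inr (Or.inr (Or.inr (Or.inr (Or.inr (Or.inl ⟨i, h, rfl⟩))))))
  have hQ1 : ((false, 8 * (i + 1) + 37, 8 * L.N + 39) : Nm) ∈ L.vN :=
    mem_vN.2 (Or.inr (Or.inr (Or.inr (Or.inr (Or.inr (Or.inl ⟨i + 1, h', rfl⟩))))))
  have a1 : adj (gn i L.N) (gn (i + 1) L.N) = true := adj80 false (8 * i + 32) (8 * L.N + 32)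
  have a2 : adj (gn (i + 1) L.N) (false, 8 * (i + 1) + 37, 8 * L.N + 39) = true :=
    adj57 false (8 * (i + 1) + 32) (8 * L.N + 32)
  have a3 : adj ((false, 8 * (i + 1) + 37, 8 * L.N + 39) : Nm)
      (false, 8 * i + 37, 8 * L.N + 39) = true := by
    rw [adj_comm]
    exact adj80 false (8 * i + 37) (8 * L.N + 39)
  have a4 : adj ((false, 8 * i + 37, 8 * L.N + 39) : Nm) (gn i L.N) = true := by
    rw [adj_comm]
    exact adj57 false (8 * i + 32) (8 * L.N + 32)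
  have a5 : adj ((false, 8 * i + 37, 8 * L.N + 39) : Nm) (gn (i + 1) L.N) = true := by
    rw [adj_comm]
    exact adj37 false (8 * i + 37) (8 * L.N + 32)
  have a6 : adj (gn (i + 1) L.N) (gn (i + 1 + 1) L.N) = true :=
    adj80 false (8 * (i + 1) + 32) (8 * L.N + 32)
  have a7 : adj (gn (i + 1 + 1) L.N) (false, 8 * (i + 1) + 37, 8 * L.N + 39) = true :=
    adj37 false (8 * (i + 1) + 37) (8 * L.N + 32)
  have q1 := quad hp hA hB hQ1 hQ0 a1 a2 a3 a4 (by simp [gn]) (by simp [gn])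
  have q2 := quad hp hQ0 hB hC hQ1 a5 a6 a7 a3 (by simp [gn]) (by simp [gn])
  unfold hs gp
  linear_combination q1 + q2

theorem tie_right (hL : L.GoodN) (hp : Real L.vN p) {i : ℕ} (h : i ∈ L.tt) (h' : i + 1 ∈ L.tt) :
    vs (gp p) L.N (i + 1) = vs (gp p) L.N i := by
  have h1 := tie_top (L := L.tr) (p := trP p) (goodN_tr hL) (Real.tr hp) h h'
  have hN : L.tr.N = L.N := rfl
  rw [Rg8_hs, Rg8_hs, hN] at h1
  exact Rg8_inj h1

end Pool.Agent.PLN
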