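import Pool.Agent.PLN.Rg1

/-!
# The lever

Names: `Q i = (false, 8 i + 35, 25)` for `i = b1, b1 + 1`; `a x = (true, 8 x + 38, 18)` for
`T - 1 ≤ x ≤ b1`; `b x = (true, 8 x + 41, 11)` for `T - 1 ≤ x < b1`; `q = (true, 8 T + 35, 25)`,
`r = (true, 8 T + 27, 25)`, `t = (true, 8 T + 32, 32)` (`mem_lev`).
Let `P i = gp p i 0`, `h = P (b1+1) - P b1`, `k = p (Q b1) - P b1`.
Four-cycles (all edges are unit edges of the graph, `adj_lev`, `adj57`, `adj37`, `adj80`, and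
`quad`):
`P b1, P (b1+1), Q (b1+1), Q b1`: `Q (b1+1) = Q b1 + h`;
`P (b1+1), Q b1, a b1, Q (b1+1)`: `a b1 = Q b1 + Q (b1+1) - P (b1+1) = P b1 + 2 k`;
`Q (b1+1), Q b1, a (b1-1), a b1`: `a (b1-1) = a b1 + Q b1 - Q (b1+1) = a b1 - h`;
`Q b1, a b1, b (b1-1), a (b1-1)`: `b (b1-1) = a b1 + a (b1-1) - Q b1 = P b1 + 3 k - h`;
`a (x+1), a x, b (x-1), b x`: `b (x-1) = a x + b x - a (x+1)`, and
`b x, a x, a (x-1), b (x-1)`: `a (x-1) = a x + b (x-1) - b x`; so by downward induction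
`a x = P b1 + 2 k - (b1 - x) h`, `b x = P b1 + 3 k - (b1 - x) h`.
At the end: `b (T-1), a (T-1), q, a T`: `q = a (T-1) + a T - b (T-1)`;
`a T, a (T-1), r, q`: `r = a (T-1) + q - a T`; `a (T-1), r, t, q`: `t = q + r - a (T-1)`; so
`t = P b1 - (b1 - T) h`.
The vertices `t` and `(T, 0)` are distinct (their tags differ), so `|t - P T| ≥ 1`.
-/

namespace Pool.Agent.PLN

variable {L : Lay} {p : Nm → ℂ}

private theorem lever_core (V : List Nm) (hp : Real V p) (b1 T : ℕ) (hT : 2 ≤ T) (hb : T + 2 ≤ b1)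
    (m1 : gn b1 0 ∈ V) (m2 : gn (b1 + 1) 0 ∈ V) (m3 : ((false, 8 * b1 + 35, 25) : Nm) ∈ V)
    (m4 : ((false, 8 * (b1 + 1) + 35, 25) : Nm) ∈ V)
    (ma : ∀ x, T - 1 ≤ x → x ≤ b1 → ((true, 8 * x + 38, 18) : Nm) ∈ V)
    (mb : ∀ x, T - 1 ≤ x → x < b1 → ((true, 8 * x + 41, 11) : Nm) ∈ V)
    (mq : ((true, 8 * T + 35, 25) : Nm) ∈ V) (mr : ((true, 8 * T + 27, 25) : Nm) ∈ V)
    (mt : ((true, 8 * T + 32, 32) : Nm) ∈ V) (mT : gn T 0 ∈ V) :
    1 ≤ ‖gp p b1 0 - gp p T 0 - ((b1 : ℂ) - T) * hs (gp p) b1 0‖ := by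
  -- adjacencies of the lever
  have e80 : ∀ (t : Bool) (A A' B : ℕ), A' = A + 8 → adj (t, A, B) (t, A', B) = true := by
    rintro t A _ B rfl; exact adj80 t A B
  have e80' : ∀ (t : Bool) (A A' B : ℕ), A' = A + 8 → adj (t, A', B) (t, A, B) = true := by
    rintro t A _ B rfl; rw [adj_comm]; exact adj80 t A B
  have e57 : ∀ (t : Bool) (A A' B B' : ℕ), A' = A + 5 → B' = B + 7 →
      adj (t, A, B) (t, A', B') = true := by
    rintro t A _ B _ rfl rfl; exact adj57 t A B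
  have e57' : ∀ (t : Bool) (A A' B B' : ℕ), A' = A + 5 → B' = B + 7 →
      adj (t, A', B') (t, A, B) = true := by
    rintro t A _ B _ rfl rfl; rw [adj_comm]; exact adj57 t A B
  have e37 : ∀ (t : Bool) (A A' B B' : ℕ), A' = A + 3 → B' = B + 7 →
      adj (t, A', B) (t, A, B') = true := by
    rintro t A _ B _ rfl rfl; exact adj37 t A B
  have e37' : ∀ (t : Bool) (A A' B B' : ℕ), A' = A + 3 → B' = B + 7 →
      adj (t, A, B') (t, A', B) = true := by
    rintro t A _ B _ rfl rfl; rw [adj_comm]; exact adj37 t A B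
  have el : ∀ (A A' : ℕ), (A' = A + 5 ∨ A = A' + 3) →
      adj (true, A, 18) (false, A', 25) = true := fun A A' h => adj_lev A A' h
  have el' : ∀ (A A' : ℕ), (A' = A + 5 ∨ A = A' + 3) →
      adj (false, A', 25) (true, A, 18) = true := fun A A' h => by
    rw [adj_comm]; exact adj_lev A A' h
  have nt : ∀ (X Y : ℕ × ℕ), ((true, X) : Nm) ≠ (false, Y) := by
    intro X Y h; exact absurd (congrArg Prod.fst h) (by simp)
  have nt' : ∀ (X Y : ℕ × ℕ), ((false, X) : Nm) ≠ (true, Y) := by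
    intro X Y h; exact absurd (congrArg Prod.fst h) (by simp)
  have nA : ∀ (t : Bool) (A A' B B' : ℕ), A ≠ A' → ((t, A, B) : Nm) ≠ (t, A', B') := by
    intro t A A' B B' h1 h2
    exact h1 (congrArg (fun n : Nm => n.2.1) h2)
  have nB : ∀ (t : Bool) (A A' B B' : ℕ), B ≠ B' → ((t, A, B) : Nm) ≠ (t, A', B') := by
    intro t A A' B B' h1 h2
    exact h1 (congrArg (fun n : Nm => n.2.2) h2)
  have g1 : gn b1 0 = (false, 8 * b1 + 32, 32) := rfl
  have g2 : gn (b1 + 1) 0 = (false, 8 * (b1 + 1) + 32, 32) := rfl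
  rw [g1] at m1
  rw [g2] at m2
  obtain ⟨c, rfl⟩ : ∃ c, b1 = c + 1 := ⟨b1 - 1, by omega⟩
  have ma1 := ma (c + 1) (by omega) le_rfl
  have ma0 := ma c (by omega) (by omega)
  have mb0 := mb c (by omega) (by omega)
  have q1 := quad hp m1 m2 m4 m3 (e80 _ _ _ _ (by omega)) (e37' _ _ _ _ _ (by omega) (by omega))
    (e80' _ _ _ _ (by omega)) (e37 _ _ _ _ _ (by omega) (by omega))
    (nB _ _ _ _ _ (by omega)) (nB _ _ _ _ _ (by omega))
  have q2 := quad hp m2 m3 ma1 m4 (e57' _ _ _ _ _ (by omega) (by omega)) (el' _ _ (by omega))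
    (el _ _ (by omega)) (e37 _ _ _ _ _ (by omega) (by omega))
    (nt' _ _) (nA _ _ _ _ _ (by omega))
  have q3 := quad hp m4 m3 ma0 ma1 (e80' _ _ _ _ (by omega)) (el' _ _ (by omega))
    (e80 _ _ _ _ (by omega)) (el _ _ (by omega)) (nt' _ _) (nt' _ _)
  have q4 := quad hp m3 ma1 mb0 ma0 (el' _ _ (by omega)) (e57' _ _ _ _ _ (by omega) (by omega))
    (e37 _ _ _ _ _ (by omega) (by omega)) (el _ _ (by omega)) (nt' _ _)
    (nA _ _ _ _ _ (by omega))
  set P1 := p (false, 8 * (c + 1) + 32, 32) with hP1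
  set P2 := p (false, 8 * (c + 1 + 1) + 32, 32) with hP2
  set Q1 := p (false, 8 * (c + 1) + 35, 25) with hQ1
  set Q2 := p (false, 8 * (c + 1 + 1) + 35, 25) with hQ2
  have hsh : hs (gp p) (c + 1) 0 = P2 - P1 := rfl
  -- downward induction
  have key : ∀ d x : ℕ, x + d = c → T - 1 ≤ x →
      p (true, 8 * (x + 1) + 38, 18) = P1 + 2 * (Q1 - P1) - d * (P2 - P1) ∧
      p (true, 8 * x + 38, 18) = P1 + 2 * (Q1 - P1) - (d + 1) * (P2 - P1) ∧
      p (true, 8 * x + 41, 11) = P1 + 3 * (Q1 - P1) - (d + 1) * (P2 - P1) := by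
    intro d
    induction d with
    | zero =>
      intro x hx _
      obtain rfl : x = c := by omega
      refine ⟨?_, ?_, ?_⟩
      · push_cast
        linear_combination q2 + q1
      · push_cast
        linear_combination q3 + q2
      · push_cast
        linear_combination q4 + q3 + 2 * q2 + q1
    | succ d ih =>
      intro x hx hx2
      obtain ⟨h1, h2, h3⟩ := ih (x + 1) (by omega) (by omega)
      have ma2 := ma (x + 2) (by omega) (by omega)
      have ma1 := ma (x + 1) (by omega) (by omega)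
      have ma0 := ma x (by omega) (by omega)
      have mb1 := mb (x + 1) (by omega) (by omega)
      have mb0 := mb x (by omega) (by omega)
      have q5 := quad hp ma2 ma1 mb0 mb1 (e80' _ _ _ _ (by omega))
        (e57' _ _ _ _ _ (by omega) (by omega)) (e80 _ _ _ _ (by omega))
        (e57 _ _ _ _ _ (by omega) (by omega)) (nB _ _ _ _ _ (by omega)) (nB _ _ _ _ _ (by omega))
      have q6 := quad hp mb1 ma1 ma0 mb0 (e37 _ _ _ _ _ (by omega) (by omega))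
        (e80' _ _ _ _ (by omega)) (e37' _ _ _ _ _ (by omega) (by omega))
        (e80 _ _ _ _ (by omega)) (nB _ _ _ _ _ (by omega)) (nB _ _ _ _ _ (by omega))
      have e1 : x + 1 + 1 = x + 2 := rfl
      rw [e1] at h1
      push_cast
      refine ⟨?_, ?_, ?_⟩
      · rw [h2]
      · linear_combination q6 + q5 + 2 * h2 - h1
      · linear_combination q5 + h2 + h3 - h1
  obtain ⟨h1, h2, h3⟩ := key (c - (T - 1)) (T - 1) (by omega) le_rfl
  obtain ⟨S, rfl⟩ : ∃ S, T = S + 1 := ⟨T - 1, by omega⟩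
  have eS : S + 1 - 1 = S := rfl
  rw [eS] at h1 h2 h3
  have hcast : ((c - S : ℕ) : ℂ) = (c : ℂ) - S := by
    rw [Nat.cast_sub (by omega)]
  rw [hcast] at h1 h2 h3
  have maT := ma (S + 1) (by omega) (by omega)
  have maT' := ma S (by omega) (by omega)
  have mbT' := mb S (by omega) (by omega)
  have q7 := quad hp mbT' maT' mq maT (e37 _ _ _ _ _ (by omega) (by omega))
    (e57 _ _ _ _ _ (by omega) (by omega)) (e37' _ _ _ _ _ (by omega) (by omega))
    (e57' _ _ _ _ _ (by omega) (by omega)) (nB _ _ _ _ _ (by omega)) (nA _ _ _ _ _ (by omega))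
  have q8 := quad hp maT maT' mr mq (e80' _ _ _ _ (by omega))
    (e37 _ _ _ _ _ (by omega) (by omega)) (e80 _ _ _ _ (by omega))
    (e37' _ _ _ _ _ (by omega) (by omega)) (nB _ _ _ _ _ (by omega)) (nB _ _ _ _ _ (by omega))
  have q9 := quad hp maT' mr mt mq (e37 _ _ _ _ _ (by omega) (by omega))
    (e57 _ _ _ _ _ (by omega) (by omega)) (e37' _ _ _ _ _ (by omega) (by omega))
    (e57' _ _ _ _ _ (by omega) (by omega)) (nB _ _ _ _ _ (by omega)) (nA _ _ _ _ _ (by omega))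
  have ht : p (true, 8 * (S + 1) + 32, 32) = P1 - ((c : ℂ) - S) * (P2 - P1) := by
    linear_combination q9 + q8 + 2 * q7 + 2 * h2 + h1 - 2 * h3
  have hsep := hp.sep _ mt _ mT (nt _ _)
  rw [ht] at hsep
  have e3 : gp p (c + 1) 0 - gp p (S + 1) 0 - (((c + 1 : ℕ) : ℂ) - ((S + 1 : ℕ) : ℂ)) *
      hs (gp p) (c + 1) 0 = P1 - ((c : ℂ) - S) * (P2 - P1) - p (gn (S + 1) 0) := by
    rw [hsh]
    have : gp p (c + 1) 0 = P1 := rfl
    rw [this]
    have h4 : gp p (S + 1) 0 = p (gn (S + 1) 0) := rfl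
    rw [h4]
    push_cast
    ring
  rw [e3]
  exact hsep

theorem lever (hL : L.Good) (hp : Real L.verts p) :
    1 ≤ ‖gp p L.b1 0 - gp p L.T 0 - ((L.b1 : ℂ) - L.T) * hs (gp p) L.b1 0‖ := by
  have hN := hL.toGoodN
  have hT := hL.T2
  have hb := hL.Tb
  have hbN := hN.tbN _ hL.b1m'
  have mg : ∀ i, i ≤ L.N → gn i 0 ∈ L.verts := fun i hi =>
    mem_verts.2 (Or.inl (gn_mem (pres_bdry hN hi (Nat.zero_le _) (Or.inr (Or.inr (Or.inl rfl))))))
  have ml : ∀ n, ((∃ x, L.T - 1 ≤ x ∧ x ≤ L.b1 ∧ n = (true, 8 * x + 38, 18)) ∨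
    (∃ x, L.T - 1 ≤ x ∧ x < L.b1 ∧ n = (true, 8 * x + 41, 11)) ∨
    n = (true, 8 * L.T + 35, 25) ∨ n = (true, 8 * L.T + 27, 25) ∨
    n = (true, 8 * L.T + 32, 32)) → n ∈ L.verts := fun n h =>
    mem_verts.2 (Or.inr ((mem_lev hT hb).2 h))
  refine lever_core L.verts hp L.b1 L.T hT hb (mg _ (by omega)) (mg _ (by omega)) ?_ ?_ ?_ ?_ ?_ ?_
    ?_ (mg _ (by omega))
  · exact mem_verts.2 (Or.inl (mem_vN.2 (Or.inr (Or.inr (Or.inr (Or.inl ⟨_, hL.b1m, rfl⟩))))))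
  · exact mem_verts.2 (Or.inl (mem_vN.2 (Or.inr (Or.inr (Or.inr (Or.inl ⟨_, hL.b1m', rfl⟩))))))
  · exact fun x h1 h2 => ml _ (Or.inl ⟨x, h1, h2, rfl⟩)
  · exact fun x h1 h2 => ml _ (Or.inr (Or.inl ⟨x, h1, h2, rfl⟩))
  · exact ml _ (Or.inr (Or.inr (Or.inl rfl)))
  · exact ml _ (Or.inr (Or.inr (Or.inr (Or.inl rfl))))
  · exact ml _ (Or.inr (Or.inr (Or.inr (Or.inr rfl))))

end Pool.Agent.PLN
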