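import Pool.Agent.PLN.Rg3
import Pool.Agent.PLN.Rg7
import Pool.Agent.PLN.Rg8
import Pool.Agent.PLN.Rg9

/-!
# From realisations to grid data
-/

namespace Pool.Agent.PLN

variable {L : Lay} {p : Nm → ℂ}

theorem GD_of_real (hL : L.Good) (hp : Real L.verts p) : ∃ P : ℕ → ℕ → ℂ, GD L P := by
  obtain ⟨q, hq, ho⟩ := wlog_orient hL.toGoodN hp
  have hn : Real L.vN q := hq.mono fun n hn => mem_verts.2 (Or.inl hn)
  exact ⟨gp q, {
    cell := fun i j h => cell_rh hn h
    ang := fun i j h => ⟨(cell_ang hn h).1, (cell_ang hn h).2.1, (cell_ang hn h).2.2, ho i j h⟩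
    vbc := fun g c h v hl hr => vb_coupling hL.toGoodN hn ho h v hl hr
    hbc := fun g c h v hl hr => hb_coupling hL.toGoodN hn ho h v hl hr
    tieB := fun i h h' => tie_bot hL.toGoodN hn h h'
    tieL := fun i h h' => tie_left hL.toGoodN hn h h'
    tieT := fun i h h' => tie_top hL.toGoodN hn h h'
    tieR := fun i h h' => tie_right hL.toGoodN hn h h'
    lev := lever hL hq }⟩

end Pool.Agent.PLN
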