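import Pool.Agent.PLN.Nm3
import Pool.Agent.PLN.Cx1

/-!
# Cells are rhombi with angles in [60°, 120°]

The four corners of a present cell form a four-cycle (`pres_of_cell`, `mem_vN`, `adj80`, `adj08`),
so `quad` gives the relation.  The diagonals are at least `1` (`Real.sep`): with `h = hs`, `v = vs`,
`|h + v|² = 2 + 2 dt h v ≥ 1` and `|h - v|² = 2 - 2 dt h v ≥ 1`.  Finally
`dt² + cr² = |h|² |v|² = 1`, so `cr ≠ 0`.
-/

namespace Pool.Agent.PLN

variable {L : Lay} {p : Nm → ℂ}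

theorem gn_mem {i j : ℕ} (h : L.pres i j) : gn i j ∈ L.vN := mem_vN.2 (Or.inl ⟨i, j, h, rfl⟩)

theorem gn_inj {i j i' j' : ℕ} (h : gn i j = gn i' j') : i = i' ∧ j = j' := by
  unfold gn at h
  have h1 := congrArg (fun n : Nm => n.2.1) h
  have h2 := congrArg (fun n : Nm => n.2.2) h
  simp only at h1 h2
  omega

theorem Rg1_adjh (i j : ℕ) : adj (gn i j) (gn (i + 1) j) = true := by
  have h := adj80 false (8 * i + 32) (8 * j + 32)
  have e : 8 * i + 32 + 8 = 8 * (i + 1) + 32 := by ring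
  rw [e] at h
  exact h

theorem Rg1_adjv (i j : ℕ) : adj (gn i j) (gn i (j + 1)) = true := by
  have h := adj08 false (8 * i + 32) (8 * j + 32)
  have e : 8 * j + 32 + 8 = 8 * (j + 1) + 32 := by ring
  rw [e] at h
  exact h

theorem cell_rh (hp : Real L.vN p) {i j : ℕ} (h : L.cell i j) :
    gp p i j + gp p (i + 1) (j + 1) = gp p (i + 1) j + gp p i (j + 1) := by
  obtain ⟨h1, h2, h3, h4⟩ := pres_of_cell h
  refine quad hp (gn_mem h1) (gn_mem h2) (gn_mem h4) (gn_mem h3) (Rg1_adjh i j) (Rg1_adjv (i + 1) j)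
    ?_ ?_ ?_ ?_
  · rw [adj_comm]
    exact Rg1_adjh i (j + 1)
  · rw [adj_comm]
    exact Rg1_adjv i j
  · intro he
    have := gn_inj he
    omega
  · intro he
    have := gn_inj he
    omega

theorem Rg1_sq (z : ℂ) : ‖z‖ ^ 2 = z.re * z.re + z.im * z.im := by
  rw [Complex.sq_norm, Complex.normSq_apply]

theorem Rg1_dt (h v : ℂ) : dt h v = v.re * h.re + v.im * h.im := by
  unfold dt
  rw [Complex.mul_re, Complex.conj_re, Complex.conj_im]
  ring

theorem Rg1_cr (h v : ℂ) : cr h v = v.im * h.re - v.re * h.im := by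
  unfold cr
  rw [Complex.mul_im, Complex.conj_re, Complex.conj_im]
  ring

theorem Rg1_add {h v : ℂ} (nh : ‖h‖ = 1) (nv : ‖v‖ = 1) (ha : 1 ≤ ‖h + v‖) (hb : 1 ≤ ‖h - v‖) :
    |dt h v| ≤ 1 / 2 := by
  have e1 := Rg1_sq h
  have e2 := Rg1_sq v
  have e3 := Rg1_sq (h + v)
  have e4 := Rg1_sq (h - v)
  rw [nh] at e1
  rw [nv] at e2
  rw [Complex.add_re, Complex.add_im] at e3
  rw [Complex.sub_re, Complex.sub_im] at e4
  have f3 : 1 ≤ ‖h + v‖ ^ 2 := one_le_pow₀ ha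
  have f4 : 1 ≤ ‖h - v‖ ^ 2 := one_le_pow₀ hb
  rw [Rg1_dt, abs_le]
  constructor
  · linarith
  · linarith

theorem cell_ang (hp : Real L.vN p) {i j : ℕ} (h : L.cell i j) : ‖hs (gp p) i j‖ = 1 ∧
    ‖vs (gp p) i j‖ = 1 ∧ |dt (hs (gp p) i j) (vs (gp p) i j)| ≤ 1 / 2 := by
  obtain ⟨h1, h2, h3, h4⟩ := pres_of_cell h
  have hrh := cell_rh hp h
  have nh : ‖hs (gp p) i j‖ = 1 := hp.unit _ (gn_mem h2) _ (gn_mem h1) (by
    rw [adj_comm]
    exact Rg1_adjh i j)
  have nv : ‖vs (gp p) i j‖ = 1 := hp.unit _ (gn_mem h3) _ (gn_mem h1) (by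
    rw [adj_comm]
    exact Rg1_adjv i j)
  refine ⟨nh, nv, Rg1_add nh nv ?_ ?_⟩
  · have e : hs (gp p) i j + vs (gp p) i j = p (gn (i + 1) (j + 1)) - p (gn i j) := by
      unfold hs vs
      have e1 : gp p (i + 1) (j + 1) = gp p (i + 1) j + gp p i (j + 1) - gp p i j := by
        rw [← hrh]
        ring
      change _ = gp p (i + 1) (j + 1) - gp p i j
      rw [e1]
      ring
    rw [e]
    refine hp.sep _ (gn_mem h4) _ (gn_mem h1) (fun he => ?_)
    have := gn_inj he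
    omega
  · have e : hs (gp p) i j - vs (gp p) i j = p (gn (i + 1) j) - p (gn i (j + 1)) := by
      unfold hs vs gp
      ring
    rw [e]
    refine hp.sep _ (gn_mem h2) _ (gn_mem h3) (fun he => ?_)
    have := gn_inj he
    omega

theorem cell_cr (hp : Real L.vN p) {i j : ℕ} (h : L.cell i j) :
    cr (hs (gp p) i j) (vs (gp p) i j) ≠ 0 := by
  obtain ⟨nh, nv, hd⟩ := cell_ang hp h
  generalize hs (gp p) i j = a at nh hd ⊢
  generalize vs (gp p) i j = b at nv hd ⊢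
  intro h0
  have e1 := Rg1_sq a
  have e2 := Rg1_sq b
  rw [nh] at e1
  rw [nv] at e2
  have e3 : dt a b ^ 2 + cr a b ^ 2 = 1 := by
    rw [Rg1_dt, Rg1_cr]
    have e4 : (b.re * a.re + b.im * a.im) ^ 2 + (b.im * a.re - b.re * a.im) ^ 2 =
        (a.re * a.re + a.im * a.im) * (b.re * b.re + b.im * b.im) := by ring
    rw [e4, ← e1, ← e2]
    norm_num
  rw [h0] at e3
  have e5 : dt a b ^ 2 ≤ (1 / 2) ^ 2 := sq_le_sq' (abs_le.1 hd).1 (abs_le.1 hd).2
  nlinarith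

end Pool.Agent.PLN
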