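import Pool.Agent.PLN.Rg2

/-!
# All cells have the same orientation

Claim: for every present cell `(i, j)`, its orientation is that of the cell `(0, 0)`.  Induction
on `j`.  The cells `(i, 0)` are all present (`cell_bdry`); use `step_h`.  Let `j > 0`.  If the cell
`(i, j - 1)` is present, use `step_v`.  Otherwise `(i, j - 1)` lies in a hole
`r = (x, y, w, h) ∈ L.rects` with `y ≤ j - 1 < y + h`, and as `(i, j)` is present, `j = y + h`
(otherwise `(i, j)` would lie in the hole).  The cells `(i', j)`, `x - 1 ≤ i' ≤ i`, and the cell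
`(x - 1, j - 1)` are present (`cell_ring`), so the orientation of `(i, j)` is that of
`(x - 1, j)` (`step_h`), which is that of `(x - 1, j - 1)` (`step_v`); use the induction
hypothesis.

If the common orientation is negative, conjugate the realisation (`Real.conj`): this changes the
sign of `cr`.
-/

namespace Pool.Agent.PLN

variable {L : Lay} {p : Nm → ℂ}

theorem Rg3_row0 (hL : L.GoodN) (hp : Real L.vN p) (i : ℕ) (hi : i < L.N) :
    0 < cr (hs (gp p) i 0) (vs (gp p) i 0) ↔ 0 < cr (hs (gp p) 0 0) (vs (gp p) 0 0) := by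
  induction i with
  | zero => exact Iff.rfl
  | succ i ih =>
    have h0 : 0 < L.N := by omega
    have c1 : L.cell i 0 := cell_bdry hL (by omega) h0 (Or.inr (Or.inr (Or.inl rfl)))
    have c2 : L.cell (i + 1) 0 := cell_bdry hL hi h0 (Or.inr (Or.inr (Or.inl rfl)))
    exact (step_h hp c1 c2).symm.trans (ih (by omega))

theorem Rg3_run (hp : Real L.vN p) {a j : ℕ} (k : ℕ) (hc : ∀ m, m ≤ k → L.cell (a + m) j) :
    0 < cr (hs (gp p) (a + k) j) (vs (gp p) (a + k) j) ↔
      0 < cr (hs (gp p) a j) (vs (gp p) a j) := by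
  induction k with
  | zero => exact Iff.rfl
  | succ k ih =>
    exact (step_h hp (hc k (by omega)) (hc (k + 1) le_rfl)).symm.trans
      (ih fun m hm => hc m (by omega))

theorem Rg3_main (hL : L.GoodN) (hp : Real L.vN p) (j : ℕ) : ∀ i, L.cell i j →
    (0 < cr (hs (gp p) i j) (vs (gp p) i j) ↔ 0 < cr (hs (gp p) 0 0) (vs (gp p) 0 0)) := by
  induction j with
  | zero => exact fun i hi => Rg3_row0 hL hp i hi.1
  | succ j ih =>
    intro i hi
    by_cases hc : L.cell i j
    · exact (step_v hp hc hi).symm.trans (ih i hc)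
    · have hr : ∃ r ∈ L.rects, r.1 ≤ i ∧ i < r.1 + r.2.2.1 ∧ r.2.1 ≤ j ∧
          j < r.2.1 + r.2.2.2 := by
        by_contra hcon
        apply hc
        refine ⟨hi.1, by have := hi.2.1; omega, fun r hr hh => hcon ⟨r, hr, hh⟩⟩
      obtain ⟨r, hr, g1, g2, g3, g4⟩ := hr
      have h5 := hi.2.2 r hr
      have h6 : j + 1 = r.2.1 + r.2.2.2 := by omega
      obtain ⟨b1, _, _, _⟩ := hL.inb r hr
      have c1 : L.cell (r.1 - 1) j := cell_ring hL hr (by omega) (by omega) (by omega) (by omega)
        (by omega)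
      have c2 : ∀ m, m ≤ i - (r.1 - 1) → L.cell (r.1 - 1 + m) (j + 1) := fun m hm =>
        cell_ring hL hr (by omega) (by omega) (by omega) (by omega) (by omega)
      have s1 := Rg3_run hp (i - (r.1 - 1)) c2
      have e1 : r.1 - 1 + (i - (r.1 - 1)) = i := by omega
      rw [e1] at s1
      exact s1.trans ((step_v hp c1 (c2 0 (Nat.zero_le _))).symm.trans (ih _ c1))

theorem orient_all (hL : L.GoodN) (hp : Real L.vN p) :
    (∀ i j, L.cell i j → 0 < cr (hs (gp p) i j) (vs (gp p) i j)) ∨
      (∀ i j, L.cell i j → cr (hs (gp p) i j) (vs (gp p) i j) < 0) := by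
  by_cases h : 0 < cr (hs (gp p) 0 0) (vs (gp p) 0 0)
  · left
    intro i j hc
    exact (Rg3_main hL hp j i hc).2 h
  · right
    intro i j hc
    have h1 : ¬ 0 < cr (hs (gp p) i j) (vs (gp p) i j) := fun h2 =>
      h ((Rg3_main hL hp j i hc).1 h2)
    exact lt_of_le_of_ne (not_lt.1 h1) (cell_cr hp hc)

theorem wlog_orient (hL : L.GoodN) (hp : Real L.verts p) : ∃ p' : Nm → ℂ, Real L.verts p' ∧
    ∀ i j, L.cell i j → 0 < cr (hs (gp p') i j) (vs (gp p') i j) := by
  have hN : Real L.vN p := hp.mono fun n hn => mem_verts.2 (Or.inl hn)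
  rcases orient_all hL hN with h | h
  · exact ⟨p, hp, h⟩
  · refine ⟨fun n => (starRingEnd ℂ) (p n), hp.conj, fun i j hc => ?_⟩
    have h1 := h i j hc
    have e : cr (hs (gp fun n => (starRingEnd ℂ) (p n)) i j)
        (vs (gp fun n => (starRingEnd ℂ) (p n)) i j) =
        - cr (hs (gp p) i j) (vs (gp p) i j) := by
      unfold hs vs gp
      rw [Rg1_cr, Rg1_cr]
      simp only [Complex.sub_re, Complex.sub_im, Complex.conj_re, Complex.conj_im]
      ring
    rw [e]
    linarith

end Pool.Agent.PLN
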