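import Pool.Agent.PLN.Core
import Pool.Agent.PLN.Cx2

/-!
# The rigid body

The points of the template `Tm'` form a strip of triangles: rows `B = 0, 7, 14, …, 56`.  Every
new point is the fourth vertex of a four-cycle formed by two triangles with a common edge, so
`rhomb` gives its position.  In this order (`x ← (a, b, d)` means: `a, b, x, d` is a four-cycle
`a - b - x - d - a` of unit edges, so `f x = f b + f d - f a`):
`(13,7) ← ((0,0),(8,0),(5,7))`, `(16,0) ← ((5,7),(8,0),(13,7))`, `(10,14) ← ((8,0),(5,7),(13,7))`,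
`(2,14) ← ((13,7),(5,7),(10,14))`, `(7,21) ← ((5,7),(2,14),(10,14))`,
`(15,21) ← ((2,14),(7,21),(10,14))`, `(12,28) ← ((10,14),(7,21),(15,21))`,
`(4,28) ← ((15,21),(7,21),(12,28))`, `(9,35) ← ((7,21),(4,28),(12,28))`,
`(1,35) ← ((12,28),(4,28),(9,35))`, `(6,42) ← ((4,28),(1,35),(9,35))`,
`(14,42) ← ((1,35),(6,42),(9,35))`, `(11,49) ← ((9,35),(6,42),(14,42))`,
`(3,49) ← ((14,42),(6,42),(11,49))`, `(8,56) ← ((6,42),(3,49),(11,49))`,
`(0,56) ← ((11,49),(3,49),(8,56))`, `(16,56) ← ((3,49),(8,56),(11,49))`.
With `h = f (8,0) - f (0,0)` and `k = f (5,7) - f (0,0)`: a point `(8x + 5y, 7y)` has the position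
`f (0,0) + x h + y k`.
-/

namespace Pool.Agent.PLN

theorem Rg4_step {f : ℕ × ℕ → ℂ}
    (hu : ∀ P ∈ Tm', ∀ Q ∈ Tm', arc P Q = true → ‖f P - f Q‖ = 1)
    (hs : ∀ P ∈ Tm', ∀ Q ∈ Tm', P ≠ Q → f P ≠ f Q) (a b x d : ℕ × ℕ)
    (ha : a ∈ Tm') (hb : b ∈ Tm') (hx : x ∈ Tm') (hd : d ∈ Tm')
    (h1 : (arc a b || arc b a) = true) (h2 : (arc b x || arc x b) = true)
    (h3 : (arc x d || arc d x) = true) (h4 : (arc d a || arc a d) = true)
    (hax : a ≠ x) (hbd : b ≠ d) : f x = f b + f d - f a := by
  have key : ∀ P ∈ Tm', ∀ Q ∈ Tm', (arc P Q || arc Q P) = true → ‖f P - f Q‖ = 1 := by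
    intro P hP Q hQ h
    rw [Bool.or_eq_true] at h
    rcases h with h | h
    · exact hu P hP Q hQ h
    · rw [norm_sub_rev]
      exact hu Q hQ P hP h
  have := rhomb (key a ha b hb h1) (key b hb x hx h2) (key x hx d hd h3) (key d hd a ha h4)
    (hs a ha x hx hax) (hs b hb d hd hbd)
  linear_combination this

theorem template (f : ℕ × ℕ → ℂ)
    (hu : ∀ P ∈ Tm', ∀ Q ∈ Tm', arc P Q = true → ‖f P - f Q‖ = 1)
    (hs : ∀ P ∈ Tm', ∀ Q ∈ Tm', P ≠ Q → f P ≠ f Q) :
    f (16, 0) = f (0, 0) + 2 * (f (8, 0) - f (0, 0)) ∧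
    f (0, 56) = f (0, 0) - 5 * (f (8, 0) - f (0, 0)) + 8 * (f (5, 7) - f (0, 0)) ∧
    f (8, 56) = f (0, 56) + (f (8, 0) - f (0, 0)) ∧
    f (16, 56) = f (0, 56) + 2 * (f (8, 0) - f (0, 0)) := by
  have s0 := Rg4_step hu hs (0, 0) (8, 0) (13, 7) (5, 7) (by decide) (by decide) (by decide) (by decide)
    (by decide) (by decide) (by decide) (by decide) (by decide) (by decide)
  have s1 := Rg4_step hu hs (5, 7) (8, 0) (16, 0) (13, 7) (by decide) (by decide) (by decide) (by decide)
    (by decide) (by decide) (by decide) (by decide) (by decide) (by decide)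
  have s2 := Rg4_step hu hs (8, 0) (5, 7) (10, 14) (13, 7) (by decide) (by decide) (by decide) (by decide)
    (by decide) (by decide) (by decide) (by decide) (by decide) (by decide)
  have s3 := Rg4_step hu hs (13, 7) (5, 7) (2, 14) (10, 14) (by decide) (by decide) (by decide) (by decide)
    (by decide) (by decide) (by decide) (by decide) (by decide) (by decide)
  have s4 := Rg4_step hu hs (5, 7) (2, 14) (7, 21) (10, 14) (by decide) (by decide) (by decide) (by decide)
    (by decide) (by decide) (by decide) (by decide) (by decide) (by decide)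
  have s5 := Rg4_step hu hs (2, 14) (7, 21) (15, 21) (10, 14) (by decide) (by decide) (by decide) (by decide)
    (by decide) (by decide) (by decide) (by decide) (by decide) (by decide)
  have s6 := Rg4_step hu hs (10, 14) (7, 21) (12, 28) (15, 21) (by decide) (by decide) (by decide) (by decide)
    (by decide) (by decide) (by decide) (by decide) (by decide) (by decide)
  have s7 := Rg4_step hu hs (15, 21) (7, 21) (4, 28) (12, 28) (by decide) (by decide) (by decide) (by decide)
    (by decide) (by decide) (by decide) (by decide) (by decide) (by decide)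
  have s8 := Rg4_step hu hs (7, 21) (4, 28) (9, 35) (12, 28) (by decide) (by decide) (by decide) (by decide)
    (by decide) (by decide) (by decide) (by decide) (by decide) (by decide)
  have s9 := Rg4_step hu hs (12, 28) (4, 28) (1, 35) (9, 35) (by decide) (by decide) (by decide) (by decide)
    (by decide) (by decide) (by decide) (by decide) (by decide) (by decide)
  have s10 := Rg4_step hu hs (4, 28) (1, 35) (6, 42) (9, 35) (by decide) (by decide) (by decide) (by decide)
    (by decide) (by decide) (by decide) (by decide) (by decide) (by decide)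
  have s11 := Rg4_step hu hs (1, 35) (6, 42) (14, 42) (9, 35) (by decide) (by decide) (by decide) (by decide)
    (by decide) (by decide) (by decide) (by decide) (by decide) (by decide)
  have s12 := Rg4_step hu hs (9, 35) (6, 42) (11, 49) (14, 42) (by decide) (by decide) (by decide) (by decide)
    (by decide) (by decide) (by decide) (by decide) (by decide) (by decide)
  have s13 := Rg4_step hu hs (14, 42) (6, 42) (3, 49) (11, 49) (by decide) (by decide) (by decide) (by decide)
    (by decide) (by decide) (by decide) (by decide) (by decide) (by decide)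
  have s14 := Rg4_step hu hs (6, 42) (3, 49) (8, 56) (11, 49) (by decide) (by decide) (by decide) (by decide)
    (by decide) (by decide) (by decide) (by decide) (by decide) (by decide)
  have s15 := Rg4_step hu hs (11, 49) (3, 49) (0, 56) (8, 56) (by decide) (by decide) (by decide) (by decide)
    (by decide) (by decide) (by decide) (by decide) (by decide) (by decide)
  have s16 := Rg4_step hu hs (3, 49) (8, 56) (16, 56) (11, 49) (by decide) (by decide) (by decide) (by decide)
    (by decide) (by decide) (by decide) (by decide) (by decide) (by decide)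
  have t0 : f (13, 7) = f (0, 0) + (1) * (f (8, 0) - f (0, 0)) + (1) * (f (5, 7) - f (0, 0)) := by
    linear_combination s0
  have t1 : f (16, 0) = f (0, 0) + (2) * (f (8, 0) - f (0, 0)) + (0) * (f (5, 7) - f (0, 0)) := by
    linear_combination s1 + t0
  have t2 : f (10, 14) = f (0, 0) + (0) * (f (8, 0) - f (0, 0)) + (2) * (f (5, 7) - f (0, 0)) := by
    linear_combination s2 + t0
  have t3 : f (2, 14) = f (0, 0) + (-1) * (f (8, 0) - f (0, 0)) + (2) * (f (5, 7) - f (0, 0)) := by
    linear_combination s3 + t2 - t0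
  have t4 : f (7, 21) = f (0, 0) + (-1) * (f (8, 0) - f (0, 0)) + (3) * (f (5, 7) - f (0, 0)) := by
    linear_combination s4 + t3 + t2
  have t5 : f (15, 21) = f (0, 0) + (0) * (f (8, 0) - f (0, 0)) + (3) * (f (5, 7) - f (0, 0)) := by
    linear_combination s5 + t4 + t2 - t3
  have t6 : f (12, 28) = f (0, 0) + (-1) * (f (8, 0) - f (0, 0)) + (4) * (f (5, 7) - f (0, 0)) := by
    linear_combination s6 + t4 + t5 - t2
  have t7 : f (4, 28) = f (0, 0) + (-2) * (f (8, 0) - f (0, 0)) + (4) * (f (5, 7) - f (0, 0)) := by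
    linear_combination s7 + t4 + t6 - t5
  have t8 : f (9, 35) = f (0, 0) + (-2) * (f (8, 0) - f (0, 0)) + (5) * (f (5, 7) - f (0, 0)) := by
    linear_combination s8 + t7 + t6 - t4
  have t9 : f (1, 35) = f (0, 0) + (-3) * (f (8, 0) - f (0, 0)) + (5) * (f (5, 7) - f (0, 0)) := by
    linear_combination s9 + t7 + t8 - t6
  have t10 : f (6, 42) = f (0, 0) + (-3) * (f (8, 0) - f (0, 0)) + (6) * (f (5, 7) - f (0, 0)) := by
    linear_combination s10 + t9 + t8 - t7
  have t11 : f (14, 42) = f (0, 0) + (-2) * (f (8, 0) - f (0, 0)) + (6) * (f (5, 7) - f (0, 0)) := by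
    linear_combination s11 + t10 + t8 - t9
  have t12 : f (11, 49) = f (0, 0) + (-3) * (f (8, 0) - f (0, 0)) + (7) * (f (5, 7) - f (0, 0)) := by
    linear_combination s12 + t10 + t11 - t8
  have t13 : f (3, 49) = f (0, 0) + (-4) * (f (8, 0) - f (0, 0)) + (7) * (f (5, 7) - f (0, 0)) := by
    linear_combination s13 + t10 + t12 - t11
  have t14 : f (8, 56) = f (0, 0) + (-4) * (f (8, 0) - f (0, 0)) + (8) * (f (5, 7) - f (0, 0)) := by
    linear_combination s14 + t13 + t12 - t10
  have t15 : f (0, 56) = f (0, 0) + (-5) * (f (8, 0) - f (0, 0)) + (8) * (f (5, 7) - f (0, 0)) := by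
    linear_combination s15 + t13 + t14 - t12
  have t16 : f (16, 56) = f (0, 0) + (-3) * (f (8, 0) - f (0, 0)) + (8) * (f (5, 7) - f (0, 0)) := by
    linear_combination s16 + t14 + t12 - t13
  refine ⟨?_, ?_, ?_, ?_⟩
  · linear_combination t1
  · linear_combination t15
  · linear_combination t14 - t15
  · linear_combination t16 - t15

end Pool.Agent.PLN
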