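import Pool.Agent.PLN.Rg1
import Pool.Agent.PLN.Rg4
import Pool.Agent.PLN.Cx4

/-!
# The body of a vertical coupling

Apply `template` to `f (a, b) = p (false, 8 g + 32 + a, 8 c + 32 + b)`: the interior points of the
template are vertices of the body (`mem_vN`) and `(8 k, 0)`, `(8 k, 56)` (`k = 0, 1, 2`) are the
grid vertices `(g + k, c)`, `(g + k, c + 7)` on the bottom and top sides of the hole (`pres_side`,
`rect_vb`).  Adjacency of normal names is `arc` (`adj_same`).
The point `(5, 7)` is adjacent to `(0, 0)` and `(8, 0)`; the cell `(g, c - 1)` below the edge is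
present (`cell_ring`) and positively oriented; `orient_tri` with `h = hs g c` (which is
`hs g (c - 1)`, by `cell_rh`), `v = vs g (c - 1)` and `k = f (5,7) - f (0,0)` gives `k = om h`
(`|k + v|`, `|k - h + v|` are the distances of the point `(5,7)` to the grid vertices
`(g, c - 1)`, `(g + 1, c - 1)`).  Finally `- 5 h + 8 om h = 7 rho h` (`seven_rho`).
-/

namespace Pool.Agent.PLN

variable {L : Lay} {p : Nm → ℂ}

/-- the names of the vertices of the body -/
def Rg5_q (g c : ℕ) (P : ℕ × ℕ) : Nm := (false, 8 * g + 32 + P.1, 8 * c + 32 + P.2)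

theorem Rg5_gn (g c : ℕ) : Rg5_q g c (0, 0) = gn g c ∧ Rg5_q g c (8, 0) = gn (g + 1) c ∧
    Rg5_q g c (16, 0) = gn (g + 2) c ∧ Rg5_q g c (0, 56) = gn g (c + 7) ∧
    Rg5_q g c (8, 56) = gn (g + 1) (c + 7) ∧ Rg5_q g c (16, 56) = gn (g + 2) (c + 7) := by
  unfold Rg5_q gn
  refine ⟨?_, ?_, ?_, ?_, ?_, ?_⟩ <;>
    refine Prod.ext rfl (Prod.ext ?_ ?_) <;> simp only <;> omega

theorem Rg5_mem (hL : L.GoodN) {g c : ℕ} (h : (g, c) ∈ L.vb) {P : ℕ × ℕ} (hP : P ∈ Tm') :
    Rg5_q g c P ∈ L.vN := by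
  have hg := hL.vb2 _ h
  simp only at hg
  have hr := rect_vb h
  obtain ⟨e1, e2, e3, e4, e5, e6⟩ := Rg5_gn g c
  unfold Tm' at hP
  simp only [List.mem_append, List.mem_cons, List.not_mem_nil, or_false] at hP
  rcases hP with ((hP | hP | hP) | hP) | (hP | hP | hP)
  · rw [hP, e1]
    exact gn_mem (pres_side hL hr (by simp only; omega) (by simp only; omega) (by simp only; omega)
      (by simp only; omega) (Or.inr (Or.inr (Or.inl rfl))))
  · rw [hP, e2]
    exact gn_mem (pres_side hL hr (by simp only; omega) (by simp only; omega) (by simp only; omega)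
      (by simp only; omega) (Or.inr (Or.inr (Or.inl rfl))))
  · rw [hP, e3]
    exact gn_mem (pres_side hL hr (by simp only; omega) (by simp only; omega) (by simp only; omega)
      (by simp only; omega) (Or.inr (Or.inr (Or.inl rfl))))
  · exact mem_vN.2 (Or.inr (Or.inl ⟨g, c, h, P.1, P.2, hP, rfl⟩))
  · rw [hP, e4]
    exact gn_mem (pres_side hL hr (by simp only; omega) (by simp only; omega) (by simp only; omega)
      (by simp only; omega) (Or.inr (Or.inr (Or.inr rfl))))
  · rw [hP, e5]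
    exact gn_mem (pres_side hL hr (by simp only; omega) (by simp only; omega) (by simp only; omega)
      (by simp only; omega) (Or.inr (Or.inr (Or.inr rfl))))
  · rw [hP, e6]
    exact gn_mem (pres_side hL hr (by simp only; omega) (by simp only; omega) (by simp only; omega)
      (by simp only; omega) (Or.inr (Or.inr (Or.inr rfl))))

theorem Rg5_adj (g c : ℕ) {P Q : ℕ × ℕ} (h : arc P Q = true) :
    adj (Rg5_q g c P) (Rg5_q g c Q) = true := by
  unfold Rg5_q
  rw [adj_same, Bool.or_eq_true]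
  left
  rw [arc_iff] at h ⊢
  simp only
  omega

theorem Rg5_ne (g c : ℕ) {P Q : ℕ × ℕ} (h : P ≠ Q) : Rg5_q g c P ≠ Rg5_q g c Q := by
  intro e
  apply h
  unfold Rg5_q at e
  simp only [Prod.mk.injEq, true_and] at e
  exact Prod.ext (by omega) (by omega)

theorem Rg5_dist {V : List Nm} (hp : Real V p) {u v : Nm} (hu : u ∈ V) (hv : v ∈ V) (h : u ≠ v) :
    p u ≠ p v := by
  intro e
  have := hp.sep u hu v hv h
  rw [e, sub_self, norm_zero] at this
  norm_num at this

theorem vb_body (hL : L.GoodN) (hp : Real L.vN p)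
    (ho : ∀ i j, L.cell i j → 0 < cr (hs (gp p) i j) (vs (gp p) i j)) {g c : ℕ}
    (h : (g, c) ∈ L.vb) : gp p (g + 2) c = gp p g c + 2 * hs (gp p) g c ∧
    gp p g (c + 7) = gp p g c + 7 * rho * hs (gp p) g c ∧
    gp p (g + 1) (c + 7) = gp p g (c + 7) + hs (gp p) g c ∧
    gp p (g + 2) (c + 7) = gp p g (c + 7) + 2 * hs (gp p) g c := by
  have hg := hL.vb2 _ h
  simp only at hg
  have hr := rect_vb h
  have hc := (hL.inb _ hr).2.1
  simp only at hc
  obtain ⟨d, rfl⟩ : ∃ d, c = d + 1 := ⟨c - 1, by omega⟩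
  obtain ⟨e1, e2, e3, e4, e5, e6⟩ := Rg5_gn g (d + 1)
  have hu : ∀ P ∈ Tm', ∀ Q ∈ Tm', arc P Q = true →
      ‖p (Rg5_q g (d + 1) P) - p (Rg5_q g (d + 1) Q)‖ = 1 := fun P hP Q hQ hPQ =>
    hp.unit _ (Rg5_mem hL h hP) _ (Rg5_mem hL h hQ) (Rg5_adj g (d + 1) hPQ)
  have hs' : ∀ P ∈ Tm', ∀ Q ∈ Tm', P ≠ Q →
      p (Rg5_q g (d + 1) P) ≠ p (Rg5_q g (d + 1) Q) := fun P hP Q hQ hPQ =>
    Rg5_dist hp (Rg5_mem hL h hP) (Rg5_mem hL h hQ) (Rg5_ne g (d + 1) hPQ)
  have hcell : L.cell g d := cell_ring hL hr (by simp only; omega) (by simp only; omega)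
    (by simp only; omega) (by simp only; omega) (by simp only; omega)
  obtain ⟨t1, t2, t3, t4⟩ := template (fun P => p (Rg5_q g (d + 1) P)) hu hs'
  have n1 := hu (0, 0) (by decide) (8, 0) (by decide) (by decide)
  have n2 := hu (0, 0) (by decide) (5, 7) (by decide) (by decide)
  have n3 := hu (8, 0) (by decide) (5, 7) (by decide) (by decide)
  simp only [e1, e2, e3, e4, e5, e6] at t1 t2 t3 t4
  rw [e1, e2] at n1
  rw [e1] at n2
  rw [e2] at n3
  have hrh := cell_rh hp hcell
  obtain ⟨-, a2, a3⟩ := cell_ang hp hcell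
  have a4 := ho g d hcell
  have hhs : hs (gp p) g d = hs (gp p) g (d + 1) := by
    unfold hs
    linear_combination -hrh
  have g1 := gn_mem (pres_of_cell hcell).1
  have g2 := gn_mem (pres_of_cell hcell).2.1
  have m5 := Rg5_mem hL h (P := (5, 7)) (by decide)
  have s1 := hp.sep _ m5 _ g1 (by
    intro e
    unfold Rg5_q gn at e
    simp only [Prod.mk.injEq, true_and] at e
    omega)
  have s2 := hp.sep _ m5 _ g2 (by
    intro e
    unfold Rg5_q gn at e
    simp only [Prod.mk.injEq, true_and] at e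
    omega)
  have hk : p (Rg5_q g (d + 1) (5, 7)) - gp p g (d + 1) = om * hs (gp p) g (d + 1) := by
    apply orient_tri (v := vs (gp p) g d)
    · unfold hs gp
      rw [norm_sub_rev]
      exact n1
    · exact a2
    · rw [norm_sub_rev]
      exact n2
    · have e : p (Rg5_q g (d + 1) (5, 7)) - gp p g (d + 1) - hs (gp p) g (d + 1) =
          p (Rg5_q g (d + 1) (5, 7)) - p (gn (g + 1) (d + 1)) := by
        unfold hs gp
        ring
      rw [e, norm_sub_rev]
      exact n3
    · rw [← hhs]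
      exact a3
    · rw [← hhs]
      exact a4
    · have e : p (Rg5_q g (d + 1) (5, 7)) - gp p g (d + 1) + vs (gp p) g d =
          p (Rg5_q g (d + 1) (5, 7)) - p (gn g d) := by
        unfold vs gp
        ring
      rw [e]
      exact s1
    · have e : p (Rg5_q g (d + 1) (5, 7)) - gp p g (d + 1) - hs (gp p) g (d + 1) +
          vs (gp p) g d = p (Rg5_q g (d + 1) (5, 7)) - p (gn (g + 1) d) := by
        unfold gp at hrh
        unfold vs hs gp
        linear_combination -hrh
      rw [e]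
      exact s2
  have h7 := seven_rho
  unfold gp hs at hk ⊢
  refine ⟨t1, ?_, t3, t4⟩
  linear_combination t2 + 8 * hk - (p (gn (g + 1) (d + 1)) - p (gn g (d + 1))) * h7

end Pool.Agent.PLN
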