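import Pool.Agent.PLN.Rg5
import Pool.Agent.PLN.Cx5

/-!
# The coupling

Let `P = gp p`, `c ≥ 1` (`inb`), `g ≥ 2` (`vb2`).  Write `h = hs P g c`, `h0 = hs P (g-1) c`,
`h0' = hs P (g-1) (c+7)`, `h1 = hs P (g+2) c`, `h1' = hs P (g+2) (c+7)`.
The left side of the hole: `P (g-1) (c+7) = P (g-1) c + 7 v` (sum of the seven steps
`vs P (g-1) (c+k)`), the right side: `P (g+3) (c+7) = P (g+3) c + 7 v`.  With `vb_body`:
`h0 + 7 rho h = 7 v + h0'` and `7 rho h + h1' = h1 + 7 v`.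
The cells `(g-1, c-1), …, (g+2, c-1)` below the hole are present (`cell_ring`); by `cell_rh`
the vertical steps `vs P i (c-1)`, `i = g-1, …, g+3`, are all `v`, and the horizontal steps satisfy
`hs P i (c-1) = hs P i c`.  So `cell_ang` and the orientation give the hypotheses of `coupling` on
`h, h0, h1`; the norms of `h0', h1'` are `1` because the cells `(g-1, c+7)`, `(g+2, c+7)` above the
hole are present.  `coupling` gives `v = rho h`, and then `h0' = h0`, `h1' = h1`; the other steps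
are given by `vb_body`.
-/

namespace Pool.Agent.PLN

variable {L : Lay} {p : Nm → ℂ}

private theorem Rg6_cell (hp : Real L.vN p)
    (ho : ∀ i j, L.cell i j → 0 < cr (hs (gp p) i j) (vs (gp p) i j)) {i j : ℕ} {v : ℂ}
    (hc : L.cell i j) (hv : vs (gp p) i j = v) :
    vs (gp p) (i + 1) j = v ∧ ‖hs (gp p) i (j + 1)‖ = 1 ∧ ‖v‖ = 1 ∧
      |dt (hs (gp p) i (j + 1)) v| ≤ 1 / 2 ∧ 0 < cr (hs (gp p) i (j + 1)) v := by
  have h1 := cell_rh hp hc
  obtain ⟨h2, h3, h4⟩ := cell_ang hp hc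
  have h5 := ho i j hc
  have h6 : hs (gp p) i j = hs (gp p) i (j + 1) := by
    unfold hs
    linear_combination -h1
  have h7 : vs (gp p) (i + 1) j = vs (gp p) i j := by
    unfold vs
    linear_combination h1
  rw [h6] at h2 h4 h5
  rw [hv] at h3 h4 h5 h7
  exact ⟨h7, h2, h3, h4, h5⟩

private theorem Rg6_sum {P : ℕ → ℕ → ℂ} {i c : ℕ} {v : ℂ} (n : ℕ)
    (h : ∀ k < n, vs P i (c + k) = v) : P i (c + n) = P i c + n * v := by
  induction n with
  | zero => simp
  | succ n ih =>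
    have h1 := ih (fun k hk => h k (by omega))
    have h2 := h n (by omega)
    unfold vs at h2
    rw [add_assoc] at h2
    push_cast
    linear_combination h1 + h2

theorem vb_coupling (hL : L.GoodN) (hp : Real L.vN p)
    (ho : ∀ i j, L.cell i j → 0 < cr (hs (gp p) i j) (vs (gp p) i j)) {g c : ℕ}
    (h : (g, c) ∈ L.vb) (v : ℂ) (hl : ∀ k < 8, vs (gp p) (g - 1) (c - 1 + k) = v)
    (hr : ∀ k < 7, vs (gp p) (g + 3) (c + k) = v) :
    v = rho * hs (gp p) g c ∧
      (∀ i, g - 1 ≤ i → i < g + 3 → hs (gp p) i (c + 7) = hs (gp p) i c) ∧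
      hs (gp p) (g + 1) c = hs (gp p) g c := by
  have hrect := rect_vb h
  obtain ⟨r1, r2, r3, r4⟩ := hL.inb _ hrect
  simp only at r1 r2 r3 r4
  obtain ⟨G, rfl⟩ : ∃ G, g = G + 1 := ⟨g - 1, by omega⟩
  obtain ⟨C, rfl⟩ : ∃ C, c = C + 1 := ⟨c - 1, by omega⟩
  rw [Nat.add_sub_cancel] at hrect
  simp only [Nat.add_sub_cancel] at hl ⊢
  have hring : ∀ i j : ℕ, G ≤ i + 1 → i ≤ G + 4 → C + 1 ≤ j + 1 → j ≤ C + 1 + 7 →
      ¬ (G ≤ i ∧ i < G + 4 ∧ C + 1 ≤ j ∧ j < C + 1 + 7) → L.cell i j :=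
    fun i j a1 a2 a3 a4 a5 => cell_ring hL hrect a1 a2 a3 a4 a5
  have b0 := hring G C (by omega) (by omega) (by omega) (by omega) (by omega)
  have b1 := hring (G + 1) C (by omega) (by omega) (by omega) (by omega) (by omega)
  have b2 := hring (G + 2) C (by omega) (by omega) (by omega) (by omega) (by omega)
  have b3 := hring (G + 3) C (by omega) (by omega) (by omega) (by omega) (by omega)
  have t0 := hring G (C + 1 + 7) (by omega) (by omega) (by omega) (by omega) (by omega)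
  have t3 := hring (G + 3) (C + 1 + 7) (by omega) (by omega) (by omega) (by omega) (by omega)
  obtain ⟨v1, n0, -, d0, c0⟩ := Rg6_cell hp ho b0 (hl 0 (by norm_num))
  obtain ⟨v2, nh, nv, dh, ch⟩ := Rg6_cell hp ho b1 v1
  obtain ⟨v3, -, -, -, -⟩ := Rg6_cell hp ho b2 v2
  obtain ⟨v4, n1, -, d1, c1⟩ := Rg6_cell hp ho b3 v3
  have n0' := (cell_ang hp t0).1
  have n1' := (cell_ang hp t3).1
  obtain ⟨A1, A2, A3, A4⟩ := vb_body hL hp ho h
  have L1 : gp p G (C + 1 + 7) = gp p G (C + 1) + 7 * v := by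
    have := Rg6_sum (P := gp p) (i := G) (c := C + 1) (v := v) 7 (fun k hk => by
      have h1 := hl (k + 1) (by omega)
      rwa [show C + (k + 1) = C + 1 + k by omega] at h1)
    exact_mod_cast this
  have R1 : gp p (G + 4) (C + 1 + 7) = gp p (G + 4) (C + 1) + 7 * v := by
    have := Rg6_sum (P := gp p) (i := G + 4) (c := C + 1) (v := v) 7 (fun k hk => hr k hk)
    exact_mod_cast this
  rw [show G + 1 + 2 = G + 3 by omega] at A1 A4
  rw [show G + 1 + 1 = G + 2 by omega] at A3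
  have eh : hs (gp p) (G + 1) (C + 1) = gp p (G + 2) (C + 1) - gp p (G + 1) (C + 1) := rfl
  have e0 : 7 * (v - rho * hs (gp p) (G + 1) (C + 1)) =
      hs (gp p) G (C + 1) - hs (gp p) G (C + 1 + 7) := by
    have x1 : hs (gp p) G (C + 1) = gp p (G + 1) (C + 1) - gp p G (C + 1) := rfl
    have x2 : hs (gp p) G (C + 1 + 7) = gp p (G + 1) (C + 1 + 7) - gp p G (C + 1 + 7) := rfl
    rw [x1, x2]
    linear_combination A2 - L1
  have e1 : 7 * (v - rho * hs (gp p) (G + 1) (C + 1)) =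
      hs (gp p) (G + 3) (C + 1 + 7) - hs (gp p) (G + 3) (C + 1) := by
    have x1 : hs (gp p) (G + 3) (C + 1) = gp p (G + 4) (C + 1) - gp p (G + 3) (C + 1) := rfl
    have x2 : hs (gp p) (G + 3) (C + 1 + 7) = gp p (G + 4) (C + 1 + 7) - gp p (G + 3) (C + 1 + 7) := rfl
    rw [x1, x2]
    linear_combination -R1 + A4 + A2 - A1
  have hv : v = rho * hs (gp p) (G + 1) (C + 1) :=
    coupling nh nv n0 n0' n1 n1' ch dh c0 d0 c1 d1 e0 e1
  have hz : v - rho * hs (gp p) (G + 1) (C + 1) = 0 := sub_eq_zero.2 hv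
  rw [hz, mul_zero] at e0 e1
  have f2 : hs (gp p) (G + 2) (C + 1) = hs (gp p) (G + 1) (C + 1) := by
    have x1 : hs (gp p) (G + 2) (C + 1) = gp p (G + 3) (C + 1) - gp p (G + 2) (C + 1) := rfl
    rw [x1]
    linear_combination A1 + eh
  refine ⟨hv, ?_, f2⟩
  intro i hi1 hi2
  obtain rfl | rfl | rfl | rfl : i = G ∨ i = G + 1 ∨ i = G + 2 ∨ i = G + 3 := by omega
  · exact (sub_eq_zero.1 e0.symm).symm
  · have x1 : hs (gp p) (G + 1) (C + 1 + 7) = gp p (G + 2) (C + 1 + 7) - gp p (G + 1) (C + 1 + 7) := rfl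
    rw [x1]
    linear_combination A3
  · have x1 : hs (gp p) (G + 2) (C + 1 + 7) = gp p (G + 3) (C + 1 + 7) - gp p (G + 2) (C + 1 + 7) := rfl
    rw [x1, f2]
    linear_combination A4 - A3
  · exact sub_eq_zero.1 e1.symm

end Pool.Agent.PLN
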