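import Pool.Agent.PLN.Core

/-!
# Systems of linear equations between unit complex numbers, and their layouts

`UV`: `m` unknown unit complex numbers (signals); the list `q` of quadruples
`(bo, to, le, ri)` is cut into blocks of `6`, and every block stands for the equation
`∑ (s bo - s to) + rho * ∑ (s ri - s le) = 0`.
-/

namespace Pool.Agent.PLN

/-- systems of linear equations between unit complex numbers -/
structure UV where
  m : ℕ
  q : List (ℕ × ℕ × ℕ × ℕ)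

namespace UV

/-- signal at the bottom of group `x` -/
def bt (I : UV) (x : ℕ) : ℕ := (I.q.getD x (0, 0, 0, 0)).1
/-- signal at the top of group `x` -/
def tp (I : UV) (x : ℕ) : ℕ := (I.q.getD x (0, 0, 0, 0)).2.1
/-- signal at the left of group `x` -/
def lf (I : UV) (x : ℕ) : ℕ := (I.q.getD x (0, 0, 0, 0)).2.2.1
/-- signal at the right of group `x` -/
def rg (I : UV) (x : ℕ) : ℕ := (I.q.getD x (0, 0, 0, 0)).2.2.2

/-- well-formed systems -/
structure Ok (I : UV) : Prop where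
  m2 : 2 ≤ I.m
  len : I.q.length % 6 = 0
  pos : 6 ≤ I.q.length
  lt : ∀ t ∈ I.q, t.1 < I.m ∧ t.2.1 < I.m ∧ t.2.2.1 < I.m ∧ t.2.2.2 < I.m

/-- solutions -/
structure Sol (I : UV) (s : ℕ → ℂ) : Prop where
  nrm : ∀ j < I.m, ‖s j‖ = 1
  eqn : ∀ e < I.q.length / 6,
    (∑ k ∈ Finset.range 6, (s (I.bt (6 * e + k)) - s (I.tp (6 * e + k)))) +
      rho * (∑ k ∈ Finset.range 6, (s (I.rg (6 * e + k)) - s (I.lf (6 * e + k)))) = 0

/-! ### the layout -/

/-- number of groups -/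
def G (I : UV) : ℕ := I.q.length
/-- number of equations -/
def E (I : UV) : ℕ := I.q.length / 6
/-- width of a bundle -/
def W (I : UV) : ℕ := 8 * (I.G + 2)
/-- start of the `j`-th left (bottom) bundle; the `κ + 10` lines before bundle `1` carry the
signal `0` -/
def off (I : UV) (κ j : ℕ) : ℕ := j * (I.W + 1) + (if j = 0 then 0 else κ + 10)
/-- start of the central region -/
def X0 (I : UV) (κ : ℕ) : ℕ := I.off κ I.m
/-- end of the central region -/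
def X1 (I : UV) (κ : ℕ) : ℕ := I.X0 κ + 13 * I.E
/-- start of the `j`-th right (top) bundle -/
def off' (I : UV) (κ j : ℕ) : ℕ := I.X1 κ + j * (I.W + 1)
/-- size of the grid -/
def NN (I : UV) (κ : ℕ) : ℕ := I.X1 κ + I.m * (I.W + 1)
/-- position of group `x` -/
def gx (I : UV) (κ x : ℕ) : ℕ := I.X0 κ + 13 * (x / 6) + 2 * (x % 6)
/-- number used to bound the deviations -/
def N1 (I : UV) : ℕ := 4 * (I.m * (I.W + 1)) + 50 * I.E + 25

/-- vertical couplings -/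
def vbL (I : UV) (κ : ℕ) : List (ℕ × ℕ) :=
  ((List.range I.G).flatMap fun x => [(I.gx κ x, I.off κ (I.bt x) + 8 * x + 1),
    (I.gx κ x, I.off' κ (I.tp x) + 8 * x + 1)]) ++
  ((List.range I.m).flatMap fun j =>
    [(I.off κ j + 8 * I.G + 2, I.off κ j + 8 * I.G + 1),
     (I.off κ j + 8 * I.G + 10, I.off' κ j + 8 * I.G + 1),
     (I.off' κ j + 8 * I.G + 2, I.off κ j + 8 * I.G + 9)])

/-- horizontal couplings -/
def hbL (I : UV) (κ : ℕ) : List (ℕ × ℕ) :=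
  (List.range I.G).flatMap fun x => [(I.gx κ x, I.off κ (I.lf x) + 8 * x + 1),
    (I.gx κ x, I.off' κ (I.rg x) + 8 * x + 1)]

/-- ties at the bottom and left -/
def tbL (I : UV) (κ : ℕ) : List ℕ :=
  (List.range I.m).flatMap fun j => ((List.range I.W).map fun k => I.off κ j + k) ++
    ((List.range I.W).map fun k => I.off' κ j + k)

/-- ties at the top and right -/
def ttL (I : UV) (κ : ℕ) : List ℕ :=
  I.tbL κ ++ (List.range (κ + 10)).map fun k => I.W + k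

/-- the layout of a system; `κ` is the length of the lever -/
def lay (I : UV) (κ : ℕ) : Lay where
  N := I.NN κ
  vb := I.vbL κ
  hb := I.hbL κ
  ch := (List.range I.E).map fun e => I.X0 κ + 13 * e
  tb := I.tbL κ
  tt := I.ttL κ
  b1 := I.off κ 1
  T := I.W + 11

end UV

/-! ### data for the construction of a realisation -/

/-- positions of the grid vertices from which a realisation of the layout `L` can be built; `u` is
the horizontal step at the base of the lever -/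
structure PosD (L : Lay) (P : ℕ → ℕ → ℂ) (u : ℂ) : Prop where
  hu : ∀ i j, L.pres i j → L.pres (i + 1) j → ‖hs P i j‖ = 1
  vu : ∀ i j, L.pres i j → L.pres i (j + 1) → ‖vs P i j‖ = 1
  vbd : ∀ g c, (g, c) ∈ L.vb → ∃ σ : ℂ, ‖σ‖ = 1 ∧ ‖σ - 1‖ ≤ 1 / 1000 ∧ ∀ k : ℕ, k ≤ 2 →
    P (g + k) c = P g c + k * σ ∧ P (g + k) (c + 7) = P g c + (k + 7 * rho) * σ
  hbd : ∀ g c, (g, c) ∈ L.hb → ∃ σ : ℂ, ‖σ‖ = 1 ∧ ‖σ - 1‖ ≤ 1 / 1000 ∧ ∀ k : ℕ, k ≤ 2 →
    P c (g + k) = P c g + k * rho * σ ∧ P (c + 7) (g + k) = P c g + (7 + k * rho) * σ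
  dr : ∀ i j : ℕ, i ≤ L.N → j ≤ L.N → L.pres i j → ‖P i j - (i + j * rho)‖ ≤ 1 / 40
  tieB : ∀ i ∈ L.tb, ‖hs P i 0 - 1‖ ≤ 1 / 1000 ∧ (i + 1 ∈ L.tb → hs P (i + 1) 0 = hs P i 0)
  tieL : ∀ i ∈ L.tb, ‖vs P 0 i - rho‖ ≤ 1 / 1000 ∧ (i + 1 ∈ L.tb → vs P 0 (i + 1) = vs P 0 i)
  tieT : ∀ i ∈ L.tt, ‖hs P i L.N - 1‖ ≤ 1 / 1000 ∧ (i + 1 ∈ L.tt → hs P (i + 1) L.N = hs P i L.N)
  tieR : ∀ i ∈ L.tt, ‖vs P L.N i - rho‖ ≤ 1 / 1000 ∧ (i + 1 ∈ L.tt → vs P L.N (i + 1) = vs P L.N i)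
  unrm : ‖u‖ = 1
  uim : 6 / 5 ≤ ((L.b1 : ℝ) - L.T) * u.im
  ure : ‖u - 1‖ ≤ 1 / 1000
  levB : ∀ i ∈ L.tb, L.b1 ≤ i → i < L.b1 + 10 →
    P i 0 = P L.b1 0 + ((i : ℂ) - L.b1) * u ∧ hs P i 0 = u

end Pool.Agent.PLN
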